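import Pool.Agent.H94.LP1.M01

/-! The parts of this file: H18.Cub.Inst, H18.Cub.Defs, H18.Cub.TayP, H18.Pr.Defs. -/

section

/-!
# Module Inst: the Horace system of the curve `y = x^(t+1)`

Directions: `none` is the curve, `some l` (`l : Fin t`) is the line through the big point `inl l`
and the point at infinity of the curve.  There are `t + s` big points.  The state `a` stands for
degree `dd a` and multiplicities `mu n a`.
-/

namespace Pool.Agent.H18.Cub

open Finset

/-- The degree of a state (the degree of the curve is `t + 1`). -/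
def dd {t : ℕ} (a : Option (Fin t) → ℕ) : ℕ := (t + 1) * a none + ∑ l, a (some l)

/-- The size of a big point before subtracting `n`. -/
def uu {t s : ℕ} (a : Option (Fin t) → ℕ) : Fin t ⊕ Fin s → ℕ
  | .inl l => a none + a (some l)
  | .inr _ => a none

/-- The multiplicities of a state. -/
def mu {t s : ℕ} (n : Fin t ⊕ Fin s → ℕ) (a : Option (Fin t) → ℕ) (b : Fin t ⊕ Fin s) : ℕ :=
  uu a b - n b

/-- The first coordinates of the big points. -/
def xx {t s : ℕ} : Fin t ⊕ Fin s → ℕ
  | .inl l => l.val + 1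
  | .inr j => t + j.val + 1

theorem xx_injective {t s : ℕ} : Function.Injective (xx : Fin t ⊕ Fin s → ℕ) := by
  rintro (i | i) (j | j) h
  · simp only [xx] at h
    congr 1
    ext
    omega
  · simp only [xx] at h
    have := i.2
    omega
  · simp only [xx] at h
    have := j.2
    omega
  · simp only [xx] at h
    congr 1
    ext
    omega

theorem xx_pos {t s : ℕ} (b : Fin t ⊕ Fin s) : 0 < xx b := by
  rcases b with i | i <;> simp [xx]

theorem inst_le_dd_none {t : ℕ} (a : Option (Fin t) → ℕ) (h : 1 ≤ a none) : t + 1 ≤ dd a := by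
  unfold dd
  have : (t + 1) * 1 ≤ (t + 1) * a none := Nat.mul_le_mul_left _ h
  omega

theorem inst_le_dd_some {t : ℕ} (a : Option (Fin t) → ℕ) (l : Fin t) (h : 1 ≤ a (some l)) :
    1 ≤ dd a := by
  unfold dd
  have : a (some l) ≤ ∑ l, a (some l) :=
    single_le_sum (f := fun l => a (some l)) (fun _ _ => Nat.zero_le _) (mem_univ l)
  omega

end Pool.Agent.H18.Cub

end

section

/-!
# Project CUB: Horace method for spaces of polynomials, along parallel and coordinate hyperplanes

`W` is a finite dimensional space of polynomials in the variables `ι`.  The hyperplanes are labelled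
by `Λ`: the label `l` stands for `x_{co l} = va l`.
-/

namespace Pool.Agent.H18.Cub

open Finset Pool.Agent.H18.Ex

variable {ι Λ : Type}

/-- The hyperplanes `x_{co l} = va l`. -/
structure Lines (Λ ι : Type) : Type where
  /-- the coordinate -/
  co : Λ → ι
  /-- its value -/
  va : Λ → ℂ

/-- The hyperplane `l` is different from all the others. -/
def Lines.Sep (g : Lines Λ ι) (l : Λ) : Prop := ∀ l', l' ≠ l → g.co l' ≠ g.co l ∨ g.va l' ≠ g.va l

section

variable [DecidableEq ι]

/-- The actual point of a condition. -/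
def Lines.pt {R : Type} [CommRing R] [Algebra ℂ R] (g : Lines Λ ι) (k : Kind Λ) (q : ι → R) :
    ι → R :=
  match k with
  | .free _ => q
  | .forced l _ _ => Function.update q (g.co l) (algebraMap ℂ R (g.va l))

/-- Substitute `X_i = v`. -/
noncomputable def sub1 (i : ι) (v : ℂ) : MvPolynomial ι ℂ →ₐ[ℂ] MvPolynomial ι ℂ :=
  MvPolynomial.aeval
    (Function.update (MvPolynomial.X : ι → MvPolynomial ι ℂ) i (MvPolynomial.C v))

/-- Restriction to the hyperplane `l` (substitute `x_{co l} = va l`). -/
noncomputable def lay (g : Lines Λ ι) (l : Λ) : MvPolynomial ι ℂ →ₐ[ℂ] MvPolynomial ι ℂ :=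
  sub1 (g.co l) (g.va l)

/-- The traces of the elements of `W` on the hyperplane `l`. -/
noncomputable def trW (g : Lines Λ ι) (l : Λ) (W : Submodule ℂ (MvPolynomial ι ℂ)) :
    Submodule ℂ (MvPolynomial ι ℂ) :=
  W.map (lay g l).toLinearMap

/-- `W'` contains the residual of `W` along the hyperplane `l`. -/
def ResW (g : Lines Λ ι) (l : Λ) (W W' : Submodule ℂ (MvPolynomial ι ℂ)) : Prop :=
  ∀ F ∈ W, lay g l F = 0 →
    ∃ F' ∈ W', F = (MvPolynomial.X (g.co l) - MvPolynomial.C (g.va l)) * F'

end

/-- `F(q + x)`. -/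
noncomputable def trl {R : Type} [CommRing R] [Algebra ℂ R] (q : ι → R) :
    MvPolynomial ι ℂ →ₐ[ℂ] MvPolynomial ι R :=
  MvPolynomial.aeval fun i => MvPolynomial.X i + MvPolynomial.C (q i)

section

variable [Fintype ι]

/-- The multi-indices of a condition. -/
def Lines.Idx (g : Lines Λ ι) (k : Kind Λ) (b : ι → ℕ) : Prop :=
  match k with
  | .free m => ∑ i, b i < m
  | .forced l c e => ∑ i, b i < c ∧ b (g.co l) + e ≤ c

/-- The coefficient function of a polynomial. -/
noncomputable def cf (F : MvPolynomial ι ℂ) (a : ι → ℕ) : ℂ :=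
  F.coeff (Finsupp.equivFunOnFinite.symm a)

/-- The `b`-th Taylor (Hasse) coefficient of `F` at the point `q`. -/
noncomputable def tay {R : Type} [CommRing R] [Algebra ℂ R] (F : MvPolynomial ι ℂ) (q : ι → R)
    (b : ι → ℕ) : R :=
  (trl q F).coeff (Finsupp.equivFunOnFinite.symm b)

variable [DecidableEq ι]

/-- `F` satisfies the condition `k` at the position `q`. -/
def SatP (g : Lines Λ ι) (F : MvPolynomial ι ℂ) (k : Kind Λ) (q : ι → ℂ) : Prop :=
  ∀ b, g.Idx k b → tay F (g.pt k q) b = 0

/-- At the positions `pos` only the zero element of `W` satisfies all conditions. -/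
def InjP {κ : Type} (g : Lines Λ ι) (W : Submodule ℂ (MvPolynomial ι ℂ)) (k : κ → Kind Λ)
    (pos : κ → ι → ℂ) : Prop :=
  ∀ F ∈ W, (∀ i, SatP g F (k i) (pos i)) → F = 0

/-- At some (equivalently, general) positions only the zero element of `W` satisfies all
conditions. -/
def GIP {κ : Type} (g : Lines Λ ι) (W : Submodule ℂ (MvPolynomial ι ℂ)) (k : κ → Kind Λ) : Prop :=
  ∃ pos : κ → ι → ℂ, InjP g W k pos

/-- The same for a multiset of conditions. -/
def GMP (g : Lines Λ ι) (W : Submodule ℂ (MvPolynomial ι ℂ)) (S : Multiset (Kind Λ)) : Prop :=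
  ∃ (n : ℕ) (k : Fin n → Kind Λ), (univ : Finset (Fin n)).val.map k = S ∧ GIP g W k

end

end Pool.Agent.H18.Cub

end

section

/-!
# Module TayP: basic facts on Taylor coefficients of polynomials
-/

namespace Pool.Agent.H18.Cub

open Finset Pool.Agent.H18.Ex

variable {ι Λ : Type} [Fintype ι] {R S : Type} [CommRing R] [Algebra ℂ R] [CommRing S]
  [Algebra ℂ S]

theorem tay_zero (q : ι → R) (b : ι → ℕ) : tay (0 : MvPolynomial ι ℂ) q b = 0 := by
  simp [tay]

theorem tay_add (F G : MvPolynomial ι ℂ) (q : ι → R) (b : ι → ℕ) :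
    tay (F + G) q b = tay F q b + tay G q b := by
  simp [tay]

theorem tay_smul (c : ℂ) (F : MvPolynomial ι ℂ) (q : ι → R) (b : ι → ℕ) :
    tay (c • F) q b = algebraMap ℂ R c * tay F q b := by
  rw [tay, tay, map_smul, MvPolynomial.coeff_smul, Algebra.smul_def]

theorem tay_sum {κ : Type} (s : Finset κ) (F : κ → MvPolynomial ι ℂ) (q : ι → R) (b : ι → ℕ) :
    tay (∑ i ∈ s, F i) q b = ∑ i ∈ s, tay (F i) q b := by
  simp only [tay, map_sum, MvPolynomial.coeff_sum]

/-- Taylor coefficients commute with homomorphisms. -/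
theorem tay_map (φ : R →ₐ[ℂ] S) (F : MvPolynomial ι ℂ) (q : ι → R) (b : ι → ℕ) :
    φ (tay F q b) = tay F (fun i => φ (q i)) b := by
  have h : (MvPolynomial.mapAlgHom (σ := ι) φ).comp (trl q) = trl (fun i => φ (q i)) := by
    apply MvPolynomial.algHom_ext
    intro i
    simp [trl]
  rw [tay, tay, ← h]
  simp [MvPolynomial.coeff_map]

/-- Taylor coefficients of a translate. -/
theorem tay_translate (c : ι → ℂ) (F : MvPolynomial ι ℂ) (q : ι → R) (b : ι → ℕ) :
    tay F (fun i => q i + algebraMap ℂ R (c i)) b = tay (trl c F) q b := by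
  have h : (trl q).comp (trl c) = trl (fun i => q i + algebraMap ℂ R (c i)) := by
    apply MvPolynomial.algHom_ext
    intro i
    have h1 : trl q (MvPolynomial.C (c i)) =
        (MvPolynomial.C (algebraMap ℂ R (c i)) : MvPolynomial ι R) := by
      rw [← MvPolynomial.algebraMap_eq, AlgHom.commutes]
      rfl
    simp only [AlgHom.comp_apply]
    rw [show trl c (MvPolynomial.X i : MvPolynomial ι ℂ) = MvPolynomial.X i + MvPolynomial.C (c i)
      from by simp [trl], map_add, h1]
    simp only [trl, MvPolynomial.aeval_X, MvPolynomial.C_add]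
    ring
  rw [tay, tay, ← h]
  rfl

/-- The constant Taylor coefficient is the value. -/
theorem tay_zero_right (F : MvPolynomial ι ℂ) (q : ι → ℂ) :
    tay F q 0 = MvPolynomial.eval q F := by
  have h1 : (Finsupp.equivFunOnFinite.symm (0 : ι → ℕ)) = 0 := by
    ext i; simp
  have h : (MvPolynomial.aeval (0 : ι → ℂ)).comp (trl q) = MvPolynomial.aeval q := by
    apply MvPolynomial.algHom_ext
    intro i
    simp [trl]
  rw [tay, h1]
  have h2 := DFunLike.congr_fun h F
  rw [AlgHom.comp_apply, MvPolynomial.aeval_eq_eval, MvPolynomial.aeval_eq_eval] at h2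
  rw [← MvPolynomial.constantCoeff_eq, MvPolynomial.constantCoeff_eq]
  have h3 : MvPolynomial.eval (0 : ι → ℂ) (trl q F) = (trl q F).coeff 0 := by
    rw [MvPolynomial.eval_zero, MvPolynomial.constantCoeff_eq]
  rw [← h3]
  exact h2

theorem tayP_monomial (a : ι →₀ ℕ) (c : ℂ) (q : ι → R) (b : ι → ℕ) :
    tay (MvPolynomial.monomial a c) q b = algebraMap ℂ R c * tcr q a b := by
  classical
  unfold tay trl
  rw [MvPolynomial.aeval_monomial, show algebraMap ℂ (MvPolynomial ι R) c =
    MvPolynomial.C (algebraMap ℂ R c) from rfl, MvPolynomial.coeff_C_mul,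
    Finsupp.prod_fintype _ _ (by intro i; simp)]
  congr 1
  have h1 : ∀ j : ι, (MvPolynomial.X j + MvPolynomial.C (q j) : MvPolynomial ι R) ^ (a j) =
      ∑ b ∈ range (a j + 1), MvPolynomial.monomial (Finsupp.single j b)
        ((((a j).choose b : ℕ) : R) * q j ^ (a j - b)) := by
    intro j
    rw [add_pow]
    refine sum_congr rfl fun b _ => ?_
    rw [MvPolynomial.X_pow_eq_monomial, ← MvPolynomial.C_pow, mul_assoc,
      mul_comm (MvPolynomial.C (q j ^ (a j - b)))]
    rw [← map_natCast (MvPolynomial.C : R →+* MvPolynomial ι R), ← MvPolynomial.C_mul, mul_comm,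
      MvPolynomial.C_mul_monomial, mul_one]
  simp_rw [h1]
  rw [prod_univ_sum, MvPolynomial.coeff_sum]
  have h2 : ∀ x ∈ Fintype.piFinset fun j => range (a j + 1),
      MvPolynomial.coeff (Finsupp.equivFunOnFinite.symm b)
        (∏ j, MvPolynomial.monomial (Finsupp.single j (x j))
        ((((a j).choose (x j) : ℕ) : R) * q j ^ (a j - x j)) : MvPolynomial ι R) =
      if x = b then tcr q a b else 0 := by
    intro x _
    rw [← MvPolynomial.monomial_sum_prod, MvPolynomial.coeff_monomial]
    have h4 : (∑ j, Finsupp.single j (x j)) = Finsupp.equivFunOnFinite.symm x := by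
      rw [Finsupp.equivFunOnFinite_symm_eq_sum]
    rw [h4]
    by_cases hx : x = b
    · subst hx
      simp [tcr]
    · rw [if_neg, if_neg hx]
      intro h5
      exact hx (Finsupp.equivFunOnFinite.symm.injective h5)
  rw [sum_congr rfl h2, sum_ite_eq']
  split_ifs with h
  · rfl
  · rw [Fintype.mem_piFinset] at h
    push Not at h
    obtain ⟨j, hj⟩ := h
    rw [mem_range] at hj
    symm
    unfold tcr
    apply prod_eq_zero (mem_univ j)
    rw [Nat.choose_eq_zero_of_lt (by omega)]
    simp

/-- Taylor coefficients by the coefficients of the polynomial (compare `coeff_shift` in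
`Pool.Agent.H18.FatBasic`). -/
theorem tay_eq_tcr (A : Finset (ι → ℕ)) (F : MvPolynomial ι ℂ)
    (hA : ∀ a ∈ F.support, (⇑a : ι → ℕ) ∈ A) (q : ι → R) (b : ι → ℕ) :
    tay F q b = ∑ a ∈ A, algebraMap ℂ R (cf F a) * tcr q a b := by
  classical
  have h1 : tay F q b = ∑ a ∈ F.support, algebraMap ℂ R (F.coeff a) * tcr q a b := by
    conv_lhs => rw [F.as_sum]
    rw [tay_sum]
    exact sum_congr rfl fun a _ => tayP_monomial a _ q b
  rw [h1]
  have h2 : ∑ a ∈ F.support, algebraMap ℂ R (F.coeff a) * tcr q a b =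
      ∑ a ∈ F.support.image (fun a : ι →₀ ℕ => (⇑a : ι → ℕ)),
        algebraMap ℂ R (cf F a) * tcr q a b := by
    rw [sum_image (fun a _ a' _ h => DFunLike.coe_injective h)]
    refine sum_congr rfl fun a _ => ?_
    have h3 : Finsupp.equivFunOnFinite.symm (⇑a : ι → ℕ) = a := by
      ext i; simp
    rw [cf, h3]
  rw [h2]
  refine sum_subset ?_ ?_
  · intro a ha
    rw [mem_image] at ha
    obtain ⟨a', h3, rfl⟩ := ha
    exact hA a' h3
  · intro a _ ha
    have h3 : cf F a = 0 := by
      by_contra h4
      apply ha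
      rw [mem_image]
      refine ⟨Finsupp.equivFunOnFinite.symm a, MvPolynomial.mem_support_iff.2 h4, ?_⟩
      funext i; simp
    rw [h3, map_zero, zero_mul]

variable [DecidableEq ι]

/-- Taylor coefficients of the restriction to `X_i = v`. -/
theorem tay_sub1 (i : ι) (v : ℂ) (F : MvPolynomial ι ℂ) (q : ι → R) (b : ι → ℕ) :
    tay (sub1 i v F) q b =
      if b i = 0 then tay F (Function.update q i (algebraMap ℂ R v)) b else 0 := by
  have h : (trl q).comp (sub1 i v) =
      ((MvPolynomial.aeval (Function.update (MvPolynomial.X : ι → MvPolynomial ι R) i 0)).restrictScalars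
        ℂ).comp (trl (Function.update q i (algebraMap ℂ R v))) := by
    apply MvPolynomial.algHom_ext
    intro j
    by_cases hj : j = i
    · subst hj
      simp only [sub1, trl, AlgHom.comp_apply, MvPolynomial.aeval_X, Function.update_self,
        AlgHom.coe_restrictScalars', map_add, zero_add]
      rw [MvPolynomial.aeval_C, ← MvPolynomial.algebraMap_eq, AlgHom.commutes]
      rfl
    · simp only [sub1, trl, AlgHom.comp_apply, MvPolynomial.aeval_X, Function.update_of_ne hj,
        AlgHom.coe_restrictScalars', map_add]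
      rw [MvPolynomial.aeval_C]
      rfl
  have h0 : ∀ P : MvPolynomial ι R, MvPolynomial.coeff (Finsupp.equivFunOnFinite.symm b)
      (MvPolynomial.aeval (Function.update (MvPolynomial.X : ι → MvPolynomial ι R) i 0) P) =
      if b i = 0 then MvPolynomial.coeff (Finsupp.equivFunOnFinite.symm b) P else 0 := by
    intro P
    induction P using MvPolynomial.induction_on' with
    | monomial a c =>
      rw [MvPolynomial.aeval_monomial, MvPolynomial.algebraMap_eq, MvPolynomial.coeff_C_mul,
        Finsupp.prod_fintype _ _ (by intro i; simp)]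
      by_cases ha : a i = 0
      · have h1 : (∏ j, Function.update (MvPolynomial.X : ι → MvPolynomial ι R) i 0 j ^ a j) =
            MvPolynomial.monomial a 1 := by
          rw [MvPolynomial.monomial_eq, MvPolynomial.C_1, one_mul,
            Finsupp.prod_fintype _ _ (by intro i; simp)]
          refine prod_congr rfl fun j _ => ?_
          by_cases hj : j = i
          · subst hj; rw [ha, pow_zero, pow_zero]
          · rw [Function.update_of_ne hj]
        rw [h1, MvPolynomial.coeff_monomial, MvPolynomial.coeff_monomial]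
        by_cases h2 : a = Finsupp.equivFunOnFinite.symm b
        · have h3 : b i = 0 := by
            rw [← ha, h2]; simp
          simp [h2, h3]
        · simp [h2]
      · have h1 : (∏ j, Function.update (MvPolynomial.X : ι → MvPolynomial ι R) i 0 j ^ a j) =
            0 := by
          refine prod_eq_zero (mem_univ i) ?_
          rw [Function.update_self, zero_pow ha]
        rw [h1, MvPolynomial.coeff_zero, mul_zero, MvPolynomial.coeff_monomial]
        split_ifs with h2 h3
        · exfalso
          apply ha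
          rw [h3, ← h2]; simp
        · rfl
        · rfl
    | add P Q hP hQ =>
      rw [map_add, MvPolynomial.coeff_add, hP, hQ, MvPolynomial.coeff_add]
      split_ifs <;> simp
  rw [tay, tay, ← AlgHom.comp_apply, h]
  exact h0 _

/-- Taylor coefficients of a multiple of `X_i - v`. -/
theorem tay_X_sub_mul (i : ι) (v : ℂ) (F : MvPolynomial ι ℂ) (q : ι → R) (b : ι → ℕ) :
    tay ((MvPolynomial.X i - MvPolynomial.C v) * F) q b =
      (q i - algebraMap ℂ R v) * tay F q b +
        if b i = 0 then 0 else tay F q (Function.update b i (b i - 1)) := by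
  have h1 : trl q ((MvPolynomial.X i - MvPolynomial.C v) * F) =
      MvPolynomial.C (q i - algebraMap ℂ R v) * trl q F + MvPolynomial.X i * trl q F := by
    have h2 : trl q (MvPolynomial.C v) = (MvPolynomial.C (algebraMap ℂ R v) : MvPolynomial ι R) := by
      rw [← MvPolynomial.algebraMap_eq, AlgHom.commutes]
      rfl
    rw [map_mul, map_sub, h2, show trl q (MvPolynomial.X i : MvPolynomial ι ℂ) =
      MvPolynomial.X i + MvPolynomial.C (q i) from by simp [trl], MvPolynomial.C_sub]
    ring
  rw [tay, tay, tay, h1, MvPolynomial.coeff_add, MvPolynomial.coeff_C_mul,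
    MvPolynomial.coeff_X_mul']
  congr 1
  by_cases hb : b i = 0
  · rw [if_pos hb, if_neg]
    simp [hb]
  · rw [if_neg hb, if_pos (by simp [hb])]
    congr 1
    ext j
    by_cases hj : j = i
    · subst hj; simp
    · simp [Function.update_of_ne hj, Ne.symm hj]

omit [Fintype ι] in
theorem pt_map (φ : R →ₐ[ℂ] S) (g : Lines Λ ι) (k : Kind Λ) (q : ι → R) :
    (fun i => φ (g.pt k q i)) = g.pt k (fun i => φ (q i)) := by
  cases k with
  | free m => rfl
  | forced l c e =>
    funext i
    simp only [Lines.pt, Function.update_apply]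
    split_ifs
    · rw [AlgHom.commutes]
    · rfl

omit [DecidableEq ι] in
/-- The multi-indices of a condition form a finite set. -/
theorem Idx_lt (g : Lines Λ ι) (k : Kind Λ) : ∃ D : ℕ, ∀ b, g.Idx k b → ∀ i, b i < D := by
  cases k with
  | free m =>
    refine ⟨m, fun b hb i => ?_⟩
    have hb' : ∑ i, b i < m := hb
    exact lt_of_le_of_lt (single_le_sum (f := b) (fun _ _ => Nat.zero_le _) (mem_univ i)) hb'
  | forced l c e =>
    refine ⟨c, fun b hb i => ?_⟩
    have hb' : ∑ i, b i < c := hb.1
    exact lt_of_le_of_lt (single_le_sum (f := b) (fun _ _ => Nat.zero_le _) (mem_univ i)) hb'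

/-! ### Conditions under restriction and residual -/

/-- The trace of a condition forced to `l` on the hyperplane `l`. -/
theorem satP_lay_forced (g : Lines Λ ι) (l : Λ) (F : MvPolynomial ι ℂ) (c e : ℕ) (q : ι → ℂ)
    (h : SatP g F (Kind.forced l c e) q) :
    SatP g (lay g l F) (Kind.free (if e ≤ c then c else 0)) q := by
  intro b hb
  have hb' : ∑ i, b i < (if e ≤ c then c else 0) := hb
  show tay (lay g l F) q b = 0
  rw [lay, tay_sub1]
  split_ifs with h0
  · refine h b ⟨?_, ?_⟩
    · split_ifs at hb' with hec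
      · exact hb'
      · exact absurd hb' (Nat.not_lt_zero _)
    · split_ifs at hb' with hec
      · omega
      · exact absurd hb' (Nat.not_lt_zero _)
  · rfl

/-- The residual of a condition forced to `l`. -/
theorem satP_resid_forced (g : Lines Λ ι) (l : Λ) (F' : MvPolynomial ι ℂ) (c e : ℕ) (q : ι → ℂ)
    (h : SatP g ((MvPolynomial.X (g.co l) - MvPolynomial.C (g.va l)) * F') (Kind.forced l c e) q) :
    SatP g F' (Kind.forced l (c - 1) e) q := by
  rintro b ⟨h1, h2⟩
  set p := g.pt (Kind.forced l (c - 1) e) q with hp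
  have hpl : p (g.co l) = g.va l := by
    simp [hp, Lines.pt]
  have hsum : ∑ i, Function.update b (g.co l) (b (g.co l) + 1) i = ∑ i, b i + 1 := by
    rw [← add_sum_erase univ _ (mem_univ (g.co l)), ← add_sum_erase univ b (mem_univ (g.co l)),
      Function.update_self]
    have : ∑ x ∈ univ.erase (g.co l), Function.update b (g.co l) (b (g.co l) + 1) x =
        ∑ x ∈ univ.erase (g.co l), b x :=
      sum_congr rfl fun x hx => by rw [Function.update_of_ne (ne_of_mem_erase hx)]
    rw [this]
    ring
  have h3 := h (Function.update b (g.co l) (b (g.co l) + 1)) ⟨by rw [hsum]; omega, by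
    rw [Function.update_self]; omega⟩
  have h4 : g.pt (Kind.forced l c e) q = p := rfl
  rw [h4, tay_X_sub_mul, hpl, Function.update_self, if_neg (Nat.succ_ne_zero _)] at h3
  simpa using h3

/-- Conditions which are not forced to `l` pass to the residual. -/
theorem satP_resid_of_notAt (g : Lines Λ ι) (l : Λ) (hg : g.Sep l) (F' : MvPolynomial ι ℂ)
    (k : Kind Λ) (hk : k.NotAt l) (q : ι → ℂ) (hq : q (g.co l) ≠ g.va l)
    (h : SatP g ((MvPolynomial.X (g.co l) - MvPolynomial.C (g.va l)) * F') k q) :
    SatP g F' k q := by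
  set p := g.pt k q with hp
  have hpl : p (g.co l) - g.va l ≠ 0 := by
    rw [sub_ne_zero]
    cases k with
    | free m => exact hq
    | forced l' c e =>
      have hl' : l' ≠ l := hk
      simp only [hp, Lines.pt, Function.update_apply]
      split_ifs with h1
      · rcases hg l' hl' with h2 | h2
        · exact absurd h1.symm h2
        · exact h2
      · exact hq
  have hdown : ∀ b : ι → ℕ, g.Idx k b → b (g.co l) ≠ 0 →
      g.Idx k (Function.update b (g.co l) (b (g.co l) - 1)) := by
    intro b hb hb0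
    have hle : ∀ i, Function.update b (g.co l) (b (g.co l) - 1) i ≤ b i := by
      intro i
      rw [Function.update_apply]
      split_ifs with h1
      · rw [h1]; omega
      · exact le_rfl
    have hsum : ∑ i, Function.update b (g.co l) (b (g.co l) - 1) i ≤ ∑ i, b i :=
      sum_le_sum fun i _ => hle i
    cases k with
    | free m => exact lt_of_le_of_lt hsum hb
    | forced l' c e =>
      refine ⟨lt_of_le_of_lt hsum hb.1, ?_⟩
      have := hle (g.co l')
      have := hb.2
      omega
  have key : ∀ n : ℕ, ∀ b : ι → ℕ, b (g.co l) = n → g.Idx k b → tay F' p b = 0 := by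
    intro n
    induction n with
    | zero =>
      intro b hb hbI
      have h3 := h b hbI
      rw [← hp, tay_X_sub_mul, if_pos hb, add_zero] at h3
      rcases mul_eq_zero.1 h3 with h4 | h4
      · exact absurd h4 hpl
      · exact h4
    | succ n ih =>
      intro b hb hbI
      have h3 := h b hbI
      have hb0 : b (g.co l) ≠ 0 := by omega
      rw [← hp, tay_X_sub_mul, if_neg hb0,
        ih (Function.update b (g.co l) (b (g.co l) - 1)) (by rw [Function.update_self]; omega)
          (hdown b hbI hb0), add_zero] at h3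
      rcases mul_eq_zero.1 h3 with h4 | h4
      · exact absurd h4 hpl
      · exact h4
  intro b hb
  exact key _ b rfl hb

/-- A free point on the hyperplane `l` is a forced point. -/
theorem satP_forced_one_iff (g : Lines Λ ι) (l : Λ) (F : MvPolynomial ι ℂ) (m : ℕ) (q : ι → ℂ) :
    SatP g F (Kind.forced l m 1) q ↔
      SatP g F (Kind.free m) (Function.update q (g.co l) (g.va l)) := by
  have hpt : g.pt (Kind.forced l m 1) q =
      g.pt (Kind.free m) (Function.update q (g.co l) (g.va l)) := rfl
  constructor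
  · intro h b hb
    have hb' : ∑ i, b i < m := hb
    have h1 : b (g.co l) ≤ ∑ i, b i :=
      single_le_sum (f := b) (fun _ _ => Nat.zero_le _) (mem_univ (g.co l))
    rw [← hpt]
    exact h b ⟨hb', by omega⟩
  · intro h b hb
    rw [hpt]
    exact h b hb.1

end Pool.Agent.H18.Cub

end

section

/-!
# Project PR: many large multiplicities in `ℙ^(R+1)`

Affine coordinates `x_0, …, x_R`.  The big points lie on the curve `x_{i+1} = x_i ^ e`.  For
`v ≤ u ≤ R` we consider polynomials in `x_v, …, x_u`, the restrictions of the polynomials of degree at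
most `d` to the flat `x_{i+1} = x_i ^ e` (`u ≤ i < R`), `x_{v-1} = const`.  They are spanned by the
monomials of cost at most `d`.  In the coordinates `z_v = x_v - p`, `z_i = x_i - x_{i-1}^e`
(`v < i ≤ u`) the curve is given by `z_i = 0` for `i > v`.
-/

namespace Pool.Agent.H18.Pr

open Finset Pool.Agent.H18.Ex Pool.Agent.H18.Cub

/-- The sum of the `A` lowest digits of `a` in base `e` and of the remaining quotient. -/
def kap (e : ℕ) : ℕ → ℕ → ℕ
  | 0, a => a
  | A + 1, a => a % e + kap e A (a / e)

/-- The number of monomials of cost at most `d` (dimension `n`, `A` equations). -/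
def tau (e : ℕ) : ℕ → ℕ → ℕ → ℕ
  | 0, n, d => (d + n).choose n
  | A + 1, n, d => ∑ δ ∈ range e, if δ ≤ d then tau e A n (d - δ) else 0

section

variable {R : ℕ}

/-- The cost of the monomial `x^α`; `u` is the last variable. -/
def cost (e : ℕ) (u : Fin (R + 1)) (α : Fin (R + 1) → ℕ) : ℕ :=
  ∑ i, if i = u then kap e (R - u.val) (α i) else α i

/-- The variable before `i`. -/
def prv (i : Fin (R + 1)) : Fin (R + 1) := ⟨i.val - 1, by omega⟩

/-- `z_v ↦ x_v - p` and `z_i ↦ x_i - x_{i-1}^e` for `v < i ≤ u`. -/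
noncomputable def Th (e : ℕ) (v u : Fin (R + 1)) (p : ℂ) :
    MvPolynomial (Fin (R + 1)) ℂ →ₐ[ℂ] MvPolynomial (Fin (R + 1)) ℂ :=
  MvPolynomial.aeval fun i =>
    if i = v then MvPolynomial.X i - MvPolynomial.C p
    else if v < i ∧ i ≤ u then MvPolynomial.X i - MvPolynomial.X (prv i) ^ e
    else MvPolynomial.X i

/-- The point with `z_v = x`, the other coordinates being `0`. -/
def ptv (v : Fin (R + 1)) (x : ℂ) : Fin (R + 1) → ℂ := fun i => if i = v then x else 0

/-- The polynomials in `z_v, …, z_u` of cost at most `d` (in the coordinates `x`), vanishing to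
order `m b` at the points `z = (x b, 0, …, 0)`. -/
noncomputable def WW (e : ℕ) (v u : Fin (R + 1)) (p : ℂ) (d : ℕ) {B : Type} (x : B → ℂ)
    (m : B → ℕ) : Submodule ℂ (MvPolynomial (Fin (R + 1)) ℂ) where
  carrier := {F | (∀ i, i < v ∨ u < i → F.degreeOf i = 0) ∧
    (∀ α ∈ (Th e v u p F).support, cost e u α ≤ d) ∧
    ∀ b, ∀ β : Fin (R + 1) → ℕ, ∑ i, β i < m b → tay F (ptv v (x b)) β = 0}
  add_mem' := by
    rintro F G ⟨h1, h2, h3⟩ ⟨h4, h5, h6⟩
    refine ⟨fun i hi => ?_, fun α hα => ?_, fun b β hβ => ?_⟩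
    · have := MvPolynomial.degreeOf_add_le i F G
      rw [h1 i hi, h4 i hi, max_self] at this
      omega
    · rw [map_add] at hα
      rcases mem_union.1 (MvPolynomial.support_add hα) with h | h
      · exact h2 α h
      · exact h5 α h
    · rw [tay_add, h3 b β hβ, h6 b β hβ, add_zero]
  zero_mem' := by
    refine ⟨fun i _ => MvPolynomial.degreeOf_zero i, fun α hα => ?_, fun b β _ => tay_zero _ _⟩
    rw [map_zero, MvPolynomial.support_zero] at hα
    exact absurd hα (notMem_empty _)
  smul_mem' := by
    rintro c F ⟨h1, h2, h3⟩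
    refine ⟨fun i hi => ?_, fun α hα => ?_, fun b β hβ => ?_⟩
    · rw [MvPolynomial.smul_eq_C_mul]
      have := MvPolynomial.degreeOf_C_mul_le F i c
      rw [h1 i hi] at this
      omega
    · rw [map_smul] at hα
      exact h2 α (MvPolynomial.support_smul hα)
    · rw [tay_smul, h3 b β hβ, mul_zero]

theorem mem_WW {e : ℕ} {v u : Fin (R + 1)} {p : ℂ} {d : ℕ} {B : Type} {x : B → ℂ} {m : B → ℕ}
    {F : MvPolynomial (Fin (R + 1)) ℂ} : F ∈ WW e v u p d x m ↔
      (∀ i, i < v ∨ u < i → F.degreeOf i = 0) ∧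
      (∀ α ∈ (Th e v u p F).support, cost e u α ≤ d) ∧
      ∀ b, ∀ β : Fin (R + 1) → ℕ, ∑ i, β i < m b → tay F (ptv v (x b)) β = 0 := Iff.rfl

end

/-- At some positions only the zero element of `W` vanishes at the points with multiplicities
`S`. -/
def Fk {ι : Type} [Fintype ι] (W : Submodule ℂ (MvPolynomial ι ℂ)) (S : Multiset ℕ) : Prop :=
  ∃ (k : ℕ) (s : Fin k → ℕ), (univ : Finset (Fin k)).val.map s = S ∧ ∃ pos : Fin k → ι → ℂ,
    ∀ F ∈ W, (∀ i, ∀ β : ι → ℕ, ∑ j, β j < s i → tay F (pos i) β = 0) → F = 0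

/-! ### The main family -/

section

variable {R t s : ℕ}

/-- The space of a state of the main family, top variable `u`. -/
noncomputable def WM (u : Fin (R + 1)) (n : Fin t ⊕ Fin s → ℕ) (a : Option (Fin t) → ℕ) :
    Submodule ℂ (MvPolynomial (Fin (R + 1)) ℂ) :=
  WW (t + 1) 0 u 0 (dd a) (fun b : Fin t ⊕ Fin s => ((xx b : ℕ) : ℂ)) (mu n a)

/-- The sizes of the traces (dimension `j`). -/
def FM (R j : ℕ) (n : Fin t ⊕ Fin s → ℕ) : Option (Fin t) → (Option (Fin t) → ℕ) → ℕ
  | none, a => tau (t + 1) (R + 1 - j) j (dd a) - ∑ b, ell j (mu n a b)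
  | some l, a => tau (t + 1) (R - j) j (dd a) - ell j (mu n a (.inl l))

/-- The virtual dimension (dimension `j + 1`). -/
def RM (R j : ℕ) (n : Fin t ⊕ Fin s → ℕ) (a : Option (Fin t) → ℕ) : ℤ :=
  (tau (t + 1) (R - j) (j + 1) (dd a) : ℤ) - ∑ b, (ell (j + 1) (mu n a b) : ℤ)

/-- The hyperplanes of the main family: `z_u = 0` and `x_0 = l + 1`. -/
noncomputable def gM (t : ℕ) (u : Fin (R + 1)) : Lines (Option (Fin t)) (Fin (R + 1)) where
  co := fun
    | none => u
    | some _ => 0
  va := fun
    | none => 0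
    | some l => ((l.val + 1 : ℕ) : ℂ)

/-- The margins of a state. -/
structure Mg (R D : ℕ) (n : Fin t ⊕ Fin s → ℕ) (N : Option (Fin t) → ℕ) : Prop where
  slack : R * t - 2 ≤ ∑ l, N (some l)
  curve : ∑ b, mu n N b + D ≤ (t + 1) ^ R * dd N
  line : ∀ l, mu n N (.inl l) + D ≤ dd N
  deg : D ≤ dd N

/-- Exactness for the main family. -/
def ExM (t s : ℕ) (u : Fin (R + 1)) (M D : ℕ) : Prop :=
  ∀ (n : Fin t ⊕ Fin s → ℕ) (N : Option (Fin t) → ℕ), Mg R D n N → ∀ S : Multiset ℕ,
    (∀ μ ∈ S, μ ≤ M) →
    tau (t + 1) (R - u.val) (u.val + 1) (dd N) ≤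
      ∑ b, ell (u.val + 1) (mu n N b) + (S.map (ell (u.val + 1))).sum →
    Fk (WM u n N) S

/-- The hyperplane `z_v = 0`. -/
noncomputable def gV (v : Fin (R + 1)) : Lines Unit (Fin (R + 1)) where
  co := fun _ => v
  va := fun _ => 0

/-- Exactness for one big point. -/
def ExV (e : ℕ) (v u : Fin (R + 1)) (M D : ℕ) : Prop :=
  ∀ q : ℕ, 0 < q → ∀ d m : ℕ, m + D ≤ d → ∀ S : Multiset ℕ, (∀ μ ∈ S, μ ≤ M) →
    tau e (R - u.val) (u.val - v.val + 1) d ≤
      ell (u.val - v.val + 1) m + (S.map (ell (u.val - v.val + 1))).sum →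
    Fk (WW e v u (q : ℂ) d (fun _ : Unit => (0 : ℂ)) fun _ => m) S

end

/-- Polynomially bounded functions. -/
def PolyB (f : ℕ → ℕ) : Prop := ∃ K E : ℕ, ∀ M, 1 ≤ M → f M ≤ K * M ^ E

end Pool.Agent.H18.Pr

end
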