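import Pool.Agent.H94.LP1.M07
import Pool.Agent.H94.LP1.M17

/-! The parts of this file: H18.Cub.PeelS_1, H18.Pr.PeelN. -/

section

/-!
# Module PeelS: one Horace step for configurations (abstract version)
-/

namespace Pool.Agent.H18.Cub

open Finset Pool.Agent.H18.Ex

section PeelAux

variable {ι : Type} [DecidableEq ι]

private theorem peelCfg_Φ_self (c : Cfg ι) (l : ι) (I : Multiset ℕ) (μ t u : ℕ) :
    (peelCfg c l I μ t u).Φ l = shf (c.Φ l) + I.map (fun m => (m - 1, 1)) +
      Multiset.replicate t (μ, 2) := Function.update_self _ _ _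

private theorem peelCfg_Φ_ne (c : Cfg ι) {l l' : ι} (h : l' ≠ l) (I : Multiset ℕ) (μ t u : ℕ) :
    (peelCfg c l I μ t u).Φ l' = c.Φ l' := Function.update_of_ne h _ _

private theorem peelCfg_OK {M : ℕ} {c : Cfg ι} (hc : c.OK M) (l : ι) {I : Multiset ℕ}
    (hI : I ≤ c.N) {μ t u : ℕ} (hμ : t ≠ 0 → 2 ≤ μ ∧ μ ≤ M) : (peelCfg c l I μ t u).OK M := by
  refine ⟨fun m hm => hc.hN m ?_, fun l' x hx => ?_⟩
  · exact Multiset.mem_of_le (le_trans tsub_le_self tsub_le_self) hm
  · by_cases h : l' = l
    · subst h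
      rw [peelCfg_Φ_self, Multiset.mem_add, Multiset.mem_add] at hx
      rcases hx with (hx | hx) | hx
      · obtain ⟨y, hy, rfl, h1⟩ := mem_shf hx
        have h2 := hc.hΦ l' y hy
        refine ⟨h2.1, h2.2.1, h1, ?_⟩
        change y.1 - 1 ≤ M
        omega
      · obtain ⟨m, hm, rfl⟩ := Multiset.mem_map.1 hx
        have h2 := hc.hN m (Multiset.mem_of_le hI hm)
        refine ⟨le_rfl, by norm_num, ?_, ?_⟩
        · change 1 ≤ m - 1
          omega
        · change m - 1 ≤ M
          omega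
      · have h1 := Multiset.mem_replicate.1 hx
        have h2 := hμ h1.1
        rw [h1.2]
        exact ⟨by norm_num, le_rfl, h2.1, h2.2⟩
    · rw [peelCfg_Φ_ne c h] at hx
      exact hc.hΦ l' x hx

variable [Fintype ι]

private theorem roles_after (c : Cfg ι) (l : ι) (I : Multiset ℕ) (μ t u : ℕ) :
    (peelCfg c l I μ t u).kinds ≤ (roles c l I μ t u).map (Role.after l μ) := by
  have h3 : ∑ l', ((peelCfg c l I μ t u).Φ l').map (fun x => Kind.forced l' x.1 x.2) =
      ∑ l' ∈ univ.erase l, (c.Φ l').map (fun x => Kind.forced l' x.1 x.2) +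
        (shf (c.Φ l) + I.map (fun m => (m - 1, 1)) + Multiset.replicate t (μ, 2)).map
          (fun x : ℕ × ℕ => Kind.forced l x.1 x.2) := by
    rw [← Finset.sum_erase_add univ _ (Finset.mem_univ l), peelCfg_Φ_self]
    congr 1
    refine Finset.sum_congr rfl fun l' hl' => ?_
    rw [peelCfg_Φ_ne c (Finset.ne_of_mem_erase hl')]
  have h4 : (peelCfg c l I μ t u).kinds = (c.N - I - Multiset.replicate t μ).map Kind.free +
      Multiset.replicate (c.s - u) (Kind.free 1) +
      ∑ l', ((peelCfg c l I μ t u).Φ l').map (fun x => Kind.forced l' x.1 x.2) := rfl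
  have h5 : (shf (c.Φ l)).map (fun x => Kind.forced l x.1 x.2) ≤
      (c.Φ l).map (fun x => Kind.forced l (x.1 - 1) x.2) := by
    have h6 : shf (c.Φ l) ≤ (c.Φ l).map fun x => (x.1 - 1, x.2) := Multiset.filter_le _ _
    have h7 := Multiset.map_le_map (f := fun x : ℕ × ℕ => Kind.forced l x.1 x.2) h6
    rw [Multiset.map_map] at h7
    exact h7
  rw [h4, h3]
  unfold roles
  simp only [Multiset.map_add, map_finset_sum, Multiset.map_map, Multiset.map_replicate,
    Function.comp_def, Role.after]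
  calc (c.N - I - Multiset.replicate t μ).map Kind.free +
      Multiset.replicate (c.s - u) (Kind.free 1) +
      (∑ l' ∈ univ.erase l, (c.Φ l').map (fun x => Kind.forced l' x.1 x.2) +
        ((shf (c.Φ l)).map (fun x => Kind.forced l x.1 x.2) +
          I.map (fun m => Kind.forced l (m - 1) 1) +
          Multiset.replicate t (Kind.forced l μ 2)))
      ≤ (c.N - I - Multiset.replicate t μ).map Kind.free +
      Multiset.replicate (c.s - u) (Kind.free 1) +
      (∑ l' ∈ univ.erase l, (c.Φ l').map (fun x => Kind.forced l' x.1 x.2) +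
        ((c.Φ l).map (fun x => Kind.forced l (x.1 - 1) x.2) +
          I.map (fun m => Kind.forced l (m - 1) 1) +
          Multiset.replicate t (Kind.forced l μ 2))) := by
        gcongr
    _ = (c.N - I - Multiset.replicate t μ).map (fun m => Kind.free m) +
      Multiset.replicate (c.s - u) (Kind.free 1) +
      ∑ l' ∈ univ.erase l, (c.Φ l').map (fun x => Kind.forced l' x.1 x.2) +
      (c.Φ l).map (fun x => Kind.forced l (x.1 - 1) x.2) +
      I.map (fun m => Kind.forced l (m - 1) 1) +
      Multiset.replicate t (Kind.forced l μ 2) := by abel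
    _ ≤ _ := Multiset.le_add_right _ _

private theorem peelCfg_K (Y : Sys ι) {M : ℕ} (a : ι → ℕ) (l : ι) (ha : 1 ≤ a l)
    (c : Cfg ι) (hc : c.OK M) {I : Multiset ℕ} (hI : I ≤ c.N) {μ t u : ℕ} (hμ1 : 1 ≤ μ)
    (ht : Multiset.replicate t μ ≤ c.N - I) (hu : u ≤ c.s)
    (hsum : c.tr 1 l + (I.map (ell 1)).sum + t + u = Y.F l a)
    (h : Y.K (dn l a) (peelCfg c l I μ t u).kinds) : Y.K a c.kinds := by
  rw [← roles_before c l hI ht hu]
  apply Y.step a l ha μ hμ1
  · exact roles_notAt c l I μ t u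
  · have h1 := roles_layer (n := 1) le_rfl hc l I μ t u
    rw [Multiset.map_map] at h1
    have h2 : ((roles c l I μ t u).map fun r => ell 1 r.layer).sum =
        ((roles c l I μ t u).map (ell 1 ∘ Role.layer)).sum := rfl
    rw [h2, h1, hsum]
  · exact Y.mono _ _ _ (roles_after c l I μ t u) h

omit [Fintype ι] in
private theorem peelCfg_tr {n M : ℕ} (hn : 1 ≤ n) {c : Cfg ι} (hc : c.OK M) (l : ι)
    {I : Multiset ℕ} (hI : I ≤ c.N) (μ t u : ℕ) :
    M * (peelCfg c l I μ t u).tr n l ≤ (M - 1) * (c.tr n l + (I.map (ell n)).sum) +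
      M * (t * ell n μ) := by
  have h1 : (peelCfg c l I μ t u).tr n l = trS n (shf (c.Φ l)) +
      trS n (I.map (fun m => (m - 1, 1))) + trS n (Multiset.replicate t (μ, 2)) := by
    unfold Cfg.tr
    rw [peelCfg_Φ_self, ← trS_add, ← trS_add]
    rfl
  have h2 : trS n (Multiset.replicate t (μ, 2)) = t * ell n μ := by
    unfold trS
    rw [Multiset.map_replicate, Multiset.sum_replicate, smul_eq_mul]
  have h3 := trS_shf hn (c.Φ l) (fun x hx => hc.hΦ l x hx)
  have h4 : trS n (c.Φ l) = c.tr n l := rfl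
  have h5 : M * trS n (I.map (fun m => (m - 1, 1))) ≤ (M - 1) * (I.map (ell n)).sum := by
    have h6 : ∀ m ∈ I, 2 ≤ m ∧ m ≤ M := fun m hm => hc.hN m (Multiset.mem_of_le hI hm)
    clear h1 h2 h3 h4 hI
    unfold trS
    rw [Multiset.map_map]
    induction I using Multiset.induction_on with
    | empty => simp
    | cons m I ih =>
      have ih' := ih fun m' hm' => h6 m' (Multiset.mem_cons_of_mem hm')
      have h7 := h6 m (Multiset.mem_cons_self m I)
      rw [Multiset.map_cons, Multiset.map_cons, Multiset.sum_cons, Multiset.sum_cons,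
        Nat.mul_add, Nat.mul_add]
      have h8 := ell_ratio (n := n) (c := m - 1) (M := M) hn (by omega)
      have h9 : m - 1 + 1 = m := by omega
      rw [h9] at h8
      exact Nat.add_le_add h8 ih'
  rw [h1, h2, Nat.mul_add, Nat.mul_add, Nat.mul_add]
  rw [h4] at h3
  omega

private theorem peelCfg_sz {n M : ℕ} {c : Cfg ι} (hc : c.OK M) (l : ι)
    {I : Multiset ℕ} (hI : I ≤ c.N) {μ t u : ℕ} (hμ1 : 1 ≤ μ)
    (ht : Multiset.replicate t μ ≤ c.N - I) (hu : u ≤ c.s) :
    (peelCfg c l I μ t u).sz n + (c.tr n l + (I.map (ell n)).sum + t + u) = c.sz n := by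
  have h1 : (peelCfg c l I μ t u).fl n l = flS n (shf (c.Φ l)) +
      flS n (I.map (fun m => (m - 1, 1))) + flS n (Multiset.replicate t (μ, 2)) := by
    unfold Cfg.fl
    rw [peelCfg_Φ_self, ← flS_add, ← flS_add]
    rfl
  have h2 : flS n (Multiset.replicate t (μ, 2)) + t = t * ell (n + 1) μ := by
    unfold flS
    rw [Multiset.map_replicate, Multiset.sum_replicate, smul_eq_mul]
    have h3 := ell_pos (n + 1) hμ1
    change t * (ell (n + 1) μ + 1 - 2) + t = t * ell (n + 1) μ
    have h4 : ell (n + 1) μ = (ell (n + 1) μ + 1 - 2) + 1 := by omega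
    conv_rhs => rw [h4]
    ring
  have h3 := flS_shf (n := n) (c.Φ l) (fun x hx => hc.hΦ l x hx)
  have h4 : flS n (c.Φ l) = c.fl n l := rfl
  have h4' : trS n (c.Φ l) = c.tr n l := rfl
  have h5 : flS n (I.map (fun m => (m - 1, 1))) + (I.map (ell n)).sum =
      (I.map (ell (n + 1))).sum := by
    have h6 : ∀ m ∈ I, 2 ≤ m ∧ m ≤ M := fun m hm => hc.hN m (Multiset.mem_of_le hI hm)
    clear h1 h2 h3 h4 h4' hI ht
    unfold flS
    rw [Multiset.map_map]
    induction I using Multiset.induction_on with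
    | empty => simp
    | cons m I ih =>
      have ih' := ih fun m' hm' => h6 m' (Multiset.mem_cons_of_mem hm')
      have h7 := h6 m (Multiset.mem_cons_self m I)
      rw [Multiset.map_cons, Multiset.map_cons, Multiset.map_cons, Multiset.sum_cons,
        Multiset.sum_cons, Multiset.sum_cons, ← ih']
      have h8 := ell_succ n (m - 1)
      have h9 : m - 1 + 1 = m := by omega
      rw [h9] at h8
      simp only [Function.comp_apply]
      omega
  have h6 : ∑ l', (peelCfg c l I μ t u).fl n l' =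
      ∑ l' ∈ univ.erase l, c.fl n l' + (peelCfg c l I μ t u).fl n l := by
    rw [← Finset.sum_erase_add univ _ (Finset.mem_univ l)]
    congr 1
    refine Finset.sum_congr rfl fun l' hl' => ?_
    unfold Cfg.fl
    rw [peelCfg_Φ_ne c (Finset.ne_of_mem_erase hl')]
  have h7 : ∑ l', c.fl n l' = ∑ l' ∈ univ.erase l, c.fl n l' + c.fl n l :=
    (Finset.sum_erase_add univ _ (Finset.mem_univ l)).symm
  have h8 := sum_map_N (n := n) c hI ht
  have h9 : (peelCfg c l I μ t u).nsz n =
      ((c.N - I - Multiset.replicate t μ).map (ell (n + 1))).sum + (c.s - u) := rfl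
  have h10 : c.nsz n = (c.N.map (ell (n + 1))).sum + c.s := rfl
  unfold Cfg.sz
  rw [h6, h7, h9, h10]
  omega

end PeelAux

variable {ι : Type} [Fintype ι] [DecidableEq ι]

end Pool.Agent.H18.Cub

end

section

/-!
# Module PeelN: one Horace step for configurations (abstract version, traces of dimension `n`)
-/

namespace Pool.Agent.H18.Pr

open Finset Pool.Agent.H18.Ex Pool.Agent.H18.Cub

section PeelAux

theorem trS_add (n : ℕ) (S T : Multiset (ℕ × ℕ)) : trS n (S + T) = trS n S + trS n T := by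
  unfold trS
  rw [Multiset.map_add, Multiset.sum_add]

theorem flS_add (n : ℕ) (S T : Multiset (ℕ × ℕ)) : flS n (S + T) = flS n S + flS n T := by
  unfold flS
  rw [Multiset.map_add, Multiset.sum_add]

private theorem shf_zero : shf 0 = 0 := rfl

private theorem shf_cons (x : ℕ × ℕ) (S : Multiset (ℕ × ℕ)) :
    shf (x ::ₘ S) = if x.2 ≤ x.1 - 1 then (x.1 - 1, x.2) ::ₘ shf S else shf S := by
  unfold shf
  rw [Multiset.map_cons]
  by_cases h : x.2 ≤ x.1 - 1
  · rw [if_pos h]
    exact Multiset.filter_cons_of_pos (p := fun y : ℕ × ℕ => y.2 ≤ y.1) _ h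
  · rw [if_neg h]
    exact Multiset.filter_cons_of_neg (p := fun y : ℕ × ℕ => y.2 ≤ y.1) _ h

theorem mem_shf {x : ℕ × ℕ} {S : Multiset (ℕ × ℕ)} (hx : x ∈ shf S) :
    ∃ y ∈ S, x = (y.1 - 1, y.2) ∧ y.2 ≤ y.1 - 1 := by
  unfold shf at hx
  rw [Multiset.mem_filter, Multiset.mem_map] at hx
  obtain ⟨⟨y, hy, rfl⟩, h⟩ := hx
  exact ⟨y, hy, rfl, h⟩

theorem trS_shf {n M : ℕ} (hn : 1 ≤ n) (S : Multiset (ℕ × ℕ))
    (hS : ∀ x ∈ S, 1 ≤ x.2 ∧ x.2 ≤ 2 ∧ x.2 ≤ x.1 ∧ x.1 ≤ M) :
    M * trS n (shf S) ≤ (M - 1) * trS n S := by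
  induction S using Multiset.induction_on with
  | empty => simp [shf_zero, trS]
  | cons x S ih =>
    have ih' := ih fun y hy => hS y (Multiset.mem_cons_of_mem hy)
    have hx := hS x (Multiset.mem_cons_self x S)
    have h1 : trS n (x ::ₘ S) = ell n x.1 + trS n S := by
      unfold trS
      rw [Multiset.map_cons, Multiset.sum_cons]
    rw [shf_cons, h1]
    by_cases h : x.2 ≤ x.1 - 1
    · rw [if_pos h]
      have h2 : trS n ((x.1 - 1, x.2) ::ₘ shf S) = ell n (x.1 - 1) + trS n (shf S) := by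
        unfold trS
        rw [Multiset.map_cons, Multiset.sum_cons]
      rw [h2]
      have h3 := ell_ratio (n := n) (c := x.1 - 1) (M := M) hn (by omega)
      have h4 : x.1 - 1 + 1 = x.1 := by omega
      rw [h4] at h3
      rw [Nat.mul_add, Nat.mul_add]
      exact Nat.add_le_add h3 ih'
    · rw [if_neg h, Nat.mul_add]
      exact le_trans ih' (Nat.le_add_left _ _)

theorem flS_shf {n M : ℕ} (S : Multiset (ℕ × ℕ))
    (hS : ∀ x ∈ S, 1 ≤ x.2 ∧ x.2 ≤ 2 ∧ x.2 ≤ x.1 ∧ x.1 ≤ M) :
    flS n S = flS n (shf S) + trS n S := by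
  induction S using Multiset.induction_on with
  | empty => simp [shf_zero, trS, flS]
  | cons x S ih =>
    have ih' := ih fun y hy => hS y (Multiset.mem_cons_of_mem hy)
    obtain ⟨hx1, hx2, hx3, -⟩ := hS x (Multiset.mem_cons_self x S)
    have h1 : trS n (x ::ₘ S) = ell n x.1 + trS n S := by
      unfold trS
      rw [Multiset.map_cons, Multiset.sum_cons]
    have h0 : flS n (x ::ₘ S) = (ell (n + 1) x.1 + 1 - x.2) + flS n S := by
      unfold flS
      rw [Multiset.map_cons, Multiset.sum_cons]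
    have h5 := ell_succ n (x.1 - 1)
    have h4 : x.1 - 1 + 1 = x.1 := by omega
    rw [h4] at h5
    have h6 := ell_pos n (m := x.1) (by omega)
    rw [shf_cons, h1, h0, ih']
    by_cases h : x.2 ≤ x.1 - 1
    · rw [if_pos h]
      have h2 : flS n ((x.1 - 1, x.2) ::ₘ shf S) =
          (ell (n + 1) (x.1 - 1) + 1 - x.2) + flS n (shf S) := by
        unfold flS
        rw [Multiset.map_cons, Multiset.sum_cons]
      rw [h2]
      have h7 := ell_pos (n + 1) (m := x.1 - 1) (by omega)
      omega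
    · rw [if_neg h]
      have h8 : ell (n + 1) (x.1 - 1) = x.2 - 1 := by
        have h9 : x.1 = x.2 := by omega
        rw [h9]
        have h10 : x.2 = 1 ∨ x.2 = 2 := by omega
        rcases h10 with h10 | h10
        · rw [h10]
          exact ell_zero (by omega)
        · rw [h10]
          exact ell_one _
      omega

variable {ι : Type} [DecidableEq ι]

theorem map_finset_sum {α β γ : Type*} (g : α → β) (s : Finset γ) (F : γ → Multiset α) :
    (∑ i ∈ s, F i).map g = ∑ i ∈ s, (F i).map g :=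
  map_sum (Multiset.mapAddMonoidHom g) F s

variable [Fintype ι]

/-- The roles of the conditions. -/
def roles (c : Cfg ι) (l : ι) (I : Multiset ℕ) (μ t u : ℕ) : Multiset (Role ι) :=
  (c.N - I - Multiset.replicate t μ).map (fun m => Role.stay (Kind.free m)) +
    Multiset.replicate (c.s - u) (Role.stay (Kind.free 1)) +
    ∑ l' ∈ univ.erase l, (c.Φ l').map (fun x => Role.stay (Kind.forced l' x.1 x.2)) +
    (c.Φ l).map (fun x => Role.here x.1 x.2) + I.map (fun m => Role.ord m) +
    Multiset.replicate t Role.dif + Multiset.replicate u (Role.ord 1)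

theorem roles_before (c : Cfg ι) (l : ι) {I : Multiset ℕ} (hI : I ≤ c.N) {μ t u : ℕ}
    (ht : Multiset.replicate t μ ≤ c.N - I) (hu : u ≤ c.s) :
    (roles c l I μ t u).map (Role.before l μ) = c.kinds := by
  have h1 : c.N = (c.N - I - Multiset.replicate t μ) + I + Multiset.replicate t μ := by
    rw [add_right_comm, tsub_add_cancel_of_le ht, tsub_add_cancel_of_le hI]
  have h2 : Multiset.replicate c.s (Kind.free 1 : Kind ι) =
      Multiset.replicate (c.s - u) (Kind.free 1) + Multiset.replicate u (Kind.free 1) := by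
    rw [← Multiset.replicate_add, Nat.sub_add_cancel hu]
  have h3 : ∑ l', (c.Φ l').map (fun x => Kind.forced l' x.1 x.2) =
      ∑ l' ∈ univ.erase l, (c.Φ l').map (fun x => Kind.forced l' x.1 x.2) +
        (c.Φ l).map (fun x => Kind.forced l x.1 x.2) :=
    (Finset.sum_erase_add univ _ (Finset.mem_univ l)).symm
  have h4 : c.kinds = ((c.N - I - Multiset.replicate t μ) + I +
      Multiset.replicate t μ).map Kind.free + Multiset.replicate c.s (Kind.free 1) +
      ∑ l', (c.Φ l').map (fun x => Kind.forced l' x.1 x.2) := by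
    rw [← h1]
    rfl
  rw [h4, h2, h3]
  unfold roles
  simp only [Multiset.map_add, map_finset_sum, Multiset.map_map, Multiset.map_replicate,
    Function.comp_def, Role.before]
  abel

private theorem sum_ell_zero {n : ℕ} (hn : 1 ≤ n) {α : Type*} (S : Multiset α) :
    (S.map fun _ => ell n 0).sum = 0 := by
  rw [ell_zero hn]
  simp

theorem roles_layer {n M : ℕ} (hn : 1 ≤ n) {c : Cfg ι} (hc : c.OK M) (l : ι)
    (I : Multiset ℕ) (μ t u : ℕ) :
    (((roles c l I μ t u).map Role.layer).map (ell n)).sum =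
      c.tr n l + (I.map (ell n)).sum + t + u := by
  have h1 : ((c.Φ l).map fun x => ell n (if x.2 ≤ x.1 then x.1 else 0)).sum = c.tr n l := by
    unfold Cfg.tr
    congr 1
    refine Multiset.map_congr rfl fun x hx => ?_
    rw [if_pos (hc.hΦ l x hx).2.2.1]
  unfold roles
  simp only [Multiset.map_add, map_finset_sum, Multiset.map_map, Multiset.map_replicate,
    Function.comp_def, Role.layer, Multiset.sum_add]
  rw [h1, sum_ell_zero hn]
  have h2 : (∑ l' ∈ univ.erase l, (c.Φ l').map fun _ => ell n 0).sum = 0 := by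
    have h3 : (∑ l' ∈ univ.erase l, (c.Φ l').map fun _ => ell n 0).sum =
        ∑ l' ∈ univ.erase l, ((c.Φ l').map fun _ => ell n 0).sum :=
      map_sum (Multiset.sumAddMonoidHom) _ _
    rw [h3]
    exact Finset.sum_eq_zero fun l' _ => sum_ell_zero hn _
  rw [h2, ell_one, Multiset.sum_replicate, Multiset.sum_replicate, Multiset.sum_replicate,
    ell_zero hn]
  simp

theorem roles_notAt (c : Cfg ι) (l : ι) (I : Multiset ℕ) (μ t u : ℕ) (k : Kind ι)
    (hk : Role.stay k ∈ roles c l I μ t u) : k.NotAt l := by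
  unfold roles at hk
  simp only [Multiset.mem_add] at hk
  rcases hk with (((((h | h) | h) | h) | h) | h) | h
  · obtain ⟨m, _, hm⟩ := Multiset.mem_map.1 h
    cases hm
    trivial
  · have h1 := (Multiset.mem_replicate.1 h).2
    cases h1
    trivial
  · obtain ⟨l', hl', h1⟩ := Multiset.mem_sum.1 h
    obtain ⟨x, _, hx⟩ := Multiset.mem_map.1 h1
    cases hx
    exact Finset.ne_of_mem_erase hl'
  · obtain ⟨m, _, hm⟩ := Multiset.mem_map.1 h
    cases hm
  · obtain ⟨m, _, hm⟩ := Multiset.mem_map.1 h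
    cases hm
  · have h1 := (Multiset.mem_replicate.1 h).2
    cases h1
  · have h1 := (Multiset.mem_replicate.1 h).2
    cases h1

theorem roles_layer_le {M : ℕ} (hM : 1 ≤ M) {c : Cfg ι} (hc : c.OK M) (l : ι)
    {I : Multiset ℕ} (hI : I ≤ c.N) (μ t u : ℕ) :
    ∀ m ∈ (roles c l I μ t u).map Role.layer, m ≤ M := by
  intro m hm
  obtain ⟨r, hr, rfl⟩ := Multiset.mem_map.1 hm
  unfold roles at hr
  simp only [Multiset.mem_add] at hr
  rcases hr with (((((h | h) | h) | h) | h) | h) | h
  · obtain ⟨m, _, rfl⟩ := Multiset.mem_map.1 h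
    exact Nat.zero_le _
  · rw [(Multiset.mem_replicate.1 h).2]
    exact Nat.zero_le _
  · obtain ⟨l', hl', h1⟩ := Multiset.mem_sum.1 h
    obtain ⟨x, _, rfl⟩ := Multiset.mem_map.1 h1
    exact Nat.zero_le _
  · obtain ⟨x, hx, rfl⟩ := Multiset.mem_map.1 h
    have h2 := hc.hΦ l x hx
    change (if x.2 ≤ x.1 then x.1 else 0) ≤ M
    rw [if_pos h2.2.2.1]
    exact h2.2.2.2
  · obtain ⟨m', hm', rfl⟩ := Multiset.mem_map.1 h
    exact (hc.hN m' (Multiset.mem_of_le hI hm')).2
  · rw [(Multiset.mem_replicate.1 h).2]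
    exact hM
  · rw [(Multiset.mem_replicate.1 h).2]
    exact hM

omit [DecidableEq ι] [Fintype ι] in
theorem sum_map_N {n : ℕ} (c : Cfg ι) {I : Multiset ℕ} (hI : I ≤ c.N) {μ t : ℕ}
    (ht : Multiset.replicate t μ ≤ c.N - I) :
    (c.N.map (ell (n + 1))).sum = ((c.N - I - Multiset.replicate t μ).map (ell (n + 1))).sum +
      (I.map (ell (n + 1))).sum + t * ell (n + 1) μ := by
  have h1 : c.N = (c.N - I - Multiset.replicate t μ) + I + Multiset.replicate t μ := by
    rw [add_right_comm, tsub_add_cancel_of_le ht, tsub_add_cancel_of_le hI]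
  conv_lhs => rw [h1]
  rw [Multiset.map_add, Multiset.map_add, Multiset.sum_add, Multiset.sum_add,
    Multiset.map_replicate, Multiset.sum_replicate, smul_eq_mul]

end PeelAux

variable {ι : Type} [Fintype ι] [DecidableEq ι]

theorem card_le_sum_ell {n M : ℕ} {I : Multiset ℕ} (hI : ∀ m ∈ I, 2 ≤ m ∧ m ≤ M) :
    I.card ≤ (I.map (ell n)).sum ∧ (I.map (ell n)).sum ≤ ell n M * I.card := by
  induction I using Multiset.induction_on with
  | empty => simp
  | cons m I ih =>
    have ih' := ih fun m' hm' => hI m' (Multiset.mem_cons_of_mem hm')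
    have h7 := hI m (Multiset.mem_cons_self m I)
    rw [Multiset.card_cons, Multiset.map_cons, Multiset.sum_cons, Nat.mul_add, Nat.mul_one]
    have h8 := ell_pos n (m := m) (by omega)
    have h9 := ell_mono n h7.2
    constructor
    · omega
    · omega

end Pool.Agent.H18.Pr

end
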