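import Pool.Agent.H94.LP1.M09
import Pool.Agent.H94.LP1.M18

/-! The parts of this file: H18.Pr.PeelN_1, H18.Pr.RunN. -/

section

/-!
# Module PeelN: one Horace step for configurations (abstract version, traces of dimension `n`)
-/

namespace Pool.Agent.H18.Pr

open Finset Pool.Agent.H18.Ex Pool.Agent.H18.Cub

section PeelAux

variable {ι : Type} [DecidableEq ι]

private theorem peelCfg_Φ_self (c : Cfg ι) (l : ι) (I : Multiset ℕ) (μ t u : ℕ) :
    (peelCfg c l I μ t u).Φ l = shf (c.Φ l) + I.map (fun m => (m - 1, 1)) +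
      Multiset.replicate t (μ, 2) := Function.update_self _ _ _

private theorem peelCfg_Φ_ne (c : Cfg ι) {l l' : ι} (h : l' ≠ l) (I : Multiset ℕ) (μ t u : ℕ) :
    (peelCfg c l I μ t u).Φ l' = c.Φ l' := Function.update_of_ne h _ _

private theorem peelCfg_OK {M : ℕ} {c : Cfg ι} (hc : c.OK M) (l : ι) {I : Multiset ℕ}
    (hI : I ≤ c.N) {μ t u : ℕ} (hμ : t ≠ 0 → 2 ≤ μ ∧ μ ≤ M) : (peelCfg c l I μ t u).OK M := by
  refine ⟨fun m hm => hc.hN m ?_, fun l' x hx => ?_⟩
  · exact Multiset.mem_of_le (le_trans tsub_le_self tsub_le_self) hm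
  · by_cases h : l' = l
    · subst h
      rw [peelCfg_Φ_self, Multiset.mem_add, Multiset.mem_add] at hx
      rcases hx with (hx | hx) | hx
      · obtain ⟨y, hy, rfl, h1⟩ := mem_shf hx
        have h2 := hc.hΦ l' y hy
        refine ⟨h2.1, h2.2.1, h1, ?_⟩
        change y.1 - 1 ≤ M
        omega
      · obtain ⟨m, hm, rfl⟩ := Multiset.mem_map.1 hx
        have h2 := hc.hN m (Multiset.mem_of_le hI hm)
        refine ⟨le_rfl, by norm_num, ?_, ?_⟩
        · change 1 ≤ m - 1
          omega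
        · change m - 1 ≤ M
          omega
      · have h1 := Multiset.mem_replicate.1 hx
        have h2 := hμ h1.1
        rw [h1.2]
        exact ⟨by norm_num, le_rfl, h2.1, h2.2⟩
    · rw [peelCfg_Φ_ne c h] at hx
      exact hc.hΦ l' x hx

variable [Fintype ι]

private theorem roles_after (c : Cfg ι) (l : ι) (I : Multiset ℕ) (μ t u : ℕ) :
    (peelCfg c l I μ t u).kinds ≤ (roles c l I μ t u).map (Role.after l μ) := by
  have h3 : ∑ l', ((peelCfg c l I μ t u).Φ l').map (fun x => Kind.forced l' x.1 x.2) =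
      ∑ l' ∈ univ.erase l, (c.Φ l').map (fun x => Kind.forced l' x.1 x.2) +
        (shf (c.Φ l) + I.map (fun m => (m - 1, 1)) + Multiset.replicate t (μ, 2)).map
          (fun x : ℕ × ℕ => Kind.forced l x.1 x.2) := by
    rw [← Finset.sum_erase_add univ _ (Finset.mem_univ l), peelCfg_Φ_self]
    congr 1
    refine Finset.sum_congr rfl fun l' hl' => ?_
    rw [peelCfg_Φ_ne c (Finset.ne_of_mem_erase hl')]
  have h4 : (peelCfg c l I μ t u).kinds = (c.N - I - Multiset.replicate t μ).map Kind.free +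
      Multiset.replicate (c.s - u) (Kind.free 1) +
      ∑ l', ((peelCfg c l I μ t u).Φ l').map (fun x => Kind.forced l' x.1 x.2) := rfl
  have h5 : (shf (c.Φ l)).map (fun x => Kind.forced l x.1 x.2) ≤
      (c.Φ l).map (fun x => Kind.forced l (x.1 - 1) x.2) := by
    have h6 : shf (c.Φ l) ≤ (c.Φ l).map fun x => (x.1 - 1, x.2) := Multiset.filter_le _ _
    have h7 := Multiset.map_le_map (f := fun x : ℕ × ℕ => Kind.forced l x.1 x.2) h6
    rw [Multiset.map_map] at h7
    exact h7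
  rw [h4, h3]
  unfold roles
  simp only [Multiset.map_add, map_finset_sum, Multiset.map_map, Multiset.map_replicate,
    Function.comp_def, Role.after]
  calc (c.N - I - Multiset.replicate t μ).map Kind.free +
      Multiset.replicate (c.s - u) (Kind.free 1) +
      (∑ l' ∈ univ.erase l, (c.Φ l').map (fun x => Kind.forced l' x.1 x.2) +
        ((shf (c.Φ l)).map (fun x => Kind.forced l x.1 x.2) +
          I.map (fun m => Kind.forced l (m - 1) 1) +
          Multiset.replicate t (Kind.forced l μ 2)))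
      ≤ (c.N - I - Multiset.replicate t μ).map Kind.free +
      Multiset.replicate (c.s - u) (Kind.free 1) +
      (∑ l' ∈ univ.erase l, (c.Φ l').map (fun x => Kind.forced l' x.1 x.2) +
        ((c.Φ l).map (fun x => Kind.forced l (x.1 - 1) x.2) +
          I.map (fun m => Kind.forced l (m - 1) 1) +
          Multiset.replicate t (Kind.forced l μ 2))) := by
        gcongr
    _ = (c.N - I - Multiset.replicate t μ).map (fun m => Kind.free m) +
      Multiset.replicate (c.s - u) (Kind.free 1) +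
      ∑ l' ∈ univ.erase l, (c.Φ l').map (fun x => Kind.forced l' x.1 x.2) +
      (c.Φ l).map (fun x => Kind.forced l (x.1 - 1) x.2) +
      I.map (fun m => Kind.forced l (m - 1) 1) +
      Multiset.replicate t (Kind.forced l μ 2) := by abel
    _ ≤ _ := Multiset.le_add_right _ _

private theorem peelCfg_K {n : ℕ} (Y : SysN ι n) {M : ℕ} (hn : 1 ≤ n) (hM : 1 ≤ M) (a : ι → ℕ)
    (l : ι) (ha : 1 ≤ a l) (hE : Y.Gd M l a)
    (c : Cfg ι) (hc : c.OK M) {I : Multiset ℕ} (hI : I ≤ c.N) {μ t u : ℕ} (hμ1 : 1 ≤ μ)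
    (ht : Multiset.replicate t μ ≤ c.N - I) (hu : u ≤ c.s)
    (hsum : c.tr n l + (I.map (ell n)).sum + t + u = Y.F l a)
    (h : Y.K (dn l a) (peelCfg c l I μ t u).kinds) : Y.K a c.kinds := by
  rw [← roles_before c l hI ht hu]
  apply Y.step a l ha μ hμ1
  · exact roles_notAt c l I μ t u
  · exact hE _ (roles_layer_le hM hc l hI μ t u)
      (le_of_eq (by rw [roles_layer hn hc l I μ t u, hsum]))
  · exact Y.mono _ _ _ (roles_after c l I μ t u) h

omit [Fintype ι] in
private theorem peelCfg_tr {n M : ℕ} (hn : 1 ≤ n) {c : Cfg ι} (hc : c.OK M) (l : ι)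
    {I : Multiset ℕ} (hI : I ≤ c.N) (μ t u : ℕ) :
    M * (peelCfg c l I μ t u).tr n l ≤ (M - 1) * (c.tr n l + (I.map (ell n)).sum) +
      M * (t * ell n μ) := by
  have h1 : (peelCfg c l I μ t u).tr n l = trS n (shf (c.Φ l)) +
      trS n (I.map (fun m => (m - 1, 1))) + trS n (Multiset.replicate t (μ, 2)) := by
    unfold Cfg.tr
    rw [peelCfg_Φ_self, ← trS_add, ← trS_add]
    rfl
  have h2 : trS n (Multiset.replicate t (μ, 2)) = t * ell n μ := by
    unfold trS
    rw [Multiset.map_replicate, Multiset.sum_replicate, smul_eq_mul]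
  have h3 := trS_shf hn (c.Φ l) (fun x hx => hc.hΦ l x hx)
  have h4 : trS n (c.Φ l) = c.tr n l := rfl
  have h5 : M * trS n (I.map (fun m => (m - 1, 1))) ≤ (M - 1) * (I.map (ell n)).sum := by
    have h6 : ∀ m ∈ I, 2 ≤ m ∧ m ≤ M := fun m hm => hc.hN m (Multiset.mem_of_le hI hm)
    clear h1 h2 h3 h4 hI
    unfold trS
    rw [Multiset.map_map]
    induction I using Multiset.induction_on with
    | empty => simp
    | cons m I ih =>
      have ih' := ih fun m' hm' => h6 m' (Multiset.mem_cons_of_mem hm')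
      have h7 := h6 m (Multiset.mem_cons_self m I)
      rw [Multiset.map_cons, Multiset.map_cons, Multiset.sum_cons, Multiset.sum_cons,
        Nat.mul_add, Nat.mul_add]
      have h8 := ell_ratio (n := n) (c := m - 1) (M := M) hn (by omega)
      have h9 : m - 1 + 1 = m := by omega
      rw [h9] at h8
      exact Nat.add_le_add h8 ih'
  rw [h1, h2, Nat.mul_add, Nat.mul_add, Nat.mul_add]
  rw [h4] at h3
  omega

private theorem peelCfg_sz {n M : ℕ} {c : Cfg ι} (hc : c.OK M) (l : ι)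
    {I : Multiset ℕ} (hI : I ≤ c.N) {μ t u : ℕ} (hμ1 : 1 ≤ μ)
    (ht : Multiset.replicate t μ ≤ c.N - I) (hu : u ≤ c.s) :
    (peelCfg c l I μ t u).sz n + (c.tr n l + (I.map (ell n)).sum + t + u) = c.sz n := by
  have h1 : (peelCfg c l I μ t u).fl n l = flS n (shf (c.Φ l)) +
      flS n (I.map (fun m => (m - 1, 1))) + flS n (Multiset.replicate t (μ, 2)) := by
    unfold Cfg.fl
    rw [peelCfg_Φ_self, ← flS_add, ← flS_add]
    rfl
  have h2 : flS n (Multiset.replicate t (μ, 2)) + t = t * ell (n + 1) μ := by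
    unfold flS
    rw [Multiset.map_replicate, Multiset.sum_replicate, smul_eq_mul]
    have h3 := ell_pos (n + 1) hμ1
    change t * (ell (n + 1) μ + 1 - 2) + t = t * ell (n + 1) μ
    have h4 : ell (n + 1) μ = (ell (n + 1) μ + 1 - 2) + 1 := by omega
    conv_rhs => rw [h4]
    ring
  have h3 := flS_shf (n := n) (c.Φ l) (fun x hx => hc.hΦ l x hx)
  have h4 : flS n (c.Φ l) = c.fl n l := rfl
  have h4' : trS n (c.Φ l) = c.tr n l := rfl
  have h5 : flS n (I.map (fun m => (m - 1, 1))) + (I.map (ell n)).sum =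
      (I.map (ell (n + 1))).sum := by
    have h6 : ∀ m ∈ I, 2 ≤ m ∧ m ≤ M := fun m hm => hc.hN m (Multiset.mem_of_le hI hm)
    clear h1 h2 h3 h4 h4' hI ht
    unfold flS
    rw [Multiset.map_map]
    induction I using Multiset.induction_on with
    | empty => simp
    | cons m I ih =>
      have ih' := ih fun m' hm' => h6 m' (Multiset.mem_cons_of_mem hm')
      have h7 := h6 m (Multiset.mem_cons_self m I)
      rw [Multiset.map_cons, Multiset.map_cons, Multiset.map_cons, Multiset.sum_cons,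
        Multiset.sum_cons, Multiset.sum_cons, ← ih']
      have h8 := ell_succ n (m - 1)
      have h9 : m - 1 + 1 = m := by omega
      rw [h9] at h8
      simp only [Function.comp_apply]
      omega
  have h6 : ∑ l', (peelCfg c l I μ t u).fl n l' =
      ∑ l' ∈ univ.erase l, c.fl n l' + (peelCfg c l I μ t u).fl n l := by
    rw [← Finset.sum_erase_add univ _ (Finset.mem_univ l)]
    congr 1
    refine Finset.sum_congr rfl fun l' hl' => ?_
    unfold Cfg.fl
    rw [peelCfg_Φ_ne c (Finset.ne_of_mem_erase hl')]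
  have h7 : ∑ l', c.fl n l' = ∑ l' ∈ univ.erase l, c.fl n l' + c.fl n l :=
    (Finset.sum_erase_add univ _ (Finset.mem_univ l)).symm
  have h8 := sum_map_N (n := n) c hI ht
  have h9 : (peelCfg c l I μ t u).nsz n =
      ((c.N - I - Multiset.replicate t μ).map (ell (n + 1))).sum + (c.s - u) := rfl
  have h10 : c.nsz n = (c.N.map (ell (n + 1))).sum + c.s := rfl
  unfold Cfg.sz
  rw [h6, h7, h9, h10]
  omega

end PeelAux

variable {ι : Type} [Fintype ι] [DecidableEq ι]

/-- One step for configurations, with a prescribed set `I₀` of points to be put on the hyperplane.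

Proof.  Put `a = f - c.tr n l` and `g = ell n`; let `I₀ ≤ I ≤ c.N` be maximal with
`∑_I g ≤ a` (`exists_maximal_fill`), `ρ = a - ∑_I g`; `I.card ≤ a ≤ f` since `g ≥ 1`.

Case (i) `g0 n M ≤ (c.N - I).card`.  Then `ρ < g m ≤ ell n M` for any `m ∈ c.N - I`, and by
`exists_replicate_le` there is `μ ∈ c.N - I` occurring at least `ell n M ≥ ρ` times.  Apply
`GM.step` to the multiset of roles
`(c.N - I - replicate ρ μ).map (stay ∘ free) + replicate c.s (stay (free 1))
 + ∑_{l' ≠ l} (c.Φ l').map (stay ∘ forced l') + (c.Φ l).map here + I.map ord + replicate ρ dif`.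
Its `before` is `c.kinds`; its layer is `Multiset.map Kind.free` of multiplicities `≤ M` with
`∑ ell n = c.tr n l + ∑_I g + ρ = f = |A₀|`, so `GM` holds by `Exa n M A₀` (zeros allowed); its
`after` is `c'.kinds` plus some further (trivial) conditions, where `c'.N = c.N - I - replicate ρ μ`,
`c'.s = c.s`, `c'.Φ l = shf (c.Φ l) + I.map (m - 1, 1) + replicate ρ (μ, 2)` (use `GM.mono`).
Case (ii) `(c.N - I).card < g0 n M`.  Then `c.N.card < f + g0 n M`, so
`c.nsz n ≤ ell (n + 1) M * (f + g0 n M) + c.s`, hence `ρ ≤ f ≤ c.s`; use `ρ` simple points as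
`ord 1` (any `μ`, e.g. `1`, no `dif`): `c'.N = c.N - I`, `c'.s = c.s - ρ`,
`c'.Φ l = shf (c.Φ l) + I.map (m - 1, 1)`.

Numbers: `M * c'.tr n l ≤ (M - 1) * (c.tr n l + ∑_I g) + M * ρ * ell n M` by `ell_ratio`;
`c'.sz n + f = c.sz n` by `ell_succ`.  If `c.N.card < g0 n M` and there is room for all of `c.N`
then `I = c.N` (maximality), case (ii), `c'.N = 0`. -/
theorem peelNs {n : ℕ} (Y : SysN ι n) (M : ℕ) (hn : 1 ≤ n) (hM : 1 ≤ M) (a : ι → ℕ) (l : ι)
    (ha : 1 ≤ a l) (hE : Y.Gd M l a) (f : ℕ) (hf : Y.F l a = f) (c : Cfg ι) (hc : c.OK M) (I₀ : Multiset ℕ) (hI₀ : I₀ ≤ c.N)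
    (hroom : c.tr n l + (I₀.map (ell n)).sum ≤ f)
    (hav : ell (n + 1) M * (f + g0 n M) + f ≤ c.nsz n) :
    ∃ c' : Cfg ι, c'.OK M ∧ (Y.K (dn l a) c'.kinds → Y.K a c.kinds) ∧
      (∀ l' ≠ l, c'.Φ l' = c.Φ l') ∧
      M * c'.tr n l ≤ (M - 1) * f + M * ell n M ^ 2 ∧
      c'.sz n + f = c.sz n ∧
      (c'.s = c.s ∨ c'.N.card < g0 n M) ∧
      c'.N.card ≤ c.N.card ∧
      (c.N.card < g0 n M → g0 n M * ell n M + c.tr n l ≤ f → c'.N = 0) ∧
      (c.N = 0 → c'.N = 0 ∧ c'.Φ l = shf (c.Φ l)) ∧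
      shf (c.Φ l) + I₀.map (fun m => (m - 1, 1)) ≤ c'.Φ l ∧ c'.s ≤ c.s := by
  obtain ⟨I, hI1, hI2, hI3, hI4⟩ := exists_maximal_fill c.N I₀ (ell n) (f - c.tr n l) hI₀
    (by omega)
  set ρ := f - c.tr n l - (I.map (ell n)).sum with hρ
  have hIN : ∀ m ∈ I, 2 ≤ m ∧ m ≤ M := fun m hm => hc.hN m (Multiset.mem_of_le hI2 hm)
  have hcard := card_le_sum_ell (n := n) hIN
  have hg0 : 1 ≤ g0 n M := by
    unfold g0
    exact Nat.mul_pos (by omega) (ell_pos n hM)
  have hsub : (c.N - I).card = c.N.card - I.card := Multiset.card_sub hI2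
  have hIc : I.card ≤ c.N.card := Multiset.card_le_card hI2
  have hmapI : shf (c.Φ l) + I₀.map (fun m => (m - 1, 1)) ≤
      shf (c.Φ l) + I.map (fun m => (m - 1, 1)) := by
    gcongr
  by_cases hcase : g0 n M ≤ (c.N - I).card
  · -- case (i)
    have hNI : ∀ m ∈ c.N - I, 1 ≤ m ∧ m ≤ M := by
      intro m hm
      have := hc.hN m (Multiset.mem_of_le tsub_le_self hm)
      omega
    obtain ⟨μ, hμ, hrep⟩ := exists_replicate_le (c.N - I) M (ell n M) hNI hcase hM
      (ell_pos n hM)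
    have hμ2 := hc.hN μ (Multiset.mem_of_le tsub_le_self hμ)
    have hρle : ρ ≤ ell n M := by
      have h1 := hI4 μ hμ
      have h2 := ell_mono n hμ2.2
      omega
    have ht : Multiset.replicate ρ μ ≤ c.N - I :=
      le_trans (Multiset.replicate_le_replicate μ |>.2 hρle) hrep
    have hsum : c.tr n l + (I.map (ell n)).sum + ρ + 0 = f := by omega
    refine ⟨peelCfg c l I μ ρ 0, peelCfg_OK hc l hI2 (fun _ => hμ2),
      peelCfg_K Y hn hM a l ha hE c hc hI2 (by omega) ht (Nat.zero_le _) (hsum.trans hf.symm),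
      fun l' hl' => peelCfg_Φ_ne c hl' I μ ρ 0, ?_, ?_, Or.inl rfl, ?_, ?_, ?_, ?_,
      Nat.sub_le _ _⟩
    · refine le_trans (peelCfg_tr hn hc l hI2 μ ρ 0) (Nat.add_le_add ?_ ?_)
      · exact Nat.mul_le_mul_left _ (by omega)
      · apply Nat.mul_le_mul_left
        rw [pow_two]
        exact Nat.mul_le_mul hρle (ell_mono n hμ2.2)
    · have h1 := peelCfg_sz (n := n) hc l hI2 (by omega : 1 ≤ μ) ht (Nat.zero_le c.s)
      rw [hsum] at h1
      exact h1
    · exact Multiset.card_le_card (le_trans tsub_le_self tsub_le_self)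
    · intro h
      omega
    · intro h
      rw [h] at hcase hsub
      rw [hsub] at hcase
      simp at hcase
      omega
    · rw [peelCfg_Φ_self]
      exact le_trans hmapI (Multiset.le_add_right _ _)
  · -- case (ii)
    push Not at hcase
    have hρs : ρ ≤ c.s := by
      have h1 : c.nsz n ≤ ell (n + 1) M * c.N.card + c.s := by
        unfold Cfg.nsz
        exact Nat.add_le_add_right (card_le_sum_ell (n := n + 1) hc.hN).2 _
      have h2 : ell (n + 1) M * c.N.card ≤ ell (n + 1) M * (f + g0 n M) :=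
        Nat.mul_le_mul_left _ (by omega)
      omega
    have hsum : c.tr n l + (I.map (ell n)).sum + 0 + ρ = f := by omega
    have ht : Multiset.replicate 0 1 ≤ c.N - I := Multiset.zero_le _
    have hNeq : (peelCfg c l I 1 0 ρ).N = c.N - I := by
      change c.N - I - Multiset.replicate 0 1 = c.N - I
      rw [Multiset.replicate_zero, tsub_zero]
    refine ⟨peelCfg c l I 1 0 ρ, peelCfg_OK hc l hI2 (fun h => absurd rfl h),
      peelCfg_K Y hn hM a l ha hE c hc hI2 le_rfl ht hρs (hsum.trans hf.symm),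
      fun l' hl' => peelCfg_Φ_ne c hl' I 1 0 ρ, ?_, ?_, Or.inr ?_, ?_, ?_, ?_, ?_,
      Nat.sub_le _ _⟩
    · refine le_trans (peelCfg_tr hn hc l hI2 1 0 ρ) (Nat.add_le_add ?_ ?_)
      · exact Nat.mul_le_mul_left _ (by omega)
      · rw [zero_mul, mul_zero]
        exact Nat.zero_le _
    · have h1 := peelCfg_sz (n := n) hc l hI2 (le_refl 1) ht hρs
      rw [hsum] at h1
      exact h1
    · rw [hNeq]
      exact hcase
    · rw [hNeq]
      exact Multiset.card_le_card tsub_le_self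
    · intro hN hroom'
      rw [hNeq]
      by_contra hne
      obtain ⟨m, hm⟩ := Multiset.exists_mem_of_ne_zero hne
      have h1 := hI4 m hm
      have h2 : m ::ₘ I ≤ c.N := by
        have h3 : ({m} : Multiset ℕ) ≤ c.N - I := Multiset.singleton_le.2 hm
        calc m ::ₘ I = {m} + I := (Multiset.singleton_add m I).symm
          _ ≤ (c.N - I) + I := add_le_add_left h3 I
          _ = c.N := tsub_add_cancel_of_le hI2
      have h4 := (card_le_sum_ell (n := n) (I := m ::ₘ I)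
        fun m' hm' => hc.hN m' (Multiset.mem_of_le h2 hm')).2
      rw [Multiset.map_cons, Multiset.sum_cons] at h4
      have h5 := Multiset.card_le_card h2
      have h6 : ell n M * (m ::ₘ I).card ≤ ell n M * g0 n M := Nat.mul_le_mul_left _ (by omega)
      rw [Nat.mul_comm (ell n M) (g0 n M)] at h6
      omega
    · intro h
      have hI0 : I = 0 := by
        rw [h] at hI2
        exact Multiset.le_zero.1 hI2
      refine ⟨?_, ?_⟩
      · rw [hNeq, h, hI0]
        rfl
      · rw [peelCfg_Φ_self, hI0]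
        simp
    · rw [peelCfg_Φ_self]
      exact le_trans hmapI (Multiset.le_add_right _ _)

/-- `peelNs` without the last statement. -/
theorem peelN {n : ℕ} (Y : SysN ι n) (M : ℕ) (hn : 1 ≤ n) (hM : 1 ≤ M) (a : ι → ℕ) (l : ι)
    (ha : 1 ≤ a l) (hE : Y.Gd M l a) (f : ℕ) (hf : Y.F l a = f) (c : Cfg ι) (hc : c.OK M) (I₀ : Multiset ℕ) (hI₀ : I₀ ≤ c.N)
    (hroom : c.tr n l + (I₀.map (ell n)).sum ≤ f)
    (hav : ell (n + 1) M * (f + g0 n M) + f ≤ c.nsz n) :
    ∃ c' : Cfg ι, c'.OK M ∧ (Y.K (dn l a) c'.kinds → Y.K a c.kinds) ∧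
      (∀ l' ≠ l, c'.Φ l' = c.Φ l') ∧
      M * c'.tr n l ≤ (M - 1) * f + M * ell n M ^ 2 ∧
      c'.sz n + f = c.sz n ∧
      (c'.s = c.s ∨ c'.N.card < g0 n M) ∧
      c'.N.card ≤ c.N.card ∧
      (c.N.card < g0 n M → g0 n M * ell n M + c.tr n l ≤ f → c'.N = 0) ∧
      (c.N = 0 → c'.N = 0 ∧ c'.Φ l = shf (c.Φ l)) ∧
      shf (c.Φ l) + I₀.map (fun m => (m - 1, 1)) ≤ c'.Φ l := by
  obtain ⟨c', h1, h2, h3, h4, h5, h6, h7, h8, h9, h10, -⟩ :=
    peelNs Y M hn hM a l ha hE f hf c hc I₀ hI₀ hroom hav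
  exact ⟨c', h1, h2, h3, h4, h5, h6, h7, h8, h9, h10⟩

end Pool.Agent.H18.Pr

end

section

/-!
# Module RunN: running along a good list of directions (abstract version, traces of dimension `n`)
-/

namespace Pool.Agent.H18.Pr

open Finset Pool.Agent.H18.Ex Pool.Agent.H18.Cub

variable {Λ : Type} [Fintype Λ] [DecidableEq Λ] {n : ℕ}

/-- A list of directions along which the state can be peeled; `φ` bounds the traces of the forced
conditions. -/
def GoodN (Y : SysN Λ n) (M : ℕ) : List Λ → (Λ → ℕ) → (Λ → ℕ) → Prop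
  | [], _, _ => True
  | l :: L, a, φ =>
    1 ≤ a l ∧ Y.Gd M l a ∧ φ l + g0 n M * ell n M ≤ Y.F l a ∧
    ((M * ∑ i, φ i + ell (n + 1) M * (Y.F l a + g0 n M) + Y.F l a : ℕ) : ℤ) ≤ Y.R a ∧
    GoodN Y M L (dn l a) (Function.update φ l (nphi n M (Y.F l a)))

/-- The bounds at the end of a list of directions. -/
def ephN (Y : SysN Λ n) (M : ℕ) : List Λ → (Λ → ℕ) → (Λ → ℕ) → (Λ → ℕ)
  | [], _, φ => φ
  | l :: L, a, φ => ephN Y M L (dn l a) (Function.update φ l (nphi n M (Y.F l a)))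

/-- `GoodN` for an appended list. -/
theorem GoodN.append {Y : SysN Λ n} {M : ℕ} (L L' : List Λ) (a φ : Λ → ℕ) :
    GoodN Y M (L ++ L') a φ ↔
      GoodN Y M L a φ ∧ GoodN Y M L' (ew L a) (ephN Y M L a φ) := by
  induction L generalizing a φ with
  | nil =>
    rw [ew_nil']
    change GoodN Y M L' a φ ↔ True ∧ GoodN Y M L' a φ
    exact ⟨fun h => ⟨trivial, h⟩, fun h => h.2⟩
  | cons l L ih =>
    rw [ew_cons']
    change (1 ≤ a l ∧ _ ∧ _ ∧ _ ∧ GoodN Y M (L ++ L') _ _) ↔
      (1 ≤ a l ∧ _ ∧ _ ∧ _ ∧ GoodN Y M L _ _) ∧ _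
    rw [ih]
    constructor
    · rintro ⟨h1, h2, h3, h4, h5, h6⟩
      exact ⟨⟨h1, h2, h3, h4, h5⟩, h6⟩
    · rintro ⟨⟨h1, h2, h3, h4, h5⟩, h6⟩
      exact ⟨h1, h2, h3, h4, h5, h6⟩

theorem ephN_append (Y : SysN Λ n) (M : ℕ) (L L' : List Λ) (a φ : Λ → ℕ) :
    ephN Y M (L ++ L') a φ = ephN Y M L' (ew L a) (ephN Y M L a φ) := by
  induction L generalizing a φ with
  | nil =>
    rw [ew_nil']
    rfl
  | cons l L ih =>
    rw [ew_cons']
    exact ih _ _

private theorem shf_mono {S T : Multiset (ℕ × ℕ)} (h : S ≤ T) : shf S ≤ shf T :=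
  Multiset.filter_le_filter _ (Multiset.map_le_map h)

private theorem shf_iterate_mono (k : ℕ) {S T : Multiset (ℕ × ℕ)} (h : S ≤ T) :
    shf^[k] S ≤ shf^[k] T := by
  induction k generalizing S T with
  | zero => exact h
  | succ k ih =>
    rw [Function.iterate_succ_apply, Function.iterate_succ_apply]
    exact ih (shf_mono h)

/-- Running along a good list. -/
theorem runNs (Y : SysN Λ n) (M : ℕ) (hn : 1 ≤ n) (hM : 1 ≤ M) (L : List Λ) (a φ : Λ → ℕ)
    (hG : GoodN Y M L a φ) (c : Cfg Λ) (hc : c.OK M)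
    (htr : ∀ l, c.tr n l ≤ φ l) (hsz : Y.R a ≤ c.sz n) :
    ∃ c' : Cfg Λ, c'.OK M ∧
      (Y.K (ew L a) c'.kinds → Y.K a c.kinds) ∧
      (∀ l, c'.tr n l ≤ ephN Y M L a φ l) ∧
      (c'.sz n : ℤ) + Y.R a = c.sz n + Y.R (ew L a) ∧
      (c'.s = c.s ∨ c'.N.card < g0 n M) ∧
      c'.N.card ≤ c.N.card ∧
      (L ≠ [] → c.N.card < g0 n M → c'.N = 0) ∧
      (c.N = 0 → c'.N = 0 ∧ ∀ l, c'.Φ l = shf^[L.count l] (c.Φ l)) ∧
      (∀ l, shf^[L.count l] (c.Φ l) ≤ c'.Φ l) ∧
      (∀ l, L.count l = 0 → c'.Φ l = c.Φ l) ∧ c'.s ≤ c.s := by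
  induction L generalizing a φ c with
  | nil =>
    refine ⟨c, hc, ?_, htr, ?_, Or.inl rfl, le_rfl, fun h => absurd rfl h,
      fun h => ⟨h, fun l => rfl⟩, fun l => le_rfl, fun l _ => rfl, le_rfl⟩
    · rw [ew_nil']
      exact id
    · rw [ew_nil']
  | cons l L ih =>
    obtain ⟨h2, hE, h4, h5, h6⟩ := hG
    have hg0 : 1 ≤ g0 n M * ell n M := by
      unfold g0
      exact Nat.mul_pos (Nat.mul_pos (by omega) (ell_pos n hM)) (ell_pos n hM)
    have hfl : ∑ l', c.fl n l' ≤ M * ∑ l', φ l' := by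
      rw [Finset.mul_sum]
      refine Finset.sum_le_sum fun l' _ => ?_
      exact le_trans (Cfg.fl_le n M c hc l') (Nat.mul_le_mul_left _ (htr l'))
    have hszdef : c.sz n = c.nsz n + ∑ l', c.fl n l' := rfl
    have hav : ell (n + 1) M * (Y.F l a + g0 n M) + Y.F l a ≤ c.nsz n := by
      have h7 : ((M * ∑ i, φ i + ell (n + 1) M * (Y.F l a + g0 n M) + Y.F l a : ℕ) : ℤ) ≤
          ((c.sz n : ℕ) : ℤ) := h5.trans hsz
      have h8 := Int.ofNat_le.1 h7
      omega
    have htrl := htr l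
    obtain ⟨c₁, hc₁, hGM, hΦ, htr₁, hsz₁, hs₁, hN₁, hN₁0, hz₁, hle₁, hss₁⟩ :=
      peelNs Y M hn hM a l h2 hE (Y.F l a) rfl c hc 0
        (Multiset.zero_le _) (by rw [Multiset.map_zero, Multiset.sum_zero]; omega) hav
    have hpeel := Y.count a l h2 (by omega)
    have htr₁' : ∀ l', c₁.tr n l' ≤ Function.update φ l (nphi n M (Y.F l a)) l' := by
      intro l'
      by_cases hl' : l' = l
      · subst hl'
        rw [Function.update_self]
        unfold nphi
        have h7 : c₁.tr n l' ≤ ((M - 1) * Y.F l' a + M * ell n M ^ 2) / M := by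
          rw [Nat.le_div_iff_mul_le (by omega), Nat.mul_comm]
          exact htr₁
        rw [Nat.add_mul_div_left _ _ (by omega)] at h7
        exact h7
      · rw [Function.update_of_ne hl']
        have h8 : c₁.tr n l' = c.tr n l' := by
          unfold Cfg.tr
          rw [hΦ l' hl']
        rw [h8]
        exact htr l'
    obtain ⟨c₂, hc₂, hGM₂, htr₂, hsz₂, hs₂, hN₂, hN₂0, hz₂, hle₂, hcnt₂, hss₂⟩ :=
      ih (dn l a) (Function.update φ l (nphi n M (Y.F l a))) h6 c₁ hc₁ htr₁' (by omega)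
    refine ⟨c₂, hc₂, ?_, htr₂, ?_, ?_, le_trans hN₂ hN₁, ?_, ?_, ?_, ?_, le_trans hss₂ hss₁⟩
    · rw [ew_cons']
      exact fun h => hGM (hGM₂ h)
    · rw [ew_cons']
      omega
    · rcases hs₂ with h | h
      · rcases hs₁ with h' | h'
        · exact Or.inl (h.trans h')
        · exact Or.inr (by omega)
      · exact Or.inr h
    · intro _ hlt
      exact (hz₂ (hN₁0 hlt (by omega))).1
    · intro h0
      obtain ⟨h7, h8⟩ := hz₁ h0
      obtain ⟨h9, h10⟩ := hz₂ h7
      refine ⟨h9, fun l' => ?_⟩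
      by_cases hl' : l' = l
      · subst hl'
        rw [List.count_cons_self, Function.iterate_succ_apply, ← h8]
        exact h10 l'
      · rw [List.count_cons_of_ne (fun h => hl' h.symm), ← hΦ l' hl']
        exact h10 l'
    · intro l'
      by_cases hl' : l' = l
      · subst hl'
        rw [List.count_cons_self, Function.iterate_succ_apply]
        rw [Multiset.map_zero, add_zero] at hle₁
        exact le_trans (shf_iterate_mono _ hle₁) (hle₂ l')
      · rw [List.count_cons_of_ne (fun h => hl' h.symm), ← hΦ l' hl']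
        exact hle₂ l'
    · intro l' hcount
      by_cases hl' : l' = l
      · subst hl'
        rw [List.count_cons_self] at hcount
        omega
      · rw [List.count_cons_of_ne (fun h => hl' h.symm)] at hcount
        rw [hcnt₂ l' hcount, hΦ l' hl']

/-- `runNs` without the last statement. -/
theorem runN (Y : SysN Λ n) (M : ℕ) (hn : 1 ≤ n) (hM : 1 ≤ M) (L : List Λ) (a φ : Λ → ℕ)
    (hG : GoodN Y M L a φ) (c : Cfg Λ) (hc : c.OK M)
    (htr : ∀ l, c.tr n l ≤ φ l) (hsz : Y.R a ≤ c.sz n) :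
    ∃ c' : Cfg Λ, c'.OK M ∧
      (Y.K (ew L a) c'.kinds → Y.K a c.kinds) ∧
      (∀ l, c'.tr n l ≤ ephN Y M L a φ l) ∧
      (c'.sz n : ℤ) + Y.R a = c.sz n + Y.R (ew L a) ∧
      (c'.s = c.s ∨ c'.N.card < g0 n M) ∧
      c'.N.card ≤ c.N.card ∧
      (L ≠ [] → c.N.card < g0 n M → c'.N = 0) ∧
      (c.N = 0 → c'.N = 0 ∧ ∀ l, c'.Φ l = shf^[L.count l] (c.Φ l)) ∧
      (∀ l, shf^[L.count l] (c.Φ l) ≤ c'.Φ l) ∧
      (∀ l, L.count l = 0 → c'.Φ l = c.Φ l) := by
  obtain ⟨c', h1, h2, h3, h4, h5, h6, h7, h8, h9, h10, -⟩ :=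
    runNs Y M hn hM L a φ hG c hc htr hsz
  exact ⟨c', h1, h2, h3, h4, h5, h6, h7, h8, h9, h10⟩

end Pool.Agent.H18.Pr

end
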