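import Pool.Agent.H94.LP1.M01

/-! The parts of this file: H18.Ex.Dif, H18.Ex.Dif_2, H18.Ex.Ell, H18.Ex.Sched, H18.Ex.Tay_1, H18.TilePack. -/

section

/-!
# Module Dif: the differential lemma

`F` is a form with coefficients in `ℂ[t]` vanishing to order `μ` at the moving point
`(q, x_l = t)`.  Write `S s n b = ∑_{a ∈ A, a l = s} coeff_n (F a) * ∏_{i ≠ l} binom(a i, b i)
q_i^(a i - b i)` (with `b l = 0`); this is `∑_{a ∈ A} coeff_n (F a) * tcr (update q l 0) a (b + s e_l)`.
Taking the coefficient of `t^n` of the condition with index `b + β e_l` gives, for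
`|b| + β < μ` and all `n`,

  `E β n b := ∑_{i ≤ n} binom(β + i, β) * S (β + i) (n - i) b = 0`.

Identity (for any function `S`): `∑_{β ≤ j} (-1)^β E β (j - β) b = S 0 j b`, because the coefficient
of `S s (j - s) b` is `∑_{β ≤ s} (-1)^β binom(s, β) = 0` for `s > 0`.
-/

namespace Pool.Agent.H18.Ex

open Finset

variable {ι : Type} [Fintype ι] [DecidableEq ι]

/-- The alternating identity: `∑_{β ≤ j} (-1)^β ∑_{i ≤ j - β} binom(β+i, β) S (β+i) (j-β-i) = S 0 j`. -/
theorem alt_identity (S : ℕ → ℕ → ℂ) (j : ℕ) :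
    ∑ β ∈ range (j + 1), (-1 : ℂ) ^ β * ∑ i ∈ range (j - β + 1),
      ((β + i).choose β : ℂ) * S (β + i) (j - β - i) = S 0 j := by
  have h1 : ∀ β ∈ range (j + 1), (-1 : ℂ) ^ β * ∑ i ∈ range (j - β + 1),
      ((β + i).choose β : ℂ) * S (β + i) (j - β - i) =
      ∑ s ∈ Ico β (j + 1), (-1 : ℂ) ^ β * ((s.choose β : ℂ) * S s (j - s)) := by
    intro β hβ
    rw [mem_range] at hβ
    rw [sum_Ico_eq_sum_range, mul_sum]
    have h2 : j - β + 1 = j + 1 - β := by omega
    rw [h2]
    refine sum_congr rfl fun i hi => ?_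
    rw [Nat.sub_sub]
  rw [sum_congr rfl h1]
  rw [sum_comm' (t' := range (j + 1)) (s' := fun s => range (s + 1))]
  · have h3 : ∀ s ∈ range (j + 1), ∑ β ∈ range (s + 1),
        (-1 : ℂ) ^ β * ((s.choose β : ℂ) * S s (j - s)) = if s = 0 then S 0 j else 0 := by
      intro s _
      have h4 := Int.alternating_sum_range_choose (n := s)
      have h5 : ∑ β ∈ range (s + 1), (-1 : ℂ) ^ β * (s.choose β : ℂ) =
          ((∑ m ∈ range (s + 1), (-1 : ℤ) ^ m * (s.choose m : ℤ) : ℤ) : ℂ) := by
        push_cast
        rfl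
      have h6 : ∑ β ∈ range (s + 1), (-1 : ℂ) ^ β * ((s.choose β : ℂ) * S s (j - s)) =
          (∑ β ∈ range (s + 1), (-1 : ℂ) ^ β * (s.choose β : ℂ)) * S s (j - s) := by
        rw [sum_mul]
        exact sum_congr rfl fun β _ => by ring
      rw [h6, h5, h4]
      split_ifs with hs
      · subst hs
        simp
      · simp
    rw [sum_congr rfl h3, sum_ite_eq' (range (j + 1)) 0 fun _ => S 0 j]
    simp
  · intro β s
    simp only [mem_range, mem_Ico]
    omega

/-- The moving point `(q, x_l = t)`. -/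
noncomputable def movPt (l : ι) (q : ι → ℂ) : ι → Polynomial ℂ :=
  fun i => if i = l then Polynomial.X else Polynomial.C (q i)

/-- The part of a Taylor coefficient away from the coordinate `l`. -/
noncomputable def difP (l : ι) (q : ι → ℂ) (a b : ι → ℕ) : ℂ :=
  ∏ i ∈ univ.erase l, (((a i).choose (b i) : ℕ) : ℂ) * q i ^ (a i - b i)

/-- The sums `S s n b`. -/
noncomputable def difS (A : Finset (ι → ℕ)) (l : ι) (F : (ι → ℕ) → Polynomial ℂ) (q : ι → ℂ)
    (b : ι → ℕ) (s n : ℕ) : ℂ :=
  ∑ a ∈ A.filter (fun a => a l = s), (F a).coeff n * difP l q a b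

lemma difP_update (l : ι) (q : ι → ℂ) (a b : ι → ℕ) (β : ℕ) :
    difP l q a (Function.update b l β) = difP l q a b := by
  unfold difP
  refine prod_congr rfl fun i hi => ?_
  rw [Function.update_of_ne (ne_of_mem_erase hi)]

lemma difS_update (A : Finset (ι → ℕ)) (l : ι) (F : (ι → ℕ) → Polynomial ℂ) (q : ι → ℂ)
    (b : ι → ℕ) (β s n : ℕ) : difS A l F q (Function.update b l β) s n = difS A l F q b s n := by
  unfold difS
  exact sum_congr rfl fun a _ => by rw [difP_update]

lemma sum_update_eq (b : ι → ℕ) (l : ι) (β : ℕ) :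
    ∑ i, Function.update b l β i + b l = ∑ i, b i + β := by
  rw [← add_sum_erase univ _ (mem_univ l), ← add_sum_erase univ b (mem_univ l),
    Function.update_self]
  have h1 : ∑ i ∈ univ.erase l, Function.update b l β i = ∑ i ∈ univ.erase l, b i :=
    sum_congr rfl fun i hi => by rw [Function.update_of_ne (ne_of_mem_erase hi)]
  rw [h1]
  ring

end Pool.Agent.H18.Ex

end

section

/-!
# Module Dif: the differential lemma

`F` is a form with coefficients in `ℂ[t]` vanishing to order `μ` at the moving point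
`(q, x_l = t)`.  Write `S s n b = ∑_{a ∈ A, a l = s} coeff_n (F a) * ∏_{i ≠ l} binom(a i, b i)
q_i^(a i - b i)` (with `b l = 0`); this is `∑_{a ∈ A} coeff_n (F a) * tcr (update q l 0) a (b + s e_l)`.
Taking the coefficient of `t^n` of the condition with index `b + β e_l` gives, for
`|b| + β < μ` and all `n`,

  `E β n b := ∑_{i ≤ n} binom(β + i, β) * S (β + i) (n - i) b = 0`.

Identity (for any function `S`): `∑_{β ≤ j} (-1)^β E β (j - β) b = S 0 j b`, because the coefficient
of `S s (j - s) b` is `∑_{β ≤ s} (-1)^β binom(s, β) = 0` for `s > 0`.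
-/

namespace Pool.Agent.H18.Ex

open Finset

variable {ι : Type} [Fintype ι] [DecidableEq ι]

lemma tcr_movPt (l : ι) (q : ι → ℂ) (a b : ι → ℕ) : tcr (movPt l q) a b =
    Polynomial.C (difP l q a b * ((a l).choose (b l) : ℂ)) * Polynomial.X ^ (a l - b l) := by
  unfold tcr difP
  rw [← mul_prod_erase univ _ (mem_univ l)]
  have h1 : movPt l q l = Polynomial.X := by simp [movPt]
  have h2 : ∏ i ∈ univ.erase l, (((a i).choose (b i) : ℕ) : Polynomial ℂ) *
      movPt l q i ^ (a i - b i) = Polynomial.C (∏ i ∈ univ.erase l,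
        (((a i).choose (b i) : ℕ) : ℂ) * q i ^ (a i - b i)) := by
    rw [map_prod]
    refine prod_congr rfl fun i hi => ?_
    have h3 : movPt l q i = Polynomial.C (q i) := by simp [movPt, ne_of_mem_erase hi]
    rw [h3, map_mul, map_pow, map_natCast]
  rw [h1, h2, map_mul, map_natCast]
  ring

/-- The conditions `E β n b = 0`. -/
lemma dif_key {A : Finset (ι → ℕ)} {l : ι} {μ : ℕ} {F : (ι → ℕ) → Polynomial ℂ} {q : ι → ℂ}
    (h : Sat A F (Kind.free μ) (movPt l q)) {b : ι → ℕ} (hb : ∑ i, b i < μ) (n : ℕ) :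
    ∑ i ∈ range (n + 1), ((b l + i).choose (b l) : ℂ) * difS A l F q b (b l + i) (n - i) = 0 := by
  have h1 := congrArg (fun p : Polynomial ℂ => p.coeff n) (h b hb)
  simp only [Kind.pt, Polynomial.finsetSum_coeff, Polynomial.coeff_zero, tcr_movPt] at h1
  rw [← h1]
  unfold difS
  simp only [mul_sum, sum_filter]
  rw [sum_comm]
  refine sum_congr rfl fun a _ => ?_
  have h2 : F a * (Polynomial.C (difP l q a b * ((a l).choose (b l) : ℂ)) *
      Polynomial.X ^ (a l - b l)) = Polynomial.C (difP l q a b * ((a l).choose (b l) : ℂ)) *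
        (F a * Polynomial.X ^ (a l - b l)) := by ring
  rw [h2, Polynomial.coeff_C_mul, Polynomial.coeff_mul_X_pow']
  by_cases h3 : b l ≤ a l
  · by_cases h4 : a l - b l ≤ n
    · rw [if_pos h4, sum_eq_single (a l - b l)]
      · have h5 : b l + (a l - b l) = a l := by omega
        rw [h5, if_pos rfl]
        ring
      · intro i _ hi
        rw [if_neg (by omega), mul_zero]
      · intro h5
        exact absurd (mem_range.mpr (by omega)) h5
    · rw [if_neg h4, mul_zero]
      refine sum_eq_zero fun i hi => ?_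
      rw [mem_range] at hi
      rw [if_neg (by omega), mul_zero]
  · rw [Nat.choose_eq_zero_of_lt (by omega), Nat.cast_zero, mul_zero, zero_mul]
    refine sum_eq_zero fun i _ => ?_
    rw [if_neg (by omega), mul_zero]

/-- The conditions `E β n b = 0`, where the entry of `b` at `l` is ignored. -/
lemma dif_key' {A : Finset (ι → ℕ)} {l : ι} {μ : ℕ} {F : (ι → ℕ) → Polynomial ℂ} {q : ι → ℂ}
    (h : Sat A F (Kind.free μ) (movPt l q)) {b : ι → ℕ} {β : ℕ} (hb : ∑ i, b i + β < μ + b l)
    (n : ℕ) :
    ∑ i ∈ range (n + 1), ((β + i).choose β : ℂ) * difS A l F q b (β + i) (n - i) = 0 := by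
  have h1 := dif_key h (b := Function.update b l β) (by
    have := sum_update_eq b l β
    omega) n
  simpa only [Function.update_self, difS_update] using h1

/-- (D1) For `j < μ` the `j`-th coefficient satisfies the simple condition at `q` on the layer.
Proof: `S 0 j 0 = ∑_{β ≤ j} (-1)^β E β (j - β) 0 = 0`, all indices `β ≤ j < μ` being allowed. -/
theorem dif_layer (A : Finset (ι → ℕ)) (l : ι) (μ : ℕ) (F : (ι → ℕ) → Polynomial ℂ) (q : ι → ℂ)
    (h : Sat A F (Kind.free μ) (movPt l q)) (j : ℕ) (hj : j < μ) :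
    Sat (A.filter fun a => a l = 0) (fun a => (F a).coeff j) (Kind.free 1) q := by
  intro b hb
  have hb0 : ∀ i, b i = 0 := by
    intro i
    have h1 : b i ≤ ∑ i, b i := single_le_sum (f := b) (fun _ _ => Nat.zero_le _) (mem_univ i)
    have h2 : ∑ i, b i < 1 := hb
    omega
  have h1 : ∑ a ∈ A.filter (fun a => a l = 0), (F a).coeff j * tcr q a b =
      difS A l F q b 0 j := by
    unfold difS
    refine sum_congr rfl fun a ha => ?_
    have ha0 := (mem_filter.mp ha).2
    congr 1
    unfold tcr difP
    rw [← mul_prod_erase univ _ (mem_univ l), ha0, hb0 l]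
    simp
  have h2 : (∑ a ∈ A.filter (fun a => a l = 0), (fun a => (F a).coeff j) a *
      tcr ((Kind.free 1 : Kind ι).pt q) a b) = difS A l F q b 0 j := h1
  rw [h2, ← alt_identity (difS A l F q b) j]
  refine sum_eq_zero fun β hβ => ?_
  rw [mem_range] at hβ
  rw [dif_key' h (b := b) (β := β) (by
    have h3 : ∑ i, b i = 0 := sum_eq_zero fun i _ => hb0 i
    have h4 := hb0 l
    omega) (j - β), mul_zero]

end Pool.Agent.H18.Ex

end

section

/-!
# Module Ell: elementary facts about `ell n m = binom(m + n - 1, n)`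
-/

namespace Pool.Agent.H18.Ex

open Finset

theorem ell_zero {n : ℕ} (hn : 1 ≤ n) : ell n 0 = 0 := by
  unfold ell
  exact Nat.choose_eq_zero_of_lt (by omega)

theorem ell_one (n : ℕ) : ell n 1 = 1 := by
  unfold ell
  rw [show 1 + n - 1 = n by omega, Nat.choose_self]

theorem ell_mono (n : ℕ) {m m' : ℕ} (h : m ≤ m') : ell n m ≤ ell n m' :=
  Nat.choose_le_choose n (by omega)

theorem ell_pos (n : ℕ) {m : ℕ} (h : 1 ≤ m) : 1 ≤ ell n m :=
  Nat.choose_pos (by omega)

/-- Pascal. -/
theorem ell_succ (n c : ℕ) : ell (n + 1) (c + 1) = ell (n + 1) c + ell n (c + 1) := by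
  unfold ell
  rw [show c + 1 + (n + 1) - 1 = (c + n) + 1 by omega, show c + (n + 1) - 1 = c + n by omega,
    show c + 1 + n - 1 = c + n by omega, Nat.choose_succ_succ, add_comm]

/-- `M * ell n c ≤ (M - 1) * ell n (c + 1)` for `c + 1 ≤ M`, `n ≥ 1`:
`(c + n) * ell n c = c * ell n (c + 1)`, so `ell n c ≤ c / (c + 1) * ell n (c + 1)`. -/
theorem ell_ratio {n c M : ℕ} (hn : 1 ≤ n) (hc : c + 1 ≤ M) :
    M * ell n c ≤ (M - 1) * ell n (c + 1) := by
  rcases Nat.eq_zero_or_pos c with h | h
  · subst h
    rw [ell_zero hn, mul_zero]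
    exact Nat.zero_le _
  obtain ⟨K, rfl⟩ : ∃ K, M = K + 1 := ⟨M - 1, by omega⟩
  have key : ell n c * (c + n) = ell n (c + 1) * c := by
    unfold ell
    have := Nat.choose_mul_succ_eq (c + n - 1) n
    rw [show c + n - 1 + 1 = c + n by omega, show c + n - n = c by omega] at this
    rw [show c + 1 + n - 1 = c + n by omega]
    exact this
  have h1 : 0 < c + n := by omega
  refine Nat.le_of_mul_le_mul_right ?_ h1
  rw [Nat.add_sub_cancel]
  calc (K + 1) * ell n c * (c + n) = (K + 1) * (ell n c * (c + n)) := by ring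
    _ = ((K + 1) * c) * ell n (c + 1) := by rw [key]; ring
    _ ≤ (K * (c + n)) * ell n (c + 1) := by
        refine Nat.mul_le_mul_right _ ?_
        have : K * (c + 1) ≤ K * (c + n) := Nat.mul_le_mul_left _ (by omega)
        nlinarith
    _ = K * ell n (c + 1) * (c + n) := by ring

/-- `ell (n + 1) c = (c + n) / (n + 1) * ell n c ≤ c * ell n c`. -/
theorem ell_le_mul (n c : ℕ) : ell (n + 1) c ≤ c * ell n c := by
  rcases Nat.eq_zero_or_pos c with h | h
  · subst h
    rw [ell_zero (by omega)]
    exact Nat.zero_le _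
  have key : (c + n) * ell n c = ell (n + 1) c * (n + 1) := by
    unfold ell
    have := Nat.add_one_mul_choose_eq (c + n - 1) n
    rw [show c + n - 1 + 1 = c + n by omega] at this
    rw [show c + (n + 1) - 1 = c + n by omega]
    exact this
  refine Nat.le_of_mul_le_mul_right ?_ (Nat.succ_pos n)
  rw [Nat.succ_eq_add_one, ← key]
  calc (c + n) * ell n c ≤ (c * (n + 1)) * ell n c := by
        refine Nat.mul_le_mul_right _ ?_
        nlinarith
    _ = c * ell n c * (n + 1) := by ring

end Pool.Agent.H18.Ex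

end

section

/-!
# Module Sched: existence of the schedule
-/

namespace Pool.Agent.H18.Ex

open Finset

/-- The active directions different from `o`. -/
noncomputable def dirs {ι : Type} [Fintype ι] [DecidableEq ι] (o : ι) (w : ι → ℕ) : List ι :=
  (univ.filter fun i => 0 < w i ∧ i ≠ o).toList

section

variable {ι : Type} [Fintype ι] [DecidableEq ι]

theorem SchedX_mem_dirs {o : ι} {w : ι → ℕ} {i : ι} :
    i ∈ dirs o w ↔ 0 < w i ∧ i ≠ o := by
  unfold dirs
  rw [mem_toList, mem_filter]
  simp

theorem SchedX_nodup (o : ι) (w : ι → ℕ) : (dirs o w).Nodup := by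
  unfold dirs
  exact nodup_toList _

omit [Fintype ι] in
theorem SchedX_count_flat (l : List ι) (hl : l.Nodup) (k : ι → ℕ) (i : ι) :
    (l.flatMap fun x => List.replicate (k x) x).count i = if i ∈ l then k i else 0 := by
  induction l with
  | nil => simp
  | cons a l ih =>
    rw [List.flatMap_cons, List.count_append, ih (List.nodup_cons.1 hl).2, List.count_replicate]
    by_cases h : a = i
    · subst h
      simp [(List.nodup_cons.1 hl).1]
    · have h' : i ≠ a := fun e => h e.symm
      simp [h, h']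

theorem SchedX_length (L : List ι) : L.length = ∑ i, L.count i := by
  have h := Multiset.sum_count_eq_card (s := (univ : Finset ι)) (m := (L : Multiset ι))
    (fun a _ => mem_univ a)
  simpa using h.symm

/-- Admissible states. -/
structure SchedX_St (b : ℕ) (o : ι) (w : ι → ℕ) (s : ℕ) (v : ι → ℕ) : Prop where
  act : ∀ i, 0 < v i ↔ 0 < w i
  hvo : ∀ i, v i ≤ v o
  hvb : ∀ i, 0 < w i → 2 * b ≤ v i
  hsb : 2 * b ≤ s
  hτ : ∀ l, l ≠ o → 0 < w l → s + b ≤ ∑ i ∈ univ.erase l, v i

/-- The bounds of the traces. -/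
structure SchedX_Ph (M : ℕ) (o : ι) (w : ι → ℕ) (s : ℕ) (v : ι → ℕ) (φ : ι → ℕ) :
    Prop where
  h1 : ∀ i, i ≠ o → 0 < w i → 2 * M * φ i ≤ (2 * M - 1) * fc s v i
  h2 : ∀ i, i = o ∨ w i = 0 → φ i = 0

end

/-- `32 M (n+1)³`. -/
def cq (n M : ℕ) : ℕ := 32 * M * (n + 1) ^ 3

/-- Minimal width along the way. -/
def cb (n M D' C : ℕ) : ℕ := D' + 2 * (n + 1) ^ 2 * (M * (n + 1) + 2 * ell (n + 1) M + 2) +
    16 * M ^ 2 * ell n M ^ 2 + C

/-- Minimal width at the ends of the rounds. -/
def cB (n M D' C : ℕ) : ℕ := 2 * cb n M D' C + cq n M * (M + 1) + 1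

end Pool.Agent.H18.Ex

end

section

/-!
# Module Tay: Taylor coefficients, traces and residuals

Throughout `A'` is the residual of `A` along `x_l = 0`: `a ∈ A' ↔ a + e_l ∈ A`.
-/

namespace Pool.Agent.H18.Ex

open Finset

variable {ι : Type} [Fintype ι] [DecidableEq ι] {R : Type*} [CommRing R]

lemma tcr_up_zero (q : ι → R) (a b : ι → ℕ) (l : ι) (hb : b l = 0) :
    tcr q (Function.update a l (a l + 1)) b = q l * tcr q a b := by
  rw [tcr_eq q _ b l, tcr_eq q a b l, rest_congr (q' := q) (a' := a) (b' := b) (fun _ _ => rfl)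
    (update_other a l _) (fun _ _ => rfl), Function.update_self, hb]
  simp only [Nat.choose_zero_right, Nat.sub_zero, Nat.cast_one, one_mul, pow_succ]
  ring

/-- Trace.  If `q l = 0` and `b l = 0` only the exponents with `a l = 0` contribute
(`0 ^ (a l) = 0` for `a l > 0`). -/
theorem layer_sum (A : Finset (ι → ℕ)) (l : ι) (f : (ι → ℕ) → R) (q : ι → R) (hq : q l = 0)
    (b : ι → ℕ) (hb : b l = 0) :
    ∑ a ∈ A, f a * tcr q a b = ∑ a ∈ A.filter (fun a => a l = 0), f a * tcr q a b := by
  rw [sum_filter_of_ne]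
  intro a _ h
  by_contra h0
  apply h
  rw [tcr_eq q a b l, hq, hb, Nat.sub_zero, zero_pow h0, mul_zero, zero_mul, mul_zero]

/-- If the layer part of `f` vanishes, conditions at points off the hyperplane pass to the
residual.  Proof: Pascal, `tcr q (a + e_l) b = q l * tcr q a b + tcr q a (b - e_l)` (second term
absent if `b l = 0`), so `0 = ∑_{a ∈ A} f a tcr q a b = q l * T b + T (b - e_l)`, where
`T b = ∑_{a ∈ A'} f (a + e_l) tcr q a b`; induct on `b l`, the set of indices being closed under
`b ↦ b - e_l`.  (Here `(k.pt q) l = q l ≠ 0` because `k` is not forced to `x_l = 0`.) -/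
theorem sat_resid_of_notAt (A A' : Finset (ι → ℕ)) (l : ι)
    (hA : ∀ a, a ∈ A' ↔ Function.update a l (a l + 1) ∈ A)
    (f : (ι → ℕ) → ℂ) (h0 : ∀ a ∈ A, a l = 0 → f a = 0) (k : Kind ι) (hk : k.NotAt l)
    (q : ι → ℂ) (hq : q l ≠ 0) (h : Sat A f k q) :
    Sat A' (fun a => f (Function.update a l (a l + 1))) k q := by
  have hp : k.pt q l = q l := by
    cases k with
    | free m => rfl
    | forced l' c e =>
      have h1 : l' ≠ l := hk
      exact Function.update_of_ne (Ne.symm h1) _ _
  have hIdx : ∀ b : ι → ℕ, k.Idx (Function.update b l (b l + 1)) → k.Idx b := by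
    intro b hb
    have hle : ∑ i, b i ≤ ∑ i, Function.update b l (b l + 1) i := by
      apply sum_le_sum
      intro i _
      by_cases hi : i = l
      · subst hi; rw [Function.update_self]; omega
      · rw [Function.update_of_ne hi]
    cases k with
    | free m => exact lt_of_le_of_lt hle hb
    | forced l' c e =>
      have h1 : l' ≠ l := hk
      obtain ⟨h2, h3⟩ := hb
      rw [Function.update_of_ne h1] at h3
      exact ⟨lt_of_le_of_lt hle h2, h3⟩
  have key : ∀ (n : ℕ) (b : ι → ℕ), b l = n → k.Idx b →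
      ∑ a ∈ A', f (Function.update a l (a l + 1)) * tcr (k.pt q) a b = 0 := by
    intro n
    induction n with
    | zero =>
      intro b hb hI
      have h1 := h b hI
      rw [sum_shift A A' l hA (fun a => f a * tcr (k.pt q) a b)
        (fun a ha h2 => by rw [h0 a ha h2, zero_mul])] at h1
      have h2 : ∀ a ∈ A', f (Function.update a l (a l + 1)) *
          tcr (k.pt q) (Function.update a l (a l + 1)) b =
          k.pt q l * (f (Function.update a l (a l + 1)) * tcr (k.pt q) a b) := by
        intro a _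
        rw [tcr_up_zero _ a b l hb]
        ring
      rw [sum_congr rfl h2, ← mul_sum, hp] at h1
      exact (mul_eq_zero.mp h1).resolve_left hq
    | succ n ih =>
      intro b hb hI
      obtain ⟨b', hb', rfl⟩ : ∃ b' : ι → ℕ, b' l = n ∧ Function.update b' l (b' l + 1) = b := by
        refine ⟨Function.update b l n, Function.update_self _ _ _, ?_⟩
        rw [Function.update_self, Function.update_idem, ← hb, Function.update_eq_self]
      have h3 := ih b' hb' (hIdx b' hI)
      have h1 := h _ hI
      rw [sum_shift A A' l hA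
        (fun a => f a * tcr (k.pt q) a (Function.update b' l (b' l + 1)))
        (fun a ha h2 => by rw [h0 a ha h2, zero_mul])] at h1
      have h2 : ∀ a ∈ A', f (Function.update a l (a l + 1)) *
          tcr (k.pt q) (Function.update a l (a l + 1)) (Function.update b' l (b' l + 1)) =
          k.pt q l * (f (Function.update a l (a l + 1)) *
            tcr (k.pt q) a (Function.update b' l (b' l + 1))) +
          f (Function.update a l (a l + 1)) * tcr (k.pt q) a b' := by
        intro a _
        rw [tcr_up_up]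
        ring
      rw [sum_congr rfl h2, sum_add_distrib, h3, add_zero, ← mul_sum, hp] at h1
      exact (mul_eq_zero.mp h1).resolve_left hq
  intro b hI
  exact key (b l) b rfl hI

lemma tcr_layer_congr (q q' : ι → R) (a b : ι → ℕ) (l : ι) (hq : ∀ i, i ≠ l → q i = q' i)
    (ha : a l = 0) : tcr q a b = tcr q' a b := by
  rw [tcr_eq q a b l, tcr_eq q' a b l, rest_congr hq (fun _ _ => rfl) (fun _ _ => rfl), ha]
  simp only [Nat.zero_sub, pow_zero]

/-- Conditions forced to the hyperplane: the residual (`resid_sum`). -/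
theorem sat_resid_forced (A A' : Finset (ι → ℕ)) (l : ι)
    (hA : ∀ a, a ∈ A' ↔ Function.update a l (a l + 1) ∈ A)
    (f : (ι → ℕ) → R) (c e : ℕ) (q : ι → R) (h : Sat A f (Kind.forced l c e) q) :
    Sat A' (fun a => f (Function.update a l (a l + 1))) (Kind.forced l (c - 1) e) q := by
  intro b hb
  obtain ⟨h1, h2⟩ := hb
  have hq : Function.update q l 0 l = 0 := Function.update_self _ _ _
  change ∑ a ∈ A', f (Function.update a l (a l + 1)) * tcr (Function.update q l 0) a b = 0
  rw [← resid_sum A A' l hA f _ hq b]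
  apply h
  refine ⟨?_, ?_⟩
  · have h3 : ∑ i, Function.update b l (b l + 1) i = ∑ i, b i + 1 := by
      rw [← add_sum_erase univ _ (mem_univ l), ← add_sum_erase univ b (mem_univ l),
        Function.update_self]
      have h4 : ∑ x ∈ univ.erase l, Function.update b l (b l + 1) x = ∑ x ∈ univ.erase l, b x := by
        apply sum_congr rfl
        intro i hi
        exact Function.update_of_ne (ne_of_mem_erase hi) _ _
      rw [h4]
      ring
    rw [h3]
    omega
  · rw [Function.update_self]
    omega

/-- Conditions forced to the hyperplane: the trace (`layer_sum`; the value `q l` is irrelevant on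
the layer, and for `b l > 0` every term vanishes). -/
theorem sat_layer_forced (A : Finset (ι → ℕ)) (l : ι) (f : (ι → ℕ) → R) (c e : ℕ) (q : ι → R)
    (h : Sat A f (Kind.forced l c e) q) :
    Sat (A.filter fun a => a l = 0) f (Kind.free (if e ≤ c then c else 0)) q := by
  intro b hb
  change ∑ i, b i < (if e ≤ c then c else 0) at hb
  have hec : e ≤ c := by
    by_contra hec
    rw [if_neg hec] at hb
    omega
  rw [if_pos hec] at hb
  change ∑ a ∈ A.filter (fun a => a l = 0), f a * tcr q a b = 0
  by_cases hbl : b l = 0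
  · have h1 := h b ⟨hb, by omega⟩
    change ∑ a ∈ A, f a * tcr (Function.update q l 0) a b = 0 at h1
    rw [layer_sum A l f _ (Function.update_self _ _ _) b hbl] at h1
    refine Eq.trans (sum_congr rfl ?_) h1
    intro a ha
    congr 1
    exact tcr_layer_congr _ _ a b l (fun i hi => (Function.update_of_ne hi _ _).symm)
      (mem_filter.mp ha).2
  · apply sum_eq_zero
    intro a ha
    have h0 : a l = 0 := (mem_filter.mp ha).2
    rw [tcr_eq q a b l, h0, Nat.choose_eq_zero_of_lt (by omega), Nat.cast_zero, zero_mul,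
      zero_mul, mul_zero]

/-- A free point placed on the hyperplane is a forced point. -/
theorem sat_forced_one_iff (A : Finset (ι → ℕ)) (l : ι) (f : (ι → ℕ) → R) (m : ℕ) (q : ι → R) :
    Sat A f (Kind.forced l m 1) q ↔ Sat A f (Kind.free m) (Function.update q l 0) := by
  constructor
  · intro h b hb
    refine h b ⟨hb, ?_⟩
    have h1 : b l ≤ ∑ i, b i := single_le_sum (fun i _ => Nat.zero_le (b i)) (mem_univ l)
    have h2 : ∑ i, b i < m := hb
    omega
  · intro h b hb
    exact h b hb.1

end Pool.Agent.H18.Ex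

end

section

/-!
# Packing truncated boxes by simplicial cells of given orders
-/

namespace Pool.Agent.H18.Fat

open Finset

/-- The length of a fat point of multiplicity `m` in dimension `r`. -/
def len (r m : ℕ) : ℕ := (m + r - 1).choose r

/-! ### Groups -/

/-! ### Dimension one -/

/-! ### The packing theorem -/

end Pool.Agent.H18.Fat

end
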