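import Pool.Agent.H94.LP1.M01

/-! The parts of this file: H18.Ex.Defs_1, H18.Ex.Kill. -/

section

/-!
# Horace-type induction for forms with prescribed exponents: definitions

`ι` is the finite set of (homogeneous) variables.  A form is given by its coefficient function
`f : (ι → ℕ) → R`, of which only the values on a finite set `A` of exponents matter.
-/

namespace Pool.Agent.H18.Ex

open Finset

/-! ### Geometry -/

section

variable {ι : Type} [Fintype ι] [DecidableEq ι]

end

section

variable {ι : Type} [Fintype ι] [DecidableEq ι]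

/-- The same for a multiset of conditions. -/
def GM (A : Finset (ι → ℕ)) (S : Multiset (Kind ι)) : Prop :=
  ∃ (n : ℕ) (k : Fin n → Kind ι), (univ : Finset (Fin n)).val.map k = S ∧ GI A k

/-- `A` (of dimension `n`) is exact for multiplicities up to `M`: any points of multiplicity at
most `M` with total length at least `|A|` kill all forms with exponents in `A`. -/
def Exa (n M : ℕ) (A : Finset (ι → ℕ)) : Prop :=
  ∀ G : Multiset ℕ, (∀ m ∈ G, m ≤ M) → A.card ≤ (G.map (ell n)).sum → GM A (G.map Kind.free)

/-- Passing to the residual along `x_l = 0` when no new point is put on the hyperplane. -/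
def Kind.dn (l : ι) (k : Kind ι) : Kind ι :=
  match k with
  | .free m => .free m
  | .forced l' c e => if l' = l then .forced l' (c - 1) e else .forced l' c e

end

/-- The role of a condition in a Horace step along `x_l = 0`. -/
inductive Role (ι : Type) : Type where
  | stay (k : Kind ι) : Role ι
  | here (c e : ℕ) : Role ι
  | ord (m : ℕ) : Role ι
  | dif : Role ι

section

variable {ι : Type}

/-- The condition before the step; `μ` is the common multiplicity of the differential points. -/
def Role.before (l : ι) (μ : ℕ) (r : Role ι) : Kind ι :=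
  match r with
  | .stay k => k
  | .here c e => .forced l c e
  | .ord m => .free m
  | .dif => .free μ

/-- The multiplicity of the trace on the hyperplane. -/
def Role.layer (r : Role ι) : ℕ :=
  match r with
  | .stay _ => 0
  | .here c e => if e ≤ c then c else 0
  | .ord m => m
  | .dif => 1

/-- The residual condition. -/
def Role.after (l : ι) (μ : ℕ) (r : Role ι) : Kind ι :=
  match r with
  | .stay k => k
  | .here c e => .forced l (c - 1) e
  | .ord m => .forced l (m - 1) 1
  | .dif => .forced l μ 2

end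

/-! ### Configurations -/

/-- `N` is the multiset of the multiplicities (at least two) of the free points, `s` is the number
of the free simple points, `Φ l` is the multiset of the pairs `(c, e)` of the forced conditions on
`x_l = 0`. -/
structure Cfg (ι : Type) : Type where
  /-- multiplicities of the free points of multiplicity at least two -/
  N : Multiset ℕ
  /-- number of the free simple points -/
  s : ℕ
  /-- forced conditions -/
  Φ : ι → Multiset (ℕ × ℕ)

/-- One step down of the forced conditions. -/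
def shf (S : Multiset (ℕ × ℕ)) : Multiset (ℕ × ℕ) :=
  (S.map fun x => (x.1 - 1, x.2)).filter fun x => x.2 ≤ x.1

/-- `M * binom(M + n - 1, n)`. -/
def g0 (n M : ℕ) : ℕ := M * ell n M

section

variable {ι : Type}

/-- Validity of a configuration. -/
structure Cfg.OK (M : ℕ) (c : Cfg ι) : Prop where
  hN : ∀ m ∈ c.N, 2 ≤ m ∧ m ≤ M
  hΦ : ∀ l, ∀ x ∈ c.Φ l, 1 ≤ x.2 ∧ x.2 ≤ 2 ∧ x.2 ≤ x.1 ∧ x.1 ≤ M

/-- Total length of the traces of the forced conditions on `x_l = 0` (region of dimension
`n + 1`, hyperplanes of dimension `n`). -/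
def Cfg.tr (n : ℕ) (c : Cfg ι) (l : ι) : ℕ := ((c.Φ l).map fun x => ell n x.1).sum

/-- Total length of the forced conditions on `x_l = 0`. -/
def Cfg.fl (n : ℕ) (c : Cfg ι) (l : ι) : ℕ :=
  ((c.Φ l).map fun x => ell (n + 1) x.1 + 1 - x.2).sum

/-- Total length of the free points. -/
def Cfg.nsz (n : ℕ) (c : Cfg ι) : ℕ := (c.N.map (ell (n + 1))).sum + c.s

/-- Total length. -/
def Cfg.sz [Fintype ι] (n : ℕ) (c : Cfg ι) : ℕ := c.nsz n + ∑ l, c.fl n l

/-- The conditions of a configuration. -/
def Cfg.kinds [Fintype ι] (c : Cfg ι) : Multiset (Kind ι) :=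
  c.N.map Kind.free + Multiset.replicate c.s (Kind.free 1) +
    ∑ l, (c.Φ l).map fun x => Kind.forced l x.1 x.2

end

/-! ### Regions -/

section

variable {ι : Type} [Fintype ι] [DecidableEq ι]

/-- The region `Rg σ w` has dimension `n` (that is, `n + 1` active coordinates) and all its
widths are at least `D`. -/
def Fat (n D σ : ℕ) (w : ι → ℕ) : Prop :=
  (univ.filter fun i => 0 < w i).card = n + 1 ∧ D ≤ σ ∧ (∀ i, 0 < w i → D ≤ w i) ∧
    σ + D ≤ ∑ i, w i

/-- Normalised regions of dimension `n`. -/
structure Nrm (n D : ℕ) (o : ι) (σ : ℕ) (w : ι → ℕ) : Prop where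
  hcard : (univ.filter fun i => 0 < w i).card = n + 1
  ho : 0 < w o
  hwo : ∀ i, w i ≤ w o
  hwσ : ∀ i, w i ≤ σ
  hσ : 2 * σ ≤ ∑ i, w i
  hD : ∀ i, 0 < w i → D ≤ w i

/-- The new bound for the traces of the forced conditions after a step with layer of size `f`. -/
def nphi (n M f : ℕ) : ℕ := (M - 1) * f / M + ell n M ^ 2

/-- A list of directions along which the region can be peeled (region of dimension `n + 1`,
layers of dimension `n`); `X` is the property required of the layers, `φ` bounds the traces of
the forced conditions. -/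
def Good (n M : ℕ) (X : ℕ → (ι → ℕ) → Prop) : List ι → ℕ → (ι → ℕ) → (ι → ℕ) → Prop
  | [], _, _, _ => True
  | l :: L, σ, w, φ =>
    1 ≤ σ ∧ 1 ≤ w l ∧ X σ (Function.update w l 0) ∧
    φ l + g0 n M * ell n M ≤ fc σ w l ∧
    M * ∑ i, φ i + ell (n + 1) M * (fc σ w l + g0 n M) + fc σ w l ≤ (Rg σ w).card ∧
    Good n M X L (σ - 1) (Function.update w l (w l - 1))
      (Function.update φ l (nphi n M (fc σ w l)))

/-- The bounds at the end of a list of directions. -/
def eph (n M : ℕ) : List ι → ℕ → (ι → ℕ) → (ι → ℕ) → (ι → ℕ)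
  | [], _, _, φ => φ
  | l :: L, σ, w, φ => eph n M L (σ - 1) (Function.update w l (w l - 1))
      (Function.update φ l (nphi n M (fc σ w l)))

/-- The widths at the end of a list of directions. -/
def ew (L : List ι) (w : ι → ℕ) : ι → ℕ := fun i => w i - L.count i

end

end Pool.Agent.H18.Ex

end

section

/-!
# Module Kill: general simple points
-/

namespace Pool.Agent.H18.Ex

open Finset

variable {ι : Type} [Fintype ι] [DecidableEq ι]

omit [DecidableEq ι] in
theorem tcr_zero_right {R : Type*} [CommRing R] (q : ι → R) (a : ι → ℕ) :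
    tcr q a 0 = ∏ i, q i ^ a i := by
  unfold tcr
  refine Finset.prod_congr rfl fun i _ => ?_
  simp

/-- The evaluation functional at a point. -/
noncomputable def evl (A : Finset (ι → ℕ)) (q : ι → ℂ) : (A → ℂ) →ₗ[ℂ] ℂ :=
  ∑ a : A, (LinearMap.proj a : (A → ℂ) →ₗ[ℂ] ℂ).smulRight (tcr q a.1 0)

omit [DecidableEq ι] in
theorem evl_apply (A : Finset (ι → ℕ)) (q : ι → ℂ) (f : A → ℂ) :
    evl A q f = ∑ a : A, f a * tcr q a.1 0 := by
  unfold evl
  simp [LinearMap.sum_apply]

/-- A nonzero form does not vanish somewhere. -/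
theorem exists_evl_ne (A : Finset (ι → ℕ)) (f : A → ℂ) (hf : f ≠ 0) :
    ∃ q : ι → ℂ, evl A q f ≠ 0 := by
  by_contra hcon
  push Not at hcon
  apply hf
  set P : MvPolynomial ι ℂ :=
    ∑ a : A, MvPolynomial.monomial (Finsupp.equivFunOnFinite.symm a.1) (f a) with hP
  have h1 : P = 0 := by
    apply MvPolynomial.funext
    intro q
    rw [map_zero, ← hcon q, evl_apply, hP, map_sum]
    refine Finset.sum_congr rfl fun a _ => ?_
    rw [MvPolynomial.eval_monomial, tcr_zero_right, Finsupp.prod_fintype _ _ (fun i => by simp)]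
    rfl
  funext a
  have h2 : MvPolynomial.coeff (Finsupp.equivFunOnFinite.symm a.1) P = f a := by
    rw [hP, MvPolynomial.coeff_sum, Finset.sum_eq_single a]
    · rw [MvPolynomial.coeff_monomial, if_pos rfl]
    · intro b _ hb
      rw [MvPolynomial.coeff_monomial, if_neg]
      intro h
      exact hb (Subtype.ext (Finsupp.equivFunOnFinite.symm.injective h))
    · intro h
      exact absurd (Finset.mem_univ a) h
  rw [← h2, h1, MvPolynomial.coeff_zero]
  rfl

/-- `s` general points kill a space of forms of dimension at most `s`.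
Proof: induction on `s`.  If `W ≠ 0` take `f ≠ 0` in `W` and a point `q₀` with
`∑ a, f a * ∏ i, q₀ i ^ a i ≠ 0` (nonzero polynomials over `ℂ` have non-roots,
`MvPolynomial.funext`); the subspace `W ∩ {g | g (q₀) = 0}` has smaller dimension.  Note
`tcr q a 0 = ∏ i, q i ^ a i`. -/
theorem kill (A : Finset (ι → ℕ)) (s : ℕ) (W : Submodule ℂ (A → ℂ))
    (h : Module.finrank ℂ W ≤ s) :
    ∃ q : Fin s → ι → ℂ, ∀ f ∈ W, (∀ j, ∑ a : A, f a * tcr (q j) a.1 0 = 0) → f = 0 := by
  induction s generalizing W with
  | zero =>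
    refine ⟨fun _ _ => 0, fun f hf _ => ?_⟩
    have h1 : W = ⊥ := Submodule.finrank_eq_zero.1 (Nat.le_zero.1 h)
    rw [h1] at hf
    exact (Submodule.mem_bot ℂ).1 hf
  | succ s ih =>
    by_cases hW : W = ⊥
    · refine ⟨fun _ _ => 0, fun f hf _ => ?_⟩
      rw [hW] at hf
      exact (Submodule.mem_bot ℂ).1 hf
    · obtain ⟨f0, hf0, hf0n⟩ := Submodule.exists_mem_ne_zero_of_ne_bot hW
      obtain ⟨q0, hq0⟩ := exists_evl_ne A f0 hf0n
      have hlt : W ⊓ LinearMap.ker (evl A q0) < W := by
        refine lt_of_le_of_ne inf_le_left fun heq => ?_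
        have h1 : f0 ∈ W ⊓ LinearMap.ker (evl A q0) := by
          rw [heq]
          exact hf0
        exact hq0 (LinearMap.mem_ker.1 (Submodule.mem_inf.1 h1).2)
      have h2 := Submodule.finrank_lt_finrank_of_lt hlt
      obtain ⟨q, hq⟩ := ih (W ⊓ LinearMap.ker (evl A q0)) (by omega)
      refine ⟨Fin.cons q0 q, fun f hf hall => ?_⟩
      apply hq f
      · rw [Submodule.mem_inf, LinearMap.mem_ker, evl_apply]
        refine ⟨hf, ?_⟩
        have h3 := hall 0
        rwa [Fin.cons_zero] at h3
      · intro j
        have h3 := hall j.succ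
        rwa [Fin.cons_succ] at h3

/-- At least `|A|` free points (of multiplicity at least one) kill everything. -/
theorem GI.of_card {κ : Type} (A : Finset (ι → ℕ)) (k : κ → Kind ι) (e : Fin A.card ↪ κ)
    (he : ∀ j, ∃ m, 1 ≤ m ∧ k (e j) = Kind.free m) : GI A k := by
  obtain ⟨q, hq⟩ := kill A A.card ⊤ (by
    rw [finrank_top, Module.finrank_fintype_fun_eq_card, Fintype.card_coe])
  refine ⟨Function.extend e q (fun _ _ => 0), fun f hf a ha => ?_⟩
  have h1 : (fun b : A => f b.1) = 0 := by
    apply hq _ Submodule.mem_top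
    intro j
    obtain ⟨m, hm, hk⟩ := he j
    have h2 := hf (e j)
    rw [hk, e.injective.extend_apply] at h2
    have h3 := h2 0 (by
      change ∑ i, (0 : ι → ℕ) i < m
      have h4 : ∑ i, (0 : ι → ℕ) i = 0 := by simp
      omega)
    rw [← Finset.sum_coe_sort] at h3
    exact h3
  exact congrFun h1 ⟨a, ha⟩

end Pool.Agent.H18.Ex

end
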