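import Pool.Agent.H94.LP1.H18.Ex.Frac
import Pool.Agent.H94.LP1.M04
import Pool.Agent.H94.LP1.M05

/-! The parts of this file: H18.Ex.Conv, H18.Ex.Box, H18.Ex.Main, H18.Ex.Ratio. -/

section

/-!
# Module Conv: preparation of configurations, conversion of multiple points
-/

namespace Pool.Agent.H18.Ex

open Finset

/-- Drop superfluous points. -/
theorem exists_drop (g : ℕ → ℕ) (L a : ℕ) : ∀ (G : Multiset ℕ), (∀ m ∈ G, g m ≤ L) →
    a ≤ (G.map g).sum →
    ∃ G₁ ≤ G, a ≤ (G₁.map g).sum ∧ (G₁.map g).sum ≤ a + L ∧ ∀ m ∈ G₁, 0 < g m := by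
  intro G
  induction G using Multiset.strongInductionOn with
  | ih G ih =>
    intro hG ha
    by_cases h : ∃ m ∈ G, a ≤ ((G.erase m).map g).sum
    · obtain ⟨m, hm, h⟩ := h
      obtain ⟨G₁, h1, h2⟩ := ih (G.erase m) (Multiset.erase_lt.2 hm)
        (fun x hx => hG x (Multiset.mem_of_mem_erase hx)) h
      exact ⟨G₁, h1.trans (Multiset.erase_le _ _), h2⟩
    · push Not at h
      rcases Multiset.empty_or_exists_mem G with h0 | ⟨m, hm⟩
      · subst h0
        exact ⟨0, le_rfl, ha, by simp, by simp⟩
      · have key : ∀ m ∈ G, g m + ((G.erase m).map g).sum = (G.map g).sum := by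
          intro m hm
          rw [← Multiset.sum_cons, ← Multiset.map_cons, Multiset.cons_erase hm]
        refine ⟨G, le_rfl, ha, ?_, ?_⟩
        · have h1 := key m hm
          have h2 := h m hm
          have h3 := hG m hm
          omega
        · intro x hx
          have h1 := key x hx
          have h2 := h x hx
          omega

section

variable {ι : Type} [Fintype ι] [DecidableEq ι]

/-- The configuration of a multiset of free points. -/
def cfg0 (ι : Type) (G : Multiset ℕ) : Cfg ι where
  N := G.filter fun m => 2 ≤ m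
  s := G.count 1
  Φ := fun _ => 0

omit [DecidableEq ι] in
theorem cfg0_kinds (G : Multiset ℕ) (hG : ∀ m ∈ G, 1 ≤ m) :
    (cfg0 ι G).kinds = G.map (Kind.free : ℕ → Kind ι) := by
  classical
  unfold Cfg.kinds cfg0
  simp only [Multiset.map_zero, sum_const_zero, add_zero]
  have h1 : G = G.filter (fun m => 2 ≤ m) + Multiset.replicate (G.count 1) 1 := by
    ext a
    rw [Multiset.count_add, Multiset.count_replicate, Multiset.count_filter]
    by_cases ha : 2 ≤ a
    · rw [if_pos ha, if_neg (by omega), add_zero]
    · rw [if_neg ha]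
      by_cases h1 : a = 1
      · subst h1
        simp
      · rw [if_neg (by omega), Multiset.count_eq_zero_of_notMem]
        intro h
        have := hG a h
        omega
  conv_rhs => rw [h1, Multiset.map_add, Multiset.map_replicate]

omit [DecidableEq ι] in
theorem cfg0_sz (n : ℕ) (G : Multiset ℕ) (hG : ∀ m ∈ G, 1 ≤ m) :
    (cfg0 ι G).sz n = (G.map (ell (n + 1))).sum ∧ (cfg0 ι G).nsz n = (G.map (ell (n + 1))).sum := by
  classical
  have h0 : (cfg0 ι G).nsz n = (G.map (ell (n + 1))).sum := by
    unfold Cfg.nsz cfg0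
    have h1 : G = G.filter (fun m => 2 ≤ m) + Multiset.replicate (G.count 1) 1 := by
      ext a
      rw [Multiset.count_add, Multiset.count_replicate, Multiset.count_filter]
      by_cases ha : 2 ≤ a
      · rw [if_pos ha, if_neg (by omega), add_zero]
      · rw [if_neg ha]
        by_cases h1 : a = 1
        · subst h1
          simp
        · rw [if_neg (by omega), Multiset.count_eq_zero_of_notMem]
          intro h
          have := hG a h
          omega
    conv_rhs => rw [h1, Multiset.map_add, Multiset.map_replicate, Multiset.sum_add,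
      Multiset.sum_replicate, ell_one, smul_eq_mul, mul_one]
  refine ⟨?_, h0⟩
  unfold Cfg.sz
  rw [h0]
  simp [Cfg.fl, cfg0]

theorem cfg0_OK (M : ℕ) (G : Multiset ℕ) (hG : ∀ m ∈ G, m ≤ M) : (cfg0 ι G).OK M := by
  refine ⟨?_, ?_⟩
  · intro m hm
    rw [cfg0, Multiset.mem_filter] at hm
    exact ⟨hm.2, hG m hm.1⟩
  · intro l x hx
    simp [cfg0] at hx

end

end Pool.Agent.H18.Ex

end

section

/-!
# Module Box: lower and upper bounds by boxes
-/

namespace Pool.Agent.H18.Ex

open Finset

variable {ι : Type} [Fintype ι] [DecidableEq ι]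

/-- Upper bound: `x` is determined by its coordinates `≠ o`. -/
theorem card_le_prod (o : ι) (σ : ℕ) (w : ι → ℕ) :
    (Rg σ w).card ≤ ∏ i ∈ univ.erase o, (min (w i) σ + 1) := by
  have h1 : (Rg σ w).card ≤ (Fintype.piFinset fun i =>
      if i = o then ({0} : Finset ℕ) else range (min (w i) σ + 1)).card := by
    refine card_le_card_of_injOn (fun x => Function.update x o 0) ?_ ?_
    · intro x hx
      rw [mem_coe, mem_Rg] at hx
      obtain ⟨hx1, hx2⟩ := hx
      rw [mem_coe, Fintype.mem_piFinset]
      intro i
      show Function.update x o 0 i ∈ _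
      by_cases hi : i = o
      · rw [if_pos hi, hi, Function.update_self]
        simp
      · rw [if_neg hi, Function.update_of_ne hi, mem_range]
        have h2 := hx1 i
        have h3 : x i ≤ ∑ j, x j := single_le_sum (f := x) (fun _ _ => Nat.zero_le _) (mem_univ i)
        rw [hx2] at h3
        have := le_min h2 h3
        omega
    · intro x hx y hy hxy
      rw [mem_coe, mem_Rg] at hx hy
      have hne : ∀ i, i ≠ o → x i = y i := by
        intro i hi
        have := congrFun hxy i
        simp only [Function.update_of_ne hi] at this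
        exact this
      funext i
      by_cases hi : i = o
      · have e1 : ∑ j, x j = x o + ∑ j ∈ univ.erase o, x j := (add_sum_erase _ _ (mem_univ o)).symm
        have e2 : ∑ j, y j = y o + ∑ j ∈ univ.erase o, y j := (add_sum_erase _ _ (mem_univ o)).symm
        have e3 : ∑ j ∈ univ.erase o, x j = ∑ j ∈ univ.erase o, y j :=
          sum_congr rfl fun j hj => hne j (mem_erase.1 hj).1
        have h2 := hx.2
        have h3 := hy.2
        rw [hi]
        omega
      · exact hne i hi
  rw [Fintype.card_piFinset] at h1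
  refine h1.trans (le_of_eq ?_)
  rw [← mul_prod_erase univ _ (mem_univ o), if_pos rfl, card_singleton, one_mul]
  refine prod_congr rfl fun i hi => ?_
  rw [if_neg (mem_erase.1 hi).1, card_range]

/-- Lower bound for a facet of a normalised region of dimension `N ≥ 2`.

Proof.  Let `Q` be the set of the active `i ≠ o, l` (`N - 1` elements), `b i = w i / N` for
`i ∈ Q`, `S' = ∑_Q w`, `A = σ - w o` (truncated).  Then `∑_Q b ≤ S' / N`, and
`A + ∑_Q b ≤ σ` (if `σ ≤ w o`: `∑_Q b ≤ S'/N ≤ (N-1) σ / N`; otherwise `∑_Q b ≤ (N-1) w o / N`), and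
`A ≤ ∑_Q (w - b)` (if `σ > w o`: `S' - (σ - w o) = (∑ w - σ) - w l ≥ (∑ w) / 2 - w l
= (S' + w o - w l) / 2 ≥ S'/2 ≥ ∑_Q b`).  Choose `a i ≤ w i - b i` (`i ∈ Q`) with `∑_Q a = A`.
For `y i ≤ b i` (`i ∈ Q`) the vector with entries `a i + y i` (`i ∈ Q`), `0` at `l` and
`σ - ∑_Q (a + y) ∈ [0, w o]` at `o` lies in the facet.  This gives `∏_Q (b i + 1)` exponents, and
`N (b i + 1) ≥ w i`. -/
theorem box_lower (N : ℕ) (hN : 2 ≤ N) (D : ℕ) (o l : ι) (σ : ℕ) (w : ι → ℕ)
    (h : Nrm N D o σ w) (hl : l ≠ o) (hwl : 0 < w l) :
    ∏ i ∈ univ.filter (fun i => 0 < w i ∧ i ≠ o ∧ i ≠ l), w i ≤ N ^ (N - 1) * fc σ w l := by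
  set Q := univ.filter (fun i => 0 < w i ∧ i ≠ o ∧ i ≠ l) with hQ
  have hwoσ : w o ≤ σ := h.hwσ o
  have hQeq : Q = ((univ.filter fun i => 0 < w i).erase o).erase l := by
    ext i
    simp only [hQ, mem_filter, mem_univ, true_and, mem_erase]
    tauto
  have hlmem : l ∈ (univ.filter fun i => 0 < w i).erase o := by
    simp only [mem_filter, mem_univ, true_and, mem_erase]
    exact ⟨hl, hwl⟩
  have homem : o ∈ univ.filter fun i => 0 < w i := by
    simp only [mem_filter, mem_univ, true_and]
    exact h.ho
  have hQcard : Q.card = N - 1 := by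
    rw [hQeq, card_erase_of_mem hlmem, card_erase_of_mem homem, h.hcard]
    omega
  have hoQ : o ∉ Q := by simp [hQ]
  have hlQ : l ∉ Q := by simp [hQ]
  set b : ι → ℕ := fun i => w i / N with hb
  set S' := ∑ i ∈ Q, w i with hS'
  have hsumw : ∑ i, w i = w o + (w l + S') := by
    have e1 : ∑ i, w i = ∑ i ∈ univ.filter (fun i => 0 < w i), w i := by
      symm
      refine sum_subset (filter_subset _ _) fun j _ hj => ?_
      simp only [mem_filter, mem_univ, true_and, not_lt, Nat.le_zero] at hj
      exact hj
    rw [e1, hS', hQeq, add_sum_erase _ _ hlmem, add_sum_erase _ _ homem]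
  have hb2 : ∀ i, 2 * b i ≤ w i := by
    intro i
    have h1 : N * b i ≤ w i := Nat.mul_div_le (w i) N
    have h2 : 2 * b i ≤ N * b i := Nat.mul_le_mul_right _ hN
    omega
  have hsumb : 2 * ∑ i ∈ Q, b i ≤ S' := by
    rw [mul_sum]
    exact sum_le_sum fun i _ => hb2 i
  have hsumbo : ∑ i ∈ Q, b i ≤ w o := by
    have h1 : ∑ i ∈ Q, b i ≤ Q.card * (w o / N) := by
      rw [← smul_eq_mul]
      exact sum_le_card_nsmul Q b _ fun i _ => Nat.div_le_div_right (h.hwo i)
    rw [hQcard] at h1
    have h2 : (N - 1) * (w o / N) ≤ N * (w o / N) := Nat.mul_le_mul_right _ (by omega)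
    have h3 : N * (w o / N) ≤ w o := Nat.mul_div_le _ _
    omega
  set A := σ - w o with hA
  have hwlo := h.hwo l
  have h2σ := h.hσ
  have hA1 : 2 * A ≤ S' := by omega
  set w' : ι → ℕ := fun i => if i ∈ Q then w i - b i else 0 with hw'
  have hAw : A ≤ ∑ i, w' i := by
    have e1 : ∑ i, w' i = ∑ i ∈ Q, (w i - b i) := by
      rw [hw', sum_ite_mem, univ_inter]
    have e2 : ∑ i ∈ Q, (w i - b i) + ∑ i ∈ Q, b i = S' := by
      rw [← sum_add_distrib, hS']
      refine sum_congr rfl fun i _ => ?_
      have := hb2 i
      omega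
    rw [e1]
    omega
  obtain ⟨a, ha⟩ := Rg_nonempty A w' hAw
  rw [mem_Rg] at ha
  obtain ⟨ha1, ha2⟩ := ha
  have haQ : ∀ i, i ∉ Q → a i = 0 := by
    intro i hi
    have := ha1 i
    simp only [hw', if_neg hi] at this
    omega
  have haQ' : ∀ i ∈ Q, a i + b i ≤ w i := by
    intro i hi
    have := ha1 i
    simp only [hw', if_pos hi] at this
    have := hb2 i
    omega
  have hbox : (Fintype.piFinset fun i => if i ∈ Q then range (b i + 1) else ({0} : Finset ℕ)).card ≤
      fc σ w l := by
    unfold fc
    refine card_le_card_of_injOn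
      (fun y i => if i = o then σ - A - ∑ j, y j else a i + y i) ?_ ?_
    · intro y hy
      rw [mem_coe, Fintype.mem_piFinset] at hy
      have hyQ : ∀ i, i ∉ Q → y i = 0 := by
        intro i hi
        have := hy i
        rw [if_neg hi, mem_singleton] at this
        exact this
      have hyQ' : ∀ i ∈ Q, y i ≤ b i := by
        intro i hi
        have := hy i
        rw [if_pos hi, mem_range] at this
        omega
      have hysum : ∑ j, y j = ∑ j ∈ Q, y j := by
        symm
        exact sum_subset (subset_univ _) fun j _ hj => hyQ j hj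
      have hysle : ∑ j, y j ≤ w o := by
        rw [hysum]
        exact (sum_le_sum hyQ').trans hsumbo
      rw [mem_coe, mem_Rg]
      constructor
      · intro i
        show (if i = o then σ - A - ∑ j, y j else a i + y i) ≤ Function.update w l 0 i
        by_cases hio : i = o
        · rw [if_pos hio, hio, Function.update_of_ne (Ne.symm hl)]
          omega
        · rw [if_neg hio]
          by_cases hil : i = l
          · rw [hil, haQ l hlQ, hyQ l hlQ]
            omega
          · rw [Function.update_of_ne hil]
            by_cases hiQ : i ∈ Q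
            · have := haQ' i hiQ
              have := hyQ' i hiQ
              omega
            · rw [haQ i hiQ, hyQ i hiQ]
              omega
      · have e1 : ∑ i, (if i = o then σ - A - ∑ j, y j else a i + y i) =
            (σ - A - ∑ j, y j) + ∑ i ∈ univ.erase o, (a i + y i) := by
          rw [← add_sum_erase univ _ (mem_univ o), if_pos rfl]
          congr 1
          exact sum_congr rfl fun i hi => by rw [if_neg (mem_erase.1 hi).1]
        have e2 : ∑ i ∈ univ.erase o, (a i + y i) = A + ∑ j, y j := by
          have e3 : ∑ i, (a i + y i) = (a o + y o) + ∑ i ∈ univ.erase o, (a i + y i) :=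
            (add_sum_erase _ _ (mem_univ o)).symm
          rw [haQ o hoQ, hyQ o hoQ, sum_add_distrib, ha2] at e3
          omega
        rw [e1, e2]
        omega
    · intro y hy z hz hyz
      rw [mem_coe, Fintype.mem_piFinset] at hy hz
      funext i
      by_cases hio : i = o
      · have h1 := hy i
        have h2 := hz i
        rw [hio, if_neg hoQ, mem_singleton] at h1 h2
        rw [hio, h1, h2]
      · have := congrFun hyz i
        simp only [if_neg hio] at this
        omega
  rw [Fintype.card_piFinset] at hbox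
  have hprod : ∏ i, (if i ∈ Q then range (b i + 1) else ({0} : Finset ℕ)).card =
      ∏ i ∈ Q, (b i + 1) := by
    rw [← prod_subset (subset_univ Q)]
    · exact prod_congr rfl fun i hi => by rw [if_pos hi, card_range]
    · intro i _ hi
      rw [if_neg hi, card_singleton]
  rw [hprod] at hbox
  calc ∏ i ∈ Q, w i ≤ ∏ i ∈ Q, N * (b i + 1) := by
        refine prod_le_prod (fun _ _ => Nat.zero_le _) fun i _ => ?_
        have := Nat.lt_mul_div_succ (w i) (show 0 < N by omega)
        exact this.le
    _ = N ^ (N - 1) * ∏ i ∈ Q, (b i + 1) := by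
        rw [prod_mul_distrib, prod_const, hQcard]
    _ ≤ N ^ (N - 1) * fc σ w l := Nat.mul_le_mul_left _ hbox

end Pool.Agent.H18.Ex

end

section

/-!
# Module Main: the induction step for normalised regions
-/

namespace Pool.Agent.H18.Ex

open Finset

theorem ew_replicate {ι : Type} [DecidableEq ι] (j : ℕ) (l : ι) (w : ι → ℕ) :
    ew (List.replicate j l) w = Function.update w l (w l - j) := by
  funext i
  unfold ew
  rw [List.count_replicate]
  by_cases h : l = i
  · subst h
    simp
  · rw [if_neg (by simpa using h), Function.update_of_ne (Ne.symm h)]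
    rfl

section

variable {ι : Type} [Fintype ι] [DecidableEq ι]

end

/-- The constant of the induction step. -/
def cC (n M : ℕ) : ℕ :=
  2 * (1 + ell (n + 1) M * M) * (ell (n + 1) M + 1) + 2 * ell n M * (ell (n + 1) M + 1) +
    2 * M * (ell (n + 1) M + M * (n + 1)) + 1

end Pool.Agent.H18.Ex

end

section

/-!
# Module Ratio: a facet changes little when few layers are peeled off
-/

namespace Pool.Agent.H18.Ex

open Finset

variable {ι : Type} [Fintype ι] [DecidableEq ι]

/-- Peel `k i` layers in direction `i` (never in direction `o`).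

Proof.  Put `k' i = k i` for `i ≠ o, l` and `k' o = k l`.  Subtracting `k'` maps
`{x ∈ Rg σ (update w l 0) | ∀ i ≠ l, k' i ≤ x i}` injectively into
`Rg (σ - ∑ k) (update (w - k) l 0)`.  Hence
`fc σ w l - fc (σ - ∑ k) (w - k) l ≤ ∑_{i ≠ l} |{x ∈ Rg σ (update w l 0) | x i < k' i}|`.  Each
nonzero term has `k' i ≥ 1` and is at most `2 N² fc σ w l / q` by `frac` with `v = q * k' i`
(`v ≤ w i` resp. `v ≤ w l ≤ w o`, and `v ≤ σ`); there are at most `N` active `i ≠ l`. -/
theorem facet_ratio (N : ℕ) (hN : 1 ≤ N) (o l : ι) (σ : ℕ) (w k : ι → ℕ) (q : ℕ) (hq : 2 ≤ q)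
    (hcard : (univ.filter fun i => 0 < w i).card ≤ N + 1) (hol : l ≠ o) (hl : 0 < w l)
    (hlo : w l ≤ w o) (hko : k o = 0) (hk : ∀ i, q * k i ≤ w i) (hkσ : ∀ i, q * k i ≤ σ) :
    q * fc σ w l ≤ q * fc (σ - ∑ i, k i) (fun i => w i - k i) l + 2 * N ^ 3 * fc σ w l := by
  classical
  set k' : ι → ℕ := Function.update (Function.update k o (k l)) l 0 with hk'
  have k'l : k' l = 0 := by rw [hk', Function.update_self]
  have k'o : k' o = k l := by
    rw [hk', Function.update_of_ne (Ne.symm hol), Function.update_self]
  have k'i : ∀ i, i ≠ l → i ≠ o → k' i = k i := by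
    intro i h1 h2
    rw [hk', Function.update_of_ne h1, Function.update_of_ne h2]
  -- the sums agree
  have hsum : ∑ i, k' i = ∑ i, k i := by
    have e1 : ∑ i, k' i = k' l + (k' o + ∑ i ∈ (univ.erase l).erase o, k' i) := by
      rw [← Finset.add_sum_erase univ k' (mem_univ l),
        ← Finset.add_sum_erase (univ.erase l) k' (mem_erase.2 ⟨Ne.symm hol, mem_univ o⟩)]
    have e2 : ∑ i, k i = k l + (k o + ∑ i ∈ (univ.erase l).erase o, k i) := by
      rw [← Finset.add_sum_erase univ k (mem_univ l),
        ← Finset.add_sum_erase (univ.erase l) k (mem_erase.2 ⟨Ne.symm hol, mem_univ o⟩)]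
    have e3 : ∑ i ∈ (univ.erase l).erase o, k' i = ∑ i ∈ (univ.erase l).erase o, k i := by
      refine Finset.sum_congr rfl fun i hi => ?_
      rw [mem_erase, mem_erase] at hi
      exact k'i i hi.2.1 hi.1
    rw [e1, e2, e3, k'l, k'o, hko]
    omega
  have hk'w : ∀ i, q * k' i ≤ Function.update w l 0 i := by
    intro i
    by_cases h1 : i = l
    · subst h1; rw [k'l, mul_zero]; exact Nat.zero_le _
    · rw [Function.update_of_ne h1]
      by_cases h2 : i = o
      · subst h2; rw [k'o]; exact (hk l).trans hlo
      · rw [k'i i h1 h2]; exact hk i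
  have hk'σ : ∀ i, q * k' i ≤ σ := by
    intro i
    by_cases h1 : i = l
    · subst h1; rw [k'l, mul_zero]; exact Nat.zero_le _
    · by_cases h2 : i = o
      · subst h2; rw [k'o]; exact hkσ l
      · rw [k'i i h1 h2]; exact hkσ i
  set F := Rg σ (Function.update w l 0) with hF
  set S := F.filter fun x => ∀ i, k' i ≤ x i with hS
  -- the injection
  have hinj : S.card ≤ fc (σ - ∑ i, k i) (fun i => w i - k i) l := by
    unfold fc
    refine Finset.card_le_card_of_injOn (fun x i => x i - k' i) ?_ ?_
    · intro x hx
      have hx' := Finset.mem_coe.1 hx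
      rw [hS, mem_filter, hF, mem_Rg] at hx'
      obtain ⟨⟨h1, h2⟩, h3⟩ := hx'
      refine Finset.mem_coe.2 ?_
      rw [mem_Rg]
      constructor
      · intro i
        by_cases hi : i = l
        · subst hi
          have := h1 i
          rw [Function.update_self] at this ⊢
          simp only
          omega
        · rw [Function.update_of_ne hi]
          have := h1 i
          rw [Function.update_of_ne hi] at this
          by_cases hio : i = o
          · subst hio
            simp only [k'o, hko]
            omega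
          · simp only [k'i i hi hio]
            omega
      · rw [← hsum, ← h2]
        simp only
        have := Finset.sum_tsub_distrib (s := (univ : Finset ι)) (f := x) (g := k')
          (fun i _ => h3 i)
        exact this
    · intro x hx y hy hxy
      have hx' := Finset.mem_coe.1 hx
      have hy' := Finset.mem_coe.1 hy
      rw [hS, mem_filter] at hx' hy'
      funext i
      have h1 := congrFun hxy i
      simp only at h1
      have h2 := hx'.2 i
      have h3 := hy'.2 i
      omega
  -- the bad points
  set I := univ.filter fun i => 0 < k' i with hI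
  have hIcard : I.card ≤ N := by
    have h1 : I ⊆ (univ.filter fun i => 0 < w i).erase l := by
      intro i hi
      rw [hI, mem_filter] at hi
      have hil : i ≠ l := by
        rintro rfl
        rw [k'l] at hi
        exact absurd hi.2 (lt_irrefl 0)
      rw [mem_erase, mem_filter]
      refine ⟨hil, mem_univ _, ?_⟩
      have := hk'w i
      rw [Function.update_of_ne hil] at this
      have h2 : 0 < q * k' i := Nat.mul_pos (by omega) hi.2
      omega
    have h2 : l ∈ univ.filter fun i => 0 < w i := mem_filter.2 ⟨mem_univ _, hl⟩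
    have h3 := Finset.card_le_card h1
    rw [Finset.card_erase_of_mem h2] at h3
    omega
  have hact : (univ.filter fun i => 0 < Function.update w l 0 i).card ≤ N + 1 := by
    refine (Finset.card_le_card ?_).trans hcard
    intro i hi
    rw [mem_filter] at hi ⊢
    refine ⟨mem_univ _, ?_⟩
    by_cases h1 : i = l
    · subst h1; exact hl
    · have := hi.2
      rwa [Function.update_of_ne h1] at this
  have hX : ∀ i ∈ I, q * (F.filter fun x => x i < k' i).card ≤ 2 * N ^ 2 * F.card := by
    intro i hi
    rw [hI, mem_filter] at hi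
    have h1 := frac N hN σ (Function.update w l 0) i (k' i) (q * k' i) hact (hk'w i) (hk'σ i)
      (Nat.mul_le_mul_right _ hq)
    rw [← hF] at h1
    refine Nat.le_of_mul_le_mul_right ?_ hi.2
    calc q * (F.filter fun x => x i < k' i).card * k' i
        = (F.filter fun x => x i < k' i).card * (q * k' i) := by ring
      _ ≤ 2 * N ^ 2 * k' i * F.card := h1
      _ = 2 * N ^ 2 * F.card * k' i := by ring
  have hcov : F ⊆ S ∪ I.biUnion fun i => F.filter fun x => x i < k' i := by
    intro x hx
    rw [mem_union, mem_biUnion]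
    by_cases h : ∀ i, k' i ≤ x i
    · left
      rw [hS, mem_filter]
      exact ⟨hx, h⟩
    · right
      push Not at h
      obtain ⟨i, hi⟩ := h
      refine ⟨i, ?_, mem_filter.2 ⟨hx, hi⟩⟩
      rw [hI, mem_filter]
      exact ⟨mem_univ _, by omega⟩
  have hF2 : F.card ≤ S.card + ∑ i ∈ I, (F.filter fun x => x i < k' i).card :=
    (Finset.card_le_card hcov).trans ((Finset.card_union_le _ _).trans
      (Nat.add_le_add_left Finset.card_biUnion_le _))
  have hF3 : fc σ w l = F.card := rfl
  rw [hF3]
  calc q * F.card ≤ q * (S.card + ∑ i ∈ I, (F.filter fun x => x i < k' i).card) :=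
        Nat.mul_le_mul_left _ hF2
    _ = q * S.card + ∑ i ∈ I, q * (F.filter fun x => x i < k' i).card := by
        rw [mul_add, Finset.mul_sum]
    _ ≤ q * fc (σ - ∑ i, k i) (fun i => w i - k i) l + I.card * (2 * N ^ 2 * F.card) := by
        refine Nat.add_le_add (Nat.mul_le_mul_left _ hinj) ?_
        rw [← smul_eq_mul]
        exact Finset.sum_le_card_nsmul _ _ _ hX
    _ ≤ q * fc (σ - ∑ i, k i) (fun i => w i - k i) l + N * (2 * N ^ 2 * F.card) :=
        Nat.add_le_add_left (Nat.mul_le_mul_right _ hIcard) _
    _ = q * fc (σ - ∑ i, k i) (fun i => w i - k i) l + 2 * N ^ 3 * F.card := by ring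

end Pool.Agent.H18.Ex

end
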