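import Pool.Agent.H94.LP1.M07
import Pool.Agent.H94.LP1.M20

/-! The parts of this file: H18.Ex.Iter, H18.Ex.Round. -/

section

/-!
# Module Iter: the rounds, numerically

In one round `min (w i) σ / q` layers are peeled off in every direction `i ≠ o`.
-/

namespace Pool.Agent.H18.Ex

open Finset

variable {ι : Type} [Fintype ι] [DecidableEq ι]

/-- Number of layers peeled off in direction `i` in one round. -/
def rk (q : ℕ) (o : ι) (σ : ℕ) (w : ι → ℕ) : ι → ℕ :=
  fun i => if i = o then 0 else min (w i) σ / q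

/-- One round. -/
def rnd (q : ℕ) (o : ι) (p : ℕ × (ι → ℕ)) : ℕ × (ι → ℕ) :=
  (p.1 - ∑ i, rk q o p.1 p.2 i, fun i => p.2 i - rk q o p.1 p.2 i)

omit [Fintype ι] in
theorem rk_le_w (q : ℕ) (o : ι) (σ : ℕ) (w : ι → ℕ) (i : ι) : rk q o σ w i ≤ w i / q := by
  unfold rk
  split_ifs
  · exact Nat.zero_le _
  · exact Nat.div_le_div_right (min_le_left _ _)

omit [Fintype ι] in
theorem rk_le_σ (q : ℕ) (o : ι) (σ : ℕ) (w : ι → ℕ) (i : ι) : rk q o σ w i ≤ σ / q := by
  unfold rk
  split_ifs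
  · exact Nat.zero_le _
  · exact Nat.div_le_div_right (min_le_right _ _)

theorem rnd_w_mono (q : ℕ) (o : ι) (p : ℕ × (ι → ℕ)) (i : ι) (t : ℕ) :
    ((rnd q o)^[t] p).2 i ≤ p.2 i := by
  induction t with
  | zero => exact le_rfl
  | succ t ih =>
    rw [Function.iterate_succ_apply']
    exact (Nat.sub_le _ _).trans ih

theorem rnd_w_step (q : ℕ) (o : ι) (p : ℕ × (ι → ℕ)) (i : ι) :
    (1 - 1 / (q : ℝ)) * (p.2 i : ℝ) ≤ ((rnd q o p).2 i : ℝ) := by
  have h1 : p.2 i ≤ (rnd q o p).2 i + p.2 i / q := by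
    have h2 := rk_le_w q o p.1 p.2 i
    change p.2 i ≤ p.2 i - rk q o p.1 p.2 i + p.2 i / q
    omega
  have h3 : (p.2 i : ℝ) ≤ ((rnd q o p).2 i : ℝ) + ((p.2 i / q : ℕ) : ℝ) := by exact_mod_cast h1
  have h4 : ((p.2 i / q : ℕ) : ℝ) ≤ (p.2 i : ℝ) / (q : ℝ) := Nat.cast_div_le
  have h5 : (1 - 1 / (q : ℝ)) * (p.2 i : ℝ) = (p.2 i : ℝ) - (p.2 i : ℝ) / (q : ℝ) := by ring
  rw [h5]
  linarith only [h3, h4]

theorem rnd_w_lower (q : ℕ) (hq : 1 ≤ q) (o : ι) (p : ℕ × (ι → ℕ)) (i : ι) (t : ℕ) :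
    (1 - 1 / (q : ℝ)) ^ t * (p.2 i : ℝ) ≤ (((rnd q o)^[t] p).2 i : ℝ) := by
  have hr : 0 ≤ 1 - 1 / (q : ℝ) := by
    have : (1 : ℝ) ≤ q := by exact_mod_cast hq
    rw [sub_nonneg, div_le_one (by linarith)]
    exact this
  induction t with
  | zero => simp
  | succ t ih =>
    rw [Function.iterate_succ_apply', pow_succ', mul_assoc]
    exact (mul_le_mul_of_nonneg_left ih hr).trans (rnd_w_step q o _ i)

theorem rnd_v_step (q : ℕ) (hq : 1 ≤ q) (o : ι) (p : ℕ × (ι → ℕ)) (i : ι) (hi : i ≠ o) :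
    ((min ((rnd q o p).2 i) (rnd q o p).1 : ℕ) : ℝ) ≤
      (1 - 1 / (q : ℝ)) * ((min (p.2 i) p.1 : ℕ) : ℝ) + 1 := by
  set m := min (p.2 i) p.1 with hm
  have hrk : rk q o p.1 p.2 i = m / q := by
    unfold rk
    rw [if_neg hi]
  have h1 : min ((rnd q o p).2 i) (rnd q o p).1 + m / q ≤ m := by
    have hmq : m / q ≤ m := Nat.div_le_self _ _
    have hA : (rnd q o p).2 i = p.2 i - m / q := by
      change p.2 i - rk q o p.1 p.2 i = _
      rw [hrk]
    have hB : (rnd q o p).1 ≤ p.1 - m / q := by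
      change p.1 - ∑ i, rk q o p.1 p.2 i ≤ _
      have : m / q ≤ ∑ i, rk q o p.1 p.2 i := by
        rw [← hrk]
        exact single_le_sum (f := fun i => rk q o p.1 p.2 i) (fun _ _ => Nat.zero_le _)
          (mem_univ i)
      omega
    rcases le_total (p.2 i) p.1 with h | h
    · have h2 : m = p.2 i := by rw [hm, min_eq_left h]
      have h3 := min_le_left ((rnd q o p).2 i) (rnd q o p).1
      omega
    · have h2 : m = p.1 := by rw [hm, min_eq_right h]
      have h3 := min_le_right ((rnd q o p).2 i) (rnd q o p).1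
      omega
  have h2 : ((min ((rnd q o p).2 i) (rnd q o p).1 : ℕ) : ℝ) + ((m / q : ℕ) : ℝ) ≤ (m : ℝ) := by
    exact_mod_cast h1
  have hq0 : (0 : ℝ) < q := by exact_mod_cast hq
  have h3 : (m : ℝ) / (q : ℝ) ≤ ((m / q : ℕ) : ℝ) + 1 := by
    rw [div_le_iff₀ hq0]
    have h4 : m ≤ (m / q + 1) * q := by
      have := Nat.div_add_mod m q
      have h5 := Nat.mod_lt m hq
      calc m = q * (m / q) + m % q := this.symm
        _ ≤ q * (m / q) + q := by omega
        _ = (m / q + 1) * q := by ring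
    exact_mod_cast h4
  have h5 : (1 - 1 / (q : ℝ)) * (m : ℝ) = (m : ℝ) - (m : ℝ) / (q : ℝ) := by ring
  rw [h5]
  linarith only [h2, h3]

theorem rnd_v_upper (q : ℕ) (hq : 1 ≤ q) (o : ι) (p : ℕ × (ι → ℕ)) (i : ι) (hi : i ≠ o) (t : ℕ) :
    ((min (((rnd q o)^[t] p).2 i) ((rnd q o)^[t] p).1 : ℕ) : ℝ) ≤
      (1 - 1 / (q : ℝ)) ^ t * (p.2 i : ℝ) + q := by
  have hq0 : (0 : ℝ) < q := by exact_mod_cast hq
  have hr : 0 ≤ 1 - 1 / (q : ℝ) := by
    have : (1 : ℝ) ≤ q := by exact_mod_cast hq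
    rw [sub_nonneg, div_le_one (by linarith)]
    exact this
  induction t with
  | zero =>
    rw [pow_zero, one_mul]
    have h1 : ((min (p.2 i) p.1 : ℕ) : ℝ) ≤ (p.2 i : ℝ) := by
      exact_mod_cast min_le_left (p.2 i) p.1
    change ((min (p.2 i) p.1 : ℕ) : ℝ) ≤ _
    linarith only [hq0, h1]
  | succ t ih =>
    rw [Function.iterate_succ_apply']
    refine (rnd_v_step q hq o _ i hi).trans ?_
    have h1 := mul_le_mul_of_nonneg_left ih hr
    have h2 : (1 - 1 / (q : ℝ)) * ((1 - 1 / (q : ℝ)) ^ t * (p.2 i : ℝ) + q) + 1 =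
        (1 - 1 / (q : ℝ)) ^ (t + 1) * (p.2 i : ℝ) + q := by
      have hq' : (1 - 1 / (q : ℝ)) * (q : ℝ) = (q : ℝ) - 1 := by
        rw [sub_mul, one_mul, one_div_mul_cancel (ne_of_gt hq0)]
      rw [pow_succ']
      linear_combination hq'
    linarith only [h1, h2]

/-- The required width. -/
def cD0 (n M q C B : ℕ) : ℕ := (n + 1) ^ n * C * (4 * B + q + 2) ^ (n + 1) + 2 * M + B

/-- There is a number `T` of rounds after which the region is small compared with the facet in
the thinnest direction `ls`, while all widths stay large.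

Proof.  `N = n + 1`, `r = 1 - 1/q` (real numbers), `(σ_t, w_t)` = state after `t` rounds.
(1) `w_t i ≥ r^t w' i`; for `i ≠ o`, `v_t i := min (w_t i) σ_t` satisfies
`v_{t+1} i ≤ r v_t i + 1` (if `w_t i ≤ σ_t` look at `w`, otherwise at `σ`, which loses at least
`σ_t / q` rounded down), so `v_t i ≤ r^t w' i + q ≤ r^t w i + q`.  `w_t o = w' o`.
(2) `|Rg_t| ≤ ∏_{i ≠ o} (v_t i + 1) ≤ ∏_{i ≠ o active} (r^t w i + q + 1)` (`card_le_prod`), which tends to
`(q + 1)^N` or less; and by `box_lower` `N^(N-1) fc σ w ls ≥ ∏_{i active ≠ o, ls} w i ≥ D^(N-1)`.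
Let `T` be the least `t` with `C |Rg_t| ≤ fc σ w ls`; it exists if `D` is large.
(3) For `t < T`: `C ∏_{i≠o} (r^t w i + q + 1) N^(N-1) > ∏_{i active ≠ o, ls} w i`.  If
`r^t w ls < B₀ := 4 B` then `r^t ≤ B₀ / D` and for `i ≠ ls` the factor is at most
`w i (B₀ + q + 1) / D`, so `C N^(N-1) (B₀ + q + 1)^N > D^(N-1)`, impossible for `D` large
(`N ≥ 2`).  So `r^t w ls ≥ 4 B` and `w_t i ≥ r^t w' i ≥ r^t w i / 2 ≥ r^t w ls / 2 ≥ 2 B`
(`w' i ≥ w i - M ≥ w i / 2`).  Also `(σ_t + 1)^N ≥ |Rg_t|` and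
`C N^(N-1) |Rg_t| > D^(N-1)`, so `σ_t ≥ 2 B`.
(4) One more round at most halves: `w_{t+1} i ≥ w_t i / 2`, `σ_{t+1} ≥ σ_t - N σ_t / q ≥ σ_t / 2`
(at most `N` active coordinates `≠ o`); this covers `t = T ≥ 1`.  For `T = 0`:
`w' i ≥ D - M ≥ B`, `σ' ≥ σ - M ≥ D - M ≥ B`. -/
theorem rounds_exist (n M q C B : ℕ) (hn : 1 ≤ n) (hq : 2 * (n + 1) ≤ q) (hC : 1 ≤ C) :
    ∀ (ι : Type) [Fintype ι] [DecidableEq ι] (o ls : ι) (σ : ℕ) (w : ι → ℕ),
      Nrm (n + 1) (cD0 n M q C B) o σ w → ls ≠ o → 0 < w ls →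
      (∀ i, i ≠ o → 0 < w i → w ls ≤ w i) →
      ∀ (σ' : ℕ) (w' : ι → ℕ), σ ≤ σ' + M → σ' ≤ σ → (∀ i, w i ≤ w' i + M) → (∀ i, w' i ≤ w i) →
      ∃ T : ℕ,
        C * (Rg ((rnd q o)^[T] (σ', w')).1 ((rnd q o)^[T] (σ', w')).2).card ≤ fc σ w ls ∧
        ∀ t ≤ T, B ≤ ((rnd q o)^[t] (σ', w')).1 ∧
          ∀ i, 0 < w i → B ≤ ((rnd q o)^[t] (σ', w')).2 i := by
  set K : ℕ := 4 * B + q + 2 with hK
  intro ι _ _ o ls σ w hN hls hwls hmin σ' w' hσM hσ' hwM hw'
  have hcD : cD0 n M q C B = (n + 1) ^ n * C * K ^ (n + 1) + 2 * M + B := rfl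
  rw [hcD] at hN
  set D : ℕ := (n + 1) ^ n * C * K ^ (n + 1) + 2 * M + B with hD
  have hq1 : 1 ≤ q := by omega
  have hq0 : (0 : ℝ) < q := by exact_mod_cast hq1
  set r : ℝ := 1 - 1 / (q : ℝ) with hr
  have hr0 : 0 ≤ r := by
    have : (1 : ℝ) ≤ q := by exact_mod_cast hq1
    rw [hr, sub_nonneg, div_le_one (by linarith only [hq0])]
    exact this
  have hr1 : r < 1 := by
    have : 0 < 1 / (q : ℝ) := by positivity
    rw [hr]
    linarith only [this]
  -- the index sets
  set A : Finset ι := univ.filter (fun i => 0 < w i ∧ i ≠ o) with hA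
  set Q : Finset ι := univ.filter (fun i => 0 < w i ∧ i ≠ o ∧ i ≠ ls) with hQ
  have hlsQ : ls ∉ Q := by simp [hQ]
  have hAQ : A = insert ls Q := by
    ext i
    simp only [hA, hQ, mem_filter, mem_univ, true_and, mem_insert]
    constructor
    · rintro ⟨h1, h2⟩
      by_cases h3 : i = ls
      · left; exact h3
      · right; exact ⟨h1, h2, h3⟩
    · rintro (h | ⟨h1, h2, h3⟩)
      · subst h; exact ⟨hwls, hls⟩
      · exact ⟨h1, h2⟩
  have hoA : o ∉ A := by simp [hA]
  have hAcard : A.card = n + 1 := by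
    have h1 : univ.filter (fun i => 0 < w i) = insert o A := by
      ext i
      simp only [hA, mem_filter, mem_univ, true_and, mem_insert]
      constructor
      · intro h
        by_cases h3 : i = o
        · left; exact h3
        · right; exact ⟨h, h3⟩
      · rintro (h | ⟨h1, _⟩)
        · subst h; exact hN.ho
        · exact h1
    have h2 := hN.hcard
    rw [h1, card_insert_of_notMem hoA] at h2
    omega
  have hQcard : Q.card = n := by
    rw [hAQ, card_insert_of_notMem hlsQ] at hAcard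
    omega
  -- the lower bound for the facet
  have hbox : ∏ i ∈ Q, w i ≤ (n + 1) ^ n * fc σ w ls := by
    have := box_lower (n + 1) (by omega) D o ls σ w hN hls hwls
    rwa [Nat.add_sub_cancel] at this
  have hDpos : 1 ≤ D := by
    have : 1 ≤ (n + 1) ^ n * C * K ^ (n + 1) := by
      have h1 : 0 < (n + 1) ^ n := by positivity
      have h2 : 0 < K ^ (n + 1) := by positivity
      exact Nat.succ_le_of_lt (by positivity)
    omega
  have hDn : D ≤ D ^ n := Nat.le_self_pow (by omega) D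
  have hQD : D ^ n ≤ ∏ i ∈ Q, w i := by
    rw [← hQcard, ← prod_const]
    refine prod_le_prod' (fun i hi => ?_)
    exact hN.hD i (mem_filter.mp hi).2.1
  have hDfc : D ≤ (n + 1) ^ n * fc σ w ls := hDn.trans (hQD.trans hbox)
  set S : ℕ → ℕ := fun t => ((rnd q o)^[t] (σ', w')).1 with hS
  set W : ℕ → ι → ℕ := fun t => ((rnd q o)^[t] (σ', w')).2 with hW
  have hWle : ∀ t i, W t i ≤ w i := fun t i => (rnd_w_mono q o (σ', w') i t).trans (hw' i)
  have hW0 : ∀ t i, w i = 0 → W t i = 0 := fun t i h => by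
    have := hWle t i
    omega
  -- the upper bound for the region
  have hcard : ∀ t, (Rg (S t) (W t)).card ≤ ∏ i ∈ A, (min (W t i) (S t) + 1) := by
    intro t
    refine (card_le_prod o (S t) (W t)).trans (le_of_eq ?_)
    symm
    refine prod_subset ?_ ?_
    · intro i hi
      rw [mem_erase]
      exact ⟨(mem_filter.mp hi).2.2, mem_univ i⟩
    · intro i hi hiA
      have h1 : i ≠ o := (mem_erase.mp hi).1
      have h2 : w i = 0 := by
        by_contra h3
        exact hiA (mem_filter.mpr ⟨mem_univ i, Nat.pos_of_ne_zero h3, h1⟩)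
      rw [hW0 t i h2, Nat.zero_min, Nat.zero_add]
  have hv : ∀ t, ∀ i ∈ A, ((min (W t i) (S t) + 1 : ℕ) : ℝ) ≤ r ^ t * (w i : ℝ) + (q + 1) := by
    intro t i hi
    have h1 := rnd_v_upper q hq1 o (σ', w') i (mem_filter.mp hi).2.2 t
    have h2 : r ^ t * (w' i : ℝ) ≤ r ^ t * (w i : ℝ) :=
      mul_le_mul_of_nonneg_left (by exact_mod_cast hw' i) (pow_nonneg hr0 t)
    have h3 : ((min (W t i) (S t) : ℕ) : ℝ) ≤ r ^ t * (w' i : ℝ) + q := h1
    push_cast at h3 ⊢
    linarith only [h2, h3]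
  have hcardR : ∀ t, ((Rg (S t) (W t)).card : ℝ) ≤ ∏ i ∈ A, (r ^ t * (w i : ℝ) + (q + 1)) := by
    intro t
    have h1 : ((Rg (S t) (W t)).card : ℝ) ≤ ∏ i ∈ A, ((min (W t i) (S t) + 1 : ℕ) : ℝ) := by
      exact_mod_cast hcard t
    exact h1.trans (prod_le_prod (fun i _ => by positivity) (hv t))
  have hpowD : (n + 1) ^ n * C * K ^ (n + 1) ≤ D := by omega
  -- existence of T
  have hex : ∃ t, C * (Rg (S t) (W t)).card ≤ fc σ w ls := by
    have hwo : (0 : ℝ) < w o := by exact_mod_cast hN.ho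
    obtain ⟨t, ht⟩ := exists_pow_lt_of_lt_one (show (0 : ℝ) < 1 / (w o : ℝ) by positivity) hr1
    refine ⟨t, ?_⟩
    have h1 : ((Rg (S t) (W t)).card : ℝ) ≤ ((K : ℕ) : ℝ) ^ (n + 1) := by
      refine (hcardR t).trans ?_
      rw [← hAcard, ← prod_const]
      refine prod_le_prod (fun i _ => by positivity) (fun i _ => ?_)
      have h2 : r ^ t * (w i : ℝ) ≤ 1 := by
        have h3 : r ^ t * (w i : ℝ) ≤ 1 / (w o : ℝ) * (w o : ℝ) := by
          refine mul_le_mul ht.le (by exact_mod_cast hN.hwo i) (by positivity) (by positivity)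
        rwa [one_div_mul_cancel (ne_of_gt hwo)] at h3
      rw [hK]
      push_cast
      have : (0 : ℝ) ≤ B := by positivity
      linarith only [h2]
    have h2 : (Rg (S t) (W t)).card ≤ K ^ (n + 1) := by exact_mod_cast h1
    have h3 : (n + 1) ^ n * (C * (Rg (S t) (W t)).card) ≤ (n + 1) ^ n * fc σ w ls := by
      calc (n + 1) ^ n * (C * (Rg (S t) (W t)).card) ≤ (n + 1) ^ n * (C * K ^ (n + 1)) := by gcongr
        _ = (n + 1) ^ n * C * K ^ (n + 1) := by ring
        _ ≤ D := hpowD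
        _ ≤ _ := hDfc
    exact Nat.le_of_mul_le_mul_left h3 (by positivity)
  classical
  set T := Nat.find hex with hT
  have hTspec : C * (Rg (S T) (W T)).card ≤ fc σ w ls := Nat.find_spec hex
  have hbefore : ∀ t < T, 2 * B ≤ S t ∧ ∀ i, 0 < w i → 2 * B ≤ W t i := by
    intro t ht
    have h1 : fc σ w ls < C * (Rg (S t) (W t)).card := not_le.mp (Nat.find_min hex ht)
    have h2 : ∏ i ∈ Q, w i < (n + 1) ^ n * (C * (Rg (S t) (W t)).card) :=
      lt_of_le_of_lt hbox (Nat.mul_lt_mul_of_pos_left h1 (by positivity))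
    constructor
    · by_contra hlt
      push Not at hlt
      have h3 : (Rg (S t) (W t)).card ≤ K ^ (n + 1) := by
        refine (hcard t).trans ?_
        rw [← hAcard, ← prod_const]
        refine prod_le_prod' (fun i _ => ?_)
        have := min_le_right (W t i) (S t)
        omega
      have h4 : (n + 1) ^ n * (C * (Rg (S t) (W t)).card) ≤ D := by
        calc (n + 1) ^ n * (C * (Rg (S t) (W t)).card) ≤ (n + 1) ^ n * (C * K ^ (n + 1)) := by
              gcongr
          _ = (n + 1) ^ n * C * K ^ (n + 1) := by ring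
          _ ≤ D := hpowD
      have h5 := hDn.trans hQD
      omega
    · have h3 : (4 * B : ℝ) ≤ r ^ t * (w ls : ℝ) := by
        by_contra hlt
        push Not at hlt
        have hDls : (D : ℝ) ≤ w ls := by exact_mod_cast hN.hD ls hwls
        have h4 : ∀ i ∈ Q, (D : ℝ) * (r ^ t * (w i : ℝ) + (q + 1)) ≤ (K : ℝ) * (w i : ℝ) := by
          intro i hi
          have hi1 : 0 < w i := (mem_filter.mp hi).2.1
          have hi2 : (D : ℝ) ≤ w i := by exact_mod_cast hN.hD i hi1
          have h5 : (D : ℝ) * (r ^ t * (w i : ℝ)) ≤ 4 * B * (w i : ℝ) := by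
            calc (D : ℝ) * (r ^ t * (w i : ℝ)) = (r ^ t * (D : ℝ)) * (w i : ℝ) := by ring
              _ ≤ (r ^ t * (w ls : ℝ)) * (w i : ℝ) := by
                gcongr
              _ ≤ 4 * B * (w i : ℝ) := by gcongr
          have h6 : (D : ℝ) * (q + 1) ≤ (w i : ℝ) * (q + 1) := by gcongr
          have h7 : (K : ℝ) = 4 * B + q + 2 := by rw [hK]; push_cast; ring
          rw [h7]
          have h8 : (0 : ℝ) ≤ w i := by positivity
          nlinarith only [h5, h6]
        have h5 : (D : ℝ) ^ n * ∏ i ∈ Q, (r ^ t * (w i : ℝ) + (q + 1)) ≤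
            (K : ℝ) ^ n * ∏ i ∈ Q, (w i : ℝ) := by
          rw [← hQcard, ← prod_const, ← prod_const, ← prod_mul_distrib, ← prod_mul_distrib]
          exact prod_le_prod (fun i _ => by positivity) h4
        have h6 : (D : ℝ) ^ n * ((Rg (S t) (W t)).card : ℝ) ≤
            (K : ℝ) ^ (n + 1) * ∏ i ∈ Q, (w i : ℝ) := by
          calc (D : ℝ) ^ n * ((Rg (S t) (W t)).card : ℝ)
              ≤ (D : ℝ) ^ n * ∏ i ∈ A, (r ^ t * (w i : ℝ) + (q + 1)) := by
                exact mul_le_mul_of_nonneg_left (hcardR t) (by positivity)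
            _ = (r ^ t * (w ls : ℝ) + (q + 1)) *
                ((D : ℝ) ^ n * ∏ i ∈ Q, (r ^ t * (w i : ℝ) + (q + 1))) := by
                rw [hAQ, prod_insert hlsQ]; ring
            _ ≤ (K : ℝ) * ((K : ℝ) ^ n * ∏ i ∈ Q, (w i : ℝ)) := by
                refine mul_le_mul ?_ h5 (by positivity) (by positivity)
                have h7 : (K : ℝ) = 4 * B + q + 2 := by rw [hK]; push_cast; ring
                rw [h7]
                linarith only [hlt]
            _ = _ := by ring
        have h7 : D ^ n * (Rg (S t) (W t)).card ≤ K ^ (n + 1) * ∏ i ∈ Q, w i := by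
          exact_mod_cast h6
        have h8 : D ^ n * ∏ i ∈ Q, w i < D ^ n * ∏ i ∈ Q, w i := by
          calc D ^ n * ∏ i ∈ Q, w i
              < D ^ n * ((n + 1) ^ n * (C * (Rg (S t) (W t)).card)) :=
                Nat.mul_lt_mul_of_pos_left h2 (by positivity)
            _ = (n + 1) ^ n * C * (D ^ n * (Rg (S t) (W t)).card) := by ring
            _ ≤ (n + 1) ^ n * C * (K ^ (n + 1) * ∏ i ∈ Q, w i) := by gcongr
            _ = ((n + 1) ^ n * C * K ^ (n + 1)) * ∏ i ∈ Q, w i := by ring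
            _ ≤ D ^ n * ∏ i ∈ Q, w i := Nat.mul_le_mul_right _ (hpowD.trans hDn)
        exact lt_irrefl _ h8
      intro i hi
      have h4 := rnd_w_lower q hq1 o (σ', w') i t
      have h5 : (w i : ℝ) ≤ 2 * (w' i : ℝ) := by
        have h6 := hwM i
        have h7 := hN.hD i hi
        have : w i ≤ 2 * w' i := by omega
        exact_mod_cast this
      have h6 : (w ls : ℝ) ≤ w i := by
        by_cases h7 : i = o
        · subst h7
          exact_mod_cast hN.hwo ls
        · exact_mod_cast hmin i h7 hi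
      have h7 : (2 * B : ℝ) ≤ (W t i : ℝ) := by
        have h8 : r ^ t * (w ls : ℝ) ≤ r ^ t * (2 * (w' i : ℝ)) :=
          mul_le_mul_of_nonneg_left (h6.trans h5) (pow_nonneg hr0 t)
        have h9 : r ^ t * (w' i : ℝ) ≤ (W t i : ℝ) := h4
        nlinarith only [h3, h4, h8]
      exact_mod_cast h7
  refine ⟨T, hTspec, ?_⟩
  intro t ht
  rcases Nat.lt_or_ge t T with hlt | hge
  · obtain ⟨h1, h2⟩ := hbefore t hlt
    refine ⟨?_, fun i hi => ?_⟩
    · change B ≤ S t
      omega
    · have := h2 i hi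
      change B ≤ W t i
      omega
  · have htT : t = T := le_antisymm ht hge
    subst htT
    rcases Nat.eq_zero_or_pos T with h0 | hpos
    · rw [h0]
      refine ⟨?_, fun i hi => ?_⟩
      · change B ≤ σ'
        have h1 := hN.hwσ o
        have h2 := hN.hD o hN.ho
        omega
      · change B ≤ w' i
        have h1 := hwM i
        have h2 := hN.hD i hi
        omega
    · obtain ⟨t, htt⟩ : ∃ t, T = t + 1 := ⟨T - 1, by omega⟩
      obtain ⟨h1, h2⟩ := hbefore t (by omega)
      have hstep : (rnd q o)^[T] (σ', w') = rnd q o ((rnd q o)^[t] (σ', w')) := by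
        rw [htt, Function.iterate_succ_apply']
      rw [hstep]
      refine ⟨?_, fun i hi => ?_⟩
      · change B ≤ S t - ∑ i, rk q o (S t) (W t) i
        have h3 : ∑ i, rk q o (S t) (W t) i ≤ (n + 1) * (S t / q) := by
          have h4 : ∑ i, rk q o (S t) (W t) i = ∑ i ∈ A, rk q o (S t) (W t) i := by
            symm
            refine sum_subset (subset_univ A) (fun i _ hiA => ?_)
            by_cases h5 : i = o
            · unfold rk
              rw [if_pos h5]
            · have h6 : w i = 0 := by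
                by_contra h7
                exact hiA (mem_filter.mpr ⟨mem_univ i, Nat.pos_of_ne_zero h7, h5⟩)
              have h7 := rk_le_w q o (S t) (W t) i
              rw [hW0 t i h6, Nat.zero_div] at h7
              exact Nat.le_zero.mp h7
          rw [h4, ← hAcard]
          exact sum_le_card_nsmul A _ _ (fun i _ => rk_le_σ q o (S t) (W t) i)
        have h4 : 2 * ((n + 1) * (S t / q)) ≤ S t := by
          calc 2 * ((n + 1) * (S t / q)) = (2 * (n + 1)) * (S t / q) := by ring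
            _ ≤ q * (S t / q) := Nat.mul_le_mul_right _ hq
            _ ≤ S t := Nat.mul_div_le _ _
        omega
      · change B ≤ W t i - rk q o (S t) (W t) i
        have h3 := rk_le_w q o (S t) (W t) i
        have h4 : 2 * (W t i / q) ≤ W t i := by
          calc 2 * (W t i / q) ≤ q * (W t i / q) := Nat.mul_le_mul_right _ (by omega)
            _ ≤ W t i := Nat.mul_div_le _ _
        have h5 := h2 i hi
        omega

end Pool.Agent.H18.Ex

end

section

/-!
# Module Round: any short list of directions is good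

The region has dimension `n + 1` (so `n + 2` active coordinates), `N = n + 1`.
-/

namespace Pool.Agent.H18.Ex

open Finset

variable {ι : Type} [Fintype ι] [DecidableEq ι]

theorem sum_count_univ (L : List ι) : ∑ i, L.count i = L.length := by
  induction L with
  | nil => simp
  | cons a L ih =>
    simp only [List.count_cons, List.length_cons, Finset.sum_add_distrib, ih]
    congr 1
    simp

omit [Fintype ι] in
theorem ew_nil (w : ι → ℕ) : ew [] w = w := by
  funext i
  simp [ew]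

omit [Fintype ι] in
theorem ew_cons (a : ι) (L : List ι) (w : ι → ℕ) :
    ew (a :: L) w = ew L (Function.update w a (w a - 1)) := by
  funext i
  unfold ew
  by_cases h : i = a
  · subst h
    rw [Function.update_self, List.count_cons_self]
    omega
  · rw [Function.update_of_ne h, List.count_cons_of_ne (Ne.symm h)]

theorem eph_not_mem (n M : ℕ) (L : List ι) (i : ι) (h : L.count i = 0) (σ : ℕ) (w φ : ι → ℕ) :
    eph n M L σ w φ i = φ i := by
  induction L generalizing σ w φ with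
  | nil => rfl
  | cons a L ih =>
    have ha : a ≠ i := by
      rintro rfl
      rw [List.count_cons_self] at h
      omega
    rw [List.count_cons_of_ne ha] at h
    rw [eph, ih h, Function.update_of_ne (Ne.symm ha)]

theorem eph_mem (n M : ℕ) (L : List ι) (i : ι) (h : 1 ≤ L.count i) (σ : ℕ) (w φ : ι → ℕ) :
    ∃ L₀ L₁ : List ι, L = L₀ ++ L₁ ∧
      eph n M L σ w φ i = nphi n M (fc (σ - L₀.length) (ew L₀ w) i) := by
  induction L generalizing σ w φ with
  | nil => simp at h
  | cons a L ih =>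
    by_cases hL : 1 ≤ L.count i
    · obtain ⟨L₀, L₁, h1, h2⟩ := ih hL (σ - 1) (Function.update w a (w a - 1))
        (Function.update φ a (nphi n M (fc σ w a)))
      refine ⟨a :: L₀, L₁, by rw [h1]; rfl, ?_⟩
      rw [eph, h2, ew_cons, List.length_cons, Nat.sub_sub, Nat.add_comm 1]
    · have h0 : L.count i = 0 := by omega
      have ha : a = i := by
        by_contra hne
        rw [List.count_cons_of_ne hne] at h
        omega
      subst ha
      refine ⟨[], a :: L, rfl, ?_⟩
      rw [eph, eph_not_mem n M L a h0, Function.update_self, ew_nil]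
      rfl

/-- The hypotheses of `round_good` on the region. -/
structure RHyp (n M D' q b : ℕ) (o : ι) (σ : ℕ) (w k : ι → ℕ) : Prop where
  hn : 1 ≤ n
  hM : 1 ≤ M
  hq : 32 * M * (n + 1) ^ 3 ≤ q
  hb1 : D' ≤ b
  hb2 : 2 * (n + 1) ^ 2 * (M * (n + 1) + 2 * ell (n + 1) M + 2) ≤ b
  hb3 : 16 * M ^ 2 * ell n M ^ 2 ≤ b
  hcard : (univ.filter fun i => 0 < w i).card = n + 2
  ho : 0 < w o
  hwo : ∀ i, w i ≤ w o
  hk : ∀ i, q * k i ≤ w i
  hkσ : ∀ i, q * k i ≤ σ
  hko : k o = 0
  hwb : ∀ i, 0 < w i → 2 * b ≤ w i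
  hσb : 2 * b ≤ σ
  hτ : ∀ l, l ≠ o → 0 < w l → σ + b ≤ ∑ i ∈ univ.erase l, w i

section

variable {n M D' q b : ℕ} {o : ι} {σ : ℕ} {w k : ι → ℕ}

theorem RHyp.q32 (h : RHyp n M D' q b o σ w k) : 32 * (n + 1) ≤ q := by
  have h1 : 1 ≤ M := h.hM
  have h2 : (n + 1) ≤ (n + 1) ^ 3 := Nat.le_self_pow (by norm_num) _
  have h3 := h.hq
  calc 32 * (n + 1) ≤ 32 * M * (n + 1) ^ 3 := by
        have : 32 * 1 * (n + 1) ≤ 32 * M * (n + 1) ^ 3 :=
          Nat.mul_le_mul (Nat.mul_le_mul_left _ h1) h2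
        simpa using this
    _ ≤ q := h3

theorem RHyp.bpos (h : RHyp n M D' q b o σ w k) : 4 ≤ b := by
  have h1 := h.hb2
  have h2 : 2 * 1 * 2 ≤ 2 * (n + 1) ^ 2 * (M * (n + 1) + 2 * ell (n + 1) M + 2) := by
    refine Nat.mul_le_mul (Nat.mul_le_mul_left _ (Nat.one_le_pow _ _ (by omega))) (by omega)
  omega

theorem RHyp.act_of_k (h : RHyp n M D' q b o σ w k) {i : ι} (hi : 1 ≤ k i) :
    i ≠ o ∧ 0 < w i := by
  have h1 := h.q32
  have h2 := h.hk i
  constructor
  · rintro rfl
    rw [h.hko] at hi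
    omega
  · have h3 : 32 * (n + 1) * 1 ≤ q * k i := Nat.mul_le_mul h1 hi
    omega

/-- Length of a short list. -/
theorem RHyp.len (h : RHyp n M D' q b o σ w k) (L : List ι) (hL : ∀ i, L.count i ≤ k i) :
    32 * L.length ≤ σ := by
  classical
  have hq := h.q32
  set S : Finset ι := (univ.filter fun i => 0 < w i).erase o with hS
  have hScard : S.card = n + 1 := by
    rw [hS, Finset.card_erase_of_mem (by simp [h.ho]), h.hcard]
    rfl
  have h1 : L.length = ∑ i ∈ S, L.count i := by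
    rw [← sum_count_univ L]
    symm
    refine Finset.sum_subset (Finset.subset_univ _) fun i _ hi => ?_
    by_contra hne
    have hk1 : 1 ≤ k i := le_trans (Nat.one_le_iff_ne_zero.2 hne) (hL i)
    obtain ⟨a1, a2⟩ := h.act_of_k hk1
    exact hi (Finset.mem_erase.2 ⟨a1, by simp [a2]⟩)
  have h2 : q * L.length ≤ (n + 1) * σ := by
    rw [h1, Finset.mul_sum, ← hScard]
    calc ∑ i ∈ S, q * L.count i ≤ ∑ _i ∈ S, σ :=
          Finset.sum_le_sum fun i _ => le_trans (Nat.mul_le_mul_left _ (hL i)) (h.hkσ i)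
      _ = S.card * σ := by rw [Finset.sum_const, smul_eq_mul]
  have h3 : 32 * (n + 1) * L.length ≤ (n + 1) * σ := le_trans (Nat.mul_le_mul_right _ hq) h2
  have h4 : (n + 1) * (32 * L.length) ≤ (n + 1) * σ := by
    calc (n + 1) * (32 * L.length) = 32 * (n + 1) * L.length := by ring
      _ ≤ _ := h3
  exact Nat.le_of_mul_le_mul_left h4 (by omega)

theorem RHyp.cnt (h : RHyp n M D' q b o σ w k) (L : List ι) (hL : ∀ i, L.count i ≤ k i) (i : ι) :
    32 * L.count i ≤ w i := by
  have hq := h.q32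
  calc 32 * L.count i ≤ q * k i := Nat.mul_le_mul (by omega) (hL i)
    _ ≤ w i := h.hk i

theorem RHyp.ewo (h : RHyp n M D' q b o σ w k) (L : List ι) (hL : ∀ i, L.count i ≤ k i) :
    ew L w o = w o := by
  have := hL o
  rw [h.hko] at this
  unfold ew
  omega

theorem RHyp.pos (h : RHyp n M D' q b o σ w k) (L : List ι) (hL : ∀ i, L.count i ≤ k i) (i : ι) :
    0 < ew L w i ↔ 0 < w i := by
  have := h.cnt L hL i
  unfold ew
  omega

theorem RHyp.actcard (h : RHyp n M D' q b o σ w k) (L : List ι) (hL : ∀ i, L.count i ≤ k i) :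
    (univ.filter fun i => 0 < ew L w i).card = n + 2 := by
  rw [← h.hcard]
  congr 1
  ext i
  simp only [Finset.mem_filter, Finset.mem_univ, true_and]
  exact h.pos L hL i

theorem RHyp.wid (h : RHyp n M D' q b o σ w k) (L : List ι) (hL : ∀ i, L.count i ≤ k i) (i : ι)
    (hi : 0 < w i) : b ≤ ew L w i := by
  have h1 := h.cnt L hL i
  have h2 := h.hwb i hi
  unfold ew
  omega

/-- The ratio between two states. -/
theorem RHyp.ratio (h : RHyp n M D' q b o σ w k) (L₁ L₂ : List ι)
    (hL : ∀ i, (L₁ ++ L₂).count i ≤ k i) (i : ι) (hio : i ≠ o) (hi : 0 < w i) :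
    (8 * M - 1) * fc (σ - L₁.length) (ew L₁ w) i ≤
      8 * M * fc (σ - (L₁ ++ L₂).length) (ew (L₁ ++ L₂) w) i := by
  have hq := h.q32
  have hM := h.hM
  have hc : ∀ j, L₁.count j + L₂.count j ≤ k j := fun j => by
    have := hL j
    rwa [List.count_append] at this
  have hL1 : ∀ j, L₁.count j ≤ k j := fun j => le_trans (Nat.le_add_right _ _) (hc j)
  have hlen := h.len L₁ hL1
  set q' := 16 * M * (n + 1) ^ 3 with hq'
  have hq'1 : 16 ≤ q' := by
    have : 16 * 1 * 1 ≤ 16 * M * (n + 1) ^ 3 :=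
      Nat.mul_le_mul (Nat.mul_le_mul_left _ hM) (Nat.one_le_pow _ _ (by omega))
    omega
  have hqq : 2 * q' ≤ q := by
    have := h.hq
    rw [hq']
    calc 2 * (16 * M * (n + 1) ^ 3) = 32 * M * (n + 1) ^ 3 := by ring
      _ ≤ q := this
  have hkw : ∀ j, q' * L₂.count j ≤ ew L₁ w j := by
    intro j
    have h1 : 2 * q' * k j ≤ w j := le_trans (Nat.mul_le_mul_right _ hqq) (h.hk j)
    have h2 : q' * (L₁.count j + L₂.count j) ≤ q' * k j := Nat.mul_le_mul_left _ (hc j)
    have h3 : 1 * L₁.count j ≤ q' * L₁.count j := Nat.mul_le_mul_right _ (by omega)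
    have h4 : 2 * (q' * k j) ≤ w j := by
      calc 2 * (q' * k j) = 2 * q' * k j := by ring
        _ ≤ _ := h1
    rw [Nat.mul_add] at h2
    unfold ew
    omega
  have hks : ∀ j, q' * L₂.count j ≤ σ - L₁.length := by
    intro j
    have h1 : 2 * q' * k j ≤ σ := le_trans (Nat.mul_le_mul_right _ hqq) (h.hkσ j)
    have h2 : q' * L₂.count j ≤ q' * k j :=
      Nat.mul_le_mul_left _ (le_trans (Nat.le_add_left _ _) (hc j))
    have h4 : 2 * (q' * k j) ≤ σ := by
      calc 2 * (q' * k j) = 2 * q' * k j := by ring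
        _ ≤ _ := h1
    omega
  have hko2 : L₂.count o = 0 := by
    have := hc o
    rw [h.hko] at this
    omega
  have key := facet_ratio (n + 1) (by omega) o i (σ - L₁.length) (ew L₁ w)
    (fun j => L₂.count j) q' (by omega) (le_of_eq (h.actcard L₁ hL1)) hio
    ((h.pos L₁ hL1 i).2 hi)
    (by
      rw [h.ewo L₁ hL1]
      exact le_trans (Nat.sub_le _ _) (h.hwo i)) hko2 hkw hks
  have e1 : σ - L₁.length - ∑ j, L₂.count j = σ - (L₁ ++ L₂).length := by
    rw [sum_count_univ, List.length_append, Nat.sub_sub]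
  have e2 : (fun j => ew L₁ w j - L₂.count j) = ew (L₁ ++ L₂) w := by
    funext j
    unfold ew
    rw [List.count_append, Nat.sub_sub]
  rw [e1, e2] at key
  set x := fc (σ - L₁.length) (ew L₁ w) i
  set y := fc (σ - (L₁ ++ L₂).length) (ew (L₁ ++ L₂) w) i
  have hN3 : 0 < 2 * (n + 1) ^ 3 := by positivity
  refine Nat.le_of_mul_le_mul_left ?_ hN3
  have k1 : 2 * (n + 1) ^ 3 * ((8 * M - 1) * x) + 2 * (n + 1) ^ 3 * x = q' * x := by
    have : 8 * M - 1 + 1 = 8 * M := by omega
    calc 2 * (n + 1) ^ 3 * ((8 * M - 1) * x) + 2 * (n + 1) ^ 3 * x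
        = 2 * (n + 1) ^ 3 * ((8 * M - 1 + 1) * x) := by ring
      _ = q' * x := by rw [this, hq']; ring
  have k2 : 2 * (n + 1) ^ 3 * (8 * M * y) = q' * y := by rw [hq']; ring
  rw [k2]
  omega

/-- Facets are large. -/
theorem RHyp.fat (h : RHyp n M D' q b o σ w k) (L : List ι) (hL : ∀ i, L.count i ≤ k i) (l : ι)
    (hlo : l ≠ o) (hl : 0 < w l) :
    Fat n b (σ - L.length) (Function.update (ew L w) l 0) := by
  have hlen := h.len L hL
  refine ⟨?_, ?_, ?_, ?_⟩
  · have : (univ.filter fun i => 0 < Function.update (ew L w) l 0 i) =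
        (univ.filter fun i => 0 < ew L w i).erase l := by
      ext i
      simp only [Finset.mem_filter, Finset.mem_univ, true_and, Finset.mem_erase]
      by_cases hil : i = l
      · subst hil
        simp
      · rw [Function.update_of_ne hil]
        simp [hil]
    rw [this, Finset.card_erase_of_mem, h.actcard L hL]
    · rfl
    · simp only [Finset.mem_filter, Finset.mem_univ, true_and]
      exact (h.pos L hL l).2 hl
  · have := h.hσb
    omega
  · intro i hi
    by_cases hil : i = l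
    · subst hil
      rw [Function.update_self] at hi
      omega
    · rw [Function.update_of_ne hil] at hi ⊢
      exact h.wid L hL i ((h.pos L hL i).1 hi)
  · have h1 := h.hτ l hlo hl
    have h2 : ∑ i, Function.update (ew L w) l 0 i = ∑ i ∈ univ.erase l, ew L w i := by
      rw [← Finset.add_sum_erase univ _ (Finset.mem_univ l), Function.update_self, Nat.zero_add]
      refine Finset.sum_congr rfl fun i hi => ?_
      rw [Function.update_of_ne (Finset.ne_of_mem_erase hi)]
    rw [h2]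
    have h3 : ∑ i ∈ univ.erase l, w i =
        ∑ i ∈ univ.erase l, ew L w i + ∑ i ∈ univ.erase l, L.count i := by
      rw [← Finset.sum_add_distrib]
      refine Finset.sum_congr rfl fun i _ => ?_
      have := h.cnt L hL i
      unfold ew
      omega
    have h4 : ∑ i ∈ univ.erase l, L.count i ≤ L.length := by
      rw [← sum_count_univ L]
      exact Finset.sum_le_sum_of_subset (Finset.erase_subset _ _)
    omega

theorem RHyp.fcb (h : RHyp n M D' q b o σ w k) (L : List ι) (hL : ∀ i, L.count i ≤ k i) (l : ι)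
    (hlo : l ≠ o) (hl : 0 < w l) : b + 1 ≤ fc (σ - L.length) (ew L w) l := by
  obtain ⟨f1, f2, f3, f4⟩ := h.fat L hL l hlo hl
  have hn := h.hn
  have hcard2 : 1 < (univ.filter fun i => 0 < Function.update (ew L w) l 0 i).card := by omega
  obtain ⟨i, hi, j, hj, hij⟩ := Finset.one_lt_card.1 hcard2
  simp only [Finset.mem_filter, Finset.mem_univ, true_and] at hi hj
  exact card_ge _ _ b i j hij (f3 i hi) (f3 j hj) f2 f4

theorem RHyp.fcle (h : RHyp n M D' q b o σ w k) (L : List ι) (hL : ∀ i, L.count i ≤ k i) (l : ι)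
    (hl : 0 < w l) :
    fc (σ - L.length) (ew L w) l * b ≤ 2 * (n + 1) ^ 2 * (Rg (σ - L.length) (ew L w)).card := by
  have hlen := h.len L hL
  have hb := h.bpos
  have hσb := h.hσb
  exact facet_le (n + 1) (by omega) _ _ l b (le_of_eq (h.actcard L hL)) (h.wid L hL l hl)
    (by omega) (by omega)

/-- `4 M * nphi n M f ≤ 4 (M - 1) f + 4 M ell ^ 2`. -/
theorem nphi_le (n M f : ℕ) :
    4 * M * nphi n M f ≤ 4 * (M - 1) * f + 4 * M * ell n M ^ 2 := by
  unfold nphi
  have h1 : M * ((M - 1) * f / M) ≤ (M - 1) * f := Nat.mul_div_le _ _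
  calc 4 * M * ((M - 1) * f / M + ell n M ^ 2)
      = 4 * (M * ((M - 1) * f / M)) + 4 * M * ell n M ^ 2 := by ring
    _ ≤ 4 * ((M - 1) * f) + 4 * M * ell n M ^ 2 := by
        have := Nat.mul_le_mul_left 4 h1
        omega
    _ = _ := by ring

theorem round_arith (n M Φ E f g b F : ℕ)
    (hb2 : 2 * (n + 1) ^ 2 * (M * (n + 1) + 2 * E + 2) ≤ b)
    (hsum : Φ * b ≤ (n + 1) * (2 * (n + 1) ^ 2 * F)) (hf : f * b ≤ 2 * (n + 1) ^ 2 * F)
    (hg : g ≤ f) (hb : 0 < b) : M * Φ + E * (f + g) + f ≤ F := by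
  refine Nat.le_of_mul_le_mul_right ?_ hb
  have b1 : E * (f + g) * b ≤ E * (2 * (2 * (n + 1) ^ 2 * F)) := by
    have h1 : (f + g) * b ≤ 2 * (2 * (n + 1) ^ 2 * F) := by
      calc (f + g) * b ≤ (f + f) * b := Nat.mul_le_mul_right _ (by omega)
        _ = 2 * (f * b) := by ring
        _ ≤ 2 * (2 * (n + 1) ^ 2 * F) := Nat.mul_le_mul_left _ hf
    calc E * (f + g) * b = E * ((f + g) * b) := by ring
      _ ≤ _ := Nat.mul_le_mul_left _ h1
  have b2 : M * Φ * b ≤ M * ((n + 1) * (2 * (n + 1) ^ 2 * F)) := by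
    calc M * Φ * b = M * (Φ * b) := by ring
      _ ≤ _ := Nat.mul_le_mul_left _ hsum
  have b3 : (2 * (n + 1) ^ 2 * (M * (n + 1) + 2 * E + 2)) * F ≤ b * F :=
    Nat.mul_le_mul_right _ hb2
  calc (M * Φ + E * (f + g) + f) * b = M * Φ * b + E * (f + g) * b + f * b := by ring
    _ ≤ M * ((n + 1) * (2 * (n + 1) ^ 2 * F)) + E * (2 * (2 * (n + 1) ^ 2 * F)) +
        2 * (n + 1) ^ 2 * F := Nat.add_le_add (Nat.add_le_add b2 b1) hf
    _ ≤ M * ((n + 1) * (2 * (n + 1) ^ 2 * F)) + E * (2 * (2 * (n + 1) ^ 2 * F)) +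
        2 * (2 * (n + 1) ^ 2 * F) := by
        refine Nat.add_le_add_left ?_ _
        rw [Nat.two_mul (2 * (n + 1) ^ 2 * F)]
        exact Nat.le_add_left _ _
    _ = (2 * (n + 1) ^ 2 * (M * (n + 1) + 2 * E + 2)) * F := by ring
    _ ≤ b * F := b3
    _ = F * b := by ring

/-- The bound for the directions which occur. -/
theorem RHyp.eph_le (h : RHyp n M D' q b o σ w k) (L : List ι) (hL : ∀ i, L.count i ≤ k i)
    (φ : ι → ℕ) (i : ι) (hio : i ≠ o) (hi : 0 < w i) (hc : 1 ≤ L.count i) :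
    4 * M * eph n M L σ w φ i ≤ (4 * M - 3) * fc (σ - L.length) (ew L w) i := by
  have hM := h.hM
  obtain ⟨L₀, L₁, h1, h2⟩ := eph_mem n M L i hc σ w φ
  subst h1
  have hr := h.ratio L₀ L₁ hL i hio hi
  have hf := h.fcb (L₀ ++ L₁) hL i hio hi
  have hb3 := h.hb3
  rw [h2]
  refine le_trans (nphi_le n M _) ?_
  set x := fc (σ - L₀.length) (ew L₀ w) i
  set y := fc (σ - (L₀ ++ L₁).length) (ew (L₀ ++ L₁) w) i
  have he : 16 * M ^ 2 * ell n M ^ 2 ≤ y := by omega
  set e := ell n M ^ 2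
  clear_value x y e
  obtain ⟨m, rfl⟩ : ∃ m, M = m + 1 := ⟨M - 1, by omega⟩
  have hr' : (8 * m + 7) * x ≤ 8 * (m + 1) * y := by
    have : 8 * (m + 1) - 1 = 8 * m + 7 := by omega
    rwa [this] at hr
  have e1 : 4 * (m + 1) - 3 = 4 * m + 1 := by omega
  have e2 : m + 1 - 1 = m := by omega
  rw [e1, e2]
  have hpos : 0 < 8 * m + 7 := by omega
  refine Nat.le_of_mul_le_mul_left ?_ hpos
  have a1 : 4 * m * ((8 * m + 7) * x) ≤ 4 * m * (8 * (m + 1) * y) := Nat.mul_le_mul_left _ hr'
  nlinarith only [hf, hb3, a1]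

end

/-- A short list of directions is good, in any order.

Write `R(k') = (σ - ∑ k', w - k')` for `k' ≤ k` and `f_i(k') = fc (R(k')) i`.
(1) For `k' ≤ k'' ≤ k` and active `i ≠ o`: `(8 M - 1) f_i(k') ≤ 8 M f_i(k'')`.  This is `facet_ratio`
at `R(k')` with `k'' - k'` and `q / 2` (or `q' = 16 M N³ ≤ q / 2`): the widths at `R(k')` are at
least `w i - w i / q ≥ w i / 2` and `σ - ∑ k' ≥ σ - N σ / q ≥ σ / 2`, and `4 N³ / q ≤ 1 / (8 M)`.
(2) At every `R(k')` the widths (active coordinates) and `σ` are at least `b`, and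
`∑_{i ≠ l} w i - σ ≥ b` for active `l ≠ o` (this difference never decreases because `k o = 0`).  So
all facets `l ≠ o` are `Fat n D'`, and `f_l ≥ b` by `card_ge` (`n ≥ 1`).
(3) `f_l * b ≤ 2 N² |Rg|` by `facet_le`, so by `hb2`
`(M (n + 1) + 2 ell (n + 1) M + 2) * f_l ≤ |Rg|` for all active `l ≠ o`.
(4) Invariant along the list (with `k' = ` the counts so far, `φ'` the current bounds): for every
active `i ≠ o` either `k' i = 0` and `φ' i = φ i`, or `φ' i = nphi n M (f_i(k°))` for some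
`k° ≤ k'`.  In both cases `4 M φ' i ≤ (4 M - 1) f_i(k')` (first case: `2 M φ i ≤ (2 M - 1) f_i(0)`;
second case: `nphi n M f ≤ (M - 1) / M f + f / (16 M²)`, so `4 M φ' i ≤ (4 M - 3) f_i(k')`), using
(1) and `hb3`.  For `i = o` or `i` inactive, `φ' i = 0`.
(5) So the conditions of `Good` hold: `φ' l + g0 n M * ell n M ≤ f_l` since
`g0 n M * ell n M = M * ell n M ^ 2 ≤ f_l / (16 M)`, and the last one by (3), with
`g0 n M ≤ f_l` and `∑ φ' ≤ (n + 1) * max f`. -/
theorem round_good (n M D' q b : ℕ) (hn : 1 ≤ n) (hM : 1 ≤ M) (hq : 32 * M * (n + 1) ^ 3 ≤ q)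
    (hb1 : D' ≤ b) (hb2 : 2 * (n + 1) ^ 2 * (M * (n + 1) + 2 * ell (n + 1) M + 2) ≤ b)
    (hb3 : 16 * M ^ 2 * ell n M ^ 2 ≤ b)
    (o : ι) (σ : ℕ) (w k : ι → ℕ)
    (hcard : (univ.filter fun i => 0 < w i).card = n + 2) (ho : 0 < w o)
    (hwo : ∀ i, w i ≤ w o) (hk : ∀ i, q * k i ≤ w i) (hkσ : ∀ i, q * k i ≤ σ) (hko : k o = 0)
    (hwb : ∀ i, 0 < w i → 2 * b ≤ w i) (hσb : 2 * b ≤ σ)
    (hτ : ∀ l, l ≠ o → 0 < w l → σ + b ≤ ∑ i ∈ univ.erase l, w i)
    (φ : ι → ℕ) (hφ : ∀ i, i ≠ o → 0 < w i → 2 * M * φ i ≤ (2 * M - 1) * fc σ w i)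
    (hφ0 : ∀ i, i = o ∨ w i = 0 → φ i = 0)
    (L : List ι) (hL : ∀ i, L.count i ≤ k i) :
    Good n M (Fat n D') L σ w φ ∧
    (∀ i, i ≠ o → 0 < w i → 1 ≤ L.count i →
      4 * M * eph n M L σ w φ i ≤ (4 * M - 3) * fc (σ - L.length) (ew L w) i) ∧
    (∀ i, L.count i = 0 → eph n M L σ w φ i = φ i) ∧
    (∀ i, i ≠ o → 0 < w i →
      (8 * M - 1) * fc σ w i ≤ 8 * M * fc (σ - L.length) (ew L w) i) := by
  have h : RHyp n M D' q b o σ w k :=
    ⟨hn, hM, hq, hb1, hb2, hb3, hcard, ho, hwo, hk, hkσ, hko, hwb, hσb, hτ⟩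
  refine ⟨?_, fun i hio hi hc => h.eph_le L hL φ i hio hi hc,
    fun i hi => eph_not_mem n M L i hi σ w φ, fun i hio hi => ?_⟩
  swap
  · have := h.ratio [] L hL i hio hi
    rwa [ew_nil] at this
  -- goodness, by induction on the end of the list
  induction L using List.reverseRecOn with
  | nil => exact trivial
  | append_singleton L l ih =>
    have hL' : ∀ i, L.count i ≤ k i := fun i => by
      have := hL i
      rw [List.count_append] at this
      omega
    have hl1 : 1 ≤ k l := by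
      have := hL l
      rw [List.count_append, List.count_singleton_self] at this
      omega
    obtain ⟨hlo, hl⟩ := h.act_of_k hl1
    rw [Good.append]
    refine ⟨ih hL', ?_⟩
    have hlen := h.len L hL'
    have hb := h.bpos
    obtain ⟨f1, f2, f3, f4⟩ := h.fat L hL' l hlo hl
    have hfl := h.fcb L hL' l hlo hl
    -- all current bounds
    have hall : ∀ i, i ≠ o → 0 < w i →
        4 * M * eph n M L σ w φ i ≤ (4 * M - 1) * fc (σ - L.length) (ew L w) i := by
      intro i hio hi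
      by_cases hc : 1 ≤ L.count i
      · refine le_trans (h.eph_le L hL' φ i hio hi hc) (Nat.mul_le_mul_right _ (by omega))
      · have hc0 : L.count i = 0 := by omega
        rw [eph_not_mem n M L i hc0]
        have h1 := hφ i hio hi
        have h2 := h.ratio [] L (by simpa using hL') i hio hi
        rw [ew_nil] at h2
        simp only [List.nil_append, List.length_nil, Nat.sub_zero] at h2
        set x := fc σ w i
        set y := fc (σ - L.length) (ew L w) i
        set z := φ i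
        clear_value x y z
        obtain ⟨m, rfl⟩ : ∃ m, M = m + 1 := ⟨M - 1, by omega⟩
        have e1 : 8 * (m + 1) - 1 = 8 * m + 7 := by omega
        have e2 : 4 * (m + 1) - 1 = 4 * m + 3 := by omega
        have e3 : 2 * (m + 1) - 1 = 2 * m + 1 := by omega
        rw [e1] at h2
        rw [e3] at h1
        rw [e2]
        have hpos : 0 < 8 * m + 7 := by omega
        refine Nat.le_of_mul_le_mul_left ?_ hpos
        have a1 : (8 * m + 7) * (2 * (m + 1) * z) ≤ (8 * m + 7) * ((2 * m + 1) * x) :=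
          Nat.mul_le_mul_left _ h1
        have a2 : (2 * m + 1) * ((8 * m + 7) * x) ≤ (2 * m + 1) * (8 * (m + 1) * y) :=
          Nat.mul_le_mul_left _ h2
        nlinarith only [a1, a2]
    have hzero : ∀ i, (i = o ∨ w i = 0) → eph n M L σ w φ i = 0 := by
      intro i hi
      have hc0 : L.count i = 0 := by
        by_contra hne
        have hk1 : 1 ≤ k i := le_trans (Nat.one_le_iff_ne_zero.2 hne) (hL' i)
        obtain ⟨a1, a2⟩ := h.act_of_k hk1
        rcases hi with hi | hi
        · exact a1 hi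
        · omega
      rw [eph_not_mem n M L i hc0]
      exact hφ0 i hi
    refine ⟨?_, ?_, ?_, ?_, ?_, trivial⟩
    · omega
    · exact (h.pos L hL' l).2 hl
    · exact ⟨f1, le_trans hb1 f2, fun i hi => le_trans hb1 (f3 i hi), by omega⟩
    · have h1 := hall l hlo hl
      unfold g0
      set x := eph n M L σ w φ l
      set y := fc (σ - L.length) (ew L w) l
      set e := ell n M
      have he : 16 * M ^ 2 * e ^ 2 ≤ y := by omega
      clear_value x y e
      obtain ⟨m, rfl⟩ : ∃ m, M = m + 1 := ⟨M - 1, by omega⟩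
      have e2 : 4 * (m + 1) - 1 = 4 * m + 3 := by omega
      rw [e2] at h1
      have hpos : 0 < 4 * (m + 1) := by omega
      refine Nat.le_of_mul_le_mul_left ?_ hpos
      nlinarith only [hb, hfl, hb3, h1]
    · set F := (Rg (σ - L.length) (ew L w)).card with hF
      have hfb : ∀ i, 0 < w i → fc (σ - L.length) (ew L w) i * b ≤ 2 * (n + 1) ^ 2 * F :=
        fun i hi =>
        h.fcle L hL' i hi
      have hφb : ∀ i, i ≠ o → 0 < w i → eph n M L σ w φ i * b ≤ 2 * (n + 1) ^ 2 * F := by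
        intro i hio hi
        refine le_trans (Nat.mul_le_mul_right _ ?_) (hfb i hi)
        have h1 := hall i hio hi
        have h2 : (4 * M - 1) * fc (σ - L.length) (ew L w) i ≤
            4 * M * fc (σ - L.length) (ew L w) i := Nat.mul_le_mul_right _ (by omega)
        exact Nat.le_of_mul_le_mul_left (le_trans h1 h2) (by omega)
      have hsum : (∑ i, eph n M L σ w φ i) * b ≤ (n + 1) * (2 * (n + 1) ^ 2 * F) := by
        set S : Finset ι := (univ.filter fun i => 0 < w i).erase o with hS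
        have hScard : S.card = n + 1 := by
          rw [hS, Finset.card_erase_of_mem (by simp [h.ho]), h.hcard]
          rfl
        have h1 : ∑ i, eph n M L σ w φ i = ∑ i ∈ S, eph n M L σ w φ i := by
          symm
          refine Finset.sum_subset (Finset.subset_univ _) fun i _ hi => ?_
          refine hzero i ?_
          by_contra hne
          push Not at hne
          exact hi (Finset.mem_erase.2 ⟨hne.1, by
            simp only [Finset.mem_filter, Finset.mem_univ, true_and]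
            exact Nat.pos_of_ne_zero hne.2⟩)
        rw [h1, Finset.sum_mul]
        calc ∑ i ∈ S, eph n M L σ w φ i * b ≤ ∑ _i ∈ S, 2 * (n + 1) ^ 2 * F := by
              refine Finset.sum_le_sum fun i hi => ?_
              rw [hS, Finset.mem_erase, Finset.mem_filter] at hi
              exact hφb i hi.1 hi.2.2
          _ = (n + 1) * (2 * (n + 1) ^ 2 * F) := by
              rw [Finset.sum_const, smul_eq_mul, hScard]
      have hg0 : g0 n M ≤ fc (σ - L.length) (ew L w) l := by
        unfold g0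
        have e1 : M * ell n M ≤ 16 * M ^ 2 * ell n M ^ 2 := by
          have a1 : M ≤ M ^ 2 := Nat.le_self_pow (by norm_num) _
          have a2 : ell n M ≤ ell n M ^ 2 := Nat.le_self_pow (by norm_num) _
          have a3 : M * ell n M ≤ M ^ 2 * ell n M ^ 2 := Nat.mul_le_mul a1 a2
          calc M * ell n M ≤ M ^ 2 * ell n M ^ 2 := a3
            _ ≤ 16 * (M ^ 2 * ell n M ^ 2) := by omega
            _ = _ := by ring
        omega
      exact round_arith n M _ _ _ _ b F hb2 hsum (hfb l hl) hg0 (by omega)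

end Pool.Agent.H18.Ex

end
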