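import Pool.Agent.H94.LP1.M07
import Pool.Agent.H94.LP1.M10

/-! The parts of this file: H18.Cub.MainS, H18.Cub.Inst_1, H18.Pr.NumReg, H18.Pr.NumTau, H18.Pr.NumTau2, H18.Pr.NumRM. -/

section

/-!
# Module MainS: the bridging argument (abstract version)
-/

namespace Pool.Agent.H18.Cub

open Finset Pool.Agent.H18.Ex

variable {Λ : Type} [Fintype Λ] [DecidableEq Λ]

/-- The state after `j` peels in direction `l`. -/
def stt (a : Λ → ℕ) (l : Λ) (j : ℕ) : Λ → ℕ := Function.update a l (a l - j)

omit [Fintype Λ] in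
theorem stt_zero (a : Λ → ℕ) (l : Λ) : stt a l 0 = a := by
  unfold stt
  rw [Nat.sub_zero, Function.update_eq_self]

omit [Fintype Λ] in
theorem dn_stt (a : Λ → ℕ) (l : Λ) (j : ℕ) : dn l (stt a l j) = stt a l (j + 1) := by
  unfold dn stt
  rw [Function.update_idem, Function.update_self, Nat.sub_sub]

private theorem tr_eq_zero {c : Cfg Λ} {l : Λ} (h : c.Φ l = 0) : c.tr 1 l = 0 := by
  unfold Cfg.tr
  rw [h]
  simp

end Pool.Agent.H18.Cub

end

section

/-!
# Module Inst: the Horace system of the curve `y = x^(t+1)`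

Directions: `none` is the curve, `some l` (`l : Fin t`) is the line through the big point `inl l`
and the point at infinity of the curve.  There are `t + s` big points.  The state `a` stands for
degree `dd a` and multiplicities `mu n a`.
-/

namespace Pool.Agent.H18.Cub

open Finset Pool.Agent.H18.Ex

theorem dd_dn_none {t : ℕ} (a : Option (Fin t) → ℕ) (h : 1 ≤ a none) :
    dd (dn none a) = dd a - (t + 1) := by
  unfold dd
  rw [dn_self]
  have h1 : ∑ l, dn none a (some l) = ∑ l, a (some l) :=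
    sum_congr rfl fun l _ => dn_ne (by simp) a
  rw [h1]
  obtain ⟨k, hk⟩ := Nat.exists_eq_add_of_le h
  rw [hk, Nat.add_sub_cancel_left, mul_add, mul_one]
  omega

theorem dd_dn_some {t : ℕ} (a : Option (Fin t) → ℕ) (l : Fin t) (h : 1 ≤ a (some l)) :
    dd (dn (some l) a) = dd a - 1 := by
  unfold dd
  rw [dn_ne (by simp : (none : Option (Fin t)) ≠ some l)]
  have h1 : ∑ l', dn (some l) a (some l') + 1 = ∑ l', a (some l') := by
    rw [← add_sum_erase univ _ (mem_univ l), ← add_sum_erase univ (fun l' => a (some l'))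
      (mem_univ l), dn_self]
    have h2 : ∑ i ∈ univ.erase l, dn (some l) a (some i) = ∑ i ∈ univ.erase l, a (some i) :=
      sum_congr rfl fun i hi => dn_ne (by
        intro h3
        exact ne_of_mem_erase hi (Option.some_injective _ h3)) a
    rw [h2]
    omega
  omega

theorem mu_dn_none {t s : ℕ} (n : Fin t ⊕ Fin s → ℕ) (a : Option (Fin t) → ℕ)
    (h : 1 ≤ a none) : mu n (dn none a) = fun b => mu n a b - 1 := by
  funext b
  unfold mu
  have h1 : uu (s := s) (dn none a) b = uu a b - 1 := by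
    rcases b with l | j
    · simp only [uu]
      rw [dn_self, dn_ne (by simp : (some l : Option (Fin t)) ≠ none)]
      omega
    · simp only [uu]
      rw [dn_self]
  rw [h1]
  omega

theorem mu_dn_some {t s : ℕ} (n : Fin t ⊕ Fin s → ℕ) (a : Option (Fin t) → ℕ) (l : Fin t)
    (h : 1 ≤ a (some l)) :
    mu n (dn (some l) a) = Function.update (mu n a) (.inl l) (mu n a (.inl l) - 1) := by
  funext b
  by_cases hb : b = .inl l
  · subst hb
    rw [Function.update_self]
    unfold mu
    simp only [uu]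
    rw [dn_self, dn_ne (by simp : (none : Option (Fin t)) ≠ some l)]
    omega
  · rw [Function.update_of_ne hb]
    unfold mu
    congr 1
    rcases b with l' | j
    · simp only [uu]
      rw [dn_ne (by simp : (none : Option (Fin t)) ≠ some l), dn_ne]
      intro h1
      apply hb
      rw [Option.some_injective _ h1]
    · simp only [uu]
      rw [dn_ne (by simp : (none : Option (Fin t)) ≠ some l)]

end Pool.Agent.H18.Cub

end

section

/-!
# Module NumReg (PR): margins of states
-/

namespace Pool.Agent.H18.Pr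

open Finset Pool.Agent.H18.Ex Pool.Agent.H18.Cub

variable {R t s : ℕ}

/-- The sum of the multiplicities: `mu = uu - n` (truncated), `∑ uu = (t + s) a_none + ∑ a_l`. -/
theorem sum_mu_eq (n : Fin t ⊕ Fin s → ℕ) (a : Option (Fin t) → ℕ) :
    ∑ b, mu n a b + ∑ b, min (n b) (uu (s := s) a b) = (t + s) * a none + ∑ l, a (some l) := by
  have h1 : ∑ b, mu n a b + ∑ b, min (n b) (uu a b) = ∑ b : Fin t ⊕ Fin s, uu a b := by
    rw [← Finset.sum_add_distrib]
    refine Finset.sum_congr rfl fun b _ => ?_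
    simp only [mu]
    omega
  rw [h1, Fintype.sum_sum_type]
  simp only [uu, Finset.sum_add_distrib, Finset.sum_const, Finset.card_univ, Fintype.card_fin,
    smul_eq_mul]
  ring

/-- The margin of the curve: `(t + 1)^R dd a - ∑ mu = ((t + 1)^R - 1) ∑ a_l + ∑ min (n b) (uu b)`. -/
theorem curve_eq (hts : t + s = (t + 1) ^ (R + 1)) (n : Fin t ⊕ Fin s → ℕ)
    (a : Option (Fin t) → ℕ) :
    ∑ b, mu n a b + (((t + 1) ^ R - 1) * ∑ l, a (some l) + ∑ b, min (n b) (uu (s := s) a b)) =
      (t + 1) ^ R * dd a := by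
  have h := sum_mu_eq n a
  have hp : 1 ≤ (t + 1) ^ R := Nat.one_le_pow _ _ (by omega)
  obtain ⟨k, hk⟩ := Nat.exists_eq_add_of_le hp
  have e1 : (t + 1) ^ R * dd a = (t + s) * a none + (1 + k) * ∑ l, a (some l) := by
    rw [hts, dd, pow_succ, ← hk]
    ring
  have e2 : (t + 1) ^ R - 1 = k := by omega
  have e3 : (1 + k) * ∑ l, a (some l) = ∑ l, a (some l) + k * ∑ l, a (some l) := by ring
  rw [e1, e2, e3]
  omega

theorem NumReg_uu_mono {a b : Option (Fin t) → ℕ} (h : ∀ i, a i ≤ b i) (x : Fin t ⊕ Fin s) :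
    uu a x ≤ uu b x := by
  rcases x with l | x
  · have h1 := h none
    have h2 := h (some l)
    simp only [uu]
    omega
  · exact h none

theorem mu_mono {n : Fin t ⊕ Fin s → ℕ} {a b : Option (Fin t) → ℕ} (h : ∀ i, a i ≤ b i)
    (x : Fin t ⊕ Fin s) : mu n a x ≤ mu n b x := by
  have h1 : uu a x ≤ uu b x := NumReg_uu_mono h x
  simp only [mu]
  omega

/-- Sums of terms which are at least `min (x k) c`. -/
theorem NumReg_sum {κ : Type} (K : Finset κ) (x y : κ → ℕ) (c : ℕ)
    (h : ∀ k ∈ K, min (x k) c ≤ y k) : min (∑ k ∈ K, x k) c ≤ ∑ k ∈ K, y k := by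
  classical
  induction K using Finset.induction_on with
  | empty => simp
  | insert k K hk ih =>
    have h1 := ih fun j hj => h j (Finset.mem_insert_of_mem hj)
    have h2 := h k (Finset.mem_insert_self k K)
    rw [Finset.sum_insert hk, Finset.sum_insert hk]
    omega

theorem NumReg_mul (k x y c : ℕ) (h : min x c ≤ y) : min (k * x) c ≤ k * y := by
  rcases Nat.eq_zero_or_pos k with rfl | hk
  · simp
  · rcases min_le_iff.1 h with h1 | h1
    · exact (min_le_left _ _).trans (Nat.mul_le_mul_left _ h1)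
    · exact (min_le_right _ _).trans (h1.trans (Nat.le_mul_of_pos_left _ hk))

theorem NumReg_uu {N a : Option (Fin t) → ℕ} {c : ℕ} (ha : ∀ i, min (N i) c ≤ a i)
    (b : Fin t ⊕ Fin s) : min (uu N b) c ≤ uu a b := by
  rcases b with l | b
  · have h3 := ha none
    have h4 := ha (some l)
    simp only [uu]
    omega
  · exact ha none

/-- The fields `curve`, `line` and `deg` in the region. -/
theorem NumReg_core (hts : t + s = (t + 1) ^ (R + 1))
    {n : Fin t ⊕ Fin s → ℕ} {N a : Option (Fin t) → ℕ} {D Ta : ℕ} (h : Mg R D n N)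
    (hTa : Ta ≤ D) (ha : ∀ i, min (N i) Ta ≤ a i) (ha' : ∀ i, a i ≤ N i)
    (hs : R * t - 2 ≤ ∑ l, a (some l)) : Mg R Ta n a := by
  have hA : min (∑ l, N (some l)) Ta ≤ ∑ l, a (some l) :=
    NumReg_sum _ _ _ _ fun l _ => ha (some l)
  have hdeg : Ta ≤ dd a := by
    have h1 := NumReg_mul (t + 1) _ _ _ (ha none)
    have h2 := h.deg
    simp only [dd] at h2 ⊢
    omega
  refine ⟨hs, ?_, fun l => ?_, hdeg⟩
  · have h1 := NumReg_mul ((t + 1) ^ R - 1) _ _ _ hA
    have h2 : min (∑ b, min (n b) (uu N b)) Ta ≤ ∑ b, min (n b) (uu a b) := by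
      refine NumReg_sum _ _ _ _ fun b _ => ?_
      have h3 : min (uu N b) Ta ≤ uu a b := NumReg_uu ha b
      omega
    have h3 := curve_eq hts n N
    have h4 := curve_eq hts n a
    have h5 := h.curve
    omega
  · rcases Nat.eq_zero_or_pos (mu n a (.inl l)) with h0 | h0
    · rw [h0, zero_add]
      exact hdeg
    · have h1 : mu n a (.inl l) ≤ mu n N (.inl l) := mu_mono ha' _
      have h2 := h.line l
      have h3 : min (∑ l' ∈ univ.erase l, N (some l')) Ta ≤ ∑ l' ∈ univ.erase l, a (some l') :=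
        NumReg_sum _ _ _ _ fun l' _ => ha (some l')
      have h4 := NumReg_mul t _ _ _ (ha none)
      have e1 : ∑ l', a (some l') = a (some l) + ∑ l' ∈ univ.erase l, a (some l') :=
        (Finset.add_sum_erase _ (fun l' => a (some l')) (Finset.mem_univ l)).symm
      have e2 : ∑ l', N (some l') = N (some l) + ∑ l' ∈ univ.erase l, N (some l') :=
        (Finset.add_sum_erase _ (fun l' => N (some l')) (Finset.mem_univ l)).symm
      have e3 : (t + 1) * a none = t * a none + a none := by ring
      have e4 : (t + 1) * N none = t * N none + N none := by ring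
      simp only [dd, mu, uu] at h0 h1 h2 ⊢
      omega

/-- The margins in the region `Reg N Ta`.

For the field `curve` use `curve_eq`: if some `a_l ≥ Ta` it is clear (`1 ≤ R`, `1 ≤ t`);
otherwise `a_l = N_l` for all `l`, and either `a none = N none`, or `a none ≥ Ta`, and then some
`n b ≥ Ta`, or all the minima are the same for `a` and for `N`.  The other fields are similar; if
`mu n a (inl l) > 0` then
`dd a - mu n a (inl l) = t * a none + ∑_{l' ≠ l} a_{l'} + n (inl l)`. -/
theorem Mg.reg (ht : 1 ≤ t) (hR : 1 ≤ R) (hts : t + s = (t + 1) ^ (R + 1))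
    {n : Fin t ⊕ Fin s → ℕ} {N a : Option (Fin t) → ℕ} {D Ta : ℕ} (h : Mg R D n N)
    (hTa : Ta ≤ D) (hTa' : R * t ≤ Ta) (ha : Reg N Ta a) : Mg R Ta n a := by
  have hA : min (∑ l, N (some l)) Ta ≤ ∑ l, a (some l) :=
    NumReg_sum _ _ _ _ fun l _ => (ha (some l)).1
  have hs := h.slack
  exact NumReg_core hts h hTa (fun i => (ha i).1) (fun i => (ha i).2) (by omega)

theorem Mg.le {n : Fin t ⊕ Fin s → ℕ} {N : Option (Fin t) → ℕ} {D D' : ℕ} (h : Mg R D n N)
    (hD : D' ≤ D) : Mg R D' n N := by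
  obtain ⟨h1, h2, h3, h4⟩ := h
  exact ⟨h1, by omega, fun l => by have := h3 l; omega, by omega⟩

/-- Lowering the coefficient of the curve to a positive number. -/
theorem Mg.none (ht : 1 ≤ t) (hR : 1 ≤ R) (hts : t + s = (t + 1) ^ (R + 1))
    {n : Fin t ⊕ Fin s → ℕ} {N : Option (Fin t) → ℕ} (h : Mg R 1 n N) (c : ℕ) (hc : 1 ≤ c)
    (hc' : c ≤ N none) : Mg R 1 n (Function.update N none c) := by
  have e : ∀ l : Fin t, Function.update N Option.none c (some l) = N (some l) := fun l =>
    Function.update_of_ne (by simp) _ _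
  refine NumReg_core hts h le_rfl (fun i => ?_) (fun i => ?_) ?_
  · rcases i with _ | l
    · rw [Function.update_self]
      omega
    · rw [e]
      omega
  · rcases i with _ | l
    · rw [Function.update_self]
      exact hc'
    · rw [e]
  · simp only [e]
    exact h.slack

end Pool.Agent.H18.Pr

end

section

/-!
# Module NumTau (PR): the numbers `tau`
-/

namespace Pool.Agent.H18.Pr

open Finset Pool.Agent.H18.Ex Pool.Agent.H18.Cub

theorem tau_zero_right (e A n : ℕ) (he : 1 ≤ e) : tau e A n 0 = 1 := by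
  induction A with
  | zero => simp [tau]
  | succ A ih =>
    rw [tau, Finset.sum_eq_single 0]
    · rw [if_pos le_rfl]
      exact ih
    · intro b _ hb
      rw [if_neg]
      omega
    · intro h
      exact absurd (mem_range.2 (by omega)) h

theorem tau_zero_aux (e A n : ℕ) : tau e A (n + 1) 0 = tau e A n 0 := by
  rcases Nat.eq_zero_or_pos e with rfl | he
  · cases A with
    | zero => simp [tau]
    | succ A => simp [tau]
  · rw [tau_zero_right e A _ he, tau_zero_right e A _ he]

theorem tau_succ (e A n d : ℕ) :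
    tau e A (n + 1) (d + 1) = tau e A (n + 1) d + tau e A n (d + 1) := by
  induction A generalizing d with
  | zero =>
    simp only [tau]
    have h := Nat.choose_succ_succ (d + n + 1) n
    have h1 : d + 1 + (n + 1) = d + n + 1 + 1 := by ring
    have h2 : d + (n + 1) = d + n + 1 := by ring
    have h3 : d + 1 + n = d + n + 1 := by ring
    rw [h1, h2, h3, h, Nat.succ_eq_add_one]
    ring
  | succ A ih =>
    rw [tau, tau, tau, ← Finset.sum_add_distrib]
    refine Finset.sum_congr rfl fun δ _ => ?_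
    rcases Nat.lt_trichotomy δ (d + 1) with h | h | h
    · rw [if_pos h.le, if_pos (by omega), if_pos h.le]
      have h1 : d + 1 - δ = (d - δ) + 1 := by omega
      rw [h1]
      exact ih _
    · rw [if_pos h.le, if_neg (by omega), if_pos h.le, zero_add, h, Nat.sub_self]
      exact tau_zero_aux e A n
    · rw [if_neg (by omega), if_neg (by omega), if_neg (by omega)]

theorem tau_mono (e A n : ℕ) {d d' : ℕ} (h : d ≤ d') : tau e A n d ≤ tau e A n d' := by
  induction A generalizing d d' with
  | zero =>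
    simp only [tau]
    exact Nat.choose_le_choose _ (by omega)
  | succ A ih =>
    rw [tau, tau]
    refine Finset.sum_le_sum fun δ _ => ?_
    by_cases h1 : δ ≤ d
    · rw [if_pos h1, if_pos (h1.trans h)]
      exact ih (by omega)
    · rw [if_neg h1]
      exact Nat.zero_le _

theorem tau_tele (e A n d k : ℕ) (hk : k ≤ d) :
    tau e A (n + 1) d = tau e A (n + 1) (d - k) + ∑ δ ∈ range k, tau e A n (d - δ) := by
  induction k with
  | zero => simp
  | succ k ih =>
    rw [ih (by omega), Finset.sum_range_succ]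
    have h1 : d - k = (d - (k + 1)) + 1 := by omega
    rw [h1, tau_succ]
    ring

/-- The second recursion. -/
theorem tau_eq (e A n d : ℕ) (he : 1 ≤ e) (hd : e ≤ d) :
    tau e A (n + 1) d = tau e A (n + 1) (d - e) + tau e (A + 1) n d := by
  rw [tau_tele e A n d e hd]
  congr 1
  rw [tau]
  refine Finset.sum_congr rfl fun δ hδ => ?_
  rw [if_pos]
  have := mem_range.1 hδ
  omega

theorem choose_le_tau (e A n d : ℕ) (he : 1 ≤ e) : (d + n).choose n ≤ tau e A n d := by
  induction A with
  | zero => simp [tau]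
  | succ A ih =>
    rw [tau]
    refine ih.trans ?_
    have h1 := Finset.single_le_sum (f := fun δ => if δ ≤ d then tau e A n (d - δ) else 0)
      (fun _ _ => Nat.zero_le _) (mem_range.2 (show 0 < e by omega))
    simpa using h1

theorem tau_pos (e A n d : ℕ) (he : 1 ≤ e) : 1 ≤ tau e A n d := by
  exact (Nat.choose_pos (Nat.le_add_left _ _)).trans_le (choose_le_tau e A n d he)

theorem tau_le (e A n d : ℕ) : tau e A n d ≤ e ^ A * (d + n).choose n := by
  induction A generalizing d with
  | zero => simp [tau]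
  | succ A ih =>
    rw [tau]
    calc ∑ δ ∈ range e, (if δ ≤ d then tau e A n (d - δ) else 0)
        ≤ ∑ δ ∈ range e, e ^ A * (d + n).choose n := by
          refine Finset.sum_le_sum fun δ _ => ?_
          by_cases h1 : δ ≤ d
          · rw [if_pos h1]
            refine (ih _).trans (Nat.mul_le_mul_left _ ?_)
            exact Nat.choose_le_choose _ (by omega)
          · rw [if_neg h1]
            exact Nat.zero_le _
      _ = e ^ (A + 1) * (d + n).choose n := by
          rw [Finset.sum_const, card_range, smul_eq_mul, pow_succ]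
          ring

theorem tau_one_lower (e A d : ℕ) (he : 1 ≤ e) :
    2 * (e ^ A * (d + 1)) ≤ 2 * tau e A 1 d + A * (e - 1) * e ^ A := by
  have key : ∀ d : ℕ, (2 : ℤ) * ((e : ℤ) ^ A * ((d : ℤ) + 1)) ≤
      2 * (tau e A 1 d : ℤ) + A * ((e : ℤ) - 1) * (e : ℤ) ^ A := by
    induction A with
    | zero =>
      intro d
      simp [tau]
    | succ A ih =>
      intro d
      rw [tau]
      push_cast
      have h1 : ∀ δ ∈ range e, 2 * ((e : ℤ) ^ A * ((d : ℤ) + 1 - δ)) -
          A * ((e : ℤ) - 1) * (e : ℤ) ^ A ≤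
          2 * (if δ ≤ d then (tau e A 1 (d - δ) : ℤ) else 0) := by
        intro δ hδ
        by_cases h2 : δ ≤ d
        · rw [if_pos h2]
          have h3 := ih (d - δ)
          push_cast [Nat.cast_sub h2] at h3
          linarith
        · rw [if_neg h2]
          have h3 : (d : ℤ) + 1 - δ ≤ 0 := by
            have : d + 1 ≤ δ := by omega
            have h4 : ((d + 1 : ℕ) : ℤ) ≤ (δ : ℤ) := by exact_mod_cast this
            push_cast at h4
            linarith
          have h4 : (0 : ℤ) ≤ (e : ℤ) ^ A := by positivity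
          have h5 : (e : ℤ) ^ A * ((d : ℤ) + 1 - δ) ≤ 0 := mul_nonpos_of_nonneg_of_nonpos h4 h3
          have h6 : (0 : ℤ) ≤ A * ((e : ℤ) - 1) * (e : ℤ) ^ A := by
            have h7 : (0 : ℤ) ≤ (e : ℤ) - 1 := by
              have : (1 : ℤ) ≤ (e : ℤ) := by exact_mod_cast he
              linarith
            positivity
          linarith
      have h2 := Finset.sum_le_sum h1
      rw [← Finset.mul_sum] at h2
      have h3 : ∑ δ ∈ range e, (2 * ((e : ℤ) ^ A * ((d : ℤ) + 1 - δ)) -
          A * ((e : ℤ) - 1) * (e : ℤ) ^ A) =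
          2 * ((e : ℤ) ^ (A + 1) * ((d : ℤ) + 1)) - (A + 1) * ((e : ℤ) - 1) * (e : ℤ) ^ (A + 1) := by
        have h4 : ∀ m : ℕ, ∑ δ ∈ range m, (2 * ((e : ℤ) ^ A * ((d : ℤ) + 1 - δ)) -
            A * ((e : ℤ) - 1) * (e : ℤ) ^ A) =
            2 * ((e : ℤ) ^ A * m * ((d : ℤ) + 1)) - (e : ℤ) ^ A * (m * ((m : ℤ) - 1)) -
              m * (A * ((e : ℤ) - 1) * (e : ℤ) ^ A) := by
          intro m
          induction m with
          | zero => simp
          | succ m ihm =>
            rw [Finset.sum_range_succ, ihm]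
            push_cast
            ring
        rw [h4, pow_succ]
        ring
      rw [h3] at h2
      linarith
  have h := key d
  zify [he]
  exact h

/-- For large `d` all digits are allowed. -/
theorem tau_zero_eq (e A d : ℕ) (h : A * (e - 1) ≤ d) : tau e A 0 d = e ^ A := by
  induction A generalizing d with
  | zero => simp [tau]
  | succ A ih =>
    rw [tau]
    have h1 : ∀ δ ∈ range e, (if δ ≤ d then tau e A 0 (d - δ) else 0) = e ^ A := by
      intro δ hδ
      rw [mem_range] at hδ
      have h2 : (A + 1) * (e - 1) = A * (e - 1) + (e - 1) := by ring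
      rw [h2] at h
      rw [if_pos (by omega)]
      exact ih _ (by omega)
    rw [Finset.sum_congr rfl h1, Finset.sum_const, card_range, smul_eq_mul, pow_succ]
    ring

theorem tau_drop (e A n : ℕ) {d d' : ℕ} (h : d' ≤ d) :
    tau e A (n + 1) d ≤ tau e A (n + 1) d' + (d - d') * tau e A n d := by
  rw [tau_tele e A n d (d - d') (by omega)]
  have h1 : d - (d - d') = d' := by omega
  rw [h1]
  refine Nat.add_le_add_left ?_ _
  calc ∑ δ ∈ range (d - d'), tau e A n (d - δ) ≤ ∑ δ ∈ range (d - d'), tau e A n d :=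
        Finset.sum_le_sum fun δ _ => tau_mono e A n (Nat.sub_le _ _)
    _ = (d - d') * tau e A n d := by rw [Finset.sum_const, card_range, smul_eq_mul]

end Pool.Agent.H18.Pr

end

section

/-!
# Module NumTau2 (PR): comparison of the numbers `tau`
-/

namespace Pool.Agent.H18.Pr

open Finset Pool.Agent.H18.Ex Pool.Agent.H18.Cub

theorem tau_rise (e A n c s : ℕ) :
    tau e A (n + 1) c + s * tau e A n c ≤ tau e A (n + 1) (c + s) := by
  induction s with
  | zero => simp
  | succ s ih =>
    have h1 := tau_succ e A n (c + s)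
    have h2 : tau e A n c ≤ tau e A n (c + s + 1) := tau_mono e A n (by omega)
    have h3 : (s + 1) * tau e A n c = s * tau e A n c + tau e A n c := by ring
    rw [← Nat.add_assoc, h1, h3]
    omega

theorem ell_le_tau (e A j m : ℕ) (he : 1 ≤ e) : ell (j + 1) m ≤ tau e A (j + 1) m := by
  refine le_trans ?_ (choose_le_tau e A (j + 1) m he)
  unfold ell
  exact Nat.choose_le_choose _ (by omega)

theorem tau_slow_of_half (e A j : ℕ) (he : 1 ≤ e)
    (hH : ∃ C, 1 ≤ C ∧ ∀ s d, C * s ≤ d → tau e A j d ≤ 2 * tau e A j (d - s)) :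
    ∃ C, 1 ≤ C ∧ ∀ T d m, 1 ≤ T → m + C * T ≤ d →
      T * tau e A j d + ell (j + 1) m ≤ tau e A (j + 1) d := by
  obtain ⟨C, hC, hH⟩ := hH
  refine ⟨2 * C, by omega, fun T d m hT h => ?_⟩
  have h1 : C * (2 * T) ≤ d := by
    have : C * (2 * T) = 2 * C * T := by ring
    omega
  have h2 : 2 * T ≤ C * (2 * T) := Nat.le_mul_of_pos_left _ (by omega)
  have h2' : C * (2 * T) = 2 * C * T := by ring
  have h3 := hH (2 * T) d h1
  have h4 := tau_rise e A j (d - 2 * T) (2 * T)
  have h5 : d - 2 * T + 2 * T = d := by omega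
  rw [h5] at h4
  have h6 : tau e A (j + 1) m ≤ tau e A (j + 1) (d - 2 * T) := tau_mono e A (j + 1) (by omega)
  have h7 := ell_le_tau e A j m he
  have h8 : T * tau e A j d ≤ T * (2 * tau e A j (d - 2 * T)) := Nat.mul_le_mul_left _ h3
  have h9 : T * (2 * tau e A j (d - 2 * T)) = 2 * T * tau e A j (d - 2 * T) := by ring
  omega

theorem tau_half (e A j : ℕ) (he : 1 ≤ e) :
    ∃ C, 1 ≤ C ∧ ∀ s d, C * s ≤ d → tau e A j d ≤ 2 * tau e A j (d - s) := by
  induction j with
  | zero =>
    refine ⟨A * (e - 1) + 1, by omega, fun s d h => ?_⟩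
    rcases Nat.eq_zero_or_pos s with hs | hs
    · subst hs
      simp only [Nat.sub_zero]
      omega
    · have h1 : (A * (e - 1) + 1) * s = A * (e - 1) * s + s := by ring
      have h2 : A * (e - 1) ≤ A * (e - 1) * s := Nat.le_mul_of_pos_right _ hs
      rw [tau_zero_eq e A d (by omega), tau_zero_eq e A (d - s) (by omega)]
      omega
  | succ j ih =>
    obtain ⟨C2, hC2, hs⟩ := tau_slow_of_half e A j he ih
    obtain ⟨C1, hC1, hH⟩ := ih
    refine ⟨C1 + 2 * C2 + 1, by omega, fun s d h => ?_⟩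
    rcases Nat.eq_zero_or_pos s with hs0 | hs0
    · subst hs0
      simp only [Nat.sub_zero]
      omega
    · have e1 : (C1 + 2 * C2 + 1) * s = C1 * s + C2 * (2 * s) + s := by ring
      have h1 := hH s d (by omega)
      have h2 := hs (2 * s) (d - s) 0 (by omega) (by omega)
      have h3 := tau_drop e A j (d := d) (d' := d - s) (by omega)
      have h4 : d - (d - s) = s := by omega
      rw [h4] at h3
      have h5 : s * tau e A j d ≤ s * (2 * tau e A j (d - s)) := Nat.mul_le_mul_left _ h1
      have h6 : s * (2 * tau e A j (d - s)) = 2 * s * tau e A j (d - s) := by ring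
      omega

/-- `tau e A (j + 1) d` is much larger than `tau e A j d`, even after subtracting a point of
multiplicity `m`, provided that `d - m` is large.  (Hint: with `s = min (d - m) (d / C')` one has
`tau e A (j + 1) d - tau e A (j + 1) (d - s) ≥ s * tau e A j (d - s)`,
`tau e A (j + 1) (d - s) ≥ tau e A (j + 1) m ≥ ell (j + 1) m`, and
`2 * tau e A j (d - s) ≥ tau e A j d`.) -/
theorem tau_slow (e A j : ℕ) (he : 1 ≤ e) : ∃ C, 1 ≤ C ∧ ∀ T d m, 1 ≤ T → m + C * T ≤ d →
    T * tau e A j d + ell (j + 1) m ≤ tau e A (j + 1) d :=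
  tau_slow_of_half e A j he (tau_half e A j he)

theorem ell_succ_le_choose (j d : ℕ) (hj : 1 ≤ j) : ell j d + 1 ≤ (d + j).choose j := by
  obtain ⟨k, rfl⟩ : ∃ k, j = k + 1 := ⟨j - 1, by omega⟩
  have h1 : (d + (k + 1)).choose (k + 1) = (d + k).choose k + (d + k).choose (k + 1) := by
    rw [← Nat.add_assoc, Nat.choose_succ_succ]
  have h2 : ell (k + 1) d = (d + k).choose (k + 1) := by
    unfold ell
    rw [show d + (k + 1) - 1 = d + k by omega]
  have h3 : 0 < (d + k).choose k := Nat.choose_pos (by omega)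
  omega

/-- A point of multiplicity at most `d`. -/
theorem ell_lt_tau (e A j d m : ℕ) (he : 1 ≤ e) (hj : 1 ≤ j) (h : m ≤ d) :
    ell j m + 1 ≤ tau e A j d := by
  have h1 := ell_mono j h
  have h2 := ell_succ_le_choose j d hj
  have h3 := choose_le_tau e A j d he
  omega

theorem ell_succ_sub (j m : ℕ) (hj : 1 ≤ j) : ell (j + 1) m = ell (j + 1) (m - 1) + ell j m := by
  rcases m with _ | c
  · rw [Nat.zero_sub, ell_zero hj, ell_zero (by omega)]
  · rw [Nat.add_sub_cancel]
    exact ell_succ j c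

theorem ell_superadd (k a b : ℕ) : ell (k + 1) a + ell (k + 1) b ≤ ell (k + 1) (a + b) := by
  induction b with
  | zero =>
    rw [ell_zero (by omega), Nat.add_zero]
    exact le_of_eq rfl
  | succ b ih =>
    have h1 := ell_succ k b
    have h2 := ell_succ k (a + b)
    have h3 : ell k (b + 1) ≤ ell k (a + b + 1) := ell_mono k (by omega)
    rw [← Nat.add_assoc]
    omega

/-- Several points of small total multiplicity. -/
theorem sum_ell_le (j : ℕ) (hj : 1 ≤ j) {B : Type} [Fintype B] (m : B → ℕ) (d : ℕ)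
    (h : ∑ b, m b ≤ d) : ∑ b, ell j (m b) + 1 ≤ (d + j).choose j := by
  classical
  obtain ⟨k, rfl⟩ : ∃ k, j = k + 1 := ⟨j - 1, by omega⟩
  have key : ∀ s : Finset B, ∑ b ∈ s, ell (k + 1) (m b) ≤ ell (k + 1) (∑ b ∈ s, m b) := by
    intro s
    induction s using Finset.induction_on with
    | empty => simp
    | insert a s ha ih =>
      rw [sum_insert ha, sum_insert ha]
      exact le_trans (Nat.add_le_add_left ih _) (ell_superadd k _ _)
  have h1 := key univ
  have h2 := ell_mono (k + 1) h
  have h3 := ell_succ_le_choose (k + 1) d hj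
  omega

end Pool.Agent.H18.Pr

end

section

/-!
# Module NumRM (PR): the virtual dimensions of the main family
-/

namespace Pool.Agent.H18.Pr

open Finset Pool.Agent.H18.Ex Pool.Agent.H18.Cub

variable {R t s : ℕ}

private theorem rm_ell_one (m : ℕ) : ell (0 + 1) m = m := by
  unfold ell
  rw [Nat.zero_add, Nat.add_sub_cancel, Nat.choose_one_right]

private theorem rm_zero (n : Fin t ⊕ Fin s → ℕ) (a : Option (Fin t) → ℕ) :
    RM R 0 n a = (tau (t + 1) R 1 (dd a) : ℤ) - ((∑ b, mu n a b : ℕ) : ℤ) := by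
  unfold RM
  rw [Nat.sub_zero, Nat.zero_add, Nat.cast_sum]
  congr 1
  refine Finset.sum_congr rfl fun b _ => ?_
  rw [show ell 1 (mu n a b) = mu n a b from rm_ell_one _]

private theorem rm_dd_none (a : Option (Fin t) → ℕ) (ha : 1 ≤ a none) :
    dd a = dd (dn none a) + (t + 1) := by
  have h1 : ∑ l : Fin t, dn none a (some l) = ∑ l : Fin t, a (some l) :=
    Finset.sum_congr rfl fun l _ => dn_ne (by simp) a
  obtain ⟨c, hc⟩ : ∃ c, a none = c + 1 := ⟨a none - 1, by omega⟩
  simp only [dd]
  rw [h1, dn_self, hc, Nat.add_sub_cancel]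
  ring

private theorem rm_dd_some (a : Option (Fin t) → ℕ) (l : Fin t) (ha : 1 ≤ a (some l)) :
    dd a = dd (dn (some l) a) + 1 := by
  have h1 := Finset.add_sum_erase univ (fun l' : Fin t => a (some l')) (mem_univ l)
  have h2 := Finset.add_sum_erase univ (fun l' : Fin t => dn (some l) a (some l')) (mem_univ l)
  have h3 : ∑ l' ∈ univ.erase l, dn (some l) a (some l') =
      ∑ l' ∈ univ.erase l, a (some l') := by
    refine Finset.sum_congr rfl fun l' hl' => ?_
    rw [dn_ne]
    intro h
    exact (Finset.ne_of_mem_erase hl') (Option.some.inj h)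
  have h4 : dn (some l) a (some l) = a (some l) - 1 := dn_self _ _
  have h5 : dn (some l) a none = a none := dn_ne (by simp) a
  simp only [dd]
  rw [h5]
  omega

private theorem rm_mu_none (n : Fin t ⊕ Fin s → ℕ) (a : Option (Fin t) → ℕ) (ha : 1 ≤ a none)
    (b : Fin t ⊕ Fin s) : mu n (dn none a) b = mu n a b - 1 := by
  have h0 : dn none a none = a none - 1 := dn_self _ _
  rcases b with l | b
  · have h1 : dn none a (some l) = a (some l) := dn_ne (by simp) a
    simp only [mu, uu]
    omega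
  · simp only [mu, uu]
    omega

private theorem rm_mu_some (n : Fin t ⊕ Fin s → ℕ) (a : Option (Fin t) → ℕ) (l : Fin t)
    (ha : 1 ≤ a (some l)) : mu n (dn (some l) a) (.inl l) = mu n a (.inl l) - 1 := by
  have h0 : dn (some l) a none = a none := dn_ne (by simp) a
  have h1 : dn (some l) a (some l) = a (some l) - 1 := dn_self _ _
  simp only [mu, uu]
  omega

private theorem rm_mu_other (n : Fin t ⊕ Fin s → ℕ) (a : Option (Fin t) → ℕ) (l : Fin t)
    (b : Fin t ⊕ Fin s) (hb : b ≠ .inl l) : mu n (dn (some l) a) b = mu n a b := by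
  have h0 : dn (some l) a none = a none := dn_ne (by simp) a
  rcases b with l' | b
  · have h1 : dn (some l) a (some l') = a (some l') :=
      dn_ne (fun h => hb (by rw [Option.some.inj h])) a
    simp only [mu, uu]
    omega
  · simp only [mu, uu]
    omega

/-- The case of dimension one: `RM R 0` is the virtual dimension on the curve. -/
theorem RM_zero_lower (n : Fin t ⊕ Fin s → ℕ) (a : Option (Fin t) → ℕ) (D : ℕ)
    (h : Mg R D n a) : (D : ℤ) ≤ RM R 0 n a + R * t * (t + 1) ^ R := by
  rw [rm_zero]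
  have h1 := tau_one_lower (t + 1) R (dd a) (by omega)
  rw [Nat.add_sub_cancel] at h1
  have h2 := h.curve
  have h3 : 2 * ((t + 1) ^ R * (dd a + 1)) = 2 * ((t + 1) ^ R * dd a) + 2 * (t + 1) ^ R := by ring
  have h4 : ((R * t * (t + 1) ^ R : ℕ) : ℤ) = R * t * (t + 1) ^ R := by push_cast; ring
  rw [← h4]
  omega

/-- Use `tau_one_lower`, `curve_eq` and the field `slack`. -/
theorem RM_zero_pos (ht : 1 ≤ t) (hR : 1 ≤ R) (hts : t + s = (t + 1) ^ (R + 1))
    {n : Fin t ⊕ Fin s → ℕ} {a : Option (Fin t) → ℕ} (h : Mg R 1 n a) (ha : 1 ≤ a none) :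
    1 ≤ RM R 0 n a := by
  rw [rm_zero]
  have h1 := tau_one_lower (t + 1) R (dd a) (by omega)
  rw [Nat.add_sub_cancel] at h1
  have h2 := h.curve
  have h5 := h.slack
  have h6 := curve_eq hts n a
  have h3 : 2 * ((t + 1) ^ R * (dd a + 1)) = 2 * ((t + 1) ^ R * dd a) + 2 * (t + 1) ^ R := by ring
  rw [h3] at h1
  generalize ∑ b, min (n b) (uu (s := s) a b) = V at h6
  generalize hA : ∑ l, a (some l) = A at h5 h6
  generalize ∑ b, mu n a b = m at h2 h6 ⊢
  generalize tau (t + 1) R 1 (dd a) = T at h1 ⊢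
  have hE : 2 ≤ (t + 1) ^ R := by
    calc 2 ≤ t + 1 := by omega
      _ = (t + 1) ^ 1 := (pow_one _).symm
      _ ≤ (t + 1) ^ R := Nat.pow_le_pow_right (by omega) hR
  have hE3 : R * t = 1 ∨ 3 ≤ (t + 1) ^ R := by
    by_cases ht1 : t = 1
    · subst ht1
      by_cases hR1 : R = 1
      · left; rw [hR1]
      · right
        calc 3 ≤ 2 ^ 2 := by norm_num
          _ ≤ (1 + 1) ^ R := Nat.pow_le_pow_right (by norm_num) (by omega)
    · right
      calc 3 ≤ t + 1 := by omega
        _ = (t + 1) ^ 1 := (pow_one _).symm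
        _ ≤ (t + 1) ^ R := Nat.pow_le_pow_right (by omega) hR
  generalize (t + 1) ^ R = E at *
  obtain ⟨E', rfl⟩ : ∃ E', E = E' + 1 := ⟨E - 1, by omega⟩
  rw [Nat.add_sub_cancel] at h6
  have h7 : R * t * (E' + 1) ≤ (A + 2) * (E' + 1) := Nat.mul_le_mul_right _ (by omega)
  by_cases hA0 : A = 0
  · subst hA0
    rw [mul_zero, zero_add] at h6
    have h8 : R * t * (E' + 1) ≤ 2 * (E' + 1) := by simpa using h7
    omega
  · rcases hE3 with h8 | h8
    · rw [h8] at h1
      have h9 : E' * 1 ≤ E' * A := Nat.mul_le_mul_left _ (by omega)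
      omega
    · obtain ⟨E'', rfl⟩ : ∃ E'', E' = E'' + 2 := ⟨E' - 2, by omega⟩
      have h9 : (A + 2) * (E'' + 2 + 1) = A * E'' + 3 * A + 2 * (E'' + 2 + 1) := by ring
      have h10 : (E'' + 2) * A = A * E'' + 2 * A := by ring
      rw [h9] at h7
      rw [h10] at h6
      have h11 : 0 ≤ A * E'' := Nat.zero_le _
      omega

/-- States without the curve. -/
theorem RM_pos_of_none (j : ℕ) {n : Fin t ⊕ Fin s → ℕ} {a : Option (Fin t) → ℕ}
    (ha : a none = 0) : 1 ≤ RM R j n a := by
  have h1 : ∑ b, mu n a b ≤ dd a := by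
    rw [Fintype.sum_sum_type]
    have h2 : ∑ l : Fin t, mu n a (Sum.inl l) ≤ ∑ l : Fin t, a (some l) := by
      refine Finset.sum_le_sum fun l _ => ?_
      simp only [mu, uu]
      omega
    have h3 : ∑ l : Fin s, mu n a (Sum.inr l) = 0 := by
      refine Finset.sum_eq_zero fun l _ => ?_
      simp only [mu, uu]
      omega
    simp only [dd]
    omega
  have h2 := sum_ell_le (j + 1) (by omega) (mu n a) (dd a) h1
  have h3 := choose_le_tau (t + 1) (R - j) (j + 1) (dd a) (by omega)
  unfold RM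
  have h4 : ((∑ b, ell (j + 1) (mu n a b) : ℕ) : ℤ) = ∑ b, (ell (j + 1) (mu n a b) : ℤ) :=
    Nat.cast_sum _ _
  rw [← h4]
  omega

/-- Differences, in direction of the curve. -/
theorem RM_diff_none (j : ℕ) (hj : 1 ≤ j) (hjR : j ≤ R) (n : Fin t ⊕ Fin s → ℕ)
    (a : Option (Fin t) → ℕ) (ha : 1 ≤ a none) :
    RM R j n a = RM R j n (dn none a) + RM R (j - 1) n a := by
  have h1 := rm_dd_none a ha
  have h2 := tau_eq (t + 1) (R - j) j (dd a) (by omega) (by omega)
  have h3 : dd a - (t + 1) = dd (dn none a) := by omega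
  rw [h3] at h2
  have h4 : ∑ b, (ell (j + 1) (mu n a b) : ℤ) =
      ∑ b, (ell (j + 1) (mu n (dn none a) b) : ℤ) + ∑ b, (ell j (mu n a b) : ℤ) := by
    rw [← Finset.sum_add_distrib]
    refine Finset.sum_congr rfl fun b _ => ?_
    rw [rm_mu_none n a ha b, ell_succ_sub j (mu n a b) hj]
    push_cast
    ring
  have h5 : R - (j - 1) = R - j + 1 := by omega
  have h6 : j - 1 + 1 = j := by omega
  unfold RM
  rw [h5, h6, h2, h4]
  push_cast
  ring

/-- Differences, in the other directions. -/
theorem RM_diff_some (j : ℕ) (hj : 1 ≤ j) (n : Fin t ⊕ Fin s → ℕ)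
    (a : Option (Fin t) → ℕ) (l : Fin t) (ha : 1 ≤ a (some l)) :
    RM R j n a = RM R j n (dn (some l) a) +
      ((tau (t + 1) (R - j) j (dd a) : ℤ) - ell j (mu n a (.inl l))) := by
  have h1 := rm_dd_some a l ha
  have h2 := tau_succ (t + 1) (R - j) j (dd (dn (some l) a))
  rw [← h1] at h2
  have h3 := Finset.add_sum_erase univ
    (fun b : Fin t ⊕ Fin s => (ell (j + 1) (mu n a b) : ℤ)) (mem_univ (.inl l))
  have h4 := Finset.add_sum_erase univ
    (fun b : Fin t ⊕ Fin s => (ell (j + 1) (mu n (dn (some l) a) b) : ℤ)) (mem_univ (.inl l))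
  have h5 : ∑ b ∈ univ.erase (.inl l), (ell (j + 1) (mu n (dn (some l) a) b) : ℤ) =
      ∑ b ∈ univ.erase (.inl l), (ell (j + 1) (mu n a b) : ℤ) := by
    refine Finset.sum_congr rfl fun b hb => ?_
    rw [rm_mu_other n a l b (Finset.ne_of_mem_erase hb)]
  have h6 := ell_succ_sub j (mu n a (.inl l)) hj
  simp only [rm_mu_some n a l ha] at h4
  rw [h5] at h4
  unfold RM
  rw [← h3, ← h4, h2, h6]
  push_cast
  ring

/-- Dimension one. -/
theorem RM_diff_zero (hts : t + s = (t + 1) ^ (R + 1)) (n : Fin t ⊕ Fin s → ℕ)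
    (a : Option (Fin t) → ℕ) (i : Option (Fin t)) (ha : 1 ≤ a i)
    (hd : (R + 1) * t ≤ dd a) :
    0 ≤ RM R 0 n a - RM R 0 n (dn i a) ∧
      RM R 0 n a - RM R 0 n (dn i a) ≤ (t + 1) ^ (R + 1) := by
  have hcast : (((t + 1) ^ (R + 1) : ℕ) : ℤ) = (t + 1) ^ (R + 1) := by push_cast; ring
  rw [rm_zero, rm_zero, ← hcast]
  rcases i with _ | l
  · have h1 := rm_dd_none a ha
    have h2 := tau_eq (t + 1) R 0 (dd a) (by omega) (by omega)
    have h3 : dd a - (t + 1) = dd (dn none a) := by omega
    rw [h3, Nat.zero_add] at h2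
    have h4 := tau_zero_eq (t + 1) (R + 1) (dd a) (by rw [Nat.add_sub_cancel]; exact hd)
    have h5 : ∑ b, mu n (dn none a) b ≤ ∑ b, mu n a b :=
      Finset.sum_le_sum fun b _ => by rw [rm_mu_none n a ha b]; omega
    have h6 : ∑ b, mu n a b ≤ ∑ b, mu n (dn none a) b + (t + s) := by
      have h7 : ∑ b, mu n a b ≤ ∑ b, (mu n (dn none a) b + 1) :=
        Finset.sum_le_sum fun b _ => by rw [rm_mu_none n a ha b]; omega
      rw [Finset.sum_add_distrib] at h7
      simpa using h7
    rw [h4] at h2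
    rw [hts] at h6
    omega
  · have h1 := rm_dd_some a l ha
    have h2 := tau_succ (t + 1) R 0 (dd (dn (some l) a))
    rw [← h1, Nat.zero_add] at h2
    have h4 := tau_zero_eq (t + 1) R (dd a) (by
      rw [Nat.add_sub_cancel]
      refine le_trans ?_ hd
      exact Nat.mul_le_mul_right _ (by omega))
    rw [h4] at h2
    have h5 : ∑ b, mu n (dn (some l) a) b ≤ ∑ b, mu n a b :=
      Finset.sum_le_sum fun b _ => by
        by_cases hb : b = .inl l
        · rw [hb, rm_mu_some n a l ha]; omega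
        · rw [rm_mu_other n a l b hb]
    have h6 : ∑ b, mu n a b ≤ ∑ b, mu n (dn (some l) a) b + 1 := by
      have h7 := Finset.add_sum_erase univ (fun b => mu n a b) (mem_univ (.inl l))
      have h8 := Finset.add_sum_erase univ (fun b => mu n (dn (some l) a) b) (mem_univ (.inl l))
      have h9 : ∑ b ∈ univ.erase (.inl l), mu n (dn (some l) a) b =
          ∑ b ∈ univ.erase (.inl l), mu n a b :=
        Finset.sum_congr rfl fun b hb => rm_mu_other n a l b (Finset.ne_of_mem_erase hb)
      have h10 := rm_mu_some n a l ha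
      omega
    have h7 : 1 ≤ (t + 1) ^ R := Nat.one_le_pow _ _ (by omega)
    have h8 : (t + 1) ^ R ≤ (t + 1) ^ (R + 1) := Nat.pow_le_pow_right (by omega) (by omega)
    omega

theorem RM_upper (j : ℕ) (hjR : j ≤ R) (n : Fin t ⊕ Fin s → ℕ) (a : Option (Fin t) → ℕ) :
    RM R j n a ≤ (t + 1) ^ R * (dd a + j + 1) ^ (j + 1) := by
  have h1 := tau_le (t + 1) (R - j) (j + 1) (dd a)
  have h2 : (dd a + (j + 1)).choose (j + 1) ≤ (dd a + (j + 1)) ^ (j + 1) :=
    Nat.choose_le_pow _ _
  have h3 : (t + 1) ^ (R - j) ≤ (t + 1) ^ R := Nat.pow_le_pow_right (by omega) (by omega)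
  have h4 : tau (t + 1) (R - j) (j + 1) (dd a) ≤ (t + 1) ^ R * (dd a + j + 1) ^ (j + 1) :=
    h1.trans (Nat.mul_le_mul h3 h2)
  have h5 : (0 : ℤ) ≤ ∑ b, (ell (j + 1) (mu n a b) : ℤ) :=
    Finset.sum_nonneg fun b _ => Int.natCast_nonneg _
  have h6 : (tau (t + 1) (R - j) (j + 1) (dd a) : ℤ) ≤
      ((t + 1) ^ R * (dd a + j + 1) ^ (j + 1) : ℕ) := by exact_mod_cast h4
  unfold RM
  push_cast at h6
  linarith

end Pool.Agent.H18.Pr

end
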