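import Pool.Agent.H94.LP1.M02
import Pool.Agent.H94.LP1.M04
import Pool.Agent.H94.LP1.M05

/-! The parts of this file: H18.Ex.Peel, H18.Ex.Dif_1, H18.Ex.Step. -/

section

/-!
# Module Peel: one Horace step for configurations

The region `A` has dimension `n + 1`, its layer `A₀ = A ∩ {a l = 0}` dimension `n` and `f`
exponents.
-/

namespace Pool.Agent.H18.Ex

open Finset

/-- A maximal submultiset with bounded weight. -/
theorem exists_maximal_fill (N I₀ : Multiset ℕ) (g : ℕ → ℕ) (a : ℕ) (hI₀ : I₀ ≤ N)
    (h : (I₀.map g).sum ≤ a) :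
    ∃ I, I₀ ≤ I ∧ I ≤ N ∧ (I.map g).sum ≤ a ∧ ∀ m ∈ N - I, a < (I.map g).sum + g m := by
  induction hk : (N - I₀).card using Nat.strong_induction_on generalizing I₀ with
  | _ k ih =>
    by_cases hm : ∃ m ∈ N - I₀, (I₀.map g).sum + g m ≤ a
    · obtain ⟨m, hmem, hle⟩ := hm
      have h1 : m ::ₘ I₀ ≤ N := by
        have h2 : ({m} : Multiset ℕ) ≤ N - I₀ := Multiset.singleton_le.2 hmem
        calc m ::ₘ I₀ = {m} + I₀ := (Multiset.singleton_add m I₀).symm
          _ ≤ (N - I₀) + I₀ := add_le_add_left h2 I₀
          _ = N := tsub_add_cancel_of_le hI₀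
      have h3 : ((m ::ₘ I₀).map g).sum ≤ a := by
        rw [Multiset.map_cons, Multiset.sum_cons]
        omega
      have h4 : (N - (m ::ₘ I₀)).card < k := by
        rw [← hk, Multiset.card_sub h1, Multiset.card_sub hI₀, Multiset.card_cons]
        have h5 := Multiset.card_le_card h1
        rw [Multiset.card_cons] at h5
        omega
      obtain ⟨I, hI1, hI2, hI3, hI4⟩ := ih _ h4 (m ::ₘ I₀) h1 h3 rfl
      exact ⟨I, le_trans (Multiset.le_cons_self I₀ m) hI1, hI2, hI3, hI4⟩
    · push Not at hm
      exact ⟨I₀, le_rfl, hI₀, h, hm⟩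

/-- Pigeonhole: a multiset of at least `M * r` numbers in `[1, M]` contains some number at
least `r` times. -/
theorem exists_replicate_le (N : Multiset ℕ) (M r : ℕ) (hN : ∀ m ∈ N, 1 ≤ m ∧ m ≤ M)
    (h : M * r ≤ N.card) (hM : 1 ≤ M) (hr : 1 ≤ r) : ∃ μ ∈ N, Multiset.replicate r μ ≤ N := by
  by_contra hcon
  push Not at hcon
  have h1 : ∀ μ ∈ N.toFinset, N.count μ ≤ r - 1 := by
    intro μ hμ
    have h2 := hcon μ (Multiset.mem_toFinset.1 hμ)
    rw [← Multiset.le_count_iff_replicate_le] at h2
    omega
  have h3 : N.card ≤ N.toFinset.card * (r - 1) := by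
    rw [← Multiset.toFinset_sum_count_eq N]
    refine le_trans (Finset.sum_le_card_nsmul _ _ _ h1) ?_
    rw [smul_eq_mul]
  have h4 : N.toFinset ⊆ Finset.Icc 1 M := by
    intro μ hμ
    exact Finset.mem_Icc.2 (hN μ (Multiset.mem_toFinset.1 hμ))
  have h5 : N.toFinset.card ≤ M := by
    have := Finset.card_le_card h4
    rw [Nat.card_Icc] at this
    omega
  have h6 : N.toFinset.card * (r - 1) ≤ M * (r - 1) := Nat.mul_le_mul_right _ h5
  have h7 : M * (r - 1) < M * r := Nat.mul_lt_mul_of_pos_left (by omega) (by omega)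
  omega

section PeelAux

/-- The traces of a multiset of forced conditions. -/
def trS (n : ℕ) (S : Multiset (ℕ × ℕ)) : ℕ := (S.map fun x => ell n x.1).sum

/-- The lengths of a multiset of forced conditions. -/
def flS (n : ℕ) (S : Multiset (ℕ × ℕ)) : ℕ := (S.map fun x => ell (n + 1) x.1 + 1 - x.2).sum

theorem trS_add (n : ℕ) (S T : Multiset (ℕ × ℕ)) : trS n (S + T) = trS n S + trS n T := by
  unfold trS
  rw [Multiset.map_add, Multiset.sum_add]

theorem flS_add (n : ℕ) (S T : Multiset (ℕ × ℕ)) : flS n (S + T) = flS n S + flS n T := by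
  unfold flS
  rw [Multiset.map_add, Multiset.sum_add]

private theorem shf_zero : shf 0 = 0 := rfl

private theorem shf_cons (x : ℕ × ℕ) (S : Multiset (ℕ × ℕ)) :
    shf (x ::ₘ S) = if x.2 ≤ x.1 - 1 then (x.1 - 1, x.2) ::ₘ shf S else shf S := by
  unfold shf
  rw [Multiset.map_cons]
  by_cases h : x.2 ≤ x.1 - 1
  · rw [if_pos h]
    exact Multiset.filter_cons_of_pos (p := fun y : ℕ × ℕ => y.2 ≤ y.1) _ h
  · rw [if_neg h]
    exact Multiset.filter_cons_of_neg (p := fun y : ℕ × ℕ => y.2 ≤ y.1) _ h

theorem mem_shf {x : ℕ × ℕ} {S : Multiset (ℕ × ℕ)} (hx : x ∈ shf S) :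
    ∃ y ∈ S, x = (y.1 - 1, y.2) ∧ y.2 ≤ y.1 - 1 := by
  unfold shf at hx
  rw [Multiset.mem_filter, Multiset.mem_map] at hx
  obtain ⟨⟨y, hy, rfl⟩, h⟩ := hx
  exact ⟨y, hy, rfl, h⟩

theorem trS_shf {n M : ℕ} (hn : 1 ≤ n) (S : Multiset (ℕ × ℕ))
    (hS : ∀ x ∈ S, 1 ≤ x.2 ∧ x.2 ≤ 2 ∧ x.2 ≤ x.1 ∧ x.1 ≤ M) :
    M * trS n (shf S) ≤ (M - 1) * trS n S := by
  induction S using Multiset.induction_on with
  | empty => simp [shf_zero, trS]
  | cons x S ih =>
    have ih' := ih fun y hy => hS y (Multiset.mem_cons_of_mem hy)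
    have hx := hS x (Multiset.mem_cons_self x S)
    have h1 : trS n (x ::ₘ S) = ell n x.1 + trS n S := by
      unfold trS
      rw [Multiset.map_cons, Multiset.sum_cons]
    rw [shf_cons, h1]
    by_cases h : x.2 ≤ x.1 - 1
    · rw [if_pos h]
      have h2 : trS n ((x.1 - 1, x.2) ::ₘ shf S) = ell n (x.1 - 1) + trS n (shf S) := by
        unfold trS
        rw [Multiset.map_cons, Multiset.sum_cons]
      rw [h2]
      have h3 := ell_ratio (n := n) (c := x.1 - 1) (M := M) hn (by omega)
      have h4 : x.1 - 1 + 1 = x.1 := by omega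
      rw [h4] at h3
      rw [Nat.mul_add, Nat.mul_add]
      exact Nat.add_le_add h3 ih'
    · rw [if_neg h, Nat.mul_add]
      exact le_trans ih' (Nat.le_add_left _ _)

theorem flS_shf {n M : ℕ} (S : Multiset (ℕ × ℕ))
    (hS : ∀ x ∈ S, 1 ≤ x.2 ∧ x.2 ≤ 2 ∧ x.2 ≤ x.1 ∧ x.1 ≤ M) :
    flS n S = flS n (shf S) + trS n S := by
  induction S using Multiset.induction_on with
  | empty => simp [shf_zero, trS, flS]
  | cons x S ih =>
    have ih' := ih fun y hy => hS y (Multiset.mem_cons_of_mem hy)
    obtain ⟨hx1, hx2, hx3, -⟩ := hS x (Multiset.mem_cons_self x S)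
    have h1 : trS n (x ::ₘ S) = ell n x.1 + trS n S := by
      unfold trS
      rw [Multiset.map_cons, Multiset.sum_cons]
    have h0 : flS n (x ::ₘ S) = (ell (n + 1) x.1 + 1 - x.2) + flS n S := by
      unfold flS
      rw [Multiset.map_cons, Multiset.sum_cons]
    have h5 := ell_succ n (x.1 - 1)
    have h4 : x.1 - 1 + 1 = x.1 := by omega
    rw [h4] at h5
    have h6 := ell_pos n (m := x.1) (by omega)
    rw [shf_cons, h1, h0, ih']
    by_cases h : x.2 ≤ x.1 - 1
    · rw [if_pos h]
      have h2 : flS n ((x.1 - 1, x.2) ::ₘ shf S) =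
          (ell (n + 1) (x.1 - 1) + 1 - x.2) + flS n (shf S) := by
        unfold flS
        rw [Multiset.map_cons, Multiset.sum_cons]
      rw [h2]
      have h7 := ell_pos (n + 1) (m := x.1 - 1) (by omega)
      omega
    · rw [if_neg h]
      have h8 : ell (n + 1) (x.1 - 1) = x.2 - 1 := by
        have h9 : x.1 = x.2 := by omega
        rw [h9]
        have h10 : x.2 = 1 ∨ x.2 = 2 := by omega
        rcases h10 with h10 | h10
        · rw [h10]
          exact ell_zero (by omega)
        · rw [h10]
          exact ell_one _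
      omega

variable {ι : Type} [DecidableEq ι]

theorem map_finset_sum {α β γ : Type*} (g : α → β) (s : Finset γ) (F : γ → Multiset α) :
    (∑ i ∈ s, F i).map g = ∑ i ∈ s, (F i).map g :=
  map_sum (Multiset.mapAddMonoidHom g) F s

variable [Fintype ι]

/-- The roles of the conditions. -/
def roles (c : Cfg ι) (l : ι) (I : Multiset ℕ) (μ t u : ℕ) : Multiset (Role ι) :=
  (c.N - I - Multiset.replicate t μ).map (fun m => Role.stay (Kind.free m)) +
    Multiset.replicate (c.s - u) (Role.stay (Kind.free 1)) +
    ∑ l' ∈ univ.erase l, (c.Φ l').map (fun x => Role.stay (Kind.forced l' x.1 x.2)) +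
    (c.Φ l).map (fun x => Role.here x.1 x.2) + I.map (fun m => Role.ord m) +
    Multiset.replicate t Role.dif + Multiset.replicate u (Role.ord 1)

private theorem roles_before (c : Cfg ι) (l : ι) {I : Multiset ℕ} (hI : I ≤ c.N) {μ t u : ℕ}
    (ht : Multiset.replicate t μ ≤ c.N - I) (hu : u ≤ c.s) :
    (roles c l I μ t u).map (Role.before l μ) = c.kinds := by
  have h1 : c.N = (c.N - I - Multiset.replicate t μ) + I + Multiset.replicate t μ := by
    rw [add_right_comm, tsub_add_cancel_of_le ht, tsub_add_cancel_of_le hI]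
  have h2 : Multiset.replicate c.s (Kind.free 1 : Kind ι) =
      Multiset.replicate (c.s - u) (Kind.free 1) + Multiset.replicate u (Kind.free 1) := by
    rw [← Multiset.replicate_add, Nat.sub_add_cancel hu]
  have h3 : ∑ l', (c.Φ l').map (fun x => Kind.forced l' x.1 x.2) =
      ∑ l' ∈ univ.erase l, (c.Φ l').map (fun x => Kind.forced l' x.1 x.2) +
        (c.Φ l).map (fun x => Kind.forced l x.1 x.2) :=
    (Finset.sum_erase_add univ _ (Finset.mem_univ l)).symm
  have h4 : c.kinds = ((c.N - I - Multiset.replicate t μ) + I +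
      Multiset.replicate t μ).map Kind.free + Multiset.replicate c.s (Kind.free 1) +
      ∑ l', (c.Φ l').map (fun x => Kind.forced l' x.1 x.2) := by
    rw [← h1]
    rfl
  rw [h4, h2, h3]
  unfold roles
  simp only [Multiset.map_add, map_finset_sum, Multiset.map_map, Multiset.map_replicate,
    Function.comp_def, Role.before]
  abel

private theorem sum_ell_zero {n : ℕ} (hn : 1 ≤ n) {α : Type*} (S : Multiset α) :
    (S.map fun _ => ell n 0).sum = 0 := by
  rw [ell_zero hn]
  simp

private theorem roles_layer {n M : ℕ} (hn : 1 ≤ n) {c : Cfg ι} (hc : c.OK M) (l : ι)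
    (I : Multiset ℕ) (μ t u : ℕ) :
    (((roles c l I μ t u).map Role.layer).map (ell n)).sum =
      c.tr n l + (I.map (ell n)).sum + t + u := by
  have h1 : ((c.Φ l).map fun x => ell n (if x.2 ≤ x.1 then x.1 else 0)).sum = c.tr n l := by
    unfold Cfg.tr
    congr 1
    refine Multiset.map_congr rfl fun x hx => ?_
    rw [if_pos (hc.hΦ l x hx).2.2.1]
  unfold roles
  simp only [Multiset.map_add, map_finset_sum, Multiset.map_map, Multiset.map_replicate,
    Function.comp_def, Role.layer, Multiset.sum_add]
  rw [h1, sum_ell_zero hn]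
  have h2 : (∑ l' ∈ univ.erase l, (c.Φ l').map fun _ => ell n 0).sum = 0 := by
    have h3 : (∑ l' ∈ univ.erase l, (c.Φ l').map fun _ => ell n 0).sum =
        ∑ l' ∈ univ.erase l, ((c.Φ l').map fun _ => ell n 0).sum :=
      map_sum (Multiset.sumAddMonoidHom) _ _
    rw [h3]
    exact Finset.sum_eq_zero fun l' _ => sum_ell_zero hn _
  rw [h2, ell_one, Multiset.sum_replicate, Multiset.sum_replicate, Multiset.sum_replicate,
    ell_zero hn]
  simp

private theorem roles_notAt (c : Cfg ι) (l : ι) (I : Multiset ℕ) (μ t u : ℕ) (k : Kind ι)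
    (hk : Role.stay k ∈ roles c l I μ t u) : k.NotAt l := by
  unfold roles at hk
  simp only [Multiset.mem_add] at hk
  rcases hk with (((((h | h) | h) | h) | h) | h) | h
  · obtain ⟨m, _, hm⟩ := Multiset.mem_map.1 h
    cases hm
    trivial
  · have h1 := (Multiset.mem_replicate.1 h).2
    cases h1
    trivial
  · obtain ⟨l', hl', h1⟩ := Multiset.mem_sum.1 h
    obtain ⟨x, _, hx⟩ := Multiset.mem_map.1 h1
    cases hx
    exact Finset.ne_of_mem_erase hl'
  · obtain ⟨m, _, hm⟩ := Multiset.mem_map.1 h
    cases hm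
  · obtain ⟨m, _, hm⟩ := Multiset.mem_map.1 h
    cases hm
  · have h1 := (Multiset.mem_replicate.1 h).2
    cases h1
  · have h1 := (Multiset.mem_replicate.1 h).2
    cases h1

private theorem roles_layer_le {M : ℕ} (hM : 1 ≤ M) {c : Cfg ι} (hc : c.OK M) (l : ι)
    {I : Multiset ℕ} (hI : I ≤ c.N) (μ t u : ℕ) :
    ∀ m ∈ (roles c l I μ t u).map Role.layer, m ≤ M := by
  intro m hm
  obtain ⟨r, hr, rfl⟩ := Multiset.mem_map.1 hm
  unfold roles at hr
  simp only [Multiset.mem_add] at hr
  rcases hr with (((((h | h) | h) | h) | h) | h) | h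
  · obtain ⟨m, _, rfl⟩ := Multiset.mem_map.1 h
    exact Nat.zero_le _
  · rw [(Multiset.mem_replicate.1 h).2]
    exact Nat.zero_le _
  · obtain ⟨l', hl', h1⟩ := Multiset.mem_sum.1 h
    obtain ⟨x, _, rfl⟩ := Multiset.mem_map.1 h1
    exact Nat.zero_le _
  · obtain ⟨x, hx, rfl⟩ := Multiset.mem_map.1 h
    have h2 := hc.hΦ l x hx
    change (if x.2 ≤ x.1 then x.1 else 0) ≤ M
    rw [if_pos h2.2.2.1]
    exact h2.2.2.2
  · obtain ⟨m', hm', rfl⟩ := Multiset.mem_map.1 h
    exact (hc.hN m' (Multiset.mem_of_le hI hm')).2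
  · rw [(Multiset.mem_replicate.1 h).2]
    exact hM
  · rw [(Multiset.mem_replicate.1 h).2]
    exact hM

omit [DecidableEq ι] [Fintype ι] in
theorem sum_map_N {n : ℕ} (c : Cfg ι) {I : Multiset ℕ} (hI : I ≤ c.N) {μ t : ℕ}
    (ht : Multiset.replicate t μ ≤ c.N - I) :
    (c.N.map (ell (n + 1))).sum = ((c.N - I - Multiset.replicate t μ).map (ell (n + 1))).sum +
      (I.map (ell (n + 1))).sum + t * ell (n + 1) μ := by
  have h1 : c.N = (c.N - I - Multiset.replicate t μ) + I + Multiset.replicate t μ := by
    rw [add_right_comm, tsub_add_cancel_of_le ht, tsub_add_cancel_of_le hI]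
  conv_lhs => rw [h1]
  rw [Multiset.map_add, Multiset.map_add, Multiset.sum_add, Multiset.sum_add,
    Multiset.map_replicate, Multiset.sum_replicate, smul_eq_mul]

end PeelAux

variable {ι : Type} [Fintype ι] [DecidableEq ι]

private theorem card_le_sum_ell {n M : ℕ} {I : Multiset ℕ} (hI : ∀ m ∈ I, 2 ≤ m ∧ m ≤ M) :
    I.card ≤ (I.map (ell n)).sum ∧ (I.map (ell n)).sum ≤ ell n M * I.card := by
  induction I using Multiset.induction_on with
  | empty => simp
  | cons m I ih =>
    have ih' := ih fun m' hm' => hI m' (Multiset.mem_cons_of_mem hm')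
    have h7 := hI m (Multiset.mem_cons_self m I)
    rw [Multiset.card_cons, Multiset.map_cons, Multiset.sum_cons, Nat.mul_add, Nat.mul_one]
    have h8 := ell_pos n (m := m) (by omega)
    have h9 := ell_mono n h7.2
    constructor
    · omega
    · omega

end Pool.Agent.H18.Ex

end

section

/-!
# Module Dif: the differential lemma

`F` is a form with coefficients in `ℂ[t]` vanishing to order `μ` at the moving point
`(q, x_l = t)`.  Write `S s n b = ∑_{a ∈ A, a l = s} coeff_n (F a) * ∏_{i ≠ l} binom(a i, b i)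
q_i^(a i - b i)` (with `b l = 0`); this is `∑_{a ∈ A} coeff_n (F a) * tcr (update q l 0) a (b + s e_l)`.
Taking the coefficient of `t^n` of the condition with index `b + β e_l` gives, for
`|b| + β < μ` and all `n`,

  `E β n b := ∑_{i ≤ n} binom(β + i, β) * S (β + i) (n - i) b = 0`.

Identity (for any function `S`): `∑_{β ≤ j} (-1)^β E β (j - β) b = S 0 j b`, because the coefficient
of `S s (j - s) b` is `∑_{β ≤ s} (-1)^β binom(s, β) = 0` for `s > 0`.
-/

namespace Pool.Agent.H18.Ex

open Finset

variable {ι : Type} [Fintype ι] [DecidableEq ι]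

/-- (D2) If the layer parts of the first `μ` coefficients vanish, then the residual of the
`0`-th coefficient satisfies the condition `forced l μ 2`.
Proof: by `resid_sum` we need `S (b l + 1) 0 b' = 0` for `|b| < μ`, `b l + 2 ≤ μ`
(`b'` = `b` without its `l`-th entry); put `j = b l + 1`, so `1 ≤ j ≤ μ - 1` and
`|b'| + j ≤ μ`.  If `|b'| + j < μ` this is `E j 0 b' = 0`.  If `|b'| + j = μ` then
`∑_{β < j} (-1)^β E β (j - β) b' = 0` and this sum is `S 0 j b' - (-1)^j S j 0 b'`, where
`S 0 j b' = 0` by hypothesis. -/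
theorem dif_resid (A A' : Finset (ι → ℕ)) (l : ι)
    (hA : ∀ a, a ∈ A' ↔ Function.update a l (a l + 1) ∈ A) (μ : ℕ)
    (F : (ι → ℕ) → Polynomial ℂ) (q : ι → ℂ)
    (h : Sat A F (Kind.free μ) (movPt l q))
    (h0 : ∀ j < μ, ∀ a ∈ A, a l = 0 → (F a).coeff j = 0) :
    Sat A' (fun a => (F (Function.update a l (a l + 1))).coeff 0) (Kind.forced l μ 2) q := by
  rintro b ⟨hb1, hb2⟩
  have hq : Function.update q l 0 l = 0 := Function.update_self _ _ _
  have h1 := resid_sum A A' l hA (fun a => (F a).coeff 0) (Function.update q l 0) hq b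
  have h2 : (∑ a ∈ A', (fun a => (F (Function.update a l (a l + 1))).coeff 0) a *
      tcr ((Kind.forced l μ 2 : Kind ι).pt q) a b) =
      ∑ a ∈ A, (F a).coeff 0 * tcr (Function.update q l 0) a (Function.update b l (b l + 1)) :=
    h1.symm
  rw [h2]
  set j := b l + 1 with hj
  have h3 : ∑ a ∈ A, (F a).coeff 0 * tcr (Function.update q l 0) a (Function.update b l j) =
      difS A l F q b j 0 := by
    unfold difS
    rw [sum_filter]
    refine sum_congr rfl fun a _ => ?_
    have h4 : tcr (Function.update q l 0) a (Function.update b l j) =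
        (if a l = j then 1 else 0) * difP l q a b := by
      unfold tcr difP
      rw [← mul_prod_erase univ _ (mem_univ l)]
      congr 1
      · rw [Function.update_self, Function.update_self]
        split_ifs with h5
        · rw [h5]
          simp
        · rcases lt_or_gt_of_ne h5 with h6 | h6
          · rw [Nat.choose_eq_zero_of_lt h6, Nat.cast_zero, zero_mul]
          · rw [zero_pow (by omega), mul_zero]
      · refine prod_congr rfl fun i hi => ?_
        rw [Function.update_of_ne (ne_of_mem_erase hi), Function.update_of_ne (ne_of_mem_erase hi)]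
    rw [h4]
    split_ifs <;> ring
  rw [h3]
  rcases lt_or_ge (∑ i, b i + 1) μ with hlt | hge
  · have h4 := dif_key' h (b := b) (β := j) (by omega) 0
    simpa using h4
  · have h4 := alt_identity (difS A l F q b) j
    have h5 : difS A l F q b 0 j = 0 := by
      unfold difS
      refine sum_eq_zero fun a ha => ?_
      obtain ⟨ha1, ha2⟩ := mem_filter.mp ha
      rw [h0 j (by omega) a ha1 ha2, zero_mul]
    rw [h5, sum_range_succ, sum_eq_zero, zero_add] at h4
    · have h6 := (mul_eq_zero.mp h4).resolve_left (pow_ne_zero _ (by norm_num))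
      simpa using h6
    · intro β hβ
      rw [mem_range] at hβ
      rw [dif_key' h (b := b) (β := β) (by
        have h7 : b l ≤ ∑ i, b i :=
          single_le_sum (f := b) (fun _ _ => Nat.zero_le _) (mem_univ l)
        omega) (j - β), mul_zero]

end Pool.Agent.H18.Ex

end

section

/-!
# Module Step: the (differential) Horace step
-/

namespace Pool.Agent.H18.Ex

open Finset

variable {ι : Type} [Fintype ι] [DecidableEq ι]

/-- A bound for the multi-indices of a condition. -/
def Kind.bdd (k : Kind ι) : ℕ :=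
  match k with
  | .free m => m
  | .forced _ c _ => c

omit [DecidableEq ι] in
theorem Kind.Idx.lt_bdd {k : Kind ι} {b : ι → ℕ} (h : k.Idx b) (j : ι) : b j < k.bdd := by
  have h1 : b j ≤ ∑ i, b i := Finset.single_le_sum (fun i _ => Nat.zero_le (b i)) (mem_univ j)
  cases k with
  | free m => exact lt_of_le_of_lt h1 h
  | forced l c e => exact lt_of_le_of_lt h1 h.1

omit [DecidableEq ι] in
theorem map_tcr {R S : Type*} [CommRing R] [CommRing S] (φ : R →+* S) (q : ι → R) (a b : ι → ℕ) :
    φ (tcr q a b) = tcr (fun i => φ (q i)) a b := by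
  unfold tcr
  rw [map_prod]
  simp only [map_mul, map_natCast, map_pow]

omit [Fintype ι] in
theorem map_pt {R S : Type*} [CommRing R] [CommRing S] (φ : R →+* S) (k : Kind ι) (q : ι → R) :
    (fun i => φ (k.pt q i)) = k.pt (fun i => φ (q i)) := by
  cases k with
  | free m => rfl
  | forced l c e =>
    funext i
    simp only [Kind.pt, Function.update_apply]
    split_ifs
    · exact map_zero φ
    · rfl

/-- The coefficients of a polynomial solution of conditions at a constant point. -/
theorem sat_coeff (A : Finset (ι → ℕ)) (F : (ι → ℕ) → Polynomial ℂ) (k : Kind ι) (q : ι → ℂ)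
    (h : Sat A F k (fun i => Polynomial.C (q i))) (n : ℕ) :
    Sat A (fun a => (F a).coeff n) k q := by
  intro b hb
  have h1 := h b hb
  have h2 : ∀ a, tcr (k.pt (fun i => Polynomial.C (q i))) a b = Polynomial.C (tcr (k.pt q) a b) := by
    intro a
    rw [map_tcr, map_pt]
  have h3 := congrArg (fun p => Polynomial.coeff p n) h1
  simp only [h2, Polynomial.finsetSum_coeff, Polynomial.coeff_mul_C, Polynomial.coeff_zero] at h3
  exact h3

/-- The positions, with parameter `t`. -/
def stepPos {κ R : Type*} [Zero R] (l : ι) (ρ : κ → Role ι) (pos : κ → ι → R) (t : R) (i : κ) :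
    ι → R :=
  match ρ i with
  | .stay _ => pos i
  | .here _ _ => pos i
  | .ord _ => Function.update (pos i) l 0
  | .dif => Function.update (pos i) l t

/-- The Horace step.

Proof.  By `GI.exists_common` take `pos` with both `InjAt`s and all coordinates nonzero.  For
`t : ℂ` let `pos_t i` be `pos i` for `stay` and `here`, `update (pos i) l 0` for `ord` and
`update (pos i) l t` for `dif`.  If `InjAt A (before) pos_t` for some `t` we are done.  Otherwise
`exists_poly_solution` (rows: `i` and the finitely many `b` with `(before i).Idx b`; entries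
`tcr ((before i).pt (P i)) a b` over `ℂ[X]`, where `P i` is `C ∘ pos i`, resp. with `l`-th
coordinate `0`, resp. `movPt l (pos i)`; evaluation at `t` commutes with `tcr`) gives
`F : (ι → ℕ) → ℂ[X]` satisfying all conditions over `ℂ[X]`, with `(F a).eval 0 ≠ 0` for some
`a ∈ A`.  Conditions with constant points hold for every coefficient `F_n a = (F a).coeff n`.
(i) For `j < μ` the function `F_j` satisfies the layer conditions: `here` by `sat_layer_forced`,
`ord` by `sat_forced_one_iff` and `sat_layer_forced` (and `sat_layer_congr`), `dif` by `dif_layer`,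
`stay`: `free 0` is empty.  So `F_j a = 0` for `a ∈ A`, `a l = 0`.
(ii) `a ↦ F_0 (a + e_l)` satisfies the residual conditions: `stay` by `sat_resid_of_notAt`, `here`
by `sat_resid_forced`, `ord` by `sat_forced_one_iff` and `sat_resid_forced`, `dif` by `dif_resid`.
So it vanishes on `A'`, hence `F_0 = 0` on `A` (use (i) for `a l = 0`), a contradiction. -/
theorem step {κ : Type} [Fintype κ] (A A' : Finset (ι → ℕ)) (l : ι)
    (hA : ∀ a, a ∈ A' ↔ Function.update a l (a l + 1) ∈ A) (μ : ℕ) (hμ : 1 ≤ μ)
    (ρ : κ → Role ι) (hρ : ∀ i k, ρ i = Role.stay k → k.NotAt l)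
    (h0 : GI (A.filter fun a => a l = 0) fun i => Kind.free (ρ i).layer)
    (h1 : GI A' fun i => (ρ i).after l μ) :
    GI A fun i => (ρ i).before l μ := by
  classical
  obtain ⟨pos, hL, hR, hne⟩ := GI.exists_common h0 h1
  by_contra hcon
  have hnot : ∀ t : ℂ, ∃ f : (ι → ℕ) → ℂ,
      (∀ i, Sat A f ((ρ i).before l μ) (stepPos l ρ pos t i)) ∧ ∃ a ∈ A, f a ≠ 0 := by
    intro t
    by_contra h2
    apply hcon
    refine ⟨stepPos l ρ pos t, ?_⟩
    intro f hf a ha
    by_contra h3
    exact h2 ⟨f, hf, a, ha, h3⟩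
  -- the bound for the multi-indices
  obtain ⟨D, hD⟩ : ∃ D : ℕ, ∀ i, ((ρ i).before l μ).bdd ≤ D :=
    ⟨Finset.univ.sup fun i => ((ρ i).before l μ).bdd,
      fun i => Finset.le_sup (f := fun i => ((ρ i).before l μ).bdd) (mem_univ i)⟩
  -- positions over the polynomial ring
  let P : κ → ι → Polynomial ℂ :=
    stepPos l ρ (fun i j => Polynomial.C (pos i j)) Polynomial.X
  have hP : ∀ (t : ℂ) (i : κ), (fun j => Polynomial.evalRingHom t (P i j)) = stepPos l ρ pos t i := by
    intro t i
    funext j
    simp only [P, stepPos]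
    cases ρ i with
    | stay k => simp
    | here c e => simp
    | ord m =>
      simp only [Function.update_apply]
      split_ifs <;> simp
    | dif =>
      simp only [Function.update_apply]
      split_ifs <;> simp
  let Mx : κ × (ι → Fin D) → (ι → ℕ) → Polynomial ℂ := fun r a =>
    if ((ρ r.1).before l μ).Idx (fun j => (r.2 j : ℕ)) then
      tcr (((ρ r.1).before l μ).pt (P r.1)) a (fun j => (r.2 j : ℕ)) else 0
  obtain ⟨F, hF, a0, ha0, hF0⟩ := exists_poly_solution A Mx (by
    intro t
    obtain ⟨f, hf, a, ha, hfa⟩ := hnot t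
    refine ⟨f, ?_, a, ha, hfa⟩
    rintro ⟨i, b⟩
    by_cases hb : ((ρ i).before l μ).Idx (fun j => (b j : ℕ))
    · have h2 := hf i _ hb
      rw [← h2]
      apply Finset.sum_congr rfl
      intro a _
      congr 1
      simp only [Mx]
      rw [if_pos hb]
      have h3 := map_tcr (Polynomial.evalRingHom t) (((ρ i).before l μ).pt (P i)) a
        (fun j => (b j : ℕ))
      rw [map_pt, hP] at h3
      exact h3
    · simp only [Mx, if_neg hb, Polynomial.eval_zero, mul_zero, Finset.sum_const_zero])
  have hsat : ∀ i, Sat A F ((ρ i).before l μ) (P i) := by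
    intro i b hb
    have hlt : ∀ j, b j < D := fun j => lt_of_lt_of_le (hb.lt_bdd j) (hD i)
    have h2 := hF (i, fun j => ⟨b j, hlt j⟩)
    simp only [Mx] at h2
    rw [← h2]
    apply Finset.sum_congr rfl
    intro a _
    rw [if_pos hb]
  -- the layer
  have hlayer : ∀ j < μ, ∀ a ∈ A, a l = 0 → (F a).coeff j = 0 := by
    intro j hj a ha hal
    refine hL (fun a => (F a).coeff j) ?_ a (mem_filter.mpr ⟨ha, hal⟩)
    intro i
    have h2 := hsat i
    simp only [P, stepPos] at h2
    show Sat (A.filter fun a => a l = 0) (fun a => (F a).coeff j) (Kind.free (ρ i).layer) (pos i)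
    cases hi : ρ i with
    | stay k =>
      intro b hb
      exact absurd hb (Nat.not_lt_zero _)
    | here c e =>
      rw [hi] at h2
      exact sat_layer_forced A l _ c e (pos i) (sat_coeff A F _ (pos i) h2 j)
    | ord m =>
      rw [hi] at h2
      have h3 : (fun i_1 => Polynomial.C (Function.update (pos i) l 0 i_1)) =
          Function.update (fun j => Polynomial.C (pos i j)) l 0 := by
        funext j'
        simp only [Function.update_apply]
        split_ifs
        · exact map_zero _
        · rfl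
      have h4 := sat_coeff A F (Kind.free m) (Function.update (pos i) l 0)
        (by rw [h3]; exact h2) j
      have h5 := sat_layer_forced A l _ m 1 (pos i) ((sat_forced_one_iff A l _ m (pos i)).mpr h4)
      have h6 : (if 1 ≤ m then m else 0) = m := by
        split_ifs with h7
        · rfl
        · omega
      rw [h6] at h5
      exact h5
    | dif =>
      rw [hi] at h2
      refine dif_layer A l μ F (pos i) ?_ j hj
      have h3 : movPt l (pos i) =
          Function.update (fun j => Polynomial.C (pos i j)) l Polynomial.X := by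
        funext j'
        simp only [Function.update_apply, movPt]
      rw [h3]
      exact h2
  -- the residual
  have hresid : ∀ a ∈ A', (F (Function.update a l (a l + 1))).coeff 0 = 0 := by
    intro a ha
    refine hR (fun a => (F (Function.update a l (a l + 1))).coeff 0) ?_ a ha
    intro i
    have h2 := hsat i
    simp only [P, stepPos] at h2
    show Sat A' (fun a => (F (Function.update a l (a l + 1))).coeff 0) ((ρ i).after l μ) (pos i)
    cases hi : ρ i with
    | stay k =>
      rw [hi] at h2
      exact sat_resid_of_notAt A A' l hA (fun a => (F a).coeff 0) (hlayer 0 (by omega)) k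
        (hρ i k hi) (pos i) (hne i l) (sat_coeff A F k (pos i) h2 0)
    | here c e =>
      rw [hi] at h2
      exact sat_resid_forced A A' l hA (fun a => (F a).coeff 0) c e (pos i)
        (sat_coeff A F _ (pos i) h2 0)
    | ord m =>
      rw [hi] at h2
      have h3 : (fun i_1 => Polynomial.C (Function.update (pos i) l 0 i_1)) =
          Function.update (fun j => Polynomial.C (pos i j)) l 0 := by
        funext j'
        simp only [Function.update_apply]
        split_ifs
        · exact map_zero _
        · rfl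
      have h4 := sat_coeff A F (Kind.free m) (Function.update (pos i) l 0)
        (by rw [h3]; exact h2) 0
      exact sat_resid_forced A A' l hA (fun a => (F a).coeff 0) m 1 (pos i)
        ((sat_forced_one_iff A l _ m (pos i)).mpr h4)
    | dif =>
      rw [hi] at h2
      refine dif_resid A A' l hA μ F (pos i) ?_ hlayer
      have h3 : movPt l (pos i) =
          Function.update (fun j => Polynomial.C (pos i j)) l Polynomial.X := by
        funext j'
        simp only [Function.update_apply, movPt]
      rw [h3]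
      exact h2
  -- conclusion
  apply hF0
  rw [← Polynomial.coeff_zero_eq_eval_zero]
  rcases Nat.eq_zero_or_pos (a0 l) with h2 | h2
  · exact hlayer 0 (by omega) a0 ha0 h2
  · have h3 : Function.update (Function.update a0 l (a0 l - 1)) l
        (Function.update a0 l (a0 l - 1) l + 1) = a0 := by
      rw [Function.update_idem, Function.update_self, Nat.sub_add_cancel h2,
        Function.update_eq_self]
    have h4 : Function.update a0 l (a0 l - 1) ∈ A' := by
      rw [hA, h3]
      exact ha0
    have h5 := hresid _ h4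
    rw [h3] at h5
    exact h5

end Pool.Agent.H18.Ex

end
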