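import Pool.Agent.H94.LP1.H18.Cub.GenP
import Pool.Agent.H94.LP1.M06
import Pool.Agent.H94.LP1.M08

/-! The parts of this file: H18.Cub.WC, H18.Cub.BridgeP, H18.Ex.Multi, H18.Pr.Space. -/

section

/-!
# Module WC: plane curves with multiple points on the curve `y = x^e`

Coordinates `x = X 0`, `z = X 1 = y - x^e`.  The curve is `z = 0`, its points are `(x, 0)`.
-/

namespace Pool.Agent.H18.Cub

open Finset Pool.Agent.H18.Ex

/-- `X i - v` divides `F - F|_{X i = v}`. -/
theorem wc_dvd_sub_sub1 {ι : Type} [DecidableEq ι] (i : ι) (v : ℂ) (F : MvPolynomial ι ℂ) :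
    (MvPolynomial.X i - MvPolynomial.C v) ∣ F - sub1 i v F := by
  induction F using MvPolynomial.induction_on with
  | C a =>
    have : sub1 i v (MvPolynomial.C a) = MvPolynomial.C a := (sub1 i v).commutes a
    rw [this, sub_self]
    exact dvd_zero _
  | add p q hp hq =>
    rw [map_add]
    have : p + q - (sub1 i v p + sub1 i v q) = (p - sub1 i v p) + (q - sub1 i v q) := by ring
    rw [this]
    exact dvd_add hp hq
  | mul_X p n hp =>
    rw [map_mul]
    have hX : sub1 i v (MvPolynomial.X n) =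
        Function.update (MvPolynomial.X : ι → MvPolynomial ι ℂ) i (MvPolynomial.C v) n := by
      simp [sub1]
    have : p * MvPolynomial.X n - sub1 i v p * sub1 i v (MvPolynomial.X n) =
        (p - sub1 i v p) * sub1 i v (MvPolynomial.X n) +
          p * (MvPolynomial.X n - sub1 i v (MvPolynomial.X n)) := by ring
    rw [this]
    refine dvd_add (Dvd.dvd.mul_right hp _) (Dvd.dvd.mul_left ?_ _)
    rw [hX]
    by_cases hn : n = i
    · subst hn
      simp
    · rw [Function.update_of_ne hn, sub_self]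
      exact dvd_zero _

theorem wc_exists_residual {ι : Type} [DecidableEq ι] (i : ι) (v : ℂ) (F : MvPolynomial ι ℂ)
    (h : sub1 i v F = 0) :
    ∃ F', F = (MvPolynomial.X i - MvPolynomial.C v) * F' := by
  have := wc_dvd_sub_sub1 i v F
  rw [h, sub_zero] at this
  exact this

end Pool.Agent.H18.Cub

end

section

/-!
# Module BridgeP: general simple points; replacing forced simple points by free ones
-/

namespace Pool.Agent.H18.Cub

open Finset Pool.Agent.H18.Ex

variable {ι Λ : Type} [Fintype ι] [DecidableEq ι]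

/-- The evaluation functional at a point. -/
noncomputable def evlP {ι : Type} (q : ι → ℂ) : MvPolynomial ι ℂ →ₗ[ℂ] ℂ :=
  (MvPolynomial.aeval q : MvPolynomial ι ℂ →ₐ[ℂ] ℂ).toLinearMap

omit [Fintype ι] [DecidableEq ι] in
theorem evlP_apply (q : ι → ℂ) (F : MvPolynomial ι ℂ) : evlP q F = MvPolynomial.eval q F := by
  unfold evlP
  rw [AlgHom.toLinearMap_apply, MvPolynomial.aeval_eq_eval]

omit [Fintype ι] [DecidableEq ι] in
/-- `s` general points kill a space of polynomials of dimension at most `s` (compare `kill` in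
`Pool.Agent.H18.Ex.Kill`). -/
theorem killP (s : ℕ) (W : Submodule ℂ (MvPolynomial ι ℂ)) [FiniteDimensional ℂ W]
    (h : Module.finrank ℂ W ≤ s) :
    ∃ q : Fin s → ι → ℂ, ∀ F ∈ W, (∀ j, MvPolynomial.eval (q j) F = 0) → F = 0 := by
  induction s generalizing W with
  | zero =>
    refine ⟨fun _ _ => 0, fun f hf _ => ?_⟩
    have h1 : W = ⊥ := Submodule.finrank_eq_zero.1 (Nat.le_zero.1 h)
    rw [h1] at hf
    exact (Submodule.mem_bot ℂ).1 hf
  | succ s ih =>
    by_cases hW : W = ⊥
    · refine ⟨fun _ _ => 0, fun f hf _ => ?_⟩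
      rw [hW] at hf
      exact (Submodule.mem_bot ℂ).1 hf
    · obtain ⟨f0, hf0, hf0n⟩ := Submodule.exists_mem_ne_zero_of_ne_bot hW
      obtain ⟨q0, hq0⟩ : ∃ q0 : ι → ℂ, MvPolynomial.eval q0 f0 ≠ 0 := by
        by_contra hcon
        push Not at hcon
        exact hf0n (MvPolynomial.funext fun q => by rw [hcon q, map_zero])
      have hlt : W ⊓ LinearMap.ker (evlP q0) < W := by
        refine lt_of_le_of_ne inf_le_left fun heq => ?_
        have h1 : f0 ∈ W ⊓ LinearMap.ker (evlP q0) := by
          rw [heq]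
          exact hf0
        have h2 := LinearMap.mem_ker.1 (Submodule.mem_inf.1 h1).2
        rw [evlP_apply] at h2
        exact hq0 h2
      have h2 := Submodule.finrank_lt_finrank_of_lt hlt
      obtain ⟨q, hq⟩ := ih (W ⊓ LinearMap.ker (evlP q0)) (by omega)
      refine ⟨Fin.cons q0 q, fun f hf hall => ?_⟩
      apply hq f
      · rw [Submodule.mem_inf, LinearMap.mem_ker, evlP_apply]
        refine ⟨hf, ?_⟩
        have h3 := hall 0
        rwa [Fin.cons_zero] at h3
      · intro j
        have h3 := hall j.succ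
        rwa [Fin.cons_succ] at h3

/-- The space of the polynomials satisfying the conditions. -/
noncomputable def solP {κ : Type} (g : Lines Λ ι) (W : Submodule ℂ (MvPolynomial ι ℂ))
    (k : κ → Kind Λ) (pos : κ → ι → ℂ) : Submodule ℂ (MvPolynomial ι ℂ) where
  carrier := {F | F ∈ W ∧ ∀ i, SatP g F (k i) (pos i)}
  zero_mem' := ⟨W.zero_mem, fun _ _ _ => tay_zero _ _⟩
  add_mem' := by
    rintro F G ⟨hF, hF'⟩ ⟨hG, hG'⟩
    refine ⟨W.add_mem hF hG, fun i b hb => ?_⟩
    rw [tay_add, hF' i b hb, hG' i b hb, add_zero]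
  smul_mem' := by
    rintro c F ⟨hF, hF'⟩
    refine ⟨W.smul_mem c hF, fun i b hb => ?_⟩
    rw [tay_smul, hF' i b hb, mul_zero]

theorem mem_solP {κ : Type} {g : Lines Λ ι} {W : Submodule ℂ (MvPolynomial ι ℂ)}
    {k : κ → Kind Λ} {pos : κ → ι → ℂ} {F : MvPolynomial ι ℂ} :
    F ∈ solP g W k pos ↔ F ∈ W ∧ ∀ i, SatP g F (k i) (pos i) := Iff.rfl

theorem solP_le {κ : Type} (g : Lines Λ ι) (W : Submodule ℂ (MvPolynomial ι ℂ))
    (k : κ → Kind Λ) (pos : κ → ι → ℂ) : solP g W k pos ≤ W := fun _ hF => hF.1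

/-- General positions for the bridge. -/
theorem bridge_positionsP {κ : Type} [Fintype κ] (g : Lines Λ ι) (l : Λ)
    (W W' : Submodule ℂ (MvPolynomial ι ℂ)) [FiniteDimensional ℂ W] [FiniteDimensional ℂ W']
    (k : κ → Kind Λ) (k' : κ → Kind Λ) (s : ℕ)
    (h1 : GIP g W (Sum.elim k fun _ : Fin s => Kind.free 1))
    (h2 : GIP g W' k') :
    ∃ (pos : κ → ι → ℂ) (pos' : Fin s → ι → ℂ),
      InjP g W (Sum.elim k fun _ : Fin s => Kind.free 1) (Sum.elim pos pos') ∧
      InjP g W' k' pos ∧ ∀ i, pos i (g.co l) ≠ g.va l := by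
  obtain ⟨G1, hG1, hG1'⟩ := h1.general
  obtain ⟨G2, hG2, hG2'⟩ := h2.general
  set φ : κ × ι → (κ ⊕ Fin s) × ι := fun x => (Sum.inl x.1, x.2) with hφ
  have hφi : Function.Injective φ := by
    rintro ⟨a, b⟩ ⟨c, d⟩ h
    simp only [hφ, Prod.mk.injEq, Sum.inl.injEq] at h
    exact Prod.ext h.1 h.2
  have h3 : G1 * MvPolynomial.rename φ G2 * ∏ i : κ,
      (MvPolynomial.X ((Sum.inl i : κ ⊕ Fin s), g.co l) - MvPolynomial.C (g.va l)) ≠ 0 := by
    refine mul_ne_zero (mul_ne_zero hG1 ?_) ?_
    · intro h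
      apply hG2
      apply MvPolynomial.rename_injective φ hφi
      rw [h, map_zero]
    · refine Finset.prod_ne_zero_iff.2 fun x _ h => ?_
      have h4 := congrArg (MvPolynomial.eval fun _ => g.va l + 1) h
      rw [map_sub, MvPolynomial.eval_X, MvPolynomial.eval_C, map_zero, add_sub_cancel_left] at h4
      exact one_ne_zero h4
  obtain ⟨z, hz⟩ : ∃ z : (κ ⊕ Fin s) × ι → ℂ,
      MvPolynomial.eval z (G1 * MvPolynomial.rename φ G2 * ∏ i : κ,
        (MvPolynomial.X ((Sum.inl i : κ ⊕ Fin s), g.co l) - MvPolynomial.C (g.va l))) ≠ 0 := by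
    by_contra hcon
    push Not at hcon
    apply h3
    apply MvPolynomial.funext
    intro z
    rw [hcon z, map_zero]
  rw [map_mul, map_mul, map_prod, MvPolynomial.eval_rename] at hz
  have hz1 := left_ne_zero_of_mul (left_ne_zero_of_mul hz)
  have hz2 := right_ne_zero_of_mul (left_ne_zero_of_mul hz)
  have hz3 := right_ne_zero_of_mul hz
  refine ⟨fun i j => z (Sum.inl i, j), fun i j => z (Sum.inr i, j), ?_, ?_, ?_⟩
  · apply hG1'
    have h4 : (fun x : (κ ⊕ Fin s) × ι =>
        (Sum.elim (fun i j => z (Sum.inl i, j)) (fun i j => z (Sum.inr i, j)) :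
          κ ⊕ Fin s → ι → ℂ) x.1 x.2) = z := by
      funext x
      rcases x with ⟨x | x, y⟩ <;> rfl
    rw [h4]
    exact hz1
  · apply hG2'
    exact hz2
  · intro i h
    have h5 := Finset.prod_ne_zero_iff.1 hz3 i (Finset.mem_univ _)
    apply h5
    have h6 : z (Sum.inl i, g.co l) = g.va l := h
    rw [map_sub, MvPolynomial.eval_X, MvPolynomial.eval_C, h6, sub_self]

/-- Bridging (compare `bridge` in `Pool.Agent.H18.Ex.Bridge`). -/
theorem bridgeP {κ : Type} [Fintype κ] (g : Lines Λ ι) (l : Λ) (hg : g.Sep l)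
    (W W' : Submodule ℂ (MvPolynomial ι ℂ)) [FiniteDimensional ℂ W] [FiniteDimensional ℂ W']
    (hW : ResW g l W W') [DecidableEq Λ] (k : κ → Kind Λ) (s : ℕ)
    (h1 : GIP g W (Sum.elim k fun _ : Fin s => Kind.free 1))
    (h2 : GIP g W' fun i => (k i).dn l) :
    GIP g W (Sum.elim k fun _ : Fin s => Kind.forced l 1 1) := by
  obtain ⟨pos, pos', hp1, hp2, hp3⟩ := bridge_positionsP g l W W' k _ s h1 h2
  -- the solution space has dimension at most `s`
  set V := solP g W k pos with hV
  have hVfin : FiniteDimensional ℂ V := Submodule.finiteDimensional_of_le (solP_le g W k pos)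
  have hVs : Module.finrank ℂ V ≤ s := by
    let T : V →ₗ[ℂ] (Fin s → ℂ) :=
      (LinearMap.pi fun j => evlP (pos' j)).comp V.subtype
    have hT : Function.Injective T := by
      rw [← LinearMap.ker_eq_bot, LinearMap.ker_eq_bot']
      intro f hf
      apply Subtype.ext
      obtain ⟨hfW, hfk⟩ := mem_solP.1 f.2
      apply hp1 _ hfW
      rintro (i | j)
      · exact hfk i
      · intro b hb
        have hb' : ∑ i, b i < 1 := hb
        have hb0 : b = 0 := by
          funext i
          have h4 : b i ≤ ∑ i, b i := Finset.single_le_sum (fun _ _ => Nat.zero_le _)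
            (Finset.mem_univ i)
          change b i = 0
          omega
        subst hb0
        change tay (f : MvPolynomial ι ℂ) (pos' j) 0 = 0
        rw [tay_zero_right, ← evlP_apply]
        exact congrFun hf j
    have h6 := LinearMap.finrank_le_finrank_of_injective hT
    rwa [Module.finrank_fin_fun] at h6
  -- restriction to the hyperplane
  obtain ⟨q, hq⟩ := killP s (V.map (lay g l).toLinearMap)
    ((Submodule.finrank_map_le (lay g l).toLinearMap V).trans hVs)
  refine ⟨Sum.elim pos q, fun F hFW hF => ?_⟩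
  have hFk : ∀ i, SatP g F (k i) (pos i) := fun i => hF (Sum.inl i)
  -- the restriction vanishes
  have h0 : lay g l F = 0 := by
    apply hq
    · exact Submodule.mem_map_of_mem (f := (lay g l).toLinearMap) (mem_solP.2 ⟨hFW, hFk⟩)
    · intro j
      have h8 := hF (Sum.inr j) 0 (by
        change ∑ i, (0 : ι → ℕ) i < 1 ∧ (0 : ι → ℕ) (g.co l) + 1 ≤ 1
        constructor
        · simp
        · simp)
      change tay F (Function.update (q j) (g.co l) (g.va l)) 0 = 0 at h8
      rw [← tay_zero_right]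
      unfold lay
      rw [tay_sub1, if_pos (show (0 : ι → ℕ) (g.co l) = 0 from rfl)]
      exact h8
  obtain ⟨F', hF'W, hF'⟩ := hW F hFW h0
  have h9 : F' = 0 := by
    apply hp2 F' hF'W
    intro i
    have h10 := hFk i
    rw [hF'] at h10
    change SatP g F' (Kind.dn l (k i)) (pos i)
    cases hki : k i with
    | free m =>
      rw [hki] at h10
      exact satP_resid_of_notAt g l hg F' (Kind.free m) trivial (pos i) (hp3 i) h10
    | forced l' c e =>
      rw [hki] at h10
      change SatP g F' (if l' = l then Kind.forced l' (c - 1) e else Kind.forced l' c e) (pos i)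
      split_ifs with hl
      · subst hl
        exact satP_resid_forced g l' F' c e (pos i) h10
      · exact satP_resid_of_notAt g l hg F' (Kind.forced l' c e) hl (pos i) (hp3 i) h10
  rw [hF', h9, mul_zero]

end Pool.Agent.H18.Cub

end

section

/-!
# Module Multi: the geometric lemmas for multisets of conditions

Useful: `Fin.univ_val_map`, `List.ofFn_get`, `Equiv.ofFiberEquiv`, `Multiset.count_map`,
`Multiset.map_univ_val_equiv`.
-/

namespace Pool.Agent.H18.Ex

open Finset

variable {ι : Type} [Fintype ι] [DecidableEq ι]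

/-- Two families with the same multiset of values differ by a bijection of the index types
(`Equiv.ofFiberEquiv`, the fibres have the same cardinality by `Multiset.count_map`). -/
theorem exists_equiv_of_map_eq {κ κ' X : Type} [Fintype κ] [Fintype κ'] (k : κ → X) (k' : κ' → X)
    (h : (univ : Finset κ).val.map k = (univ : Finset κ').val.map k') :
    ∃ e : κ ≃ κ', ∀ i, k i = k' (e i) := by
  classical
  have hc : ∀ x : X, Nonempty ({a // k a = x} ≃ {b // k' b = x}) := by
    intro x
    rw [← Fintype.card_eq, Fintype.card_subtype, Fintype.card_subtype]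
    have h1 := congrArg (Multiset.count x) h
    rw [Multiset.count_map, Multiset.count_map] at h1
    rw [Finset.card_def, Finset.card_def, Finset.filter_val, Finset.filter_val]
    simpa only [eq_comm] using h1
  refine ⟨Equiv.ofFiberEquiv fun x => (hc x).some, fun i => ?_⟩
  exact (Equiv.ofFiberEquiv_map (fun x => (hc x).some) i).symm

theorem GI.of_comp {κ κ' : Type} {A : Finset (ι → ℕ)} {k' : κ' → Kind ι} (e : κ → κ')
    (he : Function.Injective e) (h : GI A fun i => k' (e i)) : GI A k' := by
  classical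
  obtain ⟨pos, hpos⟩ := h
  refine ⟨fun j => if hj : ∃ i, e i = j then pos hj.choose else fun _ => 0, fun f hf => ?_⟩
  refine hpos f fun i => ?_
  have h1 := hf (e i)
  have h2 : ∃ i', e i' = e i := ⟨i, rfl⟩
  have h3 : h2.choose = i := he h2.choose_spec
  have h4 : (fun j => if hj : ∃ i, e i = j then pos hj.choose else fun _ => 0) (e i) = pos i := by
    show (if hj : ∃ i', e i' = e i then pos hj.choose else fun _ => 0) = pos i
    rw [dif_pos h2, h3]
  rw [h4] at h1
  exact h1

/-- `GM` does not depend on the presentation of the multiset. -/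
theorem GM_iff {κ : Type} [Fintype κ] (A : Finset (ι → ℕ)) (k : κ → Kind ι) :
    GM A ((univ : Finset κ).val.map k) ↔ GI A k := by
  constructor
  · rintro ⟨n, k0, hk0, hG⟩
    obtain ⟨e, he⟩ := exists_equiv_of_map_eq k0 k hk0
    refine GI.of_comp e e.injective ?_
    have : (fun i => k (e i)) = k0 := funext fun i => (he i).symm
    rw [this]
    exact hG
  · intro hG
    refine ⟨Fintype.card κ, fun i => k ((Fintype.equivFin κ).symm i), ?_, ?_⟩
    · have h1 := Multiset.map_univ_val_equiv (Fintype.equivFin κ).symm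
      rw [← h1, Multiset.map_map]
      rfl
    · refine GI.of_comp (Fintype.equivFin κ) (Fintype.equivFin κ).injective ?_
      simpa using hG

theorem multi_exists_fin {X : Type} (T : Multiset X) :
    ∃ (m : ℕ) (t : Fin m → X), (univ : Finset (Fin m)).val.map t = T := by
  induction T using Quotient.inductionOn with
  | h L =>
    refine ⟨L.length, L.get, ?_⟩
    rw [Fin.univ_val_map, List.ofFn_get]
    rfl

theorem multi_map_sum {κ κ' X : Type} [Fintype κ] [Fintype κ'] (k : κ → X) (k' : κ' → X) :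
    (univ : Finset (κ ⊕ κ')).val.map (Sum.elim k k')
      = (univ : Finset κ).val.map k + (univ : Finset κ').val.map k' := by
  rw [← Finset.univ_disjSum_univ, Finset.val_disjSum, Multiset.disjSum, Multiset.map_add,
    Multiset.map_map, Multiset.map_map]
  rfl

theorem GM.mono {A : Finset (ι → ℕ)} {S S' : Multiset (Kind ι)} (h : S ≤ S') (hS : GM A S) :
    GM A S' := by
  obtain ⟨T, rfl⟩ := Multiset.le_iff_exists_add.1 h
  obtain ⟨n, k, rfl, hG⟩ := hS
  obtain ⟨m, t, rfl⟩ := multi_exists_fin T
  rw [← multi_map_sum, GM_iff]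
  exact GI.of_comp Sum.inl Sum.inl_injective hG

theorem GM.of_card (A : Finset (ι → ℕ)) (T : Multiset ℕ) (S : Multiset (Kind ι))
    (hT : ∀ m ∈ T, 1 ≤ m) (h : A.card ≤ T.card) : GM A (T.map Kind.free + S) := by
  refine GM.mono (Multiset.le_add_right _ _) ?_
  obtain ⟨m, t, rfl⟩ := multi_exists_fin T
  rw [Multiset.map_map, GM_iff]
  rw [Multiset.card_map, Finset.card_val, Finset.card_univ, Fintype.card_fin] at h
  refine GI.of_card A _ (Fin.castLEEmb h) fun j => ⟨t (Fin.castLEEmb h j), hT _ ?_, rfl⟩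
  exact Multiset.mem_map.2 ⟨_, (by rw [Finset.mem_val]; exact Finset.mem_univ _), rfl⟩

theorem GM.step (A A' : Finset (ι → ℕ)) (l : ι)
    (hA : ∀ a, a ∈ A' ↔ Function.update a l (a l + 1) ∈ A) (μ : ℕ) (hμ : 1 ≤ μ)
    (S : Multiset (Role ι)) (hS : ∀ k, Role.stay k ∈ S → k.NotAt l)
    (h0 : GM (A.filter fun a => a l = 0) (S.map fun r => Kind.free r.layer))
    (h1 : GM A' (S.map (Role.after l μ))) : GM A (S.map (Role.before l μ)) := by
  obtain ⟨m, ρ, rfl⟩ := multi_exists_fin S
  rw [Multiset.map_map, GM_iff] at h0 h1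
  rw [Multiset.map_map, GM_iff]
  refine Pool.Agent.H18.Ex.step A A' l hA μ hμ ρ (fun i k hik => ?_) h0 h1
  exact hS k (Multiset.mem_map.2 ⟨i, (by rw [Finset.mem_val]; exact Finset.mem_univ _), hik⟩)

theorem GM.bridge (A A' : Finset (ι → ℕ)) (l : ι)
    (hA : ∀ a, a ∈ A' ↔ Function.update a l (a l + 1) ∈ A) (S : Multiset (Kind ι)) (s : ℕ)
    (h1 : GM A (S + Multiset.replicate s (Kind.free 1)))
    (h2 : GM A' (S.map (Kind.dn l))) :
    GM A (S + Multiset.replicate s (Kind.forced l 1 1)) := by
  obtain ⟨m, k, rfl⟩ := multi_exists_fin S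
  have hr : ∀ x : Kind ι, Multiset.replicate s x
      = (univ : Finset (Fin s)).val.map (fun _ => x) := by
    intro x
    rw [Multiset.map_const', Finset.card_val, Finset.card_univ, Fintype.card_fin]
  rw [hr, ← multi_map_sum, GM_iff] at h1
  rw [hr, ← multi_map_sum, GM_iff]
  rw [Multiset.map_map, GM_iff] at h2
  exact Pool.Agent.H18.Ex.bridge A A' l hA k s h1 h2

end Pool.Agent.H18.Ex

end

section

/-!
# Module Space (PR): traces and residuals of the spaces `WW`

Compare with `Pool.Agent.H18.Cub.WC` (the case of two variables).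
-/

namespace Pool.Agent.H18.Pr

open Finset Pool.Agent.H18.Ex Pool.Agent.H18.Cub

variable {R : ℕ}

/-- The inverse of `Th` on the variables. -/
noncomputable def spaceInv (e : ℕ) (v u : Fin (R + 1)) (p : ℂ) :
    ℕ → MvPolynomial (Fin (R + 1)) ℂ
  | 0 => if v.val = 0 then MvPolynomial.X (Fin.ofNat (R + 1) 0) + MvPolynomial.C p
      else MvPolynomial.X (Fin.ofNat (R + 1) 0)
  | k + 1 => if v.val = k + 1 then MvPolynomial.X (Fin.ofNat (R + 1) (k + 1)) + MvPolynomial.C p
      else if v.val < k + 1 ∧ k + 1 ≤ u.val then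
        MvPolynomial.X (Fin.ofNat (R + 1) (k + 1)) + spaceInv e v u p k ^ e
      else MvPolynomial.X (Fin.ofNat (R + 1) (k + 1))

theorem space_ofNat (i : Fin (R + 1)) : Fin.ofNat (R + 1) i.val = i := by
  apply Fin.ext
  simp [Fin.ofNat, Nat.mod_eq_of_lt i.isLt]

theorem space_degreeOf_zero (i : Fin (R + 1)) (F : MvPolynomial (Fin (R + 1)) ℂ) :
    F.degreeOf i = 0 ↔ i ∉ F.vars := by
  rw [← Nat.le_zero, MvPolynomial.degreeOf_le_iff, MvPolynomial.mem_vars_iff_mem_support]
  constructor
  · rintro h ⟨d, hd, hi⟩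
    exact (Finsupp.mem_support_iff.1 hi) (Nat.le_zero.1 (h d hd))
  · intro h d hd
    by_contra hc
    exact h ⟨d, hd, Finsupp.mem_support_iff.2 fun h0 => hc (by rw [h0])⟩

/-- A polynomial of degree zero in `x_i` keeps this after substituting a constant. -/
theorem space_degreeOf_sub1 (i j : Fin (R + 1)) (c : ℂ) (F : MvPolynomial (Fin (R + 1)) ℂ)
    (h : i ≠ j → F.degreeOf i = 0) : (sub1 j c F).degreeOf i = 0 := by
  rw [space_degreeOf_zero]
  intro hi
  have h1 : sub1 j c F = MvPolynomial.bind₁ (Function.update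
    (MvPolynomial.X : Fin (R + 1) → MvPolynomial (Fin (R + 1)) ℂ) j (MvPolynomial.C c)) F := rfl
  rw [h1] at hi
  have h2 := MvPolynomial.vars_bind₁ _ _ hi
  rw [mem_biUnion] at h2
  obtain ⟨k, hk, hik⟩ := h2
  by_cases hkj : k = j
  · subst hkj
    rw [Function.update_self, MvPolynomial.vars_C] at hik
    exact absurd hik (notMem_empty _)
  · rw [Function.update_of_ne hkj, MvPolynomial.vars_X, mem_singleton] at hik
    subst hik
    exact (space_degreeOf_zero i F).1 (h hkj) hk

/-- The residual has no new variables. -/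
theorem space_degreeOf_resid (i j : Fin (R + 1)) (c : ℂ) (F : MvPolynomial (Fin (R + 1)) ℂ)
    (h : ((MvPolynomial.X j - MvPolynomial.C c) * F).degreeOf i = 0) : F.degreeOf i = 0 := by
  by_cases hF : F = 0
  · rw [hF]
    exact MvPolynomial.degreeOf_zero i
  · have hL : (MvPolynomial.X j - MvPolynomial.C c : MvPolynomial (Fin (R + 1)) ℂ) ≠ 0 := by
      intro hL
      have hc : MvPolynomial.coeff (Finsupp.single j 1)
          (MvPolynomial.X j - MvPolynomial.C c : MvPolynomial (Fin (R + 1)) ℂ) = 1 := by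
        rw [MvPolynomial.coeff_sub, MvPolynomial.coeff_X, MvPolynomial.coeff_C]
        have hne : (0 : Fin (R + 1) →₀ ℕ) ≠ Finsupp.single j 1 := by
          intro hs
          have := congrArg (fun f => f j) hs
          simp at this
        rw [if_neg hne, sub_zero]
        simp
      rw [hL, MvPolynomial.coeff_zero] at hc
      norm_num at hc
    rw [MvPolynomial.degreeOf_mul_eq hL hF] at h
    omega

theorem space_sum_update (j : Fin (R + 1)) (β : Fin (R + 1) → ℕ) :
    ∑ i, Function.update β j (β j + 1) i = ∑ i, β i + 1 := by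
  rw [sum_update_of_mem (mem_univ j), ← add_sum_erase univ β (mem_univ j),
    sdiff_singleton_eq_erase]
  omega

theorem space_sub1_X (j : Fin (R + 1)) (c : ℂ) (i : Fin (R + 1)) :
    sub1 j c (MvPolynomial.X i) = if i = j then MvPolynomial.C c else MvPolynomial.X i := by
  rw [sub1, MvPolynomial.aeval_X]
  by_cases h : i = j
  · subst h
    rw [Function.update_self, if_pos rfl]
  · rw [Function.update_of_ne h, if_neg h]

end Pool.Agent.H18.Pr

end
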