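import Pool.Agent.H94.LP1.M11
import Pool.Agent.H94.LP1.M13
import Pool.Agent.H94.LP1.M14

/-! The parts of this file: H18.Cub.Desc, H18.Pr.NumSlow, H18.Pr.NumFM, H18.Pr.OneD, H18.Pr.AsmM, H18.Pr.AsmV. -/

section

/-!
# Module Desc: Descartes' rule and the exponents on the curve `y = x^e`

Descartes' rule: a nonzero real polynomial with `n` nonzero coefficients has at most `n - 1`
positive roots, counted with multiplicity.
-/

namespace Pool.Agent.H18.Cub

open Finset

private theorem desc_signVar (n : ℕ) : ∀ P : Polynomial ℝ, P ≠ 0 → P.support.card = n →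
    P.signVariations + 1 ≤ n := by
  induction n with
  | zero =>
    intro P hP h
    exact absurd (Polynomial.support_eq_empty.mp (Finset.card_eq_zero.mp h)) hP
  | succ n ih =>
    intro P hP h
    have h1 : P.eraseLead.support.card + 1 = P.support.card :=
      Polynomial.card_support_eraseLead_add_one hP
    by_cases h2 : P.eraseLead = 0
    · have h3 : P = Polynomial.monomial P.natDegree P.leadingCoeff := by
        have := Polynomial.eraseLead_add_monomial_natDegree_leadingCoeff P
        rw [h2, zero_add] at this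
        exact this.symm
      rw [h3, Polynomial.signVariations_monomial]
      omega
    · have h3 := ih P.eraseLead h2 (by omega)
      have h4 := Polynomial.signVariations_le_eraseLead_succ P
      omega

/-- Descartes' rule for real polynomials (`Polynomial.roots_countP_pos_le_signVariations`,
`Polynomial.signVariations_le_eraseLead_succ`, induction on the number of terms with `eraseLead`). -/
theorem descartes_real (P : Polynomial ℝ) (hP : P ≠ 0) :
    P.roots.countP (0 < ·) + 1 ≤ P.support.card := by
  have h1 := Polynomial.roots_countP_pos_le_signVariations P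
  have h2 := desc_signVar P.support.card P hP rfl
  omega

/-- The real polynomial whose coefficients are the images of those of `P` under `φ`. -/
private noncomputable def descMap (φ : ℂ →ₗ[ℝ] ℝ) (P : Polynomial ℂ) : Polynomial ℝ :=
  ∑ n ∈ P.support, Polynomial.monomial n (φ (P.coeff n))

private theorem descMap_coeff (φ : ℂ →ₗ[ℝ] ℝ) (P : Polynomial ℂ) (n : ℕ) :
    (descMap φ P).coeff n = φ (P.coeff n) := by
  unfold descMap
  rw [Polynomial.finsetSum_coeff]
  simp only [Polynomial.coeff_monomial]
  rw [Finset.sum_ite_eq' P.support n]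
  split_ifs with h
  · rfl
  · rw [Polynomial.notMem_support_iff.mp h, map_zero]

private theorem descMap_mul (φ : ℂ →ₗ[ℝ] ℝ) (r : Polynomial ℝ) (S : Polynomial ℂ) :
    descMap φ (r.map (algebraMap ℝ ℂ) * S) = r * descMap φ S := by
  ext n
  rw [descMap_coeff, Polynomial.coeff_mul, Polynomial.coeff_mul, map_sum]
  refine Finset.sum_congr rfl fun a _ => ?_
  rw [Polynomial.coeff_map, descMap_coeff, ← Algebra.smul_def, map_smul, smul_eq_mul]

private theorem desc_zero {κ : Type} [Fintype κ] (A : Polynomial ℝ) (x : κ → ℝ)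
    (hx : Function.Injective x) (hpos : ∀ i, 0 < x i) (m : κ → ℕ)
    (hm : ∀ i, (Polynomial.X - Polynomial.C (x i)) ^ m i ∣ A)
    (hcard : A.support.card ≤ ∑ i, m i) : A = 0 := by
  classical
  by_contra hA
  have h1 := descartes_real A hA
  have h2 : ∑ i, m i ≤ A.roots.countP (0 < ·) := by
    rw [Multiset.countP_eq_card_filter,
      ← Multiset.sum_count_eq_card (s := (A.roots.filter (0 < ·)).toFinset ∪ univ.image x)
        (fun a ha => Finset.mem_union_left _ (Multiset.mem_toFinset.mpr ha))]
    calc ∑ i, m i ≤ ∑ i, (A.roots.filter (0 < ·)).count (x i) := by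
          refine Finset.sum_le_sum fun i _ => ?_
          rw [Multiset.count_filter_of_pos (hpos i), Polynomial.count_roots,
            Polynomial.le_rootMultiplicity_iff hA]
          exact hm i
      _ = ∑ a ∈ univ.image x, (A.roots.filter (0 < ·)).count a := by
          rw [Finset.sum_image fun a _ b _ h => hx h]
      _ ≤ _ := Finset.sum_le_sum_of_subset Finset.subset_union_right
  omega

/-- A complex polynomial with few terms vanishing at positive real points is zero.  Proof: real and
imaginary parts (real polynomials with at most as many terms), each divisible by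
`(X - x i)^(m i)`, hence (distinct points) having at least `∑ m i` positive roots. -/
theorem descartes_complex {κ : Type} [Fintype κ] (P : Polynomial ℂ) (x : κ → ℝ)
    (hx : Function.Injective x) (hpos : ∀ i, 0 < x i) (m : κ → ℕ)
    (hm : ∀ i, (Polynomial.X - Polynomial.C (x i : ℂ)) ^ m i ∣ P)
    (hcard : P.support.card ≤ ∑ i, m i) : P = 0 := by
  have key : ∀ φ : ℂ →ₗ[ℝ] ℝ, descMap φ P = 0 := by
    intro φ
    refine desc_zero _ x hx hpos m ?_ ?_
    · intro i
      obtain ⟨S, hS⟩ := hm i
      have h1 : (Polynomial.X - Polynomial.C (x i : ℂ)) ^ m i =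
          ((Polynomial.X - Polynomial.C (x i)) ^ m i).map (algebraMap ℝ ℂ) := by
        simp
      rw [hS, h1, descMap_mul]
      exact Dvd.intro _ rfl
    · refine le_trans (Finset.card_le_card ?_) hcard
      intro n hn
      rw [Polynomial.mem_support_iff, descMap_coeff] at hn
      rw [Polynomial.mem_support_iff]
      intro h
      exact hn (by rw [h, map_zero])
  ext n
  have h1 := congrArg (fun A => A.coeff n) (key Complex.reLm)
  have h2 := congrArg (fun A => A.coeff n) (key Complex.imLm)
  simp only [descMap_coeff, Polynomial.coeff_zero, Complex.reLm_coe, Complex.imLm_coe] at h1 h2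
  rw [Polynomial.coeff_zero]
  exact Complex.ext h1 h2

end Pool.Agent.H18.Cub

end

section

/-!
# Module NumSlow (PR): slow variation of the virtual dimensions
-/

namespace Pool.Agent.H18.Pr

open Finset Pool.Agent.H18.Ex Pool.Agent.H18.Cub

variable {R t s : ℕ}

/-- Positivity (all dimensions).  Induction on `j`, then on `a none`: `RM_zero_pos`,
`RM_pos_of_none`, `RM_diff_none`, `Mg.none`. -/
theorem RM_pos (ht : 1 ≤ t) (hR : 1 ≤ R) (hts : t + s = (t + 1) ^ (R + 1)) (j : ℕ) (hj : j ≤ R)
    {n : Fin t ⊕ Fin s → ℕ} {a : Option (Fin t) → ℕ} (h : a none = 0 ∨ Mg R 1 n a) :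
    1 ≤ RM R j n a := by
  induction j generalizing a with
  | zero =>
    rcases Nat.eq_zero_or_pos (a none) with h0 | h0
    · exact RM_pos_of_none 0 h0
    · rcases h with h | h
      · omega
      · exact RM_zero_pos ht hR hts h h0
  | succ j ih =>
    obtain ⟨c, hc⟩ : ∃ c, a none = c := ⟨_, rfl⟩
    induction c generalizing a with
    | zero => exact RM_pos_of_none (j + 1) hc
    | succ c ihc =>
      have hM : Mg R 1 n a := by
        rcases h with h | h
        · omega
        · exact h
      have h1 := RM_diff_none (j + 1) (by omega) hj n a (by omega)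
      have h2 : 1 ≤ RM R (j + 1 - 1) n a := ih (by omega) (Or.inr hM)
      have h3 : 1 ≤ RM R (j + 1) n (dn none a) := by
        have h4 : (dn none a) none = c := by
          unfold dn
          rw [Function.update_self]
          omega
        apply ihc
        · rcases Nat.eq_zero_or_pos c with h5 | h5
          · exact Or.inl (h4.trans h5)
          · refine Or.inr ?_
            have h6 : dn none a = Function.update a none c := by
              unfold dn
              rw [show a none - 1 = c by omega]
            rw [h6]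
            exact hM.none ht hR hts c h5 (by omega)
        · exact h4
      omega

/-- lowering one coordinate -/
def NumSlow_low (a : Option (Fin t) → ℕ) (i : Option (Fin t)) (v : ℕ) : Option (Fin t) → ℕ :=
  Function.update a i (a i - v)

theorem NumSlow_low_zero (a : Option (Fin t) → ℕ) (i : Option (Fin t)) :
    NumSlow_low a i 0 = a := by
  unfold NumSlow_low
  rw [Nat.sub_zero, Function.update_eq_self]

theorem NumSlow_low_self (a : Option (Fin t) → ℕ) (i : Option (Fin t)) (v : ℕ) :
    NumSlow_low a i v i = a i - v := by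
  unfold NumSlow_low
  rw [Function.update_self]

theorem NumSlow_dn_low (a : Option (Fin t) → ℕ) (i : Option (Fin t)) (v : ℕ) :
    dn i (NumSlow_low a i v) = NumSlow_low a i (v + 1) := by
  unfold dn
  rw [NumSlow_low_self]
  unfold NumSlow_low
  rw [Function.update_idem, Nat.sub_sub]

theorem NumSlow_low_le (a : Option (Fin t) → ℕ) (i : Option (Fin t)) (v : ℕ) (k : Option (Fin t)) :
    NumSlow_low a i v k ≤ a k := by
  unfold NumSlow_low
  rcases eq_or_ne k i with rfl | h
  · rw [Function.update_self]
    omega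
  · rw [Function.update_of_ne h]

theorem NumSlow_mg (ht : 1 ≤ t) (hR : 1 ≤ R) (hts : t + s = (t + 1) ^ (R + 1))
    {n : Fin t ⊕ Fin s → ℕ} {a : Option (Fin t) → ℕ} {D Ta v : ℕ} (h : Mg R D n a) (hTa : Ta ≤ D)
    (hTa' : R * t ≤ Ta) (i : Option (Fin t)) (hi : Ta + v ≤ a i) :
    Mg R Ta n (NumSlow_low a i v) := by
  refine h.reg ht hR hts hTa hTa' ?_
  intro k
  refine ⟨?_, NumSlow_low_le a i v k⟩
  rcases eq_or_ne k i with rfl | hk
  · rw [NumSlow_low_self]
    exact (min_le_right _ _).trans (by omega)
  · unfold NumSlow_low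
    rw [Function.update_of_ne hk]
    exact min_le_left _ _

theorem NumSlow_dd (a : Option (Fin t) → ℕ) (l : Fin t) (v : ℕ) (hv : v ≤ a (some l)) :
    dd (NumSlow_low a (some l) v) + v = dd a := by
  induction v with
  | zero => rw [NumSlow_low_zero, Nat.add_zero]
  | succ v ih =>
    have h1 := ih (by omega)
    have h2 : 1 ≤ NumSlow_low a (some l) v (some l) := by
      rw [NumSlow_low_self]
      omega
    have h3 := dd_dn_some (NumSlow_low a (some l) v) l h2
    rw [NumSlow_dn_low] at h3
    have h4 : 1 ≤ dd (NumSlow_low a (some l) v) := by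
      unfold dd
      have h5 := single_le_sum (f := fun l => NumSlow_low a (some l) v (some l))
        (fun _ _ => Nat.zero_le _) (mem_univ l)
      have h6 : NumSlow_low a (some l) v (some l) ≤
          ∑ l', NumSlow_low a (some l) v (some l') :=
        single_le_sum (f := fun l' => NumSlow_low a (some l) v (some l'))
          (fun _ _ => Nat.zero_le _) (mem_univ l)
      omega
    omega

theorem NumSlow_ell_mono (j : ℕ) {m m' : ℕ} (h : m ≤ m') : ell j m ≤ ell j m' := by
  unfold ell
  exact Nat.choose_le_choose _ (by omega)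

/-- The summation argument. -/
theorem NumSlow_sum (g f : ℕ → ℤ) (T : ℕ) (h1 : ∀ v, v < 2 * T → g v = g (v + 1) + f v)
    (h2 : ∀ v, v < 2 * T → f 0 ≤ 2 * f v) (h3 : 0 ≤ g (2 * T)) : (T : ℤ) * f 0 ≤ g 0 := by
  have h4 : ∀ v : ℕ, v ≤ 2 * T → (v : ℤ) * f 0 ≤ 2 * (g 0 - g v) := by
    intro v
    induction v with
    | zero => intro _; simp
    | succ v ih =>
      intro hv
      have e1 := ih (by omega)
      have e2 := h1 v (by omega)
      have e3 := h2 v (by omega)
      push_cast
      have e4 : ((v : ℤ) + 1) * f 0 = v * f 0 + f 0 := by ring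
      rw [e4]
      linarith only [e1, e2, e3]
  have h5 := h4 (2 * T) le_rfl
  push_cast at h5
  have h6 : (2 : ℤ) * T * f 0 = 2 * (T * f 0) := by ring
  rw [h6] at h5
  linarith

/-- Slow variation.  Induction on `j`.

`j = 0`: `RM_diff_zero` and `RM_zero_lower`.

`j → j + 1`: let `C` be the constant for `j` and take `C' ≥ 4 * C + 2` (and larger than the constants
needed for `tau_slow`).  Let `T ≥ 1`, `Mg R (C' * T) n a`, `C' * T ≤ a i`.  Then
`RM R (j + 1) n a = ∑_{w < 2 T} f (a - w e_i) + RM R (j + 1) n (a - 2 T e_i)`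
where `f = RM R j n` for `i = none` (`RM_diff_none`) and `f a = tau .. (dd a) - ell .. (mu n a (inl l))` for
`i = some l` (`RM_diff_some`).  The last term is nonnegative (`RM_pos`, `Mg.reg`), and
`2 * f (a - w e_i) ≥ f a` for `w ≤ 2 T`: for `i = none` by the case `j` with `4 * T` instead of `T`,
for `i = some l` since `f a - f (a - w e_i) ≤ tau .. (j+1) (dd a) - tau .. (j+1) (dd a - w) ≤
w * tau .. j (dd a)` (`tau_drop`) and `4 * T * tau .. j (dd a) ≤ f a` (`tau_slow`).  Hence
`RM R (j + 1) n a ≥ 2 T * (f a / 2) = T * f a`. -/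
theorem RM_slow (ht : 1 ≤ t) (hR : 1 ≤ R) (hts : t + s = (t + 1) ^ (R + 1)) (j : ℕ)
    (hj : j ≤ R) : ∃ C : ℕ, 1 ≤ C ∧ ∀ T : ℕ, 1 ≤ T → ∀ (n : Fin t ⊕ Fin s → ℕ)
      (a : Option (Fin t) → ℕ), Mg R (C * T) n a → ∀ i, C * T ≤ a i →
      0 ≤ RM R j n a - RM R j n (dn i a) ∧
        (T : ℤ) * (RM R j n a - RM R j n (dn i a)) ≤ RM R j n a := by
  induction j with
  | zero =>
    refine ⟨(t + 1) ^ (R + 1) + R * t * (t + 1) ^ R + (R + 1) * t, ?_, ?_⟩
    · have : 1 ≤ (t + 1) ^ (R + 1) := Nat.one_le_pow _ _ (by omega)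
      omega
    · intro T hT n a hM i hi
      set C := (t + 1) ^ (R + 1) + R * t * (t + 1) ^ R + (R + 1) * t with hC
      have hC1 : 1 ≤ (t + 1) ^ (R + 1) := Nat.one_le_pow _ _ (by omega)
      have hCT : C ≤ C * T := Nat.le_mul_of_pos_right _ hT
      have h1 := RM_diff_zero hts n a i (by omega) (by have := hM.deg; omega)
      refine ⟨h1.1, ?_⟩
      have h2 := RM_zero_lower n a (C * T) hM
      have h3 : (T : ℤ) * (RM R 0 n a - RM R 0 n (dn i a)) ≤ T * (t + 1) ^ (R + 1) :=
        mul_le_mul_of_nonneg_left h1.2 (Int.natCast_nonneg _)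
      have h4 : ((C * T : ℕ) : ℤ) = T * (t + 1) ^ (R + 1) + T * (R * t * (t + 1) ^ R) +
          T * ((R + 1) * t) := by
        rw [hC]
        push_cast
        ring
      rw [h4] at h2
      have h5 : (R : ℤ) * t * (t + 1) ^ R ≤ T * (R * t * (t + 1) ^ R) := by
        have : (0 : ℤ) ≤ R * t * (t + 1) ^ R := by positivity
        have hT' : (1 : ℤ) ≤ T := by exact_mod_cast hT
        nlinarith only [hT, this]
      have h6 : (0 : ℤ) ≤ T * ((R + 1) * t) := by positivity
      linarith only [h2, h3, h5, h6]
  | succ j ih =>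
    obtain ⟨C, hC1, hC⟩ := ih (by omega)
    obtain ⟨C1, hC11, hC1s⟩ := tau_slow (t + 1) (R - (j + 1)) j (by omega)
    refine ⟨4 * C + 4 * C1 + R * t + 3, by omega, ?_⟩
    intro T hT n a hM i hi
    -- the margins of the lowered states
    have hTa : ∀ v, v ≤ 2 * T →
        Mg R ((4 * C + R * t + 1) * T) n (NumSlow_low a i v) := by
      intro v hv
      refine NumSlow_mg ht hR hts hM ?_ ?_ i ?_
      · exact Nat.mul_le_mul_right _ (by omega)
      · calc R * t ≤ 4 * C + R * t + 1 := by omega
          _ ≤ (4 * C + R * t + 1) * T := Nat.le_mul_of_pos_right _ hT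
      · refine le_trans ?_ hi
        have e1 : (4 * C + 4 * C1 + R * t + 3) * T =
          (4 * C + R * t + 1) * T + 2 * T + 4 * C1 * T := by ring
        rw [e1]
        omega
    have hai : ∀ v, v ≤ 2 * T → (4 * C + R * t + 1) * T ≤ NumSlow_low a i v i := by
      intro v hv
      rw [NumSlow_low_self]
      have e1 : (4 * C + 4 * C1 + R * t + 3) * T =
          (4 * C + R * t + 1) * T + 2 * T + 4 * C1 * T := by ring
      rw [e1] at hi
      omega
    have hT1 : 1 ≤ (4 * C + R * t + 1) * T := Nat.mul_pos (by omega) hT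
    have hpos : ∀ v, v ≤ 2 * T → ∀ j' ≤ R, 1 ≤ RM R j' n (NumSlow_low a i v) := by
      intro v hv j' hj'
      exact RM_pos ht hR hts j' hj' (Or.inr ((hTa v hv).le hT1))
    rcases i with _ | l
    · -- direction of the curve
      have hd : ∀ v, v ≤ 2 * T → RM R (j + 1) n (NumSlow_low a none v) =
          RM R (j + 1) n (NumSlow_low a none (v + 1)) + RM R j n (NumSlow_low a none v) := by
        intro v hv
        have e1 := RM_diff_none (j + 1) (by omega) hj n (NumSlow_low a none v)
          (by have := hai v hv; omega)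
        rw [NumSlow_dn_low, Nat.add_sub_cancel] at e1
        exact e1
      -- slow variation of `RM R j`
      have hs : ∀ v, v ≤ 2 * T →
          (4 * T : ℤ) * (RM R j n (NumSlow_low a none 0) - RM R j n (NumSlow_low a none v)) ≤
            v * RM R j n (NumSlow_low a none 0) ∧
          RM R j n (NumSlow_low a none v) ≤ RM R j n (NumSlow_low a none 0) := by
        intro v
        induction v with
        | zero => intro _; simp
        | succ v ihv =>
          intro hv
          obtain ⟨e1, e2⟩ := ihv (by omega)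
          have hm : C * (4 * T) ≤ (4 * C + R * t + 1) * T := by
            have : (4 * C + R * t + 1) * T = C * (4 * T) + (R * t + 1) * T := by ring
            omega
          obtain ⟨e3, e4⟩ := hC (4 * T) (by omega) n (NumSlow_low a none v)
            ((hTa v (by omega)).le hm) none (hm.trans (hai v (by omega)))
          rw [NumSlow_dn_low] at e3 e4
          push_cast at e4
          constructor
          · push_cast
            nlinarith only [e1, e2, e4]
          · linarith only [e2, e3]
      have key := NumSlow_sum (fun v => RM R (j + 1) n (NumSlow_low a none v))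
        (fun v => RM R j n (NumSlow_low a none v)) T (fun v hv => hd v (by omega))
        (by
          intro v hv
          obtain ⟨e1, -⟩ := hs v (by omega)
          have e2 := hpos 0 (by omega) j (by omega)
          have hT' : (1 : ℤ) ≤ T := by exact_mod_cast hT
          have hv' : (v : ℤ) ≤ 2 * T := by
            have : v ≤ 2 * T := by omega
            exact_mod_cast this
          have e3 : (v : ℤ) * RM R j n (NumSlow_low a none 0) ≤
              2 * T * RM R j n (NumSlow_low a none 0) :=
            mul_le_mul_of_nonneg_right hv' (by linarith only [e2])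
          have e4 : (2 * T : ℤ) *
              (2 * (RM R j n (NumSlow_low a none 0) - RM R j n (NumSlow_low a none v))) ≤
              2 * T * RM R j n (NumSlow_low a none 0) := by linarith only [e1, e3]
          have e5 := le_of_mul_le_mul_left e4 (by linarith only [hT])
          linarith only [e5])
        (by have := hpos (2 * T) le_rfl (j + 1) hj; linarith)
      have h0 := hd 0 (by omega)
      have hp0 := hpos 0 (by omega) j (by omega)
      have hdn : dn none a = NumSlow_low a none (0 + 1) := by
        rw [← NumSlow_dn_low, NumSlow_low_zero]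
      rw [hdn]
      rw [NumSlow_low_zero] at key h0 hp0
      constructor
      · linarith only [h0, hp0]
      · have e6 : RM R (j + 1) n a - RM R (j + 1) n (NumSlow_low a none (0 + 1)) =
            RM R j n a := by linarith only [h0]
        rw [e6]
        exact key
    · -- the other directions
      have hla : ∀ v, v ≤ 2 * T → v ≤ a (some l) := by
        intro v hv
        have := hai (2 * T) le_rfl
        rw [NumSlow_low_self] at this
        omega
      set f : ℕ → ℤ := fun v =>
        (tau (t + 1) (R - (j + 1)) (j + 1) (dd (NumSlow_low a (some l) v)) : ℤ) -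
          ell (j + 1) (mu n (NumSlow_low a (some l) v) (.inl l)) with hf
      have hd : ∀ v, v ≤ 2 * T → RM R (j + 1) n (NumSlow_low a (some l) v) =
          RM R (j + 1) n (NumSlow_low a (some l) (v + 1)) + f v := by
        intro v hv
        have e1 := RM_diff_some (R := R) (j + 1) (by omega) n (NumSlow_low a (some l) v) l
          (by have := hai v hv; omega)
        rw [NumSlow_dn_low] at e1
        exact e1
      have hmt : mu n a (.inl l) + C1 * (4 * T) ≤ dd a := by
        have e1 := hM.line l
        have e2 : (4 * C + 4 * C1 + R * t + 3) * T =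
          C1 * (4 * T) + (4 * C + R * t + 3) * T := by ring
        rw [e2] at e1
        omega
      have hslow := hC1s (4 * T) (dd a) (mu n a (.inl l)) (by omega) hmt
      have hslow' : (4 * T : ℤ) * tau (t + 1) (R - (j + 1)) j (dd a) ≤ f 0 := by
        rw [hf]
        dsimp only
        rw [NumSlow_low_zero]
        have : (((4 * T * tau (t + 1) (R - (j + 1)) j (dd a) + ell (j + 1) (mu n a (.inl l)) :
          ℕ)) : ℤ) ≤ (tau (t + 1) (R - (j + 1)) (j + 1) (dd a) : ℕ) := by exact_mod_cast hslow
        push_cast at this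
        linarith only [hslow]
      have hdrop : ∀ v, v ≤ 2 * T →
          f 0 ≤ f v + v * tau (t + 1) (R - (j + 1)) j (dd a) := by
        intro v hv
        have e1 := NumSlow_dd a l v (hla v hv)
        have e2 := tau_drop (t + 1) (R - (j + 1)) j
          (by omega : dd (NumSlow_low a (some l) v) ≤ dd a)
        have e3 : dd a - dd (NumSlow_low a (some l) v) = v := by omega
        rw [e3] at e2
        have e4 : ell (j + 1) (mu n (NumSlow_low a (some l) v) (.inl l)) ≤
            ell (j + 1) (mu n a (.inl l)) :=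
          NumSlow_ell_mono _ (mu_mono (NumSlow_low_le a (some l) v) _)
        rw [hf]
        dsimp only
        rw [NumSlow_low_zero]
        have e5 : ((tau (t + 1) (R - (j + 1)) (j + 1) (dd a) : ℕ) : ℤ) ≤
            ((tau (t + 1) (R - (j + 1)) (j + 1) (dd (NumSlow_low a (some l) v)) +
              v * tau (t + 1) (R - (j + 1)) j (dd a) : ℕ) : ℤ) := by exact_mod_cast e2
        have e6 : ((ell (j + 1) (mu n (NumSlow_low a (some l) v) (.inl l)) : ℕ) : ℤ) ≤
            (ell (j + 1) (mu n a (.inl l)) : ℕ) := by exact_mod_cast e4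
        push_cast at e5
        linarith only [e2, e4]
      have hT' : (1 : ℤ) ≤ T := by exact_mod_cast hT
      have htau : (0 : ℤ) ≤ tau (t + 1) (R - (j + 1)) j (dd a) := Int.natCast_nonneg _
      have hf0 : 0 ≤ f 0 := by
        refine le_trans ?_ hslow'
        positivity
      have key := NumSlow_sum (fun v => RM R (j + 1) n (NumSlow_low a (some l) v)) f T
        (fun v hv => hd v (by omega))
        (by
          intro v hv
          have e1 := hdrop v (by omega)
          have hv' : (v : ℤ) ≤ 2 * T := by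
            have : v ≤ 2 * T := by omega
            exact_mod_cast this
          have e2 : (v : ℤ) * tau (t + 1) (R - (j + 1)) j (dd a) ≤
              2 * T * tau (t + 1) (R - (j + 1)) j (dd a) :=
            mul_le_mul_of_nonneg_right hv' htau
          have e3 : (4 * T : ℤ) * tau (t + 1) (R - (j + 1)) j (dd a) =
            2 * (2 * T * tau (t + 1) (R - (j + 1)) j (dd a)) := by ring
          rw [e3] at hslow'
          linarith only [hslow', e1, e2])
        (by have := hpos (2 * T) le_rfl (j + 1) hj; linarith only [this])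
      have h0 := hd 0 (by omega)
      have hdn : dn (some l) a = NumSlow_low a (some l) (0 + 1) := by
        rw [← NumSlow_dn_low, NumSlow_low_zero]
      rw [hdn]
      rw [NumSlow_low_zero] at key h0
      constructor
      · linarith only [hf0, h0]
      · have e6 : RM R (j + 1) n a - RM R (j + 1) n (NumSlow_low a (some l) (0 + 1)) =
            f 0 := by linarith only [h0]
        rw [e6]
        exact key

end Pool.Agent.H18.Pr

end

section

/-!
# Module NumFM (PR): the sizes of the traces of the main family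
-/

namespace Pool.Agent.H18.Pr

open Finset Pool.Agent.H18.Ex Pool.Agent.H18.Cub

variable {R t s : ℕ}

/-! ### Auxiliary facts -/

private theorem fm_choose_lt (j : ℕ) (hj : 1 ≤ j) (x : ℕ) (hx : j ≤ x + 1) (k : ℕ) :
    x.choose j + k ≤ (x + k).choose j := by
  induction k with
  | zero => simp
  | succ k ih =>
    obtain ⟨i, rfl⟩ : ∃ i, j = i + 1 := ⟨j - 1, by omega⟩
    have h1 : (x + k + 1).choose (i + 1) = (x + k).choose i + (x + k).choose (i + 1) :=
      Nat.choose_succ_succ _ _
    have h2 : 1 ≤ (x + k).choose i := Nat.choose_pos (by omega)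
    have h3 : x + (k + 1) = x + k + 1 := by ring
    rw [h3, h1]
    omega

/-- A point of multiplicity `m ≤ d` leaves at least `d - m + 1` dimensions. -/
private theorem fm_tau_ell (e A j d m D : ℕ) (he : 1 ≤ e) (hj : 1 ≤ j) (h : m + D ≤ d) :
    ell j m + D + 1 ≤ tau e A j d := by
  refine le_trans ?_ (choose_le_tau e A j d he)
  unfold ell
  rcases Nat.eq_zero_or_pos m with rfl | hm
  · have h1 : (0 + j - 1).choose j = 0 := Nat.choose_eq_zero_of_lt (by omega)
    rw [h1]
    have h2 := fm_choose_lt j hj j (by omega) d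
    rw [Nat.choose_self] at h2
    rw [add_comm d j]
    omega
  · have h2 := fm_choose_lt j hj (m + j - 1) (by omega) (d - m + 1)
    have h3 : m + j - 1 + (d - m + 1) = d + j := by omega
    rw [h3] at h2
    omega

/-- Lower bound for the virtual dimensions. -/
private theorem fm_RM_lower (ht : 1 ≤ t) (hR : 1 ≤ R) (hts : t + s = (t + 1) ^ (R + 1)) (j : ℕ)
    (hj : j ≤ R) : ∃ C : ℕ, 1 ≤ C ∧ ∀ (D : ℕ) (n : Fin t ⊕ Fin s → ℕ)
      (a : Option (Fin t) → ℕ), C ≤ D → Mg R D n a → C ≤ a none → (D : ℤ) ≤ RM R j n a + C := by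
  induction j with
  | zero =>
    refine ⟨R * t * (t + 1) ^ R + 1, by omega, fun D n a _ h _ => ?_⟩
    have h1 := RM_zero_lower n a D h
    push_cast
    linarith
  | succ j ih =>
    obtain ⟨C, hC1, hC⟩ := ih (by omega)
    obtain ⟨C', hC'1, hC'⟩ := RM_slow (s := s) ht hR hts (j + 1) hj
    refine ⟨C + C', by omega, fun D n a hD h ha => ?_⟩
    have h1 := hC D n a (by omega) h (by omega)
    have h2 := (hC' 1 le_rfl n a (h.le (by omega)) none (by omega)).2
    have h3 := RM_diff_none (j + 1) (by omega) hj n a (by omega)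
    rw [Nat.add_sub_cancel] at h3
    push_cast at h2 ⊢
    linarith

/-- The trace on the curve is a virtual dimension. -/
private theorem fm_none (ht : 1 ≤ t) (hR : 1 ≤ R) (hts : t + s = (t + 1) ^ (R + 1)) (j : ℕ)
    (hj1 : 1 ≤ j) (hj : j ≤ R) {n : Fin t ⊕ Fin s → ℕ} {a : Option (Fin t) → ℕ}
    (h : Mg R 1 n a) : (FM R j n none a : ℤ) = RM R (j - 1) n a := by
  have h1 := RM_pos (s := s) ht hR hts (j - 1) (by omega) (Or.inr h)
  unfold RM at h1 ⊢
  have h2 : R - (j - 1) = R + 1 - j := by omega
  have h3 : j - 1 + 1 = j := by omega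
  rw [h2, h3] at h1 ⊢
  have h4 : FM R j n none a =
      tau (t + 1) (R + 1 - j) j (dd a) - ∑ b, ell j (mu n a b) := rfl
  rw [h4]
  have h5 : ((∑ b, ell j (mu n a b) : ℕ) : ℤ) = ∑ b, (ell j (mu n a b) : ℤ) := by push_cast; rfl
  rw [← h5] at h1 ⊢
  omega

/-- The size of the traces, from below. -/
theorem FM_lower (ht : 1 ≤ t) (hR : 1 ≤ R) (hts : t + s = (t + 1) ^ (R + 1)) (j : ℕ)
    (hj1 : 1 ≤ j) (hj : j ≤ R) : ∃ C : ℕ, 1 ≤ C ∧ ∀ (D : ℕ) (n : Fin t ⊕ Fin s → ℕ)
      (a : Option (Fin t) → ℕ), C ≤ D → Mg R D n a → ∀ i, C ≤ a i → D ≤ FM R j n i a + C := by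
  obtain ⟨C, hC1, hC⟩ := fm_RM_lower (s := s) ht hR hts (j - 1) (by omega)
  refine ⟨C, hC1, fun D n a hD h i hi => ?_⟩
  rcases i with _ | l
  · have h1 := hC D n a hD h hi
    have h2 := fm_none (s := s) ht hR hts j hj1 hj (h.le (by omega))
    rw [← h2] at h1
    exact_mod_cast h1
  · have h1 := fm_tau_ell (t + 1) (R - j) j (dd a) (mu n a (.inl l)) D (by omega) hj1 (h.line l)
    have h2 : FM R j n (some l) a = tau (t + 1) (R - j) j (dd a) - ell j (mu n a (.inl l)) := rfl
    omega

/-- The differences are the sizes of the traces. -/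
theorem FM_eq (ht : 1 ≤ t) (hR : 1 ≤ R) (hts : t + s = (t + 1) ^ (R + 1)) (j : ℕ)
    (hj1 : 1 ≤ j) (hj : j ≤ R) {n : Fin t ⊕ Fin s → ℕ} {a : Option (Fin t) → ℕ}
    (h : Mg R 1 n a) (i : Option (Fin t)) (ha : 1 ≤ a i) :
    (FM R j n i a : ℤ) = RM R j n a - RM R j n (dn i a) := by
  rcases i with _ | l
  · rw [fm_none (s := s) ht hR hts j hj1 hj h, RM_diff_none j hj1 hj n a ha]
    ring
  · have h1 := fm_tau_ell (t + 1) (R - j) j (dd a) (mu n a (.inl l)) 1 (by omega) hj1 (h.line l)
    have h2 : FM R j n (some l) a = tau (t + 1) (R - j) j (dd a) - ell j (mu n a (.inl l)) := rfl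
    rw [RM_diff_some j hj1 n a l ha, h2]
    omega

/-- Sums of small drops along a path from `b` down to `a`. -/
private theorem fm_path {Λ : Type} [Fintype Λ] [DecidableEq Λ] (F : (Λ → ℕ) → ℕ) (T : ℕ)
    (a : Λ → ℕ) (q : ℕ) : ∀ b : Λ → ℕ, ∑ k, (b k - a k) = q → (∀ i, a i ≤ b i) →
      (∀ c : Λ → ℕ, (∀ i, a i ≤ c i) → (∀ i, c i ≤ b i) → ∀ k, a k < c k →
        F (dn k c) ≤ F c ∧ T * F c ≤ T * F (dn k c) + F c) →
      F a ≤ F b ∧ T * F b ≤ T * F a + q * F b := by
  induction q with
  | zero =>
    intro b hq hab _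
    have h1 : b = a := by
      funext k
      have h2 := (sum_eq_zero_iff.1 hq) k (mem_univ k)
      have h3 := hab k
      omega
    subst h1
    refine ⟨le_rfl, ?_⟩
    omega
  | succ q ih =>
    intro b hq hab H
    obtain ⟨k, -, hk⟩ : ∃ k ∈ (univ : Finset Λ), b k - a k ≠ 0 := by
      apply exists_ne_zero_of_sum_ne_zero
      omega
    have hk' : a k < b k := by omega
    have hab' : ∀ i, a i ≤ dn k b i := by
      intro i
      by_cases hi : i = k
      · subst hi
        rw [dn_self]
        omega
      · rw [dn_ne hi]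
        exact hab i
    have hsum : ∑ i, (dn k b i - a i) = q := by
      have h1 := add_sum_erase univ (fun i => b i - a i) (mem_univ k)
      have h2 := add_sum_erase univ (fun i => dn k b i - a i) (mem_univ k)
      have h3 : ∑ i ∈ univ.erase k, (dn k b i - a i) = ∑ i ∈ univ.erase k, (b i - a i) :=
        sum_congr rfl fun i hi => by rw [dn_ne (ne_of_mem_erase hi)]
      simp only [dn_self] at h2
      rw [h3] at h2
      omega
    obtain ⟨h1, h2⟩ := ih (dn k b) hsum hab' fun c hc1 hc2 k' hk' =>
      H c hc1 (fun i => (hc2 i).trans (dn_le k b i)) k' hk'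
    obtain ⟨h3, h4⟩ := H b hab (fun _ => le_rfl) k hk'
    refine ⟨h1.trans h3, ?_⟩
    have h5 : q * F (dn k b) ≤ q * F b := Nat.mul_le_mul_left _ h3
    have h6 : (q + 1) * F b = q * F b + F b := by ring
    omega

private theorem fm_dd_dn (c : Option (Fin t) → ℕ) (k : Option (Fin t)) (hk : 1 ≤ c k) :
    dd (dn k c) + 1 ≤ dd c ∧ dd c ≤ dd (dn k c) + (t + 1) := by
  rcases k with _ | l
  · have h1 := dd_dn_none c hk
    have h2 := inst_le_dd_none c hk
    omega
  · have h1 := dd_dn_some c l hk
    have h2 := inst_le_dd_some c l hk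
    omega

private theorem fm_mu_dn (n : Fin t ⊕ Fin s → ℕ) (c : Option (Fin t) → ℕ) (k : Option (Fin t))
    (b : Fin t ⊕ Fin s) : mu n c b ≤ mu n (dn k c) b + 1 ∧ mu n (dn k c) b ≤ mu n c b := by
  have h1 : uu (s := s) c b ≤ uu (dn k c) b + 1 ∧ uu (s := s) (dn k c) b ≤ uu c b := by
    rcases b with l | b
    · simp only [uu]
      by_cases h0 : (none : Option (Fin t)) = k
      · subst h0
        rw [dn_self, dn_ne (by simp : (some l : Option (Fin t)) ≠ none)]
        omega
      · rw [dn_ne h0]
        have h2 := dn_le k c (some l)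
        have h3 : c (some l) ≤ dn k c (some l) + 1 := by
          by_cases h4 : some l = k
          · subst h4
            rw [dn_self]
            omega
          · rw [dn_ne h4]
            omega
        omega
    · simp only [uu]
      have h2 := dn_le k c none
      have h3 : c none ≤ dn k c none + 1 := by
        by_cases h4 : none = k
        · subst h4
          rw [dn_self]
          omega
        · rw [dn_ne h4]
          omega
      omega
  simp only [mu]
  omega

private theorem fm_ell_mono (j : ℕ) {m m' : ℕ} (h : m ≤ m') : ell j m ≤ ell j m' :=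
  Nat.choose_le_choose _ (by omega)

private theorem fm_ell_sub (j m : ℕ) : ell (j + 1) m ≤ ell (j + 1) (m - 1) + ell j m := by
  unfold ell
  rcases Nat.eq_zero_or_pos m with rfl | hm
  · simp
  · obtain ⟨k, rfl⟩ : ∃ k, m = k + 1 := ⟨m - 1, by omega⟩
    have h1 : k + 1 + (j + 1) - 1 = k + j + 1 := by omega
    have h2 : k + 1 - 1 + (j + 1) - 1 = k + j := by omega
    have h3 : k + 1 + j - 1 = k + j := by omega
    rw [h1, h2, h3, Nat.choose_succ_succ]
    exact le_of_eq (Nat.add_comm _ _)

/-- One step for the traces on the hyperplanes `x_0 = l + 1`. -/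
private theorem fm_step_some (j : ℕ) : ∃ C : ℕ, 1 ≤ C ∧ ∀ T : ℕ, 1 ≤ T →
    ∀ (n : Fin t ⊕ Fin s → ℕ) (c : Option (Fin t) → ℕ) (l : Fin t) (k : Option (Fin t)),
      mu n c (.inl l) + C * T ≤ dd c → 1 ≤ c k →
      FM R (j + 1) n (some l) (dn k c) ≤ FM R (j + 1) n (some l) c ∧
      T * FM R (j + 1) n (some l) c ≤
        T * FM R (j + 1) n (some l) (dn k c) + FM R (j + 1) n (some l) c := by
  obtain ⟨C, hC1, hC⟩ := tau_slow (t + 1) (R - (j + 1)) j (by omega)
  refine ⟨C * (t + 1), Nat.mul_pos hC1 (by omega), fun T hT n c l k hmu hk => ?_⟩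
  have hF : ∀ c', FM R (j + 1) n (some l) c' =
    tau (t + 1) (R - (j + 1)) (j + 1) (dd c') - ell (j + 1) (mu n c' (.inl l)) := fun _ => rfl
  rw [hF, hF]
  set e := t + 1 with he
  set A := R - (j + 1) with hA
  obtain ⟨hd1, hd2⟩ := fm_dd_dn c k hk
  obtain ⟨hm1, hm2⟩ := fm_mu_dn n c k (.inl l)
  set m := mu n c (.inl l) with hm
  set m' := mu n (dn k c) (.inl l) with hm'
  set d := dd c with hd
  set d' := dd (dn k c) with hd'
  have h1 : (T * e) * tau e A j d + ell (j + 1) m ≤ tau e A (j + 1) d := by
    refine hC (T * e) d m (Nat.mul_pos hT (by omega)) ?_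
    have h2 : C * (T * e) = C * e * T := by ring
    omega
  have h2 : tau e A (j + 1) d ≤ tau e A (j + 1) d' + (d - d') * tau e A j d :=
    tau_drop e A j (by omega)
  have h3 : (d - d') * tau e A j d ≤ e * tau e A j d := Nat.mul_le_mul_right _ (by omega)
  have h4 : ell (j + 1) m' ≤ ell (j + 1) m := fm_ell_mono _ hm2
  have h5 : tau e A (j + 1) (d - 1 + 1) = tau e A (j + 1) (d - 1) + tau e A j (d - 1 + 1) :=
    tau_succ e A j (d - 1)
  have hd0 : d - 1 + 1 = d := by omega
  rw [hd0] at h5
  have h6 : tau e A (j + 1) d' ≤ tau e A (j + 1) (d - 1) := tau_mono e A (j + 1) (by omega)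
  have h7 : ell (j + 1) m ≤ ell (j + 1) (m - 1) + ell j m := fm_ell_sub j m
  have h8 : ell (j + 1) (m - 1) ≤ ell (j + 1) m' := fm_ell_mono _ (by omega)
  have h9 : ell j m ≤ tau e A j d := by
    rcases Nat.eq_zero_or_pos j with rfl | hj
    · have : ell 0 m = 1 := by
        unfold ell
        exact Nat.choose_zero_right _
      rw [this]
      exact tau_pos e A 0 d (by omega)
    · have := ell_lt_tau e A j d m (by omega) hj (by
        have : 0 ≤ C * e * T := Nat.zero_le _
        omega)
      omega
  refine ⟨by omega, ?_⟩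
  -- `F c - F (dn k c) ≤ e * tau e A j d` and `T * e * tau e A j d ≤ F c`
  have h10 : T * e * tau e A j d = T * (e * tau e A j d) := by ring
  have h11 : tau e A (j + 1) d - ell (j + 1) m ≤
      (tau e A (j + 1) d' - ell (j + 1) m') + e * tau e A j d := by omega
  have h12 : T * (tau e A (j + 1) d - ell (j + 1) m) ≤
      T * ((tau e A (j + 1) d' - ell (j + 1) m') + e * tau e A j d) :=
    Nat.mul_le_mul_left _ h11
  rw [mul_add] at h12
  omega

/-- Multi-step version of the slow variation of the traces: from `a` up to `b ≤ N`. -/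
theorem FM_drop (ht : 1 ≤ t) (hR : 1 ≤ R) (hts : t + s = (t + 1) ^ (R + 1)) (j : ℕ)
    (hj1 : 1 ≤ j) (hj : j ≤ R) : ∃ C : ℕ, 1 ≤ C ∧ ∀ T : ℕ, 1 ≤ T →
      ∀ (n : Fin t ⊕ Fin s → ℕ) (N a b : Option (Fin t) → ℕ) (Ta : ℕ), C * T ≤ Ta →
      Mg R Ta n N → Reg N Ta a → (∀ i, a i ≤ b i) → (∀ i, b i ≤ N i) → ∀ i, Ta ≤ a i →
      T * FM R j n i b ≤ T * FM R j n i a + (∑ k, (b k - a k)) * FM R j n i b := by
  obtain ⟨i, rfl⟩ : ∃ i, j = i + 1 := ⟨j - 1, by omega⟩
  obtain ⟨C1, hC11, hC1⟩ := RM_slow (s := s) ht hR hts i (by omega)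
  obtain ⟨C2, hC21, hC2⟩ := fm_step_some (t := t) (s := s) (R := R) i
  refine ⟨C1 + C2 + R * t, by omega, ?_⟩
  intro T hT n N a b Ta hTa hN ha hab hbN i' hi'
  have hCT1 : C1 * T ≤ Ta := by
    have : C1 * T ≤ (C1 + C2 + R * t) * T := Nat.mul_le_mul_right _ (by omega)
    omega
  have hCT2 : C2 * T ≤ Ta := by
    have : C2 * T ≤ (C1 + C2 + R * t) * T := Nat.mul_le_mul_right _ (by omega)
    omega
  have hRt : R * t ≤ Ta := by
    have h1 : R * t * 1 ≤ (C1 + C2 + R * t) * T := Nat.mul_le_mul (by omega) hT
    omega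
  have hTa1 : 1 ≤ Ta := by
    have h1 : 1 * 1 ≤ C1 * T := Nat.mul_le_mul hC11 hT
    omega
  -- margins of all states between `a` and `b`
  have hreg : ∀ c : Option (Fin t) → ℕ, (∀ i, a i ≤ c i) → (∀ i, c i ≤ b i) → Mg R Ta n c := by
    intro c hc1 hc2
    exact hN.reg ht hR hts le_rfl hRt fun i => ⟨(ha i).1.trans (hc1 i), (hc2 i).trans (hbN i)⟩
  have hbig : ∀ c : Option (Fin t) → ℕ, (∀ i, c i ≤ b i) → ∀ k, a k < c k → Ta + 1 ≤ c k := by
    intro c hc2 k hk
    have h1 := (ha k).1
    have h2 := (hc2 k).trans (hbN k)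
    omega
  have hdn : ∀ c : Option (Fin t) → ℕ, (∀ i, a i ≤ c i) → ∀ k, a k < c k →
      ∀ i, a i ≤ dn k c i := by
    intro c hc1 k hk i
    by_cases hi : i = k
    · subst hi
      rw [dn_self]
      omega
    · rw [dn_ne hi]
      exact hc1 i
  refine (fm_path (fun c => FM R (i + 1) n i' c) T a _ b rfl hab ?_).2
  intro c hc1 hc2 k hk
  have hMc := hreg c hc1 hc2
  have hk1 := hbig c hc2 k hk
  rcases i' with _ | l
  · have hMd := hreg (dn k c) (hdn c hc1 k hk) fun i => (dn_le k c i).trans (hc2 i)
    have h1 := hC1 T hT n c (hMc.le hCT1) k (by omega)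
    have h2 := fm_none (s := s) ht hR hts (i + 1) (by omega) hj (hMc.le hTa1)
    have h3 := fm_none (s := s) ht hR hts (i + 1) (by omega) hj (hMd.le hTa1)
    rw [Nat.add_sub_cancel] at h2 h3
    rw [← h2, ← h3] at h1
    constructor
    · have := h1.1
      omega
    · have h4 := h1.2
      have h5 : ((T * FM R (i + 1) n none c : ℕ) : ℤ) ≤
          ((T * FM R (i + 1) n none (dn k c) + FM R (i + 1) n none c : ℕ) : ℤ) := by
        push_cast
        linarith
      exact_mod_cast h5
  · have h1 := hMc.line l
    exact hC2 T hT n c l k (by omega) (by omega)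

end Pool.Agent.H18.Pr

end

section

/-!
# Module OneD (PR): exactness in dimension one
-/

namespace Pool.Agent.H18.Pr

open Finset Pool.Agent.H18.Ex Pool.Agent.H18.Cub

variable {R : ℕ}

private theorem one_tay {ι : Type} [Fintype ι] [DecidableEq ι] (i : ι) (f : Polynomial ℂ)
    (q : ι → ℂ) (j : ℕ) :
    tay (Polynomial.aeval (MvPolynomial.X i : MvPolynomial ι ℂ) f) q (Pi.single i j) =
      (Polynomial.taylor (q i) f).coeff j := by
  unfold tay
  have h1 : trl q (Polynomial.aeval (MvPolynomial.X i : MvPolynomial ι ℂ) f) =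
      Polynomial.aeval (MvPolynomial.X i : MvPolynomial ι ℂ) (Polynomial.taylor (q i) f) := by
    rw [← Polynomial.aeval_algHom_apply, Polynomial.taylor_apply, Polynomial.aeval_comp]
    congr 1
    congr 1
    unfold trl
    rw [MvPolynomial.aeval_X, map_add, Polynomial.aeval_X, Polynomial.aeval_C]
    rfl
  rw [h1]
  set h := Polynomial.taylor (q i) f with hh
  have h2 : Finsupp.equivFunOnFinite.symm (Pi.single i j : ι → ℕ) = Finsupp.single i j :=
    Finsupp.equivFunOnFinite_symm_single i j
  rw [h2, Polynomial.aeval_eq_sum_range, MvPolynomial.coeff_sum]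
  have h3 : ∀ n, MvPolynomial.coeff (Finsupp.single i j)
      (h.coeff n • (MvPolynomial.X i : MvPolynomial ι ℂ) ^ n) =
        if n = j then h.coeff n else 0 := by
    intro n
    rw [MvPolynomial.coeff_smul, MvPolynomial.coeff_X_pow]
    by_cases hn : n = j
    · subst hn
      simp
    · rw [if_neg hn, if_neg, smul_zero]
      intro h4
      exact hn (Finsupp.single_injective i h4)
  rw [Finset.sum_congr rfl fun n _ => h3 n]
  by_cases hj : j ∈ range (h.natDegree + 1)
  · rw [Finset.sum_ite_eq' (range (h.natDegree + 1)) j fun n => h.coeff n, if_pos hj]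
  · rw [Finset.sum_ite_eq' (range (h.natDegree + 1)) j fun n => h.coeff n, if_neg hj]
    rw [Finset.mem_range] at hj
    exact (Polynomial.coeff_eq_zero_of_natDegree_lt (by omega)).symm

private theorem one_dvd {ι : Type} [Fintype ι] [DecidableEq ι] (i : ι) (f : Polynomial ℂ)
    (q : ι → ℂ) (s : ℕ)
    (h : ∀ b : ι → ℕ, ∑ k, b k < s →
      tay (Polynomial.aeval (MvPolynomial.X i : MvPolynomial ι ℂ) f) q b = 0) :
    (Polynomial.X - Polynomial.C (q i)) ^ s ∣ f := by
  rw [Polynomial.X_sub_C_pow_dvd_iff, Polynomial.X_pow_dvd_iff]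
  intro j hj
  have h1 := h (Pi.single i j) (by rw [Finset.sum_pi_single']; simpa using hj)
  rw [one_tay] at h1
  rwa [Polynomial.taylor_apply] at h1

/-- A polynomial in one of the variables. -/
private theorem one_uni (u : Fin (R + 1)) (F : MvPolynomial (Fin (R + 1)) ℂ)
    (hF : ∀ i, i < u ∨ u < i → F.degreeOf i = 0) :
    Polynomial.aeval (MvPolynomial.X u : MvPolynomial (Fin (R + 1)) ℂ)
      (MvPolynomial.aeval (fun _ => (Polynomial.X : Polynomial ℂ)) F) = F := by
  have hv : ∀ i ∈ F.vars, i = u := by
    intro i hi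
    by_contra hne
    have h0 := hF i (lt_or_gt_of_ne hne)
    rw [MvPolynomial.vars_def, Multiset.mem_toFinset] at hi
    rw [MvPolynomial.degreeOf_def, Multiset.count_eq_zero] at h0
    exact h0 hi
  have := MvPolynomial.hom_congr_vars
    (f₁ := ((Polynomial.aeval (MvPolynomial.X u : MvPolynomial (Fin (R + 1)) ℂ)).comp
      (MvPolynomial.aeval (fun _ : Fin (R + 1) => (Polynomial.X : Polynomial ℂ))) :
        MvPolynomial (Fin (R + 1)) ℂ →ₐ[ℂ] MvPolynomial (Fin (R + 1)) ℂ).toRingHom)
    (f₂ := RingHom.id _) (p₁ := F) (p₂ := F) ?_ ?_ rfl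
  · exact this
  · ext1 c
    simp [MvPolynomial.algebraMap_eq]
  · intro i hi _
    simp [hv i hi]

private theorem one_supp (g : Polynomial ℂ) (u : Fin (R + 1)) (n : ℕ) (hn : n ∈ g.support) :
    Finsupp.single u n ∈
      (Polynomial.aeval (MvPolynomial.X u : MvPolynomial (Fin (R + 1)) ℂ) g).support := by
  rw [MvPolynomial.mem_support_iff, Polynomial.aeval_eq_sum_range, MvPolynomial.coeff_sum]
  have h3 : ∀ k, MvPolynomial.coeff (Finsupp.single u n)
      (g.coeff k • (MvPolynomial.X u : MvPolynomial (Fin (R + 1)) ℂ) ^ k) =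
        if k = n then g.coeff k else 0 := by
    intro k
    rw [MvPolynomial.coeff_smul, MvPolynomial.coeff_X_pow]
    by_cases hn : k = n
    · subst hn
      simp
    · rw [if_neg hn, if_neg, smul_zero]
      intro h4
      exact hn (Finsupp.single_injective u h4)
  rw [Finset.sum_congr rfl fun n _ => h3 n]
  rw [Finset.sum_ite_eq' (range (g.natDegree + 1)) n fun n => g.coeff n, if_pos]
  · exact Polynomial.mem_support_iff.1 hn
  · rw [Finset.mem_range]
    exact Nat.lt_succ_of_le (Polynomial.le_natDegree_of_mem_supp n hn)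

private theorem one_Th (e : ℕ) (u : Fin (R + 1)) (p : ℂ) (f : Polynomial ℂ) :
    Th e u u p (Polynomial.aeval (MvPolynomial.X u : MvPolynomial (Fin (R + 1)) ℂ) f) =
      Polynomial.aeval (MvPolynomial.X u : MvPolynomial (Fin (R + 1)) ℂ)
        (f.comp (Polynomial.X - Polynomial.C p)) := by
  rw [← Polynomial.aeval_algHom_apply, Polynomial.aeval_comp]
  congr 1
  congr 1
  unfold Th
  rw [MvPolynomial.aeval_X, if_pos rfl, map_sub, Polynomial.aeval_X, Polynomial.aeval_C]
  rfl

private theorem one_cost (e : ℕ) (u : Fin (R + 1)) (n : ℕ) :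
    cost e u (Finsupp.single u n) = kap e (R - u.val) n := by
  unfold cost
  rw [Finset.sum_eq_single u]
  · simp
  · intro b _ hb
    rw [if_neg hb, Finsupp.single_eq_of_ne hb]
  · intro h
    exact absurd (mem_univ _) h

private theorem one_shift (f : Polynomial ℂ) (a p : ℂ) (s : ℕ)
    (h : (Polynomial.X - Polynomial.C a) ^ s ∣ f) :
    (Polynomial.X - Polynomial.C (a + p)) ^ s ∣ f.comp (Polynomial.X - Polynomial.C p) := by
  obtain ⟨g, rfl⟩ := h
  rw [Polynomial.mul_comp, Polynomial.pow_comp, Polynomial.sub_comp, Polynomial.X_comp,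
    Polynomial.C_comp, map_add, sub_sub, add_comm (Polynomial.C p)]
  exact Dvd.intro _ rfl

/-- An element of `WW e u u p d x m` is a polynomial in `z_u`; as a polynomial in `x_u = z_u + p` it
has exponents `a` with `kap e (R - u) a ≤ d`, that is at most `tau e (R - u) 1 d` exponents
(`kap_card`, `le_kap`), and zeros of order `m b` at the positive integers `y b`.  Choose the free points at
further positive integers and use the theorem of Descartes (`Pool.Agent.H18.Cub.Desc`), as in
`WC_trace_curve`. -/
theorem WW_one (e : ℕ) (he : 1 ≤ e) (u : Fin (R + 1)) (p : ℂ) (d : ℕ) {B : Type} [Fintype B]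
    (x : B → ℂ) (m : B → ℕ) (y : B → ℕ) (hy : Function.Injective y) (hpos : ∀ b, 0 < y b)
    (hxy : ∀ b, x b + p = (y b : ℂ)) (S : Multiset ℕ)
    (h : tau e (R - u.val) 1 d ≤ ∑ b, m b + S.sum) : Fk (WW e u u p d x m) S := by
  obtain ⟨k, s, hs⟩ := multi_exists_fin S
  refine ⟨k, s, hs, ?_⟩
  set Y : Fin k → ℕ := fun i => ∑ b, y b + 1 + i with hY
  refine ⟨fun i => ptv u ((Y i : ℂ) - p), fun F hF hsat => ?_⟩
  obtain ⟨hF1, hF2, hF3⟩ := hF
  set f : Polynomial ℂ := MvPolynomial.aeval (fun _ => (Polynomial.X : Polynomial ℂ)) F with hf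
  have hfF : Polynomial.aeval (MvPolynomial.X u : MvPolynomial (Fin (R + 1)) ℂ) f = F :=
    one_uni u F hF1
  suffices hf0 : f.comp (Polynomial.X - Polynomial.C p) = 0 by
    have : f = 0 := by
      have h2 : (f.comp (Polynomial.X - Polynomial.C p)).comp (Polynomial.X + Polynomial.C p) = f := by
        rw [Polynomial.comp_assoc]
        simp
      rw [← h2, hf0, Polynomial.zero_comp]
    rw [← hfF, this, map_zero]
  have hpt : ∀ a : ℂ, ptv u a u = a := fun a => by simp [ptv]
  have hd1 : ∀ b, (Polynomial.X - Polynomial.C (y b : ℂ)) ^ m b ∣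
      f.comp (Polynomial.X - Polynomial.C p) := by
    intro b
    rw [← hxy b]
    apply one_shift
    have := one_dvd u f (ptv u (x b)) (m b) fun β hβ => by
      rw [hfF]; exact hF3 b β hβ
    rwa [hpt] at this
  have hd2 : ∀ i, (Polynomial.X - Polynomial.C (Y i : ℂ)) ^ s i ∣
      f.comp (Polynomial.X - Polynomial.C p) := by
    intro i
    have h0 : (Y i : ℂ) = ((Y i : ℂ) - p) + p := by ring
    rw [h0]
    apply one_shift
    have := one_dvd u f (ptv u ((Y i : ℂ) - p)) (s i) fun β hβ => by
      rw [hfF]; exact hsat i β hβ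
    rwa [hpt] at this
  refine descartes_complex _ (Sum.elim (fun b => (y b : ℝ)) fun i => (Y i : ℝ)) ?_ ?_
    (Sum.elim m s) ?_ ?_
  · have hxY : ∀ b i, y b ≠ Y i := by
      intro b i hbi
      have h1 : y b ≤ ∑ b, y b := Finset.single_le_sum (fun _ _ => Nat.zero_le _) (mem_univ b)
      rw [hY] at hbi
      simp only at hbi
      omega
    have hYi : ∀ i i', Y i = Y i' → i = i' := by
      intro i i' hii
      rw [hY] at hii
      simp only at hii
      exact Fin.ext (by omega)
    rintro (b | i) (b' | i') hbb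
    · simp only [Sum.elim_inl, Nat.cast_inj] at hbb
      rw [hy hbb]
    · simp only [Sum.elim_inl, Sum.elim_inr, Nat.cast_inj] at hbb
      exact absurd hbb (hxY b i')
    · simp only [Sum.elim_inl, Sum.elim_inr, Nat.cast_inj] at hbb
      exact absurd hbb.symm (hxY b' i)
    · simp only [Sum.elim_inr, Nat.cast_inj] at hbb
      rw [hYi i i' hbb]
  · rintro (b | i)
    · simp only [Sum.elim_inl, Nat.cast_pos]
      exact hpos b
    · simp only [Sum.elim_inr, Nat.cast_pos]
      rw [hY]
      simp only
      omega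
  · rintro (b | i)
    · have := hd1 b
      simpa using this
    · have := hd2 i
      simpa using this
  · have h1 : (f.comp (Polynomial.X - Polynomial.C p)).support.card ≤
        tau e (R - u.val) 1 d := by
      rw [← kap_card e (R - u.val) d he]
      apply Finset.card_le_card
      intro n hn
      have h3 := hF2 (Finsupp.single u n) (by
        rw [← hfF, one_Th]
        exact one_supp _ u n hn)
      rw [one_cost] at h3
      rw [Finset.mem_filter, Finset.mem_range]
      refine ⟨?_, h3⟩
      have h4 := le_kap e (R - u.val) n he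
      have h5 : e ^ (R - u.val) * (kap e (R - u.val) n + 1) ≤ e ^ (R - u.val) * (d + 1) :=
        Nat.mul_le_mul_left _ (by omega)
      omega
    have h2 : ∑ k, Sum.elim m s k = ∑ b, m b + S.sum := by
      rw [Fintype.sum_sum_type, ← hs]
      rfl
    rw [h2]
    exact h1.trans h

end Pool.Agent.H18.Pr

end

section

/-!
# Module AsmM (PR): exactness in the main family
-/

namespace Pool.Agent.H18.Pr

open Finset Pool.Agent.H18.Ex Pool.Agent.H18.Cub

variable {R t s : ℕ}

theorem ExM_le {u : Fin (R + 1)} {M D D' : ℕ} (h : ExM t s u M D) (hD : D ≤ D') :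
    ExM t s u M D' := fun n N hMg S hS hsum => h n N (hMg.le hD) S hS hsum

theorem ExV_le {e : ℕ} {v u : Fin (R + 1)} {M D D' : ℕ} (h : ExV e v u M D)
    (hD : D ≤ D') : ExV e v u M D' :=
  fun q hq d m hm S hS hsum => h q hq d m (by omega) S hS hsum

/-- Dimension one (`WW_one`, `y = xx`). -/
theorem exM_base (ht : 1 ≤ t) (u : Fin (R + 1)) (hu : u.val = 0) (M : ℕ) : ExM t s u M 0 := by
  intro n N _ S _ hsum
  have hu0 : u = 0 := Fin.ext (by simpa using hu)
  have hell : ∀ m, ell 1 m = m := fun m => ell_one_left m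
  have h0 : u.val + 1 = 1 := by omega
  rw [h0] at hsum
  have hmap : (S.map (ell 1)).sum = S.sum := by
    congr 1
    conv_rhs => rw [← Multiset.map_id S]
    exact Multiset.map_congr rfl fun m _ => hell m
  rw [hmap] at hsum
  simp only [hell] at hsum
  unfold WM
  have h1 : (0 : Fin (R + 1)) = u := hu0.symm
  rw [h1]
  exact WW_one (t + 1) (by omega) u 0 (dd N) _ (mu n N) xx xx_injective
    (fun b => by rcases b with l | j <;> simp [xx]) (fun b => by simp) S hsum

theorem dd_le_max (N : Option (Fin t) → ℕ) (B : ℕ) (h : ∀ i, N i ≤ B) :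
    dd N ≤ (2 * t + 1) * B := by
  unfold dd
  have h1 : ∑ l, N (some l) ≤ ∑ _l : Fin t, B := sum_le_sum fun l _ => h (some l)
  rw [sum_const, card_univ, Fintype.card_fin, smul_eq_mul] at h1
  have h2 := Nat.mul_le_mul_left (t + 1) (h none)
  have h3 : (2 * t + 1) * B = (t + 1) * B + t * B := by ring
  omega

end Pool.Agent.H18.Pr

end

section

/-!
# Module AsmV (PR): exactness for one big point
-/

namespace Pool.Agent.H18.Pr

open Finset Pool.Agent.H18.Ex Pool.Agent.H18.Cub

variable {R : ℕ}

/-! ### Auxiliary facts -/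

private theorem av_choose_lt (j : ℕ) (hj : 1 ≤ j) (x : ℕ) (hx : j ≤ x + 1) (k : ℕ) :
    x.choose j + k ≤ (x + k).choose j := by
  induction k with
  | zero => simp
  | succ k ih =>
    obtain ⟨i, rfl⟩ : ∃ i, j = i + 1 := ⟨j - 1, by omega⟩
    have h1 : (x + k + 1).choose (i + 1) = (x + k).choose i + (x + k).choose (i + 1) :=
      Nat.choose_succ_succ _ _
    have h2 : 1 ≤ (x + k).choose i := Nat.choose_pos (by omega)
    have h3 : x + (k + 1) = x + k + 1 := by ring
    rw [h3, h1]
    omega

/-- A point of multiplicity `m ≤ d` leaves at least `d - m + 1` dimensions. -/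
theorem av_tau_ell (e A j d m D : ℕ) (he : 1 ≤ e) (hj : 1 ≤ j) (h : m + D ≤ d) :
    ell j m + D + 1 ≤ tau e A j d := by
  refine le_trans ?_ (choose_le_tau e A j d he)
  unfold ell
  rcases Nat.eq_zero_or_pos m with rfl | hm
  · have h1 : (0 + j - 1).choose j = 0 := Nat.choose_eq_zero_of_lt (by omega)
    rw [h1]
    have h2 := av_choose_lt j hj j (by omega) d
    rw [Nat.choose_self] at h2
    rw [add_comm d j]
    omega
  · have h2 := av_choose_lt j hj (m + j - 1) (by omega) (d - m + 1)
    have h3 : m + j - 1 + (d - m + 1) = d + j := by omega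
    rw [h3] at h2
    omega

theorem av_mono {e : ℕ} {v u : Fin (R + 1)} {M D D' : ℕ} (hD : D ≤ D')
    (h : ExV e v u M D) : ExV e v u M D' := by
  intro q hq d m hd S hS hsum
  exact h q hq d m (by omega) S hS hsum

/-- Dimension one (`WW_one`). -/
theorem exV_base (e : ℕ) (he : 2 ≤ e) (u : Fin (R + 1)) (M : ℕ) : ExV e u u M 0 := by
  intro q hq d m _ S _ hsum
  refine WW_one e (by omega) u (q : ℂ) d (fun _ : Unit => (0 : ℂ)) (fun _ => m) (fun _ => q)
    (fun _ _ _ => rfl) (fun _ => hq) (fun _ => by rw [zero_add]) S ?_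
  rw [Nat.sub_self, zero_add] at hsum
  have h1 : S.map (ell 1) = S := by
    have h2 : S.map (ell 1) = S.map id := Multiset.map_congr rfl fun x _ => ell_one_left x
    rw [h2, Multiset.map_id]
  rw [h1, ell_one_left] at hsum
  simpa using hsum

end Pool.Agent.H18.Pr

end
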