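import Pool.Agent.H94.LP1.H18.FatBasic
import Pool.Agent.H94.LP1.M04
import Pool.Agent.H94.LP1.M05

/-! The parts of this file: H18.Cub.Sys, H18.Ex.Fin, H18.Ex.Run, H18.Cub.Sched, H18.Ex.Final, H18.Pr.SysN, H18.TileFinal. -/

section

/-!
# Abstract Horace systems

`Λ` is the finite set of directions.  The spaces are indexed by states `a : Λ → ℕ`; peeling in
direction `l` replaces `a` by `dn l a`.  `F l a` is the size of the trace, `R a` the (virtual)
dimension, `K a S` says that the conditions `S` kill the space of `a` at general positions.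
-/

namespace Pool.Agent.H18.Cub

open Finset Pool.Agent.H18.Ex

/-- One peel in direction `l`. -/
def dn {Λ : Type} [DecidableEq Λ] (l : Λ) (a : Λ → ℕ) : Λ → ℕ := Function.update a l (a l - 1)

/-- An abstract Horace system (in the plane). -/
structure Sys (Λ : Type) [Fintype Λ] [DecidableEq Λ] : Type where
  /-- the conditions `S` kill the space of the state `a` -/
  K : (Λ → ℕ) → Multiset (Kind Λ) → Prop
  /-- the size of the trace -/
  F : Λ → (Λ → ℕ) → ℕ
  /-- the virtual dimension -/
  R : (Λ → ℕ) → ℤ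
  mono : ∀ a S S', S ≤ S' → K a S → K a S'
  free_mono : ∀ a (T : Multiset ℕ) (S : Multiset (Kind Λ)), (∀ m ∈ T, 1 ≤ m) →
    K a (Multiset.replicate T.card (Kind.free 1) + S) → K a (T.map Kind.free + S)
  count : ∀ a l, 1 ≤ a l → 1 ≤ F l a → R a = R (dn l a) + F l a
  step : ∀ a l, 1 ≤ a l → ∀ μ, 1 ≤ μ → ∀ S : Multiset (Role Λ),
    (∀ k, Role.stay k ∈ S → k.NotAt l) → F l a ≤ (S.map fun r => ell 1 r.layer).sum →
    K (dn l a) (S.map (Role.after l μ)) → K a (S.map (Role.before l μ))
  bridge : ∀ a l, 1 ≤ a l → ∀ (S : Multiset (Kind Λ)) (s : ℕ),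
    K a (S + Multiset.replicate s (Kind.free 1)) → K (dn l a) (S.map (Kind.dn l)) →
    K a (S + Multiset.replicate s (Kind.forced l 1 1))
  base : K 0 {Kind.free 1}
  base_R : R 0 = 1

end Pool.Agent.H18.Cub

end

section

/-!
# Module Fin: the two endings
-/

namespace Pool.Agent.H18.Ex

open Finset

variable {ι : Type} [Fintype ι] [DecidableEq ι]

/-- The cleaning list: `M + 1` peels in each direction. -/
def clean (M : ℕ) (dirs : List ι) : List ι := dirs.flatMap fun l => List.replicate (M + 1) l

private theorem fin_shf_aux (j : ℕ) (S : Multiset (ℕ × ℕ))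
    (hS : ∀ x ∈ S, 1 ≤ x.2 ∧ x.2 ≤ x.1 ∧ x.1 ≤ j) : shf^[j] S = 0 := by
  induction j generalizing S with
  | zero =>
    apply Multiset.eq_zero_of_forall_notMem
    intro x hx
    have := hS x hx
    omega
  | succ j ih =>
    rw [Function.iterate_succ_apply]
    apply ih
    intro x hx
    unfold shf at hx
    rw [Multiset.mem_filter, Multiset.mem_map] at hx
    obtain ⟨⟨y, hy, rfl⟩, h⟩ := hx
    have h1 := hS y hy
    refine ⟨h1.1, h, ?_⟩
    change y.1 - 1 ≤ j
    omega

/-- After `M` shifts all forced conditions are gone. -/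
theorem shf_iterate_eq_zero {M j : ℕ} (hj : M ≤ j) (S : Multiset (ℕ × ℕ))
    (hS : ∀ x ∈ S, 1 ≤ x.2 ∧ x.2 ≤ x.1 ∧ x.1 ≤ M) : shf^[j] S = 0 :=
  fin_shf_aux j S fun x hx => ⟨(hS x hx).1, (hS x hx).2.1, le_trans (hS x hx).2.2 hj⟩

omit [Fintype ι] in
private theorem fin_count_clean (M : ℕ) (dirs : List ι) (l : ι) (hl : l ∈ dirs) :
    M + 1 ≤ (clean M dirs).count l := by
  unfold clean
  induction dirs with
  | nil => exact absurd hl List.not_mem_nil
  | cons d ds ih =>
    rw [List.flatMap_cons, List.count_append]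
    by_cases h : l = d
    · subst h
      rw [List.count_replicate_self]
      exact Nat.le_add_right _ _
    · have h1 : l ∈ ds := by
        rcases List.mem_cons.1 hl with h2 | h2
        · exact absurd h2 h
        · exact h2
      exact le_trans (ih h1) (Nat.le_add_left _ _)

omit [DecidableEq ι] in
private theorem fin_kinds_simple {c : Cfg ι} (hN : c.N = 0) (hΦ : ∀ l, c.Φ l = 0) :
    c.kinds = (Multiset.replicate c.s 1).map Kind.free + 0 := by
  have h1 : c.kinds = c.N.map Kind.free + Multiset.replicate c.s (Kind.free 1) +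
      ∑ l, (c.Φ l).map fun x => Kind.forced l x.1 x.2 := rfl
  rw [h1, hN, Finset.sum_eq_zero (fun l _ => by rw [hΦ l, Multiset.map_zero]),
    Multiset.map_zero, zero_add, Multiset.map_replicate]

end Pool.Agent.H18.Ex

end

section

/-!
# Module Run: running along a good list of directions
-/

namespace Pool.Agent.H18.Ex

open Finset

variable {ι : Type} [Fintype ι] [DecidableEq ι]

/-- The layer of a region. -/
theorem Rg_layer (σ : ℕ) (w : ι → ℕ) (l : ι) :
    (Rg σ w).filter (fun a => a l = 0) = Rg σ (Function.update w l 0) := by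
  ext a
  rw [mem_filter, mem_Rg, mem_Rg]
  constructor
  · rintro ⟨⟨h1, h2⟩, h3⟩
    refine ⟨fun i => ?_, h2⟩
    by_cases hi : i = l
    · subst hi
      rw [Function.update_self, h3]
    · rw [Function.update_of_ne hi]
      exact h1 i
  · rintro ⟨h1, h2⟩
    have h3 : a l = 0 := by
      have := h1 l
      rw [Function.update_self] at this
      omega
    refine ⟨⟨fun i => ?_, h2⟩, h3⟩
    by_cases hi : i = l
    · subst hi
      rw [h3]
      exact Nat.zero_le _
    · have := h1 i
      rwa [Function.update_of_ne hi] at this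

private theorem run_sum_update (a : ι → ℕ) (l : ι) :
    ∑ i, Function.update a l (a l + 1) i = ∑ i, a i + 1 := by
  rw [Finset.sum_update_of_mem (Finset.mem_univ l), Finset.sdiff_singleton_eq_erase,
    ← Finset.add_sum_erase univ a (Finset.mem_univ l)]
  ring

/-- The residual of a region. -/
theorem Rg_resid (σ : ℕ) (w : ι → ℕ) (l : ι) (hσ : 1 ≤ σ) (hw : 1 ≤ w l) (a : ι → ℕ) :
    a ∈ Rg (σ - 1) (Function.update w l (w l - 1)) ↔ Function.update a l (a l + 1) ∈ Rg σ w := by
  rw [mem_Rg, mem_Rg, run_sum_update]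
  constructor
  · rintro ⟨h1, h2⟩
    refine ⟨fun i => ?_, by omega⟩
    have h3 := h1 i
    by_cases hi : i = l
    · subst hi
      rw [Function.update_self] at h3 ⊢
      omega
    · rw [Function.update_of_ne hi] at h3 ⊢
      exact h3
  · rintro ⟨h1, h2⟩
    refine ⟨fun i => ?_, by omega⟩
    have h3 := h1 i
    by_cases hi : i = l
    · subst hi
      rw [Function.update_self] at h3 ⊢
      omega
    · rw [Function.update_of_ne hi] at h3 ⊢
      exact h3

/-- `∑ fl ≤ M * ∑ tr` for a valid configuration (`ell_le_mul`). -/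
theorem Cfg.fl_le (n M : ℕ) (c : Cfg ι) (hc : c.OK M) (l : ι) : c.fl n l ≤ M * c.tr n l := by
  unfold Cfg.fl Cfg.tr
  rw [← Multiset.sum_map_mul_left]
  apply Multiset.sum_map_le_sum_map
  intro x hx
  obtain ⟨h1, _, _, h4⟩ := hc.hΦ l x hx
  have h5 := ell_le_mul n x.1
  have h6 : x.1 * ell n x.1 ≤ M * ell n x.1 := Nat.mul_le_mul_right _ h4
  omega

omit [Fintype ι] in
private theorem ew_nil (w : ι → ℕ) : ew [] w = w := by
  funext i
  simp [ew]

omit [Fintype ι] in
private theorem ew_cons (l : ι) (L : List ι) (w : ι → ℕ) :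
    ew (l :: L) w = ew L (Function.update w l (w l - 1)) := by
  funext i
  unfold ew
  by_cases hi : i = l
  · subst hi
    rw [List.count_cons_self, Function.update_self]
    omega
  · rw [List.count_cons_of_ne (fun h => hi h.symm), Function.update_of_ne hi]

omit [Fintype ι] [DecidableEq ι] in
private theorem sub_length_cons (σ : ℕ) (l : ι) (L : List ι) :
    σ - (l :: L).length = σ - 1 - L.length := by
  rw [List.length_cons]
  omega

/-- `Good` for an appended list. -/
theorem Good.append {n M : ℕ} {X : ℕ → (ι → ℕ) → Prop} (L L' : List ι) (σ : ℕ) (w φ : ι → ℕ) :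
    Good n M X (L ++ L') σ w φ ↔
      Good n M X L σ w φ ∧ Good n M X L' (σ - L.length) (ew L w) (eph n M L σ w φ) := by
  induction L generalizing σ w φ with
  | nil =>
    rw [ew_nil]
    change Good n M X L' σ w φ ↔ True ∧ Good n M X L' (σ - 0) w φ
    rw [Nat.sub_zero]
    exact ⟨fun h => ⟨trivial, h⟩, fun h => h.2⟩
  | cons l L ih =>
    rw [ew_cons, sub_length_cons]
    change (1 ≤ σ ∧ 1 ≤ w l ∧ X σ (Function.update w l 0) ∧ _ ∧ _ ∧
      Good n M X (L ++ L') _ _ _) ↔ (1 ≤ σ ∧ 1 ≤ w l ∧ X σ (Function.update w l 0) ∧ _ ∧ _ ∧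
      Good n M X L _ _ _) ∧ _
    rw [ih]
    constructor
    · rintro ⟨h1, h2, h3, h4, h5, h6, h7⟩
      exact ⟨⟨h1, h2, h3, h4, h5, h6⟩, h7⟩
    · rintro ⟨⟨h1, h2, h3, h4, h5, h6⟩, h7⟩
      exact ⟨h1, h2, h3, h4, h5, h6, h7⟩

theorem ew_append (L L' : List ι) (w : ι → ℕ) : ew (L ++ L') w = ew L' (ew L w) := by
  funext i
  unfold ew
  rw [List.count_append, Nat.sub_sub]

theorem eph_append (n M : ℕ) (L L' : List ι) (σ : ℕ) (w φ : ι → ℕ) :
    eph n M (L ++ L') σ w φ =
      eph n M L' (σ - L.length) (ew L w) (eph n M L σ w φ) := by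
  induction L generalizing σ w φ with
  | nil =>
    rw [ew_nil]
    rfl
  | cons l L ih =>
    rw [ew_cons, sub_length_cons]
    exact ih _ _ _

private theorem shf_mono {S T : Multiset (ℕ × ℕ)} (h : S ≤ T) : shf S ≤ shf T :=
  Multiset.filter_le_filter _ (Multiset.map_le_map h)

private theorem shf_iterate_mono (k : ℕ) {S T : Multiset (ℕ × ℕ)} (h : S ≤ T) :
    shf^[k] S ≤ shf^[k] T := by
  induction k generalizing S T with
  | zero => exact h
  | succ k ih =>
    rw [Function.iterate_succ_apply, Function.iterate_succ_apply]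
    exact ih (shf_mono h)

end Pool.Agent.H18.Ex

end

section

/-!
# Module Sched: the schedule (abstract version)

Always peel a direction with maximal `a l`, until all `a l ≤ T'`; then clean.
-/

namespace Pool.Agent.H18.Cub

open Finset Pool.Agent.H18.Ex

variable {Λ : Type} [Fintype Λ] [DecidableEq Λ]

/-- The states between `min N t` and `N`. -/
def Reg (N : Λ → ℕ) (t : ℕ) (a : Λ → ℕ) : Prop := ∀ i, min (N i) t ≤ a i ∧ a i ≤ N i

omit [DecidableEq Λ] in
theorem Reg.le {N : Λ → ℕ} {t : ℕ} {a : Λ → ℕ} (h : Reg N t a) (i : Λ) : a i ≤ N i := (h i).2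

omit [DecidableEq Λ] in
theorem Reg.mono {N : Λ → ℕ} {t t' : ℕ} (ht : t ≤ t') {a : Λ → ℕ} (h : Reg N t' a) :
    Reg N t a := fun i => ⟨(min_le_min le_rfl ht).trans (h i).1, (h i).2⟩

omit [Fintype Λ] in
theorem dn_le (l : Λ) (a : Λ → ℕ) (i : Λ) : dn l a i ≤ a i := by
  unfold dn
  by_cases h : i = l
  · subst h
    rw [Function.update_self]
    omega
  · rw [Function.update_of_ne h]

omit [Fintype Λ] in
theorem dn_self (l : Λ) (a : Λ → ℕ) : dn l a l = a l - 1 := by
  unfold dn
  rw [Function.update_self]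

omit [Fintype Λ] in
theorem dn_ne {l i : Λ} (h : i ≠ l) (a : Λ → ℕ) : dn l a i = a i := by
  unfold dn
  rw [Function.update_of_ne h]

omit [Fintype Λ] in
theorem Reg.dn {N : Λ → ℕ} {t : ℕ} {a : Λ → ℕ} (h : Reg N t a) (l : Λ) (hl : t < a l) :
    Reg N t (dn l a) := by
  intro i
  by_cases hi : i = l
  · subst hi
    rw [dn_self]
    have h1 := (h i).2
    have h2 : min (N i) t ≤ t := min_le_right _ _
    omega
  · rw [dn_ne hi]
    exact h i

theorem ell_one_left (M : ℕ) : ell 1 M = M := by
  unfold ell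
  simp

/-- The used directions. -/
noncomputable def dirsS (N : Λ → ℕ) (T' : ℕ) : List Λ := (univ.filter fun l => T' < N l).toList

omit [DecidableEq Λ] in
theorem mem_dirsS {N : Λ → ℕ} {T' : ℕ} {l : Λ} : l ∈ dirsS N T' ↔ T' < N l := by
  unfold dirsS
  rw [mem_toList, mem_filter]
  exact ⟨fun h => h.2, fun h => ⟨mem_univ _, h⟩⟩

omit [Fintype Λ] in
theorem count_clean (M : ℕ) (dirs : List Λ) (hnd : dirs.Nodup) (l : Λ) :
    (clean M dirs).count l = if l ∈ dirs then M + 1 else 0 := by
  unfold clean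
  induction dirs with
  | nil => simp
  | cons d ds ih =>
    rw [List.flatMap_cons, List.count_append, ih (List.nodup_cons.1 hnd).2, List.count_replicate]
    have h1 := (List.nodup_cons.1 hnd).1
    by_cases h : l = d
    · subst h
      rw [if_neg h1, if_pos List.mem_cons_self]
      simp
    · have h2 : (d == l) = false := by simpa using fun h' => h h'.symm
      rw [h2]
      simp [h]

omit [Fintype Λ] [DecidableEq Λ] in
theorem length_clean (M : ℕ) (dirs : List Λ) : (clean M dirs).length = dirs.length * (M + 1) := by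
  unfold clean
  induction dirs with
  | nil => simp
  | cons d ds ih =>
    rw [List.flatMap_cons, List.length_append, ih, List.length_replicate, List.length_cons]
    ring

omit [Fintype Λ] [DecidableEq Λ] in
theorem mem_clean {M : ℕ} {dirs : List Λ} {l : Λ} (h : l ∈ clean M dirs) : l ∈ dirs := by
  unfold clean at h
  rw [List.mem_flatMap] at h
  obtain ⟨d, hd, h1⟩ := h
  rw [List.eq_of_mem_replicate h1]
  exact hd

end Pool.Agent.H18.Cub

end

section

/-!
# Module Final: translation to fat points in projective space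
-/

namespace Pool.Agent.H18.Ex

open Finset Pool.Agent.H18.Fat

/-- The coefficient function of a polynomial. -/
noncomputable def cf {n : ℕ} (F : MvPolynomial (Fin n) ℂ) (a : Fin n → ℕ) : ℂ :=
  F.coeff (Finsupp.equivFunOnFinite.symm a)

/-- The condition at a free point from the order of vanishing. -/
theorem sat_of_vanishes {n d : ℕ} {w : Fin n → ℕ} {F : MvPolynomial (Fin n) ℂ}
    (hsupp : ∀ α ∈ F.support, ⇑α ∈ Rg d w) {q : Fin n → ℂ} {m : ℕ}
    (h : VanishesToOrder F q m) : Sat (Rg d w) (cf F) (Kind.free m) q := by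
  intro b hb
  have h1 := h (Finsupp.equivFunOnFinite.symm b) (by
    rw [Finsupp.degree_eq_sum]
    exact hb)
  rw [coeff_shift] at h1
  rw [← h1]
  symm
  apply sum_bij_ne_zero (fun (α : Fin n →₀ ℕ) _ _ => (⇑α : Fin n → ℕ))
  · intro α hα _
    exact hsupp α hα
  · intro α _ _ β _ _ hαβ
    exact DFunLike.coe_injective hαβ
  · intro a _ hne
    refine ⟨Finsupp.equivFunOnFinite.symm a, ?_, ?_, ?_⟩
    · rw [MvPolynomial.mem_support_iff]
      intro h0
      apply hne
      unfold cf
      rw [h0, zero_mul]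
    · exact hne
    · rfl
  · intro α _ _
    unfold cf tcr tc
    congr 1
    rw [show Finsupp.equivFunOnFinite.symm (⇑α) = α from by ext; rfl]

end Pool.Agent.H18.Ex

end

section

/-!
# Abstract Horace systems with traces of dimension `n`

As in `Pool.Agent.H18.Cub.Sys`, but the traces have dimension `n`; `tr l a S` says that the points
with multiplicities `S` kill the trace in direction `l` of the space of the state `a`.
-/

namespace Pool.Agent.H18.Pr

open Finset Pool.Agent.H18.Ex Pool.Agent.H18.Cub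

/-- An abstract Horace system with traces of dimension `n`. -/
structure SysN (Λ : Type) [Fintype Λ] [DecidableEq Λ] (n : ℕ) : Type where
  /-- the conditions `S` kill the space of the state `a` -/
  K : (Λ → ℕ) → Multiset (Kind Λ) → Prop
  /-- the size of the trace -/
  F : Λ → (Λ → ℕ) → ℕ
  /-- the virtual dimension -/
  R : (Λ → ℕ) → ℤ
  /-- the points with multiplicities `S` kill the trace -/
  tr : Λ → (Λ → ℕ) → Multiset ℕ → Prop
  mono : ∀ a S S', S ≤ S' → K a S → K a S'
  free_mono : ∀ a (T : Multiset ℕ) (S : Multiset (Kind Λ)), (∀ m ∈ T, 1 ≤ m) →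
    K a (Multiset.replicate T.card (Kind.free 1) + S) → K a (T.map Kind.free + S)
  tr_mono : ∀ l a S S', S ≤ S' → tr l a S → tr l a S'
  count : ∀ a l, 1 ≤ a l → 1 ≤ F l a → R a = R (dn l a) + F l a
  step : ∀ a l, 1 ≤ a l → ∀ μ, 1 ≤ μ → ∀ S : Multiset (Role Λ),
    (∀ k, Role.stay k ∈ S → k.NotAt l) → tr l a (S.map Role.layer) →
    K (dn l a) (S.map (Role.after l μ)) → K a (S.map (Role.before l μ))
  bridge : ∀ a l, 1 ≤ a l → ∀ (S : Multiset (Kind Λ)) (s : ℕ),
    K a (S + Multiset.replicate s (Kind.free 1)) → K (dn l a) (S.map (Kind.dn l)) →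
    K a (S + Multiset.replicate s (Kind.forced l 1 1))
  base : K 0 {Kind.free 1}
  base_R : R 0 = 1

variable {Λ : Type} [Fintype Λ] [DecidableEq Λ] {n : ℕ}

/-- The trace is killed by points of multiplicities at most `M` as soon as the lengths suffice. -/
def SysN.Gd (Y : SysN Λ n) (M : ℕ) (l : Λ) (a : Λ → ℕ) : Prop :=
  ∀ S : Multiset ℕ, (∀ m ∈ S, m ≤ M) → Y.F l a ≤ (S.map (ell n)).sum → Y.tr l a S

end Pool.Agent.H18.Pr

end

section

/-!
# General fat points, all but `r + 1` of which have small multiplicity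
-/

namespace Pool.Agent.H18.Fat

open MvPolynomial Finset

section

/-! ### Moments -/

/-! ### The region of exponents -/

/-- The exponents of degree `d` allowed by the coordinate points. -/
noncomputable def allowed (r d : ℕ) (mJ : Fin (r + 1) → ℕ) : Finset (Fin (r + 1) →₀ ℕ) := by
  classical
  exact (mons (r + 1) d).filter fun α => ∀ l, α l + mJ l ≤ d

/-! ### The upper bound -/

/-! ### The lower bound -/

/-- General points with indices in `J` are linearly independent. -/
theorem general_det {r k : ℕ} (J : Fin (r + 1) ↪ Fin k) :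
    ForGeneralPoints r k fun p =>
      (Matrix.of fun j l => p (J l) j : Matrix (Fin (r + 1)) (Fin (r + 1)) ℂ).det ≠ 0 := by
  classical
  let G : MvPolynomial (Fin k × Fin (r + 1)) ℂ :=
    (Matrix.of fun j l => X (J l, j) :
      Matrix (Fin (r + 1)) (Fin (r + 1)) (MvPolynomial (Fin k × Fin (r + 1)) ℂ)).det
  have hG : ∀ p : Fin k → Fin (r + 1) → ℂ, eval (fun x => p x.1 x.2) G =
      (Matrix.of fun j l => p (J l) j : Matrix (Fin (r + 1)) (Fin (r + 1)) ℂ).det := by
    intro p
    rw [RingHom.map_det, RingHom.mapMatrix_apply]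
    refine congrArg Matrix.det ?_
    ext j l
    simp
  refine ⟨G, ?_, fun p hp => by rwa [hG] at hp⟩
  intro h0
  have h1 := hG fun i j => if J j = i then 1 else 0
  rw [h0, map_zero] at h1
  have h2 : (Matrix.of fun j l => (fun (i : Fin k) (j : Fin (r + 1)) =>
      if J j = i then (1 : ℂ) else 0) (J l) j : Matrix (Fin (r + 1)) (Fin (r + 1)) ℂ) = 1 := by
    ext j l
    simp [Matrix.one_apply, J.injective.eq_iff]
  rw [h2, Matrix.det_one] at h1
  exact zero_ne_one h1

end

end Pool.Agent.H18.Fat

end
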