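import Pool.Agent.H94.LP1.H18.FatDefs
import Pool.Agent.H94.LP1.M10

/-! The parts of this file: H18.Cub.FinalC, H18.Cub.SortB, H18.Nef.NefA, H18.Pr.Kap, H18.TileAlg. -/

section

/-!
# Module FinalC: plane curves with many large multiplicities
-/

namespace Pool.Agent.H18.Cub

open Finset

/-- Sums over `J` and over the big points. -/
theorem sum_big {t s k : ℕ} (J : Finset (Fin k))
    (β : Fin t ⊕ Fin s → Option (Fin k)) (hJβ : ∀ i ∈ J, ∃ b, β b = some i)
    (hβJ : ∀ b i, β b = some i → i ∈ J)
    (hinj : ∀ b b' i, β b = some i → β b' = some i → b = b')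
    (f : Option (Fin k) → ℕ) (hf : f none = 0) :
    ∑ b, f (β b) = ∑ i ∈ J, f (some i) := by
  classical
  symm
  choose ψ hψ using hJβ
  apply sum_bij_ne_zero (fun i hi _ => ψ i hi)
  · intro i _ _
    exact mem_univ _
  · intro i hi _ j hj _ hij
    have h1 := hψ i hi
    have h2 := hψ j hj
    rw [hij, h2] at h1
    exact (Option.some.inj h1).symm
  · intro b _ hb
    rcases hβ : β b with _ | i
    · rw [hβ] at hb
      exact absurd hf hb
    · have hi := hβJ b i hβ
      refine ⟨i, hi, ?_, ?_⟩
      · rw [hβ] at hb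
        exact hb
      · exact hinj _ _ i (hψ i hi) hβ
  · intro i hi _
    rw [hψ i hi]

end Pool.Agent.H18.Cub

end

section

/-!
# Module SortB: the big points in decreasing order
-/

namespace Pool.Agent.H18.Cub

open Finset

/-- Enumerate a set `J` with at most `t + s` elements (and dummies, value `0`) by `Fin t ⊕ Fin s`, the
`t` largest values of `m` first.  (Enumerate `J` by `Fin J.card`, extend by dummies to `Fin (t + s)`,
sort with `Tuple.sort`, and use `finSumFinEquiv`.) -/
theorem exists_sorted {k : ℕ} (m : Fin k → ℕ) (J : Finset (Fin k)) (t s : ℕ) (hs : 1 ≤ s)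
    (hJ : J.card ≤ t + s) :
    ∃ (β : Fin t ⊕ Fin s → Option (Fin k)) (c : ℕ),
      (∀ b i, β b = some i → i ∈ J) ∧
      (∀ i ∈ J, ∃ b, β b = some i) ∧
      (∀ b b' i, β b = some i → β b' = some i → b = b') ∧
      (∀ l : Fin t, c ≤ (β (.inl l)).elim 0 m) ∧
      (∀ j : Fin s, (β (.inr j)).elim 0 m ≤ c) ∧
      (∃ j : Fin s, (β (.inr j)).elim 0 m = c) := by
  classical
  set e : Fin J.card ≃ J := J.equivFin.symm with he
  set f : Fin (t + s) → Option (Fin k) := fun a =>
    if h : a.1 < J.card then some (e ⟨a.1, h⟩).1 else none with hf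
  have hf1 : ∀ a i, f a = some i → i ∈ J := by
    intro a i h
    simp only [hf] at h
    split_ifs at h with h1
    · rw [← Option.some.inj h]
      exact (e ⟨a.1, h1⟩).2
  have hf2 : ∀ i ∈ J, ∃ a, f a = some i := by
    intro i hi
    have h1 : (e.symm ⟨i, hi⟩).1 < J.card := (e.symm ⟨i, hi⟩).2
    refine ⟨⟨(e.symm ⟨i, hi⟩).1, h1.trans_le hJ⟩, ?_⟩
    simp only [hf]
    rw [dif_pos h1]
    simp
  have hf3 : ∀ a a' i, f a = some i → f a' = some i → a = a' := by
    intro a a' i h h'
    simp only [hf] at h h'
    split_ifs at h with h1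
    split_ifs at h' with h2
    have h3 := (Option.some.inj h).trans (Option.some.inj h').symm
    have h4 := e.injective (Subtype.ext h3)
    exact Fin.ext (Fin.mk.inj h4)
  set g : Fin (t + s) → ℕ := fun a => (f a).elim 0 m with hg
  set σ : Equiv.Perm (Fin (t + s)) := Tuple.sort (fun a => OrderDual.toDual (g a)) with hσ
  have hmono : ∀ a b : Fin (t + s), a ≤ b → g (σ b) ≤ g (σ a) := by
    intro a b hab
    exact Tuple.monotone_sort (fun a => OrderDual.toDual (g a)) hab
  refine ⟨fun b => f (σ (finSumFinEquiv b)), g (σ (Fin.natAdd t ⟨0, hs⟩)), ?_, ?_, ?_, ?_, ?_, ?_⟩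
  · intro b i h
    exact hf1 _ _ h
  · intro i hi
    obtain ⟨a, ha⟩ := hf2 i hi
    refine ⟨finSumFinEquiv.symm (σ.symm a), ?_⟩
    simpa using ha
  · intro b b' i h h'
    have := hf3 _ _ _ h h'
    exact finSumFinEquiv.injective (σ.injective this)
  · intro l
    have := hmono (finSumFinEquiv (.inl l)) (Fin.natAdd t ⟨0, hs⟩) (by
      rw [finSumFinEquiv_apply_left, Fin.le_def]
      simp only [Fin.val_castAdd, Fin.val_natAdd]
      omega)
    exact this
  · intro j
    have := hmono (Fin.natAdd t ⟨0, hs⟩) (finSumFinEquiv (.inr j)) (by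
      rw [finSumFinEquiv_apply_right, Fin.le_def]
      simp only [Fin.val_natAdd]
      omega)
    exact this
  · refine ⟨⟨0, hs⟩, ?_⟩
    simp only [finSumFinEquiv_apply_right, hg]

end Pool.Agent.H18.Cub

end

section

/-!
# Effective classes and Cremona transformations
-/

namespace Pool.Agent.H18.Nef

open Finset Pool.Agent.H18.Fat

/-- A form of degree `e` vanishing to order more than `e` at a point is zero. -/
theorem eq_zero_of_vanishes {n e m : ℕ} (F : MvPolynomial (Fin n) ℂ) (hF : F.IsHomogeneous e)
    (q : Fin n → ℂ) (hm : e < m) (h : VanishesToOrder F q m) : F = 0 := by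
  have h1 : shift q F = 0 := by
    ext β
    rw [MvPolynomial.coeff_zero]
    by_cases hβ : β.degree < m
    · exact h β hβ
    · by_contra hc
      have h2 := MvPolynomial.le_totalDegree (MvPolynomial.mem_support_iff.2 hc)
      have h3 : (shift q F).totalDegree ≤ F.totalDegree := by
        unfold shift
        rw [MvPolynomial.aeval_def, MvPolynomial.eval₂_eq']
        refine (MvPolynomial.totalDegree_finsetSum _ _).trans (Finset.sup_le fun a ha => ?_)
        refine (MvPolynomial.totalDegree_mul _ _).trans ?_
        rw [MvPolynomial.algebraMap_eq, MvPolynomial.totalDegree_C, zero_add]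
        refine (MvPolynomial.totalDegree_finsetProd _ _).trans ?_
        refine le_trans ?_ (MvPolynomial.le_totalDegree ha)
        rw [Finsupp.sum_fintype _ _ (fun _ => rfl)]
        refine sum_le_sum fun i _ => ?_
        refine (MvPolynomial.totalDegree_pow _ _).trans ?_
        have h4 : (MvPolynomial.X i + MvPolynomial.C (q i) :
            MvPolynomial (Fin n) ℂ).totalDegree ≤ 1 := by
          refine (MvPolynomial.totalDegree_add _ _).trans (max_le ?_ ?_)
          · rw [MvPolynomial.totalDegree_X]
          · rw [MvPolynomial.totalDegree_C]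
            omega
        calc a i * _ ≤ a i * 1 := Nat.mul_le_mul_left _ h4
          _ = a i := mul_one _
      have h5 : F.totalDegree ≤ e := hF.totalDegree_le
      have h6 : (β.sum fun _ e => e) = β.degree := rfl
      omega
  have h2 : (MvPolynomial.aeval (fun j => MvPolynomial.X j - MvPolynomial.C (q j)))
      (shift q F) = F := by
    unfold shift
    rw [← AlgHom.comp_apply]
    have h3 : (MvPolynomial.aeval (fun j => (MvPolynomial.X j - MvPolynomial.C (q j) :
        MvPolynomial (Fin n) ℂ))).comp (MvPolynomial.aeval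
          (fun j => (MvPolynomial.X j + MvPolynomial.C (q j) : MvPolynomial (Fin n) ℂ))) =
        AlgHom.id ℂ _ := by
      apply MvPolynomial.algHom_ext
      intro j
      simp [MvPolynomial.algebraMap_eq]
    rw [h3]
    rfl
  rw [← h2, h1, map_zero]

end Pool.Agent.H18.Nef

end

section

/-!
# Module Kap (PR): the cost of a monomial
-/

namespace Pool.Agent.H18.Pr

open Finset Pool.Agent.H18.Ex Pool.Agent.H18.Cub

theorem kap_succ_le (e A b : ℕ) (he : 1 ≤ e) : kap e A (b + 1) ≤ kap e A b + 1 := by
  induction A generalizing b with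
  | zero => exact le_rfl
  | succ A ih =>
    show (b + 1) % e + kap e A ((b + 1) / e) ≤ b % e + kap e A (b / e) + 1
    have h1 : b % e < e := Nat.mod_lt _ he
    have h2 : e * (b / e) + b % e = b := Nat.div_add_mod b e
    rcases Nat.lt_or_ge (b % e + 1) e with h | h
    · have h3 : (b + 1) % e = b % e + 1 := by
        have h4 : b + 1 = b % e + 1 + e * (b / e) := by omega
        rw [h4, Nat.add_mul_mod_self_left, Nat.mod_eq_of_lt h]
      have h5 : (b + 1) / e = b / e := by
        have h4 : b + 1 = b % e + 1 + e * (b / e) := by omega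
        rw [h4, Nat.add_mul_div_left _ _ he, Nat.div_eq_of_lt h, Nat.zero_add]
      rw [h3, h5]
      omega
    · have h6 : b % e + 1 = e := by omega
      have h4 : b + 1 = e * (b / e + 1) := by
        rw [Nat.mul_add, Nat.mul_one]
        omega
      have h3 : (b + 1) % e = 0 := by rw [h4, Nat.mul_mod_right]
      have h5 : (b + 1) / e = b / e + 1 := by rw [h4, Nat.mul_div_cancel_left _ he]
      rw [h3, h5]
      have h7 := ih (b / e)
      omega

theorem kap_add_le (e A a b : ℕ) (he : 1 ≤ e) : kap e A (a + b) ≤ a + kap e A b := by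
  induction a with
  | zero => rw [Nat.zero_add, Nat.zero_add]
  | succ a ih =>
    have h := kap_succ_le e A (a + b) he
    rw [show a + 1 + b = a + b + 1 by omega]
    omega

theorem kap_mul_add (e A a b : ℕ) (he : 1 ≤ e) : kap e (A + 1) (a + e * b) ≤ a + kap e A b := by
  refine (kap_add_le e (A + 1) a (e * b) he).trans ?_
  show a + (e * b % e + kap e A (e * b / e)) ≤ a + kap e A b
  rw [Nat.mul_mod_right, Nat.mul_div_cancel_left _ he, Nat.zero_add]

theorem le_kap (e A a : ℕ) (he : 1 ≤ e) : a + 1 ≤ e ^ A * (kap e A a + 1) := by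
  induction A generalizing a with
  | zero =>
    show a + 1 ≤ e ^ 0 * (a + 1)
    rw [pow_zero, one_mul]
  | succ A ih =>
    have h1 : a % e < e := Nat.mod_lt _ he
    have h2 : e * (a / e) + a % e = a := Nat.div_add_mod a e
    have h3 : a + 1 ≤ e * (a / e + 1) := by
      rw [Nat.mul_add, Nat.mul_one]
      omega
    have h4 : kap e A (a / e) ≤ kap e (A + 1) a := Nat.le_add_left _ _
    calc a + 1 ≤ e * (a / e + 1) := h3
      _ ≤ e * (e ^ A * (kap e A (a / e) + 1)) := Nat.mul_le_mul_left _ (ih _)
      _ ≤ e * (e ^ A * (kap e (A + 1) a + 1)) :=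
          Nat.mul_le_mul_left _ (Nat.mul_le_mul_left _ (Nat.add_le_add_right h4 1))
      _ = e ^ (A + 1) * (kap e (A + 1) a + 1) := by rw [pow_succ]; ring

/-- The number of exponents of cost at most `d`. -/
theorem kap_card (e A d : ℕ) (he : 1 ≤ e) :
    ((range (e ^ A * (d + 1))).filter fun a => kap e A a ≤ d).card = tau e A 1 d := by
  induction A generalizing d with
  | zero =>
    show ((range (e ^ 0 * (d + 1))).filter fun a => a ≤ d).card = (d + 1).choose 1
    rw [pow_zero, one_mul, Nat.choose_one_right, filter_true_of_mem, card_range]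
    intro a ha
    exact Nat.lt_succ_iff.1 (mem_range.1 ha)
  | succ A ih =>
    have hmaps : ∀ a ∈ (range (e ^ (A + 1) * (d + 1))).filter fun a => kap e (A + 1) a ≤ d,
        a % e ∈ range e := fun a _ => mem_range.2 (Nat.mod_lt _ he)
    rw [card_eq_sum_card_fiberwise hmaps]
    show _ = ∑ δ ∈ range e, if δ ≤ d then tau e A 1 (d - δ) else 0
    refine sum_congr rfl fun δ hδ => ?_
    rw [mem_range] at hδ
    split_ifs with h
    · rw [← ih (d - δ)]
      have h1 : (((range (e ^ (A + 1) * (d + 1))).filter fun a => kap e (A + 1) a ≤ d).filter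
          fun a => a % e = δ) =
          ((range (e ^ A * (d - δ + 1))).filter fun b => kap e A b ≤ d - δ).image
            fun b => δ + e * b := by
        ext a
        simp only [mem_filter, mem_range, mem_image]
        constructor
        · rintro ⟨⟨_, h3⟩, h4⟩
          have h5 : kap e (A + 1) a = a % e + kap e A (a / e) := rfl
          have h6 : kap e A (a / e) ≤ d - δ := by omega
          refine ⟨a / e, ⟨?_, h6⟩, ?_⟩
          · have h7 := le_kap e A (a / e) he
            have h8 : e ^ A * (kap e A (a / e) + 1) ≤ e ^ A * (d - δ + 1) :=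
              Nat.mul_le_mul_left _ (by omega)
            omega
          · have := Nat.div_add_mod a e
            omega
        · rintro ⟨b, ⟨_, h3⟩, rfl⟩
          have h4 : (δ + e * b) % e = δ := by
            rw [Nat.add_mul_mod_self_left, Nat.mod_eq_of_lt hδ]
          have h5 : (δ + e * b) / e = b := by
            rw [Nat.add_mul_div_left _ _ he, Nat.div_eq_of_lt hδ, Nat.zero_add]
          have h6 : kap e (A + 1) (δ + e * b) = δ + kap e A b := by
            show (δ + e * b) % e + kap e A ((δ + e * b) / e) = _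
            rw [h4, h5]
          refine ⟨⟨?_, by omega⟩, h4⟩
          have h7 := le_kap e (A + 1) (δ + e * b) he
          have h8 : e ^ (A + 1) * (kap e (A + 1) (δ + e * b) + 1) ≤ e ^ (A + 1) * (d + 1) :=
            Nat.mul_le_mul_left _ (by omega)
          omega
      rw [h1, card_image_of_injective]
      intro b b' hb
      have hb' : δ + e * b = δ + e * b' := hb
      exact Nat.eq_of_mul_eq_mul_left he (Nat.add_left_cancel hb')
    · rw [card_eq_zero, filter_eq_empty_iff]
      intro a ha h2
      rw [mem_filter] at ha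
      have h5 : kap e (A + 1) a = a % e + kap e A (a / e) := rfl
      omega

theorem kap_eq_zero (e A a : ℕ) (he : 1 ≤ e) (h : kap e A a = 0) : a = 0 := by
  induction A generalizing a with
  | zero => exact h
  | succ A ih =>
    have h1 : a % e + kap e A (a / e) = 0 := h
    have h2 := ih (a / e) (by omega)
    have h3 := Nat.div_add_mod a e
    rw [h2] at h3
    omega

variable {R : ℕ}

/-- Substituting `x_u = x_{u'}^e`. -/
theorem cost_subS (e : ℕ) (he : 1 ≤ e) (u u' : Fin (R + 1)) (hu : u.val = u'.val + 1)
    (α : Fin (R + 1) → ℕ) :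
    cost e u' (fun i => if i = u then 0 else if i = u' then α u' + e * α u else α i) ≤
      cost e u α := by
  have hne : u' ≠ u := by
    intro h
    rw [h] at hu
    omega
  have hmem : u' ∈ univ.erase u := mem_erase.2 ⟨hne, mem_univ _⟩
  unfold cost
  rw [← add_sum_erase univ _ (mem_univ u), ← add_sum_erase (univ.erase u) _ hmem,
    ← add_sum_erase univ (fun i => if i = u then kap e (R - u.val) (α i) else α i) (mem_univ u),
    ← add_sum_erase (univ.erase u) (fun i => if i = u then kap e (R - u.val) (α i) else α i) hmem]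
  have hrest : ∑ i ∈ (univ.erase u).erase u', (if i = u' then
      kap e (R - u'.val) (if i = u then 0 else if i = u' then α u' + e * α u else α i) else
      (if i = u then 0 else if i = u' then α u' + e * α u else α i)) =
      ∑ i ∈ (univ.erase u).erase u', (if i = u then kap e (R - u.val) (α i) else α i) := by
    refine sum_congr rfl fun i hi => ?_
    rw [mem_erase, mem_erase] at hi
    rw [if_neg hi.1, if_neg hi.2.1, if_neg hi.1, if_neg hi.2.1]
  rw [hrest]
  simp only [if_neg hne, if_neg hne.symm, if_true]
  have hR : R - u'.val = (R - u.val) + 1 := by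
    have := u.2
    omega
  rw [hR]
  have h1 := kap_mul_add e (R - u.val) (α u') (α u) he
  omega

/-- Substituting a constant for `x_v`. -/
theorem cost_subH (e : ℕ) (u v : Fin (R + 1)) (hv : v ≠ u) (α : Fin (R + 1) → ℕ) :
    cost e u (Function.update α v 0) ≤ cost e u α := by
  unfold cost
  refine sum_le_sum fun i _ => ?_
  by_cases h : i = v
  · subst h
    rw [if_neg hv, if_neg hv, Function.update_self]
    exact Nat.zero_le _
  · rw [Function.update_of_ne h]

theorem cost_add_of_ne (e : ℕ) (u i : Fin (R + 1)) (hi : i ≠ u) (α : Fin (R + 1) → ℕ) (c : ℕ) :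
    cost e u (Function.update α i (α i + c)) = cost e u α + c := by
  unfold cost
  rw [← add_sum_erase univ _ (mem_univ i),
    ← add_sum_erase univ (fun j => if j = u then kap e (R - u.val) (α j) else α j) (mem_univ i)]
  rw [if_neg hi, if_neg hi, Function.update_self]
  have h : ∑ j ∈ univ.erase i, (if j = u then
      kap e (R - u.val) (Function.update α i (α i + c) j) else
      Function.update α i (α i + c) j) =
      ∑ j ∈ univ.erase i, (if j = u then kap e (R - u.val) (α j) else α j) := by
    refine sum_congr rfl fun j hj => ?_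
    rw [Function.update_of_ne (mem_erase.1 hj).1]
  rw [h]
  omega

theorem cost_add_top (e : ℕ) (he : 1 ≤ e) (u : Fin (R + 1)) (α : Fin (R + 1) → ℕ) :
    cost e u (Function.update α u (α u + 1)) ≤ cost e u α + 1 := by
  unfold cost
  rw [← add_sum_erase univ _ (mem_univ u),
    ← add_sum_erase univ (fun j => if j = u then kap e (R - u.val) (α j) else α j) (mem_univ u)]
  rw [if_pos rfl, if_pos rfl, Function.update_self]
  have h : ∑ j ∈ univ.erase u, (if j = u then
      kap e (R - u.val) (Function.update α u (α u + 1) j) else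
      Function.update α u (α u + 1) j) =
      ∑ j ∈ univ.erase u, (if j = u then kap e (R - u.val) (α j) else α j) := by
    refine sum_congr rfl fun j hj => ?_
    rw [Function.update_of_ne (mem_erase.1 hj).1]
  rw [h]
  have h1 := kap_succ_le e (R - u.val) (α u) he
  omega

theorem cost_ge_of_ne (e : ℕ) (u i : Fin (R + 1)) (hi : i ≠ u) (α : Fin (R + 1) → ℕ) :
    α i ≤ cost e u α := by
  have h := single_le_sum (f := fun j => if j = u then kap e (R - u.val) (α j) else α j)
    (fun j _ => Nat.zero_le _) (mem_univ i)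
  simp only [if_neg hi] at h
  exact h

theorem cost_ge_top (e : ℕ) (u : Fin (R + 1)) (α : Fin (R + 1) → ℕ) :
    kap e (R - u.val) (α u) ≤ cost e u α := by
  have h := single_le_sum (f := fun j => if j = u then kap e (R - u.val) (α j) else α j)
    (fun j _ => Nat.zero_le _) (mem_univ u)
  simp only [if_true] at h
  exact h

theorem le_cost (e : ℕ) (he : 1 ≤ e) (u : Fin (R + 1)) (α : Fin (R + 1) → ℕ) (i : Fin (R + 1)) :
    α i + 1 ≤ e ^ R * (cost e u α + 1) := by
  by_cases h : i = u
  · subst h
    have h1 := le_kap e (R - i.val) (α i) he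
    have h2 := cost_ge_top e i α
    refine h1.trans (Nat.mul_le_mul (Nat.pow_le_pow_right he (Nat.sub_le _ _)) (by omega))
  · have h1 := cost_ge_of_ne e u i h α
    have h2 : 1 ≤ e ^ R := Nat.one_le_pow _ _ he
    calc α i + 1 ≤ 1 * (cost e u α + 1) := by omega
      _ ≤ e ^ R * (cost e u α + 1) := Nat.mul_le_mul_right _ h2

theorem cost_eq_zero (e : ℕ) (he : 1 ≤ e) (u : Fin (R + 1)) (α : Fin (R + 1) → ℕ)
    (h : cost e u α = 0) : α = 0 := by
  funext i
  by_cases hi : i = u
  · subst hi
    have h1 := cost_ge_top e i α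
    exact kap_eq_zero e (R - i.val) _ he (by omega)
  · have h1 := cost_ge_of_ne e u i hi α
    show α i = 0
    omega

/-- For the top level the cost is the degree. -/
theorem cost_last (e : ℕ) (u : Fin (R + 1)) (hu : u.val = R) (α : Fin (R + 1) → ℕ) :
    cost e u α = ∑ i, α i := by
  unfold cost
  refine sum_congr rfl fun i _ => ?_
  rw [hu, Nat.sub_self]
  show (if i = u then α i else α i) = α i
  rw [ite_self]

end Pool.Agent.H18.Pr

end

section

/-!
# Fat points and tilings: the algebraic part

Systems of binomial moment conditions on the functions supported on a finite set of lattice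
points, cutting by hyperplanes and simplicial cells.
-/

namespace Pool.Agent.H18.Fat

open MvPolynomial Finset

section

variable {r : ℕ}

/-- Splitting a sum over `B₁ ∪ B₂`. -/
theorem sum_split {B B₁ B₂ : Finset (Fin r → ℤ)} (h₁ : B₁ ⊆ B) (h₂ : B₂ ⊆ B)
    {ℓ : (Fin r → ℤ) → ℤ} {c : ℤ} (hB₁ : ∀ a ∈ B₁, ℓ a ≤ c) (hB₂ : ∀ a ∈ B₂, c < ℓ a)
    (g : (Fin r → ℤ) → ℂ) (hg : ∀ a ∈ B, a ∉ B₁ → a ∉ B₂ → g a = 0) :
    ∑ a ∈ B, g a = ∑ a ∈ B₁, g a + ∑ a ∈ B₂, g a := by
  classical
  have hdisj : Disjoint B₁ B₂ := by
    rw [Finset.disjoint_left]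
    intro a ha ha'
    have := hB₁ a ha
    have := hB₂ a ha'
    omega
  rw [← sum_union hdisj]
  symm
  apply sum_subset (union_subset h₁ h₂)
  intro a ha hna
  rw [mem_union, not_or] at hna
  exact hg a ha hna.1 hna.2

end

end Pool.Agent.H18.Fat

end
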