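import Pool.Agent.H94.LP1.M03
import Pool.Agent.H94.LP1.M07
import Pool.Agent.H94.LP1.M11
import Pool.Agent.H94.LP1.M15

/-! The parts of this file: H18.Pr.TransR, H18.TileMain, H18.Pr.FinalR. -/

section

/-!
# Module TransR (PR): forms in `R + 2` variables and polynomials in `z_0, …, z_R`

Compare with `Pool.Agent.H18.Cub.Trans` (the case `R = 1`).
-/

namespace Pool.Agent.H18.Pr

open Finset Pool.Agent.H18.Ex Pool.Agent.H18.Cub Pool.Agent.H18.Fat

variable {R : ℕ}

/-- The coordinates `x_k` as polynomials in `z`: `x_0 = z_0`, `x_{k+1} = z_{k+1} + x_k^e`. -/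
noncomputable def yyN (R e : ℕ) : ℕ → MvPolynomial (Fin (R + 1)) ℂ
  | 0 => MvPolynomial.X 0
  | k + 1 => (if h : k + 1 < R + 1 then MvPolynomial.X ⟨k + 1, h⟩ else 0) + yyN R e k ^ e

/-- The coordinates `x_k` of the point `z`. -/
noncomputable def phN (R e : ℕ) (z : Fin (R + 1) → ℂ) : ℕ → ℂ
  | 0 => z 0
  | k + 1 => (if h : k + 1 < R + 1 then z ⟨k + 1, h⟩ else 0) + phN R e z k ^ e

/-- `F(X_0, …, X_{R+1}) ↦ F(1, x_0, …, x_R)`, as a polynomial in `z`. -/
noncomputable def deR (R e : ℕ) :
    MvPolynomial (Fin (R + 1 + 1)) ℂ →ₐ[ℂ] MvPolynomial (Fin (R + 1)) ℂ :=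
  MvPolynomial.aeval (Fin.cons 1 fun i : Fin (R + 1) => yyN R e i.val)

/-- The coordinate `x_k` of a point differs from its value by an element of the ideal of the
point. -/
theorem transR_yyN_mem (e : ℕ) (z : Fin (R + 1) → ℂ) (k : ℕ) :
    yyN R e k - MvPolynomial.C (phN R e z k) ∈ (Ideal.span (Set.range fun j =>
      (MvPolynomial.X j - MvPolynomial.C (z j) : MvPolynomial (Fin (R + 1)) ℂ))) := by
  induction k with
  | zero => exact Ideal.subset_span ⟨0, rfl⟩
  | succ k ih =>
    by_cases h : k + 1 < R + 1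
    · have h0 : yyN R e (k + 1) - MvPolynomial.C (phN R e z (k + 1)) =
          (MvPolynomial.X ⟨k + 1, h⟩ - MvPolynomial.C (z ⟨k + 1, h⟩)) +
            (yyN R e k ^ e - MvPolynomial.C (phN R e z k) ^ e) := by
        simp only [yyN, phN, dif_pos h, map_add, map_pow]
        ring
      rw [h0]
      exact Ideal.add_mem _ (Ideal.subset_span ⟨⟨k + 1, h⟩, rfl⟩)
        (Ideal.mem_of_dvd _ (sub_dvd_pow_sub_pow _ _ e) ih)
    · have h0 : yyN R e (k + 1) - MvPolynomial.C (phN R e z (k + 1)) =
          yyN R e k ^ e - MvPolynomial.C (phN R e z k) ^ e := by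
        simp only [yyN, phN, dif_neg h, map_add, map_pow, map_zero]
        ring
      rw [h0]
      exact Ideal.mem_of_dvd _ (sub_dvd_pow_sub_pow _ _ e) ih

/-- Orders of vanishing (use `vanishesToOrder_iff_mem_ideal_pow`, as in `deh_vanish`). -/
theorem deR_vanish (e : ℕ) (F : MvPolynomial (Fin (R + 1 + 1)) ℂ) (z : Fin (R + 1) → ℂ) (m : ℕ)
    (h : VanishesToOrder F (Fin.cons 1 fun i : Fin (R + 1) => phN R e z i.val) m)
    (α : Fin (R + 1) → ℕ) (hα : ∑ i, α i < m) : tay (deR R e F) z α = 0 := by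
  rw [vanishesToOrder_iff_mem_ideal_pow] at h
  set J : Ideal (MvPolynomial (Fin (R + 1)) ℂ) := Ideal.span (Set.range fun j =>
    (MvPolynomial.X j - MvPolynomial.C (z j) : MvPolynomial (Fin (R + 1)) ℂ)) with hJ
  have hC : ∀ c : ℂ, deR R e (MvPolynomial.C c) = MvPolynomial.C c := fun c => (deR R e).commutes c
  have hle : Ideal.map (deR R e) (Ideal.span (Set.range fun j =>
      (MvPolynomial.X j - MvPolynomial.C ((Fin.cons 1 fun i : Fin (R + 1) => phN R e z i.val :
        Fin (R + 1 + 1) → ℂ) j) : MvPolynomial (Fin (R + 1 + 1)) ℂ))) ≤ J := by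
    rw [Ideal.map_span, Ideal.span_le]
    rintro _ ⟨_, ⟨j, rfl⟩, rfl⟩
    refine Fin.cases ?_ (fun i => ?_) j
    · have h0 : deR R e (MvPolynomial.X 0 - MvPolynomial.C 1) = 0 := by
        rw [map_sub, hC]
        simp [deR]
      change deR R e (MvPolynomial.X 0 - MvPolynomial.C 1) ∈ J
      rw [h0]
      exact J.zero_mem
    · have h0 : deR R e (MvPolynomial.X i.succ - MvPolynomial.C (phN R e z i.val)) =
          yyN R e i.val - MvPolynomial.C (phN R e z i.val) := by
        rw [map_sub, hC]
        simp [deR]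
      change deR R e (MvPolynomial.X i.succ - MvPolynomial.C (phN R e z i.val)) ∈ J
      rw [h0]
      exact transR_yyN_mem e z i.val
  have h1 : deR R e F ∈ J ^ m := by
    have h2 := Ideal.mem_map_of_mem (deR R e) h
    rw [Ideal.map_pow] at h2
    exact Ideal.pow_right_mono hle m h2
  have h2 : VanishesToOrder (deR R e F) z m := by
    rw [vanishesToOrder_iff_mem_ideal_pow]
    exact h1
  refine h2 (Finsupp.equivFunOnFinite.symm α) ?_
  rw [Finsupp.degree_eq_sum]
  simpa using hα

/-- `F(1, x_0, …, x_R)`. -/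
noncomputable def transR_one (R : ℕ) :
    MvPolynomial (Fin (R + 1 + 1)) ℂ →ₐ[ℂ] MvPolynomial (Fin (R + 1)) ℂ :=
  MvPolynomial.aeval (Fin.cons 1 fun i : Fin (R + 1) => MvPolynomial.X i)

theorem transR_Th_yyN (e : ℕ) (u : Fin (R + 1)) (hu : u.val = R) (k : ℕ) (hk : k < R + 1) :
    Th e 0 u 0 (yyN R e k) = MvPolynomial.X ⟨k, hk⟩ := by
  induction k with
  | zero => simp [yyN, Th]
  | succ k ih =>
    have h1 : Th e 0 u 0 (yyN R e (k + 1)) =
        Th e 0 u 0 (MvPolynomial.X ⟨k + 1, hk⟩) + Th e 0 u 0 (yyN R e k) ^ e := by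
      rw [← map_pow, ← map_add]
      simp only [yyN, dif_pos hk]
    rw [h1, ih (by omega)]
    have h2 : Th e 0 u 0 (MvPolynomial.X (⟨k + 1, hk⟩ : Fin (R + 1))) =
        MvPolynomial.X ⟨k + 1, hk⟩ - MvPolynomial.X ⟨k, by omega⟩ ^ e := by
      simp only [Th, MvPolynomial.aeval_X]
      rw [if_neg, if_pos]
      · rfl
      · constructor
        · rw [Fin.lt_def]
          simp
        · rw [Fin.le_def]
          simp only
          omega
      · intro h
        have := congrArg Fin.val h
        simp at this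
    rw [h2]
    ring

theorem transR_Th_deR (e : ℕ) (u : Fin (R + 1)) (hu : u.val = R)
    (F : MvPolynomial (Fin (R + 1 + 1)) ℂ) : Th e 0 u 0 (deR R e F) = transR_one R F := by
  have h : (Th e 0 u 0).comp (deR R e) = transR_one R := by
    refine MvPolynomial.algHom_ext (fun i => ?_)
    refine Fin.cases ?_ (fun i => ?_) i
    · simp [deR, transR_one]
    · simp only [AlgHom.comp_apply, deR, transR_one, MvPolynomial.aeval_X, Fin.cons_succ]
      exact transR_Th_yyN e u hu i.val i.isLt
  exact congrArg (fun φ : MvPolynomial (Fin (R + 1 + 1)) ℂ →ₐ[ℂ] MvPolynomial (Fin (R + 1)) ℂ =>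
    φ F) h

/-- The exponent of the dehomogenised monomial. -/
noncomputable def transR_exp (s : Fin (R + 1 + 1) →₀ ℕ) : Fin (R + 1) →₀ ℕ :=
  Finsupp.equivFunOnFinite.symm fun i => s i.succ

theorem transR_one_monomial (s : Fin (R + 1 + 1) →₀ ℕ) (c : ℂ) :
    transR_one R (MvPolynomial.monomial s c) = MvPolynomial.monomial (transR_exp s) c := by
  rw [transR_one, MvPolynomial.aeval_monomial, Finsupp.prod_fintype _ _ (fun i => pow_zero _),
    Fin.prod_univ_succ, MvPolynomial.monomial_eq,
    Finsupp.prod_fintype _ _ (fun i => pow_zero _), MvPolynomial.algebraMap_eq]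
  simp [transR_exp]

theorem transR_one_eq (F : MvPolynomial (Fin (R + 1 + 1)) ℂ) :
    transR_one R F = ∑ s ∈ F.support, MvPolynomial.monomial (transR_exp s) (F.coeff s) := by
  conv_lhs => rw [F.as_sum]
  rw [map_sum]
  exact sum_congr rfl fun s _ => transR_one_monomial s _

theorem transR_degree {d : ℕ} {F : MvPolynomial (Fin (R + 1 + 1)) ℂ} (hF : F.IsHomogeneous d)
    {s : Fin (R + 1 + 1) →₀ ℕ} (hs : F.coeff s ≠ 0) : s 0 + ∑ i, transR_exp s i = d := by
  have h1 := hF hs
  rw [← h1, Finsupp.weight_apply, Finsupp.sum_fintype _ _ (fun i => by simp),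
    Fin.sum_univ_succ (n := R + 1)]
  simp [transR_exp]

/-- The degree: `Th e 0 u 0 (deR R e F) = F(1, x_0, …, x_R)` for `u = R`; use `cost_last`. -/
theorem deR_cost (e d : ℕ) (u : Fin (R + 1)) (hu : u.val = R)
    (F : MvPolynomial (Fin (R + 1 + 1)) ℂ) (hF : F.IsHomogeneous d) :
    ∀ α : Fin (R + 1) →₀ ℕ, α ∈ (Th e 0 u 0 (deR R e F)).support → cost e u α ≤ d := by
  intro α hα
  rw [transR_Th_deR e u hu, transR_one_eq] at hα
  have h1 := MvPolynomial.support_sum hα
  obtain ⟨s, hs, h2⟩ := mem_biUnion.1 h1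
  have h3 := MvPolynomial.support_monomial_subset h2
  rw [mem_singleton] at h3
  subst h3
  rw [cost_last e u hu]
  have h4 := transR_degree hF (MvPolynomial.mem_support_iff.1 hs)
  omega

theorem deR_injective (e d : ℕ) (F : MvPolynomial (Fin (R + 1 + 1)) ℂ) (hF : F.IsHomogeneous d)
    (h : deR R e F = 0) : F = 0 := by
  have h0 : transR_one R F = 0 := by
    rw [← transR_Th_deR e (Fin.last R) rfl, h, map_zero]
  by_contra hne
  obtain ⟨s, hs⟩ := MvPolynomial.ne_zero_iff.1 hne
  have h1 : (transR_one R F).coeff (transR_exp s) = F.coeff s := by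
    rw [transR_one_eq, MvPolynomial.coeff_sum, sum_eq_single s]
    · rw [MvPolynomial.coeff_monomial, if_pos rfl]
    · intro t ht hts
      rw [MvPolynomial.coeff_monomial, if_neg]
      intro heq
      apply hts
      have h2 := transR_degree hF (MvPolynomial.mem_support_iff.1 ht)
      have h3 := transR_degree hF hs
      rw [heq] at h2
      ext i
      refine Fin.cases ?_ (fun i => ?_) i
      · omega
      · have h4 := DFunLike.congr_fun heq i
        simpa [transR_exp] using h4
    · intro hns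
      exact absurd (MvPolynomial.mem_support_iff.2 hs) hns
  rw [h0, MvPolynomial.coeff_zero] at h1
  exact hs h1.symm

end Pool.Agent.H18.Pr

end

section

/-!
# The classification of special systems outside a window
-/

namespace Pool.Agent.H18.Fat

open MvPolynomial Finset

/-! ### Sorting -/

theorem exists_sorted {ι : Type*} [Fintype ι] (m : ι → ℕ) :
    ∃ (K : ℕ) (f : ℕ → ℕ) (e : Fin K ≃ ι), Antitone f ∧ (∀ n : Fin K, f n = m (e n)) ∧
      ∀ n, K ≤ n → f n = 0 := by
  classical
  let e₀ : Fin (Fintype.card ι) ≃ ι := (Fintype.equivFin ι).symm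
  let g : Fin (Fintype.card ι) → ℕᵒᵈ := fun n => OrderDual.toDual (m (e₀ n))
  have hg := Tuple.monotone_sort g
  refine ⟨Fintype.card ι,
    fun n => if h : n < Fintype.card ι then m (e₀ (Tuple.sort g ⟨n, h⟩)) else 0,
    (Tuple.sort g).trans e₀, ?_, ?_, ?_⟩
  · intro a b hab
    simp only
    by_cases hb : b < Fintype.card ι
    · rw [dif_pos hb, dif_pos (lt_of_le_of_lt hab hb)]
      have h1 : (⟨a, lt_of_le_of_lt hab hb⟩ : Fin (Fintype.card ι)) ≤ ⟨b, hb⟩ := hab
      exact hg h1
    · rw [dif_neg hb]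
      exact Nat.zero_le _
  · intro n
    simp only
    rw [dif_pos n.2]
    rfl
  · intro n hn
    simp only
    rw [dif_neg (by omega)]

/-! ### Counting -/

section

variable {r d : ℕ}

/-- The exponents excluded by the `l`-th coordinate point. -/
noncomputable def bad (r d : ℕ) (mJ : Fin (r + 1) → ℕ) (l : Fin (r + 1)) :
    Finset (Fin (r + 1) →₀ ℕ) := by
  classical
  exact (mons (r + 1) d).filter fun α => d < α l + mJ l

theorem mem_bad {mJ : Fin (r + 1) → ℕ} {l : Fin (r + 1)} {α : Fin (r + 1) →₀ ℕ} :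
    α ∈ bad r d mJ l ↔ α ∈ mons (r + 1) d ∧ d < α l + mJ l := by
  classical
  unfold bad
  rw [mem_filter]

theorem card_bad {mJ : Fin (r + 1) → ℕ} {l : Fin (r + 1)} (h1 : 1 ≤ mJ l) (h2 : mJ l ≤ d) :
    (bad r d mJ l).card = len r (mJ l) := by
  classical
  have h3 : len r (mJ l) = (mons (r + 1) (mJ l - 1)).card := by
    rw [card_mons]
    unfold len
    congr 1
    omega
  rw [h3]
  symm
  apply card_nbij' (fun α => α + Finsupp.single l (d + 1 - mJ l))
    (fun α => α - Finsupp.single l (d + 1 - mJ l))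
  · intro α hα
    rw [mem_coe, mem_mons] at hα
    rw [mem_coe, mem_bad, mem_mons]
    simp only [map_add, Finsupp.degree_single, Finsupp.add_apply, Finsupp.single_eq_same]
    omega
  · intro α hα
    rw [mem_coe, mem_bad, mem_mons] at hα
    rw [mem_coe, mem_mons]
    have h4 : α - Finsupp.single l (d + 1 - mJ l) + Finsupp.single l (d + 1 - mJ l) = α := by
      apply tsub_add_cancel_of_le
      rw [Finsupp.single_le_iff]
      omega
    have h5 := congrArg Finsupp.degree h4
    rw [map_add, Finsupp.degree_single] at h5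
    simp only
    omega
  · intro α _
    simp only
    exact add_tsub_cancel_right _ _
  · intro α hα
    rw [mem_coe, mem_bad, mem_mons] at hα
    simp only
    apply tsub_add_cancel_of_le
    rw [Finsupp.single_le_iff]
    omega

theorem sum_card_bad (mJ : Fin (r + 1) → ℕ) :
    ∑ l, (bad r d mJ l).card = ∑ α ∈ mons (r + 1) d, ∑ l, if d < α l + mJ l then 1 else 0 := by
  classical
  rw [sum_comm]
  refine sum_congr rfl fun l _ => ?_
  unfold bad
  rw [card_filter]

theorem card_mons_eq (mJ : Fin (r + 1) → ℕ) :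
    (d + r).choose r = (allowed r d mJ).card +
      ∑ α ∈ mons (r + 1) d, if ∃ l, d < α l + mJ l then 1 else 0 := by
  classical
  rw [← card_mons, ← card_filter]
  unfold allowed
  have h : (mons (r + 1) d).filter (fun α => ∃ l, d < α l + mJ l) =
      (mons (r + 1) d).filter fun α => ¬ ∀ l, α l + mJ l ≤ d := by
    apply filter_congr
    intro α _
    push Not
    rfl
  rw [h]
  exact (card_filter_add_card_filter_not _).symm

theorem count_eq {mJ : Fin (r + 1) → ℕ} (h1 : ∀ l, 1 ≤ mJ l) (h2 : ∀ l, mJ l ≤ d)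
    (h3 : ∀ l l', l ≠ l' → mJ l + mJ l' ≤ d + 1) :
    (d + r).choose r = (allowed r d mJ).card + ∑ l, len r (mJ l) := by
  classical
  rw [card_mons_eq mJ, ← sum_congr rfl fun l (_ : l ∈ univ) => card_bad (h1 l) (h2 l),
    sum_card_bad]
  congr 1
  refine sum_congr rfl fun α hα => ?_
  split_ifs with h
  · obtain ⟨l, hl⟩ := h
    rw [sum_eq_single l]
    · rw [if_pos hl]
    · intro l' _ hl'
      rw [if_neg]
      intro h4
      have h5 := h3 l l' (Ne.symm hl')
      rw [mem_mons, Finsupp.degree_eq_sum] at hα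
      have h6 : α l + α l' ≤ ∑ i, α i := by
        rw [← sum_pair (Ne.symm hl')]
        exact sum_le_sum_of_subset (subset_univ _)
      omega
    · intro h4
      exact absurd (mem_univ _) h4
  · push Not at h
    symm
    refine sum_eq_zero fun l _ => ?_
    rw [if_neg (by have := h l; omega)]

end

/-! ### Special configurations -/

section

variable {s d : ℕ} {ι : Type*}

end

/-! ### The main theorem -/

end Pool.Agent.H18.Fat

end

section

/-!
# Module FinalR (PR): many large multiplicities in `ℙ^r`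
-/

namespace Pool.Agent.H18.Pr

open Finset Pool.Agent.H18.Ex Pool.Agent.H18.Cub Pool.Agent.H18.Fat

/-- The multiplicities outside `J` and the simple points. -/
def kkR {k : ℕ} (m : Fin k → ℕ) (J : Finset (Fin k)) (r : ℕ) :
    {i : Fin k // i ∉ J} ⊕ Fin r → ℕ :=
  Sum.elim (fun i => m i.1) fun _ => 1

/-- A special configuration. -/
theorem special_of_Fk {R t s k d : ℕ} (u : Fin (R + 1)) (hu : u.val = R) (m : Fin k → ℕ)
    (J : Finset (Fin k))
    (β : Fin t ⊕ Fin s → Option (Fin k)) (hJβ : ∀ i ∈ J, ∃ b, β b = some i)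
    (hβJ : ∀ b i, β b = some i → i ∈ J)
    (hinj : ∀ b b' i, β b = some i → β b' = some i → b = b')
    (n : Fin t ⊕ Fin s → ℕ) (N : Option (Fin t) → ℕ)
    (hmu : ∀ b, mu n N b = (β b).elim 0 m) (hdd : dd N = d) (r : ℕ)
    (h : Fk (WM u n N) ((univ : Finset ({i : Fin k // i ∉ J} ⊕ Fin r)).val.map (kkR m J r))) :
    ∃ p₀ : Fin k → Fin (R + 1 + 1) → ℂ, (∀ i, p₀ i 0 = 1) ∧
      Module.finrank ℂ (fatForms (R + 1) d p₀ m) ≤ r := by
  classical
  rw [Fk_iff (gM t u), Multiset.map_map, GMP_iff] at h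
  obtain ⟨pos, hpos⟩ := h
  let p₀ : Fin k → Fin (R + 1 + 1) → ℂ := fun i =>
    if hi : i ∈ J then
      Fin.cons 1 fun j : Fin (R + 1) =>
        phN R (t + 1) (ptv 0 ((xx (hJβ i hi).choose : ℕ) : ℂ)) j.val
    else Fin.cons 1 fun j : Fin (R + 1) => phN R (t + 1) (pos (Sum.inl ⟨i, hi⟩)) j.val
  refine ⟨p₀, fun i => ?_, ?_⟩
  · simp only [p₀]
    split_ifs <;> rfl
  let Ψ : fatForms (R + 1) d p₀ m →ₗ[ℂ] (Fin r → ℂ) :=
    { toFun := fun F j => tay (deR R (t + 1) F.1) (pos (Sum.inr j)) 0
      map_add' := fun F G => by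
        funext j
        simp only [Submodule.coe_add, map_add, tay_add, Pi.add_apply]
      map_smul' := fun c F => by
        funext j
        simp only [Submodule.coe_smul, map_smul, tay_smul, RingHom.id_apply, Pi.smul_apply,
          smul_eq_mul, Algebra.algebraMap_self] }
  have hΨ : Function.Injective Ψ := by
    rw [← LinearMap.ker_eq_bot, LinearMap.ker_eq_bot']
    intro F hF
    have hFh : F.1.IsHomogeneous d := F.2.1
    apply Subtype.ext
    change F.1 = 0
    apply deR_injective (t + 1) d F.1 hFh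
    apply hpos
    · refine ⟨fun i hi => ?_, ?_, ?_⟩
      · exfalso
        rcases hi with hi | hi
        · exact absurd hi (Nat.not_lt_zero _)
        · have := i.isLt
          rw [Fin.lt_def, hu] at hi
          omega
      · intro α hα
        rw [hdd]
        exact deR_cost (t + 1) d u hu F.1 hFh α hα
      · intro b α hα
        rw [hmu b] at hα
        rcases hb : β b with _ | i
        · rw [hb] at hα
          exact absurd hα (Nat.not_lt_zero _)
        · rw [hb] at hα
          have hi := hβJ b i hb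
          have h1 := F.2.2 i
          have h2 : p₀ i = Fin.cons 1 fun j : Fin (R + 1) =>
              phN R (t + 1) (ptv 0 ((xx b : ℕ) : ℂ)) j.val := by
            simp only [p₀]
            rw [dif_pos hi, hinj _ b i (hJβ i hi).choose_spec hb]
          rw [h2] at h1
          exact deR_vanish (t + 1) F.1 _ (m i) h1 α hα
    · rintro (i | j)
      · have h1 := F.2.2 i.1
        have h2 : p₀ i.1 = Fin.cons 1 fun j : Fin (R + 1) =>
            phN R (t + 1) (pos (Sum.inl i)) j.val := by
          simp only [p₀]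
          rw [dif_neg i.2]
        rw [h2] at h1
        intro α hα
        exact deR_vanish (t + 1) F.1 _ (m i.1) h1 α hα
      · intro α hα
        have hα0 : α = 0 := by
          change ∑ i, α i < 1 at hα
          have h2 : ∑ i, α i = 0 := by omega
          rw [sum_eq_zero_iff] at h2
          funext i
          exact h2 i (mem_univ _)
        subst hα0
        exact congrFun hF j
  have := LinearMap.finrank_le_finrank_of_injective hΨ
  rwa [Module.finrank_fintype_fun_eq_card, Fintype.card_fin] at this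

/-- The sum over `J` and the other points. -/
theorem sum_split {k : ℕ} (J : Finset (Fin k)) (f : Fin k → ℤ) :
    ∑ i, f i = ∑ i ∈ J, f i + ∑ i ∈ univ.filter (fun i => i ∉ J), f i := by
  classical
  rw [← sum_filter_add_sum_filter_not univ (fun i => i ∈ J)]
  congr 1
  apply sum_congr _ fun _ _ => rfl
  ext i
  simp

/-- Many large multiplicities in `ℙ^r`, from the exactness of the main family. -/
theorem many_large_of (R t s M D : ℕ) (ht : 1 ≤ t) (hs : 1 ≤ s)
    (hts : t + s = (t + 1) ^ (R + 1)) (u : Fin (R + 1)) (hu : u.val = R) (hM : 1 ≤ M)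
    (hEx : ExM t s u M D) (k d : ℕ) (m : Fin k → ℕ)
    (J : Finset (Fin k)) (hJ : J.card ≤ (t + 1) ^ (R + 1)) (hsmall : ∀ i, i ∉ J → m i ≤ M)
    (hsum : ∀ S ⊆ J, S.card ≤ t + 1 → ∑ i ∈ S, m i + (R * t - 2) ≤ d)
    (hd : D ≤ d) (hdJ : ∀ i ∈ J, m i + D ≤ d)
    (hcurve : ∑ i ∈ J, m i + D ≤ (t + 1) ^ R * d) :
    ForGeneralPoints (R + 1) k fun p => ImposesMaximalConditions (R + 1) d p m := by
  classical
  obtain ⟨β, c, hβJ, hJβ, hinj, hc1, hc2, j₀, hj₀⟩ :=
    exists_sorted m J t s hs (by rw [hts]; exact hJ)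
  set mB : Fin t ⊕ Fin s → ℕ := fun b => (β b).elim 0 m with hmB
  -- the sum of the `t + 1` largest
  have hSum : ∑ l : Fin t, mB (.inl l) + c + (R * t - 2) ≤ d := by
    let T : Finset (Fin t ⊕ Fin s) := (univ : Finset (Fin t)).map ⟨Sum.inl, Sum.inl_injective⟩ ∪
      {Sum.inr j₀}
    let S : Finset (Fin k) := J.filter fun i => ∃ b ∈ T, β b = some i
    have hTsum : ∑ b ∈ T, mB b = ∑ l : Fin t, mB (.inl l) + c := by
      rw [sum_union, sum_map, sum_singleton]
      · have h1 : mB (Sum.inr j₀) = c := hj₀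
        rw [h1]
        rfl
      · rw [disjoint_singleton_right, mem_map]
        rintro ⟨l, _, h⟩
        exact absurd h (by simp)
    have hTS : ∑ b ∈ T, mB b ≤ ∑ i ∈ S, m i := by
      have h1 : ∑ b ∈ T, mB b = ∑ b ∈ T.filter (fun b => β b ≠ none), mB b := by
        rw [sum_filter_of_ne]
        intro b _ hb h0
        apply hb
        simp only [hmB]
        rw [h0]
        rfl
      have h2 : ∑ b ∈ T.filter (fun b => β b ≠ none), mB b =
          ∑ o ∈ (T.filter (fun b => β b ≠ none)).image β, o.elim 0 m := by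
        rw [sum_image]
        intro b hb b' hb' hbb
        obtain ⟨i, hi⟩ := Option.ne_none_iff_exists'.1 (mem_filter.1 hb).2
        exact hinj b b' i hi (hbb ▸ hi)
      have h3 : ∑ i ∈ S, m i = ∑ o ∈ S.map ⟨some, Option.some_injective _⟩, o.elim 0 m := by
        rw [sum_map]
        rfl
      rw [h1, h2, h3]
      apply sum_le_sum_of_subset
      intro o ho
      obtain ⟨b, hb, rfl⟩ := mem_image.1 ho
      obtain ⟨hbT, hb0⟩ := mem_filter.1 hb
      obtain ⟨i, hi⟩ := Option.ne_none_iff_exists'.1 hb0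
      rw [mem_map]
      exact ⟨i, mem_filter.2 ⟨hβJ b i hi, b, hbT, hi⟩, hi.symm⟩
    have hScard : S.card ≤ t + 1 := by
      have h1 : T.card ≤ t + 1 := by
        refine (card_union_le _ _).trans ?_
        rw [card_map, card_univ, Fintype.card_fin, card_singleton]
      refine le_trans ?_ h1
      have h2 : S.map ⟨some, Option.some_injective _⟩ ⊆ T.image β := by
        intro o ho
        obtain ⟨i, hi, rfl⟩ := mem_map.1 ho
        obtain ⟨b, hb, hbi⟩ := (mem_filter.1 hi).2
        exact mem_image.2 ⟨b, hb, hbi⟩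
      have h3 := card_le_card h2
      rw [card_map] at h3
      exact h3.trans card_image_le
    have := hsum S (filter_subset _ _) hScard
    rw [hTsum] at hTS
    omega
  set z : Fin t := ⟨0, ht⟩ with hz
  obtain ⟨nH, hnH⟩ := Nat.exists_eq_add_of_le (show ∑ l : Fin t, mB (.inl l) + c ≤ d by omega)
  let N : Option (Fin t) → ℕ := fun
    | none => c
    | some l => (mB (.inl l) - c) + if l = z then nH else 0
  let n : Fin t ⊕ Fin s → ℕ := fun
    | .inl l => if l = z then nH else 0
    | .inr j => c - mB (.inr j)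
  have hmu : ∀ b, mu n N b = mB b := by
    rintro (l | j)
    · have h1 := hc1 l
      change c + ((mB (.inl l) - c) + if l = z then nH else 0) - (if l = z then nH else 0) =
        mB (.inl l)
      change c ≤ mB (.inl l) at h1
      omega
    · have h1 := hc2 j
      change c - (c - mB (.inr j)) = mB (.inr j)
      change mB (.inr j) ≤ c at h1
      omega
  have hsumN : ∑ l : Fin t, N (some l) + t * c = ∑ l : Fin t, mB (.inl l) + nH ∧
      nH ≤ ∑ l : Fin t, N (some l) := by
    have h1 : ∑ l : Fin t, N (some l) = ∑ l : Fin t, (mB (.inl l) - c) + nH := by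
      change ∑ l : Fin t, ((mB (.inl l) - c) + if l = z then nH else 0) = _
      rw [sum_add_distrib, sum_ite_eq' univ z fun _ => nH, if_pos (mem_univ _)]
    have h2 : ∑ l : Fin t, (mB (.inl l) - c) + t * c = ∑ l : Fin t, mB (.inl l) := by
      have h3 : t * c = ∑ _l : Fin t, c := by simp
      rw [h3, ← sum_add_distrib]
      refine sum_congr rfl fun l _ => ?_
      have := hc1 l
      change c ≤ mB (.inl l) at this
      omega
    omega
  obtain ⟨hsumN, hnHN⟩ := hsumN
  have hdd : dd N = d := by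
    unfold dd
    change (t + 1) * c + ∑ l : Fin t, N (some l) = d
    have h1 : (t + 1) * c = t * c + c := by ring
    omega
  -- the sum over the big points
  have hbig : ∑ b, mB b = ∑ i ∈ J, m i :=
    sum_big J β hJβ hβJ hinj (fun o => o.elim 0 m) rfl
  have hmBd : ∀ b, mB b + D ≤ d := by
    intro b
    rcases hb : β b with _ | i
    · have : mB b = 0 := by
        simp only [hmB]
        rw [hb]
        rfl
      omega
    · have h1 := hdJ i (hβJ b i hb)
      have : mB b = m i := by
        simp only [hmB]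
        rw [hb]
        rfl
      omega
  have hMg : Mg R D n N := by
    refine ⟨?_, ?_, ?_, ?_⟩
    · omega
    · rw [hdd, sum_congr rfl fun b _ => hmu b, hbig]
      exact hcurve
    · intro l
      rw [hdd, hmu]
      exact hmBd (.inl l)
    · rw [hdd]
      exact hd
  -- the simple points
  set R₀ : ℤ := ((d + (R + 1)).choose (R + 1) : ℤ) -
    ∑ i, ((m i + (R + 1) - 1).choose (R + 1) : ℤ) with hR₀
  obtain ⟨r, hr⟩ : ∃ r : ℕ, (r : ℤ) = max 0 R₀ := ⟨(max 0 R₀).toNat, by
    rw [Int.toNat_of_nonneg (le_max_left _ _)]⟩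
  have hFk : Fk (WM u n N)
      ((univ : Finset ({i : Fin k // i ∉ J} ⊕ Fin r)).val.map (kkR m J r)) := by
    apply hEx n N hMg
    · intro x hx
      obtain ⟨i, _, rfl⟩ := Multiset.mem_map.1 hx
      rcases i with i | j
      · exact hsmall i.1 i.2
      · exact hM
    · rw [Multiset.map_map, hdd, hu, Nat.sub_self]
      change (d + (R + 1)).choose (R + 1) ≤ ∑ b, ell (R + 1) (mu n N b) +
        ∑ i : {i : Fin k // i ∉ J} ⊕ Fin r, (ell (R + 1) ∘ kkR m J r) i
      rw [Fintype.sum_sum_type (ell (R + 1) ∘ kkR m J r)]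
      have h1 : ∑ j : Fin r, (ell (R + 1) ∘ kkR m J r) (Sum.inr j) = r := by
        simp [kkR, ell_one]
      have h2 : ∑ i : {i : Fin k // i ∉ J}, (ell (R + 1) ∘ kkR m J r) (Sum.inl i) =
          ∑ i ∈ univ.filter (fun i => i ∉ J), ell (R + 1) (m i) := by
        rw [sum_subtype (p := fun i => i ∉ J) (univ.filter fun i => i ∉ J) (by simp)
          (fun i => ell (R + 1) (m i))]
        rfl
      have h4 := sum_big J β hJβ hβJ hinj (fun o => ell (R + 1) (o.elim 0 m))
        (ell_zero (by omega))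
      have h5 : ∑ b, ell (R + 1) (mu n N b) = ∑ i ∈ J, ell (R + 1) (m i) := by
        refine (sum_congr rfl fun b _ => ?_).trans h4
        rw [hmu b]
      have h6 := sum_split J fun i => ((m i + (R + 1) - 1).choose (R + 1) : ℤ)
      have h7 : R₀ ≤ r := by
        rw [hr]
        exact le_max_right _ _
      rw [h1, h2, h5]
      have h8 : ∑ i ∈ J, ((m i + (R + 1) - 1).choose (R + 1) : ℤ) =
          ((∑ i ∈ J, ell (R + 1) (m i) : ℕ) : ℤ) := by
        push_cast
        rfl
      have h9 : ∑ i ∈ univ.filter (fun i => i ∉ J), ((m i + (R + 1) - 1).choose (R + 1) : ℤ) =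
          ((∑ i ∈ univ.filter (fun i => i ∉ J), ell (R + 1) (m i) : ℕ) : ℤ) := by
        push_cast
        rfl
      rw [hR₀, h6, h8, h9] at h7
      omega
  obtain ⟨p₀, hp1, hp2⟩ := special_of_Fk u hu m J β hJβ hβJ hinj n N hmu hdd r hFk
  refine general_of_special (by omega) m p₀ (fun i => by rw [hp1 i]; exact one_ne_zero) ?_
  have hge := finrank_fatForms_ge (d := d) (by omega : 1 ≤ R + 1)
    (fun i => by rw [hp1 i]; exact one_ne_zero : ∀ i, p₀ i 0 ≠ 0) m
  unfold ImposesMaximalConditions
  have h9 : ((Module.finrank ℂ (fatForms (R + 1) d p₀ m) : ℕ) : ℤ) ≤ r := by exact_mod_cast hp2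
  rw [hr] at h9
  apply le_antisymm h9
  apply max_le
  · positivity
  · exact hge

end Pool.Agent.H18.Pr

end
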