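import Pool.Agent.H94.LP1.M16
import Pool.Agent.H94.LP1.M22
import Pool.Agent.H94.LP1.M23
import Pool.Agent.H94.LP1.M24
import Pool.Agent.H94.LP1.M25

/-! The parts of this file: H18.Pr.SchedN_1, H18.Pr.FullV, H18.Pr.AsmV_1, H18.Pr.FullM, H18.Pr.AsmM_1, H18.Pr.FinalR_1. -/

section

/-!
# Module SchedN: the schedule (abstract version, traces of dimension `n`)

Always peel a direction with maximal `a l`, until all `a l ≤ T'`; then clean.
-/

namespace Pool.Agent.H18.Pr

open Finset Pool.Agent.H18.Ex Pool.Agent.H18.Cub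

variable {Λ : Type} [Fintype Λ] [DecidableEq Λ] {n : ℕ}

/-- The plan. -/
theorem NumR.plan {Y : SysN Λ n} {M T Ta C : ℕ} {N : Λ → ℕ} (H : NumR Y M T Ta N) (ls : Λ)
    (hmax : ∀ i, N i ≤ N ls) (hls : Ta + 2 * M + 2 ≤ N ls) (hF : C ≤ Y.F ls N)
    (hend : ∀ a, Reg N Ta a → (∀ i, a i ≤ Ta + M + 1) → (C : ℤ) * Y.R a ≤ Y.F ls N) :
    PlanN Y M C N ls (dirsS N (Ta + M + 1)) := by
  have hM := H.hM
  have hT := H.hT
  set L' := ell n M with hL'
  have hL'1 : 1 ≤ L' := ell_pos _ hM
  set c := Fintype.card Λ with hc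
  have hc1 : 1 ≤ c := Fintype.card_pos_iff.2 ⟨ls⟩
  have hTT : TT n M c = 16 * M * (c * (2 * M + 3)) + 16 * M * L' ^ 2 + 16 * M * (M * L' ^ 2) +
      8 * ell (n + 1) M + 8 := by
    unfold TT
    rw [← hL']
    ring
  rw [hTT] at hT
  have hTM : 16 * M * (2 * M + 3) ≤ T := by
    have h1 : 16 * M * (1 * (2 * M + 3)) ≤ 16 * M * (c * (2 * M + 3)) :=
      Nat.mul_le_mul_left _ (Nat.mul_le_mul_right _ hc1)
    rw [one_mul] at h1
    omega
  have hTpos : 0 < T := by omega
  have hregN : Reg N Ta N := fun i => ⟨min_le_left _ _, le_rfl⟩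
  have hstt : ∀ j, j ≤ M + 1 → Reg N (Ta + M + 1) (stt N ls j) := by
    intro j hj i
    unfold stt
    by_cases hi : i = ls
    · subst hi
      rw [Function.update_self]
      have : min (N i) (Ta + M + 1) ≤ Ta + M + 1 := min_le_right _ _
      omega
    · rw [Function.update_of_ne hi]
      exact ⟨min_le_left _ _, le_rfl⟩
  have hsttl : ∀ j, stt N ls j ls = N ls - j := by
    intro j
    unfold stt
    rw [Function.update_self]
  have hdrop2 : ∀ i j, i ≤ j → j ≤ M + 1 →
      T * Y.F ls (stt N ls i) ≤ T * Y.F ls (stt N ls j) + (j - i) * Y.F ls (stt N ls i) := by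
    intro i j hij hj
    have h1 := H.drop (stt N ls j) (stt N ls i) ls ((hstt j hj).mono (by omega))
      (by rw [hsttl]; omega) (fun k => by
        by_cases hk : k = ls
        · subst hk
          rw [hsttl, hsttl]
          omega
        · unfold stt
          rw [Function.update_of_ne hk, Function.update_of_ne hk])
      (fun k => (hstt i (by omega) k).2)
    have h2 : ∑ k, (stt N ls i k - stt N ls j k) = j - i := by
      rw [sum_eq_single ls]
      · rw [hsttl, hsttl]
        omega
      · intro k _ hk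
        unfold stt
        rw [Function.update_of_ne hk, Function.update_of_ne hk, Nat.sub_self]
      · intro h
        exact absurd (mem_univ _) h
    rw [h2] at h1
    exact h1
  have hfloor : ∀ j, j ≤ M + 1 → T ≤ Y.F ls (stt N ls j) := fun j hj =>
    H.floor _ ls ((hstt j hj).mono (by omega)) (by rw [hsttl]; omega)
  have hstt0 : stt N ls 0 = N := by
    unfold stt
    rw [Nat.sub_zero, Function.update_eq_self]
  refine ⟨?_, hF, ?_, ?_, ?_, ?_, ?_⟩
  · rw [mem_dirsS]
    omega
  · -- `F ≤ R`
    have h1 := H.floor N ls hregN (by omega)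
    have h2 := Y.count N ls (by omega) (by omega)
    have h3 := (H.full _ (hregN.dn ls (by omega))).1
    omega
  · -- the first peels
    apply H.list_good _ N _ 0 hregN
    · intro l hl
      rw [List.eq_of_mem_replicate hl, List.count_replicate_self]
      omega
    · intro l
      exact Or.inl rfl
    · rw [List.length_replicate, zero_add]
      unfold KK
      calc M + 1 = 1 * (M + 1) := by ring
        _ ≤ Fintype.card Λ * (2 * M + 3) := Nat.mul_le_mul hc1 (by omega)
  · -- hr1
    intro j hj1 hj2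
    obtain ⟨i, rfl⟩ : ∃ i, j = i + 1 := ⟨j - 1, by omega⟩
    have heph : ephN Y M (List.replicate (i + 1) ls) N (fun _ => 0) ls =
        nphi n M (Y.F ls (stt N ls i)) := by
      rw [List.replicate_add, ephN_append, ew_replicate]
      change (Function.update _ ls (nphi n M _) : Λ → ℕ) ls = _
      rw [Function.update_self]
      rfl
    rw [heph]
    have h2 := hdrop2 i (i + 1) (by omega) hj2
    have h3 := hfloor i (by omega)
    unfold nphi
    set f := Y.F ls (stt N ls i) with hf
    set f' := Y.F ls (stt N ls (i + 1)) with hf'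
    rw [Nat.add_sub_cancel_left, one_mul] at h2
    -- `16 M f ≤ 16 M f' + f`
    have h5 : 16 * M * f ≤ 16 * M * f' + f := by
      have h6 : T * (16 * M * f) ≤ T * (16 * M * f' + f) := by
        calc T * (16 * M * f) = 16 * M * (T * f) := by ring
          _ ≤ 16 * M * (T * f' + f) := Nat.mul_le_mul_left _ h2
          _ = T * (16 * M * f') + 16 * M * f := by ring
          _ ≤ T * (16 * M * f') + T * f := by
            apply Nat.add_le_add_left
            apply Nat.mul_le_mul_right
            have h7 : 16 * M * 1 ≤ 16 * M * (2 * M + 3) := Nat.mul_le_mul_left _ (by omega)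
            omega
          _ = T * (16 * M * f' + f) := by ring
      exact Nat.le_of_mul_le_mul_left h6 hTpos
    have h4 : M * ((M - 1) * f / M) ≤ (M - 1) * f := Nat.mul_div_le _ _
    have h6 : 4 * M * ((M - 1) * f / M + L' ^ 2) =
        4 * (M * ((M - 1) * f / M)) + 4 * M * L' ^ 2 := by ring
    have h7 : 16 * M * L' ^ 2 = 4 * (4 * M * L' ^ 2) := by ring
    rw [h6]
    obtain ⟨k, rfl⟩ : ∃ k, M = k + 1 := ⟨M - 1, by omega⟩
    have h8 : 4 * (k + 1) - 3 = 4 * k + 1 := by omega
    rw [h8]
    rw [Nat.add_sub_cancel] at h4 ⊢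
    have h11 : (4 * k + 1) * f' = 4 * (k * f') + f' := by ring
    rcases le_total f f' with hle | hle
    · have h12 : k * f ≤ k * f' := Nat.mul_le_mul_left _ hle
      omega
    · obtain ⟨δ, hδ⟩ := Nat.exists_eq_add_of_le hle
      have h13 : 16 * (k + 1) * f = 16 * (k + 1) * f' + 16 * (k + 1) * δ := by
        rw [hδ]
        ring
      have h14 : (4 * k + 1) * f = (4 * k + 1) * f' + (4 * k + 1) * δ := by
        rw [hδ]
        ring
      have h15 : 4 * ((4 * k + 1) * δ) ≤ 16 * (k + 1) * δ := by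
        calc 4 * ((4 * k + 1) * δ) = (4 * (4 * k + 1)) * δ := by ring
          _ ≤ 16 * (k + 1) * δ := Nat.mul_le_mul_right _ (by omega)
      have h16 : (4 * k + 1) * f = 4 * (k * f) + f := by ring
      omega
  · -- hr2
    intro j hj
    have h1 := hdrop2 0 j (by omega) hj
    rw [hstt0, Nat.sub_zero] at h1
    have h5 : 8 * M * Y.F ls N ≤ 8 * M * Y.F ls (stt N ls j) + Y.F ls N := by
      have h6 : T * (8 * M * Y.F ls N) ≤ T * (8 * M * Y.F ls (stt N ls j) + Y.F ls N) := by
        calc T * (8 * M * Y.F ls N) = 8 * M * (T * Y.F ls N) := by ring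
          _ ≤ 8 * M * (T * Y.F ls (stt N ls j) + j * Y.F ls N) := Nat.mul_le_mul_left _ h1
          _ = T * (8 * M * Y.F ls (stt N ls j)) + 8 * M * j * Y.F ls N := by ring
          _ ≤ T * (8 * M * Y.F ls (stt N ls j)) + T * Y.F ls N := by
            apply Nat.add_le_add_left
            apply Nat.mul_le_mul_right
            have h7 : 8 * M * j ≤ 8 * M * (2 * (2 * M + 3)) := Nat.mul_le_mul_left _ (by omega)
            have h8 : 8 * M * (2 * (2 * M + 3)) = 16 * M * (2 * M + 3) := by ring
            omega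
          _ = T * (8 * M * Y.F ls (stt N ls j) + Y.F ls N) := by ring
      exact Nat.le_of_mul_le_mul_left h6 hTpos
    obtain ⟨k, hk⟩ : ∃ k, 8 * M - 1 = k ∧ k + 1 = 8 * M := ⟨8 * M - 1, rfl, by omega⟩
    rw [hk.1]
    have h6 : 8 * M * Y.F ls N = k * Y.F ls N + Y.F ls N := by
      rw [← hk.2]
      ring
    omega
  · -- the schedule
    intro j hj φ hφ0 hφ
    have hregj := hstt j (by omega)
    have hInv : InvN Y M (Ta + M + 1) N (stt N ls j) φ (fun _ => stt N ls j) := by
      refine ⟨hregj, fun l => ?_⟩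
      by_cases hl : l = ls
      · subst hl
        right
        have h1 := hsttl j
        refine ⟨by rw [h1]; omega, fun _ => le_rfl, fun k => (hregj k).2, ?_, fun k => ?_,
          fun k => Or.inl le_rfl⟩
        · unfold BdN
          obtain ⟨k, hk1, hk2⟩ : ∃ k, 2 * M - 1 = k ∧ k + 1 = 2 * M := ⟨2 * M - 1, rfl, by omega⟩
          rw [hk1] at hφ
          have h2 : 2 * M * Y.F l (stt N l j) = k * Y.F l (stt N l j) + Y.F l (stt N l j) := by
            rw [← hk2]
            ring
          omega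
        · rw [h1]
          have h3 := (hregj k).2
          have h4 := hmax k
          omega
      · exact Or.inl (hφ0 l hl)
    obtain ⟨L, hL1, hL2, ⟨b', hL3⟩, hL4⟩ := H.path (T' := Ta + M + 1) (by omega) _ _ _ _ rfl hInv
    have hregE : Reg N Ta (ew L (stt N ls j)) := hL3.reg.mono (by omega)
    have hnd : (dirsS N (Ta + M + 1)).Nodup := nodup_toList _
    have hbd := hL3.bd (by omega : Ta ≤ Ta + M + 1)
    have hE : ∀ l, Ta + M + 1 < N l → Ta + M + 1 ≤ ew L (stt N ls j) l := by
      intro l hl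
      have := (hL3.reg l).1
      rw [min_eq_right hl.le] at this
      exact this
    have hclen : (dirsS N (Ta + M + 1)).length ≤ Fintype.card Λ := by
      unfold dirsS
      rw [length_toList]
      exact card_le_univ _
    refine ⟨L, fun l hl => mem_dirsS.2 (hL1 l hl), ?_, hend _ hregE hL4, ?_,
      H.full _ hregE, ?_⟩
    · rw [GoodN.append]
      refine ⟨hL2, H.list_good _ _ _ (Fintype.card Λ * (M + 2)) hregE ?_ hbd ?_⟩
      · intro l hl
        have h1 := mem_clean hl
        rw [count_clean M _ hnd, if_pos h1]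
        have h2 := hE l (mem_dirsS.1 h1)
        omega
      · rw [length_clean]
        unfold KK
        calc Fintype.card Λ * (M + 2) + (dirsS N (Ta + M + 1)).length * (M + 1)
            ≤ Fintype.card Λ * (M + 2) + Fintype.card Λ * (M + 1) := by
              apply Nat.add_le_add_left
              exact Nat.mul_le_mul_right _ hclen
          _ = Fintype.card Λ * (2 * M + 3) := by ring
    · have h1 := hE ls (by omega)
      have h2 := (H.key hregE (Nat.mul_le_mul_left _ (by omega)) hbd ls (by omega)).2.2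
      have h3 := (H.full _ hregE).1
      refine h2.trans ?_
      have h4 : (0 : ℤ) ≤ n := by positivity
      nlinarith only [h2]
    · apply H.full
      intro l
      rw [ew_append']
      have h1 : ew (clean M (dirsS N (Ta + M + 1))) (ew L (stt N ls j)) l =
          ew L (stt N ls j) l - (clean M (dirsS N (Ta + M + 1))).count l := rfl
      rw [h1, count_clean M _ hnd]
      have h2 := hregE l
      split_ifs with h3
      · have h4 := hE l (mem_dirsS.1 h3)
        have h5 : min (N l) Ta ≤ Ta := min_le_right _ _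
        omega
      · exact h2

/-- Exactness for states with the numerical properties. -/
theorem NumR.exact {Y : SysN Λ n} {M T Ta : ℕ} {N : Λ → ℕ} (H : NumR Y M T Ta N) (ls : Λ)
    (hmax : ∀ i, N i ≤ N ls) (hls : Ta + 2 * M + 2 ≤ N ls) (hF : cC n M ≤ Y.F ls N)
    (hend : ∀ a, Reg N Ta a → (∀ i, a i ≤ Ta + M + 1) → (cC n M : ℤ) * Y.R a ≤ Y.F ls N)
    (G : Multiset ℕ) (hG : ∀ m ∈ G, m ≤ M)
    (hsum : Y.R N ≤ ((G.map (ell (n + 1))).sum : ℕ)) : Y.K N (G.map Kind.free) :=
  mainN Y M H.hn H.hM N ls _ (H.plan ls hmax hls hF hend) G hG hsum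

end Pool.Agent.H18.Pr

end

section

/-!
# Module FullV (PR): dimensions for one big point, and the numerical properties
-/

namespace Pool.Agent.H18.Pr

open Finset Pool.Agent.H18.Ex Pool.Agent.H18.Cub

variable {R : ℕ}

/-- The fields of the system. -/
private theorem FullV_F (e : ℕ) (he : 2 ≤ e) (v u : Fin (R + 1)) (hvu : v < u) (p : ℂ) (k : ℕ)
    (l : Unit) (a : Unit → ℕ) : (sysV e he v u hvu p k).F l a =
      tau e (R - u.val) (u.val - v.val) (a ()) - ell (u.val - v.val) (a () - k) := rfl

private theorem FullV_R (e : ℕ) (he : 2 ≤ e) (v u : Fin (R + 1)) (hvu : v < u) (p : ℂ) (k : ℕ)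
    (a : Unit → ℕ) : (sysV e he v u hvu p k).R a =
      (tau e (R - u.val) (u.val - v.val + 1) (a ()) : ℤ) -
        ell (u.val - v.val + 1) (a () - k) := rfl

/-- The dimensions of the states, given the traces. -/
private theorem FullV_full (e : ℕ) (he : 2 ≤ e) (v v' u : Fin (R + 1)) (hvu : v < u)
    (hv : v'.val = v.val + 1) (q k : ℕ)
    (IH : ∀ d m : ℕ, m ≤ d → ∀ S : ℕ,
      tau e (R - u.val) (u.val - v'.val + 1) d ≤ ell (u.val - v'.val + 1) m + S →
      Fk (WW e v' u ((q ^ e : ℕ) : ℂ) d (fun _ : Unit => (0 : ℂ)) fun _ => m)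
        (Multiset.replicate S 1)) (d : ℕ) :
    FullN (sysV e he v u hvu (q : ℂ) k) (fun _ => d) := by
  have h0 : v.val < u.val := hvu
  have hj : u.val - v'.val + 1 = u.val - v.val := by omega
  rw [hj] at IH
  induction d with
  | zero => exact fullN_zero _
  | succ d ih =>
    have h1 := ell_lt_tau e (R - u.val) (u.val - v.val) (d + 1) (d + 1 - k) (by omega) (by omega)
      (by omega)
    refine FullN.step () (by simp) ?_ ?_ ?_
    · rw [FullV_F]
      omega
    · refine sysV_tr e he v v' u hvu hv q k _ _ (IH (d + 1) (d + 1 - k) (by omega) _ ?_)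
      rw [FullV_F]
      omega
    · have h2 : dn () (fun _ : Unit => d + 1) = fun _ => d := by
        funext x
        rw [dn_self]
        rfl
      rw [h2]
      exact ih

private theorem FullV_dim (e : ℕ) (he : 2 ≤ e) (u : Fin (R + 1)) : ∀ j : ℕ, ∀ v : Fin (R + 1),
    v.val + j = u.val → ∀ q : ℕ, 0 < q → ∀ d m : ℕ, m ≤ d → ∀ S : ℕ,
    tau e (R - u.val) (j + 1) d ≤ ell (j + 1) m + S →
    Fk (WW e v u (q : ℂ) d (fun _ : Unit => (0 : ℂ)) fun _ => m) (Multiset.replicate S 1) := by
  intro j
  induction j with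
  | zero =>
    intro v hv q hq d m _ S h
    obtain rfl : v = u := Fin.ext (by omega)
    refine WW_one e (by omega) v (q : ℂ) d (fun _ : Unit => (0 : ℂ)) (fun _ => m) (fun _ => q)
      (fun a b _ => rfl) (fun _ => hq) (fun _ => by simp) _ ?_
    rw [Multiset.sum_replicate]
    have h1 : ell (0 + 1) m = m := by
      unfold ell
      simp
    rw [h1] at h
    simpa using h
  | succ j ih =>
    intro v hv q hq d m hm S h
    have hvu : v < u := by
      change v.val < u.val
      omega
    have hlt : v.val + 1 < R + 1 := by omega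
    have hj : u.val - v.val = j + 1 := by omega
    have hfull := FullV_full e he v ⟨v.val + 1, hlt⟩ u hvu rfl q (d - m) (fun d' m' hm' S' h' => by
      refine ih ⟨v.val + 1, hlt⟩ (by simp only; omega) (q ^ e) (pow_pos hq e) d' m' hm' S' ?_
      have h1 : u.val - (v.val + 1) + 1 = j + 1 := by omega
      rw [← h1]
      exact h') d
    have h2 := hfull.2 S ?_
    · have h3 : GMP (gV v) (WW e v u (q : ℂ) d (fun _ : Unit => (0 : ℂ)) fun _ => d - (d - m))
        (Multiset.replicate S (Kind.free 1)) := h2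
      have h4 : d - (d - m) = m := by omega
      rw [h4] at h3
      rw [Fk_iff (gV v), Multiset.map_replicate]
      exact h3
    · rw [FullV_R, hj]
      have h4 : d - (d - m) = m := by omega
      simp only [h4]
      omega

/-- The dimension is at most the expected one.  Induction on `u - v`: for `u = v` use `WW_one`
(`B = Unit`, `y = q`); for `v < u` induction on `d`, with `FullN.step` for the system
`sysV e he v u hvu q (d - m)` (all states), `sysV_tr`, `ell_lt_tau`, starting from `fullN_zero`. -/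
theorem dimV (e : ℕ) (he : 2 ≤ e) (v u : Fin (R + 1)) (hvu : v ≤ u) (q : ℕ) (hq : 0 < q)
    (d m : ℕ) (hm : m ≤ d) (S : ℕ)
    (h : tau e (R - u.val) (u.val - v.val + 1) d ≤ ell (u.val - v.val + 1) m + S) :
    Fk (WW e v u (q : ℂ) d (fun _ : Unit => (0 : ℂ)) fun _ => m) (Multiset.replicate S 1) := by
  have h0 : v.val ≤ u.val := hvu
  exact FullV_dim e he u (u.val - v.val) v (by omega) q hq d m hm S h

/-- The numerical properties of the system of one big point.  (`floor`, `rlow`, `drop`: `tau_slow` for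
`j = u - v - 1` and `j = u - v`, `tau_drop`; `full`: `dimV` and `ell_lt_tau`; `gd`: `sysV_tr` and the
hypothesis.) -/
theorem numR_sysV (e : ℕ) (he : 2 ≤ e) (v v' u : Fin (R + 1)) (hvu : v < u)
    (hv : v'.val = v.val + 1) : ∃ C : ℕ, 1 ≤ C ∧ ∀ M T Ta : ℕ, 1 ≤ M →
      TT (u.val - v.val) M 1 ≤ T → C * T ≤ Ta → ExV e v' u M Ta → ∀ q k N : ℕ, 0 < q → Ta ≤ k →
      NumR (sysV e he v u hvu (q : ℂ) k) M T Ta (fun _ => N) := by
  have h0 : v.val < u.val := hvu
  obtain ⟨j, hj⟩ : ∃ j, u.val - v.val = j + 1 := ⟨u.val - v.val - 1, by omega⟩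
  obtain ⟨C1, hC1, hs1⟩ := tau_slow e (R - u.val) j (by omega)
  obtain ⟨C2, hC2, hs2⟩ := tau_slow e (R - u.val) (j + 1) (by omega)
  refine ⟨C1 + C2, by omega, ?_⟩
  intro M T Ta hM hT hTa hEx q k N hq hk
  have hT1 : 1 ≤ T := by
    unfold TT at hT
    omega
  have hCT : C1 * T + C2 * T ≤ Ta := by
    rw [← Nat.add_mul]
    exact hTa
  have hC1T : T ≤ C1 * T := Nat.le_mul_of_pos_left T hC1
  have key1 : ∀ d, Ta ≤ d →
      T * tau e (R - u.val) j d + ell (j + 1) (d - k) ≤ tau e (R - u.val) (j + 1) d :=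
    fun d hd => hs1 T d (d - k) hT1 (by omega)
  have key2 : ∀ d, Ta ≤ d →
      T * tau e (R - u.val) (j + 1) d + ell (j + 2) (d - k) ≤ tau e (R - u.val) (j + 2) d :=
    fun d hd => hs2 T d (d - k) hT1 (by omega)
  refine ⟨by omega, hM, by omega, ?_, ?_, ?_, ?_, ?_, ?_⟩
  · rw [Fintype.card_unit]
    exact hT
  · -- drop
    intro a b l _ hal hab _
    have ha : Ta ≤ a () := hal
    have hle : a () ≤ b () := hab ()
    rw [FullV_F, FullV_F, hj, Fintype.sum_unique]
    change T * _ ≤ T * _ + (b () - a ()) * _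
    have h1 := key1 (b ()) (by omega)
    have h2 := tau_drop e (R - u.val) j hle
    have h3 : ell (j + 1) (a () - k) ≤ ell (j + 1) (b () - k) := ell_mono _ (by omega)
    have h4 := key1 (a ()) ha
    set x := tau e (R - u.val) (j + 1) (b ()) with hx
    set y := tau e (R - u.val) (j + 1) (a ()) with hy
    set z := tau e (R - u.val) j (b ()) with hz
    have h5 : x - ell (j + 1) (b () - k) ≤ y - ell (j + 1) (a () - k) + (b () - a ()) * z := by
      omega
    have h6 : T * z ≤ x - ell (j + 1) (b () - k) := by omega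
    calc T * (x - ell (j + 1) (b () - k))
        ≤ T * (y - ell (j + 1) (a () - k) + (b () - a ()) * z) := Nat.mul_le_mul_left _ h5
      _ = T * (y - ell (j + 1) (a () - k)) + (b () - a ()) * (T * z) := by ring
      _ ≤ T * (y - ell (j + 1) (a () - k)) + (b () - a ()) * (x - ell (j + 1) (b () - k)) :=
        Nat.add_le_add_left (Nat.mul_le_mul_left _ h6) _
  · -- floor
    intro a l _ hal
    have ha : Ta ≤ a () := hal
    rw [FullV_F, hj]
    have h1 := key1 (a ()) ha
    have h2 := tau_pos e (R - u.val) j (a ()) (by omega)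
    have h3 : T ≤ T * tau e (R - u.val) j (a ()) := Nat.le_mul_of_pos_right T h2
    omega
  · -- rlow
    intro a l _ hal
    have ha : Ta ≤ a () := hal
    rw [FullV_F, FullV_R, hj]
    have h1 := key2 (a ()) ha
    have h2 : T * (tau e (R - u.val) (j + 1) (a ()) - ell (j + 1) (a () - k)) ≤
        T * tau e (R - u.val) (j + 1) (a ()) := Nat.mul_le_mul_left _ (Nat.sub_le _ _)
    have h3 : j + 1 + 1 = j + 2 := rfl
    rw [h3]
    have h4 : ((T * (tau e (R - u.val) (j + 1) (a ()) - ell (j + 1) (a () - k)) : ℕ) : ℤ) =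
      (T : ℤ) * ((tau e (R - u.val) (j + 1) (a ()) - ell (j + 1) (a () - k) : ℕ) : ℤ) := by
      push_cast
      rfl
    rw [← h4]
    omega
  · -- full
    intro a _
    have h1 : a = fun _ => a () := by
      funext x
      rfl
    rw [h1]
    refine FullV_full e he v v' u hvu hv q k (fun d m hm S h => ?_) (a ())
    have h2 : v' ≤ u := by
      change v'.val ≤ u.val
      omega
    exact dimV e he v' u h2 (q ^ e) (pow_pos hq e) d m hm S h
  · -- gd
    intro a l _ hal S hS hF
    have ha : Ta ≤ a () := hal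
    refine sysV_tr e he v v' u hvu hv q k a S
      (hEx (q ^ e) (pow_pos hq e) (a ()) (a () - k) (by omega) S hS ?_)
    have h1 : u.val - v'.val + 1 = u.val - v.val := by omega
    rw [h1]
    rw [FullV_F] at hF
    omega

end Pool.Agent.H18.Pr

end

section

/-!
# Module AsmV (PR): exactness for one big point
-/

namespace Pool.Agent.H18.Pr

open Finset Pool.Agent.H18.Ex Pool.Agent.H18.Cub

variable {R : ℕ}

/-! ### Auxiliary facts -/

/-- The induction step: `NumR.exact` for `sysV e he v u hvu q (d - m)` at the state `d`, with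
`T = TT (u - v) M 1`, `Ta = C * T + D' M` and `D M` a large polynomial in `Ta`, `M`, `cC (u - v) M`
(`tau_le` bounds the virtual dimension at the end, `tau_slow` or `ell_lt_tau` the first trace). -/
theorem exV_step (e : ℕ) (he : 2 ≤ e) (v v' u : Fin (R + 1)) (hvu : v < u)
    (hv : v'.val = v.val + 1) (h : ∃ D : ℕ → ℕ, PolyB D ∧ ∀ M, 1 ≤ M → ExV e v' u M (D M)) :
    ∃ D : ℕ → ℕ, PolyB D ∧ ∀ M, 1 ≤ M → ExV e v u M (D M) := by
  obtain ⟨D', hD', hex⟩ := h
  obtain ⟨C, hC1, hC⟩ := numR_sysV (R := R) e he v v' u hvu hv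
  have hvu' : v.val < u.val := hvu
  set j := u.val - v.val with hj
  have hj1 : 1 ≤ j := by omega
  have hTaP : PolyB fun M => C * TT j M 1 + D' M :=
    ((PolyB.const C).mul (PolyB.TT j 1)).add hD'
  refine ⟨fun M => cC j M * (e ^ (R - u.val) * (C * TT j M 1 + D' M + M + (j + 2)) ^ (j + 1)) +
    (C * TT j M 1 + D' M) + 2 * M + 2 + cC j M, ?_, ?_⟩
  · refine PolyB.add (PolyB.add (PolyB.add (PolyB.add ?_ hTaP) ?_) (PolyB.const 2)) (PolyB.cC j)
    · refine (PolyB.cC j).mul ((PolyB.const _).mul (PolyB.pow ?_ (j + 1)))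
      exact (hTaP.add PolyB.id).add (PolyB.const (j + 2))
    · exact (PolyB.const 2).mul PolyB.id
  · intro M hM q hq d m hd S hS hsum
    simp only at hd
    rw [← hj] at hsum
    set Ta := C * TT j M 1 + D' M with hTa
    set c := cC j M with hc
    set P := c * (e ^ (R - u.val) * (Ta + M + (j + 2)) ^ (j + 1)) with hP
    have hk : Ta ≤ d - m := by omega
    have hmk : d - (d - m) = m := by omega
    have H := hC M (TT j M 1) Ta hM le_rfl (by omega) (av_mono (by omega) (hex M hM)) q (d - m) d
      hq hk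
    have hR0 : (sysV e he v u hvu (q : ℂ) (d - m)).R (fun _ => d) =
        (tau e (R - u.val) (j + 1) d : ℤ) - ell (j + 1) m := by
      have h1 : (sysV e he v u hvu (q : ℂ) (d - m)).R (fun _ => d) =
        (tau e (R - u.val) (j + 1) d : ℤ) - ell (j + 1) (d - (d - m)) := rfl
      rw [h1, hmk]
    have hF0 : (sysV e he v u hvu (q : ℂ) (d - m)).F () (fun _ => d) =
        tau e (R - u.val) j d - ell j m := by
      have h1 : (sysV e he v u hvu (q : ℂ) (d - m)).F () (fun _ => d) =
        tau e (R - u.val) j d - ell j (d - (d - m)) := rfl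
      rw [h1, hmk]
    have hFbig : P + c ≤ (sysV e he v u hvu (q : ℂ) (d - m)).F () (fun _ => d) := by
      rw [hF0]
      have h1 := av_tau_ell e (R - u.val) j d m (P + c) (by omega) hj1 (by omega)
      omega
    have hls : Ta + 2 * M + 2 ≤ d := by omega
    have hcF : c ≤ (sysV e he v u hvu (q : ℂ) (d - m)).F () (fun _ => d) := by omega
    have hex2 := H.exact () (fun _ => le_rfl) hls hcF ?_ S hS ?_
    · rw [Fk_iff (gV v)]
      have h1 : (sysV e he v u hvu (q : ℂ) (d - m)).K (fun _ => d) (S.map Kind.free) =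
        GMP (gV v) (WW e v u (q : ℂ) d (fun _ : Unit => (0 : ℂ)) fun _ => d - (d - m))
          (S.map Kind.free) := rfl
      rw [h1, hmk] at hex2
      exact hex2
    · intro a _ ha
      have h1 : (sysV e he v u hvu (q : ℂ) (d - m)).R a =
        (tau e (R - u.val) (j + 1) (a ()) : ℤ) - ell (j + 1) (a () - (d - m)) := rfl
      have h2 : tau e (R - u.val) (j + 1) (a ()) ≤
          e ^ (R - u.val) * (Ta + M + (j + 2)) ^ (j + 1) := by
        refine (tau_le _ _ _ _).trans (Nat.mul_le_mul_left _ ?_)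
        refine (Nat.choose_le_pow _ _).trans (Nat.pow_le_pow_left ?_ _)
        have := ha ()
        omega
      have h3 : (sysV e he v u hvu (q : ℂ) (d - m)).R a ≤
          ((e ^ (R - u.val) * (Ta + M + (j + 2)) ^ (j + 1) : ℕ) : ℤ) := by
        rw [h1]
        have h4 : (tau e (R - u.val) (j + 1) (a ()) : ℤ) ≤
          ((e ^ (R - u.val) * (Ta + M + (j + 2)) ^ (j + 1) : ℕ) : ℤ) := by exact_mod_cast h2
        have h5 : (0 : ℤ) ≤ ell (j + 1) (a () - (d - m)) := Int.natCast_nonneg _
        linarith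
      calc (c : ℤ) * (sysV e he v u hvu (q : ℂ) (d - m)).R a ≤
            c * ((e ^ (R - u.val) * (Ta + M + (j + 2)) ^ (j + 1) : ℕ) : ℤ) :=
              mul_le_mul_of_nonneg_left h3 (Int.natCast_nonneg _)
        _ = ((P : ℕ) : ℤ) := by
              rw [hP]
              push_cast
              ring
        _ ≤ ((sysV e he v u hvu (q : ℂ) (d - m)).F () (fun _ => d) : ℕ) := by
              exact_mod_cast (by omega :
                P ≤ (sysV e he v u hvu (q : ℂ) (d - m)).F () (fun _ => d))
    · rw [hR0]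
      change _ ≤ (((S.map (ell (j + 1))).sum : ℕ) : ℤ)
      omega

theorem exV_all (e : ℕ) (he : 2 ≤ e) (v u : Fin (R + 1)) (hvu : v ≤ u) :
    ∃ D : ℕ → ℕ, PolyB D ∧ ∀ M, 1 ≤ M → ExV e v u M (D M) := by
  obtain ⟨k, hk⟩ : ∃ k, u.val - v.val = k := ⟨_, rfl⟩
  have hvu' : v.val ≤ u.val := hvu
  induction k generalizing v with
  | zero =>
    have h1 : v = u := by
      ext
      omega
    subst h1
    exact ⟨fun _ => 0, PolyB.const 0, fun M _ => exV_base e he v M⟩
  | succ k ih =>
    have h2 : v.val + 1 < R + 1 := by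
      have := u.2
      omega
    exact exV_step e he v ⟨v.val + 1, h2⟩ u (by
      rw [Fin.lt_def]
      omega) rfl (ih ⟨v.val + 1, h2⟩ (by
      rw [Fin.le_def]
      simp only
      omega) (by simp only; omega) (by simp only; omega))

end Pool.Agent.H18.Pr

end

section

/-!
# Module FullM (PR): dimensions in the main family
-/

namespace Pool.Agent.H18.Pr

open Finset Pool.Agent.H18.Ex Pool.Agent.H18.Cub

variable {R t s : ℕ}

/-! ### Auxiliary facts -/

/-- States without the curve. -/
private theorem fullM_lines (ht : 1 ≤ t) (hR : 1 ≤ R) (u : Fin (R + 1)) (hu : 1 ≤ u.val)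
    (n : Fin t ⊕ Fin s → ℕ) (k : ℕ) : ∀ a : Option (Fin t) → ℕ, a none = 0 →
      ∑ l : Fin t, a (some l) = k → FullN (sysM ht u hu n) a := by
  induction k with
  | zero =>
    intro a h0 hk
    have ha : a = 0 := by
      funext i
      rcases i with _ | l
      · exact h0
      · exact Finset.sum_eq_zero_iff.1 hk l (mem_univ l)
    rw [ha]
    exact fullN_zero _
  | succ k ih =>
    intro a h0 hk
    obtain ⟨l, -, hl⟩ : ∃ l ∈ (univ : Finset (Fin t)), a (some l) ≠ 0 := by
      apply Finset.exists_ne_zero_of_sum_ne_zero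
      omega
    have hmu : mu n a (.inl l) ≤ dd a := by
      have h1 : a (some l) ≤ ∑ l, a (some l) :=
        single_le_sum (f := fun l => a (some l)) (fun _ _ => Nat.zero_le _) (mem_univ l)
      simp only [mu, uu, dd]
      rw [h0]
      omega
    have hFM : (sysM ht u hu n).F (some l) a =
        tau (t + 1) (R - u.val) u.val (dd a) - ell u.val (mu n a (.inl l)) := rfl
    refine FullN.step (some l) (by omega) ?_ ?_ (ih (dn (some l) a) ?_ ?_)
    · rw [hFM]
      have := ell_lt_tau (t + 1) (R - u.val) u.val (dd a) (mu n a (.inl l)) (by omega) hu hmu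
      omega
    · refine sysM_tr_some ht u ⟨1, by omega⟩ hu rfl n a l _ ?_
      refine dimV (t + 1) (by omega) ⟨1, by omega⟩ u hu ((l.val + 1) ^ (t + 1))
        (Nat.pow_pos (by omega)) (dd a) _ hmu _ ?_
      have h1 : u.val - (⟨1, by omega⟩ : Fin (R + 1)).val + 1 = u.val := by
        simp only
        omega
      rw [h1, hFM]
      omega
    · rw [dn_ne (by simp), h0]
    · have h1 := Finset.add_sum_erase univ (fun l' : Fin t => a (some l')) (mem_univ l)
      have h2 := Finset.add_sum_erase univ (fun l' : Fin t => dn (some l) a (some l')) (mem_univ l)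
      have h3 : ∑ l' ∈ univ.erase l, dn (some l) a (some l') =
          ∑ l' ∈ univ.erase l, a (some l') := by
        refine Finset.sum_congr rfl fun l' hl' => ?_
        rw [dn_ne]
        intro h
        exact (Finset.ne_of_mem_erase hl') (Option.some.inj h)
      have h4 : dn (some l) a (some l) = a (some l) - 1 := dn_self _ _
      rw [h3, h4] at h2
      omega

/-- All states with margins, provided that the traces on the curve behave as expected. -/
private theorem fullM_curve (ht : 1 ≤ t) (hR : 1 ≤ R) (hts : t + s = (t + 1) ^ (R + 1))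
    (u u' : Fin (R + 1)) (hu : 1 ≤ u.val) (huu : u.val = u'.val + 1)
    (n : Fin t ⊕ Fin s → ℕ)
    (IH : ∀ a : Option (Fin t) → ℕ, Mg R 1 n a → ∀ S : ℕ, RM R u'.val n a ≤ S →
      Fk (WM u' n a) (Multiset.replicate S 1)) (k : ℕ) :
    ∀ a : Option (Fin t) → ℕ, a none = k → (a none = 0 ∨ Mg R 1 n a) →
      FullN (sysM ht u hu n) a := by
  induction k with
  | zero =>
    intro a h0 _
    exact fullM_lines ht hR u hu n _ a h0 rfl
  | succ k ih =>
    intro a hk h
    have hM : Mg R 1 n a := by
      rcases h with h | h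
      · omega
      · exact h
    have hFM : ((sysM ht u hu n).F none a : ℤ) = RM R u'.val n a := by
      have h1 := FM_eq (s := s) ht hR hts u.val hu (by omega) hM none (by omega)
      have h2 := RM_diff_none (R := R) u.val hu (by omega) n a (by omega)
      have h3 : u.val - 1 = u'.val := by omega
      rw [h3] at h2
      have h4 : (sysM ht u hu n).F none a = FM R u.val n none a := rfl
      rw [h4, h1, h2]
      ring
    have hu'R : u'.val ≤ R := by omega
    have hpos : 1 ≤ RM R u'.val n a := RM_pos (s := s) ht hR hts u'.val hu'R (Or.inr hM)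
    have hF1 : 1 ≤ (sysM ht u hu n).F none a := by omega
    have ha1 : 1 ≤ a none := by omega
    refine FullN.step none ha1 hF1 ?_ (ih (dn none a) ?_ ?_)
    · exact sysM_tr_none ht u u' hu huu n a _ (IH a hM _ hFM.symm.le)
    · rw [dn_self, hk]
      rfl
    · rcases Nat.eq_zero_or_pos k with hk0 | hk0
      · left
        rw [dn_self]
        omega
      · right
        exact hM.none ht hR hts (a none - 1) (by omega) (by omega)

/-- The dimension is at most the expected one.

Induction on `u`.  For `u = 0` use `WW_one` (`y = xx`).  For `u ≥ 1`: first the states with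
`a none = 0`, by induction on `∑ a_l`, with `FullN.step` in the directions `some l` for
`sysM ht u hu n` (`sysM_tr_some`, `dimV` with `v = 1`, `FM` is positive by `ell_lt_tau`), starting from
`fullN_zero`; then induction on `a none`, with `FullN.step` in direction `none` (`sysM_tr_none`, the
induction hypothesis for `u - 1`, `FM_eq`, `RM_pos`, `Mg.none`). -/
theorem dimM (ht : 1 ≤ t) (hR : 1 ≤ R) (hts : t + s = (t + 1) ^ (R + 1)) (u : Fin (R + 1))
    (n : Fin t ⊕ Fin s → ℕ) (a : Option (Fin t) → ℕ) (h : a none = 0 ∨ Mg R 1 n a) (S : ℕ)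
    (hS : RM R u.val n a ≤ S) : Fk (WM u n a) (Multiset.replicate S 1) := by
  obtain ⟨k, hk⟩ : ∃ k, u.val = k := ⟨_, rfl⟩
  induction k generalizing u a S with
  | zero =>
    have hu0 : (0 : Fin (R + 1)) = u := by
      ext
      rw [hk]
      rfl
    unfold WM
    rw [hu0]
    refine WW_one (t + 1) (by omega) u 0 (dd a) _ (mu n a) xx xx_injective xx_pos
      (fun b => by rw [add_zero]) _ ?_
    rw [Multiset.sum_replicate, smul_eq_mul, mul_one]
    unfold RM at hS
    rw [hk] at hS ⊢
    have h1 : ∑ b, (ell (0 + 1) (mu n a b) : ℤ) = ((∑ b, mu n a b : ℕ) : ℤ) := by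
      push_cast
      refine sum_congr rfl fun b _ => ?_
      rw [ell_one_left]
    rw [h1, zero_add] at hS
    omega
  | succ k ih =>
    have hu : 1 ≤ u.val := by omega
    have hfull := fullM_curve (s := s) ht hR hts u ⟨k, by omega⟩ hu hk n
      (fun a' ha' S' hS' => ih ⟨k, by omega⟩ a' (Or.inr ha') S' hS' rfl) _ a rfl h
    have h1 := hfull.2 S hS
    rw [Fk_iff (gM t u), Multiset.map_replicate]
    exact h1

/-- The numerical properties of the main system (`RM_slow`, `FM_eq`, `FM_lower`, `FM_drop`, `RM_pos`, `dimM`,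
`Mg.reg`, `sysM_tr_none`, `sysM_tr_some`). -/
theorem numR_sysM (ht : 1 ≤ t) (hR : 1 ≤ R) (hts : t + s = (t + 1) ^ (R + 1))
    (u u' v : Fin (R + 1)) (hu : 1 ≤ u.val) (huu : u.val = u'.val + 1) (hv : v.val = 1) :
    ∃ C : ℕ, 1 ≤ C ∧ ∀ M T Ta : ℕ, 1 ≤ M → TT u.val M (t + 1) ≤ T → C * T ≤ Ta →
      ExM t s u' M Ta → ExV (t + 1) v u M Ta → ∀ (n : Fin t ⊕ Fin s → ℕ)
      (N : Option (Fin t) → ℕ), Mg R Ta n N → NumR (sysM ht u hu n) M T Ta N := by
  have huR : u.val ≤ R := by omega
  obtain ⟨C1, hC11, hC1⟩ := FM_lower (s := s) ht hR hts u.val hu huR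
  obtain ⟨C2, hC21, hC2⟩ := FM_drop (s := s) ht hR hts u.val hu huR
  obtain ⟨C3, hC31, hC3⟩ := RM_slow (s := s) ht hR hts u.val huR
  refine ⟨C1 + C2 + C3 + R * t + 1, by omega, ?_⟩
  intro M T Ta hM hT hTa hExM hExV n N hN
  have hT1 : 1 ≤ T := by
    have : 8 ≤ TT u.val M (t + 1) := by
      unfold TT
      omega
    omega
  have hexp : (C1 + C2 + C3 + R * t + 1) * T = C1 * T + C2 * T + C3 * T + R * t * T + T := by
    ring
  rw [hexp] at hTa
  have h1T : C1 * 1 ≤ C1 * T := Nat.mul_le_mul_left _ hT1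
  have h2T : R * t * 1 ≤ R * t * T := Nat.mul_le_mul_left _ hT1
  have hreg : ∀ a : Option (Fin t) → ℕ, Reg N Ta a → Mg R Ta n a := fun a ha =>
    hN.reg ht hR hts le_rfl (by omega) ha
  refine ⟨hu, hM, by omega, ?_, ?_, ?_, ?_, ?_, ?_⟩
  · have h1 : Fintype.card (Option (Fin t)) = t + 1 := by simp
    rw [h1]
    exact hT
  · intro a b l ha hal hab hbN
    exact hC2 T hT1 n N a b Ta (by omega) hN ha hab hbN l hal
  · intro a l ha hal
    have h1 := hC1 Ta n a (by omega) (hreg a ha) l (by omega)
    change T ≤ FM R u.val n l a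
    omega
  · intro a l ha hal
    have hMa := hreg a ha
    have h1 := (hC3 T hT1 n a (hMa.le (by omega)) l (by omega)).2
    have h2 := FM_eq (s := s) ht hR hts u.val hu huR (hMa.le (by omega)) l (by omega)
    change (T : ℤ) * (FM R u.val n l a : ℕ) ≤ RM R u.val n a
    rw [h2]
    exact h1
  · intro a ha
    have hMa : Mg R 1 n a := (hreg a ha).le (by omega)
    refine ⟨RM_pos ht hR hts u.val huR (Or.inr hMa), fun S hS => ?_⟩
    have h1 := dimM ht hR hts u n a (Or.inr hMa) S hS
    rw [Fk_iff (gM t u), Multiset.map_replicate] at h1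
    exact h1
  · intro a l ha hal S hS hF
    have hMa := hreg a ha
    rcases l with _ | l
    · refine sysM_tr_none ht u u' hu huu n a S (hExM n a hMa S hS ?_)
      change FM R u.val n none a ≤ _ at hF
      have h1 : FM R u.val n none a =
          tau (t + 1) (R + 1 - u.val) u.val (dd a) - ∑ b, ell u.val (mu n a b) := rfl
      have h2 : R - u'.val = R + 1 - u.val := by omega
      rw [h2, ← huu]
      omega
    · have hv' : u.val - v.val + 1 = u.val := by omega
      refine sysM_tr_some ht u v hu hv n a l S (hExV ((l.val + 1) ^ (t + 1))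
        (Nat.pow_pos (by omega)) (dd a) _ (hMa.line l) S hS ?_)
      change FM R u.val n (some l) a ≤ _ at hF
      have h1 : FM R u.val n (some l) a =
          tau (t + 1) (R - u.val) u.val (dd a) - ell u.val (mu n a (.inl l)) := rfl
      rw [hv']
      omega

end Pool.Agent.H18.Pr

end

section

/-!
# Module AsmM (PR): exactness in the main family
-/

namespace Pool.Agent.H18.Pr

open Finset Pool.Agent.H18.Ex Pool.Agent.H18.Cub

variable {R t s : ℕ}

/-- The induction step: `NumR.exact` for `sysM ht u hu n` at the state `N`, with `ls` such that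
`N ls` is maximal, `T = TT u M (t + 1)`, `Ta = C * T + D' M + D'' M` and `D M` a large polynomial in
`Ta`, `M`, `cC u M` (`RM_upper` bounds the virtual dimension at the end, `FM_lower` the first
trace; `dd N ≤ (2 * t + 1) * N ls`). -/
theorem exM_step (ht : 1 ≤ t) (hR : 1 ≤ R) (hts : t + s = (t + 1) ^ (R + 1))
    (u u' : Fin (R + 1)) (huu : u.val = u'.val + 1)
    (h : ∃ D : ℕ → ℕ, PolyB D ∧ ∀ M, 1 ≤ M → ExM t s u' M (D M)) :
    ∃ D : ℕ → ℕ, PolyB D ∧ ∀ M, 1 ≤ M → ExM t s u M (D M) := by
  obtain ⟨D', hD'P, hD'⟩ := h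
  have hu : 1 ≤ u.val := by omega
  have huR : u.val ≤ R := by omega
  set v : Fin (R + 1) := ⟨1, by omega⟩ with hv
  have hvu : v ≤ u := by
    rw [Fin.le_def]
    exact hu
  obtain ⟨D'', hD''P, hD''⟩ := exV_all (t + 1) (by omega) v u hvu
  obtain ⟨C, hC1, hC⟩ := numR_sysM ht hR hts u u' v hu huu rfl
  obtain ⟨C₂, hC₂1, hC₂⟩ := FM_lower ht hR hts u.val hu huR
  set Ta : ℕ → ℕ := fun M => C * TT u.val M (t + 1) + D' M + D'' M with hTa
  set D : ℕ → ℕ := fun M => (2 * t + 1) * (Ta M + 2 * M + 2 + C₂) + C₂ +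
    cC u.val M * ((t + 1) ^ R * ((2 * t + 1) * (Ta M + M + 1) + u.val + 1) ^ (u.val + 1)) +
    cC u.val M with hD
  have hTaP : PolyB Ta := (((PolyB.const C).mul (PolyB.TT u.val (t + 1))).add hD'P).add hD''P
  have hcP : PolyB fun M => cC u.val M := PolyB.cC u.val
  refine ⟨D, ?_, ?_⟩
  · refine (((((PolyB.const (2 * t + 1)).mul ?_).add (PolyB.const C₂)).add
      (hcP.mul ((PolyB.const ((t + 1) ^ R)).mul (PolyB.pow ?_ (u.val + 1))))).add hcP)
    · exact ((hTaP.add ((PolyB.const 2).mul PolyB.id)).add (PolyB.const 2)).add (PolyB.const C₂)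
    · exact (((PolyB.const (2 * t + 1)).mul ((hTaP.add PolyB.id).add (PolyB.const 1))).add
        (PolyB.const u.val)).add (PolyB.const 1)
  · intro M hM n N hMg S hS hsum
    have hTaD : Ta M ≤ D M := by
      have h1 : Ta M + 2 * M + 2 + C₂ ≤ (2 * t + 1) * (Ta M + 2 * M + 2 + C₂) :=
        Nat.le_mul_of_pos_left _ (by omega)
      simp only [hD]
      omega
    have H : NumR (sysM ht u hu n) M (TT u.val M (t + 1)) (Ta M) N :=
      hC M (TT u.val M (t + 1)) (Ta M) hM le_rfl (by simp only [hTa]; omega)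
        (ExM_le (hD' M hM) (by simp only [hTa]; omega))
        (ExV_le (hD'' M hM) (by simp only [hTa]; omega)) n N (hMg.le hTaD)
    obtain ⟨ls, -, hls⟩ := exists_max_image (univ : Finset (Option (Fin t))) N ⟨none, mem_univ _⟩
    have hmax : ∀ i, N i ≤ N ls := fun i => hls i (mem_univ i)
    have hddN : dd N ≤ (2 * t + 1) * N ls := dd_le_max N (N ls) hmax
    have hbig : Ta M + 2 * M + 2 + C₂ ≤ N ls := by
      by_contra hcon
      push Not at hcon
      have h1 : (2 * t + 1) * N ls ≤ (2 * t + 1) * (Ta M + 2 * M + 2 + C₂) :=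
        Nat.mul_le_mul_left _ hcon.le
      have h2 := hMg.deg
      have h3 : (2 * t + 1) * (Ta M + 2 * M + 2 + C₂) + C₂ ≤ D M := by
        simp only [hD]
        omega
      omega
    have hFM : D M ≤ FM R u.val n ls N + C₂ := by
      apply hC₂ (D M) n N _ hMg ls (by omega)
      have h1 : C₂ ≤ D M := by
        simp only [hD]
        omega
      exact h1
    have hFlow : cC u.val M *
        ((t + 1) ^ R * ((2 * t + 1) * (Ta M + M + 1) + u.val + 1) ^ (u.val + 1)) +
        cC u.val M ≤ FM R u.val n ls N := by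
      have h1 : cC u.val M *
          ((t + 1) ^ R * ((2 * t + 1) * (Ta M + M + 1) + u.val + 1) ^ (u.val + 1)) +
          cC u.val M + C₂ ≤ D M := by
        simp only [hD]
        omega
      omega
    have hex := H.exact ls hmax (by omega) (show cC u.val M ≤ FM R u.val n ls N by omega)
      ?_ S hS ?_
    · exact (Fk_iff (gM t u) (WM u n N) S).2 hex
    · intro a _ ha
      change (cC u.val M : ℤ) * RM R u.val n a ≤ (FM R u.val n ls N : ℤ)
      have h1 := RM_upper u.val huR n a
      have h2 : dd a ≤ (2 * t + 1) * (Ta M + M + 1) := dd_le_max a _ ha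
      have h3 : (RM R u.val n a : ℤ) ≤
          (((t + 1) ^ R * ((2 * t + 1) * (Ta M + M + 1) + u.val + 1) ^ (u.val + 1) : ℕ) : ℤ) := by
        refine h1.trans ?_
        have h4 : (t + 1) ^ R * (dd a + u.val + 1) ^ (u.val + 1) ≤
            (t + 1) ^ R * ((2 * t + 1) * (Ta M + M + 1) + u.val + 1) ^ (u.val + 1) := by
          apply Nat.mul_le_mul_left
          exact Nat.pow_le_pow_left (by omega) _
        exact_mod_cast h4
      calc (cC u.val M : ℤ) * RM R u.val n a ≤ (cC u.val M : ℤ) *
          (((t + 1) ^ R * ((2 * t + 1) * (Ta M + M + 1) + u.val + 1) ^ (u.val + 1) : ℕ) : ℤ) :=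
            mul_le_mul_of_nonneg_left h3 (by positivity)
        _ = ((cC u.val M *
          ((t + 1) ^ R * ((2 * t + 1) * (Ta M + M + 1) + u.val + 1) ^ (u.val + 1)) : ℕ) : ℤ) := by
            push_cast
            ring
        _ ≤ (FM R u.val n ls N : ℤ) := by
            exact_mod_cast (show cC u.val M *
              ((t + 1) ^ R * ((2 * t + 1) * (Ta M + M + 1) + u.val + 1) ^ (u.val + 1)) ≤
              FM R u.val n ls N by omega)
    · change RM R u.val n N ≤ _
      unfold RM
      have h1 : (tau (t + 1) (R - u.val) (u.val + 1) (dd N) : ℤ) ≤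
          ((∑ b, ell (u.val + 1) (mu n N b) + (S.map (ell (u.val + 1))).sum : ℕ) : ℤ) := by
        exact_mod_cast hsum
      push_cast at h1 ⊢
      linarith

theorem exM_all (ht : 1 ≤ t) (hR : 1 ≤ R) (hts : t + s = (t + 1) ^ (R + 1)) (u : Fin (R + 1)) :
    ∃ D : ℕ → ℕ, PolyB D ∧ ∀ M, 1 ≤ M → ExM t s u M (D M) := by
  obtain ⟨k, hk⟩ : ∃ k, u.val = k := ⟨_, rfl⟩
  induction k generalizing u with
  | zero => exact ⟨fun _ => 0, PolyB.const 0, fun M _ => exM_base ht u hk M⟩
  | succ k ih =>
    exact exM_step ht hR hts u ⟨k, by omega⟩ hk (ih ⟨k, by omega⟩ rfl)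

end Pool.Agent.H18.Pr

end

section

/-!
# Module FinalR (PR): many large multiplicities in `ℙ^r`
-/

namespace Pool.Agent.H18.Pr

open Finset Pool.Agent.H18.Ex Pool.Agent.H18.Cub Pool.Agent.H18.Fat

/-- Many large multiplicities in `ℙ^r`. -/
theorem many_largeR (r e : ℕ) (hr : 2 ≤ r) (he : 2 ≤ e) :
    ∃ K E : ℕ, ∀ M, 1 ≤ M → ∀ (k d : ℕ) (m : Fin k → ℕ) (J : Finset (Fin k)), J.card ≤ e ^ r →
      (∀ i, i ∉ J → m i ≤ M) →
      (∀ S ⊆ J, S.card ≤ e → ∑ i ∈ S, m i + ((r - 1) * (e - 1) - 2) ≤ d) →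
      K * M ^ E ≤ d → (∀ i ∈ J, m i + K * M ^ E ≤ d) →
      ∑ i ∈ J, m i + K * M ^ E ≤ e ^ (r - 1) * d →
      ForGeneralPoints r k fun p => ImposesMaximalConditions r d p m := by
  obtain ⟨t, rfl⟩ : ∃ t, e = t + 1 := ⟨e - 1, by omega⟩
  obtain ⟨R, rfl⟩ : ∃ R, r = R + 1 := ⟨r - 1, by omega⟩
  have ht : 1 ≤ t := by omega
  have hlt : t + 1 ≤ (t + 1) ^ (R + 1) := Nat.le_self_pow (by omega) _
  obtain ⟨s, hts⟩ : ∃ s, t + s = (t + 1) ^ (R + 1) := ⟨(t + 1) ^ (R + 1) - t, by omega⟩
  have hs : 1 ≤ s := by omega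
  obtain ⟨D, ⟨K, E, hKE⟩, hD⟩ := exM_all (R := R) ht (by omega) hts (Fin.last R)
  refine ⟨K, E, fun M hM k d m J hJ hsmall hsum hd hdJ hcurve => ?_⟩
  have h1 := hKE M hM
  refine many_large_of R t s M (D M) ht hs hts (Fin.last R) rfl hM (hD M hM) k d m J hJ hsmall
    hsum (by omega) (fun i hi => ?_) ?_
  · have := hdJ i hi
    omega
  · simp only [Nat.add_sub_cancel] at hcurve
    omega

end Pool.Agent.H18.Pr

end
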