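import Pool.Agent.H94.LP1.M07
import Pool.Agent.H94.LP1.M08
import Pool.Agent.H94.LP1.M10

/-! The parts of this file: H18.Ua.UDefs, H18.Ua.UDeh, H18.Ua.UMul, H18.Ua.UNumb, H18.Ub.VDefs. -/

section

/-!
# Project UA: small multiplicities and a given scheme

`Fam n` is a family of spaces `W δ` of polynomials of degree at most `δ` in `x_0, …, x_n`, behaving
like the polynomials of degree at most `δ` that vanish on a closed subscheme.  We show: if the numbers
`h δ - h (δ - 1)` (`h δ = dim W δ`) vary slowly below `d` and the traces on hyperplanes are exact then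
general points of multiplicities at most `M` impose maximal conditions on `W d`.
-/

namespace Pool.Agent.H18.Ua

open Finset Pool.Agent.H18.Ex Pool.Agent.H18.Cub Pool.Agent.H18.Pr

/-- A family of spaces of polynomials behaving like the pieces of a saturated ideal. -/
structure Fam (n : ℕ) : Type where
  /-- the spaces -/
  W : ℕ → Submodule ℂ (MvPolynomial (Fin (n + 1)) ℂ)
  deg : ∀ δ, ∀ F ∈ W δ, F.totalDegree ≤ δ
  mul : ∀ δ j, ∀ F ∈ W δ, ∀ Q : MvPolynomial (Fin (n + 1)) ℂ, Q.totalDegree ≤ j →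
    Q * F ∈ W (δ + j)
  /-- the values `v` for which the hyperplane `x_0 = v` is excluded -/
  bad : Finset ℂ
  res : ∀ δ, ∀ v, v ∉ bad → ∀ F, (MvPolynomial.X 0 - MvPolynomial.C v) * F ∈ W (δ + 1) → F ∈ W δ

variable {n : ℕ}

/-- The dimensions. -/
noncomputable def Fam.h (A : Fam n) (δ : ℕ) : ℕ := Module.finrank ℂ (A.W δ)

/-- The hyperplanes `x_0 = v l`. -/
def gU (n : ℕ) {q : ℕ} (v : Fin q → ℂ) : Lines (Fin q) (Fin (n + 1)) where
  co := fun _ => 0
  va := v

/-- The trace on `x_0 = v` of the space of degree `δ` is killed by general points of multiplicities at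
most `M` as soon as their lengths suffice. -/
def TrEx (A : Fam n) (M δ : ℕ) : Prop :=
  ∀ v, v ∉ A.bad → ∀ S : Multiset ℕ, (∀ m ∈ S, m ≤ M) →
    A.h δ ≤ A.h (δ - 1) + (S.map (ell n)).sum → Fk ((A.W δ).map (sub1 0 v).toLinearMap) S

/-- The elements of `W` satisfying the conditions `k` at the positions `pos`. -/
noncomputable def kerP {ι Λ κ : Type} [Fintype ι] [DecidableEq ι] (g : Lines Λ ι)
    (W : Submodule ℂ (MvPolynomial ι ℂ)) (k : κ → Kind Λ) (pos : κ → ι → ℂ) :
    Submodule ℂ (MvPolynomial ι ℂ) where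
  carrier := {F | F ∈ W ∧ ∀ i, SatP g F (k i) (pos i)}
  add_mem' := by
    rintro F G ⟨h1, h2⟩ ⟨h3, h4⟩
    refine ⟨W.add_mem h1 h3, fun i b hb => ?_⟩
    rw [tay_add, h2 i b hb, h4 i b hb, add_zero]
  zero_mem' := ⟨W.zero_mem, fun _ _ _ => tay_zero _ _⟩
  smul_mem' := by
    rintro c F ⟨h1, h2⟩
    refine ⟨W.smul_mem c h1, fun i b hb => ?_⟩
    rw [tay_smul, h2 i b hb, mul_zero]

theorem mem_kerP {ι Λ κ : Type} [Fintype ι] [DecidableEq ι] {g : Lines Λ ι}
    {W : Submodule ℂ (MvPolynomial ι ℂ)} {k : κ → Kind Λ} {pos : κ → ι → ℂ}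
    {F : MvPolynomial ι ℂ} : F ∈ kerP g W k pos ↔ F ∈ W ∧ ∀ i, SatP g F (k i) (pos i) := Iff.rfl

theorem kerP_le {ι Λ κ : Type} [Fintype ι] [DecidableEq ι] {g : Lines Λ ι}
    {W : Submodule ℂ (MvPolynomial ι ℂ)} {k : κ → Kind Λ} {pos : κ → ι → ℂ} :
    kerP g W k pos ≤ W := fun _ hF => hF.1

/-! ### Numbers -/

/-- The number of hyperplanes. -/
def qU (n M : ℕ) : ℕ := 2 * M ^ 2 * ell (n + 1) M + 4 * M * ell n M

/-- The number of degrees that are used. -/
def CU (n M : ℕ) : ℕ := 11 * M * qU n M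

/-- The required size of the traces. -/
def TU (n M : ℕ) : ℕ := 8 * M * (M + 1) * ell n M ^ 2

/-- The number of points put on each hyperplane. -/
def yU (n M t : ℕ) : ℕ := t / (2 * ell n M)

section

variable {Λ : Type} [Fintype Λ] [DecidableEq Λ]

/-- The states that are used: at most `2 M + 1` steps in each direction. -/
def RegU (M : ℕ) (N a : Λ → ℕ) : Prop := ∀ i, a i ≤ N i ∧ N i ≤ a i + (2 * M + 1)

/-- One step down in the directions of `T`. -/
def dnT (T : Finset Λ) (a : Λ → ℕ) : Λ → ℕ := fun l => if l ∈ T then a l - 1 else a l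

/-- The configuration of the branch `T` (`T ⊆ P`): in the directions of `P`, `y` of the forced simple
points are removed; in the directions of `P \ T` they become free simple points; in the directions of
`T` the other forced conditions go one step down. -/
def brT (c : Cfg Λ) (y : ℕ) (P T : Finset Λ) : Cfg Λ where
  N := c.N
  s := c.s + y * (P \ T).card
  Φ := fun l => if l ∈ T then shf (c.Φ l - Multiset.replicate y (1, 1))
    else if l ∈ P then c.Φ l - Multiset.replicate y (1, 1) else c.Φ l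

end

end Pool.Agent.H18.Ua

end

section

/-!
# Module UDeh (UA): dehomogenisation
-/

namespace Pool.Agent.H18.Ua

open Finset Pool.Agent.H18.Ex Pool.Agent.H18.Cub Pool.Agent.H18.Fat

variable {r : ℕ}

/-- `F(X_0, …, X_r) ↦ F(1, x_0, …, x_{r - 1})`. -/
noncomputable def dehA (r : ℕ) :
    MvPolynomial (Fin (r + 1)) ℂ →ₐ[ℂ] MvPolynomial (Fin r) ℂ :=
  MvPolynomial.aeval (Fin.cons 1 MvPolynomial.X)

/-- The exponent of the dehomogenised monomial. -/
private noncomputable def dexp (s : Fin (r + 1) →₀ ℕ) : Fin r →₀ ℕ :=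
  Finsupp.equivFunOnFinite.symm fun i => s i.succ

private theorem dehA_monomial (s : Fin (r + 1) →₀ ℕ) (c : ℂ) :
    dehA r (MvPolynomial.monomial s c) = MvPolynomial.monomial (dexp s) c := by
  rw [dehA, MvPolynomial.aeval_monomial, Finsupp.prod_fintype _ _ (fun i => pow_zero _),
    Fin.prod_univ_succ, MvPolynomial.monomial_eq,
    Finsupp.prod_fintype _ _ (fun i => pow_zero _), MvPolynomial.algebraMap_eq]
  simp [dexp]

private theorem dehA_eq (F : MvPolynomial (Fin (r + 1)) ℂ) :
    dehA r F = ∑ s ∈ F.support, MvPolynomial.monomial (dexp s) (F.coeff s) := by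
  conv_lhs => rw [F.as_sum]
  rw [map_sum]
  exact sum_congr rfl fun s _ => dehA_monomial s _

private theorem dexp_degree {d : ℕ} {F : MvPolynomial (Fin (r + 1)) ℂ} (hF : F.IsHomogeneous d)
    {s : Fin (r + 1) →₀ ℕ} (hs : F.coeff s ≠ 0) : s 0 + ∑ i, dexp s i = d := by
  have h1 := hF hs
  rw [← h1, Finsupp.weight_apply, Finsupp.sum_fintype _ _ (fun i => by simp),
    Fin.sum_univ_succ]
  simp [dexp]

theorem dehA_degree (F : MvPolynomial (Fin (r + 1)) ℂ) (δ : ℕ) (hF : F.IsHomogeneous δ) :
    (dehA r F).totalDegree ≤ δ := by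
  rw [dehA_eq]
  refine (MvPolynomial.totalDegree_finsetSum _ _).trans ?_
  refine Finset.sup_le fun s hs => ?_
  refine (MvPolynomial.totalDegree_monomial_le _ _).trans ?_
  have h1 := dexp_degree hF (MvPolynomial.mem_support_iff.1 hs)
  rw [Finsupp.sum_fintype _ _ (fun i => rfl)]
  change ∑ i, dexp s i ≤ δ
  omega

theorem dehA_injective (F : MvPolynomial (Fin (r + 1)) ℂ) (δ : ℕ) (hF : F.IsHomogeneous δ)
    (h : dehA r F = 0) : F = 0 := by
  by_contra hne
  obtain ⟨s, hs⟩ := MvPolynomial.ne_zero_iff.1 hne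
  have h1 : (dehA r F).coeff (dexp s) = F.coeff s := by
    rw [dehA_eq, MvPolynomial.coeff_sum, sum_eq_single s]
    · rw [MvPolynomial.coeff_monomial, if_pos rfl]
    · intro t ht hts
      rw [MvPolynomial.coeff_monomial, if_neg]
      intro heq
      apply hts
      have h2 := dexp_degree hF (MvPolynomial.mem_support_iff.1 ht)
      have h3 := dexp_degree hF hs
      rw [heq] at h2
      ext i
      refine Fin.cases ?_ (fun i => ?_) i
      · omega
      · have h4 := DFunLike.congr_fun heq i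
        simpa [dexp] using h4
    · intro hns
      exact absurd (MvPolynomial.mem_support_iff.2 hs) hns
  rw [h, MvPolynomial.coeff_zero] at h1
  exact hs h1.symm

/-- The exponent of the homogenised monomial. -/
private noncomputable def hexp (δ : ℕ) (s : Fin r →₀ ℕ) : Fin (r + 1) →₀ ℕ :=
  Finsupp.equivFunOnFinite.symm (Fin.cons (δ - ∑ i, s i) fun i => s i)

private theorem dexp_hexp (δ : ℕ) (s : Fin r →₀ ℕ) : dexp (hexp δ s) = s := by
  ext i
  simp [dexp, hexp]

theorem dehA_surjective (f : MvPolynomial (Fin r) ℂ) (δ : ℕ) (hf : f.totalDegree ≤ δ) :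
    ∃ F : MvPolynomial (Fin (r + 1)) ℂ, F.IsHomogeneous δ ∧ dehA r F = f := by
  refine ⟨∑ s ∈ f.support, MvPolynomial.monomial (hexp δ s) (f.coeff s), ?_, ?_⟩
  · apply MvPolynomial.IsHomogeneous.sum
    intro s hs
    apply MvPolynomial.isHomogeneous_monomial
    have h1 := MvPolynomial.le_totalDegree hs
    rw [Finsupp.sum_fintype _ _ (fun i => rfl)] at h1
    change ∑ i, s i ≤ f.totalDegree at h1
    rw [Finsupp.degree_eq_sum, Fin.sum_univ_succ]
    simp only [hexp, Finsupp.equivFunOnFinite_symm_apply_apply, Fin.cons_zero, Fin.cons_succ]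
    omega
  · rw [map_sum]
    conv_rhs => rw [f.as_sum]
    refine sum_congr rfl fun s _ => ?_
    rw [dehA_monomial, dexp_hexp]

/-- As `deh_vanish` in `Pool.Agent.H18.Cub.Trans`. -/
theorem dehA_vanish (F : MvPolynomial (Fin (r + 1)) ℂ) (P : Fin r → ℂ) (m : ℕ)
    (h : VanishesToOrder F (Fin.cons 1 P) m) (β : Fin r → ℕ) (hβ : ∑ i, β i < m) :
    tay (dehA r F) P β = 0 := by
  rw [vanishesToOrder_iff_mem_ideal_pow] at h
  set J : Ideal (MvPolynomial (Fin r) ℂ) := Ideal.span (Set.range fun j =>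
    (MvPolynomial.X j - MvPolynomial.C (P j) : MvPolynomial (Fin r) ℂ)) with hJ
  have hC : ∀ c : ℂ, dehA r (MvPolynomial.C c) = MvPolynomial.C c := fun c => (dehA r).commutes c
  have hle : Ideal.map (dehA r) (Ideal.span (Set.range fun j =>
      (MvPolynomial.X j - MvPolynomial.C ((Fin.cons 1 P : Fin (r + 1) → ℂ) j) :
        MvPolynomial (Fin (r + 1)) ℂ))) ≤ J := by
    rw [Ideal.map_span, Ideal.span_le]
    rintro _ ⟨_, ⟨j, rfl⟩, rfl⟩
    refine Fin.cases ?_ (fun i => ?_) j
    · have h0 : dehA r (MvPolynomial.X 0 - MvPolynomial.C 1) = 0 := by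
        rw [map_sub, hC]
        simp [dehA]
      change dehA r (MvPolynomial.X 0 - MvPolynomial.C 1) ∈ J
      rw [h0]
      exact J.zero_mem
    · have h0 : dehA r (MvPolynomial.X i.succ - MvPolynomial.C (P i)) =
          MvPolynomial.X i - MvPolynomial.C (P i) := by
        rw [map_sub, hC]
        simp [dehA]
      change dehA r (MvPolynomial.X i.succ - MvPolynomial.C (P i)) ∈ J
      rw [h0]
      exact Ideal.subset_span ⟨i, rfl⟩
  have h1 : dehA r F ∈ J ^ m := by
    have h2 := Ideal.mem_map_of_mem (dehA r) h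
    rw [Ideal.map_pow] at h2
    exact Ideal.pow_right_mono hle m h2
  have h2 : VanishesToOrder (dehA r F) P m := by
    rw [vanishesToOrder_iff_mem_ideal_pow]
    exact h1
  refine h2 (Finsupp.equivFunOnFinite.symm β) ?_
  rw [Finsupp.degree_eq_sum]
  simpa using hβ

private theorem coeff_zero_shift {n : ℕ} (L : MvPolynomial (Fin n) ℂ) (q : Fin n → ℂ) :
    MvPolynomial.coeff 0 (shift q L) = MvPolynomial.eval q L := by
  rw [← MvPolynomial.constantCoeff_eq, shift]
  induction L using MvPolynomial.induction_on with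
  | C a => simp
  | add p q hp hq => rw [map_add, map_add, hp, hq, map_add]
  | mul_X p i hp =>
    rw [map_mul, map_mul, hp, map_mul, MvPolynomial.aeval_X]
    simp

/-- Units may be cancelled. -/
theorem vanishes_of_mul {n : ℕ} (L F : MvPolynomial (Fin n) ℂ) (q : Fin n → ℂ) (m : ℕ)
    (hL : MvPolynomial.eval q L ≠ 0) (h : VanishesToOrder (L * F) q m) :
    VanishesToOrder F q m := by
  have hmul : shift q (L * F) = shift q L * shift q F := by
    rw [shift, shift, shift, map_mul]
  have key : ∀ k : ℕ, ∀ β : Fin n →₀ ℕ, β.degree = k → β.degree < m →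
      MvPolynomial.coeff β (shift q F) = 0 := by
    intro k
    induction k using Nat.strong_induction_on with
    | _ k ih =>
      intro β hk hβ
      have h1 := h β hβ
      rw [hmul, MvPolynomial.coeff_mul, Finset.sum_eq_single (0, β)] at h1
      · rw [coeff_zero_shift] at h1
        exact (mul_eq_zero.1 h1).resolve_left hL
      · rintro ⟨a, b⟩ hab hne
        rw [Finset.HasAntidiagonal.mem_antidiagonal] at hab
        have hab' : a + b = β := hab
        have hdeg : a.degree + b.degree = β.degree := by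
          rw [← hab', map_add]
        have ha : a ≠ 0 := by
          intro h0
          apply hne
          rw [h0, zero_add] at hab'
          rw [h0, hab']
        have ha' : 0 < a.degree := by
          rw [Nat.pos_iff_ne_zero, Ne, Finsupp.degree_eq_zero_iff]
          exact ha
        have hb : MvPolynomial.coeff b (shift q F) = 0 :=
          ih b.degree (by omega) b rfl (by omega)
        simp only
        rw [hb, mul_zero]
      · intro hn
        exact absurd (Finset.HasAntidiagonal.mem_antidiagonal.2 (zero_add β)) hn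
  exact fun β hβ => key _ β rfl hβ

theorem vanishes_mul {n : ℕ} (L F : MvPolynomial (Fin n) ℂ) (q : Fin n → ℂ) (m : ℕ)
    (h : VanishesToOrder F q m) : VanishesToOrder (L * F) q m := by
  rw [vanishesToOrder_iff_mem_ideal_pow] at h ⊢
  exact Ideal.mul_mem_left _ _ h

/-- Homogeneous coordinates may be scaled. -/
theorem vanishes_smul {n : ℕ} (F : MvPolynomial (Fin n) ℂ) (δ : ℕ) (hF : F.IsHomogeneous δ)
    (q : Fin n → ℂ) (c : ℂ) (hc : c ≠ 0) (m : ℕ) (h : VanishesToOrder F q m) :
    VanishesToOrder F (c • q) m := by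
  rw [vanishesToOrder_iff_mem_ideal_pow] at h ⊢
  set φ : MvPolynomial (Fin n) ℂ →ₐ[ℂ] MvPolynomial (Fin n) ℂ :=
    MvPolynomial.aeval (fun j => MvPolynomial.C c⁻¹ * MvPolynomial.X j) with hφ
  have hC : ∀ c : ℂ, φ (MvPolynomial.C c) = MvPolynomial.C c := fun c => φ.commutes c
  have hle : Ideal.map φ (Ideal.span (Set.range fun j =>
      (MvPolynomial.X j - MvPolynomial.C (q j) : MvPolynomial (Fin n) ℂ))) ≤
      Ideal.span (Set.range fun j =>
      (MvPolynomial.X j - MvPolynomial.C ((c • q) j) : MvPolynomial (Fin n) ℂ)) := by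
    rw [Ideal.map_span, Ideal.span_le]
    rintro _ ⟨_, ⟨j, rfl⟩, rfl⟩
    have h0 : φ (MvPolynomial.X j - MvPolynomial.C (q j)) =
        MvPolynomial.C c⁻¹ * (MvPolynomial.X j - MvPolynomial.C ((c • q) j)) := by
      rw [map_sub, hC, hφ, MvPolynomial.aeval_X, mul_sub, ← MvPolynomial.C_mul, Pi.smul_apply,
        smul_eq_mul, inv_mul_cancel_left₀ hc]
    change φ (MvPolynomial.X j - MvPolynomial.C (q j)) ∈ _
    rw [h0]
    exact Ideal.mul_mem_left _ _ (Ideal.subset_span ⟨j, rfl⟩)
  have h1 := Ideal.mem_map_of_mem φ h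
  rw [Ideal.map_pow] at h1
  have h2 := Ideal.pow_right_mono hle m h1
  have h3 : φ F = MvPolynomial.C (c⁻¹ ^ δ) * F := by
    conv_lhs => rw [F.as_sum]
    conv_rhs => rw [F.as_sum]
    rw [map_sum, Finset.mul_sum]
    refine Finset.sum_congr rfl fun s hs => ?_
    have hd : s.degree = δ := by
      have h5 := hF (MvPolynomial.mem_support_iff.1 hs)
      rw [← h5, Finsupp.weight_apply, Finsupp.sum_fintype _ _ (fun i => by simp),
        Finsupp.degree_eq_sum]
      simp
    rw [hφ, MvPolynomial.aeval_monomial, MvPolynomial.monomial_eq]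
    have h6 : (s.prod fun i k => (MvPolynomial.C c⁻¹ * MvPolynomial.X i :
        MvPolynomial (Fin n) ℂ) ^ k) =
        MvPolynomial.C (c⁻¹ ^ δ) * s.prod fun i k => (MvPolynomial.X i :
          MvPolynomial (Fin n) ℂ) ^ k := by
      simp only [mul_pow]
      rw [Finsupp.prod_mul]
      congr 1
      rw [Finsupp.prod_fintype _ _ (fun i => pow_zero _), Finset.prod_pow_eq_pow_sum,
        ← Finsupp.degree_eq_sum, hd, ← map_pow]
    rw [h6, MvPolynomial.algebraMap_eq]
    ring
  rw [h3] at h2
  have h4 := Ideal.mul_mem_left _ (MvPolynomial.C (c ^ δ)) h2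
  rw [← mul_assoc, ← MvPolynomial.C_mul, ← mul_pow, mul_inv_cancel₀ hc, one_pow, map_one,
    one_mul] at h4
  exact h4

end Pool.Agent.H18.Ua

end

section

/-!
# Module UMul (UA): conditions and products
-/

namespace Pool.Agent.H18.Ua

open Finset Pool.Agent.H18.Ex Pool.Agent.H18.Cub

variable {ι Λ : Type} [Fintype ι] [DecidableEq ι]

/-- The index sets of the conditions are closed under passing to smaller multi-indices. -/
theorem idx_down (g : Lines Λ ι) (k : Kind Λ) {b b' : ι → ℕ} (hb : g.Idx k b)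
    (h : ∀ i, b' i ≤ b i) : g.Idx k b' := by
  cases k with
  | free m =>
    have h1 : ∑ i, b i < m := hb
    have h2 : ∑ i, b' i ≤ ∑ i, b i := sum_le_sum fun i _ => h i
    exact (show ∑ i, b' i < m by omega)
  | forced l c e =>
    have h1 : ∑ i, b i < c ∧ b (g.co l) + e ≤ c := hb
    have h2 : ∑ i, b' i ≤ ∑ i, b i := sum_le_sum fun i _ => h i
    have h3 := h (g.co l)
    exact (show ∑ i, b' i < c ∧ b' (g.co l) + e ≤ c by omega)

/-- The product formula for Taylor coefficients. -/
private theorem tay_mul (Q F : MvPolynomial ι ℂ) (q : ι → ℂ) (b : ι → ℕ) :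
    tay (Q * F) q b = ∑ x ∈ antidiagonal (Finsupp.equivFunOnFinite.symm b),
      tay Q q (⇑x.1) * tay F q (⇑x.2) := by
  rw [tay, map_mul, MvPolynomial.coeff_mul]
  refine sum_congr rfl fun x _ => ?_
  have h : ∀ a : ι →₀ ℕ, Finsupp.equivFunOnFinite.symm (⇑a : ι → ℕ) = a := by
    intro a; ext i; simp
  rw [tay, tay, h, h]

private theorem anti_le {b : ι → ℕ} {x : (ι →₀ ℕ) × (ι →₀ ℕ)}
    (hx : x ∈ antidiagonal (Finsupp.equivFunOnFinite.symm b)) (i : ι) : x.1 i + x.2 i = b i := by
  rw [HasAntidiagonal.mem_antidiagonal] at hx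
  have h := DFunLike.congr_fun hx i
  simpa using h

theorem satP_mul (g : Lines Λ ι) (Q F : MvPolynomial ι ℂ) (k : Kind Λ) (q : ι → ℂ)
    (h : SatP g F k q) : SatP g (Q * F) k q := by
  intro b hb
  rw [tay_mul]
  refine sum_eq_zero fun x hx => ?_
  rw [h (⇑x.2) (idx_down g k hb fun i => by have := anti_le hx i; omega), mul_zero]

/-- Units may be cancelled (induction on `∑ i, b i`). -/
theorem satP_of_mul (g : Lines Λ ι) (Q F : MvPolynomial ι ℂ) (k : Kind Λ) (q : ι → ℂ)
    (hQ : MvPolynomial.eval (g.pt k q) Q ≠ 0) (h : SatP g (Q * F) k q) : SatP g F k q := by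
  have key : ∀ N : ℕ, ∀ b : ι → ℕ, ∑ i, b i < N → g.Idx k b → tay F (g.pt k q) b = 0 := by
    intro N
    induction N with
    | zero => intro b hb; omega
    | succ N ih =>
      intro b hN hb
      have h1 := h b hb
      rw [tay_mul] at h1
      have h2 : ((0 : ι →₀ ℕ), Finsupp.equivFunOnFinite.symm b) ∈
          antidiagonal (Finsupp.equivFunOnFinite.symm b) := by
        rw [HasAntidiagonal.mem_antidiagonal, zero_add]
      rw [sum_eq_single_of_mem _ h2] at h1
      · have h3 : tay Q (g.pt k q) (⇑(0 : ι →₀ ℕ)) = MvPolynomial.eval (g.pt k q) Q := by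
          have h4 : (⇑(0 : ι →₀ ℕ) : ι → ℕ) = 0 := by funext i; rfl
          rw [h4, tay_zero_right]
        have h5 : (⇑(Finsupp.equivFunOnFinite.symm b) : ι → ℕ) = b := by funext i; simp
        simp only at h1
        rw [h3, h5] at h1
        exact (mul_eq_zero.1 h1).resolve_left hQ
      · intro x hx hne
        have h6 : ∀ i, x.1 i + x.2 i = b i := anti_le hx
        rw [ih (⇑x.2) ?_ (idx_down g k hb fun i => by have := h6 i; omega), mul_zero]
        have h7 : ∑ i, x.1 i + ∑ i, x.2 i = ∑ i, b i := by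
          rw [← sum_add_distrib]
          exact sum_congr rfl fun i _ => h6 i
        have h8 : 0 < ∑ i, x.1 i := by
          by_contra h9
          apply hne
          have h10 : ∑ i, x.1 i = 0 := by omega
          rw [sum_eq_zero_iff] at h10
          have h11 : x.1 = 0 := by
            ext i
            exact h10 i (mem_univ i)
          have h12 : x.2 = Finsupp.equivFunOnFinite.symm b := by
            ext i
            have := h6 i
            rw [h11] at this
            simpa using this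
          exact Prod.ext h11 h12
        omega
  intro b hb
  exact key _ b (Nat.lt_succ_self _) hb

private theorem totalDegree_trl (F : MvPolynomial ι ℂ) (q : ι → ℂ) :
    (trl q F).totalDegree ≤ F.totalDegree := by
  conv_lhs => rw [F.as_sum]
  rw [map_sum]
  refine MvPolynomial.totalDegree_finsetSum_le fun a ha => ?_
  rw [trl, MvPolynomial.aeval_monomial]
  refine (MvPolynomial.totalDegree_mul _ _).trans ?_
  rw [MvPolynomial.algebraMap_eq, MvPolynomial.totalDegree_C, zero_add]
  refine le_trans ?_ (MvPolynomial.le_totalDegree ha)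
  rw [Finsupp.prod]
  refine (MvPolynomial.totalDegree_finsetProd _ _).trans ?_
  rw [Finsupp.sum]
  refine sum_le_sum fun i _ => ?_
  refine (MvPolynomial.totalDegree_pow _ _).trans ?_
  have h1 : (MvPolynomial.X i + MvPolynomial.C (q i) : MvPolynomial ι ℂ).totalDegree ≤ 1 := by
    refine (MvPolynomial.totalDegree_add _ _).trans ?_
    rw [MvPolynomial.totalDegree_X, MvPolynomial.totalDegree_C]
    simp
  calc a i * (MvPolynomial.X i + MvPolynomial.C (q i) : MvPolynomial ι ℂ).totalDegree ≤ a i * 1 :=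
        Nat.mul_le_mul_left _ h1
    _ = a i := mul_one _

private theorem trl_inj (q : ι → ℂ) : Function.Injective (trl q : MvPolynomial ι ℂ →ₐ[ℂ] _) := by
  have h : (trl (fun i => -q i)).comp (trl q) = AlgHom.id ℂ (MvPolynomial ι ℂ) := by
    apply MvPolynomial.algHom_ext
    intro i
    have h1 : trl (fun i => -q i) (MvPolynomial.C (q i) : MvPolynomial ι ℂ) =
        (MvPolynomial.C (q i) : MvPolynomial ι ℂ) := by
      rw [← MvPolynomial.algebraMap_eq, AlgHom.commutes]
    rw [AlgHom.comp_apply, show trl q (MvPolynomial.X i : MvPolynomial ι ℂ) =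
      MvPolynomial.X i + MvPolynomial.C (q i) from by simp [trl], map_add, h1,
      show trl (fun i => -q i) (MvPolynomial.X i : MvPolynomial ι ℂ) =
      MvPolynomial.X i + MvPolynomial.C (-q i) from by simp [trl], MvPolynomial.C_neg]
    simp
  intro F G hFG
  have h2 := congrArg (trl (fun i => -q i)) hFG
  rw [← AlgHom.comp_apply, ← AlgHom.comp_apply, h] at h2
  exact h2

/-- A polynomial of degree less than `m` vanishing to order `m` at a point is zero. -/
theorem eq_zero_of_vanish (F : MvPolynomial ι ℂ) (q : ι → ℂ) (m : ℕ) (hdeg : F.totalDegree < m)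
    (h : ∀ b : ι → ℕ, ∑ i, b i < m → tay F q b = 0) : F = 0 := by
  apply trl_inj q
  rw [map_zero]
  ext a
  rw [MvPolynomial.coeff_zero]
  by_contra hne
  have h1 : a ∈ (trl q F).support := MvPolynomial.mem_support_iff.2 hne
  have h2 := MvPolynomial.le_totalDegree h1
  have h3 := totalDegree_trl F q
  have h4 : ∑ i, a i < m := by
    have h5 : (a.sum fun _ e => e) = ∑ i, a i := Finsupp.sum_fintype _ _ (by intro i; rfl)
    rw [h5] at h2
    omega
  apply hne
  have h6 := h (⇑a) h4
  rw [tay] at h6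
  have h7 : Finsupp.equivFunOnFinite.symm (⇑a : ι → ℕ) = a := by ext i; simp
  rwa [h7] at h6

end Pool.Agent.H18.Ua

end

section

/-!
# Module UNumb (UA): numerical consequences
-/

namespace Pool.Agent.H18.Ua

open Finset Pool.Agent.H18.Ex Pool.Agent.H18.Cub Pool.Agent.H18.Pr

variable {n M t : ℕ}

private theorem unumb_pos (n : ℕ) (hM : 1 ≤ M) : 1 ≤ ell n M :=
  Nat.choose_pos (by omega)

private theorem unumb_nphi (n : ℕ) (hM : 1 ≤ M) (t : ℕ) :
    M * nphi n M t ≤ (M - 1) * t + M * ell n M ^ 2 := by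
  unfold nphi
  have h : M * ((M - 1) * t / M) ≤ (M - 1) * t := Nat.mul_div_le _ _
  calc M * ((M - 1) * t / M + ell n M ^ 2) = M * ((M - 1) * t / M) + M * ell n M ^ 2 := by ring
    _ ≤ _ := Nat.add_le_add_right h _

theorem yU_mul_le (n M t : ℕ) : 2 * (yU n M t * ell n M) ≤ t := by
  unfold yU
  calc 2 * (t / (2 * ell n M) * ell n M) = t / (2 * ell n M) * (2 * ell n M) := by ring
    _ ≤ t := Nat.div_mul_le_self _ _

/-- `yU n M t ≥ t / (4 ell n M)`. -/
theorem le_yU (hM : 1 ≤ M) (ht : TU n M ≤ t) : t ≤ 4 * ell n M * yU n M t := by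
  have hE := unumb_pos n hM
  unfold TU at ht
  unfold yU
  set E := ell n M
  have h1 : 2 * E ≤ t := by
    refine le_trans ?_ ht
    nlinarith [Nat.mul_le_mul hM hE, Nat.mul_le_mul hE hE,
      Nat.mul_le_mul (Nat.mul_le_mul hM (Nat.le_add_left 1 M)) (Nat.mul_le_mul hE (le_refl E))]
  have h2 : 1 ≤ t / (2 * E) := (Nat.one_le_div_iff (by omega)).2 h1
  have h3 : t < 2 * E * (t / (2 * E)) + 2 * E := Nat.lt_mul_div_succ t (by omega)
  have h4 : 2 * E ≤ 2 * E * (t / (2 * E)) := Nat.le_mul_of_pos_right _ h2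
  calc t ≤ 2 * E * (t / (2 * E)) + 2 * E * (t / (2 * E)) := by omega
    _ = 4 * E * (t / (2 * E)) := by ring

/-- The bound for the traces of the forced conditions. -/
theorem nphi_le (hM : 1 ≤ M) (ht : TU n M ≤ t) : nphi n M t ≤ t := by
  have h := unumb_nphi n hM t
  unfold TU at ht
  obtain ⟨m, rfl⟩ : ∃ m, M = m + 1 := ⟨M - 1, by omega⟩
  rw [Nat.add_sub_cancel] at h
  set E := ell n (m + 1)
  have h2 : (m + 1) * nphi n (m + 1) t ≤ (m + 1) * t := by
    have : (m + 1) * E ^ 2 ≤ t := by
      refine le_trans ?_ ht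
      nlinarith [Nat.zero_le (m * E ^ 2), Nat.zero_le (m * m * E ^ 2), Nat.zero_le (E ^ 2)]
    calc (m + 1) * nphi n (m + 1) t ≤ m * t + (m + 1) * E ^ 2 := h
      _ ≤ m * t + t := by omega
      _ = (m + 1) * t := by ring
  exact Nat.le_of_mul_le_mul_left h2 (by omega)

/-- Room for the forced conditions: `F ≥ t - t / (4 M)`. -/
theorem nphi_room (hM : 1 ≤ M) (ht : TU n M ≤ t) {F : ℕ} (hF : (4 * M - 1) * t ≤ 4 * M * F) :
    nphi n M t + g0 n M * ell n M ≤ F := by
  have h := unumb_nphi n hM t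
  unfold TU at ht
  unfold g0
  obtain ⟨m, rfl⟩ : ∃ m, M = m + 1 := ⟨M - 1, by omega⟩
  rw [Nat.add_sub_cancel] at h
  rw [show 4 * (m + 1) - 1 = 4 * m + 3 by omega] at hF
  set E := ell n (m + 1)
  have h2 : 4 * (m + 1) * (nphi n (m + 1) t + (m + 1) * E * E) ≤ 4 * (m + 1) * F := by
    refine le_trans ?_ hF
    nlinarith [Nat.zero_le (m * E ^ 2), Nat.zero_le (m * m * E ^ 2), Nat.zero_le (E ^ 2)]
  exact Nat.le_of_mul_le_mul_left h2 (by omega)

/-- The margin of one hyperplane. -/
theorem nphi_margin (hM : 1 ≤ M) (ht : TU n M ≤ t) {F : ℕ} (hF : (4 * M - 1) * t ≤ 4 * M * F) :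
    t + 2 * M * nphi n M t ≤ 2 * M * F := by
  have h := unumb_nphi n hM t
  unfold TU at ht
  obtain ⟨m, rfl⟩ : ∃ m, M = m + 1 := ⟨M - 1, by omega⟩
  rw [Nat.add_sub_cancel] at h
  rw [show 4 * (m + 1) - 1 = 4 * m + 3 by omega] at hF
  set E := ell n (m + 1)
  nlinarith [Nat.zero_le (m * E ^ 2), Nat.zero_le (m * m * E ^ 2), Nat.zero_le (E ^ 2)]

theorem yU_room (hM : 1 ≤ M) (ht : TU n M ≤ t) {F : ℕ} (hF : (4 * M - 1) * t ≤ 4 * M * F) :
    yU n M t * ell n M ≤ F := by
  have h := yU_mul_le n M t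
  obtain ⟨m, rfl⟩ : ∃ m, M = m + 1 := ⟨M - 1, by omega⟩
  rw [show 4 * (m + 1) - 1 = 4 * m + 3 by omega] at hF
  have h2 : 4 * (m + 1) * (yU n (m + 1) t * ell n (m + 1)) ≤ 4 * (m + 1) * F := by
    refine le_trans ?_ hF
    set Z := yU n (m + 1) t * ell n (m + 1)
    calc 4 * (m + 1) * Z = 2 * (m + 1) * (2 * Z) := by ring
      _ ≤ 2 * (m + 1) * t := Nat.mul_le_mul_left _ h
      _ ≤ (4 * m + 3) * t := Nat.mul_le_mul_right _ (by omega)
  exact Nat.le_of_mul_le_mul_left h2 (by omega)

/-- The virtual dimension is large. -/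
theorem leR_room (hM : 1 ≤ M) (ht : TU n M ≤ t) {F : ℕ} (hF : F ≤ t) :
    M * (qU n M * t) + ell (n + 1) M * (F + g0 n M) + F + M * t +
      M * (ell (n + 1) M * (yU n M t + g0 n M)) ≤ 4 * M * qU n M * t := by
  have hE := unumb_pos n hM
  have hL := unumb_pos (n + 1) hM
  have hy : yU n M t ≤ t := Nat.div_le_self _ _
  have hg : g0 n M ≤ t := by
    unfold g0
    unfold TU at ht
    refine le_trans ?_ ht
    calc M * ell n M = M * ell n M * 1 := by ring
      _ ≤ M * ell n M * (8 * (M + 1) * ell n M) :=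
          Nat.mul_le_mul_left _ (Nat.mul_pos (by omega) (by omega))
      _ = 8 * M * (M + 1) * ell n M ^ 2 := by ring
  unfold qU
  generalize g0 n M = g at *
  generalize yU n M t = y at *
  generalize ell n M = E at *
  generalize ell (n + 1) M = L at *
  -- elementary bounds
  have a1 : L * (F + g) ≤ L * (t + t) := Nat.mul_le_mul_left _ (by omega)
  have a2 : M * (L * (y + g)) ≤ M * (L * (t + t)) :=
    Nat.mul_le_mul_left _ (Nat.mul_le_mul_left _ (by omega))
  have b1 : L * t ≤ M * (L * t) := Nat.le_mul_of_pos_left _ (by omega)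
  have b2 : M * (L * t) ≤ M * (M * (L * t)) :=
    Nat.mul_le_mul_left _ (Nat.le_mul_of_pos_left _ (by omega))
  have b3 : M * (M * (L * t)) ≤ M * (M * (M * (L * t))) :=
    Nat.mul_le_mul_left _ (Nat.mul_le_mul_left _ (Nat.le_mul_of_pos_left _ (by omega)))
  have c1 : t ≤ M * t := Nat.le_mul_of_pos_left _ (by omega)
  have c2 : M * t ≤ M * (M * t) := Nat.mul_le_mul_left _ c1
  have c3 : M * (M * t) ≤ M * (M * (E * t)) :=
    Nat.mul_le_mul_left _ (Nat.mul_le_mul_left _ (Nat.le_mul_of_pos_left _ (by omega)))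
  calc M * ((2 * M ^ 2 * L + 4 * M * E) * t) + L * (F + g) + F + M * t + M * (L * (y + g))
      ≤ M * ((2 * M ^ 2 * L + 4 * M * E) * t) + L * (t + t) + t + M * t + M * (L * (t + t)) := by
        omega
    _ = M * ((2 * M ^ 2 * L + 4 * M * E) * t) + (2 * (L * t) + 2 * (M * (L * t))) +
          (t + M * t) := by ring
    _ ≤ M * ((2 * M ^ 2 * L + 4 * M * E) * t) + 4 * (M * (M * (M * (L * t)))) +
          2 * (M * (M * (E * t))) := by omega
    _ ≤ M * ((2 * M ^ 2 * L + 4 * M * E) * t) + 6 * (M * (M * (M * (L * t)))) +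
          12 * (M * (M * (E * t))) := by omega
    _ = 4 * M * (2 * M ^ 2 * L + 4 * M * E) * t := by ring

/-- Monotonicity of the bound. -/
theorem nphi_mono (M : ℕ) {f f' : ℕ} (h : f ≤ f') : nphi n M f ≤ nphi n M f' := by
  unfold nphi
  exact Nat.add_le_add_right (Nat.div_le_div_right (Nat.mul_le_mul_left _ h)) _

/-- Either many hyperplanes are used, or many simple points are free. -/
theorem branch_cases (hM : 1 ≤ M) (ht : TU n M ≤ t) (j : ℕ) (hj : j ≤ qU n M) :
    M * t ≤ yU n M t * (qU n M - j) ∨ 2 * M * (ell (n + 1) M * (M * t)) ≤ j * t := by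
  have h := le_yU hM ht
  unfold qU at hj ⊢
  rcases Nat.lt_or_ge j (2 * M ^ 2 * ell (n + 1) M) with h1 | h1
  · left
    calc M * t ≤ M * (4 * ell n M * yU n M t) := Nat.mul_le_mul_left _ h
      _ = yU n M t * (4 * M * ell n M) := by ring
      _ ≤ yU n M t * (2 * M ^ 2 * ell (n + 1) M + 4 * M * ell n M - j) :=
          Nat.mul_le_mul_left _ (by omega)
  · right
    calc 2 * M * (ell (n + 1) M * (M * t)) = 2 * M ^ 2 * ell (n + 1) M * t := by ring
      _ ≤ j * t := Nat.mul_le_mul_right _ h1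

end Pool.Agent.H18.Ua

end

section

/-!
# Project UB: small multiplicities and a given scheme, incomplete traces

As in project UA, but the traces are only killed by points of multiplicities at most `M` together with
at least `w` simple points.
-/

namespace Pool.Agent.H18.Ub

open Finset Pool.Agent.H18.Ex Pool.Agent.H18.Cub Pool.Agent.H18.Pr

section

variable {Λ : Type} [Fintype Λ] [DecidableEq Λ] {n : ℕ}

/-- The trace is killed by points of multiplicities at most `M` and at least `w` simple points as soon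
as the lengths suffice. -/
def Gw (Y : SysN Λ n) (M w : ℕ) (l : Λ) (a : Λ → ℕ) : Prop :=
  ∀ S : Multiset ℕ, (∀ m ∈ S, m ≤ M) → ∀ x : ℕ, w ≤ x → Y.F l a ≤ (S.map (ell n)).sum + x →
    Y.tr l a (S + Multiset.replicate x 1)

end

/-- The number of free points needed for a step. -/
def g0w (n M w : ℕ) : ℕ := M * (ell n M + w)

/-- The bound for the traces of the forced conditions after a step. -/
def nphiw (n M w f : ℕ) : ℕ := (M - 1) * f / M + (ell n M + w) * ell n M

/-- The hyperplane section may grow by the factor `1 + 1 / EV`. -/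
def EV (n M : ℕ) : ℕ := 8 * M * (M + 1) * ell n M

section

variable {Λ : Type} [Fintype Λ] [DecidableEq Λ] {n : ℕ}

end

end Pool.Agent.H18.Ub

end
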