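import Pool.Agent.H94.LP1.M03
import Pool.Agent.H94.LP1.M15
import Pool.Agent.H94.LP1.M41

/-! The parts of this file: H18.TileFinal_1, H18.Ua.UFam, H18.Ua.UFat, H18.Ua.USimple, H18.Ua.UKill, H18.Ub.VGen. -/

section

/-!
# General fat points, all but `r + 1` of which have small multiplicity
-/

namespace Pool.Agent.H18.Fat

open MvPolynomial Finset

section

/-! ### Moments -/

theorem card_full_succ (s m : ℕ) : (full (s + 1) m).card = len (s + 1) m := by
  classical
  induction m with
  | zero =>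
    unfold full len
    simp
  | succ m ih =>
    have h : full (s + 1) (m + 1) = full (s + 1) m ∪ mons (s + 1) m := by
      ext β
      rw [mem_union, mem_full, mem_full, mem_mons]
      omega
    have hdisj : Disjoint (full (s + 1) m) (mons (s + 1) m) := by
      rw [Finset.disjoint_left]
      intro β hβ hβ'
      rw [mem_full] at hβ
      rw [mem_mons] at hβ'
      omega
    rw [h, card_union_of_disjoint hdisj, ih, card_mons]
    unfold len
    have h1 : m + 1 + (s + 1) - 1 = m + s + 1 := by omega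
    have h2 : m + (s + 1) - 1 = m + s := by omega
    rw [h1, h2, Nat.choose_succ_succ]
    ring

/-! ### The region of exponents -/

/-! ### The upper bound -/

/-! ### The lower bound -/

end

end Pool.Agent.H18.Fat

end

section

/-!
# Module UFam (UA): elementary properties of families
-/

namespace Pool.Agent.H18.Ua

open Finset Pool.Agent.H18.Ex Pool.Agent.H18.Cub Pool.Agent.H18.Pr

variable {n : ℕ}

instance Fam.finite (A : Fam n) (δ : ℕ) : FiniteDimensional ℂ (A.W δ) := by
  have h : A.W δ ≤ MvPolynomial.restrictTotalDegree (Fin (n + 1)) ℂ δ := fun F hF =>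
    (MvPolynomial.mem_restrictTotalDegree _ _ _).2 (A.deg δ F hF)
  exact Module.Finite.of_injective (Submodule.inclusion h) (Submodule.inclusion_injective h)

theorem Fam.exists_good (A : Fam n) (s : Finset ℂ) : ∃ v, v ∉ A.bad ∧ v ∉ s := by
  obtain ⟨v, hv⟩ := Infinite.exists_notMem_finset (A.bad ∪ s)
  rw [Finset.mem_union, not_or] at hv
  exact ⟨v, hv⟩

private theorem ufam_ne (v : ℂ) :
    (MvPolynomial.X 0 - MvPolynomial.C v : MvPolynomial (Fin (n + 1)) ℂ) ≠ 0 := by
  intro h
  have h1 := congrArg (MvPolynomial.coeff (Finsupp.single (0 : Fin (n + 1)) 1)) h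
  rw [MvPolynomial.coeff_sub, MvPolynomial.coeff_X, MvPolynomial.coeff_C,
    MvPolynomial.coeff_zero] at h1
  have hne : (0 : Fin (n + 1) →₀ ℕ) ≠ Finsupp.single 0 1 := by
    intro hs
    have := congrArg (fun f => f 0) hs
    simp at this
  rw [if_neg hne] at h1
  norm_num at h1

private theorem ufam_lin_deg (v : ℂ) :
    (MvPolynomial.X 0 - MvPolynomial.C v : MvPolynomial (Fin (n + 1)) ℂ).totalDegree ≤ 1 := by
  refine (MvPolynomial.totalDegree_sub _ _).trans (max_le ?_ ?_)
  · rw [MvPolynomial.totalDegree_X]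
  · rw [MvPolynomial.totalDegree_C]
    exact Nat.zero_le _

private theorem ufam_mul_mem (A : Fam n) (δ : ℕ) (v : ℂ) (F : MvPolynomial (Fin (n + 1)) ℂ)
    (hF : F ∈ A.W δ) : (MvPolynomial.X 0 - MvPolynomial.C v) * F ∈ A.W (δ + 1) :=
  A.mul δ 1 F hF _ (ufam_lin_deg v)

private theorem ufam_sub1_lin (v v' : ℂ) :
    sub1 (0 : Fin (n + 1)) v (MvPolynomial.X 0 - MvPolynomial.C v') =
      MvPolynomial.C (v - v') := by
  simp [sub1, MvPolynomial.algebraMap_eq]

/-- Multiply by `X 0 - C v`. -/
theorem Fam.h_mono (A : Fam n) (δ : ℕ) : A.h δ ≤ A.h (δ + 1) := by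
  let f : A.W δ →ₗ[ℂ] A.W (δ + 1) :=
    { toFun := fun F => ⟨(MvPolynomial.X 0 - MvPolynomial.C 0) * F.1, ufam_mul_mem A δ 0 F.1 F.2⟩
      map_add' := fun F G => by
        apply Subtype.ext
        exact mul_add _ _ _
      map_smul' := fun c F => by
        apply Subtype.ext
        exact mul_smul_comm _ _ _ }
  refine LinearMap.finrank_le_finrank_of_injective (f := f) ?_
  intro F G h
  apply Subtype.ext
  exact mul_left_cancel₀ (ufam_ne 0) (congrArg Subtype.val h)

theorem Fam.h_mono' (A : Fam n) {δ δ' : ℕ} (hδ : δ ≤ δ') : A.h δ ≤ A.h δ' := by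
  induction δ', hδ using Nat.le_induction with
  | base => exact le_rfl
  | succ m _ ih => exact ih.trans (A.h_mono m)

/-- The dimension of the trace (kernel: `(X 0 - C v) * W (δ - 1)`, by `res`). -/
theorem Fam.finrank_trace (A : Fam n) (δ : ℕ) (hδ : 1 ≤ δ) (v : ℂ) (hv : v ∉ A.bad) :
    Module.finrank ℂ ((A.W δ).map (sub1 0 v).toLinearMap :
      Submodule ℂ (MvPolynomial (Fin (n + 1)) ℂ)) + A.h (δ - 1) = A.h δ := by
  obtain ⟨δ, rfl⟩ : ∃ e, δ = e + 1 := ⟨δ - 1, by omega⟩
  rw [Nat.add_sub_cancel]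
  let T : A.W (δ + 1) →ₗ[ℂ] MvPolynomial (Fin (n + 1)) ℂ :=
    (sub1 (0 : Fin (n + 1)) v).toLinearMap.domRestrict (A.W (δ + 1))
  have h1 := LinearMap.finrank_range_add_finrank_ker T
  have h2 : LinearMap.range T = (A.W (δ + 1)).map (sub1 0 v).toLinearMap :=
    LinearMap.range_domRestrict _ _
  have hT : ∀ F : A.W (δ + 1), T F = sub1 0 v F.1 := fun F => rfl
  let f : A.W δ →ₗ[ℂ] LinearMap.ker T :=
    { toFun := fun F => ⟨⟨(MvPolynomial.X 0 - MvPolynomial.C v) * F.1,
        ufam_mul_mem A δ v F.1 F.2⟩, by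
          rw [LinearMap.mem_ker, hT, map_mul, ufam_sub1_lin, sub_self, MvPolynomial.C_0,
            zero_mul]⟩
      map_add' := fun F G => by
        apply Subtype.ext
        apply Subtype.ext
        exact mul_add _ _ _
      map_smul' := fun c F => by
        apply Subtype.ext
        apply Subtype.ext
        exact mul_smul_comm _ _ _ }
  have hf : Function.Bijective f := by
    constructor
    · intro F G h
      apply Subtype.ext
      exact mul_left_cancel₀ (ufam_ne v) (congrArg Subtype.val (congrArg Subtype.val h))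
    · rintro ⟨⟨F, hF⟩, hk⟩
      rw [LinearMap.mem_ker, hT] at hk
      obtain ⟨F', hF'⟩ := wc_exists_residual 0 v F hk
      have hmem : F' ∈ A.W δ := by
        apply A.res δ v hv
        rw [← hF']
        exact hF
      refine ⟨⟨F', hmem⟩, ?_⟩
      apply Subtype.ext
      apply Subtype.ext
      exact hF'.symm
  have h3 := (LinearEquiv.ofBijective f hf).finrank_eq
  rw [h2, ← h3] at h1
  exact h1

private theorem ufam_trace_le (A : Fam n) (δ : ℕ) (v : ℂ) :
    (A.W δ).map (sub1 (0 : Fin (n + 1)) v).toLinearMap ≤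
      (A.W (δ + 1)).map (sub1 (0 : Fin (n + 1)) v).toLinearMap := by
  rintro _ ⟨F, hF, rfl⟩
  have h1 := ufam_mul_mem A δ (v - 1) F hF
  refine ⟨_, h1, ?_⟩
  show sub1 0 v ((MvPolynomial.X 0 - MvPolynomial.C (v - 1)) * F) = sub1 0 v F
  rw [map_mul, ufam_sub1_lin, sub_sub_cancel, MvPolynomial.C_1, one_mul]

/-- The differences increase: multiplication by `X 0 - C v'` induces an injection
`W δ / (X 0 - C v) W (δ - 1) → W (δ + 1) / (X 0 - C v) W δ` for `v ≠ v'`. -/
theorem Fam.t_mono (A : Fam n) (δ : ℕ) (hδ : 1 ≤ δ) :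
    A.h δ + A.h δ ≤ A.h (δ + 1) + A.h (δ - 1) := by
  obtain ⟨v, hv, _⟩ := A.exists_good ∅
  have h1 := A.finrank_trace δ hδ v hv
  have h2 := A.finrank_trace (δ + 1) (by omega) v hv
  rw [Nat.add_sub_cancel] at h2
  have h3 := Submodule.finrank_mono (ufam_trace_le A δ v)
  omega

private theorem ufam_sub1_deg (v : ℂ) (F : MvPolynomial (Fin (n + 1)) ℂ) :
    (sub1 (0 : Fin (n + 1)) v F).totalDegree ≤ F.totalDegree := by
  conv_lhs => rw [F.as_sum, map_sum]
  apply MvPolynomial.totalDegree_finsetSum_le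
  intro α hα
  have h0 : sub1 (0 : Fin (n + 1)) v (MvPolynomial.monomial α (F.coeff α)) =
      MvPolynomial.C (F.coeff α) * α.prod fun i k => (Function.update
        (MvPolynomial.X : Fin (n + 1) → MvPolynomial (Fin (n + 1)) ℂ) 0
          (MvPolynomial.C v)) i ^ k := MvPolynomial.aeval_monomial _ _ _
  rw [h0]
  refine (MvPolynomial.totalDegree_mul _ _).trans ?_
  rw [MvPolynomial.totalDegree_C, zero_add]
  refine le_trans ?_ (MvPolynomial.le_totalDegree hα)
  refine (MvPolynomial.totalDegree_finsetProd _ _).trans ?_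
  apply Finset.sum_le_sum
  intro i _
  refine (MvPolynomial.totalDegree_pow _ _).trans ?_
  by_cases hi : i = 0
  · subst hi
    rw [Function.update_self, MvPolynomial.totalDegree_C]
    omega
  · rw [Function.update_of_ne hi, MvPolynomial.totalDegree_X, mul_one]

private theorem ufam_finrank_le (D : ℕ) (V : Submodule ℂ (MvPolynomial (Fin (n + 1)) ℂ))
    (h1 : ∀ F ∈ V, F.totalDegree ≤ D) (h2 : ∀ F ∈ V, F.degreeOf 0 = 0) :
    Module.finrank ℂ V ≤ (D + n).choose n := by
  classical
  let T : V →ₗ[ℂ] (Pool.Agent.H18.Fat.mons (n + 1) D → ℂ) :=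
    { toFun := fun F α => F.1.coeff (α.1.erase 0)
      map_add' := fun F G => by
        funext α
        exact MvPolynomial.coeff_add _ _ _
      map_smul' := fun c F => by
        funext α
        exact MvPolynomial.coeff_smul _ _ _ }
  have hT : Function.Injective T := by
    rw [← LinearMap.ker_eq_bot, LinearMap.ker_eq_bot']
    rintro ⟨F, hF⟩ hTF
    apply Subtype.ext
    show F = 0
    by_contra hne
    obtain ⟨β, hβ⟩ := MvPolynomial.ne_zero_iff.1 hne
    have hs : β ∈ F.support := MvPolynomial.mem_support_iff.2 hβ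
    have hdeg : β.degree ≤ D := by
      have := MvPolynomial.le_totalDegree hs
      have h3 : (β.sum fun _ e => e) = β.degree := rfl
      rw [h3] at this
      exact this.trans (h1 F hF)
    have hβ0 : β 0 = 0 := by
      have h3 := (MvPolynomial.degreeOf_le_iff (n := 0)).1 (h2 F hF).le β hs
      omega
    have hmem : β + Finsupp.single 0 (D - β.degree) ∈ Pool.Agent.H18.Fat.mons (n + 1) D := by
      rw [Pool.Agent.H18.Fat.mem_mons, map_add, Finsupp.degree_single]
      omega
    have h4 := congrFun hTF ⟨_, hmem⟩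
    apply hβ
    have h5 : (β + Finsupp.single 0 (D - β.degree)).erase 0 = β := by
      ext i
      by_cases hi : i = 0
      · subst hi
        rw [Finsupp.erase_same, hβ0]
      · rw [Finsupp.erase_ne hi, Finsupp.add_apply, Finsupp.single_eq_of_ne hi, add_zero]
    rw [← h5]
    exact h4
  have h3 := LinearMap.finrank_le_finrank_of_injective hT
  rwa [Module.finrank_fintype_fun_eq_card, Fintype.card_coe, Pool.Agent.H18.Fat.card_mons] at h3

/-- The trace consists of polynomials of degree at most `δ + 1` in `x_1, …, x_n`. -/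
theorem Fam.h_succ_le (A : Fam n) (δ : ℕ) : A.h (δ + 1) ≤ A.h δ + (δ + 1 + n).choose n := by
  obtain ⟨v, hv, _⟩ := A.exists_good ∅
  have h2 := A.finrank_trace (δ + 1) (by omega) v hv
  rw [Nat.add_sub_cancel] at h2
  have h3 := ufam_finrank_le (δ + 1) ((A.W (δ + 1)).map (sub1 (0 : Fin (n + 1)) v).toLinearMap)
    (by
      rintro _ ⟨F, hF, rfl⟩
      exact (ufam_sub1_deg v F).trans (A.deg _ F hF))
    (by
      rintro _ ⟨F, _, rfl⟩
      exact space_degreeOf_sub1 0 0 v F fun h => absurd rfl h)
  omega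

theorem Fam.h_zero_le (A : Fam n) : A.h 0 ≤ 1 := by
  let T : A.W 0 →ₗ[ℂ] ℂ :=
    { toFun := fun F => F.1.coeff 0
      map_add' := fun F G => MvPolynomial.coeff_add _ _ _
      map_smul' := fun c F => MvPolynomial.coeff_smul _ _ _ }
  have hT : Function.Injective T := by
    intro F G h
    apply Subtype.ext
    have h1 := MvPolynomial.totalDegree_eq_zero_iff_eq_C.1 (Nat.le_zero.1 (A.deg 0 F.1 F.2))
    have h2 := MvPolynomial.totalDegree_eq_zero_iff_eq_C.1 (Nat.le_zero.1 (A.deg 0 G.1 G.2))
    have h3 : F.1.coeff 0 = G.1.coeff 0 := h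
    rw [h1, h2, h3]
  have := LinearMap.finrank_le_finrank_of_injective hT
  rwa [Module.finrank_self] at this

/-- The residual along the hyperplane `l`. -/
theorem Fam.resW (A : Fam n) {q : ℕ} (v : Fin q → ℂ) (l : Fin q) (hl : v l ∉ A.bad) (δ : ℕ) :
    ResW (gU n v) l (A.W (δ + 1)) (A.W δ) := by
  intro F hF h0
  obtain ⟨F', hF'⟩ := wc_exists_residual 0 (v l) F h0
  refine ⟨F', ?_, hF'⟩
  apply A.res δ (v l) hl
  rw [← hF']
  exact hF

end Pool.Agent.H18.Ua

end

section

/-!
# Module UFat (UA): the family of a scheme of fat points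
-/

namespace Pool.Agent.H18.Ua

open Finset Pool.Agent.H18.Ex Pool.Agent.H18.Cub Pool.Agent.H18.Pr Pool.Agent.H18.Fat

variable {n k : ℕ}

/-- The points with homogeneous coordinates `(1, P i)`. -/
def affP (P : Fin k → Fin (n + 1) → ℂ) : Fin k → Fin (n + 1 + 1) → ℂ := fun i => Fin.cons 1 (P i)

private theorem ufat_coeff (v : ℂ) : MvPolynomial.coeff (Finsupp.single 0 1)
    (MvPolynomial.X 0 - MvPolynomial.C v : MvPolynomial (Fin (n + 1)) ℂ) = 1 := by
  rw [MvPolynomial.coeff_sub, MvPolynomial.coeff_X, if_pos rfl, MvPolynomial.coeff_C, if_neg,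
    sub_zero]
  intro h2
  have := DFunLike.congr_fun h2 0
  simp at this

/-- Degree of a cofactor. -/
private theorem ufat_degree (F : MvPolynomial (Fin (n + 1)) ℂ) (v : ℂ) (δ : ℕ)
    (h : ((MvPolynomial.X 0 - MvPolynomial.C v) * F).totalDegree ≤ δ + 1) :
    F.totalDegree ≤ δ := by
  rcases eq_or_ne F 0 with rfl | hF
  · simp
  have hne : (MvPolynomial.X 0 - MvPolynomial.C v : MvPolynomial (Fin (n + 1)) ℂ) ≠ 0 := by
    intro h0
    have h1 := ufat_coeff (n := n) v
    rw [h0, MvPolynomial.coeff_zero] at h1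
    exact one_ne_zero h1.symm
  rw [MvPolynomial.totalDegree_mul_of_isDomain hne hF] at h
  have h1 : 1 ≤ (MvPolynomial.X 0 - MvPolynomial.C v :
      MvPolynomial (Fin (n + 1)) ℂ).totalDegree := by
    have h2 : (Finsupp.single 0 1 : Fin (n + 1) →₀ ℕ) ∈
        (MvPolynomial.X 0 - MvPolynomial.C v : MvPolynomial (Fin (n + 1)) ℂ).support := by
      rw [MvPolynomial.mem_support_iff, ufat_coeff]
      exact one_ne_zero
    have h3 := MvPolynomial.le_totalDegree h2
    rwa [Finsupp.sum_single_index rfl] at h3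
  omega

/-- The homogeneous linear form of the hyperplane `x_0 = v`. -/
private noncomputable def ufatL (n : ℕ) (v : ℂ) : MvPolynomial (Fin (n + 1 + 1)) ℂ :=
  MvPolynomial.X 1 - MvPolynomial.C v * MvPolynomial.X 0

private theorem ufatL_hom (n : ℕ) (v : ℂ) : (ufatL n v).IsHomogeneous 1 := by
  apply MvPolynomial.IsHomogeneous.sub
  · exact MvPolynomial.isHomogeneous_X _ _
  · have := (MvPolynomial.isHomogeneous_C (Fin (n + 1 + 1)) v).mul
      (MvPolynomial.isHomogeneous_X ℂ (0 : Fin (n + 1 + 1)))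
    simpa using this

private theorem ufatL_deh (n : ℕ) (v : ℂ) :
    dehA (n + 1) (ufatL n v) = MvPolynomial.X 0 - MvPolynomial.C v := by
  have hC : dehA (n + 1) (MvPolynomial.C v) = MvPolynomial.C v := (dehA (n + 1)).commutes v
  have h0 : dehA (n + 1) (MvPolynomial.X 0) = 1 := by
    simp [dehA]
  have h1 : dehA (n + 1) (MvPolynomial.X 1) = MvPolynomial.X 0 := by
    rw [dehA, MvPolynomial.aeval_X]
    rfl
  rw [ufatL, map_sub, map_mul, hC, h0, h1, mul_one]

private theorem ufatL_eval (v : ℂ) (P : Fin (n + 1) → ℂ) :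
    MvPolynomial.eval (Fin.cons 1 P : Fin (n + 1 + 1) → ℂ) (ufatL n v) = P 0 - v := by
  rw [ufatL, map_sub, map_mul, MvPolynomial.eval_X, MvPolynomial.eval_X, MvPolynomial.eval_C]
  have h1 : (Fin.cons 1 P : Fin (n + 1 + 1) → ℂ) 1 = P 0 := rfl
  have h0 : (Fin.cons 1 P : Fin (n + 1 + 1) → ℂ) 0 = 1 := rfl
  rw [h0, h1, mul_one]

/-- The family of the dehomogenised forms vanishing at the points `P i` to order `m i`. -/
noncomputable def fatFam (P : Fin k → Fin (n + 1) → ℂ) (m : Fin k → ℕ) : Fam n where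
  W := fun δ => (fatForms (n + 1) δ (affP P) m).map (dehA (n + 1)).toLinearMap
  deg := by
    rintro δ _ ⟨F, hF, rfl⟩
    exact dehA_degree F δ hF.1
  mul := by
    rintro δ j _ ⟨F, hF, rfl⟩ Q hQ
    obtain ⟨Q', hQ', rfl⟩ := dehA_surjective Q j hQ
    refine ⟨Q' * F, ⟨?_, fun i => vanishes_mul Q' F _ _ (hF.2 i)⟩, ?_⟩
    · rw [add_comm δ j]
      exact hQ'.mul hF.1
    · simp
  bad := univ.image fun i => P i 0
  res := by
    intro δ v hv F hF
    obtain ⟨G, hG, hGF⟩ := hF
    have hGF' : dehA (n + 1) G = (MvPolynomial.X 0 - MvPolynomial.C v) * F := hGF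
    have hdeg : F.totalDegree ≤ δ := by
      apply ufat_degree F v δ
      rw [← hGF']
      exact dehA_degree G (δ + 1) hG.1
    obtain ⟨F', hF', rfl⟩ := dehA_surjective F δ hdeg
    have hL : (ufatL n v * F').IsHomogeneous (δ + 1) := by
      rw [add_comm δ 1]
      exact (ufatL_hom n v).mul hF'
    have heq : ufatL n v * F' = G := by
      rw [← sub_eq_zero]
      apply dehA_injective _ (δ + 1) (hL.sub hG.1)
      rw [map_sub, map_mul, ufatL_deh, hGF', sub_self]
    refine ⟨F', ⟨hF', fun i => ?_⟩, rfl⟩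
    apply vanishes_of_mul (ufatL n v) F'
    · change MvPolynomial.eval (Fin.cons 1 (P i) : Fin (n + 1 + 1) → ℂ) (ufatL n v) ≠ 0
      rw [ufatL_eval, sub_ne_zero]
      intro h
      exact hv (mem_image.2 ⟨i, mem_univ _, h⟩)
    · rw [heq]
      exact hG.2 i

theorem fatFam_h (P : Fin k → Fin (n + 1) → ℂ) (m : Fin k → ℕ) (δ : ℕ) :
    (fatFam P m).h δ = Module.finrank ℂ (fatForms (n + 1) δ (affP P) m) := by
  have h1 : (fatFam P m).W δ =
      LinearMap.range ((dehA (n + 1)).toLinearMap.domRestrict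
        (fatForms (n + 1) δ (affP P) m)) := by
    rw [LinearMap.range_domRestrict]
    rfl
  rw [Fam.h, h1]
  apply LinearMap.finrank_range_of_inj
  rw [← LinearMap.ker_eq_bot, LinearMap.ker_eq_bot']
  intro F hF
  apply Subtype.ext
  exact dehA_injective F.1 δ F.2.1 hF

/-- Points with nonzero first coordinate may be normalised. -/
theorem finrank_normalise {r δ : ℕ} (p : Fin k → Fin (r + 1) → ℂ) (hp : ∀ i, p i 0 ≠ 0)
    (m : Fin k → ℕ) :
    Module.finrank ℂ (fatForms r δ (fun i => Fin.cons 1 fun j => p i j.succ / p i 0) m) =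
      Module.finrank ℂ (fatForms r δ p m) := by
  have hq : ∀ i, (Fin.cons 1 fun j => p i j.succ / p i 0 : Fin (r + 1) → ℂ) =
      (p i 0)⁻¹ • p i := by
    intro i
    funext j
    refine Fin.cases ?_ (fun j => ?_) j
    · rw [Fin.cons_zero, Pi.smul_apply, smul_eq_mul, inv_mul_cancel₀ (hp i)]
    · rw [Fin.cons_succ, Pi.smul_apply, smul_eq_mul, div_eq_inv_mul]
  have hiff : ∀ (F : MvPolynomial (Fin (r + 1)) ℂ), F.IsHomogeneous δ → ∀ i,
      (VanishesToOrder F (Fin.cons 1 fun j => p i j.succ / p i 0 : Fin (r + 1) → ℂ) (m i) ↔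
        VanishesToOrder F (p i) (m i)) := by
    intro F hF i
    rw [hq i]
    constructor
    · intro h
      have := vanishes_smul F δ hF _ (p i 0) (hp i) (m i) h
      rwa [smul_smul, mul_inv_cancel₀ (hp i), one_smul] at this
    · exact vanishes_smul F δ hF _ _ (inv_ne_zero (hp i)) (m i)
  have h : fatForms r δ (fun i => Fin.cons 1 fun j => p i j.succ / p i 0) m =
      fatForms r δ p m := by
    ext F
    constructor
    · rintro ⟨h1, h2⟩
      exact ⟨h1, fun i => (hiff F h1 i).1 (h2 i)⟩
    · rintro ⟨h1, h2⟩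
      exact ⟨h1, fun i => (hiff F h1 i).2 (h2 i)⟩
  rw [h]

/-- The special configuration: if the points outside `J` and `x` simple points kill the space of degree
`d` of the family of the points of `J` (the others having multiplicity `0`) then there is a
configuration with first coordinates `1` and `dim V_d ≤ x`. -/
theorem special_of_fatFam (P : Fin k → Fin (n + 1) → ℂ) (m : Fin k → ℕ) (J : Finset (Fin k))
    (d x : ℕ)
    (h : Fk ((fatFam P fun i => if i ∈ J then m i else 0).W d)
      ((univ : Finset ({i : Fin k // i ∉ J} ⊕ Fin x)).val.map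
        (Sum.elim (fun i => m i.1) fun _ => 1))) :
    ∃ p₀ : Fin k → Fin (n + 1 + 1) → ℂ, (∀ i, p₀ i 0 = 1) ∧
      Module.finrank ℂ (fatForms (n + 1) d p₀ m) ≤ x := by
  classical
  rw [Fk_iff (gU n (fun i : Fin 0 => (i.elim0 : ℂ))), Multiset.map_map, GMP_iff] at h
  obtain ⟨pos, hpos⟩ := h
  let p₀ : Fin k → Fin (n + 1 + 1) → ℂ := fun i =>
    if hi : i ∈ J then Fin.cons 1 (P i) else Fin.cons 1 (pos (Sum.inl ⟨i, hi⟩))
  refine ⟨p₀, fun i => ?_, ?_⟩
  · simp only [p₀]
    split_ifs <;> rfl
  let Ψ : fatForms (n + 1) d p₀ m →ₗ[ℂ] (Fin x → ℂ) :=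
    { toFun := fun F j => tay (dehA (n + 1) F.1) (pos (Sum.inr j)) 0
      map_add' := fun F G => by
        funext j
        simp only [Submodule.coe_add, map_add, tay_add, Pi.add_apply]
      map_smul' := fun c F => by
        funext j
        simp only [Submodule.coe_smul, map_smul, tay_smul, RingHom.id_apply, Pi.smul_apply,
          smul_eq_mul, Algebra.algebraMap_self] }
  have hΨ : Function.Injective Ψ := by
    rw [← LinearMap.ker_eq_bot, LinearMap.ker_eq_bot']
    intro F hF
    have hFh : F.1.IsHomogeneous d := F.2.1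
    apply Subtype.ext
    change F.1 = 0
    apply dehA_injective F.1 d hFh
    apply hpos
    · refine ⟨F.1, ⟨hFh, fun i => ?_⟩, rfl⟩
      by_cases hi : i ∈ J
      · simp only [if_pos hi]
        have h1 := F.2.2 i
        have h2 : p₀ i = Fin.cons 1 (P i) := by
          simp only [p₀]
          rw [dif_pos hi]
        rw [h2] at h1
        exact h1
      · simp only [if_neg hi]
        intro β hβ
        exact absurd hβ (Nat.not_lt_zero _)
    · rintro (i | j)
      · have h1 := F.2.2 i.1
        have h2 : p₀ i.1 = Fin.cons 1 (pos (Sum.inl i)) := by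
          simp only [p₀]
          rw [dif_neg i.2]
        rw [h2] at h1
        intro α hα
        exact dehA_vanish F.1 _ (m i.1) h1 α hα
      · intro α hα
        have hα0 : α = 0 := by
          change ∑ i, α i < 1 at hα
          have h2 : ∑ i, α i = 0 := by omega
          rw [sum_eq_zero_iff] at h2
          funext i
          exact h2 i (mem_univ _)
        subst hα0
        exact congrFun hF j
  have := LinearMap.finrank_le_finrank_of_injective hΨ
  rwa [Module.finrank_fintype_fun_eq_card, Fintype.card_fin] at this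

end Pool.Agent.H18.Ua

end

section

/-!
# Module USimple (UA): simple points and dimensions
-/

namespace Pool.Agent.H18.Ua

open Finset Pool.Agent.H18.Ex Pool.Agent.H18.Cub Pool.Agent.H18.Pr

variable {ι Λ : Type} [Fintype ι] [DecidableEq ι]

/-- A simple free point: the value is zero. -/
private theorem usimple_sat (g : Lines Λ ι) (F : MvPolynomial ι ℂ) (q : ι → ℂ) :
    SatP g F (Kind.free 1) q ↔ MvPolynomial.eval q F = 0 := by
  constructor
  · intro h
    have h2 : tay F q 0 = 0 := h 0 (by simp [Lines.Idx])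
    rwa [tay_zero_right] at h2
  · intro h b hb
    have hb0 : b = 0 := by
      funext i
      have h1 : ∑ i, b i < 1 := hb
      have h2 : ∑ i, b i = 0 := by omega
      exact (Finset.sum_eq_zero_iff.1 h2) i (Finset.mem_univ i)
    rw [hb0]
    show tay F q 0 = 0
    rw [tay_zero_right]
    exact h

/-- Finitely many values determine the elements of a finite dimensional space. -/
private theorem usimple_points (x : ℕ) : ∀ W : Submodule ℂ (MvPolynomial ι ℂ),
    FiniteDimensional ℂ W → Module.finrank ℂ W ≤ x →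
    ∃ pos : Fin x → ι → ℂ, ∀ F ∈ W, (∀ i, MvPolynomial.eval (pos i) F = 0) → F = 0 := by
  induction x with
  | zero =>
    intro W hfd h
    refine ⟨fun i => i.elim0, fun F hF _ => ?_⟩
    have h1 : Module.finrank ℂ W = 0 := Nat.le_zero.1 h
    have h2 : W = ⊥ := Submodule.finrank_eq_zero.1 h1
    rw [h2] at hF
    exact (Submodule.mem_bot ℂ).1 hF
  | succ x ih =>
    intro W hfd h
    by_cases hW : W = ⊥
    · refine ⟨fun _ _ => 0, fun F hF _ => ?_⟩
      rw [hW] at hF
      exact (Submodule.mem_bot ℂ).1 hF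
    · obtain ⟨F0, hF0, hne⟩ := (Submodule.ne_bot_iff W).1 hW
      have hq : ∃ q : ι → ℂ, MvPolynomial.eval q F0 ≠ 0 := by
        by_contra hno
        push Not at hno
        exact hne (MvPolynomial.funext fun q => by rw [hno q, map_zero])
      obtain ⟨q, hq⟩ := hq
      let W' : Submodule ℂ (MvPolynomial ι ℂ) :=
        W ⊓ LinearMap.ker (MvPolynomial.aeval q : MvPolynomial ι ℂ →ₐ[ℂ] ℂ).toLinearMap
      have hle : W' ≤ W := inf_le_left
      have hlt : W' < W := by
        refine lt_of_le_of_ne hle fun heq => ?_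
        have h1 : F0 ∈ W' := by rw [heq]; exact hF0
        have h2 : (MvPolynomial.aeval q : MvPolynomial ι ℂ →ₐ[ℂ] ℂ) F0 = 0 :=
          LinearMap.mem_ker.1 h1.2
        rw [MvPolynomial.aeval_eq_eval] at h2
        exact hq h2
      have hfd' : FiniteDimensional ℂ W' := Submodule.finiteDimensional_of_le hle
      have hrk : Module.finrank ℂ W' < Module.finrank ℂ W := Submodule.finrank_lt_finrank_of_lt hlt
      obtain ⟨pos, hpos⟩ := ih W' hfd' (by omega)
      refine ⟨Fin.cons q pos, fun F hF hv => ?_⟩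
      refine hpos F ⟨hF, ?_⟩ fun i => ?_
      · have h1 := hv 0
        rw [Fin.cons_zero] at h1
        show (MvPolynomial.aeval q : MvPolynomial ι ℂ →ₐ[ℂ] ℂ) F = 0
        rw [MvPolynomial.aeval_eq_eval]
        exact h1
      · have h1 := hv i.succ
        rwa [Fin.cons_succ] at h1

private theorem usimple_replicate {X : Type} (s : ℕ) (x : X) : Multiset.replicate s x
      = (univ : Finset (Fin s)).val.map (fun _ => x) := by
  rw [Multiset.map_const', Finset.card_val, Finset.card_univ, Fintype.card_fin]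

/-- Simple points reduce the dimension one by one. -/
theorem gmp_simple (g : Lines Λ ι) (W : Submodule ℂ (MvPolynomial ι ℂ)) [FiniteDimensional ℂ W]
    (x : ℕ) (h : Module.finrank ℂ W ≤ x) : GMP g W (Multiset.replicate x (Kind.free 1)) := by
  rw [usimple_replicate, GMP_iff]
  obtain ⟨pos, hpos⟩ := usimple_points x W inferInstance h
  exact ⟨pos, fun F hF hf => hpos F hF fun i => (usimple_sat g F (pos i)).1 (hf i)⟩

/-- Positions for which the dimension is at most `x`. -/
theorem exists_pos_finrank (g : Lines Λ ι) (W : Submodule ℂ (MvPolynomial ι ℂ))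
    [FiniteDimensional ℂ W] {κ : Type} [Fintype κ] (k : κ → Kind Λ) (x : ℕ)
    (h : GMP g W ((univ : Finset κ).val.map k + Multiset.replicate x (Kind.free 1))) :
    ∃ pos : κ → ι → ℂ, Module.finrank ℂ (kerP g W k pos) ≤ x := by
  rw [usimple_replicate, ← multi_map_sum, GMP_iff] at h
  obtain ⟨pos, hpos⟩ := h
  refine ⟨fun i => pos (Sum.inl i), ?_⟩
  let K := kerP g W k fun i => pos (Sum.inl i)
  let ev : K →ₗ[ℂ] (Fin x → ℂ) := LinearMap.pi fun i =>
    (MvPolynomial.aeval (pos (Sum.inr i)) : MvPolynomial ι ℂ →ₐ[ℂ] ℂ).toLinearMap.comp K.subtype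
  have hev : ∀ (F : K) (i : Fin x), ev F i = MvPolynomial.eval (pos (Sum.inr i)) (F : MvPolynomial ι ℂ) := by
    intro F i
    show (MvPolynomial.aeval (pos (Sum.inr i)) : MvPolynomial ι ℂ →ₐ[ℂ] ℂ) (F : MvPolynomial ι ℂ) = _
    rw [MvPolynomial.aeval_eq_eval]
  have hinj : Function.Injective ev := by
    rw [← LinearMap.ker_eq_bot, LinearMap.ker_eq_bot']
    intro F hF
    apply Subtype.ext
    have hFK : (F : MvPolynomial ι ℂ) ∈ K := F.2
    refine hpos F hFK.1 fun i => ?_
    cases i with
    | inl i => exact hFK.2 i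
    | inr i =>
      refine (usimple_sat g _ _).2 ?_
      rw [← hev F i, hF]
      rfl
  have h1 := LinearMap.finrank_le_finrank_of_injective hinj
  rwa [Module.finrank_fin_fun] at h1

theorem gmp_of_pos (g : Lines Λ ι) (W : Submodule ℂ (MvPolynomial ι ℂ))
    [FiniteDimensional ℂ W] {κ : Type} [Fintype κ] (k : κ → Kind Λ) (x : ℕ)
    (pos : κ → ι → ℂ) (h : Module.finrank ℂ (kerP g W k pos) ≤ x) :
    GMP g W ((univ : Finset κ).val.map k + Multiset.replicate x (Kind.free 1)) := by
  rw [usimple_replicate, ← multi_map_sum, GMP_iff]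
  have hfd : FiniteDimensional ℂ (kerP g W k pos) := Submodule.finiteDimensional_of_le kerP_le
  obtain ⟨pos', hpos'⟩ := usimple_points x (kerP g W k pos) hfd h
  refine ⟨Sum.elim pos pos', fun F hF hf => ?_⟩
  refine hpos' F ⟨hF, fun i => ?_⟩ fun i => ?_
  · exact hf (Sum.inl i)
  · exact (usimple_sat g F (pos' i)).1 (hf (Sum.inr i))

end Pool.Agent.H18.Ua

end

section

/-!
# Module UKill (UA): one more point
-/

namespace Pool.Agent.H18.Ua

open Finset Pool.Agent.H18.Ex Pool.Agent.H18.Cub Pool.Agent.H18.Pr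

variable {n : ℕ} {Λ : Type}

namespace UKillX

theorem finrank_totalDegree (n m : ℕ) (hm : 1 ≤ m) :
    Module.finrank ℂ (MvPolynomial.restrictTotalDegree (Fin (n + 1)) ℂ (m - 1)) =
      ell (n + 1) m := by
  unfold MvPolynomial.restrictTotalDegree
  rw [Module.finrank_eq_nat_card_basis (MvPolynomial.basisRestrictSupport ℂ _)]
  have h1 : {s : Fin (n + 1) →₀ ℕ | (s.sum fun _ e => e) ≤ m - 1} =
      (Pool.Agent.H18.Fat.full (n + 1) m : Set (Fin (n + 1) →₀ ℕ)) := by
    ext s
    rw [Set.mem_ofPred_eq, mem_coe, Pool.Agent.H18.Fat.mem_full]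
    have : (s.sum fun _ e => e) = s.degree := by
      rw [Finsupp.degree_apply]
      rfl
    rw [this]
    omega
  rw [h1, Nat.card_coe_set_eq, Set.ncard_coe_finset, Pool.Agent.H18.Fat.card_full_succ]
  rfl

/-- Multiplication by a nonzero polynomial. -/
theorem finrank_mul (G : MvPolynomial (Fin (n + 1)) ℂ) (hG : G ≠ 0)
    (V : Submodule ℂ (MvPolynomial (Fin (n + 1)) ℂ)) :
    Module.finrank ℂ (V.map (LinearMap.mulLeft ℂ G)) = Module.finrank ℂ V := by
  refine (LinearEquiv.finrank_eq (Submodule.equivMapOfInjective _ ?_ V)).symm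
  intro a b hab
  simp only [LinearMap.mulLeft_apply] at hab
  exact mul_left_cancel₀ hG hab

/-- Two subspaces meeting in `0` only. -/
theorem finrank_add_le {E : Type} [AddCommGroup E] [Module ℂ E] (P U V : Submodule ℂ E)
    [FiniteDimensional ℂ V] (hP : P ≤ V) (hU : U ≤ V) (h : P ⊓ U = ⊥) :
    Module.finrank ℂ P + Module.finrank ℂ U ≤ Module.finrank ℂ V := by
  have f1 : FiniteDimensional ℂ P := Submodule.finiteDimensional_of_le hP
  have f2 : FiniteDimensional ℂ U := Submodule.finiteDimensional_of_le hU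
  have h1 := Submodule.finrank_sup_add_finrank_inf_eq P U
  rw [h, finrank_bot, add_zero] at h1
  rw [← h1]
  exact Submodule.finrank_mono (sup_le hP hU)

end UKillX

open UKillX

/-- If the conditions `S` do not kill `W δ` then one more free point of multiplicity `m` imposes
`ell (n + 1) m` conditions on the elements of `W (δ + (m - 1))` satisfying `S`: choose positions with
`finrank (kerP (W (δ + (m - 1))) …) ≤ x` and a nonzero `G ∈ W δ` satisfying `S` there, a point `p` with
`G(p) ≠ 0`; the products `Q * G` with `deg Q ≤ m - 1` form a subspace of dimension `ell (n + 1) m` meeting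
the subspace of the elements vanishing to order `m` at `p` in `0` only (`satP_of_mul`,
`eq_zero_of_vanish`). -/
theorem kill_step (A : Fam n) (g : Lines Λ (Fin (n + 1))) (δ m x : ℕ) (hm : 1 ≤ m)
    (S : Multiset (Kind Λ)) (hS : ¬ GMP g (A.W δ) S)
    (h : GMP g (A.W (δ + (m - 1))) (S + Multiset.replicate x (Kind.free 1))) :
    ell (n + 1) m ≤ x ∧ GMP g (A.W (δ + (m - 1)))
      (S + {Kind.free m} + Multiset.replicate (x - ell (n + 1) m) (Kind.free 1)) := by
  obtain ⟨N, k, rfl⟩ := multi_exists_fin S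
  obtain ⟨pos, hpos⟩ := exists_pos_finrank g (A.W (δ + (m - 1))) k x h
  rw [GMP_iff] at hS
  have h1 : ¬ InjP g (A.W δ) k pos := fun hI => hS ⟨pos, hI⟩
  unfold InjP at h1
  push Not at h1
  obtain ⟨G, hGW, hGs, hG0⟩ := h1
  obtain ⟨p, hp⟩ : ∃ p : Fin (n + 1) → ℂ, MvPolynomial.eval p G ≠ 0 := by
    by_contra hcon
    push Not at hcon
    exact hG0 (MvPolynomial.funext fun v => by rw [hcon v, map_zero])
  let V := kerP g (A.W (δ + (m - 1))) k pos
  let k' : Fin N ⊕ Unit → Kind Λ := Sum.elim k fun _ => Kind.free m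
  let pos' : Fin N ⊕ Unit → Fin (n + 1) → ℂ := Sum.elim pos fun _ => p
  let U := kerP g (A.W (δ + (m - 1))) k' pos'
  let P := (MvPolynomial.restrictTotalDegree (Fin (n + 1)) ℂ (m - 1)).map (LinearMap.mulLeft ℂ G)
  have hfV : FiniteDimensional ℂ V := Submodule.finiteDimensional_of_le kerP_le
  have hPV : P ≤ V := by
    rintro _ ⟨Q, hQ, rfl⟩
    rw [SetLike.mem_coe, MvPolynomial.mem_restrictTotalDegree] at hQ
    rw [LinearMap.mulLeft_apply, mul_comm]
    exact mem_kerP.2 ⟨A.mul δ (m - 1) G hGW Q hQ, fun i => satP_mul g Q G (k i) (pos i) (hGs i)⟩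
  have hUV : U ≤ V := by
    intro F hF
    rw [mem_kerP] at hF
    exact mem_kerP.2 ⟨hF.1, fun i => hF.2 (Sum.inl i)⟩
  have hPU : P ⊓ U = ⊥ := by
    rw [eq_bot_iff]
    rintro F ⟨⟨Q, hQ, rfl⟩, hF⟩
    rw [SetLike.mem_coe, MvPolynomial.mem_restrictTotalDegree] at hQ
    rw [LinearMap.mulLeft_apply] at hF ⊢
    have h2 : SatP g (G * Q) (Kind.free m) p := (mem_kerP.1 hF).2 (Sum.inr ())
    have h3 := satP_of_mul g G Q (Kind.free m) p hp h2
    have h4 : Q = 0 := eq_zero_of_vanish Q p m (by omega) fun b hb => h3 b hb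
    rw [h4, mul_zero]
    exact Submodule.zero_mem _
  have h5 := finrank_add_le P U V hPV hUV hPU
  have h6 : Module.finrank ℂ P = ell (n + 1) m := by
    rw [finrank_mul G hG0, finrank_totalDegree n m hm]
  rw [h6] at h5
  have h7 : Module.finrank ℂ V ≤ x := hpos
  refine ⟨by omega, ?_⟩
  have h8 := gmp_of_pos g (A.W (δ + (m - 1))) k' (x - ell (n + 1) m) pos' (by
    change Module.finrank ℂ U ≤ _
    omega)
  rw [multi_map_sum] at h8
  exact h8

/-- If the conditions `S` kill `W δ` then the elements of `W (δ + i)` satisfying `S` form a space of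
dimension at most `h (δ + i) - h δ`: it meets `(X 0 - C v) ^ i * W δ` in `0` only, for general `v`. -/
theorem kill_dim (A : Fam n) (g : Lines Λ (Fin (n + 1))) (δ i x : ℕ) (S : Multiset (Kind Λ))
    (hS : GMP g (A.W δ) S) (hx : A.h (δ + i) ≤ A.h δ + x) :
    GMP g (A.W (δ + i)) (S + Multiset.replicate x (Kind.free 1)) := by
  obtain ⟨N, k, rfl⟩ := multi_exists_fin S
  rw [GMP_iff] at hS
  obtain ⟨pos, hpos⟩ := hS
  obtain ⟨v, hv⟩ : ∃ v : ℂ, v ∉ (univ : Finset (Fin N)).image fun j => g.pt (k j) (pos j) 0 :=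
    Infinite.exists_notMem_finset _
  let L : MvPolynomial (Fin (n + 1)) ℂ := (MvPolynomial.X 0 - MvPolynomial.C v) ^ i
  have hev : ∀ j, MvPolynomial.eval (g.pt (k j) (pos j)) L ≠ 0 := by
    intro j
    simp only [L, map_pow, map_sub, MvPolynomial.eval_X, MvPolynomial.eval_C]
    refine pow_ne_zero _ (sub_ne_zero.2 ?_)
    intro hcon
    exact hv (mem_image.2 ⟨j, mem_univ _, hcon⟩)
  have hL0 : L ≠ 0 := by
    refine pow_ne_zero _ ?_
    intro hcon
    have := congrArg (MvPolynomial.eval fun _ => v + 1) hcon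
    simp at this
  have hLd : L.totalDegree ≤ i := by
    refine (MvPolynomial.totalDegree_pow _ _).trans ?_
    have : (MvPolynomial.X (0 : Fin (n + 1)) - MvPolynomial.C v :
        MvPolynomial (Fin (n + 1)) ℂ).totalDegree ≤ 1 := by
      refine (MvPolynomial.totalDegree_sub _ _).trans ?_
      simp
    calc i * _ ≤ i * 1 := Nat.mul_le_mul_left _ this
      _ = i := mul_one i
  let V := kerP g (A.W (δ + i)) k pos
  let P := (A.W δ).map (LinearMap.mulLeft ℂ L)
  have hPW : P ≤ A.W (δ + i) := by
    rintro _ ⟨F, hF, rfl⟩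
    rw [LinearMap.mulLeft_apply]
    exact A.mul δ i F hF L hLd
  have hPV : P ⊓ V = ⊥ := by
    rw [eq_bot_iff]
    rintro _ ⟨⟨F, hF, rfl⟩, hV⟩
    rw [LinearMap.mulLeft_apply] at hV ⊢
    have h3 : F = 0 := hpos F hF fun j =>
      satP_of_mul g L F (k j) (pos j) (hev j) ((mem_kerP.1 hV).2 j)
    rw [h3, mul_zero]
    exact Submodule.zero_mem _
  have h5 := finrank_add_le P V (A.W (δ + i)) hPW kerP_le hPV
  have h6 : Module.finrank ℂ P = A.h δ := finrank_mul L hL0 _
  rw [h6] at h5
  refine gmp_of_pos g (A.W (δ + i)) k x pos ?_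
  change Module.finrank ℂ V ≤ x
  change A.h δ + Module.finrank ℂ V ≤ A.h (δ + i) at h5
  omega

/-- Many points.  Induction on `G`: if `W (d - (m - 1))` is not killed use `kill_step`; otherwise the
dimension is at most `T` by `kill_dim`, and there are at least `T` points left. -/
theorem kill_all (A : Fam n) (g : Lines Λ (Fin (n + 1))) (d M T : ℕ) (hM : 1 ≤ M)
    (hd : M - 1 ≤ d) (hT : A.h d ≤ A.h (d - (M - 1)) + T) (G : Multiset ℕ)
    (hG : ∀ m ∈ G, 1 ≤ m ∧ m ≤ M) : ∀ (S : Multiset (Kind Λ)) (x s : ℕ),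
    GMP g (A.W d) (S + Multiset.replicate x (Kind.free 1)) →
    x ≤ (G.map (ell (n + 1))).sum + s →
    (T ≤ s ∨ x + ell (n + 1) M * T ≤ (G.map (ell (n + 1))).sum + s) →
    GMP g (A.W d) (S + G.map Kind.free + Multiset.replicate s (Kind.free 1)) := by
  induction G using Multiset.induction_on with
  | empty =>
    intro S x s h hx _
    rw [Multiset.map_zero, Multiset.sum_zero, zero_add] at hx
    rw [Multiset.map_zero, add_zero]
    exact GMP.mono (add_le_add_right (Multiset.replicate_le_replicate _ |>.2 hx) _) h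
  | cons m G ih =>
    intro S x s h hx hor
    have hm := hG m (Multiset.mem_cons_self m G)
    have hG' : ∀ m' ∈ G, 1 ≤ m' ∧ m' ≤ M := fun m' hm' => hG m' (Multiset.mem_cons_of_mem hm')
    rw [Multiset.map_cons, Multiset.sum_cons] at hx hor
    have hdd : d - (m - 1) + (m - 1) = d := by omega
    by_cases hk : GMP g (A.W (d - (m - 1))) S
    · -- the conditions `S` kill the smaller space
      have h1 : A.h (d - (m - 1) + (m - 1)) ≤ A.h (d - (m - 1)) + T := by
        rw [hdd]
        have := A.h_mono' (show d - (M - 1) ≤ d - (m - 1) by omega)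
        omega
      have h2 := kill_dim A g (d - (m - 1)) (m - 1) T S hk h1
      rw [hdd] at h2
      have hTs : T ≤ (m ::ₘ G).card + s := by
        rcases hor with hor | hor
        · omega
        · have h3 : ((m ::ₘ G).map (ell (n + 1))).sum ≤ (m ::ₘ G).card * ell (n + 1) M := by
            have := Multiset.sum_le_card_nsmul ((m ::ₘ G).map (ell (n + 1))) (ell (n + 1) M) (by
              intro y hy
              obtain ⟨m', hm', rfl⟩ := Multiset.mem_map.1 hy
              exact ell_mono (n + 1) (hG m' hm').2)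
            rw [Multiset.card_map, smul_eq_mul] at this
            exact this
          rw [Multiset.map_cons, Multiset.sum_cons] at h3
          have h4 : 1 ≤ ell (n + 1) M := ell_pos (n + 1) hM
          have h5 : ell (n + 1) M * T ≤ ell (n + 1) M * ((m ::ₘ G).card + s) := by
            calc ell (n + 1) M * T ≤ (ell (n + 1) m + (G.map (ell (n + 1))).sum) + s := by omega
              _ ≤ (m ::ₘ G).card * ell (n + 1) M + ell (n + 1) M * s :=
                  add_le_add h3 (Nat.le_mul_of_pos_left s h4)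
              _ = ell (n + 1) M * ((m ::ₘ G).card + s) := by ring
          exact Nat.le_of_mul_le_mul_left h5 h4
      have h6 : GMP g (A.W d) (Multiset.replicate (m ::ₘ G).card (Kind.free 1) +
          (S + Multiset.replicate s (Kind.free 1))) := by
        refine GMP.mono ?_ h2
        have h7 : Multiset.replicate T (Kind.free 1 : Kind Λ) ≤
            Multiset.replicate ((m ::ₘ G).card + s) (Kind.free 1) :=
          (Multiset.replicate_le_replicate _).2 hTs
        rw [Multiset.replicate_add] at h7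
        calc S + Multiset.replicate T (Kind.free 1 : Kind Λ) ≤
            S + (Multiset.replicate (m ::ₘ G).card (Kind.free 1) +
              Multiset.replicate s (Kind.free 1)) := by
              exact Multiset.add_le_add_left h7
          _ = Multiset.replicate (m ::ₘ G).card (Kind.free 1) +
            (S + Multiset.replicate s (Kind.free 1)) := by
              rw [← add_assoc, add_comm S, add_assoc]
      have h8 := GMP.free_mono (m ::ₘ G) (fun m' hm' => (hG m' hm').1) _ h6
      rw [← add_assoc, add_comm ((m ::ₘ G).map Kind.free) S] at h8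
      exact h8
    · have h0 : GMP g (A.W (d - (m - 1) + (m - 1))) (S + Multiset.replicate x (Kind.free 1)) := by
        rw [hdd]
        exact h
      obtain ⟨h1, h2⟩ := kill_step A g (d - (m - 1)) m x hm.1 S hk h0
      rw [hdd] at h2
      have h3 := ih hG' (S + {Kind.free m}) (x - ell (n + 1) m) s h2 (by omega) (by omega)
      rw [Multiset.map_cons, ← Multiset.singleton_add, ← add_assoc]
      exact h3

end Pool.Agent.H18.Ua

end

section

/-!
# Module VGen (UB): general points
-/

namespace Pool.Agent.H18.Ub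

open Finset Pool.Agent.H18.Ex Pool.Agent.H18.Cub Pool.Agent.H18.Pr Pool.Agent.H18.Ua Pool.Agent.H18.Fat

/-- From exactness to general points. -/
theorem general_of_exactV {n k : ℕ} (P : Fin k → Fin (n + 1) → ℂ) (m : Fin k → ℕ)
    (J : Finset (Fin k)) {M : ℕ} (hM : 1 ≤ M) (hJ : ∀ i, i ∉ J → m i ≤ M) (d : ℕ)
    (h : ∀ G : Multiset ℕ, (∀ μ ∈ G, μ ≤ M) →
      (fatFam P fun i => if i ∈ J then m i else 0).h d ≤ (G.map (ell (n + 1))).sum →
      Fk ((fatFam P fun i => if i ∈ J then m i else 0).W d) G) (v : ℕ)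
    (hv : ((fatFam P fun i => if i ∈ J then m i else 0).h d : ℤ) ≤
      v + ∑ i ∈ univ.filter (fun i => i ∉ J), ((m i + (n + 1) - 1).choose (n + 1) : ℤ)) :
    ∃ p₀ : Fin k → Fin (n + 1 + 1) → ℂ, (∀ i, p₀ i 0 = 1) ∧
      Module.finrank ℂ (fatForms (n + 1) d p₀ m) ≤ v := by
  classical
  apply special_of_fatFam P m J d v
  apply h
  · intro μ hμ
    obtain ⟨x, _, rfl⟩ := Multiset.mem_map.1 hμ
    rcases x with i | j
    · exact hJ i.1 i.2
    · exact hM
  · rw [Multiset.map_map]
    change _ ≤ ∑ x : {i : Fin k // i ∉ J} ⊕ Fin v,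
      (ell (n + 1) ∘ Sum.elim (fun i : {i : Fin k // i ∉ J} => m i.1) fun _ => 1) x
    rw [Fintype.sum_sum_type]
    have h1 : ∑ j : Fin v, (ell (n + 1) ∘ Sum.elim (fun i : {i : Fin k // i ∉ J} => m i.1)
        fun _ => 1) (Sum.inr j) = v := by
      simp [ell_one]
    have h2 : ∑ i : {i : Fin k // i ∉ J}, (ell (n + 1) ∘ Sum.elim
        (fun i : {i : Fin k // i ∉ J} => m i.1) fun _ : Fin v => 1) (Sum.inl i) =
        ∑ i ∈ univ.filter (fun i => i ∉ J), ell (n + 1) (m i) := by
      rw [sum_subtype (p := fun i => i ∉ J) (univ.filter fun i => i ∉ J) (by simp)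
        (fun i => ell (n + 1) (m i))]
      rfl
    have h9 : ∑ i ∈ univ.filter (fun i => i ∉ J), ((m i + (n + 1) - 1).choose (n + 1) : ℤ) =
        ((∑ i ∈ univ.filter (fun i => i ∉ J), ell (n + 1) (m i) : ℕ) : ℤ) := by
      push_cast
      rfl
    rw [h1, h2]
    rw [h9] at hv
    omega

/-- The points outside `J` impose at most their lengths many conditions. -/
theorem finrank_ge_add {r d k : ℕ} (hr : 1 ≤ r) {p : Fin k → Fin (r + 1) → ℂ}
    (hp : ∀ i, p i 0 ≠ 0) (m : Fin k → ℕ) (J : Finset (Fin k)) :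
    (Module.finrank ℂ (fatForms r d p fun i => if i ∈ J then m i else 0) : ℤ) -
      ∑ i ∈ univ.filter (fun i => i ∉ J), ((m i + r - 1).choose r : ℤ) ≤
      Module.finrank ℂ (fatForms r d p m) := by
  classical
  set A := fatForms r d p fun i => if i ∈ J then m i else 0 with hA
  set B := fatForms r d p fun i => if i ∈ J then 0 else m i with hB
  set V := MvPolynomial.homogeneousSubmodule (Fin (r + 1)) ℂ d with hV
  have hAV : A ≤ V := fun F hF => hF.1
  have hBV : B ≤ V := fun F hF => hF.1
  have hAB : A ⊓ B ≤ fatForms r d p m := by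
    rintro F ⟨h1, h2⟩
    refine ⟨h1.1, fun i => ?_⟩
    by_cases hi : i ∈ J
    · have := h1.2 i
      simpa only [if_pos hi] using this
    · have := h2.2 i
      simpa only [if_neg hi] using this
  have h0 : fatForms r d p (fun _ : Fin k => 0) = V := by
    ext F
    constructor
    · exact fun h => h.1
    · exact fun h => ⟨h, fun i β hβ => absurd hβ (Nat.not_lt_zero _)⟩
  have hVr : Module.finrank ℂ V = (d + r).choose r := by
    have h1 := rank_add_finrank (d := d) hp fun _ : Fin k => 0
    have h2 := finrank_range_le d hr p fun _ : Fin k => 0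
    have h3 : ∑ i : Fin k, ((fun _ : Fin k => 0) i + r - 1).choose r = 0 := by
      apply sum_eq_zero
      intro i _
      exact Nat.choose_eq_zero_of_lt (show 0 + r - 1 < r by omega)
    rw [h3] at h2
    rw [h0] at h1
    omega
  have : FiniteDimensional ℂ V := by
    rcases Nat.eq_zero_or_pos (Module.finrank ℂ V) with h | h
    · rw [hVr] at h
      have := Nat.choose_pos (show r ≤ d + r by omega)
      omega
    · exact Module.finite_of_finrank_pos h
  have : FiniteDimensional ℂ A := Submodule.finiteDimensional_of_le hAV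
  have : FiniteDimensional ℂ B := Submodule.finiteDimensional_of_le hBV
  have : FiniteDimensional ℂ (fatForms r d p m) :=
    Submodule.finiteDimensional_of_le (S₂ := V) fun F hF => hF.1
  have h1 := Submodule.finrank_sup_add_finrank_inf_eq A B
  have h2 : Module.finrank ℂ (A ⊔ B : Submodule ℂ (MvPolynomial (Fin (r + 1)) ℂ)) ≤
      (d + r).choose r := by
    rw [← hVr]
    exact Submodule.finrank_mono (sup_le hAV hBV)
  have h3 : Module.finrank ℂ (A ⊓ B : Submodule ℂ (MvPolynomial (Fin (r + 1)) ℂ)) ≤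
      Module.finrank ℂ (fatForms r d p m) := Submodule.finrank_mono hAB
  have h4 := finrank_fatForms_ge (d := d) hr hp fun i => if i ∈ J then 0 else m i
  have h5 : ∑ i, (((fun i => if i ∈ J then 0 else m i) i + r - 1).choose r : ℤ) =
      ∑ i ∈ univ.filter (fun i => i ∉ J), ((m i + r - 1).choose r : ℤ) := by
    rw [sum_filter]
    refine sum_congr rfl fun i _ => ?_
    by_cases hi : i ∈ J
    · simp only [not_true_eq_false, if_false, hi, if_true]
      rw [Nat.choose_eq_zero_of_lt (show 0 + r - 1 < r by omega)]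
      rfl
    · simp only [not_false_eq_true, if_true, hi, if_false]
  rw [h5] at h4
  rw [← hB] at h4
  omega

/-- General points exist for finitely many conditions. -/
theorem general_all {r k : ℕ} {P : ℕ → (Fin k → Fin (r + 1) → ℂ) → Prop} (s : Finset ℕ)
    (h : ∀ j ∈ s, ForGeneralPoints r k (P j)) :
    ForGeneralPoints r k fun p => ∀ j ∈ s, P j p := by
  classical
  induction s using Finset.induction_on with
  | empty => exact ⟨1, one_ne_zero, fun p _ j hj => absurd hj (notMem_empty j)⟩
  | insert a s ha ih =>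
    refine ((h a (mem_insert_self a s)).and (ih fun j hj => h j (mem_insert_of_mem hj))).mono
      fun p hp j hj => ?_
    rcases mem_insert.1 hj with rfl | hj
    · exact hp.1
    · exact hp.2 j hj

theorem ell_le_succ (n : ℕ) (M : ℕ) : ell n M ≤ ell (n + 1) M + 0 ∨ M = 0 := by
  rcases Nat.eq_zero_or_pos M with h | h
  · exact Or.inr h
  · left
    have h1 := ell_succ n (M - 1)
    rw [Nat.sub_add_cancel h] at h1
    omega

/-- The constants. -/
theorem consts_le (n : ℕ) {M : ℕ} (hM : 1 ≤ M) :
    EV (n + 1) M ≤ 16 * M ^ 2 * ell (n + 2) M ∧ CU (n + 1) M ≤ 66 * M ^ 3 * ell (n + 2) M := by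
  have hB : ell (n + 1) M ≤ ell (n + 2) M := by
    have := (ell_le_succ (n + 1) M).resolve_right (by omega)
    exact this
  constructor
  · unfold EV
    calc 8 * M * (M + 1) * ell (n + 1) M ≤ 8 * M * (2 * M) * ell (n + 2) M :=
          Nat.mul_le_mul (Nat.mul_le_mul_left _ (by omega)) hB
      _ = 16 * M ^ 2 * ell (n + 2) M := by ring
  · unfold CU qU
    have h1 : M ≤ M ^ 2 := Nat.le_self_pow (by norm_num) M
    have h2 : 4 * M * ell (n + 1) M ≤ 4 * M ^ 2 * ell (n + 2) M :=
      Nat.mul_le_mul (Nat.mul_le_mul_left _ h1) hB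
    calc 11 * M * (2 * M ^ 2 * ell (n + 1 + 1) M + 4 * M * ell (n + 1) M) ≤
          11 * M * (2 * M ^ 2 * ell (n + 2) M + 4 * M ^ 2 * ell (n + 2) M) :=
          Nat.mul_le_mul_left _ (Nat.add_le_add_left h2 _)
      _ = 66 * M ^ 3 * ell (n + 2) M := by ring

end Pool.Agent.H18.Ub

end
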