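import Pool.Agent.H94.LP1.M03
import Pool.Agent.H94.LP1.M33

/-! The parts of this file: H18.FatGrid, H18.FatPerfect_1, H74.CT.Jump, H74.CT.Mul. -/

section

namespace Pool.Agent.H18.Fat

open MvPolynomial Finset

/-! ### Interpolation on lower sets of a grid -/

/-- Divided differences: coefficients extracting the coefficient of `x ^ n` from the values at
the first `n + 1` nodes. -/
theorem exists_divided_difference {s : ℕ} {t : ℕ → ℂ}
    (ht : ∀ i < s, ∀ j < s, t i = t j → i = j) {n : ℕ} (hn : n < s) :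
    ∃ w : ℕ → ℂ, (∀ l, n < l → w l = 0) ∧
      ∀ k ≤ n, ∑ l : Fin s, w l * t l ^ k = if k = n then 1 else 0 := by
  classical
  let V : Matrix (Fin (n + 1)) (Fin (n + 1)) ℂ := Matrix.vandermonde (fun i => t i)
  have hdet : IsUnit V.det := by
    rw [isUnit_iff_ne_zero]
    refine Matrix.det_vandermonde_ne_zero_iff.2 fun i j hij => ?_
    exact Fin.ext (ht i (by omega) j (by omega) hij)
  let u : Fin (n + 1) → ℂ := fun i => V⁻¹ (Fin.last n) i
  have hu : ∀ k : Fin (n + 1), ∑ i : Fin (n + 1), u i * t i ^ (k : ℕ) =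
      if k = Fin.last n then 1 else 0 := by
    intro k
    have h1 : (V⁻¹ * V) (Fin.last n) k = (1 : Matrix (Fin (n + 1)) (Fin (n + 1)) ℂ)
        (Fin.last n) k := by
      rw [Matrix.nonsing_inv_mul _ hdet]
    rw [Matrix.mul_apply, Matrix.one_apply] at h1
    simp only [V, Matrix.vandermonde_apply] at h1
    simp only [u, V, h1, eq_comm]
  let w : ℕ → ℂ := fun l => if h : l < n + 1 then u ⟨l, h⟩ else 0
  have hw : ∀ l, n < l → w l = 0 := by
    intro l hl
    exact dif_neg (by omega)
  refine ⟨w, hw, ?_⟩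
  intro k hk
  have h2 := hu ⟨k, by omega⟩
  have h3 : ∑ i : Fin (n + 1), u i * t i ^ k = ∑ l ∈ range (n + 1), w l * t l ^ k := by
    rw [sum_range]
    refine sum_congr rfl fun i _ => ?_
    have : w (i : ℕ) = u i := dif_pos i.2
    rw [this]
  have h4 : ∑ l : Fin s, w l * t l ^ k = ∑ l ∈ range s, w l * t l ^ k :=
    (sum_range (fun l => w l * t l ^ k)).symm
  have h5 : ∑ l ∈ range (n + 1), w l * t l ^ k = ∑ l ∈ range s, w l * t l ^ k := by
    apply sum_subset
    · intro l hl
      rw [mem_range] at *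
      omega
    · intro l _ hl
      rw [mem_range] at hl
      rw [hw l (by omega), zero_mul]
  rw [h4, ← h5, ← h3]
  simp only at h2
  rw [h2]
  congr 1
  simp [Fin.ext_iff]

/-- Sum of the entries of a grid vector. -/
def gsum {r s : ℕ} (a : Fin r → Fin s) : ℕ := ∑ j, (a j : ℕ)

/-- If a combination of monomials with exponents in a sublevel set of the grid vanishes at the
grid points of that set then it is zero. -/
theorem eq_zero_of_grid {r s : ℕ} {t : ℕ → ℂ}
    (ht : ∀ i < s, ∀ j < s, t i = t j → i = j) (N : ℕ) (c : (Fin r → Fin s) → ℂ)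
    (hc : ∀ a, N < gsum a → c a = 0)
    (h : ∀ b : Fin r → Fin s, gsum b ≤ N →
      ∑ a, c a * ∏ j, t (b j) ^ (a j : ℕ) = 0) : ∀ a, c a = 0 := by
  classical
  by_contra hne
  push Not at hne
  -- choose a nonzero coefficient with maximal sum
  obtain ⟨a₀, ha₀⟩ := hne
  have hfin : (univ.filter fun a : Fin r → Fin s => c a ≠ 0).Nonempty :=
    ⟨a₀, by simp [ha₀]⟩
  obtain ⟨a, ha, hmax⟩ := exists_max_image _ gsum hfin
  rw [mem_filter] at ha
  have hcN : gsum a ≤ N := by
    by_contra hlt
    exact ha.2 (hc a (by omega))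
  choose w hw0 hw using fun j : Fin r => exists_divided_difference ht (a j).2
  have key : ∑ b : Fin r → Fin s, (∏ j, w j (b j)) *
      ∑ x, c x * ∏ j, t (b j) ^ (x j : ℕ) = 0 := by
    refine sum_eq_zero fun b _ => ?_
    by_cases hb : ∀ j, (b j : ℕ) ≤ a j
    · have : gsum b ≤ gsum a := sum_le_sum fun j _ => hb j
      rw [h b (by omega), mul_zero]
    · push Not at hb
      obtain ⟨j, hj⟩ := hb
      rw [prod_eq_zero (mem_univ j) (hw0 j _ hj), zero_mul]
  have key2 : ∑ b : Fin r → Fin s, (∏ j, w j (b j)) *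
      ∑ x, c x * ∏ j, t (b j) ^ (x j : ℕ) =
      ∑ x, c x * ∏ j, ∑ l : Fin s, w j l * t l ^ (x j : ℕ) := by
    simp_rw [mul_sum]
    rw [sum_comm]
    refine sum_congr rfl fun x _ => ?_
    rw [prod_univ_sum, Fintype.piFinset_univ, mul_sum]
    refine sum_congr rfl fun b _ => ?_
    rw [prod_mul_distrib]
    ring
  rw [key2, sum_eq_single a] at key
  · have h1 : ∏ j, ∑ l : Fin s, w j l * t l ^ (a j : ℕ) = 1 := by
      refine prod_eq_one fun j _ => ?_
      rw [hw j _ le_rfl, if_pos rfl]
    rw [h1, mul_one] at key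
    exact ha.2 key
  · intro x _ hx
    by_cases hcx : c x = 0
    · rw [hcx, zero_mul]
    · have h1 : gsum x ≤ gsum a := hmax x (by simp [hcx])
      obtain ⟨j, hj⟩ : ∃ j, (x j : ℕ) < a j := by
        by_contra hall
        push Not at hall
        apply hx
        have h2 : gsum x = gsum a := le_antisymm h1 (sum_le_sum fun j _ => hall j)
        have h3 := (sum_eq_sum_iff_of_le fun j (_ : j ∈ univ) => hall j).1 h2.symm
        funext j
        exact Fin.ext (h3 j (mem_univ j)).symm
      rw [prod_eq_zero (mem_univ j), mul_zero]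
      rw [hw j _ hj.le, if_neg (by omega)]
  · intro h1
    exact absurd (mem_univ a) h1

/-! ### Moments -/

/-- The first `N` binomial moments of the coefficient vector `g` vanish. -/
def Mom {n d : ℕ} (g : mons n d → ℂ) (N : ℕ) : Prop :=
  ∀ β : Fin n →₀ ℕ, β.degree ≤ N →
    ∑ α : mons n d, g α * ∏ j, ((α.1 j).choose (β j) : ℂ) = 0

theorem prod_choose_mul {n : ℕ} (α β : Fin n →₀ ℕ) (j : Fin n) :
    (α j : ℂ) * ∏ i, ((α i).choose (β i) : ℂ) =
      ((β j : ℂ) + 1) * ∏ i, ((α i).choose ((β + Finsupp.single j 1 : Fin n →₀ ℕ) i) : ℂ) +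
      (β j : ℂ) * ∏ i, ((α i).choose (β i) : ℂ) := by
  classical
  rw [← mul_prod_erase univ (fun i => ((α i).choose (β i) : ℂ)) (mem_univ j),
    ← mul_prod_erase univ (fun i => ((α i).choose ((β + Finsupp.single j 1 : Fin n →₀ ℕ) i) : ℂ))
      (mem_univ j)]
  have h2 : ∏ x ∈ univ.erase j, ((α x).choose ((β + Finsupp.single j 1 : Fin n →₀ ℕ) x) : ℂ) =
      ∏ x ∈ univ.erase j, ((α x).choose (β x) : ℂ) := by
    refine prod_congr rfl fun x hx => ?_
    have hx' : j ≠ x := fun h => (ne_of_mem_erase hx) h.symm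
    simp [Finsupp.single_eq_of_ne hx'.symm]
  rw [h2]
  simp only [Finsupp.add_apply, Finsupp.single_eq_same]
  have h3 : ((α j).choose (β j + 1) : ℂ) * ((β j : ℂ) + 1) =
      ((α j).choose (β j) : ℂ) * ((α j : ℂ) - (β j : ℂ)) := by
    rcases le_or_gt (β j) (α j) with h | h
    · have := Nat.choose_succ_right_eq (α j) (β j)
      have h4 : (((α j).choose (β j + 1) * (β j + 1) : ℕ) : ℂ) =
        (((α j).choose (β j) * (α j - β j) : ℕ) : ℂ) := by rw [this]
      push_cast [Nat.cast_sub h] at h4
      exact h4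
    · rw [Nat.choose_eq_zero_of_lt h, Nat.choose_eq_zero_of_lt (by omega)]
      simp
  linear_combination (-(∏ x ∈ univ.erase j, ((α x).choose (β x) : ℂ))) * h3

theorem Mom.mul {n d N : ℕ} {g : mons n d → ℂ} (h : Mom g (N + 1)) (j : Fin n) (c : ℂ) :
    Mom (fun α => ((α.1 j : ℂ) - c) * g α) N := by
  intro β hβ
  have h1 := h β (by omega)
  have h2 := h (β + Finsupp.single j 1) (by simp only [map_add, Finsupp.degree_single]; omega)
  have h3 : ∀ α : mons n d, ((α.1 j : ℂ) - c) * g α * ∏ i, ((α.1 i).choose (β i) : ℂ) =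
      ((β j : ℂ) + 1) * (g α * ∏ i, ((α.1 i).choose
        ((β + Finsupp.single j 1 : Fin n →₀ ℕ) i) : ℂ)) +
      ((β j : ℂ) - c) * (g α * ∏ i, ((α.1 i).choose (β i) : ℂ)) := by
    intro α
    have := prod_choose_mul α.1 β j
    linear_combination (g α) * this
  rw [sum_congr rfl fun α _ => h3 α, sum_add_distrib, ← mul_sum, ← mul_sum, h1, h2]
  simp

theorem Mom.prod {n d : ℕ} {κ : Type*} [DecidableEq κ] (J : κ → Fin n) (c : κ → ℂ)
    (T : Finset κ) : ∀ {N : ℕ} {g : mons n d → ℂ}, Mom g (N + T.card) →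
      Mom (fun α => (∏ i ∈ T, ((α.1 (J i) : ℂ) - c i)) * g α) N := by
  induction T using Finset.induction_on with
  | empty =>
    intro N g h
    simpa using h
  | insert a T ha ih =>
    intro N g h
    rw [card_insert_of_notMem ha] at h
    have h1 : Mom (fun α => ((α.1 (J a) : ℂ) - c a) * g α) (N + T.card) := by
      apply Mom.mul
      have : N + T.card + 1 = N + (T.card + 1) := by ring
      rw [this]
      exact h
    have h2 := ih h1
    have h3 : (fun α : mons n d => (∏ i ∈ insert a T, ((α.1 (J i) : ℂ) - c i)) * g α) =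
        fun α => (∏ i ∈ T, ((α.1 (J i) : ℂ) - c i)) * (((α.1 (J a) : ℂ) - c a) * g α) := by
      funext α
      rw [prod_insert ha]
      ring
    rw [h3]
    exact h2

theorem Mom.sum_eq_zero {n d N : ℕ} {g : mons n d → ℂ} (h : Mom g N) :
    ∑ α, g α = 0 := by
  have := h 0 (by simp)
  simpa using this

/-- Order of vanishing in terms of moments. -/
theorem sum_choose_eq_zero {n d : ℕ} {q : Fin n → ℂ} {f : mons n d → ℂ} {m : ℕ}
    (h : VanishesToOrder (toPoly n d f) q m) {β : Fin n →₀ ℕ} (hβ : β.degree < m) :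
    ∑ α : mons n d, f α * (∏ j, q j ^ (α.1 j)) * ∏ j, ((α.1 j).choose (β j) : ℂ) = 0 := by
  have h1 := h β hβ
  rw [coeff_shift_toPoly] at h1
  have h2 : ∀ α : mons n d, f α * (∏ j, q j ^ (α.1 j)) * ∏ j, ((α.1 j).choose (β j) : ℂ) =
      (∏ j, q j ^ β j) * (f α * tc q α.1 β) := by
    intro α
    have h3 : (∏ j, q j ^ (α.1 j)) * ∏ j, ((α.1 j).choose (β j) : ℂ) =
        (∏ j, q j ^ β j) * tc q α.1 β := by
      unfold tc
      rw [← prod_mul_distrib, ← prod_mul_distrib]
      refine prod_congr rfl fun j _ => ?_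
      rcases le_or_gt (β j) (α.1 j) with h | h
      · have h4 : α.1 j = β j + (α.1 j - β j) := by omega
        have h5 : q j ^ (α.1 j) = q j ^ β j * q j ^ (α.1 j - β j) := by
          rw [← pow_add, ← h4]
        rw [h5]
        ring
      · rw [Nat.choose_eq_zero_of_lt h]
        simp
    rw [mul_assoc, h3]
    ring
  rw [sum_congr rfl fun α _ => h2 α, ← mul_sum, h1, mul_zero]

/-! ### The grid configuration -/

/-- The point `(1 : ζ ^ b_1 : ... : ζ ^ b_r)`. -/
noncomputable def gridPt {r s : ℕ} (ζ : ℂ) (b : Fin r → Fin s) : Fin (r + 1) → ℂ :=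
  Fin.cons 1 fun j => ζ ^ (b j : ℕ)

/-- Residues modulo `s` of all exponents but the first. -/
def res {r s : ℕ} (hs : 0 < s) (α : Fin (r + 1) →₀ ℕ) : Fin r → Fin s :=
  fun j => ⟨α j.succ % s, Nat.mod_lt _ hs⟩

theorem prod_gridPt {r s : ℕ} (hs : 0 < s) {ζ : ℂ} (hζ : ζ ^ s = 1) (b : Fin r → Fin s)
    (α : Fin (r + 1) →₀ ℕ) :
    ∏ j, gridPt ζ b j ^ (α j) = ∏ j, (ζ ^ (b j : ℕ)) ^ (res hs α j : ℕ) := by
  rw [Fin.prod_univ_succ]
  simp only [gridPt, Fin.cons_zero, one_pow, one_mul, Fin.cons_succ]
  refine prod_congr rfl fun j _ => ?_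
  have h1 : (ζ ^ (b j : ℕ)) ^ s = 1 := by
    rw [← pow_mul, mul_comm, pow_mul, hζ, one_pow]
  exact pow_eq_pow_mod _ h1

theorem sum_fiber {r s d : ℕ} (hs : 0 < s) (v : mons (r + 1) d → ℂ)
    (w : (Fin r → Fin s) → ℂ) :
    ∑ α : mons (r + 1) d, v α * w (res hs α.1) =
      ∑ a : Fin r → Fin s, (∑ α : mons (r + 1) d, if res hs α.1 = a then v α else 0) * w a := by
  classical
  simp_rw [sum_mul]
  rw [sum_comm]
  refine sum_congr rfl fun α _ => ?_
  rw [sum_eq_single (res hs α.1)]
  · simp
  · intro b _ hb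
    rw [if_neg (Ne.symm hb), zero_mul]
  · intro h
    exact absurd (mem_univ _) h

theorem sum_div_add_gsum {r s d : ℕ} (hs : 0 < s) {α : Fin (r + 1) →₀ ℕ}
    (hα : α ∈ mons (r + 1) d) :
    s * ∑ j, α j / s + α 0 % s + gsum (res hs α) = d := by
  rw [mem_mons, Finsupp.degree_eq_sum] at hα
  unfold gsum res
  simp only
  rw [← hα, Fin.sum_univ_succ, Fin.sum_univ_succ, mul_add, mul_sum]
  have h1 := Nat.div_add_mod (α 0) s
  have h2 : ∑ j : Fin r, α j.succ = ∑ j : Fin r, (s * (α j.succ / s) + α j.succ % s) :=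
    sum_congr rfl fun j _ => (Nat.div_add_mod _ _).symm
  rw [h2, sum_add_distrib]
  omega

/-- The grid configuration kills all forms of degree `d`. -/
theorem grid_core {r s d : ℕ} (hs : 0 < s) {ζ : ℂ} (hζ : IsPrimitiveRoot ζ s)
    (f : mons (r + 1) d → ℂ) (m : (Fin r → Fin s) → ℕ)
    (hm : ∀ b, gsum b ≤ d → d < s * m b + gsum b)
    (h : ∀ b, VanishesToOrder (toPoly (r + 1) d f) (gridPt ζ b) (m b)) : ∀ α, f α = 0 := by
  classical
  have hζs : ζ ^ s = 1 := hζ.pow_eq_one
  have hinj : ∀ i < s, ∀ j < s, ζ ^ i = ζ ^ j → i = j := fun i hi j hj hij =>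
    hζ.pow_inj hi hj hij
  have key : ∀ n, ∀ α : mons (r + 1) d, ∑ j, α.1 j / s = n → f α = 0 := by
    intro n
    induction n using Nat.strong_induction_on with
    | _ n ih =>
    -- all moments up to order `n` of each residue class vanish
    have step1 : ∀ β : Fin (r + 1) →₀ ℕ, β.degree ≤ n → ∀ a : Fin r → Fin s,
        ∑ α : mons (r + 1) d, (if res hs α.1 = a then
          f α * ∏ j, ((α.1 j).choose (β j) : ℂ) else 0) = 0 := by
      intro β hβ
      rcases le_or_gt (s * n) d with hn | hn
      · refine eq_zero_of_grid hinj (d - s * n) _ ?_ ?_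
        · intro a ha
          refine sum_eq_zero fun α _ => ?_
          split_ifs with hα
          · have h1 := sum_div_add_gsum hs α.2
            rw [hα] at h1
            have h2 : ∑ j, α.1 j / s < n := by
              by_contra h3
              push Not at h3
              have h4 : s * n ≤ s * ∑ j, α.1 j / s := Nat.mul_le_mul_left s h3
              omega
            rw [ih _ h2 α rfl, zero_mul]
          · rfl
        · intro b hb
          have h1 : gsum b ≤ d := by omega
          have h2 := hm b h1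
          have h3 : n < m b := by
            by_contra h4
            push Not at h4
            have h5 : s * m b ≤ s * n := Nat.mul_le_mul_left s h4
            omega
          have h4 := sum_choose_eq_zero (h b) (β := β) (by omega)
          refine Eq.trans ?_ h4
          rw [← sum_fiber hs (fun α => f α * ∏ j, ((α.1 j).choose (β j) : ℂ))
            (fun a => ∏ j, (ζ ^ (b j : ℕ)) ^ (a j : ℕ))]
          refine sum_congr rfl fun α _ => ?_
          rw [prod_gridPt hs hζs b α.1]
          ring
      · intro a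
        refine sum_eq_zero fun α _ => ?_
        split_ifs with hα
        · have h1 := sum_div_add_gsum hs α.2
          have h2 : ∑ j, α.1 j / s < n := by
            by_contra h3
            push Not at h3
            have h4 : s * n ≤ s * ∑ j, α.1 j / s := Nat.mul_le_mul_left s h3
            omega
          rw [ih _ h2 α rfl, zero_mul]
        · rfl
    intro α₀ hα₀
    let g : mons (r + 1) d → ℂ := fun α => if res hs α.1 = res hs α₀.1 then f α else 0
    have hg : Mom g n := by
      intro β hβ
      rw [← step1 β hβ (res hs α₀.1)]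
      refine sum_congr rfl fun α _ => ?_
      simp only [g]
      split_ifs <;> simp
    let T : Finset (Σ _ : Fin (r + 1), ℕ) := univ.sigma fun j => range (α₀.1 j / s)
    have hT : T.card = n := by
      rw [card_sigma]
      simp only [card_range]
      exact hα₀
    have hg' : Mom g (0 + T.card) := by rw [hT, zero_add]; exact hg
    have hprod := (Mom.prod (fun x : (Σ _ : Fin (r + 1), ℕ) => x.1)
      (fun x => ((α₀.1 x.1 % s : ℕ) : ℂ) + (s : ℂ) * (x.2 : ℂ)) T hg').sum_eq_zero
    rw [sum_eq_single α₀] at hprod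
    · rcases mul_eq_zero.1 hprod with h1 | h1
      · exfalso
        rw [prod_eq_zero_iff] at h1
        obtain ⟨x, hx, hx0⟩ := h1
        rw [mem_sigma, mem_range] at hx
        have h2 := Nat.div_add_mod (α₀.1 x.1) s
        have h3 : (α₀.1 x.1 : ℂ) = (s : ℂ) * ((α₀.1 x.1 / s : ℕ) : ℂ) +
            ((α₀.1 x.1 % s : ℕ) : ℂ) := by exact_mod_cast h2.symm
        rw [h3] at hx0
        have h4 : (s : ℂ) * (((α₀.1 x.1 / s : ℕ) : ℂ) - (x.2 : ℂ)) = 0 := by
          linear_combination hx0
        rcases mul_eq_zero.1 h4 with h5 | h5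
        · have : s = 0 := by exact_mod_cast h5
          omega
        · rw [sub_eq_zero] at h5
          have : α₀.1 x.1 / s = x.2 := by exact_mod_cast h5
          omega
      · simpa [g] using h1
    · intro α _ hα
      by_cases hres : res hs α.1 = res hs α₀.1
      · -- some quotient is smaller
        have h1 := sum_div_add_gsum hs α.2
        have h2 := sum_div_add_gsum hs α₀.2
        rw [hres] at h1
        have hmod : α.1 0 % s = α₀.1 0 % s := by
          have h3 : (s * ∑ j, α.1 j / s + α.1 0 % s) % s =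
              (s * ∑ j, α₀.1 j / s + α₀.1 0 % s) % s := by
            congr 1
            omega
          simpa [Nat.add_mod] using h3
        have hsum : ∑ j, α.1 j / s = ∑ j, α₀.1 j / s := by
          have h3 : s * ∑ j, α.1 j / s = s * ∑ j, α₀.1 j / s := by omega
          exact Nat.eq_of_mul_eq_mul_left hs h3
        have hmods : ∀ j, α.1 j % s = α₀.1 j % s := by
          intro j
          refine Fin.cases hmod (fun i => ?_) j
          have := congrFun hres i
          exact Fin.ext_iff.1 this
        obtain ⟨j, hj⟩ : ∃ j, α.1 j / s < α₀.1 j / s := by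
          by_contra hall
          push Not at hall
          apply hα
          have h3 := (sum_eq_sum_iff_of_le fun j (_ : j ∈ univ) => hall j).1 hsum.symm
          apply Subtype.ext
          ext j
          have h4 := h3 j (mem_univ j)
          have h5 := hmods j
          have h6 := Nat.div_add_mod (α.1 j) s
          have h7 := Nat.div_add_mod (α₀.1 j) s
          rw [← h6, ← h7, h4, h5]
        have hx : (⟨j, α.1 j / s⟩ : (Σ _ : Fin (r + 1), ℕ)) ∈ T := by
          rw [mem_sigma]
          exact ⟨mem_univ _, mem_range.2 hj⟩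
        rw [prod_eq_zero hx, zero_mul]
        simp only
        rw [← hmods j]
        have h6 := Nat.div_add_mod (α.1 j) s
        have h7 : (α.1 j : ℂ) = (s : ℂ) * ((α.1 j / s : ℕ) : ℂ) +
            ((α.1 j % s : ℕ) : ℂ) := by exact_mod_cast h6.symm
        linear_combination h7
      · have : g α = 0 := if_neg hres
        rw [this, mul_zero]
    · intro h1
      exact absurd (mem_univ _) h1
  intro α
  exact key _ α rfl

end Pool.Agent.H18.Fat

end

section

namespace Pool.Agent.H18.Fat

open MvPolynomial Finset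

/-! ### Counting -/

theorem card_fiber {r s d : ℕ} (hs : 0 < s) (b : Fin r → Fin s) (hb : gsum b ≤ d) :
    ((mons (r + 1) d).filter fun α => res hs α = b).card =
      (mons (r + 1) ((d - gsum b) / s)).card := by
  classical
  refine card_nbij' (fun α => Finsupp.equivFunOnFinite.symm fun j => α j / s)
    (fun γ => Finsupp.equivFunOnFinite.symm
      (Fin.cons (s * γ 0 + (d - gsum b) % s) fun j => s * γ j.succ + b j)) ?_ ?_ ?_ ?_
  · intro α hα
    rw [mem_coe, mem_filter] at hα
    have h1 := sum_div_add_gsum hs hα.1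
    rw [hα.2] at h1
    rw [mem_coe, mem_mons, Finsupp.degree_eq_sum]
    simp only [Finsupp.equivFunOnFinite_symm_apply_apply]
    have h2 : d - gsum b = α 0 % s + s * ∑ j, α j / s := by omega
    rw [h2, Nat.add_mul_div_left _ _ hs, Nat.div_eq_of_lt (Nat.mod_lt _ hs), zero_add]
  · intro γ hγ
    rw [mem_coe, mem_mons, Finsupp.degree_eq_sum, Fin.sum_univ_succ] at hγ
    rw [mem_coe, mem_filter]
    constructor
    · rw [mem_mons, Finsupp.degree_eq_sum, Fin.sum_univ_succ]
      simp only [Finsupp.equivFunOnFinite_symm_apply_apply, Fin.cons_zero, Fin.cons_succ]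
      rw [sum_add_distrib, ← mul_sum]
      have h3 := Nat.div_add_mod (d - gsum b) s
      rw [← hγ, mul_add] at h3
      unfold gsum at *
      omega
    · funext j
      apply Fin.ext
      simp only [res, Finsupp.equivFunOnFinite_symm_apply_apply, Fin.cons_succ]
      rw [Nat.mul_add_mod, Nat.mod_eq_of_lt (b j).2]
  · intro α hα
    rw [mem_coe, mem_filter] at hα
    have h1 := sum_div_add_gsum hs hα.1
    rw [hα.2] at h1
    ext j
    simp only [Finsupp.equivFunOnFinite_symm_apply_apply]
    refine Fin.cases ?_ (fun i => ?_) j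
    · simp only [Fin.cons_zero]
      have h2 : d - gsum b = α 0 % s + s * ∑ j, α j / s := by omega
      rw [h2, Nat.add_mul_mod_self_left, Nat.mod_mod]
      exact Nat.div_add_mod _ _
    · simp only [Fin.cons_succ]
      have h3 := congrFun hα.2 i
      have h4 : α i.succ % s = b i := Fin.ext_iff.1 h3
      rw [← h4]
      exact Nat.div_add_mod _ _
  · intro γ hγ
    ext j
    simp only [Finsupp.equivFunOnFinite_symm_apply_apply]
    refine Fin.cases ?_ (fun i => ?_) j
    · simp only [Fin.cons_zero]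
      rw [Nat.mul_add_div hs, Nat.div_eq_of_lt (Nat.mod_lt _ hs), add_zero]
    · simp only [Fin.cons_succ]
      rw [Nat.mul_add_div hs, Nat.div_eq_of_lt (b i).2, add_zero]

/-- The perfect multiplicities. -/
def perf {r s : ℕ} (d : ℕ) (b : Fin r → Fin s) : ℕ :=
  if gsum b ≤ d then (d - gsum b) / s + 1 else 0

theorem sum_perf {r s : ℕ} (hr : 1 ≤ r) (hs : 0 < s) (d : ℕ) :
    ∑ b : Fin r → Fin s, (perf d b + r - 1).choose r = (d + r).choose r := by
  classical
  rw [← card_mons r d, card_eq_sum_card_fiberwise (f := res hs) (t := univ)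
    (fun _ _ => mem_coe.2 (mem_univ _))]
  refine sum_congr rfl fun b _ => ?_
  unfold perf
  split_ifs with hb
  · rw [card_fiber hs b hb, card_mons]
    generalize (d - gsum b) / s = t
    have h : t + 1 + r - 1 = t + r := by omega
    rw [h]
  · rw [Nat.choose_eq_zero_of_lt (by omega)]
    symm
    rw [card_eq_zero, filter_eq_empty_iff]
    intro α hα h
    have h1 := sum_div_add_gsum hs hα
    rw [h] at h1
    omega

theorem perf_spec {r s : ℕ} (hs : 0 < s) {d : ℕ} (b : Fin r → Fin s) (hb : gsum b ≤ d) :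
    d < s * perf d b + gsum b := by
  unfold perf
  rw [if_pos hb, mul_add, mul_one]
  have h1 := Nat.div_add_mod (d - gsum b) s
  have h2 := Nat.mod_lt (d - gsum b) hs
  omega

theorem le_perf {r s : ℕ} (hs : 0 < s) {d n : ℕ} (b : Fin r → Fin s)
    (h : s * (n - 1) + gsum b ≤ d) : n ≤ perf d b := by
  unfold perf
  rw [if_pos (by omega)]
  have h1 : n - 1 ≤ (d - gsum b) / s := by
    rw [Nat.le_div_iff_mul_le hs, mul_comm]
    omega
  omega

theorem gridPt_zero {r s : ℕ} (ζ : ℂ) (b : Fin r → Fin s) : gridPt ζ b 0 = 1 := rfl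

theorem gridPt_ne {r s : ℕ} (ζ : ℂ) (b : Fin r → Fin s) : gridPt ζ b 0 ≠ 0 := by
  rw [gridPt_zero]
  exact one_ne_zero

/-- The conditions of the perfect grid configuration are independent. -/
theorem grid_surjective {r s : ℕ} (d : ℕ) (hr : 1 ≤ r) (hs : 0 < s) {ζ : ℂ}
    (hζ : IsPrimitiveRoot ζ s) :
    Function.Surjective (condMat r d (fun b : Fin r → Fin s => gridPt ζ b) (perf d)).mulVec := by
  classical
  have hker : LinearMap.ker
      (condMat r d (fun b : Fin r → Fin s => gridPt ζ b) (perf d)).mulVecLin = ⊥ := by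
    rw [LinearMap.ker_eq_bot']
    intro f hf
    rw [Matrix.mulVecLin_apply, ← toPoly_mem_fatForms (fun b => gridPt_ne ζ b)] at hf
    funext α
    exact grid_core hs hζ f (perf d) (fun b hb => perf_spec hs b hb) hf.2 α
  have hfr := LinearMap.finrank_range_add_finrank_ker
    (condMat r d (fun b : Fin r → Fin s => gridPt ζ b) (perf d)).mulVecLin
  rw [hker, finrank_bot, add_zero, Module.finrank_fintype_fun_eq_card, Fintype.card_coe,
    card_mons, ← sum_perf hr hs d, ← card_cond hr (perf d),
    ← Module.finrank_fintype_fun_eq_card ℂ] at hfr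
  have h0 := LinearMap.range_eq_top.1 (Submodule.eq_top_of_finrank_eq hfr)
  rwa [Matrix.coe_mulVecLin] at h0

/-- Independence is inherited by subschemes. -/
theorem surjective_of_sub {r d : ℕ} {ι κ : Type*} [Fintype ι] [Fintype κ]
    {q : ι → Fin (r + 1) → ℂ} {μ : ι → ℕ} (h : Function.Surjective (condMat r d q μ).mulVec)
    (φ : κ → ι) (hφ : Function.Injective φ) (m : κ → ℕ) (hm : ∀ i, m i ≤ μ (φ i)) :
    Function.Surjective (condMat r d (fun i => q (φ i)) m).mulVec := by
  classical
  intro v
  let e : Cond r m → Cond r μ := fun x =>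
    ⟨φ x.1, x.2.1, mem_aff.2 ⟨(mem_aff.1 x.2.2).1, lt_of_lt_of_le (mem_aff.1 x.2.2).2 (hm x.1)⟩⟩
  have he : Function.Injective e := by
    rintro ⟨i, β, hβ⟩ ⟨j, γ, hγ⟩ hxy
    simp only [e, Sigma.mk.injEq] at hxy
    obtain ⟨h1, h2⟩ := hxy
    have h3 := hφ h1
    subst h3
    simp only [heq_eq_eq, Subtype.mk.injEq] at h2
    subst h2
    rfl
  obtain ⟨f, hf⟩ := h (Function.extend e v 0)
  refine ⟨f, ?_⟩
  funext x
  have h1 := congrFun hf (e x)
  rw [he.extend_apply] at h1
  rw [← h1]
  rfl

theorem finrank_of_surjective {r d : ℕ} (hr : 1 ≤ r) {ι : Type*} [Fintype ι]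
    {p : ι → Fin (r + 1) → ℂ} (hp : ∀ i, p i 0 ≠ 0) {m : ι → ℕ}
    (h : Function.Surjective (condMat r d p m).mulVec) :
    (∑ i, (m i + r - 1).choose r) + Module.finrank ℂ (fatForms r d p m) = (d + r).choose r := by
  have h1 := rank_add_finrank (d := d) hp m
  have h2 : LinearMap.range (condMat r d p m).mulVecLin = ⊤ := by
    rw [LinearMap.range_eq_top, Matrix.coe_mulVecLin]
    exact h
  rw [h2, finrank_top, Module.finrank_fintype_fun_eq_card, card_cond hr] at h1
  exact h1

/-! ### Adding simple points -/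

theorem vanishesToOrder_zero {n : ℕ} (F : MvPolynomial (Fin n) ℂ) (q : Fin n → ℂ) :
    VanishesToOrder F q 0 := fun β hβ => absurd hβ (by omega)

end Pool.Agent.H18.Fat

end

section

/-!
# The jumps of the growth of the general dimension are rare
-/

namespace Pool.Agent.H74.CT

open MvPolynomial Pool.Agent.H18.Fat Pool.Agent.H22.LU

section seq

variable {t : ℕ → ℕ} {C E : ℕ}

theorem log_mono {a b : ℕ} (h : a ≤ b) : Real.log a ≤ Real.log b := by
  rcases Nat.eq_zero_or_pos a with h0 | h0
  · rw [h0, Nat.cast_zero, Real.log_zero]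
    exact Real.log_natCast_nonneg b
  · exact Real.log_le_log (by exact_mod_cast h0) (by exact_mod_cast h)

theorem log_jump {a b : ℕ} (hE : 1 ≤ E) (ha : 1 ≤ a) (h : b < E * (b - a)) :
    1 ≤ E * (Real.log b - Real.log a) := by
  have hb : 1 ≤ b := by
    by_contra hc
    have : b = 0 := by omega
    subst this
    simp at h
  have hab : a ≤ b := by
    by_contra hc
    have h1 : b - a = 0 := by omega
    rw [h1, Nat.mul_zero] at h
    omega
  have ha' : (0 : ℝ) < a := by exact_mod_cast ha
  have hb' : (0 : ℝ) < b := by exact_mod_cast hb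
  have h1 : (b : ℝ) < E * (b - a) := by
    have h2 : ((b : ℕ) : ℝ) < ((E * (b - a) : ℕ) : ℝ) := by exact_mod_cast h
    rw [Nat.cast_mul, Nat.cast_sub hab] at h2
    exact h2
  have h2 := Real.one_sub_inv_le_log_of_pos (div_pos hb' ha')
  rw [Real.log_div hb'.ne' ha'.ne', inv_div] at h2
  have h3 : 1 - (a : ℝ) / b = (b - a) / b := by
    field_simp
  rw [h3] at h2
  have h4 : (1 : ℝ) ≤ E * ((b - a) / b) := by
    rw [← mul_div_assoc, le_div_iff₀ hb', one_mul]
    exact h1.le
  exact h4.trans (mul_le_mul_of_nonneg_left h2 (by positivity))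

/-- The jumps of a nondecreasing sequence are rare. -/
theorem seq_jumps (ht : Monotone t) (h0 : t 0 = 0) (hC : 1 ≤ C) (hE : 1 ≤ E) (X : ℕ) :
    (((Finset.range (X + 1)).filter fun j => t j < E * (t j - t (j - C))).card : ℝ) ≤
      C * (1 + E * Real.log (t X)) := by
  classical
  set L : ℕ → ℝ := fun j => Real.log (t j) with hL
  have hLm : ∀ a b, a ≤ b → L a ≤ L b := fun a b hab => log_mono (ht hab)
  have hL0 : ∀ a, 0 ≤ L a := fun a => Real.log_natCast_nonneg _
  have key : ∀ X : ℕ, (((Finset.range (X + 1)).filter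
      fun j => t j < E * (t j - t (j - C))).card : ℝ) ≤
      (((Finset.range (X + 1)).filter fun j => 0 < t j ∧ t (j - C) = 0).card : ℝ) +
        E * ∑ i ∈ Finset.range C, L (X - i) := by
    intro X
    induction X with
    | zero =>
      have h1 : (Finset.range (0 + 1)).filter (fun j => t j < E * (t j - t (j - C))) = ∅ := by
        rw [Finset.filter_eq_empty_iff]
        intro j hj
        rw [Finset.mem_range] at hj
        have h2 : j = 0 := by omega
        subst h2
        rw [h0]
        simp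
      rw [h1, Finset.card_empty, Nat.cast_zero]
      have h2 : 0 ≤ ∑ i ∈ Finset.range C, L (0 - i) := Finset.sum_nonneg fun i _ => hL0 _
      positivity
    | succ X ih =>
      have hshift : ∑ i ∈ Finset.range C, L (X + 1 - i) + L (X + 1 - C) =
          ∑ i ∈ Finset.range C, L (X - i) + L (X + 1) := by
        obtain ⟨c, rfl⟩ : ∃ c, C = c + 1 := ⟨C - 1, by omega⟩
        rw [Finset.sum_range_succ' (fun i => L (X + 1 - i)),
          Finset.sum_range_succ (fun i => L (X - i))]
        have h1 : ∑ i ∈ Finset.range c, L (X + 1 - (i + 1)) = ∑ i ∈ Finset.range c, L (X - i) :=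
          Finset.sum_congr rfl fun i _ => by
            have : X + 1 - (i + 1) = X - i := by omega
            rw [this]
        have h2 : X + 1 - (c + 1) = X - c := by omega
        rw [h1, h2, Nat.sub_zero]
        ring
      have hmono := hLm (X + 1 - C) (X + 1) (Nat.sub_le _ _)
      have hE' : (0 : ℝ) ≤ E := by positivity
      rw [Finset.range_add_one (n := X + 1), Finset.filter_insert, Finset.filter_insert]
      have hn : ∀ q : ℕ → Prop, ∀ _ : DecidablePred q,
          X + 1 ∉ (Finset.range (X + 1)).filter q := by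
        intro q _ h
        rw [Finset.mem_filter, Finset.mem_range] at h
        omega
      by_cases hbad : t (X + 1) < E * (t (X + 1) - t (X + 1 - C))
      · rw [if_pos hbad, Finset.card_insert_of_notMem (hn _ _), Nat.cast_add, Nat.cast_one]
        by_cases hz : t (X + 1 - C) = 0
        · have hpos : 0 < t (X + 1) := by
            by_contra hc
            have h1 : t (X + 1) = 0 := by omega
            rw [h1] at hbad
            simp at hbad
          rw [if_pos ⟨hpos, hz⟩, Finset.card_insert_of_notMem (hn _ _), Nat.cast_add, Nat.cast_one]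
          have h1 : E * (∑ i ∈ Finset.range C, L (X - i)) ≤
              E * ∑ i ∈ Finset.range C, L (X + 1 - i) :=
            mul_le_mul_of_nonneg_left (by linarith) hE'
          linarith
        · rw [if_neg fun h => hz h.2]
          have h1 := log_jump hE (a := t (X + 1 - C)) (b := t (X + 1)) (by omega) hbad
          have h2 : ∑ i ∈ Finset.range C, L (X + 1 - i) =
              ∑ i ∈ Finset.range C, L (X - i) + (L (X + 1) - L (X + 1 - C)) := by linarith
          rw [h2, mul_add]
          have h3 : L (X + 1) - L (X + 1 - C) =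
              Real.log (t (X + 1)) - Real.log (t (X + 1 - C)) := rfl
          rw [h3]
          linarith
      · rw [if_neg hbad]
        have h1 : E * (∑ i ∈ Finset.range C, L (X - i)) ≤
            E * ∑ i ∈ Finset.range C, L (X + 1 - i) :=
          mul_le_mul_of_nonneg_left (by linarith) hE'
        have h2 : (((Finset.range (X + 1)).filter fun j => 0 < t j ∧ t (j - C) = 0).card : ℝ) ≤
            ((if 0 < t (X + 1) ∧ t (X + 1 - C) = 0 then
              insert (X + 1) ((Finset.range (X + 1)).filter fun j => 0 < t j ∧ t (j - C) = 0)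
              else (Finset.range (X + 1)).filter fun j => 0 < t j ∧ t (j - C) = 0).card : ℝ) := by
          split_ifs
          · exact_mod_cast Finset.card_le_card (Finset.subset_insert _ _)
          · exact le_rfl
        linarith
  refine (key X).trans ?_
  have hz : (((Finset.range (X + 1)).filter fun j => 0 < t j ∧ t (j - C) = 0).card : ℝ) ≤ C := by
    by_cases hex : ∃ j, 0 < t j
    · have h1 := Nat.find_spec hex
      have h2 : (Finset.range (X + 1)).filter (fun j => 0 < t j ∧ t (j - C) = 0) ⊆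
          Finset.Ico (Nat.find hex) (Nat.find hex + C) := by
        intro j hj
        rw [Finset.mem_filter] at hj
        rw [Finset.mem_Ico]
        refine ⟨Nat.find_min' hex hj.2.1, ?_⟩
        by_contra hc
        have h3 := ht (show Nat.find hex ≤ j - C by omega)
        omega
      have h3 := Finset.card_le_card h2
      rw [Nat.card_Ico] at h3
      have h4 : Nat.find hex + C - Nat.find hex = C := by omega
      rw [h4] at h3
      exact_mod_cast h3
    · have h2 : (Finset.range (X + 1)).filter (fun j => 0 < t j ∧ t (j - C) = 0) = ∅ := by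
        rw [Finset.filter_eq_empty_iff]
        intro j _ hj
        exact hex ⟨j, hj.1⟩
      rw [h2, Finset.card_empty, Nat.cast_zero]
      positivity
  have hs : ∑ i ∈ Finset.range C, L (X - i) ≤ C * L X := by
    calc ∑ i ∈ Finset.range C, L (X - i) ≤ ∑ _i ∈ Finset.range C, L X :=
          Finset.sum_le_sum fun i _ => hLm _ _ (Nat.sub_le _ _)
      _ = C * L X := by rw [Finset.sum_const, Finset.card_range, nsmul_eq_mul]
  have hE' : (0 : ℝ) ≤ E := by positivity
  have h3 := mul_le_mul_of_nonneg_left hs hE'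
  have h4 : (C : ℝ) * (1 + E * Real.log (t X)) = C + E * (C * L X) := by
    rw [hL]
    ring
  rw [h4]
  linarith

end seq

theorem mulgen {n : ℕ} (G : MvPolynomial (Fin n) ℂ) (A A' B B' : Submodule ℂ (MvPolynomial (Fin n) ℂ))
    [FiniteDimensional ℂ A'] [FiniteDimensional ℂ B'] (hA : A ≤ A') (hB : B ≤ B')
    (h1 : ∀ R ∈ A', G * R ∈ B') (h2 : ∀ R ∈ A', G * R ∈ B → R ∈ A) :
    Module.finrank ℂ B + Module.finrank ℂ A' ≤ Module.finrank ℂ B' + Module.finrank ℂ A := by
  have iB : FiniteDimensional ℂ B := Submodule.finiteDimensional_of_le hB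
  have iA : FiniteDimensional ℂ A := Submodule.finiteDimensional_of_le hA
  let f : (A' × B) →ₗ[ℂ] B' :=
    { toFun := fun x => ⟨G * x.1.1 + x.2.1, B'.add_mem (h1 _ x.1.2) (hB x.2.2)⟩
      map_add' := by
        intro x y
        apply Subtype.ext
        simp only [Prod.fst_add, Prod.snd_add, Submodule.coe_add, mul_add]
        abel
      map_smul' := by
        intro c x
        apply Subtype.ext
        simp only [Prod.smul_fst, Prod.smul_snd, Submodule.coe_smul, RingHom.id_apply, smul_add,
          mul_smul_comm] }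
  have hker : ∀ x ∈ LinearMap.ker f, x.1.1 ∈ A := by
    intro x hx
    rw [LinearMap.mem_ker] at hx
    have h3 : G * x.1.1 + x.2.1 = 0 := congrArg Subtype.val hx
    have h4 : G * x.1.1 = -x.2.1 := eq_neg_of_add_eq_zero_left h3
    refine h2 _ x.1.2 ?_
    rw [h4]
    exact B.neg_mem x.2.2
  let g : LinearMap.ker f →ₗ[ℂ] A :=
    { toFun := fun x => ⟨x.1.1.1, hker x.1 x.2⟩
      map_add' := fun x y => rfl
      map_smul' := fun c x => rfl }
  have hg : Function.Injective g := by
    intro x y hxy
    have e1 : x.1.1.1 = y.1.1.1 := by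
      have h0 : (g x).1 = (g y).1 := by rw [hxy]
      exact h0
    have e2 : G * x.1.1.1 + x.1.2.1 = 0 := by
      have h0 : (f x.1).1 = 0 := by
        rw [LinearMap.mem_ker.1 x.2]
        rfl
      exact h0
    have e3 : G * y.1.1.1 + y.1.2.1 = 0 := by
      have h0 : (f y.1).1 = 0 := by
        rw [LinearMap.mem_ker.1 y.2]
        rfl
      exact h0
    rw [e1, ← e3] at e2
    have e4 : x.1.2.1 = y.1.2.1 := add_left_cancel e2
    apply Subtype.ext
    apply Prod.ext
    · exact Subtype.ext e1
    · exact Subtype.ext e4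
  have e1 := LinearMap.finrank_le_finrank_of_injective hg
  have e2 := LinearMap.finrank_range_add_finrank_ker f
  rw [Module.finrank_prod] at e2
  have e3 : Module.finrank ℂ (LinearMap.range f) ≤ Module.finrank ℂ B' := Submodule.finrank_le _
  omega

theorem van_div {n : ℕ} {ℓ R : MvPolynomial (Fin n) ℂ} {q : Fin n → ℂ} {a : ℕ}
    (hℓ : eval q ℓ ≠ 0) (h : VanishesToOrder (ℓ * R) q a) : VanishesToOrder R q a := by
  have h1 := vanishes_of_mul (a := 0) (A := ℓ) (fun h2 => hℓ (vanishes_one_iff.1 h2)) h
  exact h1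

theorem grow_le {r j : ℕ} {ι : Type*} (p : ι → Fin (r + 1) → ℂ) (hp : ∀ l, p l 0 ≠ 0)
    (w : ι → ℕ) : Module.finrank ℂ (fatForms r (j + 1) p w) +
      Module.finrank ℂ (fatForms r j p fun _ => 0) ≤
      Module.finrank ℂ (fatForms r (j + 1) p fun _ => 0) + Module.finrank ℂ (fatForms r j p w) := by
  have i1 := fin_fatForms r j p fun _ => 0
  have i2 := fin_fatForms r (j + 1) p fun _ => 0
  refine mulgen (X 0) _ _ _ _ (fun F hF => ⟨hF.1, fun l => vanishes_zero _ _⟩)
    (fun F hF => ⟨hF.1, fun l => vanishes_zero _ _⟩) (fun R hR => ⟨?_, fun l => vanishes_zero _ _⟩)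
    fun R hR h => ⟨hR.1, fun l => van_div ?_ (h.2 l)⟩
  · rw [Nat.add_comm j 1]
    exact (isHomogeneous_X ℂ 0).mul hR.1
  · rw [eval_X]
    exact hp l

theorem hom_div {n j : ℕ} {i : Fin n} {R : MvPolynomial (Fin n) ℂ}
    (h : (X i * R).IsHomogeneous (j + 1)) : R.IsHomogeneous j := by
  intro β hβ
  have h1 := @h (Finsupp.single i 1 + β) (by
    rw [coeff_X_mul]
    exact hβ)
  rw [map_add, Finsupp.weight_single] at h1
  have h2 : (1 : ℕ) • (1 : Fin n → ℕ) i = 1 := by simp
  rw [h2] at h1
  omega

theorem grow_mono {s j : ℕ} {ι : Type*} (p : ι → Fin (s + 1 + 1) → ℂ) (hp : ∀ l, p l 0 ≠ 0)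
    (w : ι → ℕ) : 2 * Module.finrank ℂ (fatForms (s + 1) (j + 1) p w) ≤
      Module.finrank ℂ (fatForms (s + 1) (j + 2) p w) +
        Module.finrank ℂ (fatForms (s + 1) j p w) := by
  let μ : MvPolynomial (Fin (s + 1 + 1)) ℂ →ₗ[ℂ] MvPolynomial (Fin (s + 1 + 1)) ℂ :=
    LinearMap.mulLeft ℂ (X 0)
  have hμ : Function.Injective μ := by
    intro a b hab
    exact mul_left_cancel₀ (X_ne_zero 0) hab
  have hfin : ∀ V : Submodule ℂ (MvPolynomial (Fin (s + 1 + 1)) ℂ),
      Module.finrank ℂ (Submodule.map μ V) = Module.finrank ℂ V := fun V =>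
    (Submodule.equivMapOfInjective μ hμ V).finrank_eq.symm
  have hsub : ∀ i, Submodule.map μ (fatForms (s + 1) i p w) ≤ fatForms (s + 1) (i + 1) p w := by
    intro i F hF
    obtain ⟨R, hR, rfl⟩ := hF
    refine ⟨?_, fun l => ?_⟩
    · rw [Nat.add_comm i 1]
      exact (isHomogeneous_X ℂ 0).mul hR.1
    · have h1 := van_mul (vanishes_zero (p l) (X 0)) (hR.2 l)
      rwa [Nat.zero_add] at h1
  have i1 := fin_fatForms (s + 1) (j + 1) p w
  have i2 := fin_fatForms (s + 1) (j + 2) p w
  have h1 := mulgen (X 1) (Submodule.map μ (fatForms (s + 1) j p w)) (fatForms (s + 1) (j + 1) p w)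
    (Submodule.map μ (fatForms (s + 1) (j + 1) p w)) (fatForms (s + 1) (j + 2) p w) (hsub j)
    (hsub (j + 1)) (fun R hR => ⟨?_, fun l => ?_⟩) fun R hR h => ?_
  · rw [hfin, hfin] at h1
    omega
  · have h2 : j + 2 = 1 + (j + 1) := by omega
    rw [h2]
    exact (isHomogeneous_X ℂ 1).mul hR.1
  · have h2 := van_mul (vanishes_zero (p l) (X 1)) (hR.2 l)
    rwa [Nat.zero_add] at h2
  · obtain ⟨F, hF, hFR⟩ := h
    have h2 : X 0 * F = X 1 * R := hFR
    have h3 : (X 0 : MvPolynomial (Fin (s + 1 + 1)) ℂ) ∣ X 1 * R := ⟨F, h2.symm⟩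
    rcases X_dvd_mul_iff.1 h3 with h4 | h4
    · rw [X_dvd_X] at h4
      exact absurd h4 (by simp)
    · obtain ⟨R', rfl⟩ := h4
      refine ⟨R', ⟨?_, fun l => ?_⟩, rfl⟩
      · exact hom_div hR.1
      · exact van_div (by rw [eval_X]; exact hp l) (hR.2 l)

theorem grow_zero {r j : ℕ} {ι : Type*} (p : ι → Fin (r + 1) → ℂ) (w : ι → ℕ) :
    Module.finrank ℂ (fatForms r j p w) ≤ Module.finrank ℂ (fatForms r (j + 1) p w) := by
  have i1 := fin_fatForms r (j + 1) p w
  have i2 := fin_fatForms r j p w
  have h1 := mulgen (X 0) ⊥ (fatForms r j p w) ⊥ (fatForms r (j + 1) p w) bot_le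
    bot_le (fun R hR => ⟨by
      rw [Nat.add_comm j 1]
      exact (isHomogeneous_X ℂ 0).mul hR.1, fun l => by
      have h1 := van_mul (vanishes_zero (p l) (X 0)) (hR.2 l)
      rwa [Nat.zero_add] at h1⟩) fun R _ h => by
      rw [Submodule.mem_bot] at h ⊢
      rcases mul_eq_zero.1 h with h2 | h2
      · exact absurd h2 (X_ne_zero 0)
      · exact h2
  rw [finrank_bot, Nat.zero_add] at h1
  exact h1

end Pool.Agent.H74.CT

end

section

/-!
# Multiplication by a fixed form
-/

namespace Pool.Agent.H74.CT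

open MvPolynomial Pool.Agent.H18.Fat Pool.Agent.H22.LU

theorem mult_stage {r t j e : ℕ} {ι : Type*} (p : ι → Fin (r + 1) → ℂ) (P : ι)
    {G : MvPolynomial (Fin (r + 1)) ℂ} (hG : G.IsHomogeneous e) (hj : e + t = j) (μ : ℕ)
    (hP : VanishesToOrder G (p P) μ) (hPn : ¬ VanishesToOrder G (p P) (μ + 1))
    (w w' m m' : ι → ℕ) (hw : ∀ l, l ≠ P → w l = w' l) (hwP : w' P = w P + 1)
    (hm : ∀ l, l ≠ P → m l = m' l) (hmP : m' P = m P + 1) (hmw : m P = w P + μ)
    (hGl : ∀ l, l ≠ P → VanishesToOrder G (p l) (m l - w l)) :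
    Module.finrank ℂ (fatForms r j p m') + Module.finrank ℂ (fatForms r t p w) ≤
      Module.finrank ℂ (fatForms r j p m) + Module.finrank ℂ (fatForms r t p w') := by
  have i1 := fin_fatForms r j p m
  have i2 := fin_fatForms r j p m'
  have i3 := fin_fatForms r t p w
  have i4 := fin_fatForms r t p w'
  have hGR : ∀ R ∈ fatForms r t p w, G * R ∈ fatForms r j p m := by
    intro R hR
    refine ⟨hj ▸ hG.mul hR.1, fun l => ?_⟩
    by_cases hl : l = P
    · subst hl
      refine van_mono (van_mul hP (hR.2 l)) ?_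
      omega
    · refine van_mono (van_mul (hGl l hl) (hR.2 l)) ?_
      omega
  have hle : fatForms r j p m' ≤ fatForms r j p m := by
    intro F hF
    refine ⟨hF.1, fun l => van_mono (hF.2 l) ?_⟩
    by_cases hl : l = P
    · subst hl
      omega
    · rw [hm l hl]
  let f : (fatForms r t p w × fatForms r j p m') →ₗ[ℂ] fatForms r j p m :=
    { toFun := fun x => ⟨G * x.1.1 + x.2.1, (fatForms r j p m).add_mem
        (hGR _ x.1.2) (hle x.2.2)⟩
      map_add' := by
        intro x y
        apply Subtype.ext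
        simp only [Prod.fst_add, Prod.snd_add, Submodule.coe_add, mul_add]
        abel
      map_smul' := by
        intro c x
        apply Subtype.ext
        simp only [Prod.smul_fst, Prod.smul_snd, Submodule.coe_smul, RingHom.id_apply, smul_add,
          mul_smul_comm] }
  have hker : ∀ x ∈ LinearMap.ker f, x.1.1 ∈ fatForms r t p w' := by
    intro x hx
    rw [LinearMap.mem_ker] at hx
    have h1 : G * x.1.1 + x.2.1 = 0 := congrArg Subtype.val hx
    have h2 : G * x.1.1 = -x.2.1 := eq_neg_of_add_eq_zero_left h1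
    refine ⟨x.1.2.1, fun l => ?_⟩
    by_cases hl : l = P
    · subst hl
      have h3 := ((fatForms r j p m').neg_mem x.2.2).2 l
      rw [← h2] at h3
      have h4 := vanishes_of_mul hPn h3
      refine van_mono h4 ?_
      omega
    · rw [← hw l hl]
      exact x.1.2.2 l
  let g : LinearMap.ker f →ₗ[ℂ] fatForms r t p w' :=
    { toFun := fun x => ⟨x.1.1.1, hker x.1 x.2⟩
      map_add' := fun x y => rfl
      map_smul' := fun c x => rfl }
  have hg : Function.Injective g := by
    intro x y hxy
    have h1 : x.1.1.1 = y.1.1.1 := by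
      have h0 : (g x).1 = (g y).1 := by rw [hxy]
      exact h0
    have h2 : G * x.1.1.1 + x.1.2.1 = 0 := by
      have h0 : (f x.1).1 = 0 := by
        rw [LinearMap.mem_ker.1 x.2]
        rfl
      exact h0
    have h3 : G * y.1.1.1 + y.1.2.1 = 0 := by
      have h0 : (f y.1).1 = 0 := by
        rw [LinearMap.mem_ker.1 y.2]
        rfl
      exact h0
    rw [h1, ← h3] at h2
    have h4 : x.1.2.1 = y.1.2.1 := add_left_cancel h2
    apply Subtype.ext
    apply Prod.ext
    · exact Subtype.ext h1
    · exact Subtype.ext h4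
  have h1 := LinearMap.finrank_le_finrank_of_injective hg
  have h2 := LinearMap.finrank_range_add_finrank_ker f
  rw [Module.finrank_prod] at h2
  have h3 : Module.finrank ℂ (LinearMap.range f) ≤ Module.finrank ℂ (fatForms r j p m) :=
    Submodule.finrank_le _
  omega

end Pool.Agent.H74.CT

end
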