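import Pool.Agent.H94.LP1.H74.CT.Gain_1
import Pool.Agent.H94.LP1.M48
import Pool.Agent.H94.LP1.M62

/-! The parts of this file: H74.CT.Two, H74.CT.Near2, H74.BP.Elem. -/

section

/-!
# General points and the second stage lemma
-/

namespace Pool.Agent.H74.CT

open MvPolynomial Pool.Agent.H18.Fat Pool.Agent.H18.Ub Pool.Agent.H22.LU Finset

theorem general_all {r k : ℕ} {α : Type*} (s : Finset α)
    {P : α → (Fin k → Fin (r + 1) → ℂ) → Prop} (h : ∀ a ∈ s, ForGeneralPoints r k (P a)) :
    ForGeneralPoints r k fun p => ∀ a ∈ s, P a p := by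
  classical
  induction s using Finset.induction_on with
  | empty => exact ⟨1, one_ne_zero, fun p _ a ha => absurd ha (notMem_empty a)⟩
  | insert b s hb ih =>
    have h1 := (h b (mem_insert_self b s)).and (ih fun a ha => h a (mem_insert_of_mem ha))
    refine h1.mono fun p hp a ha => ?_
    rcases mem_insert.1 ha with h2 | h2
    · rw [h2]
      exact hp.1
    · exact hp.2 a h2

theorem general_line {s k : ℕ} {l P : Fin k} (hl : l ≠ P) :
    ForGeneralPoints (s + 1) k fun p => ∃ L : MvPolynomial (Fin (s + 1 + 1)) ℂ,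
      L.IsHomogeneous 1 ∧ VanishesToOrder L (p l) 1 ∧ ¬ VanishesToOrder L (p P) 1 := by
  classical
  refine ⟨X (l, 1) * X (P, 0) - X (l, 0) * X (P, 1), fun h => ?_, fun p hp => ?_⟩
  · have h1 := congrArg (eval fun x : Fin k × Fin (s + 1 + 1) =>
      if x = (l, 1) ∨ x = (P, 0) then (1 : ℂ) else 0) h
    rw [map_sub, map_mul, map_mul, eval_X, eval_X, eval_X, eval_X, map_zero] at h1
    have h2 : ¬ (((l, 0) : Fin k × Fin (s + 1 + 1)) = (l, 1) ∨
        ((l, 0) : Fin k × Fin (s + 1 + 1)) = (P, 0)) := by
      rintro (h3 | h3)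
      · have := congrArg Prod.snd h3
        exact absurd this (by simp)
      · exact hl (congrArg Prod.fst h3)
    rw [if_pos (Or.inl rfl), if_pos (Or.inr rfl), if_neg h2] at h1
    norm_num at h1
  · refine ⟨C (p l 1) * X 0 - C (p l 0) * X 1, ?_, ?_, ?_⟩
    · refine IsHomogeneous.sub ?_ ?_
      · simpa using (isHomogeneous_C _ (p l 1)).mul (isHomogeneous_X ℂ (0 : Fin (s + 1 + 1)))
      · simpa using (isHomogeneous_C _ (p l 0)).mul (isHomogeneous_X ℂ (1 : Fin (s + 1 + 1)))
    · rw [vanishes_one_iff]
      simp only [map_sub, map_mul, eval_C, eval_X]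
      ring
    · rw [vanishes_one_iff]
      simp only [map_sub, map_mul, eval_C, eval_X]
      simp only [map_sub, map_mul, eval_X] at hp
      exact hp

/-- Points in general position. -/
structure Gen (s k N q ν : ℕ) (J : Finset (Fin k)) (p : Fin k → Fin (s + 1 + 1) → ℂ) : Prop where
  sim : ∀ t ≤ N, ∀ w : Fin k → ℕ, (∀ l, w l ≤ N + 1) →
    Module.finrank ℂ (fatForms (s + 1) t p w) = generalDim (s + 1) t w
  line : ∀ P l : Fin k, l ≠ P → ∃ L : MvPolynomial (Fin (s + 1 + 1)) ℂ,
      L.IsHomogeneous 1 ∧ VanishesToOrder L (p l) 1 ∧ ¬ VanishesToOrder L (p P) 1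
  g0 : ∀ P ∈ J, ∃ G : MvPolynomial (Fin (s + 1 + 1)) ℂ, G.IsHomogeneous (2 * q) ∧
      (∀ l ∈ J, l ≠ P → VanishesToOrder G (p l) ν) ∧ ¬ VanishesToOrder G (p P) 1

theorem exists_gen (s k N q ν : ℕ) (J : Finset (Fin k))
    (hpos : ∀ P ∈ J, 1 ≤ generalDim (s + 1) (2 * q) (onu J P ν 0)) :
    ∃ p, Gen s k N q ν J p := by
  classical
  have h1 : ForGeneralPoints (s + 1) k fun p => ∀ t ∈ range (N + 1),
      ∀ w ∈ (univ : Finset (Fin k → Fin (N + 2))),
      Module.finrank ℂ (fatForms (s + 1) t p fun l => (w l : ℕ)) =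
        generalDim (s + 1) t fun l => (w l : ℕ) :=
    general_all _ fun t _ => general_all _ fun w _ => generalDim_spec (s + 1) t _
  have h2 : ForGeneralPoints (s + 1) k fun p => ∀ x ∈ (univ : Finset (Fin k × Fin k)).filter
      (fun x => x.1 ≠ x.2), ∃ L : MvPolynomial (Fin (s + 1 + 1)) ℂ,
      L.IsHomogeneous 1 ∧ VanishesToOrder L (p x.1) 1 ∧ ¬ VanishesToOrder L (p x.2) 1 :=
    general_all _ fun x hx => general_line (mem_filter.1 hx).2
  have h3 : ForGeneralPoints (s + 1) k fun p => ∀ P ∈ J,
      ∃ G : MvPolynomial (Fin (s + 1 + 1)) ℂ, G.IsHomogeneous (2 * q) ∧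
      (∀ l ∈ J, l ≠ P → VanishesToOrder G (p l) ν) ∧ ¬ VanishesToOrder G (p P) 1 :=
    general_all _ fun P hP => exists_G0 J P (hpos P hP)
  obtain ⟨p, hp1, hp2, hp3⟩ := Pool.Agent.H18.Cub.exists_of_general (h1.and (h2.and h3))
  refine ⟨p, ⟨fun t ht w hw => ?_, fun P l hl => ?_, hp3⟩⟩
  · exact hp1 t (mem_range.2 (by omega)) (fun l => ⟨w l, by
      have := hw l
      omega⟩) (mem_univ _)
  · exact hp2 (l, P) (mem_filter.2 ⟨mem_univ _, hl⟩)

/-- Multiplicities `m` on `A`, `i` at `P`, zero elsewhere. -/
def mf {k : ℕ} (A : Finset (Fin k)) (m : Fin k → ℕ) (P : Fin k) (i : ℕ) : Fin k → ℕ :=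
  fun l => if l ∈ A then m l else if l = P then i else 0

/-- Second stage lemma. -/
theorem stage2 {s k N q₀ ν₀ : ℕ} {J : Finset (Fin k)} {p : Fin k → Fin (s + 1 + 1) → ℂ}
    (hp : Gen s k N q₀ ν₀ J p) (c : ℕ)
    (hJ : J.card ≤ ∑ u ∈ range (c + 2 + 1), (s + 1).choose u) {A : Finset (Fin k)} (hAJ : A ⊆ J)
    {P : Fin k} (hPJ : P ∈ J) (hPA : P ∉ A) (m : Fin k → ℕ)
    {G : MvPolynomial (Fin (s + 1 + 1)) ℂ} {g ν μ x i j : ℕ} (hG : G.IsHomogeneous g)
    (hGA : ∀ l ∈ A, VanishesToOrder G (p l) ν) (hGP : VanishesToOrder G (p P) μ)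
    (hGn : ¬ VanishesToOrder G (p P) (μ + 1)) (hj : g + x + c = j) (hjN : j ≤ N)
    (h1 : ∀ a ∈ A, ∀ b ∈ A, a ≠ b → (m a - ν) + (m b - ν) ≤ x)
    (h2 : ∀ a ∈ A, (m a - ν) + i ≤ x) (h3 : 2 * i ≤ x) :
    Module.finrank ℂ (fatForms (s + 1) j p (mf A m P (i + μ + 1))) + (i + s).choose s ≤
      Module.finrank ℂ (fatForms (s + 1) j p (mf A m P (i + μ))) := by
  classical
  -- the form, the multiplicity and the degree
  obtain ⟨G', e, q, t, hG', hGP', hGn', het, hqt, hqx, hiq, hGl⟩ :
      ∃ (G' : MvPolynomial (Fin (s + 1 + 1)) ℂ) (e q t : ℕ), G'.IsHomogeneous e ∧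
      VanishesToOrder G' (p P) μ ∧ ¬ VanishesToOrder G' (p P) (μ + 1) ∧ e + t = j ∧
      2 * q + c ≤ t ∧ q ≤ x ∧ i ≤ q ∧ ∀ l ∈ A, VanishesToOrder G' (p l) (m l - q) := by
    by_cases htop : ∀ a ∈ A, 2 * (m a - ν) ≤ x
    · refine ⟨G, g, x / 2, x + c, hG, hGP, hGn, by omega, by omega, by omega, by omega,
        fun l hl => van_mono (hGA l hl) ?_⟩
      have := htop l hl
      omega
    · push Not at htop
      obtain ⟨a, ha, hax⟩ := htop
      have haP : a ≠ P := fun h => hPA (h ▸ ha)
      obtain ⟨L, hL1, hL2, hL3⟩ := hp.line P a haP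
      have h4 := h2 a ha
      have hLP : eval (p P) L ≠ 0 := fun h => hL3 (vanishes_one_iff.2 h)
      refine ⟨G * L ^ (2 * (m a - ν) - x), g + (2 * (m a - ν) - x), x - (m a - ν),
        2 * (x - (m a - ν)) + c, ?_, ?_, ?_, by omega, le_rfl, by omega, by omega, fun l hl => ?_⟩
      · have h5 := hG.mul (hL1.pow (2 * (m a - ν) - x))
        rwa [one_mul] at h5
      · exact van_mono (van_mul hGP (vanishes_zero (p P) (L ^ (2 * (m a - ν) - x))))
          (Nat.le_add_right _ _)
      · intro h5
        have h6 := vanishes_of_mul hGn h5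
        have h7 : μ + 1 - μ = 1 := by omega
        rw [h7, vanishes_one_iff, map_pow] at h6
        exact pow_ne_zero _ hLP h6
      · by_cases hla : l = a
        · subst hla
          have h5 := van_pow hL2 (2 * (m l - ν) - x)
          refine van_mono (van_mul (hGA l hl) h5) ?_
          omega
        · have h5 := h1 l hl a ha hla
          refine van_mono (van_mul (hGA l hl) (vanishes_zero (p l) (L ^ (2 * (m a - ν) - x)))) ?_
          omega
  have hst := mult_stage p P hG' het μ hGP' hGn' (WW J P q i) (WW J P q (i + 1))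
    (mf A m P (i + μ)) (mf A m P (i + μ + 1)) (fun l hl => by
      unfold WW
      rw [if_neg hl, if_neg hl]) (by
      unfold WW
      rw [if_pos hPJ, if_pos rfl, if_pos hPJ, if_pos rfl]) (fun l hl => by
      unfold mf
      rw [if_neg hl, if_neg hl]) (by
      unfold mf
      rw [if_neg hPA, if_pos rfl, if_neg hPA, if_pos rfl]) (by
      unfold mf WW
      rw [if_neg hPA, if_pos rfl, if_pos hPJ, if_pos rfl]) (fun l hl => by
      unfold mf WW
      by_cases hlA : l ∈ A
      · rw [if_pos hlA, if_pos (hAJ hlA), if_neg hl]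
        exact hGl l hlA
      · rw [if_neg hlA, if_neg hl, Nat.zero_sub]
        exact vanishes_zero _ _)
  have hw : ∀ i', i' ≤ q + 1 → ∀ l, WW J P q i' l ≤ N + 1 := by
    intro i' hi' l
    unfold WW
    split_ifs <;> omega
  rw [hp.sim t (by omega) _ (hw i (by omega)), hp.sim t (by omega) _ (hw (i + 1) (by omega)),
    grid_step s t k c J hPJ hJ q i hqt hiq] at hst
  omega

/-- One point. -/
theorem base {s k N q₀ ν₀ : ℕ} {J : Finset (Fin k)} {p : Fin k → Fin (s + 1 + 1 + 1) → ℂ}
    (hp : Gen (s + 1) k N q₀ ν₀ J p) (P : Fin k) {j n : ℕ} (hn : n ≤ j + 1) (hj : j ≤ N)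
    (m : Fin k → ℕ) (hm : m P = n) :
    Module.finrank ℂ (fatForms (s + 2) j p fun l => if l ∈ ({P} : Finset (Fin k)) then m l else 0) +
      ∑ i ∈ range n, (i + (s + 1)).choose (s + 1) ≤ (j + (s + 2)).choose (s + 2) := by
  classical
  have h1 := upper_fin (s + 2) j k (by omega) m (fun _ _ => 0) {P}
    (fun Q hQ => by
      rw [mem_singleton.1 hQ, hm]
      exact hn) (fun Q hQ i hi => by
      rw [mem_singleton] at hQ
      subst hQ
      refine ⟨?_, Nat.zero_le _, ?_⟩
      · rw [sum_filter, sum_singleton, if_neg fun h => h.1 rfl]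
      · rw [sum_singleton, hm, Nat.mul_zero]
        nlinarith)
  rw [sum_singleton, hm] at h1
  have h2 := hp.sim j hj (fun l => if l ∈ ({P} : Finset (Fin k)) then m l else 0) (fun l => by
    by_cases hl : l ∈ ({P} : Finset (Fin k))
    · rw [if_pos hl, mem_singleton.1 hl, hm]
      omega
    · rw [if_neg hl]
      exact Nat.zero_le _)
  have h3 : ∀ i : ℕ, (i - 0 + (s + 2 - 1)).choose (s + 2 - 1) = (i + (s + 1)).choose (s + 1) :=
    fun i => rfl
  rw [sum_congr rfl fun i _ => h3 i] at h1
  rw [h2]
  exact h1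

/-- Upper bound, from the stages. -/
theorem upper2 {s k N q₀ ν₀ : ℕ} {J : Finset (Fin k)} {p : Fin k → Fin (s + 1 + 1 + 1) → ℂ}
    (hp : Gen (s + 1) k N q₀ ν₀ J p) {j : ℕ} (hj : j ≤ N) (m : Fin k → ℕ) (γ : Fin k → ℕ → ℕ)
    (hmj : ∀ P ∈ J, m P ≤ j + 1)
    (hst : ∀ P ∈ J, ∀ A ⊆ J, P ∉ A → A.Nonempty → (∀ l ∈ A, m P ≤ m l) → ∀ i < m P,
      Module.finrank ℂ (fatForms (s + 2) j p (mf A m P (i + 1))) +
        (i - γ P i + (s + 1)).choose (s + 1) ≤
      Module.finrank ℂ (fatForms (s + 2) j p (mf A m P i))) :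
    Module.finrank ℂ (fatForms (s + 2) j p fun l => if l ∈ J then m l else 0) +
      ∑ P ∈ J, ∑ i ∈ range (m P), (i - γ P i + (s + 1)).choose (s + 1) ≤
      (j + (s + 2)).choose (s + 2) := by
  classical
  have key : ∀ A : Finset (Fin k), A ⊆ J →
      Module.finrank ℂ (fatForms (s + 2) j p fun l => if l ∈ A then m l else 0) +
      ∑ P ∈ A, ∑ i ∈ range (m P), (i - γ P i + (s + 1)).choose (s + 1) ≤
      (j + (s + 2)).choose (s + 2) := by
    intro A
    induction A using Finset.induction_on_min_value m with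
    | empty =>
      intro _
      rw [sum_empty, Nat.add_zero]
      exact finrank_le_mons _ _ _ _
    | insert P A hP hmin ih =>
      intro hAJ
      have hPJ : P ∈ J := hAJ (mem_insert_self P A)
      have hAJ' : A ⊆ J := fun l hl => hAJ (mem_insert_of_mem hl)
      rcases A.eq_empty_or_nonempty with hA | hA
      · subst hA
        have h1 := base hp P (hmj P hPJ) hj m rfl
        rw [sum_insert hP, sum_empty]
        refine le_trans (Nat.add_le_add_left ?_ _) h1
        change ∑ i ∈ range (m P), (i - γ P i + (s + 1)).choose (s + 1) ≤ _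
        refine (sum_le_sum fun i _ => Nat.choose_le_choose _ ?_)
        omega
      · have h1 := ih hAJ'
        have h2 : ∀ n ≤ m P, Module.finrank ℂ (fatForms (s + 2) j p (mf A m P n)) +
            ∑ i ∈ range n, (i - γ P i + (s + 1)).choose (s + 1) ≤
            Module.finrank ℂ (fatForms (s + 2) j p fun l => if l ∈ A then m l else 0) := by
          intro n
          induction n with
          | zero =>
            intro _
            have h3 : mf A m P 0 = fun l => if l ∈ A then m l else 0 := by
              funext l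
              unfold mf
              split_ifs <;> rfl
            rw [h3, range_zero, sum_empty, Nat.add_zero]
          | succ n ihn =>
            intro hn
            have h3 := ihn (by omega)
            have h4 := hst P hPJ A hAJ' hP hA hmin n (by omega)
            rw [sum_range_succ]
            omega
        have h3 := h2 (m P) le_rfl
        have h4 : mf A m P (m P) = fun l => if l ∈ insert P A then m l else 0 := by
          funext l
          unfold mf
          by_cases h5 : l ∈ A
          · rw [if_pos h5, if_pos (mem_insert_of_mem h5)]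
          · by_cases h6 : l = P
            · subst h6
              rw [if_neg h5, if_pos rfl, if_pos (mem_insert_self _ _)]
            · rw [if_neg h5, if_neg h6, if_neg]
              rw [mem_insert]
              tauto
        rw [h4] at h3
        rw [sum_insert hP]
        omega
  exact key J (Subset.refl J)

end Pool.Agent.H74.CT

end

section

/-!
# The dimension in the degrees slightly below `d`: fewer than `2 ^ r` points
-/

namespace Pool.Agent.H74.CT

open MvPolynomial Pool.Agent.H18.Fat Pool.Agent.H18.Ub Pool.Agent.H22.LU Finset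

/-- The number of the extra multiplicities. -/
def kap (s C : ℕ) : ℕ := C + (s + 2)

/-- Half the degree of the extra form. -/
def qq (s C : ℕ) : ℕ := (s + 2) * 2 ^ (s + 2) * (kap s C + (s + 2))

/-- The error. -/
def WE (s C : ℕ) : ℕ := 2 ^ (s + 2) * ((qq s C + kap s C) * (2 * qq s C))

theorem near2 (s C k d D δ : ℕ) (m : Fin k → ℕ) (J : Finset (Fin k)) (hδ : δ ≤ C + 1)
    (hD : 4 * (3 * qq s C + kap s C + s + δ + 1) ≤ D) (hDd : D ≤ d)
    (h1 : ∀ i ∈ J, m i + D ≤ d) (h2 : J.card < 2 ^ (s + 2))
    (h3 : ∀ a ∈ J, ∀ b ∈ J, a ≠ b → m a + m b ≤ d + 1) :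
    (generalDim (s + 2) (d - δ) fun i => if i ∈ J then m i else 0) +
        ∑ i ∈ J, (m i + (s + 2) - 1).choose (s + 2) ≤
      (d - δ + (s + 2)).choose (s + 2) + WE s C * (d + s).choose s := by
  classical
  set κ := kap s C with hκ
  set q := qq s C with hq
  set ν := q + κ with hν
  have hκ1 : κ = C + (s + 2) := rfl
  have hpos : ∀ m' : Fin k → ℕ, (∀ l, l ∉ J → m' l = 0) → (∀ l, m' l ≤ ν) →
      1 ≤ generalDim (s + 1 + 1) (2 * q) m' := by
    intro m' h0 hm'
    exact generalDim_pos (r := s + 2) (κ := κ) (by omega) J h2 m' h0 hm'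
  obtain ⟨p, hp⟩ := exists_gen (s + 1) k d q ν J fun P hP => hpos _ (fun l hl => by
    unfold onu
    rw [if_neg hl]
    split_ifs <;> rfl) fun l => by
    unfold onu
    split_ifs <;> omega
  have hpos1 := hpos (fun l => if l ∈ J then ν else 0) (fun l hl => if_neg hl) fun l => by
    split_ifs <;> omega
  have hJc : J.card ≤ ∑ u ∈ range (s + 2 + 1), (s + 1 + 1).choose u := by
    have h4 : ∑ u ∈ range (s + 2 + 1), (s + 1 + 1).choose u = 2 ^ (s + 2) :=
      Nat.sum_range_choose (s + 2)
    rw [h4]
    exact h2.le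
  set γ : Fin k → ℕ → ℕ := fun P i => if i + ν ≤ m P ∨ 2 * m P ≤ D then 0 else 2 * q with hγ
  have hγi : ∀ P, ∀ i < m P, γ P i ≤ i := by
    intro P i hi
    rw [hγ]
    dsimp only
    split_ifs with h
    · exact Nat.zero_le _
    · push Not at h
      omega
  have hup := upper2 hp (j := d - δ) (Nat.sub_le _ _) m γ (fun P hP => by
    have := h1 P hP
    omega) fun P hP A hAJ hPA hA hmin i hi => by
    obtain ⟨a₀, ha₀⟩ := hA
    have ha₀P : a₀ ≠ P := fun h => hPA (h ▸ ha₀)
    have e1 := h1 a₀ (hAJ ha₀)
    have e2 := hmin a₀ ha₀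
    have e3 := h3 a₀ (hAJ ha₀) P hP ha₀P
    have e4 := h1 P hP
    have hpair : ∀ a ∈ A, ∀ b ∈ A, a ≠ b → (m a - ν) + (m b - ν) ≤ d - δ - 2 * q - s := by
      intro a ha b hb hab
      have f1 := h1 a (hAJ ha)
      have f2 := h1 b (hAJ hb)
      have f3 := h3 a (hAJ ha) b (hAJ hb) hab
      omega
    by_cases hc : i + ν ≤ m P ∨ 2 * m P ≤ D
    · -- no loss
      obtain ⟨G, hG1, hG2, hG3⟩ := hp.g0 P hP
      have h5 := stage2 hp s hJc hAJ hP hPA m (G := G) (g := 2 * q) (ν := ν) (μ := 0)
        (x := d - δ - 2 * q - s) (i := i) (j := d - δ) hG1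
        (fun l hl => hG2 l (hAJ hl) fun h => hPA (h ▸ hl)) (vanishes_zero _ _) hG3 (by omega)
        (Nat.sub_le _ _) hpair (fun a ha => by
          have haP : a ≠ P := fun h => hPA (h ▸ ha)
          have f1 := h1 a (hAJ ha)
          have f2 := hmin a ha
          have f3 := h3 a (hAJ ha) P hP haP
          rcases hc with hc | hc <;> omega) (by
          rcases hc with hc | hc <;> omega)
      have h6 : γ P i = 0 := by
        rw [hγ]
        dsimp only
        rw [if_pos hc]
      rw [h6, Nat.sub_zero]
      exact h5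
    · -- near the boundary
      have h6 : γ P i = 2 * q := by
        rw [hγ]
        dsimp only
        rw [if_neg hc]
      push Not at hc
      obtain ⟨G, μ, hG1, hμ1, hμ2, hG2, hG3, hG4⟩ := exists_G1 J hpos1 p hP
      have h5 := stage2 hp s hJc hAJ hP hPA m (G := G) (g := 2 * q) (ν := ν) (μ := μ)
        (x := d - δ - 2 * q - s) (i := i - μ) (j := d - δ) hG1
        (fun l hl => hG2 l (hAJ hl)) hG3 hG4 (by omega)
        (Nat.sub_le _ _) hpair (fun a ha => by
          have haP : a ≠ P := fun h => hPA (h ▸ ha)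
          have f1 := h1 a (hAJ ha)
          have f2 := hmin a ha
          have f3 := h3 a (hAJ ha) P hP haP
          omega) (by omega)
      have h7 : i - μ + μ = i := by omega
      rw [h7] at h5
      rw [h6]
      refine le_trans (Nat.add_le_add_left (Nat.choose_le_choose _ ?_) _) h5
      omega
  have h4 : (generalDim (s + 2) (d - δ) fun i => if i ∈ J then m i else 0) ≤
      Module.finrank ℂ (fatForms (s + 2) (d - δ) p fun l => if l ∈ J then m l else 0) :=
    Nat.sInf_le ⟨p, rfl⟩
  have h5 : ∑ i ∈ J, (m i + (s + 2) - 1).choose (s + 2) ≤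
      ∑ P ∈ J, ∑ i ∈ range (m P), (i - γ P i + (s + 1)).choose (s + 1) +
      ∑ P ∈ J, ∑ i ∈ range (m P), γ P i * (i + s).choose s := by
    rw [← sum_add_distrib]
    refine sum_le_sum fun P hP => ?_
    rw [← hockey, ← sum_add_distrib]
    refine sum_le_sum fun i hi => ?_
    rw [mem_range] at hi
    exact choose_drop s i _ (hγi P i hi)
  have h6 : ∑ P ∈ J, ∑ i ∈ range (m P), γ P i * (i + s).choose s ≤
      WE s C * (d + s).choose s := by
    have hinner : ∀ P ∈ J, ∑ i ∈ range (m P), γ P i * (i + s).choose s ≤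
        ν * (2 * q * (d + s).choose s) := by
      intro P hP
      have hterm : ∀ i ∈ range (m P), γ P i * (i + s).choose s ≤
          if m P < i + ν then 2 * q * (d + s).choose s else 0 := by
        intro i hi
        rw [mem_range] at hi
        have e4 := h1 P hP
        by_cases hc : i + ν ≤ m P ∨ 2 * m P ≤ D
        · have h6 : γ P i = 0 := by
            rw [hγ]
            dsimp only
            rw [if_pos hc]
          rw [h6, Nat.zero_mul]
          exact Nat.zero_le _
        · have h6 : γ P i = 2 * q := by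
            rw [hγ]
            dsimp only
            rw [if_neg hc]
          push Not at hc
          rw [h6, if_pos hc.1]
          exact Nat.mul_le_mul_left _ (Nat.choose_le_choose _ (by omega))
      refine (sum_le_sum hterm).trans ?_
      rw [← sum_filter, sum_const, smul_eq_mul]
      refine Nat.mul_le_mul_right _ ?_
      have h5 : (range (m P)).filter (fun i => m P < i + ν) ⊆ Ico (m P - ν) (m P) := by
        intro i hi
        rw [mem_filter, mem_range] at hi
        rw [mem_Ico]
        omega
      refine (card_le_card h5).trans ?_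
      rw [Nat.card_Ico]
      omega
    calc ∑ P ∈ J, ∑ i ∈ range (m P), γ P i * (i + s).choose s ≤
        ∑ _P ∈ J, ν * (2 * q * (d + s).choose s) := sum_le_sum hinner
      _ = J.card * (ν * (2 * q * (d + s).choose s)) := by rw [sum_const, smul_eq_mul]
      _ ≤ 2 ^ (s + 2) * (ν * (2 * q * (d + s).choose s)) := Nat.mul_le_mul_right _ h2.le
      _ = 2 ^ (s + 2) * (ν * (2 * q)) * (d + s).choose s := by ring
      _ = _ := rfl
  have hup' : Module.finrank ℂ (fatForms (s + 2) (d - δ) p fun l => if l ∈ J then m l else 0) +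
      ∑ P ∈ J, ∑ i ∈ range (m P), (i - γ P i + (s + 1)).choose (s + 1) ≤
      (d - δ + (s + 2)).choose (s + 2) := hup
  omega

/-- The exact dimension. -/
theorem exact2 (s c k d : ℕ) (m : Fin k → ℕ) (J : Finset (Fin k)) (hcd : c ≤ d)
    (h1 : ∀ i ∈ J, m i ≤ d + 1)
    (h2 : J.card ≤ ∑ u ∈ range (c + 2 + 1), (s + 2).choose u)
    (h3 : ∀ a ∈ J, ∀ b ∈ J, a ≠ b → m a + m b + c ≤ d) :
    (generalDim (s + 2) d fun i => if i ∈ J then m i else 0) +
        ∑ i ∈ J, (m i + (s + 2) - 1).choose (s + 2) ≤
      (d + (s + 2)).choose (s + 2) := by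
  classical
  obtain ⟨p, hp⟩ := exists_gen (s + 1) k d 0 0 J fun P hP => by
    have h4 := generalDim_ge (r := s + 1 + 1) (by omega) (2 * 0) (onu J P 0 0)
    have h5 : ∀ i, ((onu J P 0 0 i + (s + 1 + 1) - 1).choose (s + 1 + 1) : ℤ) = 0 := by
      intro i
      have h6 : onu J P 0 0 i = 0 := by
        unfold onu
        split_ifs <;> rfl
      rw [h6, Nat.choose_eq_zero_of_lt (by omega)]
      rfl
    rw [sum_congr rfl fun i _ => h5 i, sum_const_zero, Nat.mul_zero, Nat.zero_add,
      Nat.choose_self] at h4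
    rw [Nat.mul_zero]
    omega
  have hup := upper2 hp (j := d) le_rfl m (fun _ _ => 0) (fun P hP => h1 P hP)
    fun P hP A hAJ hPA hA hmin i hi => by
    obtain ⟨a₀, ha₀⟩ := hA
    have ha₀P : a₀ ≠ P := fun h => hPA (h ▸ ha₀)
    have e2 := hmin a₀ ha₀
    have e3 := h3 a₀ (hAJ ha₀) P hP ha₀P
    have h5 := stage2 hp c h2 hAJ hP hPA m (G := 1) (g := 0) (ν := 0) (μ := 0)
      (x := d - c) (i := i) (j := d) (isHomogeneous_one _ _)
      (fun l hl => vanishes_zero _ _) (vanishes_zero _ _) (by
        rw [vanishes_one_iff, map_one]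
        exact one_ne_zero) (by omega)
      le_rfl (fun a ha b hb hab => by
        have f3 := h3 a (hAJ ha) b (hAJ hb) hab
        omega) (fun a ha => by
        have haP : a ≠ P := fun h => hPA (h ▸ ha)
        have f2 := hmin a ha
        have f3 := h3 a (hAJ ha) P hP haP
        omega) (by omega)
    exact h5
  have h4 : (generalDim (s + 2) d fun i => if i ∈ J then m i else 0) ≤
      Module.finrank ℂ (fatForms (s + 2) d p fun l => if l ∈ J then m l else 0) :=
    Nat.sInf_le ⟨p, rfl⟩
  have h5 : ∑ i ∈ J, (m i + (s + 2) - 1).choose (s + 2) =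
      ∑ P ∈ J, ∑ i ∈ range (m P), (i - 0 + (s + 1)).choose (s + 1) := by
    refine sum_congr rfl fun P hP => ?_
    rw [← hockey]
    rfl
  rw [h5]
  exact le_trans (Nat.add_le_add_right h4 _) hup

end Pool.Agent.H74.CT

end

section

/-!
# The elementary two-sided bound

If some form of degree `e` has the given multiplicities, then a further general point of multiplicity at
most `d - e + 1` imposes independent conditions in degree `d`.  Hence points of multiplicity at most `M`,
of total length `S`, impose independent conditions on the forms of degree `d` with multiplicities `m` on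
`J`, if `S ≤ h(d - M + 1)`, and no such form has them, if `S ≥ h(d + M - 1)`.
-/

namespace Pool.Agent.H74.BP

open MvPolynomial Pool.Agent.H18.Fat Pool.Agent.H18.Ub Pool.Agent.H22.LU Pool.Agent.H74.CT

/-- Larger multiplicities, smaller dimension. -/
theorem generalDim_anti {r d k : ℕ} {w w' : Fin k → ℕ} (h : ∀ i, w i ≤ w' i) :
    generalDim r d w' ≤ generalDim r d w := by
  obtain ⟨p, hp1, hp2⟩ := Pool.Agent.H18.Cub.exists_of_general
    ((generalDim_spec r d w).and (generalDim_spec r d w'))
  rw [← hp1, ← hp2]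
  have := fin_fatForms r d p w
  exact Submodule.finrank_mono fun F hF => ⟨hF.1, fun i => van_mono (hF.2 i) (h i)⟩

theorem generalDim_up (r j : ℕ) {k : ℕ} (w : Fin k → ℕ) :
    generalDim r j w ≤ generalDim r (j + 1) w := by
  obtain ⟨p, hp2, hp3⟩ := Pool.Agent.H18.Cub.exists_of_general
    ((generalDim_spec r j w).and (generalDim_spec r (j + 1) w))
  rw [← hp2, ← hp3]
  exact grow_zero p w

theorem generalDim_deg {r k : ℕ} (w : Fin k → ℕ) : Monotone fun j => generalDim r j w :=
  monotone_nat_of_le_succ fun j => generalDim_up r j w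

theorem simple_lt {r e k : ℕ} (w : Fin k → ℕ) (P : Fin k) (hP : w P = 0)
    (hpos : 1 ≤ generalDim r e w) :
    generalDim r e (Function.update w P 1) < generalDim r e w := by
  classical
  obtain ⟨p₀, hp₀⟩ := Pool.Agent.H18.Cub.exists_of_general (generalDim_spec r e w)
  have hne : fatForms r e p₀ w ≠ ⊥ := by
    intro h
    rw [h, finrank_bot] at hp₀
    omega
  obtain ⟨F, hF, hF0⟩ := Submodule.exists_mem_ne_zero_of_ne_bot hne
  obtain ⟨x, hx⟩ : ∃ x, eval x F ≠ 0 := by
    by_contra hall
    push Not at hall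
    apply hF0
    apply MvPolynomial.funext
    intro x
    rw [hall x, map_zero]
  set p' : Fin k → Fin (r + 1) → ℂ := Function.update p₀ P x with hp'
  have heq : fatForms r e p' w = fatForms r e p₀ w := by
    have h1 : ∀ (G : MvPolynomial (Fin (r + 1)) ℂ) (l : Fin k),
        VanishesToOrder G (p' l) (w l) ↔ VanishesToOrder G (p₀ l) (w l) := by
      intro G l
      by_cases hl : l = P
      · rw [hl, hP]
        exact ⟨fun _ => vanishesToOrder_zero _ _, fun _ => vanishesToOrder_zero _ _⟩
      · rw [hp', Function.update_of_ne hl]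
    ext G
    exact ⟨fun h => ⟨h.1, fun l => (h1 G l).1 (h.2 l)⟩, fun h => ⟨h.1, fun l => (h1 G l).2 (h.2 l)⟩⟩
  have hsub : fatForms r e p' (Function.update w P 1) < fatForms r e p' w := by
    refine lt_of_le_of_ne (fun G hG => ⟨hG.1, fun l => van_mono (hG.2 l) ?_⟩) fun h => ?_
    · by_cases hl : l = P
      · rw [hl, hP]
        exact Nat.zero_le _
      · rw [Function.update_of_ne hl]
    · have h1 : F ∈ fatForms r e p' (Function.update w P 1) := by
        rw [h, heq]
        exact hF
      have h2 := h1.2 P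
      rw [Function.update_self, vanishesToOrder_one, hp', Function.update_self] at h2
      exact hx h2
  have hfin := fin_fatForms r e p' w
  have h1 := Submodule.finrank_lt_finrank_of_lt hsub
  rw [heq, hp₀] at h1
  exact lt_of_le_of_lt (Nat.sInf_le ⟨p', rfl⟩) h1

/-- A form with the given multiplicities, not vanishing at a further point. -/
theorem exists_form {r e k : ℕ} (w : Fin k → ℕ) (P : Fin k) (hP : w P = 0)
    (hpos : 1 ≤ generalDim r e w) :
    ForGeneralPoints r k fun p => ∃ G ∈ fatForms r e p w, eval (p P) G ≠ 0 := by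
  classical
  refine ((generalDim_spec r e (Function.update w P 1)).and (generalDim_spec r e w)).mono
    fun p hp => ?_
  obtain ⟨hp1, hp2⟩ := hp
  by_contra hcon
  push Not at hcon
  have h1 : fatForms r e p w ≤ fatForms r e p (Function.update w P 1) := by
    intro G hG
    refine ⟨hG.1, fun l => ?_⟩
    by_cases hl : l = P
    · rw [hl, Function.update_self, vanishesToOrder_one]
      exact hcon G hG
    · rw [Function.update_of_ne hl]
      exact hG.2 l
  have hfin := fin_fatForms r e p (Function.update w P 1)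
  have h2 := Submodule.finrank_mono h1
  rw [hp1, hp2] at h2
  have h3 := simple_lt w P hP hpos
  omega

/-- A further point imposes independent conditions. -/
theorem add_point (s k d e a : ℕ) (w : Fin k → ℕ) (P : Fin k) (hP : w P = 0)
    (he : 1 ≤ generalDim (s + 2) e w) (hd : e + a ≤ d + 1) :
    generalDim (s + 2) d (Function.update w P a) + (a + (s + 2) - 1).choose (s + 2) ≤
      generalDim (s + 2) d w := by
  classical
  rcases Nat.eq_zero_or_pos a with ha | ha
  · subst ha
    rw [Nat.choose_eq_zero_of_lt (by omega), Nat.add_zero]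
    refine generalDim_anti fun i => ?_
    by_cases hi : i = P
    · rw [hi, hP]
      exact Nat.zero_le _
    · rw [Function.update_of_ne hi]
  obtain ⟨t, rfl⟩ : ∃ t, d = e + t := ⟨d - e, by omega⟩
  obtain ⟨p, ⟨G, hG, hGP⟩, hp1, hp2, hp3⟩ := Pool.Agent.H18.Cub.exists_of_general
    ((exists_form w P hP he).and ((generalDim_spec (s + 2) (e + t) (Function.update w P a)).and
      ((generalDim_spec (s + 2) (e + t) w).and
        (generalDim_spec (s + 2) t fun l => if l ∈ ({P} : Finset (Fin k)) then a else 0))))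
  have i1 := fin_fatForms (s + 2) t p fun _ => 0
  have i2 := fin_fatForms (s + 2) (e + t) p w
  have h1 := mulgen G (fatForms (s + 2) t p fun l => if l ∈ ({P} : Finset (Fin k)) then a else 0)
    (fatForms (s + 2) t p fun _ => 0) (fatForms (s + 2) (e + t) p (Function.update w P a))
    (fatForms (s + 2) (e + t) p w) (fun R hR => ⟨hR.1, fun l => vanishes_zero _ _⟩)
    (fun R hR => ⟨hR.1, fun l => van_mono (hR.2 l) (by
      by_cases hl : l = P
      · rw [hl, hP]
        exact Nat.zero_le _
      · rw [Function.update_of_ne hl])⟩)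
    (fun R hR => ⟨hG.1.mul hR.1, fun l => van_mul (hG.2 l) (vanishes_zero (p l) R)⟩)
    fun R hR h => ⟨hR.1, fun l => by
      dsimp only
      by_cases hl : l = P
      · subst hl
        rw [if_pos (Finset.mem_singleton_self l)]
        have h2 := h.2 l
        rw [Function.update_self] at h2
        exact van_div hGP h2
      · rw [if_neg fun h2 => hl (Finset.mem_singleton.1 h2)]
        exact vanishes_zero _ _⟩
  rw [hp1, hp2, hp3] at h1
  have h3 : (t + (s + 2)).choose (s + 2) ≤
      Module.finrank ℂ (fatForms (s + 2) t p fun _ => 0) := by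
    have h4 := generalDim_ge (r := s + 2) (by omega) t (fun _ : Fin k => 0)
    have h5 : ∀ i : Fin k, ((0 + (s + 2) - 1).choose (s + 2) : ℤ) = 0 := by
      intro i
      rw [Nat.choose_eq_zero_of_lt (by omega)]
      rfl
    have h6 : generalDim (s + 2) t (fun _ : Fin k => 0) ≤
        Module.finrank ℂ (fatForms (s + 2) t p fun _ => 0) := Nat.sInf_le ⟨p, rfl⟩
    rw [Finset.sum_congr rfl fun i _ => h5 i, Finset.sum_const_zero] at h4
    omega
  have h4 := exact2 s 0 k t (fun _ => a) {P} (Nat.zero_le _) (fun i _ => by omega) (by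
    rw [Finset.card_singleton]
    have := Finset.single_le_sum (f := fun u => (s + 2).choose u) (fun _ _ => Nat.zero_le _)
      (Finset.mem_range.2 (show 0 < 0 + 2 + 1 by omega))
    rw [Nat.choose_zero_right] at this
    exact this) (fun x hx y hy hxy => by
    rw [Finset.mem_singleton] at hx hy
    exact absurd (hx.trans hy.symm) hxy)
  rw [Finset.sum_singleton] at h4
  omega

section sum

variable {k : ℕ}

/-- The multiplicities on `J`. -/
theorem on_union (m : Fin k → ℕ) (J A : Finset (Fin k)) (P : Fin k) (hPJ : P ∉ J) (hPA : P ∉ A) :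
    (fun i => if i ∈ J ∪ insert P A then m i else 0) =
      Function.update (fun i => if i ∈ J ∪ A then m i else 0) P (m P) := by
  classical
  funext i
  by_cases hi : i = P
  · subst hi
    rw [Function.update_self, if_pos (Finset.mem_union_right _ (Finset.mem_insert_self _ _))]
  · rw [Function.update_of_ne hi]
    have : i ∈ J ∪ insert P A ↔ i ∈ J ∪ A := by
      rw [Finset.mem_union, Finset.mem_union, Finset.mem_insert]
      tauto
    simp only [this]

theorem dim_lower {r : ℕ} (hr : 1 ≤ r) (d : ℕ) (m : Fin k → ℕ) (J A : Finset (Fin k))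
    (hA : Disjoint J A) :
    (generalDim r d fun i => if i ∈ J then m i else 0) ≤
      (generalDim r d fun i => if i ∈ J ∪ A then m i else 0) +
        ∑ i ∈ A, (m i + r - 1).choose r := by
  classical
  obtain ⟨p, hp0, hp1, hp2⟩ := Pool.Agent.H18.Cub.exists_of_general
    ((Pool.Agent.H18.Pr.general_ne_zero r k).and
      ((generalDim_spec r d fun i => if i ∈ J then m i else 0).and
        (generalDim_spec r d fun i => if i ∈ J ∪ A then m i else 0)))
  have h1 := finrank_ge_add (r := r) (d := d) hr hp0 (fun i => if i ∈ J ∪ A then m i else 0) J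
  have h2 : (fun i => if i ∈ J then (if i ∈ J ∪ A then m i else 0) else 0) =
      fun i => if i ∈ J then m i else 0 := by
    funext i
    by_cases hi : i ∈ J
    · rw [if_pos hi, if_pos hi, if_pos (Finset.mem_union_left _ hi)]
    · rw [if_neg hi, if_neg hi]
  have h3 : ∑ i ∈ Finset.univ.filter (fun i => i ∉ J),
      (((if i ∈ J ∪ A then m i else 0) + r - 1).choose r : ℤ) =
        ((∑ i ∈ A, (m i + r - 1).choose r : ℕ) : ℤ) := by
    push_cast
    have h4 : A ⊆ Finset.univ.filter (fun i => i ∉ J) := fun i hi =>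
      Finset.mem_filter.2 ⟨Finset.mem_univ _, fun h => Finset.disjoint_left.1 hA h hi⟩
    rw [← Finset.sum_subset h4]
    · refine Finset.sum_congr rfl fun i hi => ?_
      rw [if_pos (Finset.mem_union_right _ hi)]
    · intro i hi1 hi2
      rw [Finset.mem_filter] at hi1
      rw [if_neg (by
        rw [Finset.mem_union]
        rintro (h3 | h3)
        · exact hi1.2 h3
        · exact hi2 h3), Nat.choose_eq_zero_of_lt (by omega)]
      rfl
  rw [h2, hp1, hp2, h3] at h1
  omega

/-- Independent conditions. -/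
theorem elem_below (s d e M : ℕ) (m : Fin k → ℕ) (J A : Finset (Fin k)) (hA : Disjoint J A)
    (hM : ∀ i ∈ A, m i ≤ M) (hde : e + M ≤ d + 1)
    (hS : ∑ i ∈ A, (m i + (s + 2) - 1).choose (s + 2) ≤
      generalDim (s + 2) e fun i => if i ∈ J then m i else 0) :
    (generalDim (s + 2) d fun i => if i ∈ J ∪ A then m i else 0) +
        ∑ i ∈ A, (m i + (s + 2) - 1).choose (s + 2) =
      generalDim (s + 2) d fun i => if i ∈ J then m i else 0 := by
  classical
  induction A using Finset.induction_on with
  | empty =>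
    rw [Finset.union_empty, Finset.sum_empty, Nat.add_zero]
  | insert P A hP ih =>
    rw [Finset.disjoint_insert_right] at hA
    rw [Finset.sum_insert hP] at hS ⊢
    have ih' := ih hA.2 (fun i hi => hM i (Finset.mem_insert_of_mem hi)) (by omega)
    have hlow := dim_lower (r := s + 2) (by omega) d m J (insert P A)
      (Finset.disjoint_insert_right.2 hA)
    rw [Finset.sum_insert hP] at hlow
    refine le_antisymm ?_ hlow
    rw [on_union m J A P hA.1 hP]
    rcases Nat.eq_zero_or_pos (m P) with h0 | h0
    · have h1 : (m P + (s + 2) - 1).choose (s + 2) = 0 := Nat.choose_eq_zero_of_lt (by omega)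
      have h2 : (generalDim (s + 2) d
          (Function.update (fun i => if i ∈ J ∪ A then m i else 0) P (m P))) ≤
          generalDim (s + 2) d fun i => if i ∈ J ∪ A then m i else 0 := by
        refine generalDim_anti fun i => ?_
        by_cases hi : i = P
        · rw [hi, Function.update_self]
          split_ifs <;> omega
        · rw [Function.update_of_ne hi]
      omega
    · have h1 : 1 ≤ (m P + (s + 2) - 1).choose (s + 2) := Nat.choose_pos (by omega)
      have h2 := dim_lower (r := s + 2) (by omega) e m J A hA.2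
      have h3 := add_point s k d e (m P) (fun i => if i ∈ J ∪ A then m i else 0) P
        (if_neg (by
          rw [Finset.mem_union]
          rintro (h | h)
          · exact hA.1 h
          · exact hP h)) (by omega) (by
        have := hM P (Finset.mem_insert_self P A)
        omega)
      omega

/-- Independent conditions in the degree `D`, if `V_d` is not zero. -/
theorem elem_above (s d D M : ℕ) (m : Fin k → ℕ) (J A : Finset (Fin k)) (hA : Disjoint J A)
    (hM : ∀ i ∈ A, m i ≤ M) (hdD : d + M ≤ D + 1)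
    (hpos : 1 ≤ generalDim (s + 2) d fun i => if i ∈ J ∪ A then m i else 0) :
    (generalDim (s + 2) D fun i => if i ∈ J ∪ A then m i else 0) +
        ∑ i ∈ A, (m i + (s + 2) - 1).choose (s + 2) =
      generalDim (s + 2) D fun i => if i ∈ J then m i else 0 := by
  classical
  induction A using Finset.induction_on with
  | empty =>
    rw [Finset.union_empty, Finset.sum_empty, Nat.add_zero]
  | insert P A hP ih =>
    rw [Finset.disjoint_insert_right] at hA
    have hpos' : 1 ≤ generalDim (s + 2) d fun i => if i ∈ J ∪ A then m i else 0 := by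
      refine hpos.trans (generalDim_anti fun i => ?_)
      by_cases hi : i ∈ J ∪ A
      · have h1 : i ∈ J ∪ insert P A := by
          rw [Finset.mem_union] at hi ⊢
          rcases hi with hi | hi
          · exact Or.inl hi
          · exact Or.inr (Finset.mem_insert_of_mem hi)
        rw [if_pos hi, if_pos h1]
      · rw [if_neg hi]
        exact Nat.zero_le _
    have ih' := ih hA.2 (fun i hi => hM i (Finset.mem_insert_of_mem hi)) hpos'
    have hlow := dim_lower (r := s + 2) (by omega) D m J (insert P A)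
      (Finset.disjoint_insert_right.2 hA)
    rw [Finset.sum_insert hP] at hlow ⊢
    refine le_antisymm ?_ hlow
    rw [on_union m J A P hA.1 hP]
    have h3 := add_point s k D d (m P) (fun i => if i ∈ J ∪ A then m i else 0) P
      (if_neg (by
        rw [Finset.mem_union]
        rintro (h | h)
        · exact hA.1 h
        · exact hP h)) hpos' (by
      have := hM P (Finset.mem_insert_self P A)
      omega)
    omega

end sum

end Pool.Agent.H74.BP

end
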