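import Mathlib

/-! The parts of this file: H18.Ex.Defs, H18.Ex.Tay. -/

section

/-!
# Horace-type induction for forms with prescribed exponents: definitions

`ι` is the finite set of (homogeneous) variables.  A form is given by its coefficient function
`f : (ι → ℕ) → R`, of which only the values on a finite set `A` of exponents matter.
-/

namespace Pool.Agent.H18.Ex

open Finset

/-! ### Geometry -/

/-- `binom(m + n - 1, n)`, the length of a point of multiplicity `m` in dimension `n`. -/
def ell (n m : ℕ) : ℕ := (m + n - 1).choose n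

section

variable {ι : Type} [Fintype ι] [DecidableEq ι]

/-- The `b`-th Taylor (Hasse) coefficient of the monomial `x^a` at the point `q`. -/
def tcr {R : Type*} [CommRing R] (q : ι → R) (a b : ι → ℕ) : R :=
  ∏ i, (((a i).choose (b i) : ℕ) : R) * q i ^ (a i - b i)

end

/-- The kinds of conditions.  `free m`: vanishing to order `m` at a general point.
`forced l c e`: the conditions with multi-index `b`, `|b| < c`, `b l + e ≤ c` at a general point
of the hyperplane `x_l = 0` (for `e = 1` this is vanishing to order `c` there). -/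
inductive Kind (ι : Type) : Type where
  | free (m : ℕ) : Kind ι
  | forced (l : ι) (c e : ℕ) : Kind ι

section

variable {ι : Type} [Fintype ι] [DecidableEq ι]

/-- The actual point of a condition: for `forced l` the `l`-th coordinate is replaced by `0`. -/
def Kind.pt {R : Type*} [Zero R] (k : Kind ι) (q : ι → R) : ι → R :=
  match k with
  | .free _ => q
  | .forced l _ _ => Function.update q l 0

/-- The multi-indices of a condition. -/
def Kind.Idx (k : Kind ι) (b : ι → ℕ) : Prop :=
  match k with
  | .free m => ∑ i, b i < m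
  | .forced l c e => ∑ i, b i < c ∧ b l + e ≤ c

/-- The form with coefficients `f` (on `A`) satisfies the condition `k` at the point `q`. -/
def Sat {R : Type*} [CommRing R] (A : Finset (ι → ℕ)) (f : (ι → ℕ) → R) (k : Kind ι)
    (q : ι → R) : Prop :=
  ∀ b, k.Idx b → ∑ a ∈ A, f a * tcr (k.pt q) a b = 0

/-- At the positions `pos` only the zero form satisfies all conditions. -/
def InjAt {κ : Type} (A : Finset (ι → ℕ)) (k : κ → Kind ι) (pos : κ → ι → ℂ) : Prop :=
  ∀ f : (ι → ℕ) → ℂ, (∀ i, Sat A f (k i) (pos i)) → ∀ a ∈ A, f a = 0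

/-- At some (equivalently, at general) positions only the zero form satisfies all conditions. -/
def GI {κ : Type} (A : Finset (ι → ℕ)) (k : κ → Kind ι) : Prop :=
  ∃ pos : κ → ι → ℂ, InjAt A k pos

/-- The condition is not forced to the hyperplane `x_l = 0`. -/
def Kind.NotAt (l : ι) (k : Kind ι) : Prop :=
  match k with
  | .free _ => True
  | .forced l' _ _ => l' ≠ l

end

section

variable {ι : Type}

end

/-! ### Configurations -/

section

variable {ι : Type}

end

/-! ### Regions -/

section

variable {ι : Type} [Fintype ι] [DecidableEq ι]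

/-- The region `{x ∈ ℕ^ι : |x| = σ, x ≤ w}`. -/
def Rg (σ : ℕ) (w : ι → ℕ) : Finset (ι → ℕ) :=
  (Fintype.piFinset fun i => range (w i + 1)).filter fun a => ∑ i, a i = σ

theorem mem_Rg {σ : ℕ} {w : ι → ℕ} {a : ι → ℕ} :
    a ∈ Rg σ w ↔ (∀ i, a i ≤ w i) ∧ ∑ i, a i = σ := by
  unfold Rg
  rw [mem_filter, Fintype.mem_piFinset]
  simp only [mem_range, Nat.lt_succ_iff]

/-- The number of exponents of the region with `x_l = 0`. -/
def fc (σ : ℕ) (w : ι → ℕ) (l : ι) : ℕ := (Rg σ (Function.update w l 0)).card

end

end Pool.Agent.H18.Ex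

end

section

/-!
# Module Tay: Taylor coefficients, traces and residuals

Throughout `A'` is the residual of `A` along `x_l = 0`: `a ∈ A' ↔ a + e_l ∈ A`.
-/

namespace Pool.Agent.H18.Ex

open Finset

variable {ι : Type} [Fintype ι] [DecidableEq ι] {R : Type*} [CommRing R]

/-- Splitting off the factor of the coordinate `l`. -/
lemma tcr_eq (q : ι → R) (a b : ι → ℕ) (l : ι) :
    tcr q a b = (((a l).choose (b l) : ℕ) : R) * q l ^ (a l - b l) *
      ∏ i ∈ univ.erase l, (((a i).choose (b i) : ℕ) : R) * q i ^ (a i - b i) := by
  unfold tcr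
  rw [mul_prod_erase univ (fun i => (((a i).choose (b i) : ℕ) : R) * q i ^ (a i - b i))
    (mem_univ l)]

/-- The product of the other factors only depends on the other coordinates. -/
lemma rest_congr {q q' : ι → R} {a a' b b' : ι → ℕ} {l : ι} (hq : ∀ i, i ≠ l → q i = q' i)
    (ha : ∀ i, i ≠ l → a i = a' i) (hb : ∀ i, i ≠ l → b i = b' i) :
    ∏ i ∈ univ.erase l, (((a i).choose (b i) : ℕ) : R) * q i ^ (a i - b i) =
      ∏ i ∈ univ.erase l, (((a' i).choose (b' i) : ℕ) : R) * q' i ^ (a' i - b' i) := by
  apply prod_congr rfl
  intro i hi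
  have h := ne_of_mem_erase hi
  rw [hq i h, ha i h, hb i h]

omit [Fintype ι] in
lemma update_other {β : Type} (f : ι → β) (l : ι) (v : β) : ∀ i, i ≠ l → Function.update f l v i = f i :=
  fun _ hi => Function.update_of_ne hi _ _

omit [Fintype ι] in
lemma sum_shift (A A' : Finset (ι → ℕ)) (l : ι)
    (hA : ∀ a, a ∈ A' ↔ Function.update a l (a l + 1) ∈ A) (g : (ι → ℕ) → R)
    (hg : ∀ a ∈ A, a l = 0 → g a = 0) :
    ∑ a ∈ A, g a = ∑ a ∈ A', g (Function.update a l (a l + 1)) := by
  symm
  apply sum_of_injOn (fun a => Function.update a l (a l + 1))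
  · intro a _ a' _ h
    funext i
    have h1 : Function.update a l (a l + 1) i = Function.update a' l (a' l + 1) i := congrFun h i
    by_cases hi : i = l
    · subst hi
      simp only [Function.update_self] at h1
      omega
    · rwa [Function.update_of_ne hi, Function.update_of_ne hi] at h1
  · intro a ha
    exact (hA a).mp ha
  · intro a ha hna
    apply hg a ha
    by_contra h0
    apply hna
    have h1 : Function.update (Function.update a l (a l - 1)) l
        (Function.update a l (a l - 1) l + 1) = a := by
      rw [Function.update_self, Function.update_idem, Nat.sub_add_cancel (Nat.pos_of_ne_zero h0),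
        Function.update_eq_self]
    refine ⟨Function.update a l (a l - 1), ?_, h1⟩
    rw [mem_coe, hA, h1]
    exact ha
  · intro a _
    rfl

lemma tcr_up_up (q : ι → R) (a b : ι → ℕ) (l : ι) :
    tcr q (Function.update a l (a l + 1)) (Function.update b l (b l + 1)) =
      q l * tcr q a (Function.update b l (b l + 1)) + tcr q a b := by
  rw [tcr_eq q (Function.update a l (a l + 1)) _ l, tcr_eq q a (Function.update b l (b l + 1)) l,
    tcr_eq q a b l,
    rest_congr (q' := q) (a' := a) (b' := b) (fun _ _ => rfl)
      (update_other a l _) (update_other b l _),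
    rest_congr (q' := q) (a := a) (a' := a) (b' := b) (fun _ _ => rfl)
      (fun _ _ => rfl) (update_other b l _), Function.update_self, Function.update_self,
    Nat.choose_succ_succ, Nat.add_sub_add_right]
  rcases Nat.lt_or_ge (a l) (b l + 1) with h | h
  · rw [Nat.choose_eq_zero_of_lt h]
    simp only [Nat.cast_zero, add_zero, zero_mul, mul_zero, zero_add]
  · have e : a l - b l = (a l - (b l + 1)) + 1 := by omega
    rw [e, pow_succ, Nat.cast_add]
    ring

lemma tcr_up_up_zero (q : ι → R) (a b : ι → ℕ) (l : ι) (hq : q l = 0) :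
    tcr q (Function.update a l (a l + 1)) (Function.update b l (b l + 1)) = tcr q a b := by
  rw [tcr_up_up, hq, zero_mul, zero_add]

/-- Residual.  If `q l = 0`, the Taylor coefficient at `b + e_l` only sees exponents with
`a l = b l + 1`; substitute `a = a' + e_l`. -/
theorem resid_sum (A A' : Finset (ι → ℕ)) (l : ι)
    (hA : ∀ a, a ∈ A' ↔ Function.update a l (a l + 1) ∈ A)
    (f : (ι → ℕ) → R) (q : ι → R) (hq : q l = 0) (b : ι → ℕ) :
    ∑ a ∈ A, f a * tcr q a (Function.update b l (b l + 1)) =
      ∑ a ∈ A', f (Function.update a l (a l + 1)) * tcr q a b := by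
  rw [sum_shift A A' l hA (fun a => f a * tcr q a (Function.update b l (b l + 1)))]
  · apply sum_congr rfl
    intro a _
    rw [tcr_up_up_zero q a b l hq]
  · intro a _ h0
    rw [tcr_eq q a _ l, Function.update_self, h0, Nat.choose_zero_succ, Nat.cast_zero, zero_mul,
      zero_mul, mul_zero]

end Pool.Agent.H18.Ex

end
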