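import Pool.Agent.H94.LP1.M01

/-! The parts of this file: H18.Ex.OnePar, H18.FatLin, H18.Ex.Gen. -/

section

/-!
# Module OnePar: solutions of a linear system depending polynomially on one parameter
-/

namespace Pool.Agent.H18.Ex

open Finset

/-- Division by the largest possible power of `X`. -/
theorem exists_eval_ne {α ρ : Type} (A : Finset α) (Mx : ρ → α → Polynomial ℂ) (a₀ : α)
    (ha₀ : a₀ ∈ A) : ∀ (n : ℕ) (F : α → Polynomial ℂ), (F a₀).natDegree = n → F a₀ ≠ 0 →
      (∀ r, ∑ a ∈ A, F a * Mx r a = 0) →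
      ∃ F : α → Polynomial ℂ, (∀ r, ∑ a ∈ A, F a * Mx r a = 0) ∧ ∃ a ∈ A, (F a).eval 0 ≠ 0 := by
  intro n
  induction n with
  | zero =>
    intro F hd hne hF
    refine ⟨F, hF, a₀, ha₀, ?_⟩
    rw [Polynomial.eq_C_of_natDegree_eq_zero hd] at hne ⊢
    rw [Polynomial.eval_C]
    intro h
    rw [h, Polynomial.C_0] at hne
    exact hne rfl
  | succ n ih =>
    intro F hd hne hF
    by_cases hz : ∃ a ∈ A, (F a).eval 0 ≠ 0
    · exact ⟨F, hF, hz⟩
    · push Not at hz
      have hdiv : ∀ a ∈ A, F a = (F a).divX * Polynomial.X := by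
        intro a ha
        have h := hz a ha
        rw [← Polynomial.coeff_zero_eq_eval_zero] at h
        conv_lhs => rw [← Polynomial.divX_mul_X_add (F a), h, Polynomial.C_0, add_zero]
      refine ih (fun a => (F a).divX) ?_ ?_ ?_
      · show (F a₀).divX.natDegree = n
        rw [Polynomial.natDegree_divX_eq_natDegree_tsub_one, hd]
        omega
      · intro h
        apply hne
        rw [hdiv a₀ ha₀]
        show (F a₀).divX * Polynomial.X = 0
        have h' : (F a₀).divX = 0 := h
        rw [h', zero_mul]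
      · intro r
        have h := hF r
        have h2 : (∑ a ∈ A, (F a).divX * Mx r a) * Polynomial.X = 0 := by
          rw [sum_mul, ← h]
          refine sum_congr rfl fun a ha => ?_
          conv_rhs => rw [hdiv a ha]
          ring
        rcases mul_eq_zero.1 h2 with h3 | h3
        · exact h3
        · exact absurd h3 Polynomial.X_ne_zero

/-- If a linear system with coefficients in `ℂ[t]` has a nonzero solution for every value of `t`,
then it has a polynomial solution which does not vanish at `t = 0`.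

Proof.  Let `Frac` be the fraction field of `ℂ[X]`.  Case 1: the matrix `(r, a) ↦ Mx r a`
(`r : ρ`, `a : A`) has trivial kernel over `Frac`.  Then it has a left inverse `B` over `Frac`
(`LinearMap.exists_leftInverse_of_injective`); clearing denominators gives a matrix `B'` over
`ℂ[X]` and `δ ≠ 0` with `B' * Mx = δ • 1`.  Take `t` with `δ.eval t ≠ 0` (`ℂ` is infinite):
then the system at `t` has only the zero solution, a contradiction.  Case 2: there is a nonzero
solution over `Frac`; clear denominators to get a nonzero solution `F` over `ℂ[X]`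
(e.g. `IsLocalization.exist_integer_multiples_of_finset`).  Divide by the largest power of `X`
dividing all `F a`, `a ∈ A` (strong induction on the minimum, or on the sum, of the `natDegree`s of
the nonzero `F a`: if all `F a`, `a ∈ A`, vanish at `0` replace `F a` by `(F a).divX`). -/
theorem exists_poly_solution {α ρ : Type} [Fintype ρ] (A : Finset α)
    (Mx : ρ → α → Polynomial ℂ)
    (h : ∀ t : ℂ, ∃ f : α → ℂ, (∀ r, ∑ a ∈ A, f a * (Mx r a).eval t = 0) ∧ ∃ a ∈ A, f a ≠ 0) :
    ∃ F : α → Polynomial ℂ, (∀ r, ∑ a ∈ A, F a * Mx r a = 0) ∧ ∃ a ∈ A, (F a).eval 0 ≠ 0 := by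
  classical
  let K := FractionRing (Polynomial ℂ)
  let φ : Polynomial ℂ →+* K := algebraMap (Polynomial ℂ) K
  have hφ : Function.Injective φ := IsFractionRing.injective (Polynomial ℂ) K
  let Mk : Matrix ρ A K := fun r a => φ (Mx r a.1)
  by_cases hker : LinearMap.ker Mk.mulVecLin = ⊥
  · exfalso
    obtain ⟨g, hg⟩ := LinearMap.exists_leftInverse_of_injective Mk.mulVecLin hker
    let B : Matrix A ρ K := LinearMap.toMatrix' g
    have hB : B * Mk = 1 := by
      have h1 : LinearMap.toMatrix' (g ∘ₗ Mk.mulVecLin) = 1 := by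
        rw [hg, LinearMap.toMatrix'_id]
      rw [LinearMap.toMatrix'_comp] at h1
      rw [← h1]
      congr 1
      rw [← Matrix.toLin'_apply', LinearMap.toMatrix'_toLin']
    obtain ⟨δ, hδ⟩ := IsLocalization.exist_integer_multiples_of_finite
      (nonZeroDivisors (Polynomial ℂ)) (fun x : A × ρ => B x.1 x.2)
    choose B' hB' using hδ
    have hδ0 : (δ : Polynomial ℂ) ≠ 0 := nonZeroDivisors.coe_ne_zero δ
    have key : ∀ a a' : A, ∑ r, B' (a, r) * Mx r a'.1 = if a = a' then (δ : Polynomial ℂ) else 0 := by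
      intro a a'
      apply hφ
      rw [map_sum]
      have h1 : ∀ r, φ (B' (a, r) * Mx r a'.1) = φ δ * (B a r * Mk r a') := by
        intro r
        rw [map_mul]
        have h2 := hB' (a, r)
        rw [Algebra.smul_def] at h2
        rw [show φ (B' (a, r)) = φ δ * B a r from h2]
        show φ δ * B a r * φ (Mx r a'.1) = φ δ * (B a r * φ (Mx r a'.1))
        ring
      rw [sum_congr rfl fun r _ => h1 r, ← mul_sum]
      have h3 : ∑ r, B a r * Mk r a' = (B * Mk) a a' := rfl
      rw [h3, hB, Matrix.one_apply]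
      split_ifs with hh
      · rw [mul_one]
      · rw [mul_zero, map_zero]
    obtain ⟨t, ht⟩ : ∃ t : ℂ, (δ : Polynomial ℂ).eval t ≠ 0 := by
      by_contra hcon
      push Not at hcon
      apply hδ0
      exact Polynomial.funext fun t => by rw [hcon t, Polynomial.eval_zero]
    obtain ⟨f, hf, a, ha, hfa⟩ := h t
    apply hfa
    have h4 : (δ : Polynomial ℂ).eval t * f a = 0 := by
      have h5 : ∑ a' : A, (∑ r, (B' (⟨a, ha⟩, r)).eval t * (Mx r a'.1).eval t) * f a'.1 = 0 := by
        simp only [sum_mul]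
        rw [sum_comm]
        refine sum_eq_zero fun r _ => ?_
        have h6 := hf r
        rw [← sum_coe_sort A (fun a => f a * (Mx r a).eval t)] at h6
        have h7 : ∑ a' : A, (B' (⟨a, ha⟩, r)).eval t * (Mx r a'.1).eval t * f a'.1 =
            (B' (⟨a, ha⟩, r)).eval t * ∑ a' : A, f a'.1 * (Mx r a'.1).eval t := by
          rw [mul_sum]
          exact sum_congr rfl fun a' _ => by ring
        rw [h7, h6, mul_zero]
      have h8 : ∀ a' : A, (∑ r, (B' (⟨a, ha⟩, r)).eval t * (Mx r a'.1).eval t) =
          if (⟨a, ha⟩ : A) = a' then (δ : Polynomial ℂ).eval t else 0 := by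
        intro a'
        have h9 := congrArg (Polynomial.eval t) (key ⟨a, ha⟩ a')
        rw [Polynomial.eval_finsetSum] at h9
        simp only [Polynomial.eval_mul] at h9
        rw [h9]
        split_ifs
        · rfl
        · exact Polynomial.eval_zero
      rw [sum_congr rfl fun a' _ => by rw [h8 a']] at h5
      rw [Finset.sum_eq_single (⟨a, ha⟩ : A)] at h5
      · rw [if_pos rfl] at h5
        exact h5
      · intro b _ hb
        rw [if_neg (fun h => hb h.symm), zero_mul]
      · intro hh
        exact absurd (mem_univ _) hh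
    rcases mul_eq_zero.1 h4 with h5 | h5
    · exact absurd h5 ht
    · exact h5
  · obtain ⟨v, hv, hv0⟩ := (Submodule.ne_bot_iff _).1 hker
    rw [LinearMap.mem_ker, Matrix.mulVecLin_apply] at hv
    obtain ⟨a₀, ha₀⟩ : ∃ a, v a ≠ 0 := by
      by_contra hcon
      push Not at hcon
      exact hv0 (funext hcon)
    obtain ⟨δ, hδ⟩ := IsLocalization.exist_integer_multiples_of_finite
      (nonZeroDivisors (Polynomial ℂ)) v
    choose F' hF' using hδ
    have hδ0 : (δ : Polynomial ℂ) ≠ 0 := nonZeroDivisors.coe_ne_zero δ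
    let F : α → Polynomial ℂ := fun a => if ha : a ∈ A then F' ⟨a, ha⟩ else 0
    have hFa : ∀ a : A, φ (F a.1) = φ δ * v a := by
      intro a
      have h2 := hF' a
      rw [Algebra.smul_def] at h2
      show φ (if ha : a.1 ∈ A then F' ⟨a.1, ha⟩ else 0) = φ δ * v a
      rw [dif_pos a.2]
      exact h2
    refine exists_eval_ne A Mx a₀.1 a₀.2 _ F rfl ?_ ?_
    · intro hz
      have h1 := hFa a₀
      rw [hz, map_zero] at h1
      rcases mul_eq_zero.1 h1.symm with h2 | h2
      · apply hδ0
        apply hφ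
        rw [h2, map_zero]
      · exact ha₀ h2
    · intro r
      apply hφ
      rw [map_zero, map_sum, ← sum_coe_sort A (fun a => φ (F a * Mx r a))]
      have h1 : ∑ a : A, φ (F a.1 * Mx r a.1) = φ δ * ∑ a : A, Mk r a * v a := by
        rw [mul_sum]
        refine sum_congr rfl fun a _ => ?_
        rw [map_mul, hFa a]
        show φ δ * v a * φ (Mx r a.1) = φ δ * (φ (Mx r a.1) * v a)
        ring
      rw [h1]
      have h2 : ∑ a : A, Mk r a * v a = Mk.mulVec v r := rfl
      rw [h2, hv]
      show φ δ * 0 = 0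
      rw [mul_zero]

end Pool.Agent.H18.Ex

end

section

namespace Pool.Agent.H18.Fat

open MvPolynomial Finset

section

variable {ι : Type*} [Fintype ι]

end

/-- Injectivity of a matrix with polynomial entries is an open condition. -/
theorem exists_poly_injective {σ R K : Type*} [Fintype R] [Fintype K]
    (N : Matrix R K (MvPolynomial σ ℂ)) (a₀ : σ → ℂ)
    (h : LinearMap.ker (N.map (eval a₀)).mulVecLin = ⊥) :
    ∃ G : MvPolynomial σ ℂ, eval a₀ G ≠ 0 ∧
      ∀ a, eval a G ≠ 0 → LinearMap.ker (N.map (eval a)).mulVecLin = ⊥ := by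
  classical
  obtain ⟨g, hg⟩ := LinearMap.exists_leftInverse_of_injective _ h
  obtain ⟨B, hBg⟩ : ∃ B : Matrix K R ℂ, Matrix.toLin' B = g := ⟨LinearMap.toMatrix' g, by simp⟩
  have hB : B * (N.map (eval a₀)) = 1 := by
    apply Matrix.toLin'.injective
    rw [Matrix.toLin'_mul, hBg, Matrix.toLin'_one]
    exact hg
  have hB' : ∀ a : σ → ℂ, (B.map (C : ℂ → MvPolynomial σ ℂ)).map (eval a) = B := by
    intro a
    ext i j
    simp
  let D : Matrix K K (MvPolynomial σ ℂ) := (B.map (C : ℂ → MvPolynomial σ ℂ)) * N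
  have hD : ∀ a : σ → ℂ, eval a D.det = (B * (N.map (eval a))).det := by
    intro a
    rw [RingHom.map_det, RingHom.mapMatrix_apply]
    congr 1
    change ((B.map (C : ℂ → MvPolynomial σ ℂ)) * N).map (eval a) = _
    rw [Matrix.map_mul, hB']
  refine ⟨D.det, ?_, ?_⟩
  · rw [hD, hB, Matrix.det_one]
    exact one_ne_zero
  · intro a ha
    rw [hD] at ha
    have hunit : IsUnit (B * (N.map (eval a))) := by
      rw [Matrix.isUnit_iff_isUnit_det]
      exact isUnit_iff_ne_zero.2 ha
    rw [LinearMap.ker_eq_bot']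
    intro f hf
    rw [Matrix.mulVecLin_apply] at hf
    obtain ⟨E, hE⟩ := isUnit_iff_exists_inv'.1 hunit
    have h11 : (E * (B * N.map (eval a))).mulVec f = 0 := by
      rw [← Matrix.mulVec_mulVec, ← Matrix.mulVec_mulVec, hf, Matrix.mulVec_zero,
        Matrix.mulVec_zero]
    rwa [hE, Matrix.one_mulVec] at h11

end Pool.Agent.H18.Fat

end

section

/-!
# Module Gen: injectivity is an open condition on the positions
-/

namespace Pool.Agent.H18.Ex

open Finset

variable {ι : Type} [Fintype ι] [DecidableEq ι]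

/-- A bound for the multi-indices of a condition. -/
def Kind.bd (k : Kind ι) : ℕ :=
  match k with
  | .free m => m
  | .forced _ c _ => c

omit [DecidableEq ι] in
theorem Kind.Idx.lt {k : Kind ι} {b : ι → ℕ} (h : k.Idx b) (i : ι) : b i < k.bd := by
  have hle : b i ≤ ∑ j, b j := single_le_sum (fun j _ => Nat.zero_le (b j)) (mem_univ i)
  cases k with
  | free m => exact lt_of_le_of_lt hle h
  | forced l c e => exact lt_of_le_of_lt hle h.1

open Classical in
/-- The finite set of the multi-indices of a condition. -/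
noncomputable def Kind.idxs (k : Kind ι) : Finset (ι → ℕ) :=
  (Fintype.piFinset fun _ => range k.bd).filter fun b => k.Idx b

open Classical in
theorem Kind.mem_idxs {k : Kind ι} {b : ι → ℕ} : b ∈ k.idxs ↔ k.Idx b := by
  unfold Kind.idxs
  rw [mem_filter, Fintype.mem_piFinset]
  constructor
  · exact fun h => h.2
  · exact fun h => ⟨fun i => mem_range.2 (h.lt i), h⟩

/-- The matrix of the conditions. -/
noncomputable def cmat {R : Type} [CommRing R] {κ : Type} (A : Finset (ι → ℕ)) (k : κ → Kind ι)
    (pos : κ → ι → R) : Matrix (Σ i : κ, {b // b ∈ (k i).idxs}) A R :=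
  fun x a => tcr ((k x.1).pt (pos x.1)) a.1 x.2.1

theorem ker_cmat {κ : Type} (A : Finset (ι → ℕ)) (k : κ → Kind ι) (pos : κ → ι → ℂ) :
    LinearMap.ker (cmat A k pos).mulVecLin = ⊥ ↔ InjAt A k pos := by
  classical
  rw [LinearMap.ker_eq_bot']
  constructor
  · intro h f hf a ha
    have h1 := h (fun a : A => f a.1) ?_
    · exact congrFun h1 ⟨a, ha⟩
    · rw [Matrix.mulVecLin_apply]
      funext x
      have h2 := hf x.1 x.2.1 (Kind.mem_idxs.1 x.2.2)
      rw [← sum_coe_sort A (fun a => f a * tcr ((k x.1).pt (pos x.1)) a x.2.1)] at h2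
      show ∑ a : A, tcr ((k x.1).pt (pos x.1)) a.1 x.2.1 * f a.1 = 0
      rw [← h2]
      exact sum_congr rfl fun a _ => mul_comm _ _
  · intro h f hf
    rw [Matrix.mulVecLin_apply] at hf
    have h1 := h (fun a => if ha : a ∈ A then f ⟨a, ha⟩ else 0) ?_
    · funext a
      have h2 := h1 a.1 a.2
      rw [dif_pos a.2] at h2
      exact h2
    · intro i b hb
      have h2 := congrFun hf ⟨i, b, Kind.mem_idxs.2 hb⟩
      rw [← sum_coe_sort A]
      have h3 : ∑ a : A, tcr ((k i).pt (pos i)) a.1 b * f a = 0 := h2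
      refine Eq.trans (sum_congr rfl fun a _ => ?_) h3
      beta_reduce
      rw [dif_pos a.2]
      exact mul_comm _ _

omit [DecidableEq ι] in
theorem tcr_map {R S : Type} [CommRing R] [CommRing S] (φ : R →+* S) (q : ι → R) (a b : ι → ℕ) :
    φ (tcr q a b) = tcr (fun i => φ (q i)) a b := by
  unfold tcr
  rw [map_prod]
  refine prod_congr rfl fun i _ => ?_
  rw [map_mul, map_natCast, map_pow]

omit [Fintype ι] in
theorem pt_map {R S : Type} [CommRing R] [CommRing S] (φ : R →+* S) (k : Kind ι) (q : ι → R) :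
    (fun i => φ (k.pt q i)) = k.pt fun i => φ (q i) := by
  cases k with
  | free m => rfl
  | forced l c e =>
    funext i
    show φ (Function.update q l 0 i) = Function.update (fun i => φ (q i)) l 0 i
    by_cases hi : i = l
    · subst hi
      rw [Function.update_self, Function.update_self, map_zero]
    · rw [Function.update_of_ne hi, Function.update_of_ne hi]

/-- The general matrix. -/
noncomputable def gmat {κ : Type} (A : Finset (ι → ℕ)) (k : κ → Kind ι) :
    Matrix (Σ i : κ, {b // b ∈ (k i).idxs}) A (MvPolynomial (κ × ι) ℂ) :=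
  cmat A k fun i j => MvPolynomial.X (i, j)

theorem gmat_map {κ : Type} (A : Finset (ι → ℕ)) (k : κ → Kind ι) (x : κ × ι → ℂ) :
    (gmat A k).map (MvPolynomial.eval x) = cmat A k fun i j => x (i, j) := by
  ext r a
  show MvPolynomial.eval x (tcr ((k r.1).pt fun j => MvPolynomial.X (r.1, j)) a.1 r.2.1) =
    tcr ((k r.1).pt fun j => x (r.1, j)) a.1 r.2.1
  rw [tcr_map, pt_map]
  simp only [MvPolynomial.eval_X]

/-- Openness.  Proof: for every `i : κ` the multi-indices `b` with `(k i).Idx b` form a finite set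
(`∑ b < m`), so `InjAt A k pos` says that the kernel of the finite matrix with rows
`(i, b)`, columns `a ∈ A` and entries `tcr ((k i).pt (pos i)) a b` is trivial.  The entries are
the values at `pos` of the polynomials
`∏ j, C ((a j).choose (b j)) * Y j ^ (a j - b j)`, where `Y j = X (i, j)`, except `Y l = 0` when
`k i = forced l _ _`.  Apply `Pool.Agent.H18.Fat.exists_poly_injective` (file `FatLin`). -/
theorem GI.general {κ : Type} [Fintype κ] {A : Finset (ι → ℕ)} {k : κ → Kind ι} (h : GI A k) :
    ∃ G : MvPolynomial (κ × ι) ℂ, G ≠ 0 ∧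
      ∀ pos : κ → ι → ℂ, MvPolynomial.eval (fun x => pos x.1 x.2) G ≠ 0 → InjAt A k pos := by
  obtain ⟨pos₀, h₀⟩ := h
  have h1 : LinearMap.ker
      ((gmat A k).map (MvPolynomial.eval fun x : κ × ι => pos₀ x.1 x.2)).mulVecLin = ⊥ := by
    rw [gmat_map, ker_cmat]
    exact h₀
  obtain ⟨G, hG, hG'⟩ := Pool.Agent.H18.Fat.exists_poly_injective _ _ h1
  refine ⟨G, ?_, ?_⟩
  · rintro rfl
    exact hG (map_zero _)
  · intro pos hpos
    have h2 := hG' _ hpos
    rw [gmat_map, ker_cmat] at h2
    exact h2

/-- Two open conditions can be satisfied at the same time, with all coordinates nonzero.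
Proof: multiply the two polynomials of `GI.general` and `∏ x, X x`; a nonzero polynomial over the
infinite field `ℂ` has a non-root (`MvPolynomial.funext`). -/
theorem GI.exists_common {κ : Type} [Fintype κ] {A A' : Finset (ι → ℕ)} {k k' : κ → Kind ι}
    (h : GI A k) (h' : GI A' k') :
    ∃ pos : κ → ι → ℂ, InjAt A k pos ∧ InjAt A' k' pos ∧ ∀ i j, pos i j ≠ 0 := by
  obtain ⟨G, hG, hG'⟩ := h.general
  obtain ⟨H, hH, hH'⟩ := h'.general
  have hX : (∏ x : κ × ι, (MvPolynomial.X x : MvPolynomial (κ × ι) ℂ)) ≠ 0 :=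
    prod_ne_zero_iff.2 fun x _ => MvPolynomial.X_ne_zero x
  have hne : G * H * ∏ x : κ × ι, (MvPolynomial.X x : MvPolynomial (κ × ι) ℂ) ≠ 0 :=
    mul_ne_zero (mul_ne_zero hG hH) hX
  obtain ⟨x, hx⟩ : ∃ x : κ × ι → ℂ, MvPolynomial.eval x
      (G * H * ∏ x : κ × ι, (MvPolynomial.X x : MvPolynomial (κ × ι) ℂ)) ≠ 0 := by
    by_contra hcon
    push Not at hcon
    exact hne (MvPolynomial.funext fun x => by rw [hcon x, map_zero])
  rw [map_mul, map_mul] at hx
  have h1 := left_ne_zero_of_mul (left_ne_zero_of_mul hx)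
  have h2 := right_ne_zero_of_mul (left_ne_zero_of_mul hx)
  have h3 := right_ne_zero_of_mul hx
  rw [map_prod] at h3
  refine ⟨fun i j => x (i, j), hG' _ h1, hH' _ h2, fun i j => ?_⟩
  have h4 := prod_ne_zero_iff.1 h3 (i, j) (mem_univ _)
  rw [MvPolynomial.eval_X] at h4
  exact h4

end Pool.Agent.H18.Ex

end
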