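import Pool.Agent.H94.LP1.H18.FatBasic
import Pool.Agent.H94.LP1.M02

/-! The parts of this file: H18.FatLin_1, H18.FatPerfect, H18.FatToric. -/

section

namespace Pool.Agent.H18.Fat

open MvPolynomial Finset

/-- Exponent vectors not involving the variable `0`, of degree smaller than `m`. -/
noncomputable def aff (r m : ℕ) : Finset (Fin (r + 1) →₀ ℕ) := by
  classical
  exact if m = 0 then ∅ else (mons (r + 1) (m - 1)).image (fun γ => γ.erase 0)

theorem degree_erase_zero {r : ℕ} (γ : Fin (r + 1) →₀ ℕ) :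
    (γ.erase 0).degree + γ 0 = γ.degree := by
  rw [Finsupp.degree_eq_sum, Finsupp.degree_eq_sum, Fin.sum_univ_succ, Fin.sum_univ_succ]
  simp only [Finsupp.erase_same, zero_add]
  rw [add_comm]
  congr 1
  exact sum_congr rfl fun i _ => Finsupp.erase_ne (Fin.succ_ne_zero i)

theorem mem_aff {r m : ℕ} {β : Fin (r + 1) →₀ ℕ} :
    β ∈ aff r m ↔ β 0 = 0 ∧ β.degree < m := by
  classical
  unfold aff
  split_ifs with h
  · subst h
    simp
  · rw [mem_image]
    constructor
    · rintro ⟨γ, hγ, rfl⟩
      rw [mem_mons] at hγ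
      have := degree_erase_zero γ
      refine ⟨by simp, by omega⟩
    · rintro ⟨h0, h1⟩
      refine ⟨β + Finsupp.single 0 (m - 1 - β.degree), ?_, ?_⟩
      · rw [mem_mons]
        simp only [map_add, Finsupp.degree_single]
        omega
      · ext j
        by_cases hj : j = 0
        · subst hj
          simp [h0]
        · simp [Finsupp.erase_ne hj, Finsupp.single_eq_of_ne hj]

theorem card_aff {r : ℕ} (hr : 1 ≤ r) (m : ℕ) : (aff r m).card = (m + r - 1).choose r := by
  classical
  unfold aff
  split_ifs with h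
  · subst h
    rw [card_empty, Nat.choose_eq_zero_of_lt (by omega)]
  · rw [card_image_of_injOn, card_mons]
    · congr 1
      omega
    · intro γ hγ γ' hγ' he
      have h1 := mem_mons.1 hγ
      have h2 := mem_mons.1 hγ'
      have h3 := degree_erase_zero γ
      have h4 := degree_erase_zero γ'
      simp only at he
      rw [he] at h3
      have h5 : γ 0 = γ' 0 := by omega
      ext j
      by_cases hj : j = 0
      · subst hj
        exact h5
      · have := congrArg (fun b => b j) he
        simpa [Finsupp.erase_ne hj] using this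

section

variable {ι : Type*} [Fintype ι]

/-- Indices of the linear conditions. -/
abbrev Cond (r : ℕ) (m : ι → ℕ) : Type _ := Σ i : ι, {β // β ∈ aff r (m i)}

theorem card_cond {r : ℕ} (hr : 1 ≤ r) (m : ι → ℕ) :
    Fintype.card (Cond r m) = ∑ i, (m i + r - 1).choose r := by
  rw [Fintype.card_sigma]
  refine sum_congr rfl fun i _ => ?_
  rw [Fintype.card_coe, card_aff hr]

/-- The matrix of the linear conditions imposed by the fat points. -/
noncomputable def condMat (r d : ℕ) (p : ι → Fin (r + 1) → ℂ) (m : ι → ℕ) :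
    Matrix (Cond r m) (mons (r + 1) d) ℂ :=
  fun x α => tc (p x.1) α.1 x.2.1

omit [Fintype ι] in
theorem toPoly_mem_fatForms {r d : ℕ} {p : ι → Fin (r + 1) → ℂ} (hp : ∀ i, p i 0 ≠ 0)
    (m : ι → ℕ) (f : mons (r + 1) d → ℂ) :
    toPoly (r + 1) d f ∈ fatForms r d p m ↔ (condMat r d p m).mulVec f = 0 := by
  constructor
  · intro h
    funext x
    have h1 := h.2 x.1 x.2.1 (mem_aff.1 x.2.2).2
    rw [coeff_shift_toPoly] at h1
    rw [Pi.zero_apply, ← h1]
    unfold Matrix.mulVec dotProduct condMat
    exact sum_congr rfl fun α _ => mul_comm _ _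
  · intro h
    refine ⟨toPoly_isHomogeneous f, fun i => ?_⟩
    apply vanishes_of_affine (hp i)
    intro β h0 hdeg
    have h1 := congrFun h ⟨i, β, mem_aff.2 ⟨h0, hdeg⟩⟩
    rw [coeff_shift_toPoly]
    rw [Pi.zero_apply] at h1
    rw [← h1]
    unfold Matrix.mulVec dotProduct condMat
    exact sum_congr rfl fun α _ => mul_comm _ _

theorem fatForms_eq_map {r d : ℕ} {p : ι → Fin (r + 1) → ℂ} (hp : ∀ i, p i 0 ≠ 0)
    (m : ι → ℕ) :
    fatForms r d p m = Submodule.map (toPoly (r + 1) d)
      (LinearMap.ker (condMat r d p m).mulVecLin) := by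
  ext F
  constructor
  · intro h
    refine ⟨fun α => coeff α.1 F, ?_, exists_toPoly h.1⟩
    rw [SetLike.mem_coe, LinearMap.mem_ker, Matrix.mulVecLin_apply]
    rw [← toPoly_mem_fatForms hp, exists_toPoly h.1]
    exact h
  · rintro ⟨f, hf, rfl⟩
    rw [SetLike.mem_coe, LinearMap.mem_ker, Matrix.mulVecLin_apply] at hf
    exact (toPoly_mem_fatForms hp m f).2 hf

theorem finrank_fatForms_eq {r d : ℕ} {p : ι → Fin (r + 1) → ℂ} (hp : ∀ i, p i 0 ≠ 0)
    (m : ι → ℕ) :
    Module.finrank ℂ (fatForms r d p m) =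
      Module.finrank ℂ (LinearMap.ker (condMat r d p m).mulVecLin) := by
  rw [fatForms_eq_map hp]
  exact (Submodule.equivMapOfInjective _ (toPoly_injective _ _) _).finrank_eq.symm

theorem rank_add_finrank {r d : ℕ} {p : ι → Fin (r + 1) → ℂ} (hp : ∀ i, p i 0 ≠ 0)
    (m : ι → ℕ) :
    Module.finrank ℂ (LinearMap.range (condMat r d p m).mulVecLin) +
      Module.finrank ℂ (fatForms r d p m) = (d + r).choose r := by
  rw [finrank_fatForms_eq hp, LinearMap.finrank_range_add_finrank_ker, Module.finrank_fintype_fun_eq_card,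
    Fintype.card_coe, card_mons]

theorem finrank_range_le {r : ℕ} (d : ℕ) (hr : 1 ≤ r) (p : ι → Fin (r + 1) → ℂ) (m : ι → ℕ) :
    Module.finrank ℂ (LinearMap.range (condMat r d p m).mulVecLin) ≤
      ∑ i, (m i + r - 1).choose r := by
  rw [← card_cond hr m, ← Module.finrank_fintype_fun_eq_card (R := ℂ)]
  exact Submodule.finrank_le _

/-- Every fat point scheme imposes at most its length many conditions. -/
theorem finrank_fatForms_ge {r d : ℕ} (hr : 1 ≤ r) {p : ι → Fin (r + 1) → ℂ}
    (hp : ∀ i, p i 0 ≠ 0) (m : ι → ℕ) :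
    ((d + r).choose r : ℤ) - ∑ i, ((m i + r - 1).choose r : ℤ) ≤
      Module.finrank ℂ (fatForms r d p m) := by
  have h1 := rank_add_finrank (d := d) hp m
  have h2 := finrank_range_le d hr p m
  have h3 : ((∑ i, (m i + r - 1).choose r : ℕ) : ℤ) = ∑ i, ((m i + r - 1).choose r : ℤ) := by
    push_cast
    rfl
  rw [← h3]
  omega

end

/-- The condition matrix with indeterminate points. -/
noncomputable def genMat (r d : ℕ) {k : ℕ} (m : Fin k → ℕ) :
    Matrix (Cond r m) (mons (r + 1) d) (MvPolynomial (Fin k × Fin (r + 1)) ℂ) :=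
  fun x α => ∏ j, (C ((α.1 j).choose (x.2.1 j) : ℂ) * X (x.1, j) ^ (α.1 j - x.2.1 j))

theorem genMat_map {r d k : ℕ} (m : Fin k → ℕ) (p : Fin k → Fin (r + 1) → ℂ) :
    (genMat r d m).map (eval fun x : Fin k × Fin (r + 1) => p x.1 x.2) = condMat r d p m := by
  ext x α
  simp [genMat, condMat, tc]

/-- Surjectivity of a matrix with polynomial entries is an open condition. -/
theorem exists_poly_surjective {σ R K : Type*} [Fintype R] [Fintype K]
    (N : Matrix R K (MvPolynomial σ ℂ)) (a₀ : σ → ℂ)
    (h : Function.Surjective (N.map (eval a₀)).mulVec) :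
    ∃ G : MvPolynomial σ ℂ, eval a₀ G ≠ 0 ∧
      ∀ a, eval a G ≠ 0 → Function.Surjective (N.map (eval a)).mulVec := by
  classical
  obtain ⟨B, hB⟩ := Matrix.mulVec_surjective_iff_exists_right_inverse.1 h
  have hB' : ∀ a : σ → ℂ, (B.map (C : ℂ → MvPolynomial σ ℂ)).map (eval a) = B := by
    intro a
    ext i j
    simp
  let D : Matrix R R (MvPolynomial σ ℂ) := N * (B.map (C : ℂ → MvPolynomial σ ℂ))
  have hD : ∀ a : σ → ℂ, eval a D.det = ((N.map (eval a)) * B).det := by
    intro a
    rw [RingHom.map_det, RingHom.mapMatrix_apply]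
    congr 1
    change (N * (B.map (C : ℂ → MvPolynomial σ ℂ))).map (eval a) = _
    rw [Matrix.map_mul, hB']
  refine ⟨D.det, ?_, ?_⟩
  · rw [hD, hB, Matrix.det_one]
    exact one_ne_zero
  · intro a ha
    rw [hD] at ha
    have hunit : IsUnit ((N.map (eval a)) * B) := by
      rw [Matrix.isUnit_iff_isUnit_det]
      exact isUnit_iff_ne_zero.2 ha
    rw [Matrix.mulVec_surjective_iff_exists_right_inverse]
    obtain ⟨E, hE⟩ := isUnit_iff_exists_inv.1 hunit
    exact ⟨B * E, by rw [← Matrix.mul_assoc]; exact hE⟩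

/-- Semicontinuity: if some configuration (with nonzero first coordinates) imposes maximal
conditions then general points do. -/
theorem general_of_special {r d k : ℕ} (hr : 1 ≤ r) (m : Fin k → ℕ)
    (p₀ : Fin k → Fin (r + 1) → ℂ) (hp₀ : ∀ i, p₀ i 0 ≠ 0)
    (h : ImposesMaximalConditions r d p₀ m) :
    ForGeneralPoints r k fun p => ImposesMaximalConditions r d p m := by
  classical
  -- the polynomial making all first coordinates nonzero
  let G₀ : MvPolynomial (Fin k × Fin (r + 1)) ℂ := ∏ i : Fin k, X (i, 0)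
  have hG₀ : ∀ p : Fin k → Fin (r + 1) → ℂ,
      eval (fun x => p x.1 x.2) G₀ = ∏ i : Fin k, p i 0 := by
    intro p
    simp [G₀, map_prod]
  have hsum : ((∑ i, (m i + r - 1).choose r : ℕ) : ℤ) = ∑ i, ((m i + r - 1).choose r : ℤ) := by
    push_cast
    rfl
  have hr0 := rank_add_finrank (d := d) hp₀ m
  unfold ImposesMaximalConditions at h
  rw [← hsum] at h
  -- it is enough to find `G` with a suitable property
  suffices hmain : ∃ G : MvPolynomial (Fin k × Fin (r + 1)) ℂ,
      eval (fun x => p₀ x.1 x.2) G ≠ 0 ∧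
      ∀ p : Fin k → Fin (r + 1) → ℂ, eval (fun x => p x.1 x.2) G ≠ 0 → (∀ i, p i 0 ≠ 0) →
        ImposesMaximalConditions r d p m by
    obtain ⟨G, hG, hG'⟩ := hmain
    have hprod : ∏ i : Fin k, p₀ i 0 ≠ 0 := prod_ne_zero_iff.2 fun i _ => hp₀ i
    refine ⟨G * G₀, ?_, ?_⟩
    · intro h0
      have h1 := congrArg (eval fun x : Fin k × Fin (r + 1) => p₀ x.1 x.2) h0
      rw [map_mul, hG₀, map_zero] at h1
      exact (mul_ne_zero hG hprod) h1
    · intro p hp
      rw [map_mul, hG₀] at hp
      have h2 := prod_ne_zero_iff.1 (right_ne_zero_of_mul hp)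
      exact hG' p (left_ne_zero_of_mul hp) fun i => h2 i (mem_univ i)
  rcases le_or_gt (∑ i, (m i + r - 1).choose r) ((d + r).choose r) with hle | hlt
  · -- independent conditions
    have hker : Module.finrank ℂ (LinearMap.range (condMat r d p₀ m).mulVecLin) =
        Fintype.card (Cond r m) := by
      rw [card_cond hr]
      have h3 : (0 : ℤ) ≤ ((d + r).choose r : ℤ) - ((∑ i, (m i + r - 1).choose r : ℕ) : ℤ) := by
        omega
      rw [max_eq_right h3] at h
      omega
    have hsurj : Function.Surjective (condMat r d p₀ m).mulVec := by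
      have h4 : LinearMap.range (condMat r d p₀ m).mulVecLin = ⊤ := by
        apply Submodule.eq_top_of_finrank_eq
        rw [hker, Module.finrank_fintype_fun_eq_card]
      rw [LinearMap.range_eq_top, Matrix.coe_mulVecLin] at h4
      exact h4
    rw [← genMat_map] at hsurj
    obtain ⟨G, hG1, hG2⟩ := exists_poly_surjective _ _ hsurj
    refine ⟨G, hG1, fun p hG hp => ?_⟩
    have hsurj' := hG2 _ hG
    rw [genMat_map] at hsurj'
    have h6 : Module.finrank ℂ (LinearMap.range (condMat r d p m).mulVecLin) =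
        ∑ i, (m i + r - 1).choose r := by
      rw [← card_cond hr]
      have h7 : LinearMap.range (condMat r d p m).mulVecLin = ⊤ := by
        rw [LinearMap.range_eq_top, Matrix.coe_mulVecLin]
        exact hsurj'
      rw [h7, finrank_top, Module.finrank_fintype_fun_eq_card]
    have h8 := rank_add_finrank (d := d) hp m
    unfold ImposesMaximalConditions
    rw [← hsum, max_eq_right (by omega)]
    omega
  · -- no forms at all
    have hzero : Module.finrank ℂ (fatForms r d p₀ m) = 0 := by
      rw [max_eq_left (by omega)] at h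
      exact_mod_cast h
    rw [finrank_fatForms_eq hp₀] at hzero
    have hker : LinearMap.ker (condMat r d p₀ m).mulVecLin = ⊥ :=
      Submodule.finrank_eq_zero.1 hzero
    rw [← genMat_map] at hker
    obtain ⟨G, hG1, hG2⟩ := exists_poly_injective _ _ hker
    refine ⟨G, hG1, fun p hG hp => ?_⟩
    have h10 := hG2 _ hG
    rw [genMat_map] at h10
    have h12 : Module.finrank ℂ (fatForms r d p m) = 0 := by
      rw [finrank_fatForms_eq hp, h10, finrank_bot]
    unfold ImposesMaximalConditions
    rw [← hsum, max_eq_left (by omega), h12]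
    rfl

end Pool.Agent.H18.Fat

end

section

namespace Pool.Agent.H18.Fat

open MvPolynomial Finset

/-! ### Counting -/

/-! ### Adding simple points -/

instance finiteDimensional_fatForms {r d : ℕ} {ι : Type*} (p : ι → Fin (r + 1) → ℂ)
    (m : ι → ℕ) : FiniteDimensional ℂ (fatForms r d p m) := by
  have h1 : fatForms r d p m ≤ LinearMap.range (toPoly (r + 1) d) := by
    intro F hF
    exact ⟨_, exists_toPoly hF.1⟩
  exact Submodule.finiteDimensional_of_le h1

theorem vanishesToOrder_one {n : ℕ} (F : MvPolynomial (Fin n) ℂ) (q : Fin n → ℂ) :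
    VanishesToOrder F q 1 ↔ eval q F = 0 := by
  have h1 : coeff 0 (shift q F) = eval q F := by
    unfold shift
    rw [← constantCoeff_eq]
    have h2 : (constantCoeff.comp (aeval (fun j => X j + C (q j) :
        Fin n → MvPolynomial (Fin n) ℂ)).toRingHom) = eval q := by
      apply ringHom_ext
      · intro c
        simp [algebraMap_eq]
      · intro i
        simp
    exact DFunLike.congr_fun h2 F
  constructor
  · intro h
    rw [← h1]
    exact h 0 (by simp)
  · intro h β hβ
    have : β = 0 := by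
      rw [← Finsupp.degree_eq_zero_iff]
      omega
    rw [this, h1, h]

/-- A simple point can be added so that the dimension drops by one (or is zero). -/
theorem exists_simple_point {r d : ℕ} {ι : Type*} (p : ι → Fin (r + 1) → ℂ) (m : ι → ℕ) :
    ∃ x : Fin (r + 1) → ℂ, x 0 ≠ 0 ∧
      Module.finrank ℂ (fatForms r d (Sum.elim p (fun _ : Unit => x))
        (Sum.elim m fun _ => 1)) = Module.finrank ℂ (fatForms r d p m) - 1 := by
  classical
  -- the new space as a kernel
  have hmem : ∀ (x : Fin (r + 1) → ℂ) (F : MvPolynomial (Fin (r + 1)) ℂ),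
      F ∈ fatForms r d (Sum.elim p (fun _ : Unit => x)) (Sum.elim m fun _ => 1) ↔
        F ∈ fatForms r d p m ∧ eval x F = 0 := by
    intro x F
    constructor
    · rintro ⟨h1, h2⟩
      exact ⟨⟨h1, fun i => h2 (Sum.inl i)⟩, (vanishesToOrder_one F x).1 (h2 (Sum.inr ()))⟩
    · rintro ⟨⟨h1, h2⟩, h3⟩
      refine ⟨h1, ?_⟩
      rintro (i | i)
      · exact h2 i
      · exact (vanishesToOrder_one F x).2 h3
  by_cases hz : fatForms r d p m = ⊥
  · refine ⟨fun _ => 1, one_ne_zero, ?_⟩
    have h1 : fatForms r d (Sum.elim p (fun _ : Unit => fun _ => (1 : ℂ)))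
        (Sum.elim m fun _ => 1) = ⊥ := by
      rw [eq_bot_iff]
      intro F hF
      rw [← hz]
      exact ((hmem _ F).1 hF).1
    rw [h1, hz, finrank_bot]
  · obtain ⟨F, hF, hF0⟩ := Submodule.exists_mem_ne_zero_of_ne_bot hz
    have h2 : F * X 0 ≠ 0 := mul_ne_zero hF0 (X_ne_zero 0)
    obtain ⟨x, hx⟩ : ∃ x, eval x (F * X 0) ≠ 0 := by
      by_contra hall
      push Not at hall
      apply h2
      apply MvPolynomial.funext
      intro x
      rw [hall x, map_zero]
    rw [map_mul, eval_X] at hx
    refine ⟨x, right_ne_zero_of_mul hx, ?_⟩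
    let φ : Module.Dual ℂ (fatForms r d p m) :=
      (aeval x : MvPolynomial (Fin (r + 1)) ℂ →ₐ[ℂ] ℂ).toLinearMap ∘ₗ (fatForms r d p m).subtype
    have hφ : φ ≠ 0 := by
      intro h0
      have h3 := DFunLike.congr_fun h0 ⟨F, hF⟩
      apply left_ne_zero_of_mul hx
      have h4 : φ ⟨F, hF⟩ = eval x F := rfl
      rw [← h4, h3]
      rfl
    have h5 := Module.Dual.finrank_ker_add_one_of_ne_zero hφ
    have h6 : fatForms r d (Sum.elim p (fun _ : Unit => x)) (Sum.elim m fun _ => 1) =
        Submodule.map (fatForms r d p m).subtype (LinearMap.ker φ) := by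
      ext G
      rw [hmem]
      constructor
      · rintro ⟨h7, h8⟩
        exact ⟨⟨G, h7⟩, h8, rfl⟩
      · rintro ⟨⟨G', h7⟩, h8, rfl⟩
        exact ⟨h7, h8⟩
    rw [h6, ← (Submodule.equivMapOfInjective _ (Submodule.subtype_injective _) _).finrank_eq]
    omega

/-- Any number of simple points can be added with the expected effect. -/
theorem exists_simple_points {r d : ℕ} {ι : Type*} (p : ι → Fin (r + 1) → ℂ) (m : ι → ℕ)
    (a : ℕ) : ∃ x : Fin a → Fin (r + 1) → ℂ, (∀ i, x i 0 ≠ 0) ∧
      Module.finrank ℂ (fatForms r d (Sum.elim p x) (Sum.elim m fun _ => 1)) =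
        Module.finrank ℂ (fatForms r d p m) - a := by
  induction a with
  | zero =>
    refine ⟨Fin.elim0, fun i => i.elim0, ?_⟩
    rw [Nat.sub_zero]
    have : fatForms r d (Sum.elim p Fin.elim0) (Sum.elim m fun _ : Fin 0 => 1) =
        fatForms r d p m := by
      ext F
      constructor
      · rintro ⟨h1, h2⟩
        exact ⟨h1, fun i => h2 (Sum.inl i)⟩
      · rintro ⟨h1, h2⟩
        refine ⟨h1, ?_⟩
        rintro (i | i)
        · exact h2 i
        · exact i.elim0
    rw [this]
  | succ a ih =>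
    obtain ⟨x, hx, hfr⟩ := ih
    obtain ⟨y, hy, hfr'⟩ := exists_simple_point (d := d) (Sum.elim p x) (Sum.elim m fun _ => 1)
    refine ⟨Fin.snoc x y, ?_, ?_⟩
    · intro i
      refine Fin.lastCases ?_ (fun j => ?_) i
      · simpa using hy
      · simpa using hx j
    · rw [← Nat.sub_sub, ← hfr, ← hfr']
      have : fatForms r d (Sum.elim p (Fin.snoc x y : Fin (a + 1) → Fin (r + 1) → ℂ))
          (Sum.elim m fun _ => 1) = fatForms r d (Sum.elim (Sum.elim p x) fun _ : Unit => y)
          (Sum.elim (Sum.elim m fun _ => 1) fun _ => 1) := by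
        ext F
        constructor
        · rintro ⟨h1, h2⟩
          refine ⟨h1, ?_⟩
          rintro ((i | i) | i)
          · exact h2 (Sum.inl i)
          · simpa using h2 (Sum.inr i.castSucc)
          · simpa using h2 (Sum.inr (Fin.last a))
        · rintro ⟨h1, h2⟩
          refine ⟨h1, ?_⟩
          rintro (i | i)
          · exact h2 (Sum.inl (Sum.inl i))
          · refine Fin.lastCases ?_ (fun j => ?_) i
            · simpa using h2 (Sum.inr ())
            · simpa using h2 (Sum.inl (Sum.inr j))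
      rw [this]

end Pool.Agent.H18.Fat

end

section

namespace Pool.Agent.H18.Fat

open MvPolynomial Finset

/-! ### General points -/

theorem ForGeneralPoints.mono {r k : ℕ} {P Q : (Fin k → Fin (r + 1) → ℂ) → Prop}
    (h : ForGeneralPoints r k P) (hPQ : ∀ p, P p → Q p) : ForGeneralPoints r k Q := by
  obtain ⟨G, hG, hG'⟩ := h
  exact ⟨G, hG, fun p hp => hPQ p (hG' p hp)⟩

theorem ForGeneralPoints.and {r k : ℕ} {P Q : (Fin k → Fin (r + 1) → ℂ) → Prop}
    (h : ForGeneralPoints r k P) (h' : ForGeneralPoints r k Q) :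
    ForGeneralPoints r k fun p => P p ∧ Q p := by
  obtain ⟨G, hG, hG'⟩ := h
  obtain ⟨H, hH, hH'⟩ := h'
  refine ⟨G * H, mul_ne_zero hG hH, fun p hp => ?_⟩
  rw [map_mul] at hp
  exact ⟨hG' p (left_ne_zero_of_mul hp), hH' p (right_ne_zero_of_mul hp)⟩

theorem ForGeneralPoints.coord_ne_zero (r k : ℕ) :
    ForGeneralPoints r k fun p => ∀ i j, p i j ≠ 0 := by
  classical
  refine ⟨∏ x : Fin k × Fin (r + 1), X x, ?_, ?_⟩
  · exact prod_ne_zero_iff.2 fun x _ => X_ne_zero x
  · intro p hp i j
    rw [map_prod] at hp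
    have := prod_ne_zero_iff.1 hp (i, j) (mem_univ _)
    simpa using this

/-! ### Semicontinuity of the dimension -/

/-- The rank of a matrix with polynomial entries does not drop at general parameters. -/
theorem exists_poly_rank {σ R K : Type*} [Fintype R] [Fintype K] [DecidableEq K]
    (N : Matrix R K (MvPolynomial σ ℂ)) (a₀ : σ → ℂ) :
    ∃ G : MvPolynomial σ ℂ, eval a₀ G ≠ 0 ∧
      ∀ a, eval a G ≠ 0 →
        Module.finrank ℂ (LinearMap.range (N.map (eval a₀)).mulVecLin) ≤
          Module.finrank ℂ (LinearMap.range (N.map (eval a)).mulVecLin) := by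
  classical
  set ρ := Module.finrank ℂ (LinearMap.range (N.map (eval a₀)).mulVecLin) with hρ
  let b := Module.finBasis ℂ (LinearMap.range (N.map (eval a₀)).mulVecLin)
  have hb : ∀ i, ∃ v, (N.map (eval a₀)).mulVecLin v = (b i : R → ℂ) := fun i => (b i).2
  choose v hv using hb
  let B : Matrix K (Fin ρ) ℂ := Matrix.of fun x i => v i x
  have hBmul : ∀ (A : Matrix R K ℂ) (c : Fin ρ → ℂ),
      (A * B).mulVec c = ∑ i, c i • A.mulVec (v i) := by
    intro A c
    rw [← Matrix.mulVec_mulVec]
    have h1 : B.mulVec c = ∑ i, c i • v i := by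
      funext x
      simp only [B, Matrix.mulVec, dotProduct, Matrix.of_apply, Finset.sum_apply, Pi.smul_apply,
        smul_eq_mul]
      exact sum_congr rfl fun i _ => mul_comm _ _
    rw [h1, Matrix.mulVec_sum]
    exact sum_congr rfl fun i _ => Matrix.mulVec_smul _ _ _
  have hinj : LinearMap.ker ((N.map (eval a₀)) * B).mulVecLin = ⊥ := by
    rw [LinearMap.ker_eq_bot']
    intro c hc
    rw [Matrix.mulVecLin_apply, hBmul] at hc
    have h2 : ∑ i, c i • b i = 0 := by
      apply Subtype.ext
      rw [Submodule.coe_sum]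
      simp only [Submodule.coe_smul, Submodule.coe_zero]
      rw [← hc]
      refine sum_congr rfl fun i _ => ?_
      rw [← hv i, Matrix.mulVecLin_apply]
    have h3 := Fintype.linearIndependent_iff.1 b.linearIndependent c h2
    funext i
    exact h3 i
  let N' : Matrix R (Fin ρ) (MvPolynomial σ ℂ) := N * B.map (C : ℂ → MvPolynomial σ ℂ)
  have hN' : ∀ a : σ → ℂ, N'.map (eval a) = (N.map (eval a)) * B := by
    intro a
    have hB' : (B.map (C : ℂ → MvPolynomial σ ℂ)).map (eval a) = B := by
      ext i j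
      simp
    change (N * (B.map (C : ℂ → MvPolynomial σ ℂ))).map (eval a) = _
    rw [Matrix.map_mul, hB']
  rw [← hN'] at hinj
  obtain ⟨G, hG1, hG2⟩ := exists_poly_injective N' a₀ hinj
  refine ⟨G, hG1, fun a ha => ?_⟩
  have h4 := hG2 a ha
  rw [hN'] at h4
  have h5 : LinearMap.range ((N.map (eval a)) * B).mulVecLin ≤
      LinearMap.range (N.map (eval a)).mulVecLin := by
    rintro _ ⟨x, rfl⟩
    refine ⟨B.mulVec x, ?_⟩
    rw [Matrix.mulVecLin_apply, Matrix.mulVecLin_apply, Matrix.mulVec_mulVec]
  have h6 := LinearMap.finrank_range_add_finrank_ker ((N.map (eval a)) * B).mulVecLin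
  rw [h4, finrank_bot, add_zero, Module.finrank_fintype_fun_eq_card, Fintype.card_fin] at h6
  rw [← h6]
  exact Submodule.finrank_mono h5

/-- All exponent vectors of degree smaller than `m`. -/
noncomputable def full (n m : ℕ) : Finset (Fin n →₀ ℕ) := by
  classical
  exact (range m).biUnion fun t => mons n t

theorem mem_full {n m : ℕ} {β : Fin n →₀ ℕ} : β ∈ full n m ↔ β.degree < m := by
  classical
  unfold full
  rw [mem_biUnion]
  constructor
  · rintro ⟨t, ht, hβ⟩
    rw [mem_mons] at hβ
    rw [hβ]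
    exact mem_range.1 ht
  · intro h
    exact ⟨_, mem_range.2 h, mem_mons.2 rfl⟩

/-- All linear conditions. -/
noncomputable def fullMat (r d : ℕ) {k : ℕ} (p : Fin k → Fin (r + 1) → ℂ) (m : Fin k → ℕ) :
    Matrix (Σ i : Fin k, {β // β ∈ full (r + 1) (m i)}) (mons (r + 1) d) ℂ :=
  fun x α => tc (p x.1) α.1 x.2.1

noncomputable def genFullMat (r d : ℕ) {k : ℕ} (m : Fin k → ℕ) :
    Matrix (Σ i : Fin k, {β // β ∈ full (r + 1) (m i)}) (mons (r + 1) d)
      (MvPolynomial (Fin k × Fin (r + 1)) ℂ) :=
  fun x α => ∏ j, (C ((α.1 j).choose (x.2.1 j) : ℂ) * X (x.1, j) ^ (α.1 j - x.2.1 j))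

theorem genFullMat_map {r d k : ℕ} (m : Fin k → ℕ) (p : Fin k → Fin (r + 1) → ℂ) :
    (genFullMat r d m).map (eval fun x : Fin k × Fin (r + 1) => p x.1 x.2) =
      fullMat r d p m := by
  ext x α
  simp [genFullMat, fullMat, tc]

theorem toPoly_mem_fatForms_full {r d k : ℕ} (p : Fin k → Fin (r + 1) → ℂ)
    (m : Fin k → ℕ) (f : mons (r + 1) d → ℂ) :
    toPoly (r + 1) d f ∈ fatForms r d p m ↔ (fullMat r d p m).mulVec f = 0 := by
  constructor
  · intro h
    funext x
    have h1 := h.2 x.1 x.2.1 (mem_full.1 x.2.2)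
    rw [coeff_shift_toPoly] at h1
    rw [Pi.zero_apply, ← h1]
    unfold Matrix.mulVec dotProduct fullMat
    exact sum_congr rfl fun α _ => mul_comm _ _
  · intro h
    refine ⟨toPoly_isHomogeneous f, fun i β hdeg => ?_⟩
    have h1 := congrFun h ⟨i, β, mem_full.2 hdeg⟩
    rw [coeff_shift_toPoly]
    rw [Pi.zero_apply] at h1
    rw [← h1]
    unfold Matrix.mulVec dotProduct fullMat
    exact sum_congr rfl fun α _ => mul_comm _ _

theorem rank_full_add_finrank {r d k : ℕ} (p : Fin k → Fin (r + 1) → ℂ) (m : Fin k → ℕ) :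
    Module.finrank ℂ (LinearMap.range (fullMat r d p m).mulVecLin) +
      Module.finrank ℂ (fatForms r d p m) = (d + r).choose r := by
  have h1 : fatForms r d p m = Submodule.map (toPoly (r + 1) d)
      (LinearMap.ker (fullMat r d p m).mulVecLin) := by
    ext F
    constructor
    · intro h
      refine ⟨fun α => coeff α.1 F, ?_, exists_toPoly h.1⟩
      rw [SetLike.mem_coe, LinearMap.mem_ker, Matrix.mulVecLin_apply]
      rw [← toPoly_mem_fatForms_full, exists_toPoly h.1]
      exact h
    · rintro ⟨f, hf, rfl⟩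
      rw [SetLike.mem_coe, LinearMap.mem_ker, Matrix.mulVecLin_apply] at hf
      exact (toPoly_mem_fatForms_full p m f).2 hf
  rw [h1, ← (Submodule.equivMapOfInjective _ (toPoly_injective _ _) _).finrank_eq,
    LinearMap.finrank_range_add_finrank_ker, Module.finrank_fintype_fun_eq_card,
    Fintype.card_coe, card_mons]

/-- Upper semicontinuity of `dim V_d(Γ)`. -/
theorem general_finrank_le {r k : ℕ} (d : ℕ) (p₀ : Fin k → Fin (r + 1) → ℂ) (m : Fin k → ℕ) :
    ForGeneralPoints r k fun p =>
      Module.finrank ℂ (fatForms r d p m) ≤ Module.finrank ℂ (fatForms r d p₀ m) := by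
  classical
  obtain ⟨G, hG1, hG2⟩ := exists_poly_rank (genFullMat r d m)
    (fun x : Fin k × Fin (r + 1) => p₀ x.1 x.2)
  refine ⟨G, ?_, fun p hp => ?_⟩
  · intro h0
    apply hG1
    rw [h0, map_zero]
  · have h1 := hG2 _ hp
    rw [genFullMat_map, genFullMat_map] at h1
    have h2 := rank_full_add_finrank (d := d) p m
    have h3 := rank_full_add_finrank (d := d) p₀ m
    omega

/-! ### Further points impose at most their length -/

/-! ### Linear changes of coordinates -/

/-- `F(Ax)`. -/
noncomputable def linSubst {n : ℕ} (A : Matrix (Fin n) (Fin n) ℂ) :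
    MvPolynomial (Fin n) ℂ →ₐ[ℂ] MvPolynomial (Fin n) ℂ :=
  aeval fun i => ∑ j, C (A i j) * X j

theorem linSubst_comp {n : ℕ} (A B : Matrix (Fin n) (Fin n) ℂ) (F : MvPolynomial (Fin n) ℂ) :
    linSubst B (linSubst A F) = linSubst (A * B) F := by
  have h : (linSubst B).comp (linSubst A) = linSubst (A * B) := by
    apply algHom_ext
    intro i
    simp only [linSubst, AlgHom.comp_apply, aeval_X, map_sum, map_mul, aeval_C, algebraMap_eq,
      Matrix.mul_apply]
    simp_rw [mul_sum]
    rw [sum_comm]
    refine sum_congr rfl fun j _ => ?_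
    rw [sum_mul]
    exact sum_congr rfl fun l _ => by ring
  exact DFunLike.congr_fun h F

theorem linSubst_one {n : ℕ} (F : MvPolynomial (Fin n) ℂ) : linSubst 1 F = F := by
  have h : linSubst (1 : Matrix (Fin n) (Fin n) ℂ) = AlgHom.id ℂ _ := by
    apply algHom_ext
    intro i
    simp only [linSubst, aeval_X, AlgHom.id_apply, Matrix.one_apply]
    rw [sum_eq_single i]
    · simp
    · intro j _ hj
      simp [Ne.symm hj]
    · intro h
      exact absurd (mem_univ i) h
  rw [h]
  rfl

theorem linSubst_shift {n : ℕ} (A : Matrix (Fin n) (Fin n) ℂ) (q : Fin n → ℂ)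
    (F : MvPolynomial (Fin n) ℂ) :
    shift q (linSubst A F) = linSubst A (shift (A.mulVec q) F) := by
  have h : (aeval (fun j => X j + C (q j)) :
      MvPolynomial (Fin n) ℂ →ₐ[ℂ] MvPolynomial (Fin n) ℂ).comp (linSubst A) =
      (linSubst A).comp (aeval (fun j => X j + C (A.mulVec q j))) := by
    apply algHom_ext
    intro i
    simp only [linSubst, AlgHom.comp_apply, aeval_X, map_sum, map_mul, aeval_C, algebraMap_eq,
      map_add, mul_add, sum_add_distrib, Matrix.mulVec, dotProduct]
  exact DFunLike.congr_fun h F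

theorem linSubst_isHomogeneous {n d : ℕ} (A : Matrix (Fin n) (Fin n) ℂ)
    {F : MvPolynomial (Fin n) ℂ} (hF : F.IsHomogeneous d) : (linSubst A F).IsHomogeneous d := by
  have h : ∀ i, (∑ j, C (A i j) * X j : MvPolynomial (Fin n) ℂ).IsHomogeneous 1 := by
    intro i
    apply IsHomogeneous.sum
    intro j _
    exact (isHomogeneous_C_mul_X _ _)
  have := hF.aeval _ h
  simpa [linSubst] using this

/-- Linear substitutions do not decrease the order at the origin. -/
theorem linSubst_order {n m : ℕ} (A : Matrix (Fin n) (Fin n) ℂ) {G : MvPolynomial (Fin n) ℂ}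
    (hG : ∀ β : Fin n →₀ ℕ, β.degree < m → coeff β G = 0) :
    ∀ β : Fin n →₀ ℕ, β.degree < m → coeff β (linSubst A G) = 0 := by
  rw [← mem_pow_idealOfVars_iff'] at hG ⊢
  have h1 := Ideal.mem_map_of_mem (linSubst A) hG
  rw [Ideal.map_pow] at h1
  refine Ideal.pow_right_mono ?_ m h1
  rw [idealOfVars, Ideal.map_span, Ideal.span_le]
  rintro _ ⟨_, ⟨i, rfl⟩, rfl⟩
  simp only [linSubst, aeval_X, SetLike.mem_coe]
  exact Ideal.sum_mem _ fun j _ => Ideal.mul_mem_left _ _ (Ideal.subset_span ⟨j, rfl⟩)

theorem vanishes_linSubst {n m : ℕ} {A : Matrix (Fin n) (Fin n) ℂ} {q : Fin n → ℂ}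
    {F : MvPolynomial (Fin n) ℂ} (h : VanishesToOrder F (A.mulVec q) m) :
    VanishesToOrder (linSubst A F) q m := by
  unfold VanishesToOrder
  rw [linSubst_shift]
  exact linSubst_order A h

/-- The dimension is invariant under linear changes of coordinates. -/
theorem finrank_linSubst {r d : ℕ} {ι : Type*} (p : ι → Fin (r + 1) → ℂ) (m : ι → ℕ)
    {A B : Matrix (Fin (r + 1)) (Fin (r + 1)) ℂ} (hAB : A * B = 1) :
    Module.finrank ℂ (fatForms r d (fun i => A.mulVec (p i)) m) =
      Module.finrank ℂ (fatForms r d p m) := by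
  have hBA : B * A = 1 := mul_eq_one_comm.1 hAB
  have key : ∀ (A B : Matrix (Fin (r + 1)) (Fin (r + 1)) ℂ) (p : ι → Fin (r + 1) → ℂ),
      A * B = 1 → Module.finrank ℂ (fatForms r d (fun i => A.mulVec (p i)) m) ≤
        Module.finrank ℂ (fatForms r d p m) := by
    intro A B p hAB
    have hinj : Function.Injective (linSubst A).toLinearMap := by
      intro F G hFG
      have h1 : linSubst B (linSubst A F) = linSubst B (linSubst A G) := by
        have : linSubst A F = linSubst A G := hFG
        rw [this]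
      rwa [linSubst_comp, linSubst_comp, hAB, linSubst_one, linSubst_one] at h1
    rw [(Submodule.equivMapOfInjective _ hinj
      (fatForms r d (fun i => A.mulVec (p i)) m)).finrank_eq]
    apply Submodule.finrank_mono
    rintro _ ⟨F, hF, rfl⟩
    exact ⟨linSubst_isHomogeneous A hF.1, fun i => vanishes_linSubst (hF.2 i)⟩
  refine le_antisymm (key A B p hAB) ?_
  have h := key B A (fun i => A.mulVec (p i)) hBA
  have h2 : (fun i => B.mulVec (A.mulVec (p i))) = p := by
    funext i
    rw [Matrix.mulVec_mulVec, hBA, Matrix.one_mulVec]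
  rwa [h2] at h

/-! ### Coordinate points -/

/-- Order of vanishing at a coordinate point. -/
theorem vanishes_coord_iff {n d m : ℕ} (f : mons n d → ℂ) (i : Fin n) :
    VanishesToOrder (toPoly n d f) (Pi.single i 1) m ↔
      ∀ α : mons n d, f α ≠ 0 → α.1 i + m ≤ d := by
  classical
  -- Taylor coefficients at the coordinate point
  have htc : ∀ α β : Fin n →₀ ℕ, tc (Pi.single i 1) α β =
      if ∀ j, j ≠ i → α j = β j then ((α i).choose (β i) : ℂ) else 0 := by
    intro α β
    split_ifs with h
    · unfold tc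
      rw [← mul_prod_erase univ _ (mem_univ i)]
      have h1 : ∏ x ∈ univ.erase i, (((α x).choose (β x) : ℂ) *
          (Pi.single i 1 : Fin n → ℂ) x ^ (α x - β x)) = 1 := by
        refine prod_eq_one fun x hx => ?_
        rw [h x (ne_of_mem_erase hx)]
        simp
      rw [h1]
      simp
    · push Not at h
      obtain ⟨j, hji, hj⟩ := h
      unfold tc
      apply prod_eq_zero (mem_univ j)
      rcases lt_or_gt_of_ne hj with h | h
      · rw [Nat.choose_eq_zero_of_lt h]
        simp
      · rw [Pi.single_eq_of_ne hji, zero_pow (by omega), mul_zero]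
  constructor
  · intro h α hα
    by_contra hlt
    push Not at hlt
    -- test with `β = α.erase i`
    have hdeg : (α.1.erase i).degree + α.1 i = d := by
      have h1 := mem_mons.1 α.2
      rw [Finsupp.degree_eq_sum] at h1 ⊢
      rw [← add_sum_erase univ _ (mem_univ i)] at h1 ⊢
      rw [Finsupp.erase_same, zero_add]
      have h2 : ∑ x ∈ univ.erase i, (α.1.erase i) x = ∑ x ∈ univ.erase i, α.1 x :=
        sum_congr rfl fun x hx => Finsupp.erase_ne (ne_of_mem_erase hx)
      rw [h2]
      omega
    have h3 := h (α.1.erase i) (by omega)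
    rw [coeff_shift_toPoly, sum_eq_single α] at h3
    · rw [htc, if_pos (fun j hj => (Finsupp.erase_ne hj).symm), Finsupp.erase_same,
        Nat.choose_zero_right, Nat.cast_one, mul_one] at h3
      exact hα h3
    · intro γ _ hγ
      rw [htc, if_neg, mul_zero]
      intro hall
      apply hγ
      apply Subtype.ext
      ext j
      have hj' : ∀ j, j ≠ i → γ.1 j = α.1 j := fun j hj => by
        rw [hall j hj, Finsupp.erase_ne hj]
      by_cases hj : j = i
      · subst hj
        have h4 := mem_mons.1 α.2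
        have h5 := mem_mons.1 γ.2
        rw [Finsupp.degree_eq_sum, ← add_sum_erase univ _ (mem_univ j)] at h4 h5
        have h6 : ∑ x ∈ univ.erase j, γ.1 x = ∑ x ∈ univ.erase j, α.1 x :=
          sum_congr rfl fun x hx => hj' x (ne_of_mem_erase hx)
        omega
      · exact hj' j hj
    · intro h4
      exact absurd (mem_univ _) h4
  · intro h β hβ
    rw [coeff_shift_toPoly]
    refine sum_eq_zero fun α _ => ?_
    by_cases hf : f α = 0
    · rw [hf, zero_mul]
    · rw [htc, if_neg, mul_zero]
      intro hall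
      have h1 := h α hf
      have h4 := mem_mons.1 α.2
      rw [Finsupp.degree_eq_sum, ← add_sum_erase univ _ (mem_univ i)] at h4 hβ
      have h6 : ∑ x ∈ univ.erase i, α.1 x = ∑ x ∈ univ.erase i, β x :=
        sum_congr rfl fun x hx => hall x (ne_of_mem_erase hx)
      omega

end Pool.Agent.H18.Fat

end
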