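import Pool.Agent.H94.LP1.M03
import Pool.Agent.H94.LP1.M06
import Pool.Agent.H94.LP1.M07
import Pool.Agent.H94.LP1.M08

/-! The parts of this file: H18.Cub.RunS, H18.Ex.Asm, H18.Cub.FinS, H18.Pr.FinN, H18.Pr.MainN, H18.Cub.CremA, H18.Cub.CremB. -/

section

/-!
# Module RunS: running along a good list of directions (abstract version)
-/

namespace Pool.Agent.H18.Cub

open Finset Pool.Agent.H18.Ex

variable {Λ : Type} [Fintype Λ] [DecidableEq Λ]

omit [Fintype Λ] in
theorem ew_nil' (a : Λ → ℕ) : ew [] a = a := by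
  funext i
  simp [ew]

omit [Fintype Λ] in
theorem ew_cons' (l : Λ) (L : List Λ) (a : Λ → ℕ) : ew (l :: L) a = ew L (dn l a) := by
  funext i
  unfold ew dn
  by_cases hi : i = l
  · subst hi
    rw [List.count_cons_self, Function.update_self]
    omega
  · rw [List.count_cons_of_ne (fun h => hi h.symm), Function.update_of_ne hi]

omit [Fintype Λ] in
theorem ew_append' (L L' : List Λ) (a : Λ → ℕ) : ew (L ++ L') a = ew L' (ew L a) := by
  funext i
  unfold ew
  rw [List.count_append, Nat.sub_sub]

private theorem shf_mono {S T : Multiset (ℕ × ℕ)} (h : S ≤ T) : shf S ≤ shf T :=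
  Multiset.filter_le_filter _ (Multiset.map_le_map h)

private theorem shf_iterate_mono (k : ℕ) {S T : Multiset (ℕ × ℕ)} (h : S ≤ T) :
    shf^[k] S ≤ shf^[k] T := by
  induction k generalizing S T with
  | zero => exact h
  | succ k ih =>
    rw [Function.iterate_succ_apply, Function.iterate_succ_apply]
    exact ih (shf_mono h)

end Pool.Agent.H18.Cub

end

section

/-!
# Module Asm: assembly of the induction step
-/

namespace Pool.Agent.H18.Ex

open Finset

section

variable {ι : Type} [Fintype ι] [DecidableEq ι]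

/-- Replace the forced conditions on `x_l = 0`. -/
def Cfg.upd (c : Cfg ι) (l : ι) (X : Multiset (ℕ × ℕ)) (s : ℕ) : Cfg ι where
  N := c.N
  s := s
  Φ := Function.update c.Φ l X

theorem Cfg.kinds_split (c : Cfg ι) (l : ι) :
    c.kinds = c.N.map Kind.free + Multiset.replicate c.s (Kind.free 1) +
      ∑ i ∈ univ.erase l, ((c.Φ i).map fun x => Kind.forced i x.1 x.2) +
      (c.Φ l).map fun x => Kind.forced l x.1 x.2 := by
  unfold Cfg.kinds
  rw [← add_sum_erase univ _ (mem_univ l), add_comm ((c.Φ l).map _), ← add_assoc]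

theorem Cfg.kinds_upd (c : Cfg ι) (l : ι) (X : Multiset (ℕ × ℕ)) (s : ℕ) :
    (c.upd l X s).kinds = c.N.map Kind.free + Multiset.replicate s (Kind.free 1) +
      ∑ i ∈ univ.erase l, ((c.Φ i).map fun x => Kind.forced i x.1 x.2) +
      X.map fun x => Kind.forced l x.1 x.2 := by
  rw [Cfg.kinds_split _ l]
  unfold Cfg.upd
  simp only [Function.update_self]
  congr 2
  refine sum_congr rfl fun i hi => ?_
  rw [Function.update_of_ne (ne_of_mem_erase hi)]

theorem Cfg.sz_split (n : ℕ) (c : Cfg ι) (l : ι) :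
    c.sz n = (c.N.map (ell (n + 1))).sum + c.s + ∑ i ∈ univ.erase l, c.fl n i + c.fl n l := by
  unfold Cfg.sz Cfg.nsz
  rw [← add_sum_erase univ _ (mem_univ l), add_comm (c.fl n l), ← add_assoc]

theorem Cfg.sz_upd (n : ℕ) (c : Cfg ι) (l : ι) (X : Multiset (ℕ × ℕ)) (s : ℕ) :
    (c.upd l X s).sz n = (c.N.map (ell (n + 1))).sum + s + ∑ i ∈ univ.erase l, c.fl n i +
      (X.map fun x => ell (n + 1) x.1 + 1 - x.2).sum := by
  rw [Cfg.sz_split _ _ l]
  unfold Cfg.upd Cfg.fl
  simp only [Function.update_self]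
  congr 2
  refine sum_congr rfl fun i hi => ?_
  rw [Function.update_of_ne (ne_of_mem_erase hi)]

theorem Cfg.tr_upd_self (n : ℕ) (c : Cfg ι) (l : ι) (X : Multiset (ℕ × ℕ)) (s : ℕ) :
    (c.upd l X s).tr n l = (X.map fun x => ell n x.1).sum := by
  unfold Cfg.upd Cfg.tr
  simp only [Function.update_self]

theorem Cfg.OK_upd {M : ℕ} {c : Cfg ι} (hc : c.OK M) (l : ι) (X : Multiset (ℕ × ℕ)) (s : ℕ)
    (hX : ∀ x ∈ X, 1 ≤ x.2 ∧ x.2 ≤ 2 ∧ x.2 ≤ x.1 ∧ x.1 ≤ M) : (c.upd l X s).OK M := by
  refine ⟨hc.hN, ?_⟩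
  intro l' x hx
  by_cases h : l' = l
  · subst h
    rw [show (c.upd l' X s).Φ l' = X from Function.update_self _ _ _] at hx
    exact hX x hx
  · rw [show (c.upd l X s).Φ l' = c.Φ l' from Function.update_of_ne h _ _] at hx
    exact hc.hΦ l' x hx

omit [Fintype ι] [DecidableEq ι] in
/-- Numbers of the shift of a valid multiset of forced conditions. -/
theorem shf_numbers (n M : ℕ) (hn : 1 ≤ n) (X : Multiset (ℕ × ℕ))
    (hX : ∀ x ∈ X, 1 ≤ x.2 ∧ x.2 ≤ 2 ∧ x.2 ≤ x.1 ∧ x.1 ≤ M) :
    (∀ x ∈ shf X, 1 ≤ x.2 ∧ x.2 ≤ 2 ∧ x.2 ≤ x.1 ∧ x.1 ≤ M) ∧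
    ((shf X).map fun x => ell (n + 1) x.1 + 1 - x.2).sum + (X.map fun x => ell n x.1).sum =
      (X.map fun x => ell (n + 1) x.1 + 1 - x.2).sum ∧
    M * ((shf X).map fun x => ell n x.1).sum ≤ (M - 1) * (X.map fun x => ell n x.1).sum := by
  induction X using Multiset.induction_on with
  | empty => simp [shf]
  | cons y X ih =>
    obtain ⟨h1, h2, h3⟩ := ih fun x hx => hX x (Multiset.mem_cons_of_mem hx)
    obtain ⟨hy1, hy2, hy3, hy4⟩ := hX y (Multiset.mem_cons_self _ _)
    obtain ⟨c, hc⟩ : ∃ c, y.1 = c + 1 := ⟨y.1 - 1, by omega⟩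
    have hs := ell_succ n c
    have hr := ell_ratio (n := n) (c := c) (M := M) hn (by omega)
    by_cases hlt : y.2 ≤ c
    · have hshf : shf (y ::ₘ X) = (y.1 - 1, y.2) ::ₘ shf X := by
        unfold shf
        rw [Multiset.map_cons, Multiset.filter_cons_of_pos]
        simp only
        omega
      rw [hshf]
      refine ⟨?_, ?_, ?_⟩
      · intro x hx
        rcases Multiset.mem_cons.1 hx with rfl | hx
        · simp only
          omega
        · exact h1 x hx
      · simp only [Multiset.map_cons, Multiset.sum_cons]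
        rw [hc] at *
        simp only [Nat.add_sub_cancel]
        have hp : 1 ≤ ell (n + 1) c := ell_pos _ (by omega)
        omega
      · simp only [Multiset.map_cons, Multiset.sum_cons, mul_add]
        rw [hc]
        simp only [Nat.add_sub_cancel]
        omega
    · have hshf : shf (y ::ₘ X) = shf X := by
        unfold shf
        rw [Multiset.map_cons, Multiset.filter_cons_of_neg]
        simp only
        omega
      rw [hshf]
      have hy : y.2 = c + 1 := by omega
      refine ⟨h1, ?_, ?_⟩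
      · simp only [Multiset.map_cons, Multiset.sum_cons]
        rw [hc, hy]
        have hc2 : c = 0 ∨ c = 1 := by omega
        rcases hc2 with rfl | rfl
        · rw [ell_one, ell_one]
          omega
        · have h5 := ell_succ n 1
          rw [ell_one] at h5
          rw [h5]
          omega
      · simp only [Multiset.map_cons, Multiset.sum_cons, mul_add]
        omega

omit [Fintype ι] [DecidableEq ι] in
theorem shf_iterate_replicate (s c j : ℕ) (hj : j ≤ c) :
    shf^[j] (Multiset.replicate s (c + 1, 1)) = Multiset.replicate s (c - j + 1, 1) := by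
  induction j with
  | zero => rfl
  | succ j ih =>
    rw [Function.iterate_succ_apply', ih (by omega)]
    unfold shf
    rw [Multiset.map_replicate, Multiset.filter_eq_self.2]
    · congr 2
      simp only
      omega
    · intro x hx
      rw [Multiset.eq_of_mem_replicate hx]
      simp only
      omega

end

end Pool.Agent.H18.Ex

end

section

/-!
# Module FinS: the two endings (abstract version)
-/

namespace Pool.Agent.H18.Cub

open Finset Pool.Agent.H18.Ex

variable {Λ : Type} [Fintype Λ] [DecidableEq Λ]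

private theorem fin_shf_aux (j : ℕ) (S : Multiset (ℕ × ℕ))
    (hS : ∀ x ∈ S, 1 ≤ x.2 ∧ x.2 ≤ x.1 ∧ x.1 ≤ j) : shf^[j] S = 0 :=
  shf_iterate_eq_zero le_rfl S hS

omit [Fintype Λ] in
private theorem fin_count_clean (M : ℕ) (dirs : List Λ) (l : Λ) (hl : l ∈ dirs) :
    M + 1 ≤ (clean M dirs).count l := by
  unfold clean
  induction dirs with
  | nil => exact absurd hl List.not_mem_nil
  | cons d ds ih =>
    rw [List.flatMap_cons, List.count_append]
    by_cases h : l = d
    · subst h
      rw [List.count_replicate_self]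
      exact Nat.le_add_right _ _
    · have h1 : l ∈ ds := by
        rcases List.mem_cons.1 hl with h2 | h2
        · exact absurd h2 h
        · exact h2
      exact le_trans (ih h1) (Nat.le_add_left _ _)

omit [DecidableEq Λ] in
private theorem fin_kinds_simple {c : Cfg Λ} (hN : c.N = 0) (hΦ : ∀ l, c.Φ l = 0) :
    c.kinds = (Multiset.replicate c.s 1).map Kind.free + 0 := by
  have h1 : c.kinds = c.N.map Kind.free + Multiset.replicate c.s (Kind.free 1) +
      ∑ l, (c.Φ l).map fun x => Kind.forced l x.1 x.2 := rfl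
  rw [h1, hN, Finset.sum_eq_zero (fun l _ => by rw [hΦ l, Multiset.map_zero]),
    Multiset.map_zero, zero_add, Multiset.map_replicate]

end Pool.Agent.H18.Cub

end

section

/-!
# Module FinN: the two endings (abstract version, traces of dimension `n`)
-/

namespace Pool.Agent.H18.Pr

open Finset Pool.Agent.H18.Ex Pool.Agent.H18.Cub

variable {Λ : Type} [Fintype Λ] [DecidableEq Λ] {n : ℕ}

/-- The simple points behave as expected at the state `a`. -/
def FullN (Y : SysN Λ n) (a : Λ → ℕ) : Prop :=
  1 ≤ Y.R a ∧ ∀ n : ℕ, Y.R a ≤ n → Y.K a (Multiset.replicate n (Kind.free 1))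

theorem fullN_zero (Y : SysN Λ n) : FullN Y 0 := by
  refine ⟨by rw [Y.base_R], fun n hn => ?_⟩
  rw [Y.base_R] at hn
  refine Y.mono _ {Kind.free 1} _ ?_ Y.base
  rw [Multiset.singleton_le, Multiset.mem_replicate]
  exact ⟨by omega, rfl⟩

/-- One step; the trace is killed by the expected number of simple points. -/
theorem FullN.step {Y : SysN Λ n} {a : Λ → ℕ} (l : Λ) (ha : 1 ≤ a l) (hF : 1 ≤ Y.F l a)
    (hT : Y.tr l a (Multiset.replicate (Y.F l a) 1)) (h : FullN Y (dn l a)) : FullN Y a := by
  have hc := Y.count a l ha hF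
  refine ⟨by have := h.1; omega, fun n hn => ?_⟩
  have h1 : Y.F l a ≤ n := by
    have := h.1
    omega
  obtain ⟨n', rfl⟩ := Nat.exists_eq_add_of_le' h1
  have h2 := Y.step a l ha 1 le_rfl
    (Multiset.replicate n' (Role.stay (Kind.free 1)) +
      Multiset.replicate (Y.F l a) (Role.ord 1)) ?_ ?_ ?_
  · rw [Multiset.map_add, Multiset.map_replicate, Multiset.map_replicate] at h2
    rw [Multiset.replicate_add]
    exact h2
  · intro k hk
    rw [Multiset.mem_add, Multiset.mem_replicate, Multiset.mem_replicate] at hk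
    rcases hk with ⟨_, hk⟩ | ⟨_, hk⟩
    · cases hk
      trivial
    · cases hk
  · rw [Multiset.map_add, Multiset.map_replicate, Multiset.map_replicate]
    exact Y.tr_mono _ _ _ _ (Multiset.le_add_left _ _) hT
  · rw [Multiset.map_add, Multiset.map_replicate]
    refine Y.mono _ _ _ (Multiset.le_add_right _ _) ?_
    exact h.2 n' (by push_cast at hn; omega)

/-- Free points of multiplicity at least one. -/
theorem FullN.of_card {Y : SysN Λ n} {a : Λ → ℕ} (h : FullN Y a) (T : Multiset ℕ)
    (S : Multiset (Kind Λ)) (hT : ∀ m ∈ T, 1 ≤ m) (hc : Y.R a ≤ T.card) :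
    Y.K a (T.map Kind.free + S) :=
  Y.free_mono a T S hT (Y.mono _ _ _ (Multiset.le_add_right _ _) (h.2 _ hc))

theorem fin_shf_aux (j : ℕ) (S : Multiset (ℕ × ℕ))
    (hS : ∀ x ∈ S, 1 ≤ x.2 ∧ x.2 ≤ x.1 ∧ x.1 ≤ j) : shf^[j] S = 0 :=
  shf_iterate_eq_zero le_rfl S hS

omit [Fintype Λ] in
theorem fin_count_clean (M : ℕ) (dirs : List Λ) (l : Λ) (hl : l ∈ dirs) :
    M + 1 ≤ (clean M dirs).count l := by
  unfold clean
  induction dirs with
  | nil => exact absurd hl List.not_mem_nil
  | cons d ds ih =>
    rw [List.flatMap_cons, List.count_append]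
    by_cases h : l = d
    · subst h
      rw [List.count_replicate_self]
      exact Nat.le_add_right _ _
    · have h1 : l ∈ ds := by
        rcases List.mem_cons.1 hl with h2 | h2
        · exact absurd h2 h
        · exact h2
      exact le_trans (ih h1) (Nat.le_add_left _ _)

omit [DecidableEq Λ] in
theorem fin_kinds_simple {c : Cfg Λ} (hN : c.N = 0) (hΦ : ∀ l, c.Φ l = 0) :
    c.kinds = (Multiset.replicate c.s 1).map Kind.free + 0 := by
  have h1 : c.kinds = c.N.map Kind.free + Multiset.replicate c.s (Kind.free 1) +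
      ∑ l, (c.Φ l).map fun x => Kind.forced l x.1 x.2 := rfl
  rw [h1, hN, Finset.sum_eq_zero (fun l _ => by rw [hΦ l, Multiset.map_zero]),
    Multiset.map_zero, zero_add, Multiset.map_replicate]

end Pool.Agent.H18.Pr

end

section

/-!
# Module MainN: the bridging argument (abstract version, traces of dimension `n`)
-/

namespace Pool.Agent.H18.Pr

open Finset Pool.Agent.H18.Ex Pool.Agent.H18.Cub

variable {Λ : Type} [Fintype Λ] [DecidableEq Λ] {n : ℕ}

/-- Bridging for configurations. -/
theorem bridge_cfgN (Y : SysN Λ n) (c : Cfg Λ) (l : Λ) (s₀ : ℕ)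
    (hs : Multiset.replicate s₀ (1, 1) ≤ c.Φ l) (a : Λ → ℕ) (ha : 1 ≤ a l)
    (h1 : Y.K a (c.upd l (c.Φ l - Multiset.replicate s₀ (1, 1)) (c.s + s₀)).kinds)
    (h2 : Y.K (dn l a) (c.upd l (shf (c.Φ l - Multiset.replicate s₀ (1, 1))) c.s).kinds) :
    Y.K a c.kinds := by
  set X := c.Φ l - Multiset.replicate s₀ (1, 1) with hX
  have hXs : c.Φ l = X + Multiset.replicate s₀ (1, 1) := by
    rw [hX, tsub_add_cancel_of_le hs]
  set S : Multiset (Kind Λ) := c.N.map Kind.free + Multiset.replicate c.s (Kind.free 1) +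
      ∑ i ∈ univ.erase l, ((c.Φ i).map fun x => Kind.forced i x.1 x.2) +
      X.map fun x => Kind.forced l x.1 x.2 with hS
  have e1 : c.kinds = S + Multiset.replicate s₀ (Kind.forced l 1 1) := by
    rw [Cfg.kinds_split c l, hXs, Multiset.map_add, Multiset.map_replicate, ← add_assoc]
  rw [e1]
  apply Y.bridge a l ha S s₀
  · rw [Cfg.kinds_upd] at h1
    convert h1 using 1
    rw [hS, Multiset.replicate_add]
    abel
  · rw [Cfg.kinds_upd] at h2
    refine Y.mono _ _ _ ?_ h2
    rw [hS, Multiset.map_add, Multiset.map_add, Multiset.map_add]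
    have e2 : (c.N.map (Kind.free : ℕ → Kind Λ)).map (Kind.dn l) = c.N.map Kind.free := by
      rw [Multiset.map_map]
      rfl
    have e3 : (Multiset.replicate c.s (Kind.free 1 : Kind Λ)).map (Kind.dn l) =
        Multiset.replicate c.s (Kind.free 1) := by
      rw [Multiset.map_replicate]
      rfl
    have e4 : (∑ i ∈ univ.erase l, ((c.Φ i).map fun x => Kind.forced i x.1 x.2)).map
        (Kind.dn l) = ∑ i ∈ univ.erase l, ((c.Φ i).map fun x => Kind.forced i x.1 x.2) := by
      have e5 : ∀ (T : Finset Λ), (∀ i ∈ T, i ≠ l) →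
          (∑ i ∈ T, ((c.Φ i).map fun x => Kind.forced i x.1 x.2)).map (Kind.dn l) =
            ∑ i ∈ T, ((c.Φ i).map fun x => Kind.forced i x.1 x.2) := by
        intro T
        induction T using Finset.induction_on with
        | empty => simp
        | insert i T hi ih =>
          intro hT
          rw [sum_insert hi, Multiset.map_add, ih fun j hj => hT j (mem_insert_of_mem hj),
            Multiset.map_map]
          congr 1
          refine Multiset.map_congr rfl fun x _ => ?_
          simp only [Function.comp_apply, Kind.dn]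
          rw [if_neg (hT i (mem_insert_self _ _))]
      exact e5 _ fun i hi => ne_of_mem_erase hi
    rw [e2, e3, e4]
    refine add_le_add le_rfl ?_
    unfold shf
    rw [Multiset.map_map]
    refine (Multiset.map_le_map (Multiset.filter_le _ _)).trans (le_of_eq ?_)
    rw [Multiset.map_map]
    refine Multiset.map_congr rfl fun x _ => ?_
    simp [Kind.dn]

end Pool.Agent.H18.Pr

end

section

/-!
# Module CremA: `r + 1` points at the coordinate points
-/

namespace Pool.Agent.H18.Cub

open Finset Pool.Agent.H18.Ex Pool.Agent.H18.Fat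

/-- The conditions outside `J` and `x` simple points. -/
def kkJ {r k : ℕ} (m : Fin k → ℕ) (J : Fin (r + 1) ↪ Fin k) (x : ℕ) :
    {i : Fin k // ∀ l, J l ≠ i} ⊕ Fin x → Kind (Fin (r + 1)) :=
  Sum.elim (fun i => Kind.free (m i.1)) fun _ => Kind.free 1

theorem exists_of_general {r k : ℕ} {P : (Fin k → Fin (r + 1) → ℂ) → Prop}
    (h : ForGeneralPoints r k P) : ∃ p, P p := by
  obtain ⟨G, hG, hP⟩ := h
  by_contra hc
  push Not at hc
  apply hG
  apply MvPolynomial.funext
  intro v
  rw [map_zero]
  by_contra hv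
  exact hc (fun i j => v (i, j)) (hP _ hv)

open Classical in
/-- The form with coefficients `f` on `Rg d w`. -/
noncomputable def formOf {n : ℕ} (d : ℕ) (w : Fin n → ℕ) (f : (Fin n → ℕ) → ℂ) :
    MvPolynomial (Fin n) ℂ :=
  toPoly n d fun α => if (⇑α.1 : Fin n → ℕ) ∈ Rg d w then f ⇑α.1 else 0

theorem coeff_shift_formOf {n d : ℕ} {w : Fin n → ℕ} (f : (Fin n → ℕ) → ℂ) (q : Fin n → ℂ)
    (β : Fin n →₀ ℕ) :
    MvPolynomial.coeff β (shift q (formOf d w f)) = ∑ a ∈ Ex.Rg d w, f a * tcr q a ⇑β := by
  classical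
  unfold formOf
  rw [coeff_shift_toPoly]
  rw [Finset.sum_coe_sort (mons n d)
    (fun α => (if (⇑α : Fin n → ℕ) ∈ Ex.Rg d w then f ⇑α else 0) * tc q α β)]
  symm
  apply sum_bij_ne_zero (fun (a : Fin n → ℕ) _ _ => Finsupp.equivFunOnFinite.symm a)
  · intro a ha _
    rw [mem_mons, Finsupp.degree_eq_sum]
    exact (Ex.mem_Rg.1 ha).2
  · intro a _ _ a' _ _ haa
    exact Finsupp.equivFunOnFinite.symm.injective haa
  · intro α _ hne
    have hα : (⇑α : Fin n → ℕ) ∈ Ex.Rg d w := by
      by_contra hc
      rw [if_neg hc, zero_mul] at hne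
      exact hne rfl
    rw [if_pos hα] at hne
    refine ⟨⇑α, hα, hne, ?_⟩
    ext
    rfl
  · intro a ha _
    have h1 : (⇑(Finsupp.equivFunOnFinite.symm a) : Fin n → ℕ) = a := rfl
    rw [h1, if_pos ha]
    rfl

theorem vanishes_formOf {n d : ℕ} {w : Fin n → ℕ} {f : (Fin n → ℕ) → ℂ} {q : Fin n → ℂ} {m : ℕ}
    (h : Sat (Ex.Rg d w) f (Kind.free m) q) : VanishesToOrder (formOf d w f) q m := by
  intro β hβ
  rw [coeff_shift_formOf]
  apply h ⇑β
  change ∑ i, β i < m
  rwa [Finsupp.degree_eq_sum] at hβ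

/-- From general points to the toric form.  Choose general `p` (two open conditions, a nonzero
polynomial has a nonzero), move the points `J l` to the coordinate points by `finrank_linear`, add
`x` simple points (`exists_simple_points`), and translate: a coefficient function `f` on
`Rg d w`, `w l = d - m (J l)`, satisfying the conditions gives the form `∑ f a X^a`, which vanishes to
order `m (J l)` at the coordinate points (`vanishes_coord_iff`). -/
theorem GI_of_general {r k d : ℕ} (m : Fin k → ℕ) (J : Fin (r + 1) ↪ Fin k)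
    (hJ : ∀ l, m (J l) ≤ d) (x : ℕ)
    (h : ForGeneralPoints r k fun p => Module.finrank ℂ (fatForms r d p m) ≤ x) :
    GI (Ex.Rg d fun l => d - m (J l)) (kkJ m J x) := by
  classical
  obtain ⟨p, hp, hdet⟩ := exists_of_general (h.and (Pool.Agent.H18.Fat.general_det J))
  set A : Matrix (Fin (r + 1)) (Fin (r + 1)) ℂ := Matrix.of fun j l => p (J l) j with hA
  have hunit : IsUnit A := by
    rw [Matrix.isUnit_iff_isUnit_det]
    exact isUnit_iff_ne_zero.2 hdet
  obtain ⟨B, hB⟩ := isUnit_iff_exists_inv.1 hunit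
  have hBA : B * A = 1 := mul_eq_one_comm.1 hB
  have h1 := finrank_linSubst (d := d) p m hBA
  set p' : Fin k → Fin (r + 1) → ℂ := fun i => B.mulVec (p i) with hp'
  have hcoord : ∀ l, p' (J l) = Pi.single l 1 := by
    intro l
    have h2 : p (J l) = A.mulVec (Pi.single l 1) := by
      funext j
      rw [Matrix.mulVec_single_one]
      rfl
    rw [hp']
    simp only
    rw [h2, Matrix.mulVec_mulVec, hBA, Matrix.one_mulVec]
  obtain ⟨y, -, hy⟩ := exists_simple_points (d := d) p' m x
  rw [h1, Nat.sub_eq_zero_of_le hp] at hy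
  refine ⟨Sum.elim (fun i => p' i.1) y, ?_⟩
  intro f hf a ha
  set w : Fin (r + 1) → ℕ := fun l => d - m (J l) with hw
  have hmem : formOf d w f ∈ fatForms r d (Sum.elim p' y) (Sum.elim m fun _ => 1) := by
    refine ⟨toPoly_isHomogeneous _, ?_⟩
    rintro (i | j)
    · by_cases hi : ∀ l, J l ≠ i
      · exact vanishes_formOf (hf (Sum.inl ⟨i, hi⟩))
      · push Not at hi
        obtain ⟨l, rfl⟩ := hi
        change VanishesToOrder (formOf d w f) (p' (J l)) (m (J l))
        rw [hcoord]
        unfold formOf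
        rw [vanishes_coord_iff]
        intro α hα
        have h2 : (⇑α.1 : Fin (r + 1) → ℕ) ∈ Ex.Rg d w := by
          by_contra hc
          exact hα (if_neg hc)
        have h3 := (Ex.mem_Rg.1 h2).1 l
        have h4 := hJ l
        simp only [hw] at h3
        omega
    · exact vanishes_formOf (hf (Sum.inr j))
  have hbot := Submodule.finrank_eq_zero.1 hy
  rw [hbot, Submodule.mem_bot] at hmem
  unfold formOf at hmem
  have h5 := toPoly_injective _ _ (hmem.trans (map_zero (toPoly (r + 1) d)).symm)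
  have had : Finsupp.equivFunOnFinite.symm a ∈ mons (r + 1) d := by
    rw [mem_mons, Finsupp.degree_eq_sum]
    exact (Ex.mem_Rg.1 ha).2
  have h6 := congrFun h5 ⟨Finsupp.equivFunOnFinite.symm a, had⟩
  have h7 : (⇑(Finsupp.equivFunOnFinite.symm a) : Fin (r + 1) → ℕ) = a := rfl
  simp only at h6
  rw [h7, if_pos ha] at h6
  exact h6

/-- From the toric form to a special configuration (see `exists_special` in
`Pool.Agent.H18.Ex.Final`, second half of the proof). -/
theorem special_of_GI {r k d : ℕ} (m : Fin k → ℕ) (J : Fin (r + 1) ↪ Fin k)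
    (hJ : ∀ l, m (J l) ≤ d) (x : ℕ)
    (h : GI (Ex.Rg d fun l : Fin (r + 1) => d - m (J l)) (kkJ m J x)) :
    ∃ p₀ : Fin k → Fin (r + 1) → ℂ, Module.finrank ℂ (fatForms r d p₀ m) ≤ x := by
  classical
  set w : Fin (r + 1) → ℕ := fun l => d - m (J l) with hw
  obtain ⟨pos, hpos⟩ := h
  -- the special configuration
  let p₀ : Fin k → Fin (r + 1) → ℂ := fun i =>
    if hi : ∀ l, J l ≠ i then pos (Sum.inl ⟨i, hi⟩) else Pi.single (Function.invFun J i) 1
  refine ⟨p₀, ?_⟩
  -- the support
  have hsupp : ∀ F ∈ fatForms r d p₀ m, ∀ α ∈ F.support, (⇑α : Fin (r + 1) → ℕ) ∈ Ex.Rg d w := by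
    intro F hF α hα
    rw [MvPolynomial.mem_support_iff] at hα
    have hαd : α ∈ mons (r + 1) d := by
      rw [mem_mons]
      by_contra h
      exact hα (hF.1.coeff_eq_zero h)
    rw [Ex.mem_Rg]
    have hdeg := mem_mons.1 hαd
    rw [Finsupp.degree_eq_sum] at hdeg
    refine ⟨fun l => ?_, hdeg⟩
    have hi : ¬ ∀ l', J l' ≠ J l := fun h => h l rfl
    have h3 := hF.2 (J l)
    have hp : p₀ (J l) = Pi.single l 1 := by
      simp only [p₀]
      rw [dif_neg hi, Function.leftInverse_invFun J.injective]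
    rw [hp, ← exists_toPoly hF.1, vanishes_coord_iff] at h3
    have h4 := h3 ⟨α, hαd⟩ hα
    simp only [hw]
    simp only at h4
    omega
  let Ψ : fatForms r d p₀ m →ₗ[ℂ] (Fin x → ℂ) :=
    { toFun := fun F j => ∑ a ∈ Ex.Rg d w, cf F.1 a * tcr (pos (Sum.inr j)) a 0
      map_add' := fun F G => by
        funext j
        simp only [Submodule.coe_add, cf, MvPolynomial.coeff_add, Pi.add_apply, add_mul,
          sum_add_distrib]
      map_smul' := fun c F => by
        funext j
        simp only [Submodule.coe_smul, cf, MvPolynomial.coeff_smul, smul_eq_mul, RingHom.id_apply,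
          Pi.smul_apply, mul_sum, mul_assoc] }
  have hΨ : Function.Injective Ψ := by
    rw [← LinearMap.ker_eq_bot, LinearMap.ker_eq_bot']
    intro F hF
    have h1 : ∀ i, Sat (Ex.Rg d w) (cf F.1) (kkJ m J x i) (pos i) := by
      rintro (i | j)
      · have h2 := F.2.2 i.1
        have h3 : p₀ i.1 = pos (Sum.inl i) := by
          simp only [p₀]
          rw [dif_pos i.2]
        rw [h3] at h2
        exact sat_of_vanishes (hsupp F.1 F.2) h2
      · intro b hb
        have hb0 : b = 0 := by
          change ∑ i, b i < 1 at hb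
          have h2 : ∑ i, b i = 0 := by omega
          rw [sum_eq_zero_iff] at h2
          funext i
          exact h2 i (mem_univ _)
        subst hb0
        exact congrFun hF j
    have h2 := hpos (cf F.1) h1
    apply Subtype.ext
    change F.1 = 0
    by_contra hne
    obtain ⟨α, hα⟩ := MvPolynomial.ne_zero_iff.1 hne
    have h3 := hsupp F.1 F.2 α (MvPolynomial.mem_support_iff.2 hα)
    have h4 := h2 _ h3
    unfold cf at h4
    rw [show Finsupp.equivFunOnFinite.symm (⇑α) = α from by ext; rfl] at h4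
    exact hα h4
  have := LinearMap.finrank_le_finrank_of_injective hΨ
  rwa [Module.finrank_fintype_fun_eq_card, Fintype.card_fin] at this

end Pool.Agent.H18.Cub

end

section

/-!
# Module CremB: invariance of the general dimension under Cremona transformations
-/

namespace Pool.Agent.H18.Cub

open Finset Pool.Agent.H18.Ex Pool.Agent.H18.Fat

/-- Reflection for families of free conditions (`GM.reflect`, `GM_iff`). -/
theorem GI.reflect_free {ι : Type} [Fintype ι] [DecidableEq ι] (σ : ℕ) (w : ι → ℕ)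
    (hσ : σ ≤ ∑ i, w i) {κ : Type} [Fintype κ] (k : κ → Kind ι)
    (hk : ∀ i, ∃ m, k i = Kind.free m) (h : GI (Rg (∑ i, w i - σ) w) k) : GI (Rg σ w) k := by
  obtain ⟨pos, hpos, -, hne⟩ := GI.exists_common h h
  refine ⟨fun i j => (pos i j)⁻¹, ?_⟩
  intro f hf a ha
  have h2 : ∀ i, Sat (Rg (∑ i, w i - σ) w) (fun a => f (fun i => w i - a i)) (k i) (pos i) := by
    intro i
    obtain ⟨m, hm⟩ := hk i
    have h3 := hf i
    rw [hm] at h3 ⊢
    have h4 := sat_reflect σ w hσ f m (fun j => (pos i j)⁻¹) (fun j => inv_ne_zero (hne i j)) h3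
    simpa only [inv_inv] using h4
  have h5 := hpos _ h2 _ (refl_mem ha)
  simp only [refl_refl ha] at h5
  exact h5

/-- One Cremona transformation, based at the points `J l`: `d' = r d - ∑ m (J l)`,
`m' (J l) = max {0, d' + m (J l) - d}`.  With `w l = d - m (J l)` we have `∑ w - d = d'`, and
`Rg d' w = Rg d' w'` for `w' l = d' - m' (J l) = min (w l) d'`. -/
theorem cremona_le {r k d d' : ℕ} (m m' : Fin k → ℕ) (J : Fin (r + 1) ↪ Fin k)
    (hJ : ∀ l, m (J l) ≤ d) (hd' : ∑ l, m (J l) + d' = r * d)
    (hm'J : ∀ l, m' (J l) = d' + m (J l) - d) (hm' : ∀ i, (∀ l, J l ≠ i) → m' i = m i) (x : ℕ) :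
    (∃ p : Fin k → Fin (r + 1) → ℂ, Module.finrank ℂ (fatForms r d p m) ≤ x) ↔
      ∃ p : Fin k → Fin (r + 1) → ℂ, Module.finrank ℂ (fatForms r d' p m') ≤ x := by
  have hgen : ∀ (e : ℕ) (n : Fin k → ℕ),
      (∃ p : Fin k → Fin (r + 1) → ℂ, Module.finrank ℂ (fatForms r e p n) ≤ x) →
      ForGeneralPoints r k fun p => Module.finrank ℂ (fatForms r e p n) ≤ x := by
    rintro e n ⟨p₀, hp₀⟩
    obtain ⟨G, hG, H⟩ := general_finrank_le e p₀ n
    exact ⟨G, hG, fun p hp => (H p hp).trans hp₀⟩
  have hsum : ∑ l : Fin (r + 1), (d - m (J l)) = d + d' := by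
    have h1 : ∑ l : Fin (r + 1), (d - m (J l)) + ∑ l : Fin (r + 1), m (J l) = (r + 1) * d := by
      rw [← Finset.sum_add_distrib]
      rw [Finset.sum_congr rfl fun l _ => Nat.sub_add_cancel (hJ l)]
      simp
    have h2 : (r + 1) * d = r * d + d := by ring
    omega
  have hJ' : ∀ l, m' (J l) ≤ d' := by
    intro l
    have := hm'J l
    have := hJ l
    omega
  have hkk : kkJ m' J x = kkJ m J x := by
    funext i
    rcases i with i | i
    · change Kind.free (m' i.1) = Kind.free (m i.1)
      rw [hm' i.1 i.2]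
    · rfl
  have hRg : Ex.Rg d' (fun l => d' - m' (J l)) = Ex.Rg d' fun l => d - m (J l) := by
    ext a
    rw [Ex.mem_Rg, Ex.mem_Rg]
    constructor
    · rintro ⟨h1, h2⟩
      refine ⟨fun l => ?_, h2⟩
      have h3 := h1 l
      have h4 := hm'J l
      have h5 := hJ l
      omega
    · rintro ⟨h1, h2⟩
      refine ⟨fun l => ?_, h2⟩
      have h3 := h1 l
      have h4 := hm'J l
      have h5 := hJ l
      have h6 : a l ≤ d' := by
        rw [← h2]
        exact Finset.single_le_sum (f := a) (fun _ _ => Nat.zero_le _) (Finset.mem_univ l)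
      omega
  have hfree : ∀ i, ∃ n, kkJ m J x i = Kind.free n := by
    rintro (i | i)
    · exact ⟨_, rfl⟩
    · exact ⟨_, rfl⟩
  constructor
  · intro h
    have h1 := GI_of_general m J hJ x (hgen d m h)
    have h2 : GI (Ex.Rg d' fun l => d - m (J l)) (kkJ m J x) := by
      refine GI.reflect_free d' (fun l => d - m (J l)) ?_ _ hfree ?_
      · rw [hsum]
        omega
      · have h3 : ∑ i : Fin (r + 1), (d - m (J i)) - d' = d := by omega
        rw [h3]
        exact h1
    apply special_of_GI m' J hJ' x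
    rw [hkk, hRg]
    exact h2
  · intro h
    have h1 := GI_of_general m' J hJ' x (hgen d' m' h)
    rw [hkk, hRg] at h1
    apply special_of_GI m J hJ x
    refine GI.reflect_free d (fun l => d - m (J l)) ?_ _ hfree ?_
    · rw [hsum]
      omega
    · have h3 : ∑ i : Fin (r + 1), (d - m (J i)) - d = d' := by omega
      rw [h3]
      exact h1

/-- The general dimension is the smallest one. -/
theorem general_iff {r k d : ℕ} (m : Fin k → ℕ) (v : ℕ) :
    (ForGeneralPoints r k fun p => Module.finrank ℂ (fatForms r d p m) = v) ↔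
      ∀ x : ℕ, (∃ p : Fin k → Fin (r + 1) → ℂ, Module.finrank ℂ (fatForms r d p m) ≤ x) ↔
        v ≤ x := by
  constructor
  · intro h x
    constructor
    · rintro ⟨p₀, hp₀⟩
      obtain ⟨p, hp1, hp2⟩ := exists_of_general (h.and (general_finrank_le d p₀ m))
      omega
    · intro hv
      obtain ⟨p, hp⟩ := exists_of_general h
      exact ⟨p, hp.le.trans hv⟩
  · intro h
    obtain ⟨p₀, hp₀⟩ := (h v).2 le_rfl
    obtain ⟨G, hG, H⟩ := general_finrank_le d p₀ m
    refine ⟨G, hG, fun p hp => le_antisymm ((H p hp).trans hp₀) ?_⟩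
    exact (h _).1 ⟨p, le_rfl⟩

/-- Invariance of the general dimension under Cremona transformations. -/
theorem cremona_general {r k d d' : ℕ} (m m' : Fin k → ℕ) (J : Fin (r + 1) ↪ Fin k)
    (hJ : ∀ l, m (J l) ≤ d) (hd' : ∑ l, m (J l) + d' = r * d)
    (hm'J : ∀ l, m' (J l) = d' + m (J l) - d) (hm' : ∀ i, (∀ l, J l ≠ i) → m' i = m i) (v : ℕ) :
    (ForGeneralPoints r k fun p => Module.finrank ℂ (fatForms r d p m) = v) ↔
      ForGeneralPoints r k fun p => Module.finrank ℂ (fatForms r d' p m') = v := by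
  rw [general_iff, general_iff]
  refine forall_congr' fun x => ?_
  rw [cremona_le m m' J hJ hd' hm'J hm' x]

end Pool.Agent.H18.Cub

end
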