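import Pool.Agent.H94.LP1.M11
import Pool.Agent.H94.LP1.M13
import Pool.Agent.H94.LP1.M15

/-! The parts of this file: H18.Pr.Strict, H18.Pr.Space_1, H18.Pr.SysM, H18.Pr.SysV. -/

section

/-!
# Module Strict (PR): division and substitution, and the cost
-/

namespace Pool.Agent.H18.Pr

open Finset Pool.Agent.H18.Ex Pool.Agent.H18.Cub

variable {R : ℕ}

/-- An element of the support with the largest cost. -/
theorem strict_max (e : ℕ) (u : Fin (R + 1)) {G : MvPolynomial (Fin (R + 1)) ℂ}
    {α : Fin (R + 1) →₀ ℕ} (hα : α ∈ G.support) :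
    ∃ γ ∈ G.support, ∀ δ ∈ G.support, cost e u δ ≤ cost e u γ :=
  exists_max_image G.support (fun δ => cost e u δ) ⟨α, hα⟩

theorem strict_coe_add (α : Fin (R + 1) →₀ ℕ) (i : Fin (R + 1)) (c : ℕ) :
    ⇑(α + Finsupp.single i c) = Function.update (⇑α) i (α i + c) := by
  classical
  funext j
  by_cases hj : j = i
  · subst hj
    simp
  · rw [Function.update_of_ne hj, Finsupp.add_apply, Finsupp.single_eq_of_ne hj, add_zero]

/-- Take `α` in the support of `G` with maximal cost.  The coefficient of the product at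
`α + e • single u' 1` is `-G.coeff α`, because `α + e • single u' 1 - single u 1` has a larger cost
than `α` (`cost_add_top`, `cost_add_of_ne`, `2 ≤ e`), and its cost is `cost α + e`. -/
theorem strict_S (e : ℕ) (he : 2 ≤ e) (u u' : Fin (R + 1)) (hu : u.val = u'.val + 1)
    (G : MvPolynomial (Fin (R + 1)) ℂ) (d : ℕ)
    (h : ∀ α : Fin (R + 1) →₀ ℕ,
      α ∈ ((MvPolynomial.X u - MvPolynomial.X u' ^ e) * G).support → cost e u α ≤ d) :
    ∀ α : Fin (R + 1) →₀ ℕ, α ∈ G.support → cost e u α + e ≤ d := by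
  classical
  intro α₀ hα₀
  obtain ⟨α, hα, hmax⟩ := strict_max e u hα₀
  have hne : u' ≠ u := by
    intro h'
    rw [h'] at hu
    omega
  have hβ : cost e u (α + Finsupp.single u' e : Fin (R + 1) →₀ ℕ) = cost e u α + e := by
    rw [strict_coe_add, cost_add_of_ne e u u' hne]
  have hmem : (α + Finsupp.single u' e : Fin (R + 1) →₀ ℕ) ∈
      ((MvPolynomial.X u - MvPolynomial.X u' ^ e) * G).support := by
    rw [MvPolynomial.mem_support_iff, sub_mul, MvPolynomial.coeff_sub,
      MvPolynomial.X_pow_eq_monomial, add_comm α, MvPolynomial.coeff_monomial_mul, one_mul,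
      mul_comm (MvPolynomial.X u) G, MvPolynomial.coeff_mul_X']
    have h0 : (if u ∈ (Finsupp.single u' e + α : Fin (R + 1) →₀ ℕ).support then
        MvPolynomial.coeff ((Finsupp.single u' e + α : Fin (R + 1) →₀ ℕ) - Finsupp.single u 1) G
        else 0) = 0 := by
      split_ifs with hu1
      · by_contra hc
        have hγ : ((Finsupp.single u' e + α : Fin (R + 1) →₀ ℕ) - Finsupp.single u 1) ∈
            G.support := MvPolynomial.mem_support_iff.2 hc
        have h1 := hmax _ hγ
        have h2 : ((Finsupp.single u' e + α : Fin (R + 1) →₀ ℕ) - Finsupp.single u 1) +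
            Finsupp.single u 1 = α + Finsupp.single u' e := by
          have h2' : (Finsupp.single u 1 : Fin (R + 1) →₀ ℕ) ≤ Finsupp.single u' e + α := by
            rw [Finsupp.single_le_iff]
            exact Nat.one_le_iff_ne_zero.2 (Finsupp.mem_support_iff.1 hu1)
          rw [tsub_add_cancel_of_le h2', add_comm (Finsupp.single u' e) α]
        have h3 := cost_add_top e (by omega) u
          (⇑(Finsupp.single u' e + α - Finsupp.single u 1 : Fin (R + 1) →₀ ℕ))
        rw [← strict_coe_add, h2, hβ] at h3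
        omega
      · rfl
    rw [h0, zero_sub, neg_ne_zero]
    exact MvPolynomial.mem_support_iff.1 hα
  have h4 := h _ hmem
  rw [hβ] at h4
  have h5 := hmax α₀ hα₀
  omega

/-- Similarly, look at the coefficient of the product at `α + single v 1`. -/
theorem strict_H (e : ℕ) (u v : Fin (R + 1)) (hv : v ≠ u) (c : ℂ)
    (G : MvPolynomial (Fin (R + 1)) ℂ) (d : ℕ)
    (h : ∀ α : Fin (R + 1) →₀ ℕ,
      α ∈ ((MvPolynomial.X v - MvPolynomial.C c) * G).support → cost e u α ≤ d) :
    ∀ α : Fin (R + 1) →₀ ℕ, α ∈ G.support → cost e u α + 1 ≤ d := by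
  classical
  intro α₀ hα₀
  obtain ⟨α, hα, hmax⟩ := strict_max e u hα₀
  have hβ : cost e u (α + Finsupp.single v 1 : Fin (R + 1) →₀ ℕ) = cost e u α + 1 := by
    rw [strict_coe_add, cost_add_of_ne e u v hv]
  have hmem : (α + Finsupp.single v 1 : Fin (R + 1) →₀ ℕ) ∈
      ((MvPolynomial.X v - MvPolynomial.C c) * G).support := by
    have h0 : MvPolynomial.coeff (α + Finsupp.single v 1 : Fin (R + 1) →₀ ℕ) G = 0 := by
      by_contra hc
      have h1 := hmax _ (MvPolynomial.mem_support_iff.2 hc)
      rw [hβ] at h1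
      omega
    rw [MvPolynomial.mem_support_iff, sub_mul, MvPolynomial.coeff_sub, MvPolynomial.coeff_C_mul,
      h0, mul_zero, sub_zero, mul_comm, MvPolynomial.coeff_mul_X]
    exact MvPolynomial.mem_support_iff.1 hα
  have h4 := h _ hmem
  rw [hβ] at h4
  have h5 := hmax α₀ hα₀
  omega

/-- Monomial substitution. -/
theorem strict_aeval (g : Fin (R + 1) → Fin (R + 1) →₀ ℕ) (b : Fin (R + 1) → ℂ)
    (G : MvPolynomial (Fin (R + 1)) ℂ) :
    ∀ β ∈ (MvPolynomial.aeval (fun i => MvPolynomial.monomial (g i) (b i)) G).support,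
      ∃ α ∈ G.support, β = ∑ i, α i • g i := by
  classical
  intro β hβ
  have h1 : ∀ (s : Finset (Fin (R + 1))) (α : Fin (R + 1) → ℕ),
      ∏ i ∈ s, (MvPolynomial.monomial (g i) (b i)) ^ α i =
        MvPolynomial.monomial (∑ i ∈ s, α i • g i) (∏ i ∈ s, b i ^ α i) := by
    intro s α
    induction s using Finset.induction_on with
    | empty => simp
    | insert i s hi ih =>
      rw [prod_insert hi, sum_insert hi, prod_insert hi, ih, MvPolynomial.monomial_pow,
        MvPolynomial.monomial_mul]
  have h2 : MvPolynomial.aeval (fun i => MvPolynomial.monomial (g i) (b i)) G =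
      ∑ α ∈ G.support, MvPolynomial.monomial (∑ i, α i • g i)
        (MvPolynomial.coeff α G * ∏ i, b i ^ α i) := by
    conv_lhs => rw [MvPolynomial.as_sum G]
    rw [map_sum]
    refine sum_congr rfl fun α _ => ?_
    rw [MvPolynomial.aeval_monomial, Finsupp.prod_fintype _ _ (fun i => pow_zero _), h1,
      MvPolynomial.algebraMap_eq, MvPolynomial.C_mul_monomial]
  rw [h2] at hβ
  have h3 := MvPolynomial.support_sum hβ
  obtain ⟨α, hα, hβα⟩ := mem_biUnion.1 h3
  refine ⟨α, hα, ?_⟩
  exact mem_singleton.1 (MvPolynomial.support_monomial_subset hβα)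

theorem sub_S (e : ℕ) (he : 1 ≤ e) (u u' : Fin (R + 1)) (hu : u.val = u'.val + 1)
    (G : MvPolynomial (Fin (R + 1)) ℂ) (d : ℕ) (h : ∀ α ∈ G.support, cost e u α ≤ d) :
    ∀ α ∈ (MvPolynomial.aeval (Function.update
      (MvPolynomial.X : Fin (R + 1) → MvPolynomial (Fin (R + 1)) ℂ) u
      (MvPolynomial.X u' ^ e)) G).support, cost e u' α ≤ d := by
  classical
  have hf : (Function.update (MvPolynomial.X : Fin (R + 1) → MvPolynomial (Fin (R + 1)) ℂ) u
      (MvPolynomial.X u' ^ e)) = fun i => MvPolynomial.monomial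
        (if i = u then Finsupp.single u' e else Finsupp.single i 1) (1 : ℂ) := by
    funext i
    by_cases hi : i = u
    · subst hi
      rw [Function.update_self, if_pos rfl, MvPolynomial.X_pow_eq_monomial]
    · rw [Function.update_of_ne hi, if_neg hi]
      rfl
  rw [hf]
  intro β hβ
  obtain ⟨α, hα, rfl⟩ := strict_aeval (R := R)
    (fun i => if i = u then Finsupp.single u' e else Finsupp.single i 1) (fun _ => 1) G β hβ
  have hne : u' ≠ u := by
    intro h'
    rw [h'] at hu
    omega
  have h1 : (⇑(∑ i, α i • (if i = u then Finsupp.single u' e else Finsupp.single i 1 :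
      Fin (R + 1) →₀ ℕ)) : Fin (R + 1) → ℕ) =
      fun i => if i = u then 0 else if i = u' then α u' + e * α u else α i := by
    funext j
    rw [Finsupp.finsetSum_apply, ← add_sum_erase _ _ (mem_univ u), if_pos rfl]
    have h2 : ∑ i ∈ univ.erase u, (α i • (if i = u then Finsupp.single u' e else
        Finsupp.single i 1 : Fin (R + 1) →₀ ℕ)) j = if j = u then 0 else α j := by
      have h3 : ∀ i ∈ univ.erase u, (α i • (if i = u then Finsupp.single u' e else
          Finsupp.single i 1 : Fin (R + 1) →₀ ℕ)) j = if i = j then α j else 0 := by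
        intro i hi
        rw [if_neg (ne_of_mem_erase hi), Finsupp.smul_apply, Finsupp.single_apply]
        by_cases hij : i = j
        · rw [if_pos hij, if_pos hij, hij, smul_eq_mul, mul_one]
        · rw [if_neg hij, if_neg hij, smul_zero]
      rw [sum_congr rfl h3, sum_ite_eq' (univ.erase u) j]
      by_cases hj : j = u
      · rw [if_pos hj, if_neg (fun h' => ne_of_mem_erase h' hj)]
      · rw [if_neg hj, if_pos (mem_erase.2 ⟨hj, mem_univ j⟩)]
    rw [h2, Finsupp.smul_apply, Finsupp.single_apply, smul_eq_mul]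
    by_cases hju : j = u
    · rw [if_pos hju, if_pos hju, if_neg (fun h' => hne (h'.trans hju)), mul_zero]
    · rw [if_neg hju, if_neg hju]
      by_cases hju' : j = u'
      · rw [if_pos hju'.symm, if_pos hju', hju']
        ring
      · rw [if_neg (Ne.symm hju'), if_neg hju', mul_zero, zero_add]
  rw [h1]
  exact (cost_subS e he u u' hu α).trans (h α hα)

theorem sub_H (e : ℕ) (u v : Fin (R + 1)) (hv : v ≠ u) (c : ℂ)
    (G : MvPolynomial (Fin (R + 1)) ℂ) (d : ℕ) (h : ∀ α ∈ G.support, cost e u α ≤ d) :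
    ∀ α ∈ (MvPolynomial.aeval (Function.update
      (MvPolynomial.X : Fin (R + 1) → MvPolynomial (Fin (R + 1)) ℂ) v
      (MvPolynomial.C c)) G).support, cost e u α ≤ d := by
  classical
  have hf : (Function.update (MvPolynomial.X : Fin (R + 1) → MvPolynomial (Fin (R + 1)) ℂ) v
      (MvPolynomial.C c)) = fun i => MvPolynomial.monomial
        (if i = v then 0 else Finsupp.single i 1) (if i = v then c else 1) := by
    funext i
    by_cases hi : i = v
    · subst hi
      rw [Function.update_self, if_pos rfl, if_pos rfl]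
      rfl
    · rw [Function.update_of_ne hi, if_neg hi, if_neg hi]
      rfl
  rw [hf]
  intro β hβ
  obtain ⟨α, hα, rfl⟩ := strict_aeval (R := R)
    (fun i => if i = v then 0 else Finsupp.single i 1) (fun i => if i = v then c else 1) G β hβ
  have h1 : (⇑(∑ i, α i • (if i = v then 0 else Finsupp.single i 1 :
      Fin (R + 1) →₀ ℕ)) : Fin (R + 1) → ℕ) = Function.update (⇑α) v 0 := by
    funext j
    rw [Finsupp.finsetSum_apply]
    have h3 : ∀ i ∈ (univ : Finset (Fin (R + 1))), (α i • (if i = v then 0 else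
        Finsupp.single i 1 : Fin (R + 1) →₀ ℕ)) j =
        if i = j then (if j = v then 0 else α j) else 0 := by
      intro i _
      by_cases hij : i = j
      · subst hij
        by_cases hi : i = v
        · rw [if_pos hi, if_pos rfl, if_pos hi, smul_zero, Finsupp.zero_apply]
        · rw [if_neg hi, if_pos rfl, if_neg hi, Finsupp.smul_apply, Finsupp.single_eq_same,
            smul_eq_mul, mul_one]
      · rw [if_neg hij]
        by_cases hi : i = v
        · rw [if_pos hi, smul_zero, Finsupp.zero_apply]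
        · rw [if_neg hi, Finsupp.smul_apply, Finsupp.single_apply, if_neg hij, smul_zero]
    rw [sum_congr rfl h3, sum_ite_eq' univ j, if_pos (mem_univ j)]
    by_cases hj : j = v
    · rw [if_pos hj, hj, Function.update_self]
    · rw [if_neg hj, Function.update_of_ne hj]
  rw [h1]
  exact (cost_subH e u v hv α).trans (h α hα)

end Pool.Agent.H18.Pr

end

section

/-!
# Module Space (PR): traces and residuals of the spaces `WW`

Compare with `Pool.Agent.H18.Cub.WC` (the case of two variables).
-/

namespace Pool.Agent.H18.Pr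

open Finset Pool.Agent.H18.Ex Pool.Agent.H18.Cub

variable {R : ℕ}

theorem spaceInv_eq (e : ℕ) (v u : Fin (R + 1)) (p : ℂ) (i : Fin (R + 1)) :
    spaceInv e v u p i.val =
      if i = v then MvPolynomial.X i + MvPolynomial.C p
      else if v < i ∧ i ≤ u then MvPolynomial.X i + spaceInv e v u p (prv i).val ^ e
      else MvPolynomial.X i := by
  rcases i with ⟨k, hk⟩
  cases k with
  | zero =>
    have h0 : (Fin.ofNat (R + 1) 0 : Fin (R + 1)) = ⟨0, hk⟩ := space_ofNat ⟨0, hk⟩
    have h1 : ¬ (v < (⟨0, hk⟩ : Fin (R + 1))) := by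
      intro h
      exact absurd (Fin.lt_def.1 h) (Nat.not_lt_zero _)
    by_cases hv : v.val = 0
    · have h2 : (⟨0, hk⟩ : Fin (R + 1)) = v := Fin.ext hv.symm
      rw [if_pos h2]
      show (if v.val = 0 then _ else _) = _
      rw [if_pos hv, h0]
    · have h2 : ¬ (⟨0, hk⟩ : Fin (R + 1)) = v := fun h => hv (by rw [← h])
      rw [if_neg h2, if_neg (fun h => h1 h.1)]
      show (if v.val = 0 then _ else _) = _
      rw [if_neg hv, h0]
  | succ k =>
    have h0 : (Fin.ofNat (R + 1) (k + 1) : Fin (R + 1)) = ⟨k + 1, hk⟩ := space_ofNat ⟨k + 1, hk⟩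
    have hp : (prv (⟨k + 1, hk⟩ : Fin (R + 1))).val = k := by simp [prv]
    rw [hp]
    by_cases hv : v.val = k + 1
    · have h2 : (⟨k + 1, hk⟩ : Fin (R + 1)) = v := Fin.ext hv.symm
      rw [if_pos h2]
      show (if v.val = k + 1 then _ else _) = _
      rw [if_pos hv, h0]
    · have h2 : ¬ (⟨k + 1, hk⟩ : Fin (R + 1)) = v := fun h => hv (by rw [← h])
      rw [if_neg h2]
      show (if v.val = k + 1 then _ else _) = _
      rw [if_neg hv]
      by_cases hc : v.val < k + 1 ∧ k + 1 ≤ u.val
      · rw [if_pos hc, if_pos (show v < (⟨k + 1, hk⟩ : Fin (R + 1)) ∧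
          (⟨k + 1, hk⟩ : Fin (R + 1)) ≤ u from ⟨Fin.lt_def.2 hc.1, Fin.le_def.2 hc.2⟩), h0]
      · rw [if_neg hc, if_neg (show ¬ (v < (⟨k + 1, hk⟩ : Fin (R + 1)) ∧
          (⟨k + 1, hk⟩ : Fin (R + 1)) ≤ u) from
            fun h => hc ⟨Fin.lt_def.1 h.1, Fin.le_def.1 h.2⟩), h0]

theorem Th_X (e : ℕ) (v u : Fin (R + 1)) (p : ℂ) (i : Fin (R + 1)) :
    Th e v u p (MvPolynomial.X i) =
      if i = v then MvPolynomial.X i - MvPolynomial.C p
      else if v < i ∧ i ≤ u then MvPolynomial.X i - MvPolynomial.X (prv i) ^ e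
      else MvPolynomial.X i := by
  rw [Th, MvPolynomial.aeval_X]

theorem Th_C (e : ℕ) (v u : Fin (R + 1)) (p : ℂ) (c : ℂ) :
    Th e v u p (MvPolynomial.C c) = MvPolynomial.C c := (Th e v u p).commutes c

theorem Th_injective (e : ℕ) (v u : Fin (R + 1)) (p : ℂ) : Function.Injective (Th e v u p) := by
  have h : (MvPolynomial.aeval (fun i : Fin (R + 1) => spaceInv e v u p i.val)).comp
      (Th e v u p) = AlgHom.id ℂ (MvPolynomial (Fin (R + 1)) ℂ) := by
    refine MvPolynomial.algHom_ext (fun i => ?_)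
    rw [AlgHom.comp_apply, Th_X, AlgHom.id_apply]
    by_cases h1 : i = v
    · rw [if_pos h1, map_sub, MvPolynomial.aeval_X, spaceInv_eq, if_pos h1,
        MvPolynomial.aeval_C, MvPolynomial.algebraMap_eq]
      ring
    · rw [if_neg h1]
      by_cases h2 : v < i ∧ i ≤ u
      · rw [if_pos h2, map_sub, map_pow, MvPolynomial.aeval_X, MvPolynomial.aeval_X,
          spaceInv_eq, if_neg h1, if_pos h2]
        ring
      · rw [if_neg h2, MvPolynomial.aeval_X, spaceInv_eq, if_neg h1, if_neg h2]
  have h2 : Function.LeftInverse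
      (MvPolynomial.aeval (fun i : Fin (R + 1) => spaceInv e v u p i.val)) (Th e v u p) :=
    fun F => congrArg (fun φ : MvPolynomial (Fin (R + 1)) ℂ →ₐ[ℂ] MvPolynomial (Fin (R + 1)) ℂ =>
      φ F) h
  exact h2.injective

theorem WW_finite (e : ℕ) (he : 1 ≤ e) (v u : Fin (R + 1)) (p : ℂ) (d : ℕ) {B : Type}
    (x : B → ℂ) (m : B → ℕ) : FiniteDimensional ℂ (WW e v u p d x m) := by
  have hD : ∀ F ∈ WW e v u p d x m, (Th e v u p F).totalDegree ≤
      (R + 1) * (e ^ R * (d + 1)) := by
    intro F hF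
    rw [MvPolynomial.totalDegree]
    refine Finset.sup_le fun α hα => ?_
    have h1 := hF.2.1 α hα
    rw [Finsupp.sum_fintype _ _ (fun _ => rfl)]
    calc ∑ i, α i ≤ ∑ _i : Fin (R + 1), e ^ R * (d + 1) := by
          refine sum_le_sum fun i _ => ?_
          have h2 := le_cost e he u α i
          have h3 : e ^ R * (cost e u α + 1) ≤ e ^ R * (d + 1) :=
            Nat.mul_le_mul_left _ (by omega)
          omega
      _ = (R + 1) * (e ^ R * (d + 1)) := by
          rw [sum_const, card_univ, Fintype.card_fin, smul_eq_mul]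
  let f : WW e v u p d x m →ₗ[ℂ]
      MvPolynomial.restrictTotalDegree (Fin (R + 1)) ℂ ((R + 1) * (e ^ R * (d + 1))) :=
    { toFun := fun P => ⟨Th e v u p P.1, (MvPolynomial.mem_restrictTotalDegree _ _ _).2
        (hD P.1 P.2)⟩
      map_add' := fun P Q => by
        apply Subtype.ext
        exact map_add (Th e v u p) P.1 Q.1
      map_smul' := fun c P => by
        apply Subtype.ext
        exact map_smul (Th e v u p) c P.1 }
  refine Module.Finite.of_injective f ?_
  intro P Q h
  apply Subtype.ext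
  exact Th_injective e v u p (congrArg Subtype.val h)

/-- The points of the residual along a hyperplane through the point. -/
theorem space_tay_resid (j : Fin (R + 1)) (c : ℂ) (F : MvPolynomial (Fin (R + 1)) ℂ)
    (q : Fin (R + 1) → ℂ) (hq : q j = c) (m : ℕ)
    (h : ∀ β : Fin (R + 1) → ℕ, ∑ i, β i < m →
      tay ((MvPolynomial.X j - MvPolynomial.C c) * F) q β = 0) :
    ∀ β : Fin (R + 1) → ℕ, ∑ i, β i < m - 1 → tay F q β = 0 := by
  intro β hβ
  have h3 := h (Function.update β j (β j + 1)) (by rw [space_sum_update]; omega)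
  rw [tay_X_sub_mul, hq] at h3
  simpa using h3

/-- The points of the residual along a hyperplane not through the point. -/
theorem space_tay_resid_ne (j : Fin (R + 1)) (c : ℂ) (F : MvPolynomial (Fin (R + 1)) ℂ)
    (q : Fin (R + 1) → ℂ) (hq : q j ≠ c) (m : ℕ)
    (h : ∀ β : Fin (R + 1) → ℕ, ∑ i, β i < m →
      tay ((MvPolynomial.X j - MvPolynomial.C c) * F) q β = 0) :
    ∀ β : Fin (R + 1) → ℕ, ∑ i, β i < m → tay F q β = 0 := by
  have h4 : q j - algebraMap ℂ ℂ c ≠ 0 := by
    rw [Algebra.algebraMap_self, RingHom.id_apply]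
    exact sub_ne_zero.2 hq
  have key : ∀ k : ℕ, ∀ β : Fin (R + 1) → ℕ, β j = k → ∑ i, β i < m → tay F q β = 0 := by
    intro k
    induction k with
    | zero =>
      intro β hk hβ
      have h3 := h β hβ
      rw [tay_X_sub_mul, if_pos hk, add_zero] at h3
      exact (mul_eq_zero.1 h3).resolve_left h4
    | succ k ih =>
      intro β hk hβ
      have h3 := h β hβ
      have h5 : tay F q (Function.update β j (β j - 1)) = 0 := by
        refine ih _ (by rw [Function.update_self]; omega) ?_
        refine lt_of_le_of_lt (sum_le_sum fun i _ => ?_) hβ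
        by_cases hi : i = j
        · subst hi
          rw [Function.update_self]
          omega
        · rw [Function.update_of_ne hi]
      rw [tay_X_sub_mul, if_neg (by omega), h5, add_zero] at h3
      exact (mul_eq_zero.1 h3).resolve_left h4
  intro β hβ
  exact key _ β rfl hβ

/-- Trace on `z_u = 0`.  With `σ : x_u ↦ x_{u'}^e` one has `Th e v u' p (sub1 u 0 F) =
σ (Th e v u p F)` (check on the variables); use `sub_S`.  For the points use `tay_sub1`. -/
theorem WW_traceS {Λ : Type} (g : Lines Λ (Fin (R + 1))) (l : Λ) (e : ℕ) (he : 1 ≤ e)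
    (v u u' : Fin (R + 1)) (hu : u.val = u'.val + 1) (hv : v ≤ u') (hco : g.co l = u)
    (hva : g.va l = 0) (p : ℂ) (d : ℕ) {B : Type} (x : B → ℂ) (m : B → ℕ) :
    trW g l (WW e v u p d x m) ≤ WW e v u' p d x m := by
  have hvu : v.val < u.val := by
    have := Fin.le_def.1 hv
    omega
  have hune : u ≠ v := fun h => by rw [h] at hvu; exact lt_irrefl _ hvu
  have hu'u : u' ≠ u := fun h => by rw [h] at hu; omega
  have hprv : prv u = u' := by
    apply Fin.ext
    simp [prv, hu]
  rintro G ⟨F, hF, rfl⟩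
  rw [SetLike.mem_coe] at hF
  have hlay : (lay g l).toLinearMap F = sub1 u 0 F := by
    rw [AlgHom.toLinearMap_apply, lay, hco, hva]
  rw [hlay, mem_WW]
  obtain ⟨h1, h2, h3⟩ := mem_WW.1 hF
  refine ⟨fun i hi => ?_, ?_, fun b β hβ => ?_⟩
  · refine space_degreeOf_sub1 i u 0 F fun hiu => h1 i ?_
    rcases hi with hi | hi
    · exact Or.inl hi
    · right
      rw [Fin.lt_def] at hi ⊢
      have : i.val ≠ u.val := fun h => hiu (Fin.ext h)
      omega
  · have h4 : Th e v u' p (sub1 u 0 F) = MvPolynomial.aeval (Function.update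
        (MvPolynomial.X : Fin (R + 1) → MvPolynomial (Fin (R + 1)) ℂ) u
        (MvPolynomial.X u' ^ e)) (Th e v u p F) := by
      have h5 : (Th e v u' p).comp (sub1 u 0) = (MvPolynomial.aeval (Function.update
          (MvPolynomial.X : Fin (R + 1) → MvPolynomial (Fin (R + 1)) ℂ) u
          (MvPolynomial.X u' ^ e))).comp (Th e v u p) := by
        refine MvPolynomial.algHom_ext (fun i => ?_)
        rw [AlgHom.comp_apply, AlgHom.comp_apply, space_sub1_X, Th_X]
        by_cases hiu : i = u
        · subst hiu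
          rw [if_pos rfl, Th_C, if_neg hune, if_pos ⟨Fin.lt_def.2 hvu, le_rfl⟩, hprv, map_sub,
            map_pow, MvPolynomial.aeval_X, MvPolynomial.aeval_X, Function.update_self,
            Function.update_of_ne hu'u, sub_self, MvPolynomial.C_0]
        · rw [if_neg hiu, Th_X]
          by_cases hiv : i = v
          · rw [if_pos hiv, if_pos hiv, map_sub, MvPolynomial.aeval_X, MvPolynomial.aeval_C,
              Function.update_of_ne hiu, MvPolynomial.algebraMap_eq]
          · rw [if_neg hiv, if_neg hiv]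
            by_cases hc : v < i ∧ i ≤ u'
            · have hc2 : i ≤ u := hc.2.trans (Fin.le_def.2 (by omega))
              have hpi : prv i ≠ u := by
                intro h
                have h6 := congrArg Fin.val h
                simp only [prv] at h6
                have h7 := Fin.le_def.1 hc.2
                omega
              rw [if_pos hc, if_pos ⟨hc.1, hc2⟩, map_sub, map_pow, MvPolynomial.aeval_X,
                MvPolynomial.aeval_X, Function.update_of_ne hiu, Function.update_of_ne hpi]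
            · have hc2 : ¬ (v < i ∧ i ≤ u) := by
                rintro ⟨h6, h7⟩
                apply hc
                refine ⟨h6, ?_⟩
                rw [Fin.le_def] at h7 ⊢
                have : i.val ≠ u.val := fun h => hiu (Fin.ext h)
                omega
              rw [if_neg hc, if_neg hc2, MvPolynomial.aeval_X, Function.update_of_ne hiu]
      exact congrArg (fun φ : MvPolynomial (Fin (R + 1)) ℂ →ₐ[ℂ] MvPolynomial (Fin (R + 1)) ℂ =>
        φ F) h5
    rw [h4]
    exact sub_S e he u u' hu _ d h2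
  · rw [tay_sub1]
    have h6 : Function.update (ptv v (x b)) u (algebraMap ℂ ℂ 0) = ptv v (x b) := by
      rw [map_zero]
      apply Function.update_eq_self_iff.2
      rw [ptv, if_neg hune]
    rw [h6]
    split_ifs
    · exact h3 b β hβ
    · rfl

/-- Residual along `z_u = 0`.  `Th e v u p (X u * F') = (X u - X u' ^ e) * Th e v u p F'`; use
`strict_S`.  For the points use `tay_X_sub_mul`, for the degrees `MvPolynomial.degreeOf_mul_eq`. -/
theorem WW_residS {Λ : Type} (g : Lines Λ (Fin (R + 1))) (l : Λ) (e : ℕ) (he : 2 ≤ e)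
    (v u u' : Fin (R + 1)) (hu : u.val = u'.val + 1) (hv : v ≤ u') (hco : g.co l = u)
    (hva : g.va l = 0) (p : ℂ) (d : ℕ) {B : Type} (x : B → ℂ) (m : B → ℕ) :
    ResW g l (WW e v u p d x m) (WW e v u p (d - e) x fun b => m b - 1) := by
  have hvu : v.val < u.val := by
    have := Fin.le_def.1 hv
    omega
  have hune : u ≠ v := fun h => by rw [h] at hvu; exact lt_irrefl _ hvu
  have hprv : prv u = u' := by
    apply Fin.ext
    simp [prv, hu]
  intro F hF h0
  rw [lay, hco, hva] at h0
  obtain ⟨F', hF'⟩ := wc_exists_residual u 0 F h0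
  rw [hco, hva]
  obtain ⟨h1, h2, h3⟩ := mem_WW.1 hF
  refine ⟨F', mem_WW.2 ⟨fun i hi => ?_, fun α hα => ?_, fun b => ?_⟩, hF'⟩
  · refine space_degreeOf_resid i u 0 F' ?_
    rw [← hF']
    exact h1 i hi
  · have h4 : Th e v u p F =
        (MvPolynomial.X u - MvPolynomial.X u' ^ e) * Th e v u p F' := by
      rw [hF', map_mul, map_sub, Th_C, MvPolynomial.C_0, sub_zero, Th_X, if_neg hune,
        if_pos ⟨Fin.lt_def.2 hvu, le_rfl⟩, hprv]
    have h5 := strict_S e he u u' hu (Th e v u p F') d (by
      intro α hα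
      rw [← h4] at hα
      exact h2 α hα) α hα
    omega
  · refine space_tay_resid u 0 F' (ptv v (x b)) ?_ (m b) ?_
    · rw [ptv, if_neg hune]
    · rw [← hF']
      exact h3 b

/-- Trace on `z_v = c`.  With `σ : x_v ↦ c + p` one has `Th e v' u ((c + p) ^ e) (sub1 v c F) =
σ (Th e v u p F)`; use `sub_H`. -/
theorem WW_traceH {Λ : Type} (g : Lines Λ (Fin (R + 1))) (l : Λ) (e : ℕ)
    (v v' u : Fin (R + 1)) (hv : v'.val = v.val + 1) (hu : v' ≤ u) (c : ℂ) (hco : g.co l = v)
    (hva : g.va l = c) (p : ℂ) (d : ℕ) {B : Type} (x : B → ℂ) (m : B → ℕ) (b₀ : B)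
    (hb₀ : x b₀ = c) :
    trW g l (WW e v u p d x m) ≤
      WW e v' u ((c + p) ^ e) d (fun _ : Unit => (0 : ℂ)) fun _ => m b₀ := by
  have hvu : v.val < u.val := by
    have := Fin.le_def.1 hu
    omega
  have hvne : v ≠ u := fun h => by rw [h] at hvu; exact lt_irrefl _ hvu
  have hv'v : v' ≠ v := fun h => by rw [h] at hv; omega
  have hprv : prv v' = v := by
    apply Fin.ext
    simp [prv, hv]
  rintro G ⟨F, hF, rfl⟩
  rw [SetLike.mem_coe] at hF
  have hlay : (lay g l).toLinearMap F = sub1 v c F := by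
    rw [AlgHom.toLinearMap_apply, lay, hco, hva]
  rw [hlay, mem_WW]
  obtain ⟨h1, h2, h3⟩ := mem_WW.1 hF
  refine ⟨fun i hi => ?_, ?_, fun _ β hβ => ?_⟩
  · refine space_degreeOf_sub1 i v c F fun hiv => h1 i ?_
    rcases hi with hi | hi
    · left
      rw [Fin.lt_def] at hi ⊢
      have : i.val ≠ v.val := fun h => hiv (Fin.ext h)
      omega
    · exact Or.inr hi
  · have h4 : Th e v' u ((c + p) ^ e) (sub1 v c F) = MvPolynomial.aeval (Function.update
        (MvPolynomial.X : Fin (R + 1) → MvPolynomial (Fin (R + 1)) ℂ) v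
        (MvPolynomial.C (c + p))) (Th e v u p F) := by
      have h5 : (Th e v' u ((c + p) ^ e)).comp (sub1 v c) = (MvPolynomial.aeval (Function.update
          (MvPolynomial.X : Fin (R + 1) → MvPolynomial (Fin (R + 1)) ℂ) v
          (MvPolynomial.C (c + p)))).comp (Th e v u p) := by
        refine MvPolynomial.algHom_ext (fun i => ?_)
        rw [AlgHom.comp_apply, AlgHom.comp_apply, space_sub1_X, Th_X]
        by_cases hiv : i = v
        · subst hiv
          rw [if_pos rfl, Th_C, if_pos rfl, map_sub, MvPolynomial.aeval_X,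
            MvPolynomial.aeval_C, Function.update_self, MvPolynomial.algebraMap_eq,
            ← MvPolynomial.C_sub, add_sub_cancel_right]
        · rw [if_neg hiv, if_neg hiv, Th_X]
          by_cases hiv' : i = v'
          · subst hiv'
            rw [if_pos rfl, if_pos ⟨Fin.lt_def.2 (by omega), hu⟩, hprv, MvPolynomial.C_pow, map_sub,
              map_pow, MvPolynomial.aeval_X, MvPolynomial.aeval_X, Function.update_self,
              Function.update_of_ne hiv]
          · rw [if_neg hiv']
            have hiv2 : i.val ≠ v.val := fun h => hiv (Fin.ext h)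
            have hiv3 : i.val ≠ v'.val := fun h => hiv' (Fin.ext h)
            by_cases hc : v < i ∧ i ≤ u
            · have hc2 : v' < i := by
                have := Fin.lt_def.1 hc.1
                rw [Fin.lt_def]
                omega
              have hpi : prv i ≠ v := by
                intro h
                have h6 := congrArg Fin.val h
                simp only [prv] at h6
                have h7 := Fin.lt_def.1 hc2
                omega
              rw [if_pos hc, if_pos ⟨hc2, hc.2⟩, map_sub, map_pow, MvPolynomial.aeval_X,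
                MvPolynomial.aeval_X, Function.update_of_ne hiv, Function.update_of_ne hpi]
            · have hc2 : ¬ (v' < i ∧ i ≤ u) := by
                rintro ⟨h6, h7⟩
                apply hc
                refine ⟨?_, h7⟩
                rw [Fin.lt_def] at h6 ⊢
                omega
              rw [if_neg hc, if_neg hc2, MvPolynomial.aeval_X, Function.update_of_ne hiv]
      exact congrArg (fun φ : MvPolynomial (Fin (R + 1)) ℂ →ₐ[ℂ] MvPolynomial (Fin (R + 1)) ℂ =>
        φ F) h5
    rw [h4]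
    exact sub_H e u v hvne (c + p) _ d h2
  · rw [tay_sub1]
    have h6 : Function.update (ptv v' 0) v (algebraMap ℂ ℂ c) = ptv v (x b₀) := by
      ext i
      rw [Algebra.algebraMap_self, RingHom.id_apply]
      by_cases hi : i = v
      · subst hi
        rw [Function.update_self, ptv, if_pos rfl, hb₀]
      · rw [Function.update_of_ne hi, ptv, ptv, if_neg hi, ite_self]
    rw [h6]
    split_ifs
    · exact h3 b₀ β hβ
    · rfl

/-- Residual along `z_v = c` (use `strict_H`). -/
theorem WW_residH {Λ : Type} (g : Lines Λ (Fin (R + 1))) (l : Λ) (e : ℕ)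
    (v u : Fin (R + 1)) (hv : v < u) (c : ℂ) (hco : g.co l = v)
    (hva : g.va l = c) (p : ℂ) (d : ℕ) {B : Type} (x : B → ℂ) (m m' : B → ℕ)
    (hm1 : ∀ b, x b = c → m' b = m b - 1) (hm2 : ∀ b, x b ≠ c → m' b = m b) :
    ResW g l (WW e v u p d x m) (WW e v u p (d - 1) x m') := by
  intro F hF h0
  rw [lay, hco, hva] at h0
  obtain ⟨F', hF'⟩ := wc_exists_residual v c F h0
  rw [hco, hva]
  obtain ⟨h1, h2, h3⟩ := mem_WW.1 hF
  refine ⟨F', mem_WW.2 ⟨fun i hi => ?_, fun α hα => ?_, fun b => ?_⟩, hF'⟩
  · refine space_degreeOf_resid i v c F' ?_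
    rw [← hF']
    exact h1 i hi
  · have h4 : Th e v u p F =
        (MvPolynomial.X v - MvPolynomial.C (p + c)) * Th e v u p F' := by
      rw [hF', map_mul, map_sub, Th_C, Th_X, if_pos rfl, MvPolynomial.C_add]
      ring
    have h5 := strict_H e u v hv.ne (p + c) (Th e v u p F') d (by
      intro α hα
      rw [← h4] at hα
      exact h2 α hα) α hα
    omega
  · have hpv : ptv v (x b) v = x b := by rw [ptv, if_pos rfl]
    by_cases hb : x b = c
    · rw [hm1 b hb]
      refine space_tay_resid v c F' (ptv v (x b)) (hpv.trans hb) (m b) ?_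
      rw [← hF']
      exact h3 b
    · rw [hm2 b hb]
      refine space_tay_resid_ne v c F' (ptv v (x b)) (by rw [hpv]; exact hb) (m b) ?_
      rw [← hF']
      exact h3 b

/-- The constants. -/
theorem WW_base {Λ : Type} (g : Lines Λ (Fin (R + 1))) (e : ℕ) (he : 1 ≤ e)
    (v u : Fin (R + 1)) (p : ℂ) {B : Type} (x : B → ℂ) (m : B → ℕ) :
    GMP g (WW e v u p 0 x m) {Kind.free 1} := by
  refine ⟨1, fun _ => Kind.free 1, by simp, fun _ => 0, ?_⟩
  rintro F hF h
  obtain ⟨-, h1, -⟩ := mem_WW.1 hF
  have h2 : tay F (0 : Fin (R + 1) → ℂ) 0 = 0 := h 0 0 (by simp [Lines.Idx])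
  rw [tay_zero_right] at h2
  have h3 : Th e v u p F = MvPolynomial.C (MvPolynomial.coeff 0 (Th e v u p F)) := by
    ext α
    rw [MvPolynomial.coeff_C]
    split_ifs with hα
    · rw [← hα]
    · by_contra hc
      have h5 := h1 α (MvPolynomial.mem_support_iff.2 hc)
      have h6 := cost_eq_zero e he u α (Nat.le_zero.1 h5)
      apply hα
      ext i
      have := congrFun h6 i
      simp [this]
  have h4 : F = MvPolynomial.C (MvPolynomial.coeff 0 (Th e v u p F)) := by
    apply Th_injective e v u p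
    rw [Th_C]
    exact h3
  rw [h4, MvPolynomial.eval_C] at h2
  rw [h4, h2, MvPolynomial.C_0]

end Pool.Agent.H18.Pr

end

section

/-!
# Module SysM (PR): the main Horace system
-/

namespace Pool.Agent.H18.Pr

open Finset Pool.Agent.H18.Ex Pool.Agent.H18.Cub

variable {R t s : ℕ}

theorem gM_sep (t : ℕ) (u : Fin (R + 1)) (hu : 1 ≤ u.val) (l : Option (Fin t)) :
    (gM t u).Sep l := by
  have h0 : u ≠ 0 := by
    rintro rfl
    simp at hu
  intro l' h
  rcases l with _ | l <;> rcases l' with _ | l'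
  · exact absurd rfl h
  · left
    simpa [gM] using h0.symm
  · left
    simpa [gM] using h0
  · right
    intro h1
    apply h
    simp only [gM, Nat.cast_inj] at h1
    congr 1
    ext
    omega

private theorem SysM_map_layer {Λ : Type} (S : Multiset (Role Λ)) :
    (S.map fun r => (Kind.free r.layer : Kind Λ)) = (S.map Role.layer).map Kind.free := by
  rw [Multiset.map_map]
  rfl

private theorem SysM_resid (ht : 1 ≤ t) (u : Fin (R + 1)) (hu : 1 ≤ u.val)
    (n : Fin t ⊕ Fin s → ℕ) (a : Option (Fin t) → ℕ) (l : Option (Fin t)) (hl : 1 ≤ a l) :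
    ResW (gM t u) l (WM u n a) (WM u n (dn l a)) := by
  unfold WM
  rcases l with _ | l
  · rw [dd_dn_none a hl, mu_dn_none n a hl]
    exact WW_residS (gM t u) none (t + 1) (by omega) 0 u ⟨u.val - 1, by omega⟩
      (by simp only; omega) (Fin.zero_le _) rfl rfl 0 (dd a) _ (mu n a)
  · rw [dd_dn_some a l hl, mu_dn_some n a l hl]
    refine WW_residH (gM t u) (some l) (t + 1) 0 u (Fin.pos_iff_ne_zero.2 ?_)
      ((l.val + 1 : ℕ) : ℂ) rfl rfl 0 (dd a) (fun b : Fin t ⊕ Fin s => ((xx b : ℕ) : ℂ)) (mu n a) _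
      (fun b hb => ?_) (fun b hb => ?_)
    · rintro rfl
      simp at hu
    · have h1 : b = .inl l := xx_injective (Nat.cast_injective hb)
      rw [h1, Function.update_self]
    · rw [Function.update_of_ne]
      rintro rfl
      exact hb rfl

private theorem SysM_finite (u : Fin (R + 1)) (n : Fin t ⊕ Fin s → ℕ) (a : Option (Fin t) → ℕ) :
    FiniteDimensional ℂ (WM u n a) := WW_finite (t + 1) (by omega) 0 u 0 _ _ _

private theorem SysM_dd_zero : dd (0 : Option (Fin t) → ℕ) = 0 := by simp [dd]

private theorem SysM_mu_zero (n : Fin t ⊕ Fin s → ℕ) (b : Fin t ⊕ Fin s) : mu n 0 b = 0 := by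
  unfold mu
  have : uu (s := s) (0 : Option (Fin t) → ℕ) b = 0 := by
    rcases b with l | j <;> simp [uu]
  rw [this]
  omega

private theorem SysM_count (j : ℕ) (hj : 1 ≤ j) (hjR : j ≤ R) (n : Fin t ⊕ Fin s → ℕ)
    (a : Option (Fin t) → ℕ) (l : Option (Fin t)) (hl : 1 ≤ a l) (hF : 1 ≤ FM R j n l a) :
    RM R j n a = RM R j n (dn l a) + FM R j n l a := by
  rcases l with _ | l
  · rw [RM_diff_none j hj hjR n a hl]
    congr 1
    have h1 : FM R j n none a = tau (t + 1) (R + 1 - j) j (dd a) - ∑ b, ell j (mu n a b) := rfl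
    rw [h1] at hF ⊢
    unfold RM
    have h2 : R - (j - 1) = R + 1 - j := by omega
    have h3 : j - 1 + 1 = j := by omega
    rw [h2, h3, Nat.cast_sub (by omega)]
    push_cast
    rfl
  · rw [RM_diff_some j hj n a l hl]
    congr 1
    have h1 : FM R j n (some l) a = tau (t + 1) (R - j) j (dd a) - ell j (mu n a (.inl l)) := rfl
    rw [h1] at hF ⊢
    rw [Nat.cast_sub (by omega)]

/-- The main system with top variable `u`.  For `count` use `RM_diff_none`, `RM_diff_some`; for `step`
and `bridge` use `GMP.step`, `GMP.bridge`, `WW_finite`, `WW_residS`, `WW_residH`, `dd_dn_none` etc. -/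
noncomputable def sysM (ht : 1 ≤ t) (u : Fin (R + 1)) (hu : 1 ≤ u.val)
    (n : Fin t ⊕ Fin s → ℕ) : SysN (Option (Fin t)) u.val where
  K := fun a S => GMP (gM t u) (WM u n a) S
  F := FM R u.val n
  R := RM R u.val n
  tr := fun l a S => GMP (gM t u) (trW (gM t u) l (WM u n a)) (S.map Kind.free)
  mono := fun a S S' h hS => GMP.mono h hS
  free_mono := fun a T S hT h => GMP.free_mono T hT S h
  tr_mono := fun l a S S' h hS => GMP.mono (Multiset.map_le_map h) hS
  count := by
    intro a l hl hF
    exact SysM_count u.val hu (by omega) n a l hl hF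
  step := by
    intro a l hl μ hμ S hS htr h
    have := SysM_finite u n a
    have := SysM_finite u n (dn l a)
    refine GMP.step (gM t u) l (gM_sep t u hu l) _ _ (SysM_resid ht u hu n a l hl) μ hμ S hS ?_ h
    rw [SysM_map_layer]
    exact htr
  bridge := by
    intro a l hl S m h1 h2
    have := SysM_finite u n a
    have := SysM_finite u n (dn l a)
    exact GMP.bridge (gM t u) l (gM_sep t u hu l) _ _ (SysM_resid ht u hu n a l hl) S m h1 h2
  base := by
    unfold WM
    rw [SysM_dd_zero]
    exact WW_base (gM t u) (t + 1) (by omega) 0 u 0 _ _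
  base_R := by
    unfold RM
    rw [SysM_dd_zero, tau_zero_right (t + 1) _ _ (by omega), sum_eq_zero fun b _ => by
      rw [SysM_mu_zero, ell_zero (by omega)]; simp]
    simp

theorem sysM_tr_none (ht : 1 ≤ t) (u u' : Fin (R + 1)) (hu : 1 ≤ u.val)
    (huu : u.val = u'.val + 1) (n : Fin t ⊕ Fin s → ℕ) (a : Option (Fin t) → ℕ) (S : Multiset ℕ)
    (h : Fk (WM u' n a) S) : (sysM ht u hu n).tr none a S := by
  have h1 := WW_traceS (gM t u) none (t + 1) (by omega) 0 u u' huu (Fin.zero_le _) rfl rfl 0
    (dd a) (fun b : Fin t ⊕ Fin s => ((xx b : ℕ) : ℂ)) (mu n a)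
  exact (Fk_iff (gM t u) _ S).1 (Fk.anti h1 h)

theorem sysM_tr_some (ht : 1 ≤ t) (u v : Fin (R + 1)) (hu : 1 ≤ u.val) (hv : v.val = 1)
    (n : Fin t ⊕ Fin s → ℕ) (a : Option (Fin t) → ℕ) (l : Fin t) (S : Multiset ℕ)
    (h : Fk (WW (t + 1) v u ((((l.val + 1) ^ (t + 1) : ℕ) : ℂ)) (dd a) (fun _ : Unit => (0 : ℂ))
      fun _ => mu n a (.inl l)) S) : (sysM ht u hu n).tr (some l) a S := by
  have h0 : v ≤ u := by
    change v.val ≤ u.val
    omega
  have h1 := WW_traceH (gM t u) (some l) (t + 1) 0 v u (by rw [hv]; rfl) h0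
    ((l.val + 1 : ℕ) : ℂ) rfl rfl 0 (dd a) (fun b : Fin t ⊕ Fin s => ((xx b : ℕ) : ℂ)) (mu n a)
    (.inl l) rfl
  have h3 : (((l.val + 1 : ℕ) : ℂ) + 0) ^ (t + 1) = ((((l.val + 1) ^ (t + 1) : ℕ) : ℂ)) := by
    rw [add_zero]
    push_cast
    ring
  rw [h3] at h1
  exact (Fk_iff (gM t u) _ S).1 (Fk.anti h1 h)

end Pool.Agent.H18.Pr

end

section

/-!
# Module SysV (PR): the Horace system of one big point
-/

namespace Pool.Agent.H18.Pr

open Finset Pool.Agent.H18.Ex Pool.Agent.H18.Cub

variable {R : ℕ}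

theorem gV_sep (v : Fin (R + 1)) (l : Unit) : (gV v).Sep l := by
  intro l' h
  exact absurd rfl h

private theorem SysV_map_layer {Λ : Type} (S : Multiset (Role Λ)) :
    (S.map fun r => (Kind.free r.layer : Kind Λ)) = (S.map Role.layer).map Kind.free := by
  rw [Multiset.map_map]
  rfl

private theorem SysV_resid (e : ℕ) (v u : Fin (R + 1)) (hvu : v < u) (p : ℂ) (k : ℕ)
    (a : Unit → ℕ) (l : Unit) : ResW (gV v) l
      (WW e v u p (a ()) (fun _ : Unit => (0 : ℂ)) fun _ => a () - k)
      (WW e v u p (dn l a ()) (fun _ : Unit => (0 : ℂ)) fun _ => dn l a () - k) := by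
  have h : dn l a () = a () - 1 := dn_self l a
  rw [h]
  refine WW_residH (gV v) l e v u hvu 0 rfl rfl p (a ()) _ _ _ (fun b _ => ?_) (fun b hb => ?_)
  · omega
  · exact absurd rfl hb

private theorem SysV_count (A n k : ℕ) (e : ℕ) (hn : 1 ≤ n) (a : ℕ) (ha : 1 ≤ a)
    (hF : 1 ≤ tau e A n a - ell n (a - k)) :
    ((tau e A (n + 1) a : ℕ) : ℤ) - ((ell (n + 1) (a - k) : ℕ) : ℤ) =
      ((tau e A (n + 1) (a - 1) : ℕ) : ℤ) - ((ell (n + 1) (a - 1 - k) : ℕ) : ℤ) +
        ((tau e A n a - ell n (a - k) : ℕ) : ℤ) := by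
  obtain ⟨d, rfl⟩ : ∃ d, a = d + 1 := ⟨a - 1, by omega⟩
  have h1 := tau_succ e A n d
  have h2 := ell_succ_sub n (d + 1 - k) hn
  have h3 : d + 1 - 1 - k = d + 1 - k - 1 := by omega
  rw [h3, h1, h2, Nat.add_sub_cancel]
  omega

/-- The system of one big point.  The state is the degree; the multiplicity is `a - k`. -/
noncomputable def sysV (e : ℕ) (he : 2 ≤ e) (v u : Fin (R + 1)) (hvu : v < u) (p : ℂ) (k : ℕ) :
    SysN Unit (u.val - v.val) where
  K := fun a S => GMP (gV v) (WW e v u p (a ()) (fun _ : Unit => (0 : ℂ)) fun _ => a () - k) S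
  F := fun _ a => tau e (R - u.val) (u.val - v.val) (a ()) - ell (u.val - v.val) (a () - k)
  R := fun a => (tau e (R - u.val) (u.val - v.val + 1) (a ()) : ℤ) -
    ell (u.val - v.val + 1) (a () - k)
  tr := fun l a S => GMP (gV v) (trW (gV v) l
    (WW e v u p (a ()) (fun _ : Unit => (0 : ℂ)) fun _ => a () - k)) (S.map Kind.free)
  mono := fun a S S' h hS => GMP.mono h hS
  free_mono := fun a T S hT h => GMP.free_mono T hT S h
  tr_mono := fun l a S S' h hS => GMP.mono (Multiset.map_le_map h) hS
  count := by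
    intro a l ha hF
    have h : dn l a () = a () - 1 := dn_self l a
    change ((tau e (R - u.val) (u.val - v.val + 1) (a ()) : ℕ) : ℤ) -
      ((ell (u.val - v.val + 1) (a () - k) : ℕ) : ℤ) =
      ((tau e (R - u.val) (u.val - v.val + 1) (dn l a ()) : ℕ) : ℤ) -
      ((ell (u.val - v.val + 1) (dn l a () - k) : ℕ) : ℤ) +
      ((tau e (R - u.val) (u.val - v.val) (a ()) - ell (u.val - v.val) (a () - k) : ℕ) : ℤ)
    rw [h]
    have h1 : v.val < u.val := hvu
    exact SysV_count (R - u.val) (u.val - v.val) k e (by omega) (a ()) ha hF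
  step := by
    intro a l ha μ hμ S hS htr h
    have : FiniteDimensional ℂ (WW e v u p (a ()) (fun _ : Unit => (0 : ℂ)) fun _ => a () - k) :=
      WW_finite e (by omega) v u p _ _ _
    have : FiniteDimensional ℂ (WW e v u p (dn l a ()) (fun _ : Unit => (0 : ℂ))
      fun _ => dn l a () - k) := WW_finite e (by omega) v u p _ _ _
    refine GMP.step (gV v) l (gV_sep v l) _ _ (SysV_resid e v u hvu p k a l) μ hμ S hS ?_ h
    rw [SysV_map_layer]
    exact htr
  bridge := by
    intro a l ha S s h1 h2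
    have : FiniteDimensional ℂ (WW e v u p (a ()) (fun _ : Unit => (0 : ℂ)) fun _ => a () - k) :=
      WW_finite e (by omega) v u p _ _ _
    have : FiniteDimensional ℂ (WW e v u p (dn l a ()) (fun _ : Unit => (0 : ℂ))
      fun _ => dn l a () - k) := WW_finite e (by omega) v u p _ _ _
    exact GMP.bridge (gV v) l (gV_sep v l) _ _ (SysV_resid e v u hvu p k a l) S s h1 h2
  base := WW_base (gV v) e (by omega) v u p _ _
  base_R := by
    change ((tau e (R - u.val) (u.val - v.val + 1) 0 : ℕ) : ℤ) -
      ((ell (u.val - v.val + 1) (0 - k) : ℕ) : ℤ) = 1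
    rw [tau_zero_right e _ _ (by omega), Nat.zero_sub, ell_zero (by omega)]
    norm_num

theorem sysV_tr (e : ℕ) (he : 2 ≤ e) (v v' u : Fin (R + 1)) (hvu : v < u)
    (hv : v'.val = v.val + 1) (q k : ℕ) (a : Unit → ℕ) (S : Multiset ℕ)
    (h : Fk (WW e v' u (((q ^ e : ℕ) : ℂ)) (a ()) (fun _ : Unit => (0 : ℂ)) fun _ => a () - k) S) :
    (sysV e he v u hvu (q : ℂ) k).tr () a S := by
  have h1 : v'.val ≤ u.val := by
    have : v.val < u.val := hvu
    omega
  have h2 := WW_traceH (gV v) () e v v' u hv h1 0 rfl rfl (q : ℂ) (a ())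
    (fun _ : Unit => (0 : ℂ)) (fun _ => a () - k) () rfl
  have h3 : ((0 : ℂ) + (q : ℂ)) ^ e = ((q ^ e : ℕ) : ℂ) := by
    push_cast
    ring
  rw [h3] at h2
  exact (Fk_iff (gV v) _ S).1 (Fk.anti h2 h)

end Pool.Agent.H18.Pr

end
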