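import Pool.Agent.H94.LP1.M27

/-! The parts of this file: H18.Ta.Greedy, H18.Ta.PosE, H18.Ta.PackOne, H18.Ta.PackMix. -/

section

/-!
# Module Greedy (TA): the greedy filling, with possibly negative numbers of points

`a u` points in the cell `(u, 0)` and one point in the cell `(u, j u)`, for `u < ℓ - 1`, and the rest,
`n - ∑ (a u + 1)` points, in the cell `(ℓ - 1, 0)`; all layers `s < ℓ - 1` are filled exactly.
-/

namespace Pool.Agent.H18.Ta

open Finset

private theorem Greedy_lt {ℓ μ u j s : ℕ} (h : s < u) : ld ℓ μ u j s = μ - (ℓ - 1 - s) := by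
  unfold ld rk
  rw [if_pos h]

private theorem Greedy_self {ℓ μ u j : ℕ} : ld ℓ μ u j u = μ - j := by
  unfold ld rk
  simp

/-- The choice, layer by layer. -/
private theorem Greedy_aux (μ ℓ : ℕ) (hμ : 1 ≤ μ) (hℓ : μ < ℓ) (c : ℕ → ℤ) (n : ℤ) :
    ∀ k, k ≤ ℓ - 1 → ∃ (a : ℕ → ℤ) (j : ℕ → ℕ), ∀ s < k, s + j s < ℓ ∧
      c s = ∑ u ∈ range s, (a u * (ld ℓ μ u 0 s : ℤ) + (ld ℓ μ u (j u) s : ℤ)) +
        (a s * μ + ((μ - j s : ℕ) : ℤ)) +
        (n - ∑ u ∈ range (s + 1), (a u + 1)) * ((μ - (ℓ - 1 - s) : ℕ) : ℤ) := by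
  intro k
  induction k with
  | zero =>
    intro _
    exact ⟨fun _ => 0, fun _ => 0, fun s hs => absurd hs (Nat.not_lt_zero s)⟩
  | succ k ih =>
    intro hk
    obtain ⟨a, j, haj⟩ := ih (by omega)
    set τ : ℕ := μ - (ℓ - 1 - k) with hτ
    have hτμ : τ < μ := by omega
    set D : ℕ := μ - τ with hD
    have hD1 : 1 ≤ D := by omega
    set R : ℤ := c k - ∑ u ∈ range k, (a u * (ld ℓ μ u 0 k : ℤ) + (ld ℓ μ u (j u) k : ℤ)) -
      (n - ∑ u ∈ range k, (a u + 1)) * (τ : ℤ) with hR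
    have hDpos : (0 : ℤ) < D := by exact_mod_cast hD1
    have hmod0 := Int.emod_nonneg R hDpos.ne'
    have hmod1 := Int.emod_lt_of_pos R hDpos
    obtain ⟨ρ, hρ⟩ : ∃ ρ : ℕ, (ρ : ℤ) = R % D := ⟨(R % D).toNat, Int.toNat_of_nonneg hmod0⟩
    have hρD : ρ < D := by
      have : (ρ : ℤ) < D := by rw [hρ]; exact hmod1
      exact_mod_cast this
    refine ⟨Function.update a k (R / D), Function.update j k (D - ρ), fun s hs => ?_⟩
    rcases Nat.lt_succ_iff_lt_or_eq.1 hs with hs | rfl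
    · -- old layers
      have h1 := haj s hs
      have hne : s ≠ k := by omega
      rw [Function.update_of_ne hne, Function.update_of_ne hne]
      refine ⟨h1.1, ?_⟩
      have h3 : ∑ u ∈ range s, (Function.update a k (R / D) u * (ld ℓ μ u 0 s : ℤ) +
          (ld ℓ μ u (Function.update j k (D - ρ) u) s : ℤ)) =
          ∑ u ∈ range s, (a u * (ld ℓ μ u 0 s : ℤ) + (ld ℓ μ u (j u) s : ℤ)) := by
        refine sum_congr rfl fun u hu => ?_
        rw [mem_range] at hu
        rw [Function.update_of_ne (by omega), Function.update_of_ne (by omega)]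
      have h4 : ∑ u ∈ range (s + 1), (Function.update a k (R / D) u + 1) =
          ∑ u ∈ range (s + 1), (a u + 1) := by
        refine sum_congr rfl fun u hu => ?_
        rw [mem_range] at hu
        rw [Function.update_of_ne (by omega)]
      rw [h3, h4]
      exact h1.2
    · -- the new layer
      rw [Function.update_self, Function.update_self]
      refine ⟨by omega, ?_⟩
      have h1 : ∑ u ∈ range s, (Function.update a s (R / D) u * (ld ℓ μ u 0 s : ℤ) +
          (ld ℓ μ u (Function.update j s (D - ρ) u) s : ℤ)) =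
          ∑ u ∈ range s, (a u * (ld ℓ μ u 0 s : ℤ) + (ld ℓ μ u (j u) s : ℤ)) := by
        refine sum_congr rfl fun u hu => ?_
        rw [mem_range] at hu
        rw [Function.update_of_ne (by omega), Function.update_of_ne (by omega)]
      have h2 : ∑ u ∈ range (s + 1), (Function.update a s (R / D) u + 1) =
          ∑ u ∈ range s, (a u + 1) + (R / D + 1) := by
        rw [sum_range_succ, Function.update_self]
        congr 1
        refine sum_congr rfl fun u hu => ?_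
        rw [mem_range] at hu
        rw [Function.update_of_ne (by omega)]
      rw [h1, h2]
      have h3 : ((μ - (D - ρ) : ℕ) : ℤ) = τ + ρ := by
        have : μ - (D - ρ) = τ + ρ := by omega
        rw [this]
        push_cast
        rfl
      have h4 := Int.emod_add_mul_ediv R D
      have h5 : (μ : ℤ) = D + τ := by
        have : μ = D + τ := by omega
        rw [this]
        push_cast
        omega
      rw [h3, hρ]
      have h6 : R = c s - ∑ u ∈ range s, (a u * (ld ℓ μ u 0 s : ℤ) + (ld ℓ μ u (j u) s : ℤ)) -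
        (n - ∑ u ∈ range s, (a u + 1)) * (τ : ℤ) := hR
      rw [h5]
      linear_combination (-1 : ℤ) * h4 + h6

/-- The greedy filling. -/
theorem greedy (μ ℓ : ℕ) (hμ : 1 ≤ μ) (hℓ : μ < ℓ) (c : ℕ → ℤ) (n : ℤ) :
    ∃ (a : ℕ → ℤ) (j : ℕ → ℕ), ∀ s < ℓ - 1, s + j s < ℓ ∧
      c s = ∑ u ∈ range (ℓ - 1), (a u * (ld ℓ μ u 0 s : ℤ) + (ld ℓ μ u (j u) s : ℤ)) +
        (n - ∑ u ∈ range (ℓ - 1), (a u + 1)) * (ld ℓ μ (ℓ - 1) 0 s : ℤ) := by
  obtain ⟨a, j, haj⟩ := Greedy_aux μ ℓ hμ hℓ c n (ℓ - 1) le_rfl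
  refine ⟨a, j, fun s hs => ⟨(haj s hs).1, ?_⟩⟩
  rw [(haj s hs).2]
  set τ : ℕ := μ - (ℓ - 1 - s) with hτ
  rw [Greedy_lt (show s < ℓ - 1 from hs)]
  obtain ⟨k, hk⟩ : ∃ k, ℓ - 1 = (s + 1) + k := ⟨ℓ - 1 - (s + 1), by omega⟩
  have h1 : ∑ u ∈ range (ℓ - 1), (a u * (ld ℓ μ u 0 s : ℤ) + (ld ℓ μ u (j u) s : ℤ)) =
      ∑ u ∈ range (s + 1), (a u * (ld ℓ μ u 0 s : ℤ) + (ld ℓ μ u (j u) s : ℤ)) +
      (∑ u ∈ range k, (a (s + 1 + u) + 1)) * (τ : ℤ) := by
    rw [hk, sum_range_add, sum_mul]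
    congr 1
    refine sum_congr rfl fun u _ => ?_
    rw [Greedy_lt (by omega), Greedy_lt (by omega), ← hτ]
    ring
  have h2 : ∑ u ∈ range (ℓ - 1), (a u + 1) =
      ∑ u ∈ range (s + 1), (a u + 1) + ∑ u ∈ range k, (a (s + 1 + u) + 1) := by
    rw [hk, sum_range_add]
  rw [h1, h2, sum_range_succ (fun u => a u * (ld ℓ μ u 0 s : ℤ) + (ld ℓ μ u (j u) s : ℤ)),
    Greedy_self, Greedy_self, Nat.sub_zero, ← hτ]
  ring

end Pool.Agent.H18.Ta

end

section

/-!
# Module PosE (TA): quantitative positivity of the solution of the load equations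

`x u` points are put in the cell `(u, 0)`, `u < ℓ`, and the load of every layer differs from `g ≥ 0` by at
most `E`.  Then `x u ≥ g / ℓ³ - 4 ℓ³ E`.
-/

namespace Pool.Agent.H18.Ta

open Finset

private theorem PosE_ld {ℓ μ u s : ℕ} :
    ld ℓ μ u 0 s = if s < u then μ - (ℓ - 1 - s) else μ - (s - u) := by
  unfold ld rk
  split_ifs <;> omega

private theorem PosE_aux (μ ℓ : ℕ) (hμ : 1 ≤ μ) (hℓ : 2 * μ ≤ ℓ) (x : ℕ → ℝ) (g E : ℝ) (hg : 0 ≤ g)
    (hEp : 0 ≤ E) (h : ∀ s < ℓ, |∑ u ∈ range ℓ, x u * (ld ℓ μ u 0 s : ℝ) - g| ≤ E) :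
    ∀ s < ℓ, g / (3 * μ ^ 3) - (μ * (4 + μ * (2 * ℓ + 2) + 2 * ℓ) + 2) * E ≤ x s := by
  set τ : ℕ → ℕ := fun s => μ - (ℓ - 1 - s) with hτ
  set F : ℕ → ℝ := fun s => ∑ u ∈ Ico s ℓ, x u with hF
  set W : ℕ → ℝ := fun s => ∑ u ∈ Ico (s - μ) s, x u with hW
  set ε : ℕ → ℝ := fun s => ∑ u ∈ range ℓ, x u * (ld ℓ μ u 0 s : ℝ) - g with hε
  have hε1 : ∀ s < ℓ, -E ≤ ε s := fun s hs => (abs_le.1 (h s hs)).1
  have hε2 : ∀ s < ℓ, ε s ≤ E := fun s hs => (abs_le.1 (h s hs)).2
  -- the equations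
  have hE : ∀ s < ℓ, ∑ u ∈ range (s + 1), x u * ((μ - (s - u) : ℕ) : ℝ) +
      (τ s : ℝ) * F (s + 1) = g + ε s := by
    intro s hs
    have h0 : g + ε s = ∑ u ∈ range ℓ, x u * (ld ℓ μ u 0 s : ℝ) := by
      simp only [hε]
      ring
    rw [h0, range_eq_Ico, range_eq_Ico, ← sum_Ico_consecutive _ (Nat.zero_le (s + 1))
      (by omega : s + 1 ≤ ℓ)]
    congr 1
    · refine sum_congr rfl fun u hu => ?_
      rw [mem_Ico] at hu
      rw [PosE_ld, if_neg (by omega)]
    · rw [hF]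
      simp only
      rw [mul_sum]
      refine sum_congr rfl fun u hu => ?_
      rw [mem_Ico] at hu
      rw [PosE_ld, if_pos (by omega)]
      ring
  -- the differences
  have hWsum : ∀ s, ∑ u ∈ range (s + 1), x u * ((μ - (s - u) : ℕ) : ℝ) -
      ∑ u ∈ range (s + 1), x u * ((μ - (s + 1 - u) : ℕ) : ℝ) = W (s + 1) := by
    intro s
    rw [← sum_sub_distrib, range_eq_Ico,
      ← sum_Ico_consecutive _ (Nat.zero_le (s + 1 - μ)) (by omega : s + 1 - μ ≤ s + 1)]
    have h1 : ∑ u ∈ Ico 0 (s + 1 - μ), (x u * ((μ - (s - u) : ℕ) : ℝ) -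
        x u * ((μ - (s + 1 - u) : ℕ) : ℝ)) = 0 := by
      refine sum_eq_zero fun u hu => ?_
      rw [mem_Ico] at hu
      rw [show μ - (s - u) = 0 by omega, show μ - (s + 1 - u) = 0 by omega]
      simp
    rw [h1, zero_add]
    refine sum_congr rfl fun u hu => ?_
    rw [mem_Ico] at hu
    rw [show μ - (s - u) = μ - (s + 1 - u) + 1 by omega]
    push_cast
    ring
  have hD : ∀ s, s + 1 < ℓ → (μ : ℝ) * x (s + 1) - W (s + 1) + (τ (s + 1) : ℝ) * F (s + 2) -
      (τ s : ℝ) * F (s + 1) = ε (s + 1) - ε s := by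
    intro s hs
    have h1 := hE s (by omega)
    have h2 := hE (s + 1) hs
    rw [sum_range_succ, Nat.sub_self, Nat.sub_zero] at h2
    have h3 := hWsum s
    rw [show s + 1 + 1 = s + 2 from rfl] at h2
    linear_combination h2 - h1 + h3
  have hFs : ∀ s < ℓ, F s = x s + F (s + 1) := by
    intro s hs
    rw [hF]
    simp only
    rw [sum_eq_sum_Ico_succ_bot hs]
  have hWs : ∀ s, μ ≤ s → W (s + 1) + x (s - μ) = W s + x s := by
    intro s hs
    rw [hW]
    simp only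
    rw [sum_Ico_succ_top (by omega : s + 1 - μ ≤ s), sum_eq_sum_Ico_succ_bot (by omega : s - μ < s),
      show s - μ + 1 = s + 1 - μ by omega]
    ring
  have hμ1 : (1 : ℝ) ≤ μ := by exact_mod_cast hμ
  have hμ0 : (0 : ℝ) < μ := by linarith
  have hℓ1 : (0 : ℝ) ≤ ℓ := Nat.cast_nonneg _
  set q : ℝ := g / μ ^ 2 with hq
  have hq0 : 0 ≤ q := by positivity
  have hgq : g = q * μ ^ 2 := by
    rw [hq]
    field_simp
  -- first phase
  have hP0 : (μ : ℝ) * x 0 = g + ε 0 := by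
    have h1 := hE 0 (by omega)
    rw [sum_range_one, Nat.sub_self, Nat.sub_zero] at h1
    have h2 : τ 0 = 0 := by
      simp only [hτ]
      omega
    rw [h2, Nat.cast_zero, zero_mul, add_zero] at h1
    linarith only [h1]
  have hx0 : q * μ - 2 * E ≤ x 0 := by
    have h1 := hε1 0 (by omega)
    by_contra hn
    push Not at hn
    have h2 : (μ : ℝ) * x 0 < μ * (q * μ - 2 * E) := mul_lt_mul_of_pos_left hn hμ0
    nlinarith only [hgq, hP0, h1, h2, hEp, hμ1]
  have hP1 : ∀ s, s < ℓ - μ → q - 2 * (s + 1) * E ≤ x s := by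
    intro s
    induction s using Nat.strong_induction_on with
    | _ s ih =>
      intro hs
      rcases Nat.eq_zero_or_pos s with rfl | hs0
      · rw [Nat.cast_zero]
        nlinarith only [hx0, hμ1, hq0]
      · obtain ⟨s, rfl⟩ : ∃ s', s = s' + 1 := ⟨s - 1, by omega⟩
        have h1 := hD s (by omega)
        have h2 : τ s = 0 := by
          simp only [hτ]
          omega
        have h3 : τ (s + 1) = 0 := by
          simp only [hτ]
          omega
        rw [h2, h3, Nat.cast_zero, zero_mul, zero_mul, add_zero, sub_zero] at h1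
        have e1 := hε1 (s + 1) (by omega)
        have e2 := hε2 s (by omega)
        have hs1 : (0 : ℝ) ≤ s := Nat.cast_nonneg _
        rcases Nat.lt_or_ge μ (s + 1) with h4 | h4
        · -- all terms have a positive index
          have h5 : (μ : ℝ) * (q - 2 * (s + 1) * E) ≤ W (s + 1) := by
            rw [hW]
            simp only
            have h6 : ∑ _u ∈ Ico (s + 1 - μ) (s + 1), (q - 2 * (s + 1) * E) =
                (μ : ℝ) * (q - 2 * (s + 1) * E) := by
              rw [sum_const, Nat.card_Ico, nsmul_eq_mul, show s + 1 - (s + 1 - μ) = μ by omega]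
            rw [← h6]
            refine sum_le_sum fun u hu => ?_
            rw [mem_Ico] at hu
            have h7 := ih u (by omega) (by omega)
            have h8 : (u : ℝ) ≤ s := by exact_mod_cast (by omega : u ≤ s)
            nlinarith only [h7, hEp, h8]
          by_contra hn
          push Not at hn
          have h6 : (μ : ℝ) * x (s + 1) < μ * (q - 2 * (((s + 1 : ℕ) : ℝ) + 1) * E) :=
            mul_lt_mul_of_pos_left hn hμ0
          push_cast at h6
          nlinarith only [h1, e1, e2, h5, h6, hEp, hμ1, mul_nonneg hEp (sub_nonneg.2 hμ1)]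
        · -- the index zero occurs
          have h5 : (q * μ - 2 * E) - (s : ℝ) * (2 * (s + 1) * E) ≤ W (s + 1) := by
            rw [hW]
            simp only
            rw [show s + 1 - μ = 0 by omega, sum_eq_sum_Ico_succ_bot (by omega : 0 < s + 1)]
            have h6 : ∑ _u ∈ Ico (0 + 1) (s + 1), (-(2 * ((s : ℝ) + 1) * E)) =
                -((s : ℝ) * (2 * (s + 1) * E)) := by
              rw [sum_const, Nat.card_Ico, nsmul_eq_mul, show s + 1 - (0 + 1) = s by omega]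
              ring
            have h7 : ∑ _u ∈ Ico (0 + 1) (s + 1), (-(2 * ((s : ℝ) + 1) * E)) ≤
                ∑ u ∈ Ico (0 + 1) (s + 1), x u := by
              refine sum_le_sum fun u hu => ?_
              rw [mem_Ico] at hu
              have h7 := ih u (by omega) (by omega)
              have h8 : (u : ℝ) ≤ s := by exact_mod_cast (by omega : u ≤ s)
              nlinarith only [hq0, h7, hEp, h8]
            linarith only [hx0, h6, h7]
          have h9 : (s : ℝ) + 1 ≤ μ := by exact_mod_cast h4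
          by_contra hn
          push Not at hn
          have h6 : (μ : ℝ) * x (s + 1) < μ * (q - 2 * (((s + 1 : ℕ) : ℝ) + 1) * E) :=
            mul_lt_mul_of_pos_left hn hμ0
          push_cast at h6
          have h10 : (s : ℝ) * (2 * (s + 1) * E) ≤ (μ - 1) * (2 * (s + 1) * E) := by
            apply mul_le_mul_of_nonneg_right (by linarith only [h9])
            positivity
          nlinarith only [h1, e1, e2, h5, h6, h10, hEp, hμ1, hs1, mul_nonneg hEp (sub_nonneg.2 hμ1), mul_nonneg hEp hs1]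
  have hP1' : ∀ s, s < ℓ - μ → q - 2 * ℓ * E ≤ x s := by
    intro s hs
    have h1 := hP1 s hs
    have h2 : (s : ℝ) + 1 ≤ ℓ := by exact_mod_cast (by omega : s + 1 ≤ ℓ)
    nlinarith only [h1, hEp, h2]
  -- second phase
  set A : ℕ → ℝ := fun t => W (ℓ - μ + t) - F (ℓ - μ + t) with hA
  have hA1 : ∀ t, t < μ → ((μ - t - 1 : ℕ) : ℝ) * x (ℓ - μ + t) =
      A t + (ε (ℓ - μ + t) - ε (ℓ - μ + t - 1)) := by
    intro t ht
    obtain ⟨s, hs⟩ : ∃ s, ℓ - μ + t = s + 1 := ⟨ℓ - μ + t - 1, by omega⟩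
    have h1 := hD s (by omega)
    have h2 : τ s = t := by
      simp only [hτ]
      omega
    have h3 : τ (s + 1) = t + 1 := by
      simp only [hτ]
      omega
    have h4 := hFs (s + 1) (by omega)
    rw [h2, h3] at h1
    have h5 : ((μ - t - 1 : ℕ) : ℝ) = (μ : ℝ) - t - 1 := by
      rw [Nat.sub_sub, Nat.cast_sub (by omega)]
      push_cast
      ring
    rw [hA]
    simp only
    rw [hs, h5, Nat.add_sub_cancel]
    push_cast at h1
    rw [show s + 2 = s + 1 + 1 from rfl] at h1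
    linear_combination h1 + (t + 1 : ℝ) * h4
  have hη : ∀ t, t < μ → -(2 * E) ≤ ε (ℓ - μ + t) - ε (ℓ - μ + t - 1) ∧
      ε (ℓ - μ + t) - ε (ℓ - μ + t - 1) ≤ 2 * E := by
    intro t ht
    have e1 := hε1 (ℓ - μ + t) (by omega)
    have e2 := hε2 (ℓ - μ + t) (by omega)
    have e3 := hε1 (ℓ - μ + t - 1) (by omega)
    have e4 := hε2 (ℓ - μ + t - 1) (by omega)
    constructor <;> linarith only [e1, e4, e2, e3]
  have hA2 : ∀ t, t + 1 < μ → A (t + 1) + x (ℓ - μ + t - μ) = A t + 2 * x (ℓ - μ + t) := by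
    intro t ht
    have h1 := hWs (ℓ - μ + t) (by omega)
    have h2 := hFs (ℓ - μ + t) (by omega)
    rw [hA]
    simp only
    rw [show ℓ - μ + (t + 1) = ℓ - μ + t + 1 by omega]
    linear_combination h1 + h2
  have hA3 : ∀ k, k < μ → -((2 + k * (2 * ℓ + 2)) * E) ≤ A (μ - 1 - k) ∧
      (1 ≤ k → q / 3 - (2 + k * (2 * ℓ + 2)) * E ≤ A (μ - 1 - k)) := by
    intro k
    induction k with
    | zero =>
      intro _
      have h1 := hA1 (μ - 1) (by omega)
      have h2 := hη (μ - 1) (by omega)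
      rw [show μ - (μ - 1) - 1 = 0 by omega, Nat.cast_zero, zero_mul] at h1
      rw [Nat.sub_zero, Nat.cast_zero]
      exact ⟨by linarith only [h1, h2, h2.2], fun h => absurd h (by norm_num)⟩
    | succ k ih =>
      intro hk
      have ih' := (ih (by omega)).1
      obtain ⟨t, ht⟩ : ∃ t, μ - 1 - (k + 1) = t := ⟨_, rfl⟩
      have ht1 : μ - 1 - k = t + 1 := by omega
      rw [ht1] at ih'
      rw [ht]
      have h1 := hA1 t (by omega)
      have h2 := hA2 t (by omega)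
      have h3 := hP1' (ℓ - μ + t - μ) (by omega)
      have h4 : (1 : ℝ) ≤ ((μ - t - 1 : ℕ) : ℝ) := by
        have : 1 ≤ μ - t - 1 := by omega
        exact_mod_cast this
      have hη' := hη t (by omega)
      set η : ℝ := ε (ℓ - μ + t) - ε (ℓ - μ + t - 1) with hηd
      set p : ℝ := ((μ - t - 1 : ℕ) : ℝ) with hp
      set G : ℝ := 2 + k * (2 * ℓ + 2) with hG
      have hG0 : 0 ≤ G := by positivity
      have h5 : (p + 2) * A t = p * (A (t + 1) + x (ℓ - μ + t - μ)) - 2 * η := by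
        rw [h2]
        linear_combination (-2 : ℝ) * h1
      have h6 : p * (q - (G + 2 * ℓ) * E) ≤ p * (A (t + 1) + x (ℓ - μ + t - μ)) := by
        apply mul_le_mul_of_nonneg_left _ (by linarith only [h4])
        linarith only [h3, ih']
      have h7 : (p + 2) * (q / 3 - (G + (2 * ℓ + 2)) * E) ≤ (p + 2) * A t := by
        rw [h5]
        nlinarith only [hEp, hη', h6, h4, hq0, hG0, hℓ1, mul_nonneg (sub_nonneg.2 h4) hq0, mul_nonneg hG0 hEp, mul_nonneg hℓ1 hEp,
          mul_nonneg (sub_nonneg.2 h4) hEp]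
      have h8 : q / 3 - (G + (2 * ℓ + 2)) * E ≤ A t := le_of_mul_le_mul_left h7 (by linarith only [h4])
      have h9 : 2 + ((k + 1 : ℕ) : ℝ) * (2 * ℓ + 2) = G + (2 * ℓ + 2) := by
        rw [hG]
        push_cast
        ring
      rw [h9]
      exact ⟨by linarith only [hq0, h8], fun _ => h8⟩
  have hq3 : g / (3 * μ ^ 3) = q / (3 * μ) := by
    rw [hq]
    field_simp
  set Q : ℝ := 4 + μ * (2 * ℓ + 2) + 2 * ℓ with hQ
  have hQ0 : 0 ≤ Q := by positivity
  have hqle : q / (3 * μ) ≤ q / 3 := by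
    apply div_le_div_of_nonneg_left hq0 (by norm_num)
    linarith only [hμ1]
  have hP2 : ∀ s, s + 1 < ℓ → q / (3 * μ) - Q * E ≤ x s := by
    intro s hs
    rcases Nat.lt_or_ge s (ℓ - μ) with h1 | h1
    · have h2 := hP1' s h1
      have h3 : 2 * (ℓ : ℝ) * E ≤ Q * E := by
        apply mul_le_mul_of_nonneg_right _ hEp
        rw [hQ]
        nlinarith only [hμ1]
      linarith only [hq0, hqle, h2, h3]
    · obtain ⟨t, rfl⟩ := Nat.exists_eq_add_of_le h1
      have h2 := hA1 t (by omega)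
      have h3 := (hA3 (μ - 1 - t) (by omega)).2 (by omega)
      rw [show μ - 1 - (μ - 1 - t) = t by omega] at h3
      have hη' := hη t (by omega)
      set η : ℝ := ε (ℓ - μ + t) - ε (ℓ - μ + t - 1) with hηd
      have h4 : (1 : ℝ) ≤ ((μ - t - 1 : ℕ) : ℝ) := by
        have : 1 ≤ μ - t - 1 := by omega
        exact_mod_cast this
      have h4' : ((μ - t - 1 : ℕ) : ℝ) ≤ μ := by
        exact_mod_cast (by omega : μ - t - 1 ≤ μ)
      set p : ℝ := ((μ - t - 1 : ℕ) : ℝ) with hp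
      have h5 : ((μ - 1 - t : ℕ) : ℝ) ≤ μ := by
        exact_mod_cast (by omega : μ - 1 - t ≤ μ)
      have h6 : (2 + ((μ - 1 - t : ℕ) : ℝ) * (2 * ℓ + 2)) * E + 2 * E ≤ Q * E := by
        rw [← add_mul]
        apply mul_le_mul_of_nonneg_right _ hEp
        rw [hQ]
        nlinarith only [h5]
      have h7 : q / 3 - Q * E ≤ p * x (ℓ - μ + t) := by
        rw [h2]
        linarith only [h3, hη', h6, hη'.1]
      by_contra hn
      push Not at hn
      have h8 : p * x (ℓ - μ + t) < p * (q / (3 * μ) - Q * E) :=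
        mul_lt_mul_of_pos_left hn (by linarith only [h4])
      have h9 : p * (q / (3 * μ)) ≤ q / 3 := by
        have h10 : q / 3 = μ * (q / (3 * μ)) := by
          field_simp
        rw [h10]
        apply mul_le_mul_of_nonneg_right h4'
        positivity
      nlinarith only [h3, hη', h2, h6, h8, h9, h4, hQ0, hEp, mul_nonneg hQ0 hEp]
  -- the last layer
  have hμQ : Q ≤ μ * Q := by nlinarith only [hμ1, hQ0]
  rw [hq3]
  intro s hs
  rcases Nat.lt_or_ge (s + 1) ℓ with h1 | h1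
  · have h2 := hP2 s h1
    nlinarith only [hEp, h2, hμQ]
  · have hs' : s = ℓ - 1 := by omega
    have h2 := hA1 (μ - 1) (by omega)
    have hη' := hη (μ - 1) (by omega)
    rw [show μ - (μ - 1) - 1 = 0 by omega, Nat.cast_zero, zero_mul] at h2
    rw [hA] at h2
    simp only at h2
    rw [show ℓ - μ + (μ - 1) = s by omega] at h2 hη'
    have h3 : F s = x s := by
      rw [hFs s hs, hF]
      simp only
      rw [Ico_eq_empty_of_le (by omega), sum_empty, add_zero]
    have h4 : (μ : ℝ) * (q / (3 * μ) - Q * E) ≤ W s := by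
      rw [hW]
      simp only
      have h6 : ∑ _u ∈ Ico (s - μ) s, (q / (3 * μ) - Q * E) =
          (μ : ℝ) * (q / (3 * μ) - Q * E) := by
        rw [sum_const, Nat.card_Ico, nsmul_eq_mul, show s - (s - μ) = μ by omega]
      rw [← h6]
      refine sum_le_sum fun u hu => ?_
      rw [mem_Ico] at hu
      exact hP2 u (by omega)
    have h5 : q / (3 * μ) ≤ μ * (q / (3 * μ)) := by
      have : 0 ≤ q / (3 * μ) := by positivity
      nlinarith only [hμ1, this]
    nlinarith only [h2, hη', h3, h4, h5]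

/-- A lower bound for the solution. -/
theorem bndE (μ ℓ : ℕ) (hμ : 1 ≤ μ) (hℓ : 2 * μ ≤ ℓ) (x : ℕ → ℝ) (g E : ℝ) (hg : 0 ≤ g)
    (hEp : 0 ≤ E) (h : ∀ s < ℓ, |∑ u ∈ range ℓ, x u * (ld ℓ μ u 0 s : ℝ) - g| ≤ E) :
    ∀ s < ℓ, g / ℓ ^ 3 - 4 * ℓ ^ 3 * E ≤ x s := by
  intro s hs
  refine le_trans ?_ (PosE_aux μ ℓ hμ hℓ x g E hg hEp h s hs)
  have hμ1 : (1 : ℝ) ≤ μ := by exact_mod_cast hμ
  have hℓ1 : 2 * (μ : ℝ) ≤ ℓ := by exact_mod_cast hℓ
  have hℓ2 : (2 : ℝ) ≤ ℓ := by linarith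
  have h1 : g / (ℓ : ℝ) ^ 3 ≤ g / (3 * (μ : ℝ) ^ 3) := by
    apply div_le_div_of_nonneg_left hg (by positivity)
    have h2 : (2 * (μ : ℝ)) ^ 3 ≤ (ℓ : ℝ) ^ 3 := pow_le_pow_left₀ (by positivity) hℓ1 3
    have h3 : (0 : ℝ) ≤ (μ : ℝ) ^ 3 := by positivity
    nlinarith only [h2, h3]
  have h2 : ((μ : ℝ) * (4 + μ * (2 * ℓ + 2) + 2 * ℓ) + 2) * E ≤ 4 * ℓ ^ 3 * E := by
    apply mul_le_mul_of_nonneg_right _ hEp
    have e1 : (μ : ℝ) ≤ ℓ / 2 := by linarith only [hℓ1]
    have e2 : (4 : ℝ) + μ * (2 * ℓ + 2) + 2 * ℓ ≤ 4 + ℓ / 2 * (2 * ℓ + 2) + 2 * ℓ := by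
      nlinarith only [hℓ1]
    have e3 : (4 : ℝ) + ℓ / 2 * (2 * ℓ + 2) + 2 * ℓ ≤ 4 * ℓ ^ 2 := by nlinarith only [hμ1, e2]
    have e4 : (μ : ℝ) * (4 + μ * (2 * ℓ + 2) + 2 * ℓ) ≤ ℓ / 2 * (4 * ℓ ^ 2) := by
      apply mul_le_mul e1 (e2.trans e3) (by positivity) (by positivity)
    have e5 : (8 : ℝ) ≤ ℓ ^ 3 := by
      have := pow_le_pow_left₀ (by norm_num : (0 : ℝ) ≤ 2) hℓ2 3
      norm_num at this
      exact this
    nlinarith only [e4, e5]
  linarith only [h1, h2]

end Pool.Agent.H18.Ta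

end

section

/-!
# Module PackOne (TA): exact packing of points of one multiplicity

Proof.  Apply `greedy` to `c` and `n`.  The identity also holds for the last layer `s = ℓ - 1`: the sum over all
layers `s < ℓ` of the right hand side is `∑_u (a u + 1) * ell 2 μ + (n - ∑_u (a u + 1)) * ell 2 μ = n * ell 2 μ`
by `sum_ld`, and this is `∑ c s`.  Put `x u = a u` for `u < ℓ - 1` and `x (ℓ - 1) = n - ∑ (a u + 1)`.
Then `∑_{u<ℓ} x u * ld ℓ μ u 0 s = c s - σ s` where `0 ≤ σ s = ∑_{u<ℓ-1} ld ℓ μ u (j u) s ≤ ℓ μ`.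
With `g = c 0`, `E = B + ℓ μ` we get `|∑_u x u ld - g| ≤ E`, so by `bnd` `x u ≥ δ c 0 - C E ≥ 0` as soon as
`c 0 ≥ N ≥ C E / δ`.  So the `a u` and the rest are natural numbers and
`P = ∑_{u<ℓ-1} (replicate (a u) (u, 0) + {(u, j u)}) + replicate (rest) (ℓ - 1, 0)`.
-/

namespace Pool.Agent.H18.Ta

open Finset Pool.Agent.H18.Ex

private theorem PackOne_multiset (K L r : ℕ) (a j : ℕ → ℕ) (hj : ∀ u < K, u + j u < L) (hL : K < L) :
    ∃ P : Multiset (ℕ × ℕ), P.card = ∑ u ∈ range K, (a u + 1) + r ∧ (∀ x ∈ P, x.1 + x.2 < L) ∧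
      ∀ f : ℕ × ℕ → ℕ, (P.map f).sum = ∑ u ∈ range K, (a u * f (u, 0) + f (u, j u)) + r * f (K, 0) := by
  refine ⟨∑ u ∈ range K, (Multiset.replicate (a u) (u, 0) + {(u, j u)}) +
    Multiset.replicate r (K, 0), ?_, ?_, ?_⟩
  · rw [Multiset.card_add, Multiset.card_sum, Multiset.card_replicate]
    congr 1
    refine sum_congr rfl fun u _ => ?_
    rw [Multiset.card_add, Multiset.card_replicate, Multiset.card_singleton]
  · intro x hx
    rcases Multiset.mem_add.1 hx with hx | hx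
    · obtain ⟨u, hu, hx⟩ := Multiset.mem_sum.1 hx
      have hu' := hj u (mem_range.1 hu)
      rcases Multiset.mem_add.1 hx with hx | hx
      · rw [Multiset.eq_of_mem_replicate hx]
        show u + 0 < L
        omega
      · rw [Multiset.mem_singleton.1 hx]
        exact hu'
    · rw [Multiset.eq_of_mem_replicate hx]
      exact hL
  · intro f
    have h : ∀ P : Multiset (ℕ × ℕ), (P.map f).sum =
        (Multiset.sumAddMonoidHom.comp (Multiset.mapAddMonoidHom f)) P := fun P => rfl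
    rw [h, map_add, map_sum, ← h]
    rw [Multiset.map_replicate, Multiset.sum_replicate, smul_eq_mul]
    congr 1
    refine sum_congr rfl fun u _ => ?_
    rw [← h, Multiset.map_add, Multiset.sum_add, Multiset.map_replicate, Multiset.sum_replicate,
      smul_eq_mul, Multiset.map_singleton, Multiset.sum_singleton]

/-- The bound in `pack_one`. -/
def nOne (ℓ B : ℕ) : ℕ := 4 * ℓ ^ 6 * (B + ℓ ^ 2)

/-- Exact packing, one multiplicity. -/
theorem pack_one (μ ℓ B : ℕ) (hμ : 1 ≤ μ) (hℓ : 2 * μ ≤ ℓ) :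
    ∀ (c : ℕ → ℕ) (n : ℕ), (∀ s < ℓ, nOne ℓ B ≤ c s) → (∀ s < ℓ, ∀ t < ℓ, c s ≤ c t + B) →
      ∑ s ∈ range ℓ, c s = n * ell 2 μ →
      ∃ P : Multiset (ℕ × ℕ), P.card = n ∧ (∀ x ∈ P, x.1 + x.2 < ℓ) ∧
        ∀ s < ℓ, (P.map fun x => ld ℓ μ x.1 x.2 s).sum = c s := by
  intro c n hN hB hsum
  obtain ⟨a, j, hg⟩ := greedy μ ℓ hμ (by omega) (fun s => (c s : ℤ)) n
  obtain ⟨L, rfl⟩ : ∃ L, ℓ = L + 1 := ⟨ℓ - 1, by omega⟩
  rw [Nat.add_sub_cancel] at hg
  set rest : ℤ := (n : ℤ) - ∑ u ∈ range L, (a u + 1) with hrest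
  have hμL : μ ≤ L + 1 := by omega
  have hall : ∀ s < L + 1, (c s : ℤ) = ∑ u ∈ range L, (a u * (ld (L + 1) μ u 0 s : ℤ) +
      (ld (L + 1) μ u (j u) s : ℤ)) + rest * (ld (L + 1) μ L 0 s : ℤ) := by
    intro s hs
    rcases Nat.lt_or_ge s L with h | h
    · exact (hg s h).2
    · obtain rfl : s = L := by omega
      have h2 : ∑ t ∈ range (s + 1), (∑ u ∈ range s, (a u * (ld (s + 1) μ u 0 t : ℤ) +
          (ld (s + 1) μ u (j u) t : ℤ)) + rest * (ld (s + 1) μ s 0 t : ℤ)) = n * ell 2 μ := by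
        rw [sum_add_distrib, sum_comm, ← mul_sum]
        have h3 : ∀ u ∈ range s, ∑ t ∈ range (s + 1), (a u * (ld (s + 1) μ u 0 t : ℤ) +
            (ld (s + 1) μ u (j u) t : ℤ)) = (a u + 1) * ell 2 μ := by
          intro u hu
          have hu' := mem_range.1 hu
          rw [sum_add_distrib, ← mul_sum, ← Nat.cast_sum, ← Nat.cast_sum,
            sum_ld (by omega) hμL, sum_ld (hg u hu').1 hμL]
          ring
        rw [sum_congr rfl h3, ← sum_mul, ← Nat.cast_sum, sum_ld (by omega) hμL, hrest]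
        ring
      have h4 : ∑ t ∈ range (s + 1), (c t : ℤ) = n * ell 2 μ := by
        rw [← Nat.cast_sum, hsum]
        push_cast
        rfl
      rw [← h4, sum_range_succ, sum_range_succ] at h2
      have h5 : ∑ t ∈ range s, (∑ u ∈ range s, (a u * (ld (s + 1) μ u 0 t : ℤ) +
          (ld (s + 1) μ u (j u) t : ℤ)) + rest * (ld (s + 1) μ s 0 t : ℤ)) =
          ∑ t ∈ range s, (c t : ℤ) :=
        sum_congr rfl fun t ht => ((hg t (mem_range.1 ht)).2).symm
      rw [h5] at h2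
      exact (add_left_cancel h2).symm
  have hx : ∀ s < L + 1, (0 : ℝ) ≤ (fun u : ℕ => if u < L then ((a u : ℤ) : ℝ) else (rest : ℝ)) s := by
    intro s hs
    refine le_trans ?_ (bndE μ (L + 1) hμ hℓ
      (fun u : ℕ => if u < L then ((a u : ℤ) : ℝ) else (rest : ℝ)) (c 0)
      ((B : ℝ) + (L + 1 : ℕ) * μ) (Nat.cast_nonneg _) (by positivity) ?_ s hs)
    · have h1 := hN 0 (Nat.succ_pos L)
      have h2 : ((nOne (L + 1) B : ℕ) : ℝ) ≤ (c 0 : ℝ) := by exact_mod_cast h1
      unfold nOne at h2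
      have hL0 : (0 : ℝ) < ((L + 1 : ℕ) : ℝ) := by positivity
      have h3 : (μ : ℝ) ≤ ((L + 1 : ℕ) : ℝ) := by exact_mod_cast hμL
      rw [Nat.cast_mul, Nat.cast_mul, Nat.cast_add, Nat.cast_pow, Nat.cast_pow] at h2
      set X : ℝ := ((L + 1 : ℕ) : ℝ) with hX
      have h4 : X * μ ≤ X ^ 2 := by nlinarith
      have h5 : 4 * X ^ 6 * ((B : ℝ) + X * μ) ≤ c 0 := by
        refine le_trans ?_ h2
        push_cast
        apply mul_le_mul_of_nonneg_left (by linarith) (by positivity)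
      rw [sub_nonneg, le_div_iff₀ (by positivity)]
      have h6 : 4 * X ^ 3 * ((B : ℝ) + X * μ) * X ^ 3 = 4 * X ^ 6 * ((B : ℝ) + X * μ) := by ring
      rw [h6]
      exact h5
    · intro t ht
      have h1 : ∑ u ∈ range (L + 1), (fun u : ℕ => if u < L then ((a u : ℤ) : ℝ) else (rest : ℝ)) u *
          (ld (L + 1) μ u 0 t : ℝ) = (c t : ℝ) - ∑ u ∈ range L, (ld (L + 1) μ u (j u) t : ℝ) := by
        rw [sum_range_succ]
        have h2 : ∑ u ∈ range L, (fun u : ℕ => if u < L then ((a u : ℤ) : ℝ) else (rest : ℝ)) u *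
            (ld (L + 1) μ u 0 t : ℝ) = ∑ u ∈ range L, ((a u : ℤ) : ℝ) * (ld (L + 1) μ u 0 t : ℝ) := by
          refine sum_congr rfl fun u hu => ?_
          simp only
          rw [if_pos (mem_range.1 hu)]
        rw [h2]
        simp only
        rw [if_neg (lt_irrefl L)]
        have h3 : (c t : ℝ) = ((c t : ℤ) : ℝ) := by push_cast; rfl
        rw [h3, hall t ht]
        push_cast
        rw [sum_add_distrib]
        ring
      rw [h1]
      have h4 : ∑ u ∈ range L, (ld (L + 1) μ u (j u) t : ℝ) ≤ (L + 1 : ℕ) * (μ : ℝ) := by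
        calc ∑ u ∈ range L, (ld (L + 1) μ u (j u) t : ℝ) ≤ ∑ u ∈ range L, (μ : ℝ) := by
              refine sum_le_sum fun u _ => ?_
              exact_mod_cast Nat.sub_le _ _
          _ = L * (μ : ℝ) := by rw [sum_const, card_range, nsmul_eq_mul]
          _ ≤ (L + 1 : ℕ) * (μ : ℝ) := by
              apply mul_le_mul_of_nonneg_right _ (Nat.cast_nonneg _)
              exact_mod_cast Nat.le_succ L
      have h5 : 0 ≤ ∑ u ∈ range L, (ld (L + 1) μ u (j u) t : ℝ) :=
        sum_nonneg fun u _ => Nat.cast_nonneg _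
      have h6 : (c t : ℝ) ≤ c 0 + B := by exact_mod_cast hB t ht 0 (Nat.succ_pos L)
      have h7 : (c 0 : ℝ) ≤ c t + B := by exact_mod_cast hB 0 (Nat.succ_pos L) t ht
      rw [abs_le]
      constructor <;> linarith
  have ha : ∀ u < L, 0 ≤ a u := by
    intro u hu
    have h1 := hx u (by omega)
    simp only at h1
    rw [if_pos hu] at h1
    exact_mod_cast h1
  have hr : 0 ≤ rest := by
    have h1 := hx L (Nat.lt_succ_self L)
    simp only at h1
    rw [if_neg (lt_irrefl L)] at h1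
    exact_mod_cast h1
  obtain ⟨P, h1, h2, h3⟩ := PackOne_multiset L (L + 1) rest.toNat (fun u => (a u).toNat) j
    (fun u hu => (hg u hu).1) (Nat.lt_succ_self L)
  have ha' : ∀ u ∈ range L, (((a u).toNat : ℕ) : ℤ) = a u := fun u hu =>
    Int.toNat_of_nonneg (ha u (mem_range.1 hu))
  have hr' : ((rest.toNat : ℕ) : ℤ) = rest := Int.toNat_of_nonneg hr
  refine ⟨P, ?_, h2, fun s hs => ?_⟩
  · rw [h1]
    have h4 : ((∑ u ∈ range L, ((a u).toNat + 1) + rest.toNat : ℕ) : ℤ) = n := by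
      rw [Nat.cast_add, Nat.cast_sum, hr']
      have h5 : ∑ u ∈ range L, (((a u).toNat + 1 : ℕ) : ℤ) = ∑ u ∈ range L, (a u + 1) := by
        refine sum_congr rfl fun u hu => ?_
        rw [Nat.cast_add, ha' u hu, Nat.cast_one]
      rw [h5, hrest]
      ring
    exact_mod_cast h4
  · rw [h3]
    have h4 : ((∑ u ∈ range L, ((a u).toNat * ld (L + 1) μ u 0 s + ld (L + 1) μ u (j u) s) +
        rest.toNat * ld (L + 1) μ L 0 s : ℕ) : ℤ) = c s := by
      rw [hall s hs, Nat.cast_add, Nat.cast_sum, Nat.cast_mul, hr']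
      congr 1
      refine sum_congr rfl fun u hu => ?_
      rw [Nat.cast_add, Nat.cast_mul, ha' u hu]
    exact_mod_cast h4

end Pool.Agent.H18.Ta

end

section

/-!
# Module PackMix (TA): exact packing of points of several multiplicities

Proof.  For `1 ≤ μ ≤ h` let `N₁` be larger than all the bounds of `pack_one` for `(μ, ℓ, 1)`.  Put
`B = 1 + ℓ * N₁ * h + …` (a bound for the variation and for the excess over the average of the vectors `v^μ`
below), `B₂ = E + h * B`, and let `N₂` be larger than all the bounds of `pack_one` for `(μ, ℓ, B₂)`; finally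
`N = h * (N₂ + B₂)` (or larger).  Let `n μ` be the number of points of multiplicity `μ` in `G` and let `μ*` be
the multiplicity for which `n μ * ell 2 μ` is largest, so that `n μ* * ell 2 μ* ≥ ∑ c / h ≥ ℓ N / h`.
For `μ ≠ μ*` define the vector `v^μ`:
* if `n μ * ell 2 μ ≥ ℓ * N₁`: `v^μ s = (n μ * ell 2 μ + s) / ℓ`, `s < ℓ`; its sum over `s < ℓ` is
  `n μ * ell 2 μ` (Hermite), two entries differ by at most `1`, all entries are `≥ N₁`: packed by `pack_one`;
* otherwise all points of multiplicity `μ` are put in the cell `(0, 0)`, `v^μ s = n μ * ld ℓ μ 0 0 s ≤ ℓ N₁ h`,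
  sum `n μ * ell 2 μ` (`sum_ld`).
The rest `c s - ∑_{μ ≠ μ*} v^μ s` has sum `n μ* * ell 2 μ*`, variation at most `B₂`, so it is at least
`n μ* ell 2 μ* / ℓ - B₂ ≥ N / h - B₂ ≥ N₂`: packed by `pack_one` for `(μ*, ℓ, B₂)`.
-/

namespace Pool.Agent.H18.Ta

open Finset Pool.Agent.H18.Ex

private theorem PackMix_map_sum {α β : Type} (I : Finset ℕ) (Q : ℕ → Multiset α) (f : α → β) :
    (∑ μ ∈ I, Q μ).map f = ∑ μ ∈ I, (Q μ).map f := by
  classical
  induction I using Finset.induction_on with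
  | empty => simp
  | insert a I ha ih => rw [Finset.sum_insert ha, Finset.sum_insert ha, Multiset.map_add, ih]

private theorem PackMix_sum_sum {α : Type} (I : Finset ℕ) (Q : ℕ → Multiset α) (f : α → ℕ) :
    ((∑ μ ∈ I, Q μ).map f).sum = ∑ μ ∈ I, ((Q μ).map f).sum := by
  classical
  induction I using Finset.induction_on with
  | empty => simp
  | insert a I ha ih =>
    rw [Finset.sum_insert ha, Finset.sum_insert ha, Multiset.map_add, Multiset.sum_add, ih]

private theorem PackMix_swap {ℓ : ℕ} (Q : Multiset (ℕ × ℕ)) (f : ℕ × ℕ → ℕ → ℕ) :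
    ∑ s ∈ range ℓ, (Q.map fun x => f x s).sum = (Q.map fun x => ∑ s ∈ range ℓ, f x s).sum := by
  induction Q using Multiset.induction_on with
  | empty => simp
  | cons a Q ih => simp only [Multiset.map_cons, Multiset.sum_cons, Finset.sum_add_distrib, ih]

/-- The total load. -/
private theorem PackMix_total {ℓ μ : ℕ} (hμ : μ ≤ ℓ) (Q : Multiset (ℕ × ℕ))
    (hQ : ∀ x ∈ Q, x.1 + x.2 < ℓ) :
    ∑ s ∈ range ℓ, (Q.map fun x => ld ℓ μ x.1 x.2 s).sum = Q.card * ell 2 μ := by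
  rw [PackMix_swap Q fun x s => ld ℓ μ x.1 x.2 s]
  rw [Multiset.map_congr rfl fun x hx => sum_ld (hQ x hx) hμ]
  rw [Multiset.map_const', Multiset.sum_replicate, smul_eq_mul]

private theorem PackMix_hermite (A ℓ : ℕ) (hℓ : 0 < ℓ) :
    ∑ s ∈ range ℓ, (A + s) / ℓ = A := by
  induction A with
  | zero =>
    refine Finset.sum_eq_zero fun s hs => ?_
    rw [zero_add]
    exact Nat.div_eq_of_lt (mem_range.1 hs)
  | succ A ih =>
    obtain ⟨k, rfl⟩ : ∃ k, ℓ = k + 1 := ⟨ℓ - 1, by omega⟩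
    rw [Finset.sum_range_succ']  at ih
    rw [Finset.sum_range_succ]
    have h1 : (A + 1 + k) / (k + 1) = A / (k + 1) + 1 := by
      rw [show A + 1 + k = A + (k + 1) by ring, Nat.add_div_right _ hℓ]
    have h2 : ∑ s ∈ range k, (A + 1 + s) / (k + 1) = ∑ s ∈ range k, (A + (s + 1)) / (k + 1) := by
      refine Finset.sum_congr rfl fun s _ => ?_
      rw [show A + 1 + s = A + (s + 1) by ring]
    rw [h1, h2]
    rw [add_zero] at ih
    omega

/-- Packing with bounded variation, one multiplicity. -/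
private theorem PackMix_small (ℓ μ : ℕ) (hμ : 1 ≤ μ) (hℓ : 2 * μ ≤ ℓ) :
    ∀ n : ℕ, ∃ Q : Multiset (ℕ × ℕ), Q.card = n ∧ (∀ x ∈ Q, x.1 + x.2 < ℓ) ∧
      ∀ s < ℓ, ∀ t < ℓ, (Q.map fun x => ld ℓ μ x.1 x.2 s).sum ≤
        (Q.map fun x => ld ℓ μ x.1 x.2 t).sum + (1 + ℓ * nOne ℓ 1) := by
  have hN := pack_one μ ℓ 1 hμ hℓ
  set N := nOne ℓ 1 with hNdef
  have hℓ0 : 0 < ℓ := by omega
  intro n
  by_cases h : ℓ * N ≤ n * ell 2 μ
  · obtain ⟨Q, h1, h2, h3⟩ := hN (fun s => (n * ell 2 μ + s) / ℓ) n (fun s _ => by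
        rw [Nat.le_div_iff_mul_le hℓ0, mul_comm]
        omega)
      (fun s hs t _ => by
        have e1 : (n * ell 2 μ + s) / ℓ ≤ (n * ell 2 μ + ℓ) / ℓ := Nat.div_le_div_right (by omega)
        rw [Nat.add_div_right _ hℓ0] at e1
        have e2 : n * ell 2 μ / ℓ ≤ (n * ell 2 μ + t) / ℓ := Nat.div_le_div_right (by omega)
        omega)
      (PackMix_hermite _ _ hℓ0)
    refine ⟨Q, h1, h2, fun s hs t ht => ?_⟩
    rw [h3 s hs, h3 t ht]
    have e1 : (n * ell 2 μ + s) / ℓ ≤ (n * ell 2 μ + ℓ) / ℓ := Nat.div_le_div_right (by omega)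
    rw [Nat.add_div_right _ hℓ0] at e1
    have e2 : n * ell 2 μ / ℓ ≤ (n * ell 2 μ + t) / ℓ := Nat.div_le_div_right (by omega)
    omega
  · push Not at h
    have hQ : ∀ x ∈ Multiset.replicate n ((0 : ℕ), (0 : ℕ)), x.1 + x.2 < ℓ := by
      intro x hx
      rw [Multiset.eq_of_mem_replicate hx]
      exact hℓ0
    refine ⟨Multiset.replicate n (0, 0), Multiset.card_replicate _ _, hQ, fun s hs t ht => ?_⟩
    have h1 := PackMix_total (μ := μ) (by omega) _ hQ
    rw [Multiset.card_replicate] at h1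
    have h2 := Finset.single_le_sum
      (f := fun s => ((Multiset.replicate n ((0 : ℕ), (0 : ℕ))).map
        fun x => ld ℓ μ x.1 x.2 s).sum) (fun i _ => Nat.zero_le _) (mem_range.2 hs)
    omega

/-- The variation of the small packings. -/
def bMix (ℓ h : ℕ) : ℕ := h * (1 + ℓ * nOne ℓ 1)

/-- The bound in `pack_mix`. -/
def nMix (ℓ h E : ℕ) : ℕ := h * (h * nOne ℓ (E + bMix ℓ h) + E + bMix ℓ h)

/-- Exact packing, several multiplicities. -/
theorem pack_mix (ℓ h E : ℕ) (h1 : 1 ≤ h) (hh : 2 * h ≤ ℓ) :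
    ∀ (c : ℕ → ℕ) (G : Multiset ℕ), (∀ m ∈ G, 1 ≤ m ∧ m ≤ h) →
      (∀ s < ℓ, nMix ℓ h E ≤ c s) → (∀ s < ℓ, ∀ t < ℓ, c s ≤ c t + E) →
      ∑ s ∈ range ℓ, c s = (G.map (ell 2)).sum →
      ∃ P : Multiset (ℕ × ℕ × ℕ), P.map Prod.fst = G ∧ (∀ x ∈ P, x.2.1 + x.2.2 < ℓ) ∧
        ∀ s < ℓ, (P.map fun x => ld ℓ x.1 x.2.1 x.2.2 s).sum = c s := by
  classical
  set B : ℕ → ℕ := fun _ => 1 + ℓ * nOne ℓ 1 with hBdef
  have hB : ∀ μ, 1 ≤ μ → μ ≤ h → ∀ n : ℕ, ∃ Q : Multiset (ℕ × ℕ), Q.card = n ∧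
      (∀ x ∈ Q, x.1 + x.2 < ℓ) ∧ ∀ s < ℓ, ∀ t < ℓ, (Q.map fun x => ld ℓ μ x.1 x.2 s).sum ≤
        (Q.map fun x => ld ℓ μ x.1 x.2 t).sum + B μ :=
    fun μ hμ1 hμ2 => PackMix_small ℓ μ hμ1 (by omega)
  set I : Finset ℕ := Finset.Icc 1 h with hI
  have hIcard : I.card = h := by rw [hI, Nat.card_Icc]; omega
  set B' : ℕ := ∑ μ ∈ I, B μ with hB'
  have hB'eq : B' = bMix ℓ h := by
    rw [hB', hBdef, Finset.sum_const, hIcard, smul_eq_mul]
    rfl
  set N₂ : ℕ → ℕ := fun _ => nOne ℓ (E + B') with hN₂def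
  have hN₂ : ∀ μ, 1 ≤ μ → μ ≤ h → ∀ (c : ℕ → ℕ) (n : ℕ), (∀ s < ℓ, N₂ μ ≤ c s) →
      (∀ s < ℓ, ∀ t < ℓ, c s ≤ c t + (E + B')) → ∑ s ∈ range ℓ, c s = n * ell 2 μ →
      ∃ P : Multiset (ℕ × ℕ), P.card = n ∧ (∀ x ∈ P, x.1 + x.2 < ℓ) ∧
        ∀ s < ℓ, (P.map fun x => ld ℓ μ x.1 x.2 s).sum = c s :=
    fun μ hμ1 hμ2 => pack_one μ ℓ (E + B') hμ1 (by omega)
  set N' : ℕ := ∑ μ ∈ I, N₂ μ with hN'
  have hN'eq : N' = h * nOne ℓ (E + bMix ℓ h) := by
    rw [hN', hN₂def, Finset.sum_const, hIcard, smul_eq_mul, hB'eq]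
  have hℓ0 : 0 < ℓ := by omega
  intro c G hG hc hv hs
  have hnm : nMix ℓ h E = h * (N' + E + B') := by
    rw [hN'eq, hB'eq]
    rfl
  rw [hnm] at hc
  have hGI : G.toFinset ⊆ I := by
    intro m hm
    rw [Multiset.mem_toFinset] at hm
    rw [hI, Finset.mem_Icc]
    exact hG m hm
  have hsum : (G.map (ell 2)).sum = ∑ μ ∈ I, G.count μ * ell 2 μ := by
    rw [Finset.sum_multiset_map_count]
    simp only [smul_eq_mul]
    refine Finset.sum_subset hGI fun m _ hm => ?_
    rw [Multiset.mem_toFinset] at hm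
    rw [Multiset.count_eq_zero_of_notMem hm, zero_mul]
  have hGsum : ∑ μ ∈ I, Multiset.replicate (G.count μ) μ = G := by
    ext a
    rw [Multiset.count_sum']
    simp only [Multiset.count_replicate]
    by_cases ha : a ∈ I
    · rw [Finset.sum_eq_single a]
      · simp
      · intro b _ hb
        rw [if_neg hb]
      · intro hna
        exact absurd ha hna
    · rw [Finset.sum_eq_zero, Multiset.count_eq_zero_of_notMem]
      · intro hm
        exact ha (hGI (Multiset.mem_toFinset.2 hm))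
      · intro b hb
        rw [if_neg]
        rintro rfl
        exact ha hb
  have hne : I.Nonempty := ⟨1, by rw [hI, Finset.mem_Icc]; omega⟩
  obtain ⟨μ', hμ'I, hμ'⟩ := Finset.exists_max_image I (fun μ => G.count μ * ell 2 μ) hne
  have hμ'2 := Finset.mem_Icc.1 (hI ▸ hμ'I)
  -- the small packings
  have hQ : ∀ μ, ∃ Q : Multiset (ℕ × ℕ), μ ∈ I → Q.card = G.count μ ∧
      (∀ x ∈ Q, x.1 + x.2 < ℓ) ∧ ∀ s < ℓ, ∀ t < ℓ, (Q.map fun x => ld ℓ μ x.1 x.2 s).sum ≤
        (Q.map fun x => ld ℓ μ x.1 x.2 t).sum + B μ := by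
    intro μ
    by_cases hμ : μ ∈ I
    · obtain ⟨Q, k⟩ := hB μ (Finset.mem_Icc.1 (hI ▸ hμ)).1 (Finset.mem_Icc.1 (hI ▸ hμ)).2
        (G.count μ)
      exact ⟨Q, fun _ => k⟩
    · exact ⟨0, fun k => absurd k hμ⟩
  choose Q hQ using hQ
  set L : ℕ → ℕ → ℕ := fun μ s => ((Q μ).map fun x => ld ℓ μ x.1 x.2 s).sum with hL
  set w : ℕ → ℕ := fun s => ∑ μ ∈ I.erase μ', L μ s with hw
  have hwv : ∀ s < ℓ, ∀ t < ℓ, w s ≤ w t + B' := by
    intro s hs t ht
    have e1 : w s ≤ ∑ μ ∈ I.erase μ', (L μ t + B μ) :=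
      Finset.sum_le_sum fun μ hμ => (hQ μ (Finset.mem_of_mem_erase hμ)).2.2 s hs t ht
    rw [Finset.sum_add_distrib] at e1
    have e2 : ∑ μ ∈ I.erase μ', B μ ≤ B' :=
      Finset.sum_le_sum_of_subset (Finset.erase_subset _ _)
    have e3 : w t = ∑ μ ∈ I.erase μ', L μ t := rfl
    omega
  have hLt : ∀ μ ∈ I, ∑ s ∈ range ℓ, L μ s = G.count μ * ell 2 μ := by
    intro μ hμ
    have k := hQ μ hμ
    have k2 := Finset.mem_Icc.1 (hI ▸ hμ)
    rw [← k.1]
    exact PackMix_total (by omega) _ k.2.1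
  have hwt : ∑ s ∈ range ℓ, w s = ∑ μ ∈ I.erase μ', G.count μ * ell 2 μ := by
    rw [hw, Finset.sum_comm]
    exact Finset.sum_congr rfl fun μ hμ => hLt μ (Finset.mem_of_mem_erase hμ)
  have htot : ∑ s ∈ range ℓ, c s = G.count μ' * ell 2 μ' + ∑ s ∈ range ℓ, w s := by
    rw [hs, hsum, hwt]
    exact (Finset.add_sum_erase I (fun μ => G.count μ * ell 2 μ) hμ'I).symm
  have hbig : ℓ * (N' + E + B') ≤ G.count μ' * ell 2 μ' := by
    have e1 : ∑ μ ∈ I, G.count μ * ell 2 μ ≤ I.card • (G.count μ' * ell 2 μ') :=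
      Finset.sum_le_card_nsmul _ _ _ hμ'
    have e2 : I.card = h := by rw [hI, Nat.card_Icc]; omega
    have e3 : ℓ * (h * (N' + E + B')) ≤ ∑ s ∈ range ℓ, c s := by
      have := Finset.card_nsmul_le_sum (range ℓ) c (h * (N' + E + B'))
        fun s hs => hc s (mem_range.1 hs)
      rwa [Finset.card_range, smul_eq_mul] at this
    rw [hs, hsum] at e3
    rw [e2, smul_eq_mul] at e1
    have e4 : h * (ℓ * (N' + E + B')) ≤ h * (G.count μ' * ell 2 μ') := by
      calc h * (ℓ * (N' + E + B')) = ℓ * (h * (N' + E + B')) := by ring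
        _ ≤ _ := e3.trans e1
    exact Nat.le_of_mul_le_mul_left e4 (by omega)
  -- the rest
  have hrest : ∀ t < ℓ, w t + N' ≤ c t := by
    intro t ht
    have e1 : ∑ s ∈ range ℓ, (c s + w t) ≤ ∑ s ∈ range ℓ, (c t + w s + (E + B')) := by
      refine Finset.sum_le_sum fun s hs => ?_
      have k1 := hv s (mem_range.1 hs) t ht
      have k2 := hwv t ht s (mem_range.1 hs)
      omega
    rw [Finset.sum_add_distrib, Finset.sum_add_distrib, Finset.sum_add_distrib, Finset.sum_const,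
      Finset.sum_const, Finset.sum_const, Finset.card_range, smul_eq_mul, smul_eq_mul,
      smul_eq_mul, htot] at e1
    have e2 : ℓ * (w t + N') ≤ ℓ * c t := by
      have e3 : ℓ * (N' + E + B') = ℓ * N' + ℓ * (E + B') := by ring
      rw [e3] at hbig
      rw [mul_add]
      omega
    exact Nat.le_of_mul_le_mul_left e2 hℓ0
  obtain ⟨P', p1, p2, p3⟩ := hN₂ μ' hμ'2.1 hμ'2.2 (fun s => c s - w s) (G.count μ')
    (fun s hs => by
      have k1 := hrest s hs
      have k2 : N₂ μ' ≤ N' := Finset.single_le_sum (fun i _ => Nat.zero_le _) hμ'I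
      omega)
    (fun s hs t ht => by
      have k1 := hrest s hs
      have k2 := hrest t ht
      have k3 := hv s hs t ht
      have k4 := hwv t ht s hs
      omega)
    (by
      have e1 : ∑ s ∈ range ℓ, (c s - w s) + ∑ s ∈ range ℓ, w s = ∑ s ∈ range ℓ, c s := by
        rw [← Finset.sum_add_distrib]
        refine Finset.sum_congr rfl fun s hs => ?_
        have k1 := hrest s (mem_range.1 hs)
        omega
      omega)
  set R : ℕ → Multiset (ℕ × ℕ) := fun μ => if μ = μ' then P' else Q μ with hR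
  have hRcard : ∀ μ ∈ I, (R μ).card = G.count μ := by
    intro μ hμ
    simp only [hR]
    by_cases e : μ = μ'
    · rw [if_pos e, p1, e]
    · rw [if_neg e]
      exact (hQ μ hμ).1
  have hRcell : ∀ μ ∈ I, ∀ x ∈ R μ, x.1 + x.2 < ℓ := by
    intro μ hμ x hx
    simp only [hR] at hx
    by_cases e : μ = μ'
    · rw [if_pos e] at hx
      exact p2 x hx
    · rw [if_neg e] at hx
      exact (hQ μ hμ).2.1 x hx
  refine ⟨∑ μ ∈ I, (R μ).map fun x => (μ, x), ?_, ?_, ?_⟩
  · rw [PackMix_map_sum]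
    conv_rhs => rw [← hGsum]
    refine Finset.sum_congr rfl fun μ hμ => ?_
    rw [Multiset.map_map]
    have e1 : (Prod.fst ∘ fun x : ℕ × ℕ => (μ, x)) = fun _ => μ := rfl
    rw [e1, Multiset.map_const', hRcard μ hμ]
  · intro x hx
    rw [Multiset.mem_sum] at hx
    obtain ⟨μ, hμ, hx⟩ := hx
    rw [Multiset.mem_map] at hx
    obtain ⟨y, hy, rfl⟩ := hx
    exact hRcell μ hμ y hy
  · intro s hs'
    rw [PackMix_sum_sum]
    have e1 : ∀ μ ∈ I, (((R μ).map fun x => (μ, x)).map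
        fun x => ld ℓ x.1 x.2.1 x.2.2 s).sum = if μ = μ' then c s - w s else L μ s := by
      intro μ hμ
      rw [Multiset.map_map]
      by_cases e : μ = μ'
      · rw [if_pos e]
        have := p3 s hs'
        simp only [hR]
        rw [if_pos e, e]
        exact this
      · rw [if_neg e]
        simp only [hR]
        rw [if_neg e]
        rfl
    rw [Finset.sum_congr rfl e1, ← Finset.add_sum_erase _ _ hμ'I, if_pos rfl]
    have e2 : ∑ μ ∈ I.erase μ', (if μ = μ' then c s - w s else L μ s) = w s := by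
      refine Finset.sum_congr rfl fun μ hμ => ?_
      rw [if_neg (Finset.ne_of_mem_erase hμ)]
    rw [e2]
    have := hrest s hs'
    omega

end Pool.Agent.H18.Ta

end
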