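import Pool.Agent.H94.LP1.M03
import Pool.Agent.H94.LP1.M07
import Pool.Agent.H94.LP1.M14
import Pool.Agent.H94.LP1.M27

/-! The parts of this file: H18.Ta.Core, H18.Ta.Geo, H18.Ta.RgS, H18.Ta.Link, H18.TileRg. -/

section

/-!
# Module Core (TA): Lemma U

`F = ∑_{s < ℓ} y^s f_s(x)`, `f_s = ∑_{a < c s} f s a x^a`.  The point `i` is `(x i, y i)`, its multiplicity
is `μ i`.
-/

namespace Pool.Agent.H18.Ta

open Finset

/-- Combinations of binomial coefficients. -/
private theorem Core_comb {R : Type*} [CommRing R] (ℓ h : ℕ) (T : ℕ → R)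
    (hT : ∀ γ < h, ∑ s ∈ range ℓ, ((s.choose γ : ℕ) : R) * T s = 0) (S : Finset ℕ) :
    ∀ γ, S.card + γ < h →
      ∑ s ∈ range ℓ, (∏ u ∈ S, ((s : R) - (u : R))) * (((s.choose γ : ℕ) : R) * T s) = 0 := by
  induction S using Finset.induction_on with
  | empty =>
    intro γ hγ
    simpa using hT γ (by simpa using hγ)
  | insert u S hu ih =>
    intro γ hγ
    rw [card_insert_of_notMem hu] at hγ
    have h1 := ih (γ + 1) (by omega)
    have h2 := ih γ (by omega)
    have h3 : ∀ s ∈ range ℓ,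
        (∏ u' ∈ insert u S, ((s : R) - (u' : R))) * (((s.choose γ : ℕ) : R) * T s) =
        ((γ : R) + 1) * ((∏ u' ∈ S, ((s : R) - (u' : R))) * (((s.choose (γ + 1) : ℕ) : R) * T s)) +
        ((γ : R) - u) * ((∏ u' ∈ S, ((s : R) - (u' : R))) * (((s.choose γ : ℕ) : R) * T s)) := by
      intro s _
      rw [prod_insert hu]
      have h4 : ((s : R) - γ) * ((s.choose γ : ℕ) : R) = ((γ : R) + 1) * ((s.choose (γ + 1) : ℕ) : R) := by
        have h5 := Nat.choose_succ_right_eq s γ
        rcases Nat.lt_or_ge s γ with h6 | h6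
        · rw [Nat.choose_eq_zero_of_lt h6, Nat.choose_eq_zero_of_lt (by omega)]
          simp
        · have h7 : ((s.choose (γ + 1) * (γ + 1) : ℕ) : R) = ((s.choose γ * (s - γ) : ℕ) : R) := by
            rw [h5]
          rw [Nat.cast_mul, Nat.cast_mul, Nat.cast_sub h6] at h7
          push_cast at h7
          linear_combination -h7
      have h5 : ((s : R) - u) * ((s.choose γ : ℕ) : R) =
          ((γ : R) + 1) * ((s.choose (γ + 1) : ℕ) : R) + ((γ : R) - u) * ((s.choose γ : ℕ) : R) := by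
        rw [← h4]
        ring
      calc _ = (∏ u' ∈ S, ((s : R) - (u' : R))) * ((((s : R) - u) * ((s.choose γ : ℕ) : R)) * T s) := by
            ring
        _ = _ := by
            rw [h5]
            ring
    rw [sum_congr rfl h3, sum_add_distrib, ← mul_sum, ← mul_sum, h1, h2, mul_zero, mul_zero, add_zero]

/-- A polynomial of small degree with many zeros vanishes. -/
private theorem Core_zero {κ : Type} [Fintype κ] (x : κ → ℂ) (hx : Function.Injective x) (n : κ → ℕ)
    (N : ℕ) (hN : N ≤ ∑ i, n i) (b : ℕ → ℂ)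
    (h : ∀ i, ∀ α < n i, ∑ a ∈ range N, b a * ((a.choose α : ℕ) * x i ^ (a - α)) = 0) :
    ∀ a < N, b a = 0 := by
  classical
  set p : Polynomial ℂ := ∑ a ∈ range N, Polynomial.monomial a (b a) with hp
  have hcoeff : ∀ a < N, p.coeff a = b a := by
    intro a ha
    rw [hp, Polynomial.finsetSum_coeff]
    simp only [Polynomial.coeff_monomial]
    rw [sum_ite_eq' (range N) a b, if_pos (mem_range.2 ha)]
  have hdeg : p.degree < N := by
    rw [Polynomial.degree_lt_iff_coeff_zero]
    intro k hk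
    rw [hp, Polynomial.finsetSum_coeff]
    apply sum_eq_zero
    intro a ha
    rw [Polynomial.coeff_monomial, if_neg]
    rw [mem_range] at ha
    omega
  have hdvd : ∀ i, (Polynomial.X - Polynomial.C (x i)) ^ n i ∣ p := by
    intro i
    rw [Polynomial.X_sub_C_pow_dvd_iff, Polynomial.X_pow_dvd_iff]
    intro α hα
    have h1 : (p.comp (Polynomial.X + Polynomial.C (x i))).coeff α =
        (Polynomial.taylor (x i) p).coeff α := by
      rw [Polynomial.taylor_apply]
    rw [h1, Polynomial.taylor_coeff, hp, map_sum, Polynomial.eval_finsetSum, ← h i α hα]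
    refine sum_congr rfl fun a _ => ?_
    rw [Polynomial.hasseDeriv_monomial, Polynomial.eval_monomial]
    ring
  have hprod : (∏ i, (Polynomial.X - Polynomial.C (x i)) ^ n i) ∣ p := by
    apply Finset.prod_dvd_of_coprime
    · intro i _ j _ hij
      exact (Polynomial.pairwise_coprime_X_sub_C hx hij).pow
    · intro i _
      exact hdvd i
  have hp0 : p = 0 := by
    by_contra hne
    have h1 := Polynomial.degree_le_of_dvd hprod hne
    have h2 : (∏ i, (Polynomial.X - Polynomial.C (x i)) ^ n i).degree = ((∑ i, n i : ℕ) : WithBot ℕ) := by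
      rw [Polynomial.degree_prod]
      simp [Polynomial.degree_pow, Polynomial.degree_X_sub_C]
    rw [h2] at h1
    have h3 : ((∑ i, n i : ℕ) : WithBot ℕ) < N := lt_of_le_of_lt h1 hdeg
    have h4 : ∑ i, n i < N := by exact_mod_cast h3
    omega
  intro a ha
  rw [← hcoeff a ha, hp0, Polynomial.coeff_zero]

/-- Lemma U. -/
theorem core {κ : Type} [Fintype κ] (ℓ : ℕ) (c : ℕ → ℕ) (μ : κ → ℕ) (rk : κ → ℕ → ℕ) (e : κ → ℕ)
    (kap : ℕ → ℕ) (x : κ → ℂ) (hx : Function.Injective x)
    (hinj : ∀ i, ∀ s < ℓ, ∀ t < ℓ, rk i s = rk i t → s = t)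
    (hkey : ∀ i, ∀ s < ℓ, ∀ t < ℓ, rk i s < rk i t → e i * s + kap s < e i * t + kap t)
    (hc : ∀ s < ℓ, c s ≤ ∑ i, (μ i - rk i s)) :
    ∃ y : κ → ℂ, ∀ f : ℕ → ℕ → ℂ,
      (∀ i α γ, α + γ < μ i → ∑ s ∈ range ℓ, ∑ a ∈ range (c s),
        f s a * (((a.choose α : ℕ) * x i ^ (a - α)) * ((s.choose γ : ℕ) * y i ^ (s - γ))) = 0) →
      ∀ s < ℓ, ∀ a < c s, f s a = 0 := by
  classical
  by_contra hcon
  push Not at hcon
  let A : Finset (Σ _ : ℕ, ℕ) := (range ℓ).sigma fun s => range (c s)
  let ρ : Type := (i : κ) × (Fin (μ i) × Fin (μ i))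
  let Mx : ρ → (Σ _ : ℕ, ℕ) → Polynomial ℂ := fun r a =>
    if (r.2.1 : ℕ) + (r.2.2 : ℕ) < μ r.1 then
      Polynomial.C ((a.2.choose (r.2.1 : ℕ) : ℕ) * x r.1 ^ (a.2 - (r.2.1 : ℕ))) *
        ((((a.1.choose (r.2.2 : ℕ) : ℕ)) : Polynomial ℂ) *
          (Polynomial.X ^ (e r.1 * a.1 + kap a.1) * Polynomial.X))
    else 0
  have hsol : ∀ t : ℂ, ∃ f : (Σ _ : ℕ, ℕ) → ℂ,
      (∀ r, ∑ a ∈ A, f a * (Mx r a).eval t = 0) ∧ ∃ a ∈ A, f a ≠ 0 := by
    intro t
    obtain ⟨f, hf, s₁, hs₁, a₁, ha₁, hne⟩ := hcon fun i => t ^ e i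
    have hmem : (⟨s₁, a₁⟩ : Σ _ : ℕ, ℕ) ∈ A := mem_sigma.2 ⟨mem_range.2 hs₁, mem_range.2 ha₁⟩
    by_cases ht : t = 0
    · refine ⟨fun _ => 1, fun r => sum_eq_zero fun a _ => ?_, _, hmem, one_ne_zero⟩
      subst ht
      simp only [Mx]
      split_ifs
      · simp
      · simp
    · refine ⟨fun a => f a.1 a.2 * (t ^ kap a.1)⁻¹, fun r => ?_, _, hmem, ?_⟩
      · by_cases hr : (r.2.1 : ℕ) + (r.2.2 : ℕ) < μ r.1
        · have h1 := hf r.1 r.2.1 r.2.2 hr
          rw [← sum_sigma (range ℓ) (fun s => range (c s)) (fun a : Σ _ : ℕ, ℕ => f a.1 a.2 *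
            (((a.2.choose (r.2.1 : ℕ) : ℕ) * x r.1 ^ (a.2 - (r.2.1 : ℕ))) *
              ((a.1.choose (r.2.2 : ℕ) : ℕ) * (t ^ e r.1) ^ (a.1 - (r.2.2 : ℕ)))))] at h1
          have h2 : ∑ a ∈ A, f a.1 a.2 * (t ^ kap a.1)⁻¹ * (Mx r a).eval t =
              (t ^ (e r.1 * (r.2.2 : ℕ)) * t) * ∑ a ∈ A, f a.1 a.2 *
                (((a.2.choose (r.2.1 : ℕ) : ℕ) * x r.1 ^ (a.2 - (r.2.1 : ℕ))) *
                  ((a.1.choose (r.2.2 : ℕ) : ℕ) * (t ^ e r.1) ^ (a.1 - (r.2.2 : ℕ)))) := by
            rw [mul_sum]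
            refine sum_congr rfl fun a _ => ?_
            simp only [Mx]
            rw [if_pos hr]
            simp only [Polynomial.eval_mul, Polynomial.eval_C, Polynomial.eval_natCast,
              Polynomial.eval_pow, Polynomial.eval_X]
            rcases Nat.lt_or_ge a.1 (r.2.2 : ℕ) with h3 | h3
            · rw [Nat.choose_eq_zero_of_lt h3]
              simp
            · have h4 : t ^ (e r.1 * a.1 + kap a.1) =
                  t ^ (e r.1 * (r.2.2 : ℕ)) * (t ^ e r.1) ^ (a.1 - (r.2.2 : ℕ)) * t ^ kap a.1 := by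
                rw [← pow_mul, ← pow_add, pow_add, ← mul_add, Nat.add_sub_cancel' h3]
              rw [h4]
              have h5 : t ^ kap a.1 ≠ 0 := pow_ne_zero _ ht
              field_simp
          rw [h2, h1, mul_zero]
        · refine sum_eq_zero fun a _ => ?_
          simp only [Mx]
          rw [if_neg hr, Polynomial.eval_zero, mul_zero]
      · exact mul_ne_zero hne (inv_ne_zero (pow_ne_zero _ ht))
  obtain ⟨F, hF, a₀, ha₀, hne⟩ := Pool.Agent.H18.Ex.exists_poly_solution A Mx hsol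
  -- the equations without the factor `X`
  have heq : ∀ i α γ, α + γ < μ i → ∑ s ∈ range ℓ, ((s.choose γ : ℕ) : Polynomial ℂ) *
      (Polynomial.X ^ (e i * s + kap s) * ∑ a ∈ range (c s),
        F ⟨s, a⟩ * Polynomial.C ((a.choose α : ℕ) * x i ^ (a - α))) = 0 := by
    intro i α γ hαγ
    have h1 := hF ⟨i, ⟨α, by omega⟩, ⟨γ, by omega⟩⟩
    have h2 : Polynomial.X * ∑ s ∈ range ℓ, ((s.choose γ : ℕ) : Polynomial ℂ) *
        (Polynomial.X ^ (e i * s + kap s) * ∑ a ∈ range (c s),
          F ⟨s, a⟩ * Polynomial.C ((a.choose α : ℕ) * x i ^ (a - α))) = 0 := by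
      rw [← h1]
      show _ = ∑ a ∈ (range ℓ).sigma fun s => range (c s), _
      rw [sum_sigma, mul_sum]
      refine sum_congr rfl fun s _ => ?_
      rw [mul_sum, mul_sum, mul_sum]
      refine sum_congr rfl fun a _ => ?_
      simp only [Mx]
      rw [if_pos hαγ]
      ring
    exact (mul_eq_zero.1 h2).resolve_left Polynomial.X_ne_zero
  -- the vanishing at zero
  have hkeyv : ∀ i, ∀ s₀ < ℓ, ∀ α < μ i - rk i s₀,
      ∑ a ∈ range (c s₀), (F ⟨s₀, a⟩).eval 0 * ((a.choose α : ℕ) * x i ^ (a - α)) = 0 := by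
    intro i s₀ hs₀ α hα
    set h := μ i - α with hh
    set T : ℕ → Polynomial ℂ := fun s => Polynomial.X ^ (e i * s + kap s) * ∑ a ∈ range (c s),
        F ⟨s, a⟩ * Polynomial.C ((a.choose α : ℕ) * x i ^ (a - α)) with hT
    set S : Finset ℕ := (range ℓ).filter fun s => s ≠ s₀ ∧ rk i s < h with hS
    have hScard : S.card + 0 < h := by
      have h1 : (insert s₀ S).card ≤ (range h).card := by
        apply card_le_card_of_injOn (rk i)
        · intro s hs
          rw [mem_coe, mem_insert] at hs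
          rw [mem_coe, mem_range]
          rcases hs with rfl | hs
          · omega
          · exact (mem_filter.1 hs).2.2
        · intro s hs t ht hst
          have hlt : ∀ s ∈ insert s₀ S, s < ℓ := by
            intro s hs
            rcases mem_insert.1 hs with rfl | hs
            · exact hs₀
            · exact mem_range.1 (mem_filter.1 hs).1
          exact hinj i s (hlt s hs) t (hlt t ht) hst
      rw [card_insert_of_notMem (by simp [hS]), card_range] at h1
      omega
    have h2 := Core_comb ℓ h T (fun γ hγ => heq i α γ (by omega)) S 0 hScard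
    have h3 := congrArg (fun p => Polynomial.coeff p (e i * s₀ + kap s₀)) h2
    simp only [Polynomial.finsetSum_coeff, Polynomial.coeff_zero] at h3
    rw [sum_eq_single s₀] at h3
    · -- the main term
      have h4 : (∏ u ∈ S, (((s₀ : ℕ) : Polynomial ℂ) - ((u : ℕ) : Polynomial ℂ))) =
          Polynomial.C (∏ u ∈ S, ((s₀ : ℂ) - (u : ℂ))) := by
        rw [map_prod]
        refine prod_congr rfl fun u _ => ?_
        rw [map_sub]
        simp
      rw [h4, Nat.choose_zero_right, Nat.cast_one, one_mul, Polynomial.coeff_C_mul, hT] at h3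
      simp only at h3
      rw [Polynomial.coeff_X_pow_mul', if_pos le_rfl, Nat.sub_self] at h3
      have h5 : (∏ u ∈ S, ((s₀ : ℂ) - (u : ℂ))) ≠ 0 := by
        rw [prod_ne_zero_iff]
        intro u hu
        rw [sub_ne_zero]
        intro h6
        have h7 : s₀ = u := by exact_mod_cast h6
        exact (mem_filter.1 hu).2.1 h7.symm
      have h6 := (mul_eq_zero.1 h3).resolve_left h5
      rw [Polynomial.coeff_zero_eq_eval_zero, Polynomial.eval_finsetSum] at h6
      refine Eq.trans (sum_congr rfl fun a _ => ?_) h6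
      rw [Polynomial.eval_mul, Polynomial.eval_C]
    · -- the other terms
      intro s hs hne
      rw [mem_range] at hs
      by_cases hsS : s ∈ S
      · rw [prod_eq_zero hsS (sub_self _), zero_mul, Polynomial.coeff_zero]
      · have h4 : h ≤ rk i s := by
          by_contra h5
          exact hsS (mem_filter.2 ⟨mem_range.2 hs, hne, by omega⟩)
        have h5 := hkey i s₀ hs₀ s hs (by omega)
        rw [Nat.choose_zero_right, Nat.cast_one, one_mul, hT]
        simp only
        rw [mul_left_comm, Polynomial.coeff_X_pow_mul', if_neg (by omega)]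
    · intro hs
      exact absurd (mem_range.2 hs₀) hs
  -- conclusion
  have hs₀ := mem_range.1 (mem_sigma.1 ha₀).1
  have ha₀' := mem_range.1 (mem_sigma.1 ha₀).2
  apply hne
  have := Core_zero x hx (fun i => μ i - rk i a₀.1) (c a₀.1) (hc a₀.1 hs₀)
    (fun a => (F ⟨a₀.1, a⟩).eval 0) (fun i α hα => hkeyv i a₀.1 hs₀ α hα) a₀.2 ha₀'
  exact this

end Pool.Agent.H18.Ta

end

section

/-!
# Module Geo (TA): from general injectivity to the dimension of the system

Proof.  As in `Pool.Agent.H18.Ex.exists_special` (file `Ex/Final.lean`), with only one coordinate point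
`p i₀ = (0 : 0 : 1)` (`Pi.single 2 1`), `w = ![d, d, b]`, `b = d - m i₀`: by `GM_iff` choose positions for the other
points and for `N - L` simple points, `N = (Rg d w).card`, `L = ∑_{i ≠ i₀} ell 2 (m i)`; the forms in
`fatForms 2 d p₀ m` are supported in `Rg d w` (`vanishes_coord_iff`), and evaluation at the simple points is
injective, so `finrank ≤ N - L`.  By `general_finrank_le` the same bound holds for general points, and
`finrank_fatForms_ge` gives `≥ v` (and `≥ 0`).  Finally `N = ∑_{s ≤ b} (d + 1 - s)` and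
`N + binom(m i₀ + 1, 2) = binom(d + 2, 2)` (`m i₀ + b = d`), so `v = N - L` in `ℤ`.
-/

namespace Pool.Agent.H18.Ta

open Finset Pool.Agent.H18.Ex Pool.Agent.H18.Fat

/-- The number of exponents. -/
theorem card_rg (b d : ℕ) (hbd : b ≤ d) :
    (Rg d (![d, d, b] : Fin 3 → ℕ)).card = ∑ s ∈ range (b + 1), (d + 1 - s) := by
  have h1 : ∑ s ∈ range (b + 1), (d + 1 - s) =
      ((range (b + 1)).sigma fun s => range (d + 1 - s)).card := by
    rw [card_sigma]
    exact sum_congr rfl fun s _ => (card_range _).symm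
  rw [h1]
  refine card_nbij' (fun a => ⟨a 2, a 0⟩) (fun x => ![x.2, d - x.1 - x.2, x.1]) ?_ ?_ ?_ ?_
  · intro a ha
    rw [mem_coe, Ex.mem_Rg, Fin.sum_univ_three] at ha
    rw [mem_coe, mem_sigma, mem_range, mem_range]
    have h2 := ha.1 2
    simp only [Matrix.cons_val] at h2
    obtain ⟨_, h3⟩ := ha
    constructor
    · show a 2 < b + 1
      omega
    · show a 0 < d + 1 - a 2
      omega
  · intro x hx
    rw [mem_coe, mem_sigma, mem_range, mem_range] at hx
    rw [mem_coe, Ex.mem_Rg, Fin.sum_univ_three]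
    obtain ⟨h2, h3⟩ := hx
    refine ⟨fun i => ?_, ?_⟩
    · fin_cases i
      · show x.2 ≤ d
        omega
      · show d - x.1 - x.2 ≤ d
        omega
      · show x.1 ≤ b
        omega
    · show x.2 + (d - x.1 - x.2) + x.1 = d
      omega
  · intro a ha
    rw [mem_coe, Ex.mem_Rg, Fin.sum_univ_three] at ha
    obtain ⟨_, h3⟩ := ha
    funext i
    fin_cases i
    · rfl
    · show d - a 2 - a 0 = a 1
      omega
    · rfl
  · rintro ⟨x, y⟩ _
    rfl

private theorem Geo_count (q b : ℕ) :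
    ∑ s ∈ range (b + 1), (q + b + 1 - s) + (q + 1).choose 2 = (q + b + 2).choose 2 := by
  induction b with
  | zero =>
    rw [sum_range_one]
    have h1 : (q + 0 + 2).choose 2 = (q + 1).choose 1 + (q + 1).choose 2 := rfl
    rw [h1, Nat.choose_one_right]
    omega
  | succ b ih =>
    rw [sum_range_succ']
    have h1 : ∑ s ∈ range (b + 1), (q + (b + 1) + 1 - (s + 1)) =
        ∑ s ∈ range (b + 1), (q + b + 1 - s) := sum_congr rfl fun s _ => by omega
    rw [h1]
    have h2 : (q + (b + 1) + 2).choose 2 = (q + b + 2) + (q + b + 2).choose 2 := by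
      have h3 : (q + (b + 1) + 2).choose 2 =
          (q + (b + 1) + 1).choose 1 + (q + (b + 1) + 1).choose 2 := rfl
      rw [h3, Nat.choose_one_right]
      rfl
    rw [h2]
    omega

/-- The special configuration. -/
private theorem Geo_special (k d b : ℕ) (m : Fin k → ℕ) (i₀ : Fin k) (hd : m i₀ + b = d)
    (h : GM (Rg d (![d, d, b] : Fin 3 → ℕ))
      (((univ.filter fun i => i ≠ i₀).val.map m +
        Multiset.replicate ((Rg d (![d, d, b] : Fin 3 → ℕ)).card -
          ∑ i ∈ univ.filter (fun i => i ≠ i₀), ell 2 (m i)) 1).map Kind.free)) :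
    ∃ p₀ : Fin k → Fin (2 + 1) → ℂ, Module.finrank ℂ (fatForms 2 d p₀ m) ≤
      (Rg d (![d, d, b] : Fin 3 → ℕ)).card -
          ∑ i ∈ univ.filter (fun i => i ≠ i₀), ell 2 (m i) := by
  classical
  set w : Fin 3 → ℕ := ![d, d, b] with hw
  set R : ℕ := (Rg d w).card - ∑ i ∈ univ.filter (fun i => i ≠ i₀), ell 2 (m i) with hR
  let I := {i : Fin k // i ≠ i₀}
  let kk : I ⊕ Fin R → Kind (Fin 3) :=
    Sum.elim (fun i => Kind.free (m i.1)) fun _ => Kind.free 1
  have hkk : (univ : Finset (I ⊕ Fin R)).val.map kk =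
      ((univ.filter fun i => i ≠ i₀).val.map m + Multiset.replicate R 1).map Kind.free := by
    have h1 : (univ : Finset (I ⊕ Fin R)).val =
        (univ : Finset I).val.map Sum.inl + (univ : Finset (Fin R)).val.map Sum.inr := rfl
    have h2 : (univ.filter fun i : Fin k => i ≠ i₀).val = (univ : Finset I).val.map Subtype.val := by
      have h3 : (univ.filter fun i : Fin k => i ≠ i₀) =
          (univ : Finset I).map (Function.Embedding.subtype _) := by
        ext i
        simp only [mem_filter, mem_univ, true_and, mem_map, Function.Embedding.coe_subtype]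
        constructor
        · intro hi
          exact ⟨⟨i, hi⟩, rfl⟩
        · rintro ⟨a, rfl⟩
          exact a.2
      rw [h3]
      rfl
    rw [h1, h2, Multiset.map_add, Multiset.map_map, Multiset.map_map, Multiset.map_add,
      Multiset.map_map, Multiset.map_map, Multiset.map_replicate]
    congr 1
    have h4 : ((univ : Finset (Fin R)).val.map (kk ∘ Sum.inr)) =
        (univ : Finset (Fin R)).val.map (Function.const (Fin R) (Kind.free 1)) := rfl
    rw [h4, Multiset.map_const]
    simp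
  have hGI : GI (Rg d w) kk := by
    rw [← GM_iff, hkk]
    exact h
  obtain ⟨pos, hpos⟩ := hGI
  let p₀ : Fin k → Fin (2 + 1) → ℂ := fun i =>
    if hi : i ≠ i₀ then pos (Sum.inl ⟨i, hi⟩) else Pi.single 2 1
  refine ⟨p₀, ?_⟩
  -- the support
  have hsupp : ∀ F ∈ fatForms 2 d p₀ m, ∀ α ∈ F.support, (⇑α : Fin (2 + 1) → ℕ) ∈ Rg d w := by
    intro F hF α hα
    rw [MvPolynomial.mem_support_iff] at hα
    have hαd : α ∈ mons (2 + 1) d := by
      rw [mem_mons]
      by_contra h
      exact hα (hF.1.coeff_eq_zero h)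
    rw [Ex.mem_Rg]
    have hdeg := mem_mons.1 hαd
    rw [Finsupp.degree_eq_sum] at hdeg
    have h3 := hF.2 i₀
    have hp : p₀ i₀ = Pi.single 2 1 := by
      simp only [p₀]
      rw [dif_neg (by simp)]
    rw [hp, ← exists_toPoly hF.1, vanishes_coord_iff] at h3
    have h4 : α 2 + m i₀ ≤ d := h3 ⟨α, hαd⟩ hα
    have hdeg' := hdeg
    rw [Fin.sum_univ_three] at hdeg'
    refine ⟨fun l => ?_, hdeg⟩
    fin_cases l
    · show α 0 ≤ d
      omega
    · show α 1 ≤ d
      omega
    · show α 2 ≤ b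
      omega
  let Ψ : fatForms 2 d p₀ m →ₗ[ℂ] (Fin R → ℂ) :=
    { toFun := fun F j => ∑ a ∈ Rg d w, cf F.1 a * tcr (pos (Sum.inr j)) a 0
      map_add' := fun F G => by
        funext j
        simp only [Submodule.coe_add, cf, MvPolynomial.coeff_add, Pi.add_apply, add_mul,
          sum_add_distrib]
      map_smul' := fun c F => by
        funext j
        simp only [Submodule.coe_smul, cf, MvPolynomial.coeff_smul, smul_eq_mul, RingHom.id_apply,
          Pi.smul_apply, mul_sum, mul_assoc] }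
  have hΨ : Function.Injective Ψ := by
    rw [← LinearMap.ker_eq_bot, LinearMap.ker_eq_bot']
    intro F hF
    have h1 : ∀ i, Sat (Rg d w) (cf F.1) (kk i) (pos i) := by
      rintro (i | j)
      · have h2 := F.2.2 i.1
        have h3 : p₀ i.1 = pos (Sum.inl i) := by
          simp only [p₀]
          rw [dif_pos i.2]
        rw [h3] at h2
        exact sat_of_vanishes (hsupp F.1 F.2) h2
      · intro b hb
        have hb0 : b = 0 := by
          change ∑ i, b i < 1 at hb
          have h2 : ∑ i, b i = 0 := by omega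
          rw [sum_eq_zero_iff] at h2
          funext i
          exact h2 i (mem_univ _)
        subst hb0
        exact congrFun hF j
    have h2 := hpos (cf F.1) h1
    apply Subtype.ext
    change F.1 = 0
    by_contra hne
    obtain ⟨α, hα⟩ := MvPolynomial.ne_zero_iff.1 hne
    have h3 := hsupp F.1 F.2 α (MvPolynomial.mem_support_iff.2 hα)
    have h4 := h2 _ h3
    unfold cf at h4
    rw [show Finsupp.equivFunOnFinite.symm (⇑α) = α from by ext; rfl] at h4
    exact hα h4
  have := LinearMap.finrank_le_finrank_of_injective hΨ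
  rwa [Module.finrank_fintype_fun_eq_card, Fintype.card_fin] at this

/-- The dimension for general points. -/
theorem geo (k d b : ℕ) (m : Fin k → ℕ) (i₀ : Fin k) (hd : m i₀ + b = d)
    (h : GM (Rg d (![d, d, b] : Fin 3 → ℕ))
      (((univ.filter fun i => i ≠ i₀).val.map m +
        Multiset.replicate ((Rg d (![d, d, b] : Fin 3 → ℕ)).card -
          ∑ i ∈ univ.filter (fun i => i ≠ i₀), ell 2 (m i)) 1).map Kind.free)) :
    ForGeneralPoints 2 k fun p => ImposesMaximalConditions 2 d p m := by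
  classical
  obtain ⟨p₀, hp₀⟩ := Geo_special k d b m i₀ hd h
  refine ((general_finrank_le d p₀ m).and (ForGeneralPoints.coord_ne_zero 2 k)).mono ?_
  rintro p ⟨hp1, hp0⟩
  have hge := finrank_fatForms_ge (d := d) (by omega : 1 ≤ 2) (fun i => hp0 i 0) m
  have hN : (Rg d (![d, d, b] : Fin 3 → ℕ)).card + (m i₀ + 1).choose 2 = (d + 2).choose 2 := by
    rw [card_rg b d (by omega), ← hd]
    exact Geo_count (m i₀) b
  have hL : ∑ i, ((m i + 2 - 1).choose 2 : ℤ) =
      (((m i₀ + 1).choose 2 + ∑ i ∈ univ.filter (fun i => i ≠ i₀), ell 2 (m i) : ℕ) : ℤ) := by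
    rw [filter_ne', ← add_sum_erase univ _ (mem_univ i₀)]
    push_cast
    rfl
  unfold ImposesMaximalConditions
  rw [hL] at hge ⊢
  rw [← hN] at hge ⊢
  generalize (Rg d (![d, d, b] : Fin 3 → ℕ)).card = N at *
  generalize ∑ i ∈ univ.filter (fun i => i ≠ i₀), ell 2 (m i) = L at *
  generalize (m i₀ + 1).choose 2 = Q at *
  have h1 : Module.finrank ℂ (fatForms 2 d p m) ≤ N - L := hp1.trans hp₀
  generalize Module.finrank ℂ (fatForms 2 d p m) = f at *
  push_cast at hge ⊢
  omega

end Pool.Agent.H18.Ta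

end

section

/-!
# Module RgS (TA): summation over the exponents with bounded last coordinate
-/

namespace Pool.Agent.H18.Ta

open Finset Pool.Agent.H18.Ex

theorem mem_rg3 {b d : ℕ} {a : Fin 3 → ℕ} :
    a ∈ Rg d (![d, d, b] : Fin 3 → ℕ) ↔ a 2 ≤ b ∧ a 0 + a 1 + a 2 = d := by
  rw [mem_Rg, Fin.sum_univ_three]
  constructor
  · rintro ⟨h1, h2⟩
    exact ⟨h1 2, h2⟩
  · rintro ⟨h1, h2⟩
    refine ⟨fun i => ?_, h2⟩
    fin_cases i
    · show a 0 ≤ d
      omega
    · show a 1 ≤ d
      omega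
    · exact h1

theorem rg_sum {M : Type*} [AddCommMonoid M] (b d : ℕ) (hbd : b ≤ d) (g : (Fin 3 → ℕ) → M) :
    ∑ a ∈ Rg d (![d, d, b] : Fin 3 → ℕ), g a =
      ∑ s ∈ range (b + 1), ∑ a ∈ range (d + 1 - s), g ![d - s - a, a, s] := by
  rw [sum_sigma']
  refine sum_bij' (fun a _ => ⟨a 2, a 1⟩) (fun x _ => ![d - x.1 - x.2, x.2, x.1]) ?_ ?_ ?_ ?_ ?_
  · intro a ha
    rw [mem_rg3] at ha
    rw [mem_sigma, mem_range, mem_range]
    constructor
    · show a 2 < b + 1
      omega
    · show a 1 < d + 1 - a 2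
      omega
  · intro x hx
    rw [mem_sigma, mem_range, mem_range] at hx
    rw [mem_rg3]
    refine ⟨?_, ?_⟩
    · show x.1 ≤ b
      omega
    · show d - x.1 - x.2 + x.2 + x.1 = d
      omega
  · intro a ha
    rw [mem_rg3] at ha
    funext i
    fin_cases i
    · show d - a 2 - a 1 = a 0
      omega
    · rfl
    · rfl
  · intro x hx
    rfl
  · intro a ha
    rw [mem_rg3] at ha
    congr 1
    funext i
    fin_cases i
    · show a 0 = d - a 2 - a 1
      omega
    · rfl
    · rfl

end Pool.Agent.H18.Ta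

end

section

/-!
# Module Link (TA): from a packing to general injectivity
-/

namespace Pool.Agent.H18.Ta

open Finset Pool.Agent.H18.Ex

theorem gm_of_pack (b d : ℕ) (hbd : b ≤ d) (P : Multiset (ℕ × ℕ × ℕ))
    (hP : ∀ x ∈ P, x.2.1 + x.2.2 < b + 1)
    (hc : ∀ s < b + 1, d + 1 - s ≤ (P.map fun x => ld (b + 1) x.1 x.2.1 x.2.2 s).sum) :
    GM (Rg d (![d, d, b] : Fin 3 → ℕ)) ((P.map Prod.fst).map Kind.free) := by
  obtain ⟨n, t, rfl⟩ := multi_exists_fin P
  have ht : ∀ i, (t i).2.1 + (t i).2.2 < b + 1 := fun i =>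
    hP (t i) (Multiset.mem_map.2 ⟨i, (by rw [Finset.mem_val]; exact Finset.mem_univ _), rfl⟩)
  rw [Multiset.map_map, Multiset.map_map, GM_iff]
  obtain ⟨y, hy⟩ := core (b + 1) (fun s => d + 1 - s) (fun i => (t i).1)
    (fun i => rk (b + 1) (t i).2.1 (t i).2.2) (fun i => ex (b + 1) (t i).2.1 (t i).2.2)
    (kap (b + 1)) (fun i : Fin n => ((i : ℕ) : ℂ))
    (fun i j hij => Fin.ext (Nat.cast_injective (R := ℂ) hij))
    (fun i s hs u hu he => rk_inj (ht i) hs hu he)
    (fun i s hs u hu hr => key_lt (ht i) hs hu hr)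
    (fun s hs => by
      have := hc s hs
      rw [Multiset.map_map] at this
      exact this)
  refine ⟨fun i => ![1, ((i : ℕ) : ℂ), y i], fun f hf => ?_⟩
  have h1 := hy (fun s a => f ![d - s - a, a, s]) (fun i α γ hαγ => by
    have h2 := hf i ![0, α, γ] (by
      show ∑ j : Fin 3, (![0, α, γ] : Fin 3 → ℕ) j < (t i).1
      rw [Fin.sum_univ_three]
      show 0 + α + γ < (t i).1
      omega)
    rw [rg_sum b d hbd] at h2
    refine Eq.trans (sum_congr rfl fun s _ => sum_congr rfl fun a _ => ?_) h2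
    congr 1
    show _ = tcr (![1, ((i : ℕ) : ℂ), y i]) ![d - s - a, a, s] ![0, α, γ]
    unfold tcr
    rw [Fin.prod_univ_three]
    show _ = (((d - s - a).choose 0 : ℕ) : ℂ) * 1 ^ (d - s - a - 0) *
      (((a.choose α : ℕ) : ℂ) * ((i : ℕ) : ℂ) ^ (a - α)) *
      (((s.choose γ : ℕ) : ℂ) * y i ^ (s - γ))
    rw [Nat.choose_zero_right, Nat.cast_one, one_pow, one_mul, one_mul])
  intro a ha
  rw [mem_rg3] at ha
  have h3 := h1 (a 2) (by omega) (a 1) (by omega)
  have h4 : (![d - a 2 - a 1, a 1, a 2] : Fin 3 → ℕ) = a := by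
    funext i
    fin_cases i
    · show d - a 2 - a 1 = a 0
      omega
    · rfl
    · rfl
  rw [h4] at h3
  exact h3

end Pool.Agent.H18.Ta

end

section

/-!
# Lattice points of truncated boxes: counting
-/

namespace Pool.Agent.H18.Fat

open Finset

section

variable {r : ℕ}

/-- The lattice points `a` with `v ≤ a < u` and `lo ≤ |a| < hi`. -/
noncomputable def Rg (v u : Fin r → ℤ) (lo hi : ℤ) : Finset (Fin r → ℤ) :=
  (Fintype.piFinset fun j => Ico (v j) (u j)).filter fun a => lo ≤ ∑ j, a j ∧ ∑ j, a j < hi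

theorem mem_Rg {v u : Fin r → ℤ} {lo hi : ℤ} {a : Fin r → ℤ} :
    a ∈ Rg v u lo hi ↔ (∀ j, v j ≤ a j ∧ a j < u j) ∧ lo ≤ ∑ j, a j ∧ ∑ j, a j < hi := by
  unfold Rg
  rw [mem_filter, Fintype.mem_piFinset]
  simp only [mem_Ico]

end

end Pool.Agent.H18.Fat

end
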