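import Pool.Agent.H94.LP1.H18.Nef.LineImage
import Pool.Agent.H94.LP1.M12
import Pool.Agent.H94.LP1.M28
import Pool.Agent.H94.LP1.M29

/-! The parts of this file: H18.Ta.Fill, H18.Ta.Asm, H18.Nef.NefC. -/

section

/-!
# Module Fill (TA): filling the layers of a system

Proof.  `ℓ = b + 1`, `h = max 1 (b / 2)`, so `2 h ≤ ℓ` (`b ≥ 1`); `c s = d + 1 - s` varies by at most `b`.
Remove the zeros from `G`.  The point `m₀` (if `m₀ ≥ 1`) goes to the cell `(0, 0)` and loads the layer `s` by
`m₀ - s` (`rk (b+1) 0 0 s = s`).  Let `c' s = d + 1 - s - (m₀ - s)`, still large with variation at most `2 b`, and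
`∑ c' ≤ ∑_{m ∈ G} ell 2 m` (as `∑ (m₀ - s) = ell 2 m₀`, `m₀ ≤ b < ℓ`).  Induction on `G` (or: take a sub-multiset
`G₁ ≤ G` which is maximal with `∑_{G₁} ell 2 ≤ ∑ c'`) gives `G₁ ≤ G` with either `∑_{G₁} ell 2 = ∑ c'` or
`∑_{G₁} ell 2 < ∑ c' < ∑_{G₁} ell 2 + ell 2 m'` with `m' ∈ G - G₁`.  In the second case put `m'` in the cell
`(0, 0)`, choose natural numbers `v s ≤ m' - s` with sum `∑ c' - ∑_{G₁} ell 2` and replace `c'` by `c' - v`.  Now
apply `pack_mix` (for `(b + 1, h, 3 b)`) to `G₁`.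
-/

namespace Pool.Agent.H18.Ta

open Finset Pool.Agent.H18.Ex

private lemma Fill_ld (l μ s : ℕ) : ld l μ 0 0 s = μ - s := by
  unfold ld rk
  by_cases h : s = 0
  · subst h
    simp
  · have h1 : ¬ s ≤ 0 + 0 := by omega
    rw [if_neg (by omega), if_neg h, if_neg h1, Nat.sub_zero]

private lemma Fill_split (f : ℕ → ℕ) (n : ℕ) : ∀ R : ℕ, R ≤ ∑ s ∈ range n, f s →
    ∃ v : ℕ → ℕ, (∀ s, v s ≤ f s) ∧ ∑ s ∈ range n, v s = R := by
  induction n with
  | zero =>
    intro R hR
    refine ⟨fun _ => 0, fun _ => Nat.zero_le _, ?_⟩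
    simp at hR
    simp [hR]
  | succ n ih =>
    intro R hR
    rw [sum_range_succ] at hR
    rcases Nat.lt_or_ge (∑ s ∈ range n, f s) R with h | h
    · refine ⟨fun s => if s < n then f s else if s = n then R - ∑ s ∈ range n, f s else 0,
        fun s => ?_, ?_⟩
      · by_cases h1 : s < n
        · simp [h1]
        · by_cases h2 : s = n
          · subst h2
            simp only [lt_irrefl, if_false, if_true]
            omega
          · simp [h1, h2]
      · rw [sum_range_succ]
        have h3 : ∑ s ∈ range n, (if s < n then f s else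
            if s = n then R - ∑ s ∈ range n, f s else 0) = ∑ s ∈ range n, f s :=
          sum_congr rfl fun s hs => if_pos (mem_range.1 hs)
        rw [h3]
        simp only [lt_irrefl, if_false, if_true]
        omega
    · obtain ⟨v, hv1, hv2⟩ := ih R h
      refine ⟨fun s => if s < n then v s else 0, fun s => ?_, ?_⟩
      · by_cases h1 : s < n
        · simp [h1, hv1 s]
        · simp [h1]
      · rw [sum_range_succ]
        have h3 : ∑ s ∈ range n, (if s < n then v s else 0) = ∑ s ∈ range n, v s :=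
          sum_congr rfl fun s hs => if_pos (mem_range.1 hs)
        rw [h3, hv2]
        simp

private lemma Fill_sub (f : ℕ → ℕ) (G : Multiset ℕ) : ∀ T : ℕ, T ≤ (G.map f).sum →
    ∃ G₁ : Multiset ℕ, G₁ ≤ G ∧ ((G₁.map f).sum = T ∨
      ∃ m', m' ::ₘ G₁ ≤ G ∧ (G₁.map f).sum < T ∧ T < (G₁.map f).sum + f m') := by
  induction G using Multiset.induction_on with
  | empty =>
    intro T hT
    refine ⟨0, le_rfl, Or.inl ?_⟩
    simp at hT
    simp [hT]
  | cons a G ih =>
    intro T hT
    rw [Multiset.map_cons, Multiset.sum_cons] at hT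
    rcases Nat.lt_or_ge (G.map f).sum T with h | h
    · rcases Nat.lt_or_ge T ((G.map f).sum + f a) with h1 | h1
      · exact ⟨G, Multiset.le_cons_self _ _, Or.inr ⟨a, le_rfl, h, h1⟩⟩
      · refine ⟨a ::ₘ G, le_rfl, Or.inl ?_⟩
        rw [Multiset.map_cons, Multiset.sum_cons]
        omega
    · obtain ⟨G₁, h1, h2⟩ := ih T h
      refine ⟨G₁, h1.trans (Multiset.le_cons_self _ _), ?_⟩
      rcases h2 with h2 | ⟨m', h3, h4, h5⟩
      · exact Or.inl h2
      · exact Or.inr ⟨m', h3.trans (Multiset.le_cons_self _ _), h4, h5⟩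

private lemma Fill_ell0 : ell 2 0 = 0 := by decide

private lemma Fill_filter (G : Multiset ℕ) :
    ((G.filter fun m => 1 ≤ m).map (ell 2)).sum = (G.map (ell 2)).sum := by
  induction G using Multiset.induction_on with
  | empty => simp
  | cons a G ih =>
    by_cases h : 1 ≤ a
    · rw [Multiset.filter_cons_of_pos _ h, Multiset.map_cons, Multiset.sum_cons, Multiset.map_cons,
        Multiset.sum_cons, ih]
    · have h0 : a = 0 := by omega
      rw [Multiset.filter_cons_of_neg _ h, Multiset.map_cons, Multiset.sum_cons, ih, h0,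
        Fill_ell0, zero_add]

/-- The bound in `fill`. -/
def dFill (b : ℕ) : ℕ := nMix (b + 1) (max 1 (b / 2)) (3 * b) + 3 * b

/-- Filling all layers. -/
theorem fill (b : ℕ) (hb : 1 ≤ b) : ∀ (d m₀ : ℕ) (G : Multiset ℕ), dFill b ≤ d → m₀ ≤ b →
    (∀ m ∈ G, m ≤ max 1 (b / 2)) →
    ∑ s ∈ range (b + 1), (d + 1 - s) ≤ ell 2 m₀ + (G.map (ell 2)).sum →
    ∃ P : Multiset (ℕ × ℕ × ℕ), P.map Prod.fst ≤ m₀ ::ₘ G ∧ (∀ x ∈ P, x.2.1 + x.2.2 < b + 1) ∧
      ∀ s < b + 1, d + 1 - s ≤ (P.map fun x => ld (b + 1) x.1 x.2.1 x.2.2 s).sum := by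
  have hh : 2 * max 1 (b / 2) ≤ b + 1 := by omega
  have hhb : max 1 (b / 2) ≤ b := by omega
  have hN := pack_mix (b + 1) (max 1 (b / 2)) (3 * b) (le_max_left _ _) hh
  intro d m₀ G hd hm₀ hG hsum
  have hdF : dFill b = nMix (b + 1) (max 1 (b / 2)) (3 * b) + 3 * b := rfl
  rw [hdF] at hd
  set N := nMix (b + 1) (max 1 (b / 2)) (3 * b) with hNdef
  have hell : ∀ m, m ≤ b → ∑ s ∈ range (b + 1), (m - s) = ell 2 m := by
    intro m hm
    rw [← sum_ld (ℓ := b + 1) (μ := m) (u := 0) (j := 0) (by omega) (by omega)]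
    exact sum_congr rfl fun s _ => (Fill_ld _ _ _).symm
  set c' : ℕ → ℕ := fun s => d + 1 - s - (m₀ - s) with hc'
  have hc1 : ∀ s < b + 1, c' s + (m₀ - s) = d + 1 - s := by
    intro s hs
    simp only [hc']
    omega
  have hT : ∑ s ∈ range (b + 1), c' s + ell 2 m₀ = ∑ s ∈ range (b + 1), (d + 1 - s) := by
    rw [← hell m₀ hm₀, ← sum_add_distrib]
    exact sum_congr rfl fun s hs => hc1 s (mem_range.1 hs)
  have key : ∀ (v : ℕ → ℕ) (G₁ : Multiset ℕ), (∀ s, v s ≤ b) →
      (∀ m ∈ G₁, m ≤ max 1 (b / 2)) →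
      ∑ s ∈ range (b + 1), v s + (G₁.map (ell 2)).sum = ∑ s ∈ range (b + 1), c' s →
      ∃ P : Multiset (ℕ × ℕ × ℕ), P.map Prod.fst ≤ G₁ ∧ (∀ x ∈ P, x.2.1 + x.2.2 < b + 1) ∧
        ∀ s < b + 1, (P.map fun x => ld (b + 1) x.1 x.2.1 x.2.2 s).sum = c' s - v s := by
    intro v G₁ hv hG₁ hs₁
    have hvc : ∀ s < b + 1, v s ≤ c' s := by
      intro s hs
      have h1 := hv s
      simp only [hc']
      omega
    obtain ⟨P, hP1, hP2, hP3⟩ := hN (fun s => c' s - v s) (G₁.filter fun m => 1 ≤ m)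
      (fun m hm => by
        rw [Multiset.mem_filter] at hm
        exact ⟨hm.2, hG₁ m hm.1⟩)
      (fun s hs => by
        have h1 := hv s
        simp only [hc']
        omega)
      (fun s hs t ht => by
        have h1 := hv s
        have h2 := hv t
        simp only [hc']
        omega)
      (by
        rw [Fill_filter]
        have h1 : ∑ s ∈ range (b + 1), (c' s - v s) + ∑ s ∈ range (b + 1), v s =
            ∑ s ∈ range (b + 1), c' s := by
          rw [← sum_add_distrib]
          exact sum_congr rfl fun s hs => Nat.sub_add_cancel (hvc s (mem_range.1 hs))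
        omega)
    exact ⟨P, hP1.le.trans (Multiset.filter_le _ _), hP2, hP3⟩
  obtain ⟨G₁, hG1, hcase⟩ := Fill_sub (ell 2) G (∑ s ∈ range (b + 1), c' s) (by omega)
  have hG1m : ∀ m ∈ G₁, m ≤ max 1 (b / 2) := fun m hm => hG m (Multiset.mem_of_le hG1 hm)
  rcases hcase with hcase | ⟨m', h3, h4, h5⟩
  · obtain ⟨P, hP1, hP2, hP3⟩ := key (fun _ => 0) G₁ (fun _ => Nat.zero_le _) hG1m (by
      simp [hcase])
    refine ⟨(m₀, 0, 0) ::ₘ P, ?_, ?_, ?_⟩
    · rw [Multiset.map_cons]
      exact Multiset.cons_le_cons _ (hP1.trans hG1)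
    · intro x hx
      rcases Multiset.mem_cons.1 hx with rfl | hx
      · exact Nat.succ_pos b
      · exact hP2 x hx
    · intro s hs
      rw [Multiset.map_cons, Multiset.sum_cons, hP3 s hs]
      show d + 1 - s ≤ ld (b + 1) m₀ 0 0 s + (c' s - 0)
      rw [Fill_ld, Nat.sub_zero]
      have := hc1 s hs
      omega
  · have hm' : m' ≤ max 1 (b / 2) :=
      hG m' (Multiset.mem_of_le h3 (Multiset.mem_cons_self _ _))
    have hm'b : m' ≤ b := hm'.trans hhb
    obtain ⟨v, hv1, hv2⟩ := Fill_split (fun s => m' - s) (b + 1)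
      (∑ s ∈ range (b + 1), c' s - (G₁.map (ell 2)).sum) (by
        show _ ≤ ∑ s ∈ range (b + 1), (m' - s)
        rw [hell m' hm'b]
        omega)
    obtain ⟨P, hP1, hP2, hP3⟩ := key v G₁ (fun s => by
      have h6 : v s ≤ m' - s := hv1 s
      omega) hG1m (by omega)
    refine ⟨(m₀, 0, 0) ::ₘ (m', 0, 0) ::ₘ P, ?_, ?_, ?_⟩
    · rw [Multiset.map_cons, Multiset.map_cons]
      exact Multiset.cons_le_cons _ ((Multiset.cons_le_cons _ hP1).trans h3)
    · intro x hx
      rcases Multiset.mem_cons.1 hx with rfl | hx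
      · exact Nat.succ_pos b
      · rcases Multiset.mem_cons.1 hx with rfl | hx
        · exact Nat.succ_pos b
        · exact hP2 x hx
    · intro s hs
      rw [Multiset.map_cons, Multiset.sum_cons, Multiset.map_cons, Multiset.sum_cons, hP3 s hs]
      show d + 1 - s ≤ ld (b + 1) m₀ 0 0 s + (ld (b + 1) m' 0 0 s + (c' s - v s))
      rw [Fill_ld, Fill_ld]
      have h6 := hc1 s hs
      have h7 : v s ≤ m' - s := hv1 s
      omega

/-- The bound is polynomial. -/
theorem dFill_le (b : ℕ) : dFill b ≤ 67 * (b + 1) ^ 18 := by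
  unfold dFill
  set ℓ := b + 1 with hℓ
  have h1 : 1 ≤ ℓ := by omega
  have hh : max 1 (b / 2) ≤ ℓ := by omega
  set h := max 1 (b / 2) with hhd
  have hp : ∀ i j : ℕ, i ≤ j → ℓ ^ i ≤ ℓ ^ j := fun i j hij => Nat.pow_le_pow_right h1 hij
  have e1 : nOne ℓ 1 ≤ 8 * ℓ ^ 8 := by
    unfold nOne
    have := hp 0 2 (by norm_num)
    calc 4 * ℓ ^ 6 * (1 + ℓ ^ 2) ≤ 4 * ℓ ^ 6 * (2 * ℓ ^ 2) := by
          apply Nat.mul_le_mul_left
          rw [pow_zero] at this
          omega
      _ = 8 * ℓ ^ 8 := by ring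
  have e2 : bMix ℓ h ≤ 9 * ℓ ^ 10 := by
    unfold bMix
    have := hp 0 9 (by norm_num)
    calc h * (1 + ℓ * nOne ℓ 1) ≤ ℓ * (1 + ℓ * (8 * ℓ ^ 8)) := by gcongr
      _ = ℓ * (1 + 8 * ℓ ^ 9) := by ring
      _ ≤ ℓ * (9 * ℓ ^ 9) := by
          apply Nat.mul_le_mul_left
          rw [pow_zero] at this
          omega
      _ = 9 * ℓ ^ 10 := by ring
  have e3 : 3 * b ≤ 3 * ℓ ^ 10 := by
    have := hp 1 10 (by norm_num)
    rw [pow_one] at this
    omega
  have e4 : nOne ℓ (3 * b + bMix ℓ h) ≤ 52 * ℓ ^ 16 := by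
    unfold nOne
    have := hp 2 10 (by norm_num)
    calc 4 * ℓ ^ 6 * (3 * b + bMix ℓ h + ℓ ^ 2) ≤ 4 * ℓ ^ 6 * (13 * ℓ ^ 10) := by
          apply Nat.mul_le_mul_left
          omega
      _ = 52 * ℓ ^ 16 := by ring
  have e5 : nMix ℓ h (3 * b) ≤ 64 * ℓ ^ 18 := by
    unfold nMix
    have h2 := hp 11 18 (by norm_num)
    calc h * (h * nOne ℓ (3 * b + bMix ℓ h) + 3 * b + bMix ℓ h)
        ≤ ℓ * (ℓ * (52 * ℓ ^ 16) + 3 * ℓ ^ 10 + 9 * ℓ ^ 10) := by gcongr
      _ = 52 * ℓ ^ 18 + 12 * ℓ ^ 11 := by ring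
      _ ≤ 64 * ℓ ^ 18 := by omega
  have e6 := hp 10 18 (by norm_num)
  omega

end Pool.Agent.H18.Ta

end

section

/-!
# Module Asm (TA): Theorem A and the plane theorem
-/

namespace Pool.Agent.H18.Ta

open Finset Pool.Agent.H18.Ex Pool.Agent.H18.Fat

/-- Every region with bounded last exponent is exact for the multiplicities in question. -/
theorem gm_all (b : ℕ) : ∀ (d : ℕ) (T : Multiset ℕ), dFill b ≤ d → b ≤ d →
    (∀ x ∈ T, x ≤ max 1 b) →
    (∀ x ∈ T, ∀ y ∈ T.erase x, max 1 (b / 2) < x → y ≤ max 1 (b / 2)) →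
    ∑ s ∈ range (b + 1), (d + 1 - s) ≤ (T.map (ell 2)).sum →
    GM (Rg d (![d, d, b] : Fin 3 → ℕ)) (T.map Kind.free) := by
  rcases Nat.eq_zero_or_pos b with rfl | hb
  · intro d T _ _ hT _ hsum
    have h1 : ∀ x ∈ T, x ≤ 1 := by simpa using hT
    -- split the zeros off
    set T₁ := T.filter (fun x => 1 ≤ x) with hT₁
    have h2 : (T.map (ell 2)).sum = T₁.card := by
      have h3 : (T.map (ell 2)).sum = (T₁.map (ell 2)).sum := by
        conv_lhs => rw [← Multiset.filter_add_not (fun x => 1 ≤ x) T]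
        rw [Multiset.map_add, Multiset.sum_add]
        have h4 : ((T.filter (fun x => ¬ 1 ≤ x)).map (ell 2)).sum = 0 := by
          apply Multiset.sum_eq_zero
          intro y hy
          obtain ⟨x, hx, rfl⟩ := Multiset.mem_map.1 hy
          have h5 := (Multiset.mem_filter.1 hx).2
          have h6 : x = 0 := by omega
          subst h6
          rfl
        rw [h4, add_zero]
      rw [h3]
      have h4 : ∀ x ∈ T₁, ell 2 x = 1 := by
        intro x hx
        have h5 := Multiset.mem_filter.1 hx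
        have h6 := h1 x h5.1
        have h7 : x = 1 := by omega
        subst h7
        rfl
      rw [Multiset.map_congr rfl h4]
      simp
    have h3 : (Rg d (![d, d, 0] : Fin 3 → ℕ)).card ≤ T₁.card := by
      rw [card_rg 0 d (Nat.zero_le _), ← h2]
      exact hsum
    have h4 := GM.of_card (Rg d (![d, d, 0] : Fin 3 → ℕ)) T₁ 0
      (fun m hm => (Multiset.mem_filter.1 hm).2) h3
    rw [add_zero] at h4
    exact h4.mono (Multiset.map_le_map (Multiset.filter_le _ _))
  · have hD := fill b hb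
    intro d T hd hbd hT hpair hsum
    -- the largest multiplicity
    have hne : T ≠ 0 := by
      rintro rfl
      rw [Multiset.map_zero, Multiset.sum_zero] at hsum
      have h1 : d + 1 - 0 ≤ ∑ s ∈ range (b + 1), (d + 1 - s) :=
        single_le_sum (f := fun s => d + 1 - s) (fun _ _ => Nat.zero_le _)
          (mem_range.2 (Nat.succ_pos b))
      omega
    obtain ⟨x, hx, hmax⟩ : ∃ x ∈ T, ∀ y ∈ T, y ≤ x := by
      obtain ⟨x, hx⟩ := Multiset.exists_mem_of_ne_zero hne
      have hn : T.toFinset.Nonempty := ⟨x, Multiset.mem_toFinset.2 hx⟩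
      obtain ⟨x, hx, h⟩ := T.toFinset.exists_max_image id hn
      exact ⟨x, Multiset.mem_toFinset.1 hx, fun y hy => h y (Multiset.mem_toFinset.2 hy)⟩
    have hxb : x ≤ b := by
      have := hT x hx
      omega
    have hrest : ∀ y ∈ T.erase x, y ≤ max 1 (b / 2) := by
      intro y hy
      rcases Nat.lt_or_ge (max 1 (b / 2)) x with h | h
      · exact hpair x hx y hy h
      · exact (hmax y (Multiset.mem_of_mem_erase hy)).trans h
    have hT' : x ::ₘ T.erase x = T := Multiset.cons_erase hx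
    have hsum' : ∑ s ∈ range (b + 1), (d + 1 - s) ≤ ell 2 x + ((T.erase x).map (ell 2)).sum := by
      rw [← Multiset.sum_cons, ← Multiset.map_cons, hT']
      exact hsum
    obtain ⟨P, hP1, hP2, hP3⟩ := hD d x (T.erase x) hd hxb hrest hsum'
    rw [hT'] at hP1
    exact (gm_of_pack b d hbd P hP2 hP3).mono (Multiset.map_le_map hP1)

/-- Theorem A: one multiplicity `d - b`, `b` bounded. -/
theorem theoremA (b : ℕ) : ∀ (k d : ℕ) (m : Fin k → ℕ) (i₀ : Fin k), dFill b ≤ d →
    m i₀ + b = d → (∀ i, i ≠ i₀ → m i ≤ b) →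
    (∀ i j, i ≠ i₀ → j ≠ i₀ → i ≠ j → m i + m j ≤ b) →
    ForGeneralPoints 2 k fun p => ImposesMaximalConditions 2 d p m := by
  classical
  intro k d m i₀ hd hb h1 h2
  refine geo k d b m i₀ hb (gm_all b d _ hd (by omega) ?_ ?_ ?_)
  · intro x hx
    rcases Multiset.mem_add.1 hx with hx | hx
    · obtain ⟨i, hi, rfl⟩ := Multiset.mem_map.1 hx
      have h3 := (mem_filter.1 (show i ∈ univ.filter (fun i => i ≠ i₀) from hi)).2
      exact (h1 i h3).trans (le_max_right _ _)
    · rw [Multiset.eq_of_mem_replicate hx]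
      exact le_max_left _ _
  · intro x hx y hy hlt
    set S := (univ.filter fun i => i ≠ i₀).val with hS
    set R := Multiset.replicate ((Rg d (![d, d, b] : Fin 3 → ℕ)).card -
      ∑ i ∈ univ.filter (fun i => i ≠ i₀), ell 2 (m i)) 1 with hR
    -- x comes from the points
    have hxR : x ∉ R := by
      intro h
      rw [Multiset.eq_of_mem_replicate h] at hlt
      have := le_max_left 1 (b / 2)
      omega
    have hxS : x ∈ S.map m := by
      rcases Multiset.mem_add.1 hx with h | h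
      · exact h
      · exact absurd h hxR
    rw [Multiset.erase_add_left_pos _ hxS] at hy
    rcases Multiset.mem_add.1 hy with hy | hy
    · obtain ⟨i, hi, rfl⟩ := Multiset.mem_map.1 hxS
      have hi' := (mem_filter.1 (show i ∈ univ.filter (fun i => i ≠ i₀) from hi)).2
      rw [← Multiset.map_erase_of_mem m S hi] at hy
      obtain ⟨j, hj, rfl⟩ := Multiset.mem_map.1 hy
      have hnd : S.Nodup := (univ.filter fun i => i ≠ i₀).nodup
      have hj1 := (hnd.mem_erase_iff.1 hj)
      have hj' := (mem_filter.1 (show j ∈ univ.filter (fun i => i ≠ i₀) from hj1.2)).2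
      have h3 := h2 i j hi' hj' (fun h => hj1.1 h.symm)
      have h4 := le_max_right 1 (b / 2)
      omega
    · rw [Multiset.eq_of_mem_replicate hy]
      exact le_max_left _ _
  · rw [Multiset.map_add, Multiset.sum_add, Multiset.map_replicate, Multiset.sum_replicate,
      Multiset.map_map]
    have h3 : ((univ.filter fun i => i ≠ i₀).val.map (ell 2 ∘ m)).sum =
        ∑ i ∈ univ.filter (fun i => i ≠ i₀), ell 2 (m i) := rfl
    have h4 : ell 2 1 = 1 := rfl
    rw [h3, h4, smul_eq_mul, mul_one, ← card_rg b d (by omega)]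
    omega

/-- If at most six numbers have all sums of three at most `d`, their sum is at most `2 d`. -/
theorem sum_six {κ : Type} [DecidableEq κ] (m : κ → ℕ) (d : ℕ) (J : Finset κ) (hJ : J.card ≤ 6)
    (hS : ∀ S : Finset κ, S.card ≤ 3 → ∑ i ∈ S, m i ≤ d) : ∑ i ∈ J, m i ≤ 2 * d := by
  rcases Nat.lt_or_ge J.card 3 with h | h
  · have := hS J (by omega)
    omega
  · obtain ⟨S, hSJ, hS3⟩ := exists_subset_card_eq h
    have h1 := hS S (by omega)
    have h2 := hS (J \ S) (by rw [card_sdiff_of_subset hSJ]; omega)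
    rw [← sum_sdiff hSJ]
    omega

/-- If at most eight numbers have all sums of three at most `d`, three times their sum is at most
`8 d`. -/
theorem sum_eight {κ : Type} [DecidableEq κ] (m : κ → ℕ) (d : ℕ) (J : Finset κ) (hJ : J.card ≤ 8)
    (hS : ∀ S : Finset κ, S.card ≤ 3 → ∑ i ∈ S, m i ≤ d) : 3 * ∑ i ∈ J, m i ≤ 8 * d := by
  rcases Nat.lt_or_ge J.card 7 with h | h
  · have := sum_six m d J (by omega) hS
    omega
  · obtain ⟨u, hu, humin⟩ := J.exists_min_image m (card_pos.1 (by omega))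
    have hc1 : (J.erase u).card = J.card - 1 := card_erase_of_mem hu
    obtain ⟨v, hv, hvmin⟩ := (J.erase u).exists_min_image m (card_pos.1 (by omega))
    have hc2 : ((J.erase u).erase v).card = J.card - 1 - 1 := by
      rw [card_erase_of_mem hv, hc1]
    obtain ⟨w, hw⟩ := card_pos.1 (show 0 < ((J.erase u).erase v).card by omega)
    have h1 := sum_six m d ((J.erase u).erase v) (by omega) hS
    have huv : u ≠ v := fun h => (mem_erase.1 hv).1 h.symm
    have hvw : v ≠ w := fun h => (mem_erase.1 hw).1 h.symm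
    have hw' := (mem_erase.1 hw).2
    have huw : u ≠ w := fun h => (mem_erase.1 hw').1 h.symm
    have h2 := hS {u, v, w} (by rw [card_eq_three.2 ⟨u, v, w, huv, huw, hvw, rfl⟩])
    rw [sum_insert (by simp [huv, huw]), sum_pair hvw] at h2
    have h3 := humin v (mem_erase.1 hv).2
    have h4 := hvmin w hw'
    rw [← add_sum_erase J m hu, ← add_sum_erase (J.erase u) m hv]
    omega

end Pool.Agent.H18.Ta

end

section

/-!
# Nef classes with at most eight large multiplicities
-/

namespace Pool.Agent.H18.Nef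

open Finset Pool.Agent.H18.Cub Pool.Agent.H18.Pr Pool.Agent.H18.Fat Pool.Agent.H18.Ub

variable {n : ℕ}

/-- Nef classes. -/
def NefC (d : ℕ) (m : Fin n → ℕ) : Prop :=
  ∀ (e : ℕ) (k : Fin n → ℕ), 1 ≤ generalDim 2 e k → ∑ i, m i * k i ≤ d * e

theorem NefC.one {d : ℕ} {m : Fin n → ℕ} (h : NefC d m) (i : Fin n) : m i ≤ d := by
  have h1 := h 1 (fun x => if x = i then 1 else 0) (by
    have h2 := generalDim_ge (r := 2) (by norm_num) 1 (fun x : Fin n => if x = i then 1 else 0)
    have h3 : ∑ x : Fin n, (((if x = i then 1 else 0) + 2 - 1 : ℕ).choose 2 : ℤ) = 1 := by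
      have h4 : ∀ x : Fin n, (((if x = i then 1 else 0) + 2 - 1 : ℕ).choose 2 : ℤ) =
          if x = i then 1 else 0 := by
        intro x
        by_cases hx : x = i
        · rw [if_pos hx, if_pos hx]
          norm_num
        · rw [if_neg hx, if_neg hx]
          norm_num
      rw [sum_congr rfl fun x _ => h4 x]
      simp
    rw [h3] at h2
    norm_num at h2
    omega)
  simpa using h1

theorem NefC.two {d : ℕ} {m : Fin n → ℕ} (h : NefC d m) {i j : Fin n} (hij : i ≠ j) :
    m i + m j ≤ d := by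
  have h1 := h 1 (fun x => (if x = i then 1 else 0) + if x = j then 1 else 0) (by
    have h2 := generalDim_ge (r := 2) (by norm_num) 1
      (fun x : Fin n => (if x = i then 1 else 0) + if x = j then 1 else 0)
    have h3 : ∑ x : Fin n, (((if x = i then 1 else 0) + (if x = j then 1 else 0) + 2 - 1 :
        ℕ).choose 2 : ℤ) = 2 := by
      have h4 : ∀ x : Fin n, (((if x = i then 1 else 0) + (if x = j then 1 else 0) + 2 - 1 :
          ℕ).choose 2 : ℤ) = (if x = i then 1 else 0) + if x = j then 1 else 0 := by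
        intro x
        by_cases hi : x = i
        · subst hi
          rw [if_pos rfl, if_neg hij, if_pos rfl, if_neg hij]
          norm_num
        · by_cases hj : x = j
          · subst hj
            rw [if_neg hi, if_pos rfl, if_neg hi, if_pos rfl]
            norm_num
          · rw [if_neg hi, if_neg hj, if_neg hi, if_neg hj]
            norm_num
      rw [sum_congr rfl fun x _ => h4 x, sum_add_distrib]
      simp
    rw [h3] at h2
    norm_num at h2
    omega)
  have h5 : ∑ x, m x * ((if x = i then 1 else 0) + if x = j then 1 else 0) = m i + m j := by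
    have h6 : ∀ x, m x * ((if x = i then 1 else 0) + if x = j then 1 else 0) =
        (if x = i then m x else 0) + (if x = j then m x else 0) := by
      intro x
      split_ifs <;> ring
    rw [sum_congr rfl fun x _ => h6 x, sum_add_distrib]
    simp
  rw [h5] at h1
  omega

/-- The Cremona image of an effective class. -/
theorem effective_crm {e : ℕ} {k : Fin n → ℕ} (hdim : 1 ≤ generalDim 2 e k) {a b c : Fin n}
    (hab : a ≠ b) (hac : a ≠ c) (hbc : b ≠ c) :
    ∃ s', k a + k b + k c + s' = 2 * e ∧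
      generalDim 2 s' (crm e k a b c s') = generalDim 2 e k := by
  obtain ⟨J3, h0, h1, h2, hJ3⟩ := emb3 hab hac hbc
  have hsum := sum_le_of_effective k hdim J3
  have hs3 : ∑ l, k (J3 l) = k a + k b + k c := by
    rw [Fin.sum_univ_three, h0, h1, h2]
  rw [hs3] at hsum
  refine ⟨2 * e - (k a + k b + k c), by omega, ?_⟩
  refine generalDim_cremona k _ J3 (fun l => le_of_effective k hdim _) (by rw [hs3]; omega)
    (fun l => ?_) (fun i hi => ?_)
  · refine if_pos ?_
    by_contra hcon
    exact (hJ3 (J3 l)).2 hcon l rfl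
  · exact if_neg ((hJ3 i).1 hi)

/-- Nef classes are preserved. -/
theorem NefC.step {d : ℕ} {m : Fin n → ℕ} (h : NefC d m)
    {a b c : Fin n} (hab : a ≠ b) (hac : a ≠ c) (hbc : b ≠ c)
    {s : ℕ} (hμ : m a + m b + m c + s = 2 * d) : NefC s (crm d m a b c s) := by
  intro e k hdim
  obtain ⟨s', h1, h3⟩ := effective_crm hdim hab hac hbc
  have h4 := h s' (crm e k a b c s') (by rw [h3]; exact hdim)
  have h5 := pairing hab hac hbc hμ h1 (h.two hbc) (h.two hac) (h.two hab)
  have h6 : ((∑ i, m i * crm e k a b c s' i : ℕ) : ℤ) ≤ ((d * s' : ℕ) : ℤ) := by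
    exact_mod_cast h4
  push_cast at h6
  have h7 : ((∑ i, crm d m a b c s i * k i : ℕ) : ℤ) ≤ ((s * e : ℕ) : ℤ) := by
    push_cast
    linarith only [h6, h5]
  exact_mod_cast h7

/-- The Cremona images of a line are nef and effective. -/
theorem LineImage.nef {e : ℕ} {k : Fin n → ℕ} (h : LineImage e k) :
    NefC e k ∧ 1 ≤ generalDim 2 e k := by
  induction h with
  | line =>
    refine ⟨fun e k _ => by simp, ?_⟩
    have h2 := generalDim_ge (r := 2) (by norm_num) 1 (fun _ : Fin n => 0)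
    have h3 : ∑ i : Fin n, (((fun _ : Fin n => 0) i + 2 - 1 : ℕ).choose 2 : ℤ) = 0 := by
      simp
    rw [h3] at h2
    norm_num at h2
    omega
  | @step e s k a b c _ hab hac hbc hka hkb hkc hs ih =>
    refine ⟨ih.1.step hab hac hbc hs, ?_⟩
    obtain ⟨s', h1, h2⟩ := effective_crm ih.2 hab hac hbc
    have h3 : s' = s := by omega
    subst h3
    have h4 : 1 ≤ generalDim 2 s' (crm e k a b c s') := by
      rw [h2]
      exact ih.2
    exact h4

/-- Nef classes of large reduced degree. -/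
structure PosE (D : ℕ) (d : ℕ) (m : Fin n → ℕ) : Prop where
  nef : ∀ (e : ℕ) (k : Fin n → ℕ), 1 ≤ generalDim 2 e k → ∑ i, m i * k i ≤ d * e
  big : ∀ (e : ℕ) (k : Fin n → ℕ), LineImage e k → ∑ i, m i * k i + D ≤ d * e

theorem PosE.deg {D : ℕ} {d : ℕ} {m : Fin n → ℕ} (h : PosE D d m) : D ≤ d := by
  have h1 := h.big 1 (fun _ => 0) LineImage.line
  simpa using h1

theorem PosE.one {D : ℕ} {d : ℕ} {m : Fin n → ℕ} (h : PosE D d m) (i : Fin n) : m i ≤ d :=
  NefC.one h.nef i

theorem PosE.two {D : ℕ} {d : ℕ} {m : Fin n → ℕ} (h : PosE D d m) {i j : Fin n} (hij : i ≠ j) :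
    m i + m j ≤ d := NefC.two h.nef hij

/-- One Cremona transformation. -/
theorem PosE.step {D : ℕ} {d : ℕ} {m : Fin n → ℕ} (h : PosE D d m)
    {a b c : Fin n} (hab : a ≠ b) (hac : a ≠ c) (hbc : b ≠ c)
    {s : ℕ} (hμ : m a + m b + m c + s = 2 * d) :
    PosE D s (crm d m a b c s) := by
  refine ⟨NefC.step h.nef hab hac hbc hμ, fun e k hk => ?_⟩
  have hn := hk.nef
  obtain ⟨s', h1, _⟩ := effective_crm hn.2 hab hac hbc
  have h4 := h.big s' (crm e k a b c s')
    (LineImage.step hk hab hac hbc (hn.1.two hbc) (hn.1.two hac) (hn.1.two hab) h1)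
  have h5 := pairing hab hac hbc hμ h1 (h.two hbc) (h.two hac) (h.two hab)
  have h6 : ((∑ i, m i * crm e k a b c s' i + D : ℕ) : ℤ) ≤ ((d * s' : ℕ) : ℤ) := by
    exact_mod_cast h4
  push_cast at h6
  have h7 : ((∑ i, crm d m a b c s i * k i + D : ℕ) : ℤ) ≤ ((s * e : ℕ) : ℤ) := by
    push_cast
    linarith only [h6, h5]
  exact_mod_cast h7

/-- Reduction to standard form. -/
theorem PosE.reduce {D : ℕ} {J : Finset (Fin n)} {M : ℕ} : ∀ (d : ℕ) (m : Fin n → ℕ),
    PosE D d m → (∀ i, i ∉ J → m i ≤ M) →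
    ∃ (d' : ℕ) (m' : Fin n → ℕ), Cremona 2 d m d' m' ∧ PosE D d' m' ∧
      (∀ i, i ∉ J → m' i ≤ M) ∧ (∀ S : Finset (Fin n), S.card ≤ 3 → ∑ i ∈ S, m' i ≤ d') ∧
      virt d' m' = virt d m := by
  intro d
  induction d using Nat.strong_induction_on with
  | _ d ih =>
    intro m h hM
    by_cases hstd : ∀ S : Finset (Fin n), S.card ≤ 3 → ∑ i ∈ S, m i ≤ d
    · exact ⟨d, m, Cremona.refl d m, h, hM, hstd, rfl⟩
    · push Not at hstd
      obtain ⟨S, hS3, hlt⟩ := hstd
      have hcard : S.card = 3 := by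
        by_contra hne
        have h012 : S.card = 0 ∨ S.card = 1 ∨ S.card = 2 := by omega
        rcases h012 with h0 | h1 | h2
        · rw [card_eq_zero] at h0
          rw [h0, sum_empty] at hlt
          omega
        · obtain ⟨x, rfl⟩ := card_eq_one.1 h1
          rw [sum_singleton] at hlt
          have := h.one x
          omega
        · obtain ⟨x, y, hxy, rfl⟩ := card_eq_two.1 h2
          rw [sum_pair hxy] at hlt
          have := h.two hxy
          omega
      obtain ⟨a, b, c, hab, hac, hbc, rfl⟩ := card_eq_three.1 hcard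
      have hma := h.two hbc
      have hmb := h.two hac
      have hmc := h.two hab
      have hsum : ∑ i ∈ ({a, b, c} : Finset (Fin n)), m i = m a + m b + m c := by
        rw [sum_insert (by simp [hab, hac]), sum_insert (by simp [hbc]), sum_singleton,
          add_assoc]
      rw [hsum] at hlt
      set s := 2 * d - (m a + m b + m c) with hs
      have hμ : m a + m b + m c + s = 2 * d := by omega
      obtain ⟨d', m', h1, h2, h3, h4, h5⟩ := ih s (by omega) (crm d m a b c s)
        (h.step hab hac hbc hμ) (fun i hi => by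
          have h7 := hM i hi
          show (if i = a ∨ i = b ∨ i = c then s + m i - d else m i) ≤ M
          split_ifs
          · omega
          · exact h7)
      refine ⟨d', m', ?_, h2, h3, h4, h5.trans (virt_crm hab hac hbc hμ hma hmb hmc)⟩
      obtain ⟨J3, e0, e1, e2, hJ3⟩ := emb3 hab hac hbc
      refine Cremona.step J3 (fun l => ?_) ?_ (fun l => ?_) (fun i hi => ?_) h1
      · have h6 : ∀ x, (x = a ∨ x = b ∨ x = c) → m x ≤ d := by
          rintro x (rfl | rfl | rfl) <;> omega
        apply h6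
        by_contra hcon
        exact (hJ3 (J3 l)).2 hcon l rfl
      · rw [Fin.sum_univ_three, e0, e1, e2]
        omega
      · refine if_pos ?_
        by_contra hcon
        exact (hJ3 (J3 l)).2 hcon l rfl
      · exact if_neg ((hJ3 i).1 hi)

end Pool.Agent.H18.Nef

end
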