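import Pool.Agent.H94.LP1.M26
import Pool.Agent.H94.LP1.M30

/-! The parts of this file: H18.Ta.Asm_1, H18.Nef.NefC_1. -/

section

/-!
# Module Asm (TA): Theorem A and the plane theorem
-/

namespace Pool.Agent.H18.Ta

open Finset Pool.Agent.H18.Ex Pool.Agent.H18.Fat Pool.Agent.H18.Pr

/-- The plane theorem before Cremona transformations. -/
theorem plane : ∃ K E : ℕ, ∀ M : ℕ, 1 ≤ M →
    ∀ (k d : ℕ) (m : Fin k → ℕ) (J : Finset (Fin k)),
    J.card ≤ 9 → (∀ i, i ∉ J → m i ≤ M) → (∀ S : Finset (Fin k), S.card ≤ 3 → ∑ i ∈ S, m i ≤ d) →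
    K * M ^ E ≤ d → (J.card = 9 → ∑ i ∈ J, m i + K * M ^ E ≤ 3 * d) →
    ForGeneralPoints 2 k fun p => ImposesMaximalConditions 2 d p m := by
  classical
  obtain ⟨K, E, H⟩ := many_largeR 2 3 le_rfl (by norm_num)
  refine ⟨70 * (K + 1) ^ 18, 18 * E, fun M hM k d m J hJ hsmall hS hd' hcurve' => ?_⟩
  set D₁ := K * M ^ E with hD₁
  have hbound : 3 * D₁ + 67 * (D₁ + 1) ^ 18 ≤ 70 * (K + 1) ^ 18 * M ^ (18 * E) := by
    have hME : 1 ≤ M ^ E := Nat.one_le_pow _ _ hM
    have h1 : D₁ + 1 ≤ (K + 1) * M ^ E := by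
      rw [hD₁, add_mul, one_mul]
      omega
    have h2 : (D₁ + 1) ^ 18 ≤ ((K + 1) * M ^ E) ^ 18 := Nat.pow_le_pow_left h1 18
    have h3 : ((K + 1) * M ^ E) ^ 18 = (K + 1) ^ 18 * M ^ (18 * E) := by
      rw [mul_pow, ← pow_mul, mul_comm E 18]
    have h4 : D₁ ≤ (D₁ + 1) ^ 18 := by
      calc D₁ ≤ D₁ + 1 := Nat.le_succ _
        _ = (D₁ + 1) ^ 1 := (pow_one _).symm
        _ ≤ (D₁ + 1) ^ 18 := Nat.pow_le_pow_right (Nat.succ_pos _) (by norm_num)
    rw [mul_assoc, ← h3]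
    omega
  have hd : 3 * D₁ + 67 * (D₁ + 1) ^ 18 ≤ d := hbound.trans hd'
  have hcurve : J.card = 9 → ∑ i ∈ J, m i + D₁ ≤ 3 * d := fun h => by
    have := hcurve' h
    omega
  have hD₂ : ∀ b < D₁, dFill b ≤ 67 * (D₁ + 1) ^ 18 := fun b hb =>
    (dFill_le b).trans (Nat.mul_le_mul_left _ (Nat.pow_le_pow_left (by omega) _))
  by_cases hlarge : ∃ i, d < m i + D₁
  · obtain ⟨i₀, hi₀⟩ := hlarge
    have h1 : m i₀ ≤ d := by simpa using hS {i₀} (by simp)
    have h2 : dFill (d - m i₀) ≤ 67 * (D₁ + 1) ^ 18 := hD₂ _ (by omega)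
    refine theoremA (d - m i₀) k d m i₀ (by omega) (by omega) (fun i hi => ?_)
      (fun i j hi hj hij => ?_)
    · have h3 := hS {i₀, i} (by rw [card_pair (Ne.symm hi)]; norm_num)
      rw [sum_pair (Ne.symm hi)] at h3
      omega
    · have h3 := hS {i₀, i, j} (by rw [card_eq_three.2 ⟨i₀, i, j, Ne.symm hi, Ne.symm hj, hij, rfl⟩])
      rw [sum_insert (by simp [Ne.symm hi, Ne.symm hj]), sum_pair hij] at h3
      omega
  · push Not at hlarge
    refine H M hM k d m J (by norm_num; omega) hsmall (fun S _ hS3 => ?_) (by omega)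
      (fun i _ => hlarge i) ?_
    · have := hS S hS3
      simpa using this
    · rcases Nat.lt_or_ge J.card 9 with h9 | h9
      · -- at most eight points: any three have sum at most d
        have h8 := sum_eight m d J (by omega) hS
        norm_num
        omega
      · have := hcurve (by omega)
        norm_num
        omega

end Pool.Agent.H18.Ta

end

section

/-!
# Nef classes with at most eight large multiplicities
-/

namespace Pool.Agent.H18.Nef

open Finset Pool.Agent.H18.Cub Pool.Agent.H18.Pr Pool.Agent.H18.Fat Pool.Agent.H18.Ub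

variable {n : ℕ}

/-- Nef classes with at most eight large multiplicities. -/
theorem eight_large : ∃ K E : ℕ, ∀ M : ℕ, 1 ≤ M → ∀ (n d : ℕ) (m : Fin n → ℕ)
    (J : Finset (Fin n)), J.card ≤ 8 → (∀ i, i ∉ J → m i ≤ M) → PosE (K * M ^ E) d m →
    ForGeneralPoints 2 n fun p => ImposesMaximalConditions 2 d p m := by
  obtain ⟨K, E, H⟩ := Pool.Agent.H18.Ta.plane
  refine ⟨K, E, fun M hM n d m J hJ hsmall hpos => ?_⟩
  obtain ⟨d', m', h1, h2, h3, h4, h5⟩ := hpos.reduce d m hsmall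
  have h6 := H M hM n d' m' J (by omega) h3 h4 h2.deg (fun h => by omega)
  refine (cremona_final (by norm_num) h1 h6).mono fun p hp => ?_
  have h7 := hp.2
  by_contra hcon
  have h8 := (h7.1 hcon).2
  have h9 : virt d' m' = ((d' + 2).choose 2 : ℤ) - ∑ i, ((m' i + 2 - 1).choose 2 : ℤ) := rfl
  have h10 : virt d m = ((d + 2).choose 2 : ℤ) - ∑ i, ((m i + 2 - 1).choose 2 : ℤ) := rfl
  rw [← h9, ← h10, h5] at h8
  exact lt_irrefl _ h8

end Pool.Agent.H18.Nef

end
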