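import Pool.Agent.H94.LP1.H18.Ub.VDim
import Pool.Agent.H94.LP1.M33

/-! The parts of this file: H74.CT.Upper, H74.CT.Numer. -/

section

/-!
# Upper bound for the dimension, by adding the nodes in the order of decreasing multiplicity
-/

namespace Pool.Agent.H74.CT

open MvPolynomial Pool.Agent.H18.Fat Pool.Agent.H22.LU

/-- Multiplicities `m` on `A`, `0` elsewhere. -/
def on {ι : Type*} [DecidableEq ι] (A : Finset ι) (m : ι → ℕ) : ι → ℕ :=
  fun l => if l ∈ A then m l else 0

theorem mm_zero (A : Finset ℕ) (m : ℕ → ℕ) (P : ℕ) : mm A m P 0 = on A m := by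
  funext l
  unfold mm on
  split_ifs <;> rfl

theorem mm_self (A : Finset ℕ) (m : ℕ → ℕ) (P : ℕ) :
    mm A m P (m P) = on (insert P A) m := by
  funext l
  unfold mm on
  by_cases h1 : l ∈ A
  · rw [if_pos h1, if_pos (Finset.mem_insert_of_mem h1)]
  · by_cases h2 : l = P
    · subst h2
      rw [if_neg h1, if_pos rfl, if_pos (Finset.mem_insert_self _ _)]
    · rw [if_neg h1, if_neg h2, if_neg]
      rw [Finset.mem_insert]
      tauto

/-- Raising the multiplicity of one node. -/
theorem raise (r j : ℕ) (hr : 2 ≤ r) (A : Finset ℕ) (P : ℕ) (hP : P ∉ A) (m : ℕ → ℕ)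
    (γ : ℕ → ℕ) : ∀ n : ℕ, (∀ l ∈ A, n ≤ m l) → (∀ i < n, i ≤ j ∧
      ∑ l ∈ A, (m l + i - j) ≤ γ i ∧ γ i ≤ i ∧ ∑ l ∈ A, m l + i + (r - 2) * γ i ≤ r * j) →
    Module.finrank ℂ (fatForms r j (fun l : ℕ => pt r l) (mm A m P n)) +
      ∑ i ∈ Finset.range n, (i - γ i + (r - 1)).choose (r - 1) ≤
      Module.finrank ℂ (fatForms r j (fun l : ℕ => pt r l) (on A m)) := by
  intro n
  induction n with
  | zero =>
    intro _ _
    rw [Finset.range_zero, Finset.sum_empty, Nat.add_zero, mm_zero]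
  | succ n ih =>
    intro h1 h2
    have h3 := ih (fun l hl => (Nat.le_succ n).trans (h1 l hl)) fun i hi => h2 i (by omega)
    obtain ⟨h4, h5, h6, h7⟩ := h2 n (Nat.lt_succ_self n)
    have h8 := stage r j n hr A P hP m h4 (fun l hl => h1 l hl) _ rfl (h5.trans h6)
      (le_trans (Nat.add_le_add_left (Nat.mul_le_mul_left _ h5) _) h7)
    have h9 : (n - γ n + (r - 1)).choose (r - 1) ≤
        (n - ∑ l ∈ A, (m l + n - j) + (r - 1)).choose (r - 1) :=
      Nat.choose_le_choose _ (by omega)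
    rw [Finset.sum_range_succ]
    omega

theorem finrank_le_mons (r j : ℕ) {ι : Type*} (p : ι → Fin (r + 1) → ℂ) (m : ι → ℕ) :
    Module.finrank ℂ (fatForms r j p m) ≤ (j + r).choose r := by
  have h1 : fatForms r j p m ≤ LinearMap.range (toPoly (r + 1) j) := fun F hF =>
    ⟨fun α => coeff α.1 F, exists_toPoly hF.1⟩
  have h2 := Submodule.finrank_mono h1
  have h3 := LinearMap.finrank_range_le (toPoly (r + 1) j)
  rw [Module.finrank_fintype_fun_eq_card, Fintype.card_coe, card_mons] at h3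
  exact h2.trans h3

theorem upper (r j : ℕ) (hr : 2 ≤ r) (m : ℕ → ℕ) (γ : ℕ → ℕ → ℕ) (J : Finset ℕ)
    (hmj : ∀ P ∈ J, m P ≤ j + 1)
    (hγ : ∀ P ∈ J, ∀ i < m P, ∑ l ∈ J.filter (fun l => l ≠ P ∧ m P ≤ m l), (m l + i - j) ≤ γ P i ∧
      γ P i ≤ i ∧ ∑ l ∈ J, m l + (r - 2) * γ P i ≤ r * j + 1) :
    Module.finrank ℂ (fatForms r j (fun l : ℕ => pt r l) (on J m)) +
      ∑ P ∈ J, ∑ i ∈ Finset.range (m P), (i - γ P i + (r - 1)).choose (r - 1) ≤
      (j + r).choose r := by
  have key : ∀ A : Finset ℕ, A ⊆ J →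
      Module.finrank ℂ (fatForms r j (fun l : ℕ => pt r l) (on A m)) +
      ∑ P ∈ A, ∑ i ∈ Finset.range (m P), (i - γ P i + (r - 1)).choose (r - 1) ≤
      (j + r).choose r := by
    intro A
    induction A using Finset.induction_on_min_value m with
    | empty =>
      intro _
      rw [Finset.sum_empty, Nat.add_zero]
      exact finrank_le_mons _ _ _ _
    | insert P A hP hmin ih =>
      intro hAJ
      have hPJ : P ∈ J := hAJ (Finset.mem_insert_self P A)
      have hAJ' : A ⊆ J := fun l hl => hAJ (Finset.mem_insert_of_mem hl)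
      have h1 := ih hAJ'
      have h2 := raise r j hr A P hP m (γ P) (m P) hmin fun i hi => by
        obtain ⟨h3, h4, h5⟩ := hγ P hPJ i hi
        have h6 := hmj P hPJ
        refine ⟨by omega, le_trans (Finset.sum_le_sum_of_subset fun l hl => ?_) h3, h4, ?_⟩
        · refine Finset.mem_filter.2 ⟨hAJ' hl, fun h => hP (h ▸ hl), hmin l hl⟩
        · have h7 : ∑ l ∈ insert P A, m l ≤ ∑ l ∈ J, m l := Finset.sum_le_sum_of_subset hAJ
          rw [Finset.sum_insert hP] at h7
          omega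
      rw [mm_self] at h2
      rw [Finset.sum_insert hP]
      omega
  exact key J (Finset.Subset.refl J)

/-- Upper bound for the dimension for general points. -/
theorem upper_fin (r j k : ℕ) (hr : 2 ≤ r) (m : Fin k → ℕ) (γ : Fin k → ℕ → ℕ)
    (J : Finset (Fin k)) (hmj : ∀ P ∈ J, m P ≤ j + 1)
    (hγ : ∀ P ∈ J, ∀ i < m P, ∑ l ∈ J.filter (fun l => l ≠ P ∧ m P ≤ m l), (m l + i - j) ≤ γ P i ∧
      γ P i ≤ i ∧ ∑ l ∈ J, m l + (r - 2) * γ P i ≤ r * j + 1) :
    (generalDim r j fun i => if i ∈ J then m i else 0) +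
      ∑ P ∈ J, ∑ i ∈ Finset.range (m P), (i - γ P i + (r - 1)).choose (r - 1) ≤
      (j + r).choose r := by
  classical
  set m' : ℕ → ℕ := fun l => if h : l < k then m ⟨l, h⟩ else 0 with hm'
  set γ' : ℕ → ℕ → ℕ := fun l => if h : l < k then γ ⟨l, h⟩ else 0 with hγ'
  set J' : Finset ℕ := J.map Fin.valEmbedding with hJ'
  have hmv : ∀ i : Fin k, m' i.1 = m i := fun i => by
    rw [hm']
    dsimp only
    rw [dif_pos i.2]
  have hγv : ∀ i : Fin k, γ' i.1 = γ i := fun i => by
    rw [hγ']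
    dsimp only
    rw [dif_pos i.2]
  have hsumJ : ∀ f : ℕ → ℕ, ∑ l ∈ J', f l = ∑ l ∈ J, f l.1 := fun f => by
    rw [hJ', Finset.sum_map]
    rfl
  have h1 := upper r j hr m' γ' J' (fun P hP => ?_) (fun P hP i hi => ?_)
  · rw [hsumJ] at h1
    have h2 : ∑ l ∈ J, ∑ i ∈ Finset.range (m' l.1), (i - γ' l.1 i + (r - 1)).choose (r - 1) =
        ∑ P ∈ J, ∑ i ∈ Finset.range (m P), (i - γ P i + (r - 1)).choose (r - 1) := by
      refine Finset.sum_congr rfl fun P _ => ?_
      rw [hmv, hγv]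
    rw [h2] at h1
    refine le_trans (Nat.add_le_add_right ?_ _) h1
    refine Nat.sInf_le ⟨fun i : Fin k => pt r (i.1 : ℕ), ?_⟩
    have h3 : fatForms r j (fun i : Fin k => pt r (i.1 : ℕ)) (fun i => if i ∈ J then m i else 0) =
        fatForms r j (fun l : ℕ => pt r l) (on J' m') := by
      ext F
      constructor
      · intro hF
        refine ⟨hF.1, fun l => ?_⟩
        unfold on
        by_cases hl : l ∈ J'
        · rw [if_pos hl]
          rw [hJ', Finset.mem_map] at hl
          obtain ⟨i, hi, rfl⟩ := hl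
          have h4 := hF.2 i
          dsimp only at h4
          rw [if_pos hi] at h4
          rw [Fin.valEmbedding_apply, hmv]
          exact h4
        · rw [if_neg hl]
          exact vanishes_zero _ _
      · intro hF
        refine ⟨hF.1, fun i => ?_⟩
        dsimp only
        by_cases hi : i ∈ J
        · rw [if_pos hi]
          have h4 := hF.2 i.1
          unfold on at h4
          rw [if_pos (by rw [hJ', Finset.mem_map]; exact ⟨i, hi, rfl⟩), hmv] at h4
          exact h4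
        · rw [if_neg hi]
          exact vanishes_zero _ _
    exact congrArg (fun V : Submodule ℂ (MvPolynomial (Fin (r + 1)) ℂ) => Module.finrank ℂ V) h3
  · rw [hJ', Finset.mem_map] at hP
    obtain ⟨i, hi, rfl⟩ := hP
    rw [Fin.valEmbedding_apply, hmv]
    exact hmj i hi
  · rw [hJ', Finset.mem_map] at hP
    obtain ⟨x, hx, rfl⟩ := hP
    rw [Fin.valEmbedding_apply] at hi ⊢
    rw [hmv] at hi
    have h4 := hγ x hx i hi
    rw [hγv, hmv, hsumJ]
    have h5 : ∑ l ∈ J'.filter (fun l => l ≠ x.1 ∧ m x ≤ m' l), (m' l + i - j) =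
        ∑ l ∈ J.filter (fun l => l ≠ x ∧ m x ≤ m l), (m l + i - j) := by
      rw [Finset.sum_filter, Finset.sum_filter, hsumJ]
      refine Finset.sum_congr rfl fun l _ => ?_
      rw [hmv]
      have h6 : (l.1 ≠ x.1 ∧ m x ≤ m l) ↔ (l ≠ x ∧ m x ≤ m l) := by
        rw [Ne, Ne, Fin.val_inj]
      by_cases h7 : l ≠ x ∧ m x ≤ m l
      · rw [if_pos h7, if_pos (h6.2 h7)]
      · rw [if_neg h7, if_neg fun h8 => h7 (h6.1 h8)]
    have h6 : ∑ l ∈ J, m' l.1 = ∑ l ∈ J, m l := Finset.sum_congr rfl fun l _ => hmv l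
    rw [h5, h6]
    exact h4

end Pool.Agent.H74.CT

end

section

/-!
# The dimension in the degrees slightly below `d`
-/

namespace Pool.Agent.H74.CT

open Pool.Agent.H18.Fat Finset

theorem hockey (s m : ℕ) : ∑ i ∈ range m, (i + (s + 1)).choose (s + 1) =
    (m + (s + 2) - 1).choose (s + 2) := by
  induction m with
  | zero =>
    rw [range_zero, sum_empty, Nat.choose_eq_zero_of_lt (by omega)]
  | succ m ih =>
    rw [sum_range_succ, ih]
    have h1 : m + 1 + (s + 2) - 1 = (m + (s + 1)) + 1 := by omega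
    have h2 : m + (s + 2) - 1 = m + (s + 1) := by omega
    rw [h1, h2, Nat.choose_succ_succ, Nat.add_comm]

theorem choose_drop (s i : ℕ) : ∀ γ : ℕ, γ ≤ i →
    (i + (s + 1)).choose (s + 1) ≤ (i - γ + (s + 1)).choose (s + 1) + γ * (i + s).choose s := by
  intro γ
  induction γ with
  | zero =>
    intro _
    simp
  | succ γ ih =>
    intro h
    have h1 := ih (by omega)
    have h2 : i - γ + (s + 1) = (i - (γ + 1) + (s + 1)) + 1 := by omega
    rw [h2, Nat.choose_succ_succ' (i - (γ + 1) + (s + 1)) s] at h1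
    have h3 : (i - (γ + 1) + (s + 1)).choose s ≤ (i + s).choose s :=
      Nat.choose_le_choose _ (by omega)
    rw [Nat.succ_mul]
    omega

/-- The excess. -/
def exc {k : ℕ} (m : Fin k → ℕ) (J : Finset (Fin k)) (j : ℕ) (P : Fin k) (i : ℕ) : ℕ :=
  ∑ l ∈ J.filter (fun l => l ≠ P ∧ m P ≤ m l), (m l + i - j)

section

variable {s k d D δ : ℕ} {m : Fin k → ℕ} {J : Finset (Fin k)}

theorem exc_term (hδ : 2 * δ ≤ d) (h3 : ∀ a ∈ J, ∀ b ∈ J, a ≠ b → m a + m b ≤ d + 1)
    {P : Fin k} (hP : P ∈ J) {i : ℕ} (hi : i < m P) {l : Fin k}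
    (hl : l ∈ J.filter (fun l => l ≠ P ∧ m P ≤ m l)) :
    m l + i - (d - δ) ≤ δ ∧ (m l + i - (d - δ) ≠ 0 → d ≤ 4 * m l ∧ m P ≤ i + δ) := by
  rw [mem_filter] at hl
  have h4 := h3 l hl.1 P hP hl.2.1
  have h5 := hl.2.2
  constructor
  · omega
  · intro h6
    constructor <;> omega

theorem exc_le (hd : 1 ≤ d) (hδ : 2 * δ ≤ d) (h2 : ∑ i ∈ J, m i ≤ (s + 2) * d)
    (h3 : ∀ a ∈ J, ∀ b ∈ J, a ≠ b → m a + m b ≤ d + 1)
    {P : Fin k} (hP : P ∈ J) {i : ℕ} (hi : i < m P) :
    exc m J (d - δ) P i ≤ 4 * (s + 2) * δ := by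
  have h4 : d * exc m J (d - δ) P i ≤ ∑ l ∈ J, 4 * δ * m l := by
    unfold exc
    rw [mul_sum]
    calc ∑ l ∈ J.filter (fun l => l ≠ P ∧ m P ≤ m l), d * (m l + i - (d - δ)) ≤
        ∑ l ∈ J.filter (fun l => l ≠ P ∧ m P ≤ m l), 4 * δ * m l := by
          refine sum_le_sum fun l hl => ?_
          obtain ⟨h5, h6⟩ := exc_term hδ h3 hP hi hl
          by_cases h7 : m l + i - (d - δ) = 0
          · rw [h7, mul_zero]
            exact Nat.zero_le _
          · have h8 := (h6 h7).1
            calc d * (m l + i - (d - δ)) ≤ (4 * m l) * δ := Nat.mul_le_mul h8 h5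
              _ = 4 * δ * m l := by ring
      _ ≤ _ := sum_le_sum_of_subset (filter_subset _ _)
  rw [← mul_sum] at h4
  have h5 : d * exc m J (d - δ) P i ≤ d * (4 * (s + 2) * δ) := by
    refine h4.trans ?_
    calc 4 * δ * ∑ i ∈ J, m i ≤ 4 * δ * ((s + 2) * d) := Nat.mul_le_mul_left _ h2
      _ = d * (4 * (s + 2) * δ) := by ring
  exact Nat.le_of_mul_le_mul_left h5 hd

theorem exc_pos (hδ : 2 * δ ≤ d) (h1 : ∀ i ∈ J, m i + D ≤ d)
    (h3 : ∀ a ∈ J, ∀ b ∈ J, a ≠ b → m a + m b ≤ d + 1)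
    {P : Fin k} (hP : P ∈ J) {i : ℕ} (hi : i < m P) (h0 : exc m J (d - δ) P i ≠ 0) :
    D < i + δ ∧ m P ≤ i + δ := by
  unfold exc at h0
  obtain ⟨l, hl, h4⟩ := exists_ne_zero_of_sum_ne_zero h0
  have h5 := (exc_term hδ h3 hP hi hl).2 h4
  have h6 := h1 l (mem_filter.1 hl).1
  constructor
  · omega
  · exact h5.2

/-- Degrees slightly below `d`. -/
theorem near (hD : 4 * (s + 2) ^ 2 * δ ≤ D) (hD0 : 1 ≤ D) (hDd : D ≤ d)
    (h1 : ∀ i ∈ J, m i + D ≤ d) (h2 : ∑ i ∈ J, m i + D ≤ (s + 2) * d)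
    (h3 : ∀ a ∈ J, ∀ b ∈ J, a ≠ b → m a + m b ≤ d + 1) :
    ∃ e : ℕ, D * e ≤ 8 * (s + 2) ^ 3 * δ ^ 2 * (d + (s + 1)).choose (s + 1) ∧
      (generalDim (s + 2) (d - δ) fun i => if i ∈ J then m i else 0) +
        ∑ i ∈ J, (m i + (s + 2) - 1).choose (s + 2) ≤ (d - δ + (s + 2)).choose (s + 2) + e := by
  have hsq : 4 * (s + 2) * δ * (s + 2) ≤ D := by
    refine le_trans (le_of_eq ?_) hD
    ring
  have hδd : 8 * δ * (s + 2) ≤ D := by
    have h4 : 8 * δ * (s + 2) ≤ 4 * (s + 2) * δ * (s + 2) := by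
      have : 8 * δ ≤ 4 * (s + 2) * δ := by nlinarith
      exact Nat.mul_le_mul_right _ this
    exact h4.trans hsq
  have hδd2 : 16 * δ ≤ D := by nlinarith
  have hδ : 2 * δ ≤ d := by omega
  have hd : 1 ≤ d := by omega
  have h2' : ∑ i ∈ J, m i ≤ (s + 2) * d := by omega
  have hex := @exc_le s k d δ m J hd hδ h2' h3
  have hpos := @exc_pos k d D δ m J hδ h1 h3
  have hup := upper_fin (s + 2) (d - δ) k (by omega) m (exc m J (d - δ)) J
    (fun P hP => by
      have := h1 P hP
      omega)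
    (fun P hP i hi => ⟨le_rfl, by
      by_cases h0 : exc m J (d - δ) P i = 0
      · omega
      · have h4 := (hpos hP hi h0).1
        have h5 := hex hP hi
        have h6 : 4 * (s + 2) * δ + δ ≤ D := by nlinarith
        omega, by
      have h5 := hex hP hi
      have h6 : (s + 2 - 2) * exc m J (d - δ) P i ≤ s * (4 * (s + 2) * δ) := by
        have : s + 2 - 2 = s := by omega
        rw [this]
        exact Nat.mul_le_mul_left _ h5
      have h7 : (s + 2) * (d - δ) + (s + 2) * δ = (s + 2) * d := by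
        rw [← Nat.mul_add]
        congr 1
        omega
      have h8 : s * (4 * (s + 2) * δ) + (s + 2) * δ ≤ D := by nlinarith
      omega⟩)
  have hr1 : s + 2 - 1 = s + 1 := by omega
  rw [hr1] at hup
  refine ⟨∑ P ∈ J, ∑ i ∈ range (m P), exc m J (d - δ) P i * (i + s).choose s, ?_, ?_⟩
  · -- the error
    have hN : (d + (s + 1)) * (d + s).choose s = (d + (s + 1)).choose (s + 1) * (s + 1) :=
      Nat.add_one_mul_choose_eq (d + s) s
    have hinner : ∀ P ∈ J, D * ∑ i ∈ range (m P), exc m J (d - δ) P i * (i + s).choose s ≤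
        2 * m P * (4 * (s + 2) * δ ^ 2 * (d + s).choose s) := by
      intro P hP
      have hterm : ∀ i ∈ range (m P), exc m J (d - δ) P i * (i + s).choose s ≤
          if m P ≤ i + δ ∧ D ≤ 2 * m P then 4 * (s + 2) * δ * (d + s).choose s else 0 := by
        intro i hi
        rw [mem_range] at hi
        by_cases h0 : exc m J (d - δ) P i = 0
        · rw [h0, zero_mul]
          exact Nat.zero_le _
        · obtain ⟨h4, h5⟩ := hpos hP hi h0
          rw [if_pos ⟨h5, by omega⟩]
          refine Nat.mul_le_mul (hex hP hi) (Nat.choose_le_choose _ ?_)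
          have := h1 P hP
          omega
      by_cases hbig : D ≤ 2 * m P
      · have h4 : ∑ i ∈ range (m P), exc m J (d - δ) P i * (i + s).choose s ≤
            δ * (4 * (s + 2) * δ * (d + s).choose s) := by
          refine (sum_le_sum hterm).trans ?_
          rw [← sum_filter, sum_const, smul_eq_mul]
          refine Nat.mul_le_mul_right _ ?_
          have h5 : (range (m P)).filter (fun i => m P ≤ i + δ ∧ D ≤ 2 * m P) ⊆
              Ico (m P - δ) (m P) := by
            intro i hi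
            rw [mem_filter, mem_range] at hi
            rw [mem_Ico]
            omega
          refine (card_le_card h5).trans ?_
          rw [Nat.card_Ico]
          omega
        calc D * ∑ i ∈ range (m P), exc m J (d - δ) P i * (i + s).choose s ≤
            (2 * m P) * (δ * (4 * (s + 2) * δ * (d + s).choose s)) := Nat.mul_le_mul hbig h4
          _ = _ := by ring
      · have h4 : ∑ i ∈ range (m P), exc m J (d - δ) P i * (i + s).choose s = 0 := by
          refine Nat.le_zero.1 ((sum_le_sum hterm).trans (le_of_eq ?_))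
          refine sum_eq_zero fun i _ => ?_
          rw [if_neg fun h => hbig h.2]
        rw [h4, mul_zero]
        exact Nat.zero_le _
    have hdN : d * (d + s).choose s ≤ (d + (s + 1)).choose (s + 1) * (s + 2) := by
      calc d * (d + s).choose s ≤ (d + (s + 1)) * (d + s).choose s :=
            Nat.mul_le_mul_right _ (by omega)
        _ = (d + (s + 1)).choose (s + 1) * (s + 1) := hN
        _ ≤ _ := Nat.mul_le_mul_left _ (by omega)
    calc D * ∑ P ∈ J, ∑ i ∈ range (m P), exc m J (d - δ) P i * (i + s).choose s =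
        ∑ P ∈ J, D * ∑ i ∈ range (m P), exc m J (d - δ) P i * (i + s).choose s := mul_sum _ _ _
      _ ≤ ∑ P ∈ J, 2 * m P * (4 * (s + 2) * δ ^ 2 * (d + s).choose s) := sum_le_sum hinner
      _ = (∑ P ∈ J, m P) * (8 * (s + 2) * δ ^ 2 * (d + s).choose s) := by
          rw [sum_mul]
          refine sum_congr rfl fun P _ => ?_
          ring
      _ ≤ ((s + 2) * d) * (8 * (s + 2) * δ ^ 2 * (d + s).choose s) :=
          Nat.mul_le_mul_right _ h2'
      _ = (8 * (s + 2) ^ 2 * δ ^ 2) * (d * (d + s).choose s) := by ring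
      _ ≤ (8 * (s + 2) ^ 2 * δ ^ 2) * ((d + (s + 1)).choose (s + 1) * (s + 2)) :=
          Nat.mul_le_mul_left _ hdN
      _ = _ := by ring
  · have h4 : ∑ i ∈ J, (m i + (s + 2) - 1).choose (s + 2) ≤
        ∑ P ∈ J, ∑ i ∈ range (m P), (i - exc m J (d - δ) P i + (s + 1)).choose (s + 1) +
        ∑ P ∈ J, ∑ i ∈ range (m P), exc m J (d - δ) P i * (i + s).choose s := by
      rw [← sum_add_distrib]
      refine sum_le_sum fun P hP => ?_
      rw [← hockey, ← sum_add_distrib]
      refine sum_le_sum fun i hi => ?_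
      rw [mem_range] at hi
      refine choose_drop s i _ ?_
      by_cases h0 : exc m J (d - δ) P i = 0
      · omega
      · have h4 := (hpos hP hi h0).1
        have h5 := hex hP hi
        have h6 : 4 * (s + 2) * δ + δ ≤ D := by nlinarith
        omega
    omega

end

end Pool.Agent.H74.CT

end
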