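import Pool.Agent.H94.LP1.H18.Ex.Frac
import Pool.Agent.H94.LP1.M05

/-! The parts of this file: H18.Tj.CntA, H18.Tj.Defs, H18.Tj.LensL, H18.Tj.LxA, H18.Tj.LxR, H18.Tj.LxL, H18.Tk.Defs. -/

section

/-!
# Module C1a (TJ): the numbers `c(σ, w) = (Rg σ w).card`

(`cnt_slow` is in CntS; `cnt_le_mul`, `mul_le_cnt`, `cnt_thin` are in CntL.)

`h` is a free coordinate (`σ ≤ w h`).
* `cnt_layer` (`y` any coordinate): count by the value of `a y`.
* `cnt_mono`: `a ↦ a + e_h` maps `Rg σ w` injectively to `Rg (σ + 1) w`.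
* `cnt_slow`: `C σ = c(σ, w)` is the number of the `β` (zero at `h`) with `β ≤ w`, `|β| ≤ σ`, and
  `C (σ' + 1) - C σ' = #{β : |β| = σ' + 1} =: p`; `(σ' + 1) p = ∑_β ∑_i β_i ≤ q C σ'`, since for a fixed `i` the map
  `(β, t) ↦ β - t e_i`, `1 ≤ t ≤ β_i`, is injective (`t = σ' + 1 - |γ|`) into `{γ : |γ| ≤ σ'}`.  So
  `(σ' + 1) (C (σ' + 1) - C σ') ≤ q C σ' ≤ q C σ`; sum over `σ' = σ - s, …, σ - 1`, with `σ' + 1 ≥ σ - s + 1`.
  (In terms of `Rg` without a special role of `h`: `c(σ' + 1, w) - c(σ', w) = #{a ∈ Rg (σ' + 1) w : a h = 0}`.)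
* `cnt_ge`: `card_ge` (module Frac).
* `cnt_le_mul`, `mul_le_cnt`: `cnt_layer` for `y = l`; all `c(σ - t, w') ≤ c(σ, w')`, resp. `c(σ - t, w') ≥ c(σ, w') / 2`
  for `t ≤ B` by `cnt_slow`.
* `cnt_thin`: the difference is the number of the `a ∈ Rg (σ + 1) w` with `a h = 0`; such an `a` is determined by its
  coordinates other than `h`, `c`, which are less than `θ`.
* `cnt_le_pow`: the exponents are determined by the coordinates other than `h` (`card_le_prod`).
-/

namespace Pool.Agent.H18.Tj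

open Finset Function Pool.Agent.H18.Ex

variable {ι : Type} [Fintype ι] [DecidableEq ι]

private theorem CntA_sum_update (a : ι → ℕ) (l : ι) (v : ℕ) :
    ∑ i, update a l v i + a l = ∑ i, a i + v := by
  have h1 : ∑ i, update a l v i = v + ∑ i ∈ univ.erase l, a i := by
    rw [sum_update_of_mem (mem_univ l), erase_eq]
  have h2 : ∑ i, a i = a l + ∑ i ∈ univ.erase l, a i := (add_sum_erase univ a (mem_univ l)).symm
  omega

omit [DecidableEq ι] in
private theorem CntA_le_sum (a : ι → ℕ) (l : ι) : a l ≤ ∑ i, a i :=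
  single_le_sum (f := a) (fun _ _ => Nat.zero_le _) (mem_univ l)

theorem cnt_succ (l : ι) (σ : ℕ) (w : ι → ℕ) (k : ℕ) :
    (Rg (σ + 1) (update w l (k + 1))).card =
      (Rg σ (update w l k)).card + (Rg (σ + 1) (update w l 0)).card := by
  have h1 : (Rg (σ + 1) (update w l 0)) =
      (Rg (σ + 1) (update w l (k + 1))).filter (fun x => x l < 1) := by
    have := Rg_update_eq (σ + 1) (update w l (k + 1)) l
    rwa [update_idem] at this
  have h2 : (Rg σ (update w l k)).card =
      ((Rg (σ + 1) (update w l (k + 1))).filter (fun x => ¬ x l < 1)).card := by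
    apply card_bij (fun a _ => update a l (a l + 1))
    · intro a ha
      rw [mem_Rg] at ha
      obtain ⟨ha1, ha2⟩ := ha
      rw [mem_filter, mem_Rg]
      refine ⟨⟨fun i => ?_, ?_⟩, ?_⟩
      · have h3 := ha1 i
        by_cases hi : i = l
        · rw [hi, update_self] at h3 ⊢
          rw [update_self]
          omega
        · rw [update_of_ne hi] at h3 ⊢
          rwa [update_of_ne hi]
      · have := CntA_sum_update a l (a l + 1)
        omega
      · rw [update_self]
        omega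
    · intro a _ b _ hab
      funext i
      by_cases hi : i = l
      · have h3 := congrFun hab l
        simp only [update_self] at h3
        rw [hi]
        omega
      · have h3 := congrFun hab i
        simp only [update_of_ne hi] at h3
        exact h3
    · intro b hb
      rw [mem_filter, mem_Rg] at hb
      obtain ⟨⟨hb1, hb2⟩, hb3⟩ := hb
      refine ⟨update b l (b l - 1), ?_, ?_⟩
      · rw [mem_Rg]
        refine ⟨fun i => ?_, ?_⟩
        · have h3 := hb1 i
          by_cases hi : i = l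
          · rw [hi, update_self] at h3 ⊢
            rw [update_self]
            omega
          · rw [update_of_ne hi] at h3 ⊢
            rwa [update_of_ne hi]
        · have := CntA_sum_update b l (b l - 1)
          omega
      · funext i
        by_cases hi : i = l
        · rw [hi, update_self, update_self]
          omega
        · rw [update_of_ne hi, update_of_ne hi]
  rw [h1, h2]
  have h3 := card_filter_add_card_filter_not (s := Rg (σ + 1) (update w l (k + 1)))
    (fun x : ι → ℕ => x l < 1)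
  omega

theorem cnt_layer (y : ι) (σ : ℕ) (w : ι → ℕ) :
    (Rg σ w).card = ∑ t ∈ (range (w y + 1)).filter (fun t => t ≤ σ),
      (Rg (σ - t) (update w y 0)).card := by
  rw [card_eq_sum_card_fiberwise (f := fun a : ι → ℕ => a y)
    (t := (range (w y + 1)).filter (fun t => t ≤ σ))]
  · refine sum_congr rfl fun t ht => ?_
    rw [mem_filter, mem_range] at ht
    apply card_bij (fun a _ => update a y 0)
    · intro a ha
      rw [mem_filter, mem_Rg] at ha
      obtain ⟨⟨ha1, ha2⟩, ha3⟩ := ha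
      rw [mem_Rg]
      refine ⟨fun i => ?_, ?_⟩
      · by_cases hi : i = y
        · rw [hi, update_self, update_self]
        · rw [update_of_ne hi, update_of_ne hi]
          exact ha1 i
      · have := CntA_sum_update a y 0
        have h3 : a y = t := ha3
        omega
    · intro a ha b hb hab
      rw [mem_filter] at ha hb
      have h3 : a y = t := ha.2
      have h4 : b y = t := hb.2
      funext i
      by_cases hi : i = y
      · rw [hi, h3, h4]
      · have h5 := congrFun hab i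
        simp only [update_of_ne hi] at h5
        exact h5
    · intro b hb
      rw [mem_Rg] at hb
      obtain ⟨hb1, hb2⟩ := hb
      have hby : b y = 0 := by
        have := hb1 y
        rw [update_self] at this
        omega
      refine ⟨update b y t, ?_, ?_⟩
      · rw [mem_filter, mem_Rg]
        refine ⟨⟨fun i => ?_, ?_⟩, ?_⟩
        · by_cases hi : i = y
          · rw [hi, update_self]
            omega
          · rw [update_of_ne hi]
            have := hb1 i
            rwa [update_of_ne hi] at this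
        · have := CntA_sum_update b y t
          omega
        · exact update_self y t b
      · rw [update_idem]
        funext i
        by_cases hi : i = y
        · rw [hi, update_self, hby]
        · rw [update_of_ne hi]
  · intro a ha
    rw [mem_coe, mem_Rg] at ha
    obtain ⟨ha1, ha2⟩ := ha
    rw [mem_coe, mem_filter, mem_range]
    have h1 := ha1 y
    have h2 := CntA_le_sum a y
    constructor
    · show a y < w y + 1
      omega
    · show a y ≤ σ
      omega

theorem cnt_mono {h : ι} {σ σ' : ℕ} {w : ι → ℕ} (hσ : σ ≤ σ') (hh : σ' ≤ w h) :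
    (Rg σ w).card ≤ (Rg σ' w).card := by
  apply card_le_card_of_injOn (fun a => update a h (a h + (σ' - σ)))
  · intro a ha
    rw [mem_coe, mem_Rg] at ha
    obtain ⟨ha1, ha2⟩ := ha
    rw [mem_coe, mem_Rg]
    have h1 := CntA_le_sum a h
    show (∀ i, update a h (a h + (σ' - σ)) i ≤ w i) ∧ ∑ i, update a h (a h + (σ' - σ)) i = σ'
    refine ⟨fun i => ?_, ?_⟩
    · by_cases hi : i = h
      · rw [hi, update_self]
        omega
      · rw [update_of_ne hi]
        exact ha1 i
    · have := CntA_sum_update a h (a h + (σ' - σ))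
      omega
  · intro a _ b _ hab
    funext i
    by_cases hi : i = h
    · have h3 := congrFun hab h
      simp only [update_self] at h3
      rw [hi]
      omega
    · have h3 := congrFun hab i
      simp only [update_of_ne hi] at h3
      exact h3

theorem cnt_le_pow {σ q : ℕ} {w : ι → ℕ} (hq : Fintype.card ι ≤ q) :
    (Rg σ w).card ≤ (σ + 1) ^ q := by
  have h1 : (Rg σ w).card ≤ (Fintype.piFinset fun _ : ι => range (σ + 1)).card := by
    apply card_le_card
    intro a ha
    rw [mem_Rg] at ha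
    rw [Fintype.mem_piFinset]
    intro i
    have := CntA_le_sum a i
    rw [mem_range]
    omega
  rw [Fintype.card_piFinset, prod_const, card_range, card_univ] at h1
  exact h1.trans (Nat.pow_le_pow_right (by omega) hq)

end Pool.Agent.H18.Tj

end

section

/-!
# Project TJ (MP_1dafdd_ag): definitions

`Lens`: the numbers of conditions imposed by points of multiplicity `m ≤ M` on the traces.
`Cf`: configurations of free points and points forced to one fixed hyperplane.
`SysL`: an abstract Horace system along one hyperplane (`R k` = size of the state `k`, `F k` = size of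
its trace).
`Lx w m`: the number of conditions imposed by a point of multiplicity `m` on the forms with
exponents at most `w`.  `NE`: near-exactness.
-/

namespace Pool.Agent.H18.Tj

open Finset Pool.Agent.H18.Ex

/-- Lengths of the traces of the points of multiplicity at most `M`. -/
structure Lens (M : ℕ) : Type where
  /-- the length of the trace of a point of multiplicity `m` -/
  lo : ℕ → ℕ
  lo_zero : lo 0 = 0
  lo_one : lo 1 = 1
  ratio : ∀ c, c + 1 ≤ M → (c + 1) * lo c ≤ c * lo (c + 1)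

/-- The length of a point of multiplicity `m`. -/
def Lens.hi {M : ℕ} (L : Lens M) (m : ℕ) : ℕ := ∑ i ∈ range m, L.lo (i + 1)

/-- A configuration: multiplicities (at least two) of the free points, number of the simple points,
forced conditions `(c, e)`. -/
structure Cf : Type where
  /-- multiplicities of the free points of multiplicity at least two -/
  N : Multiset ℕ
  /-- number of the free simple points -/
  s : ℕ
  /-- forced conditions -/
  Φ : Multiset (ℕ × ℕ)

/-- Validity. -/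
structure Cf.OK (M : ℕ) (c : Cf) : Prop where
  hN : ∀ m ∈ c.N, 2 ≤ m ∧ m ≤ M
  hΦ : ∀ x ∈ c.Φ, 1 ≤ x.2 ∧ x.2 ≤ 2 ∧ x.2 ≤ x.1 ∧ x.1 ≤ M

/-- Length of the traces of the forced conditions. -/
def trT {M : ℕ} (L : Lens M) (S : Multiset (ℕ × ℕ)) : ℕ := (S.map fun x => L.lo x.1).sum

/-- Length of the forced conditions. -/
def flT {M : ℕ} (L : Lens M) (S : Multiset (ℕ × ℕ)) : ℕ := (S.map fun x => L.hi x.1 + 1 - x.2).sum

/-- Length of the free points. -/
def Cf.nsz {M : ℕ} (L : Lens M) (c : Cf) : ℕ := (c.N.map L.hi).sum + c.s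

/-- Total length. -/
def Cf.sz {M : ℕ} (L : Lens M) (c : Cf) : ℕ := c.nsz L + flT L c.Φ

/-- The constant. -/
def cE {M : ℕ} (L : Lens M) : ℕ := 64 * M * (M + 1) * (L.lo M + 1) ^ 2 * (L.hi M + 1)

section

variable {ι : Type} [Fintype ι] [DecidableEq ι]

/-- The number of conditions imposed by a point of multiplicity `m` on the forms with exponents at
most `w` (`|b| = m - 1`, `b ≤ w`). -/
def Lx (w : ι → ℕ) (m : ℕ) : ℕ := if m = 0 then 0 else (Rg (m - 1) w).card

/-- Near-exactness: points of multiplicities at most `M` together with at least `x₀` simple points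
kill the forms as soon as the lengths suffice. -/
def NE (M x₀ σ : ℕ) (w : ι → ℕ) : Prop :=
  ∀ S : Multiset ℕ, (∀ m ∈ S, m ≤ M) → ∀ x : ℕ, x₀ ≤ x →
    (Rg σ w).card ≤ (S.map (Lx w)).sum + x →
    GM (Rg σ w) ((S + Multiset.replicate x 1).map Kind.free)

end

/-- A bound for `cE`. -/
def cQ (q M : ℕ) : ℕ := 64 * M * (M + 1) * (M ^ q + 1) ^ 2 * (M ^ (q + 1) + 1)

end Pool.Agent.H18.Tj

end

section

/-!
# Module M1 (TJ): properties of lengths

`ratioM`: from `(c + 1) lo c ≤ c lo (c + 1)` and `M c ≤ (M - 1) (c + 1)` for `c + 1 ≤ M` (multiply by `M`,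
divide by `c + 1`).  `trT_shf`, `flT_shf`, `flT_le`: as the private theorems `trS_shf`, `flS_shf` in
`Pool/Agent/H18/Ub/VPeel.lean` and `Cfg.fl_le` in `Pool/Agent/H18/Ex/Run.lean`, with `ell n` replaced by
`L.lo` and `ell (n + 1)` by `L.hi`.  `shf_iterate`: see `shf_iterate_eq_zero` (grep in `Pool/Agent/H18/Ex`).
-/

namespace Pool.Agent.H18.Tj

open Finset Pool.Agent.H18.Ex

variable {M : ℕ} (L : Lens M)

private theorem LensL_lo_succ {c : ℕ} (h : c + 1 ≤ M) : L.lo c ≤ L.lo (c + 1) := by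
  have h1 := L.ratio c h
  have h2 : c * L.lo (c + 1) ≤ (c + 1) * L.lo (c + 1) := Nat.mul_le_mul_right _ (Nat.le_succ c)
  exact Nat.le_of_mul_le_mul_left (le_trans h1 h2) (Nat.succ_pos c)

private theorem LensL_shf_zero : shf 0 = 0 := rfl

private theorem LensL_shf_cons (x : ℕ × ℕ) (S : Multiset (ℕ × ℕ)) :
    shf (x ::ₘ S) = if x.2 ≤ x.1 - 1 then (x.1 - 1, x.2) ::ₘ shf S else shf S := by
  unfold shf
  rw [Multiset.map_cons]
  by_cases h : x.2 ≤ x.1 - 1
  · rw [if_pos h]
    exact Multiset.filter_cons_of_pos (p := fun y : ℕ × ℕ => y.2 ≤ y.1) _ h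
  · rw [if_neg h]
    exact Multiset.filter_cons_of_neg (p := fun y : ℕ × ℕ => y.2 ≤ y.1) _ h

private theorem LensL_mem_shf {x : ℕ × ℕ} {S : Multiset (ℕ × ℕ)} (hx : x ∈ shf S) :
    ∃ y ∈ S, x = (y.1 - 1, y.2) ∧ y.2 ≤ y.1 - 1 := by
  unfold shf at hx
  rw [Multiset.mem_filter, Multiset.mem_map] at hx
  obtain ⟨⟨y, hy, rfl⟩, h⟩ := hx
  exact ⟨y, hy, rfl, h⟩

theorem Lens.lo_mono {m m' : ℕ} (h : m ≤ m') (h2 : m' ≤ M) : L.lo m ≤ L.lo m' := by
  induction m', h using Nat.le_induction with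
  | base => exact le_rfl
  | succ n hmn ih => exact le_trans (ih (by omega)) (LensL_lo_succ L h2)

theorem Lens.lo_pos {m : ℕ} (h1 : 1 ≤ m) (h2 : m ≤ M) : 1 ≤ L.lo m := by
  have h3 := L.lo_mono h1 h2
  rw [L.lo_one] at h3
  exact h3

theorem Lens.ratioM {c : ℕ} (h : c + 1 ≤ M) : M * L.lo c ≤ (M - 1) * L.lo (c + 1) := by
  have h1 := L.ratio c h
  have h2 : M * c ≤ (M - 1) * (c + 1) := by
    obtain ⟨k, rfl⟩ : ∃ k, M = k + 1 := ⟨M - 1, by omega⟩
    rw [Nat.add_sub_cancel]
    have : c ≤ k := by omega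
    nlinarith
  have h3 : (c + 1) * (M * L.lo c) ≤ (c + 1) * ((M - 1) * L.lo (c + 1)) := by
    calc (c + 1) * (M * L.lo c) = M * ((c + 1) * L.lo c) := by ring
      _ ≤ M * (c * L.lo (c + 1)) := Nat.mul_le_mul_left _ h1
      _ = M * c * L.lo (c + 1) := by ring
      _ ≤ (M - 1) * (c + 1) * L.lo (c + 1) := Nat.mul_le_mul_right _ h2
      _ = (c + 1) * ((M - 1) * L.lo (c + 1)) := by ring
  exact Nat.le_of_mul_le_mul_left h3 (Nat.succ_pos c)

theorem Lens.hi_zero : L.hi 0 = 0 := by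
  unfold Lens.hi
  simp

theorem Lens.hi_succ (m : ℕ) : L.hi (m + 1) = L.hi m + L.lo (m + 1) := by
  unfold Lens.hi
  rw [Finset.sum_range_succ]

theorem Lens.hi_one : L.hi 1 = 1 := by
  rw [L.hi_succ 0, L.hi_zero, zero_add, zero_add, L.lo_one]

theorem Lens.hi_mono {m m' : ℕ} (h : m ≤ m') : L.hi m ≤ L.hi m' := by
  induction m', h using Nat.le_induction with
  | base => exact le_rfl
  | succ n _ ih =>
    rw [L.hi_succ]
    exact le_trans ih (Nat.le_add_right _ _)

theorem Lens.hi_pos {m : ℕ} (h : 1 ≤ m) : 1 ≤ L.hi m := by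
  have h1 := L.hi_mono h
  rw [L.hi_one] at h1
  exact h1

theorem Lens.lo_le_hi (m : ℕ) : L.lo m ≤ L.hi m := by
  cases m with
  | zero => rw [L.lo_zero]; exact Nat.zero_le _
  | succ k =>
    rw [L.hi_succ]
    exact Nat.le_add_left _ _

theorem Lens.hi_le {m : ℕ} (h : m ≤ M) : L.hi m ≤ m * L.lo m := by
  unfold Lens.hi
  calc ∑ i ∈ range m, L.lo (i + 1) ≤ ∑ i ∈ range m, L.lo m := by
        refine Finset.sum_le_sum fun i hi => ?_
        have h1 := Finset.mem_range.1 hi
        exact L.lo_mono (by omega) h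
    _ = m * L.lo m := by rw [Finset.sum_const, Finset.card_range, smul_eq_mul]

theorem trT_add (S T : Multiset (ℕ × ℕ)) : trT L (S + T) = trT L S + trT L T := by
  unfold trT
  rw [Multiset.map_add, Multiset.sum_add]

theorem flT_add (S T : Multiset (ℕ × ℕ)) : flT L (S + T) = flT L S + flT L T := by
  unfold flT
  rw [Multiset.map_add, Multiset.sum_add]

private theorem LensL_trT_cons (x : ℕ × ℕ) (S : Multiset (ℕ × ℕ)) :
    trT L (x ::ₘ S) = L.lo x.1 + trT L S := by
  unfold trT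
  rw [Multiset.map_cons, Multiset.sum_cons]

private theorem LensL_flT_cons (x : ℕ × ℕ) (S : Multiset (ℕ × ℕ)) :
    flT L (x ::ₘ S) = (L.hi x.1 + 1 - x.2) + flT L S := by
  unfold flT
  rw [Multiset.map_cons, Multiset.sum_cons]

theorem trT_shf (S : Multiset (ℕ × ℕ)) (hS : ∀ x ∈ S, 1 ≤ x.2 ∧ x.2 ≤ 2 ∧ x.2 ≤ x.1 ∧ x.1 ≤ M) :
    M * trT L (shf S) ≤ (M - 1) * trT L S := by
  induction S using Multiset.induction_on with
  | empty => simp [LensL_shf_zero, trT]
  | cons x S ih =>
    have ih' := ih fun y hy => hS y (Multiset.mem_cons_of_mem hy)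
    have hx := hS x (Multiset.mem_cons_self x S)
    rw [LensL_shf_cons, LensL_trT_cons]
    by_cases h : x.2 ≤ x.1 - 1
    · rw [if_pos h, LensL_trT_cons]
      have h3 := L.ratioM (c := x.1 - 1) (by omega)
      have h4 : x.1 - 1 + 1 = x.1 := by omega
      rw [h4] at h3
      rw [Nat.mul_add, Nat.mul_add]
      exact Nat.add_le_add h3 ih'
    · rw [if_neg h, Nat.mul_add]
      exact le_trans ih' (Nat.le_add_left _ _)

theorem flT_shf (S : Multiset (ℕ × ℕ)) (hS : ∀ x ∈ S, 1 ≤ x.2 ∧ x.2 ≤ 2 ∧ x.2 ≤ x.1 ∧ x.1 ≤ M) :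
    flT L S = flT L (shf S) + trT L S := by
  induction S using Multiset.induction_on with
  | empty => simp [LensL_shf_zero, trT, flT]
  | cons x S ih =>
    have ih' := ih fun y hy => hS y (Multiset.mem_cons_of_mem hy)
    obtain ⟨hx1, hx2, hx3, hx4⟩ := hS x (Multiset.mem_cons_self x S)
    have h5 := L.hi_succ (x.1 - 1)
    have h4 : x.1 - 1 + 1 = x.1 := by omega
    rw [h4] at h5
    have h6 := L.lo_pos (m := x.1) (by omega) hx4
    rw [LensL_shf_cons, LensL_trT_cons, LensL_flT_cons, ih']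
    by_cases h : x.2 ≤ x.1 - 1
    · rw [if_pos h, LensL_flT_cons]
      have h7 := L.hi_pos (m := x.1 - 1) (by omega)
      change L.hi x.1 + 1 - x.2 + (flT L (shf S) + trT L S) =
        L.hi (x.1 - 1) + 1 - x.2 + flT L (shf S) + (L.lo x.1 + trT L S)
      omega
    · rw [if_neg h]
      have h8 : L.hi (x.1 - 1) = x.2 - 1 := by
        have h9 : x.1 = x.2 := by omega
        rw [h9]
        have h10 : x.2 = 1 ∨ x.2 = 2 := by omega
        rcases h10 with h10 | h10
        · rw [h10]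
          exact L.hi_zero
        · rw [h10]
          exact L.hi_one
      omega

theorem flT_le (S : Multiset (ℕ × ℕ)) (hS : ∀ x ∈ S, 1 ≤ x.2 ∧ x.2 ≤ 2 ∧ x.2 ≤ x.1 ∧ x.1 ≤ M) :
    flT L S ≤ M * trT L S := by
  induction S using Multiset.induction_on with
  | empty => simp [trT, flT]
  | cons x S ih =>
    have ih' := ih fun y hy => hS y (Multiset.mem_cons_of_mem hy)
    obtain ⟨hx1, hx2, hx3, hx4⟩ := hS x (Multiset.mem_cons_self x S)
    rw [LensL_trT_cons, LensL_flT_cons, Nat.mul_add]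
    refine Nat.add_le_add ?_ ih'
    have h1 := L.hi_le hx4
    have h2 : x.1 * L.lo x.1 ≤ M * L.lo x.1 := Nat.mul_le_mul_right _ hx4
    omega

theorem shf_ok {S : Multiset (ℕ × ℕ)} (hS : ∀ x ∈ S, 1 ≤ x.2 ∧ x.2 ≤ 2 ∧ x.2 ≤ x.1 ∧ x.1 ≤ M) :
    ∀ x ∈ shf S, 1 ≤ x.2 ∧ x.2 ≤ 2 ∧ x.2 ≤ x.1 ∧ x.1 ≤ M := by
  intro x hx
  obtain ⟨y, hy, rfl, h⟩ := LensL_mem_shf hx
  obtain ⟨h1, h2, h3, h4⟩ := hS y hy
  refine ⟨h1, h2, h, ?_⟩
  change y.1 - 1 ≤ M
  omega

private theorem LensL_shf_iterate {S : Multiset (ℕ × ℕ)}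
    (hS : ∀ x ∈ S, 1 ≤ x.2 ∧ x.2 ≤ 2 ∧ x.2 ≤ x.1 ∧ x.1 ≤ M) (k : ℕ) :
    ∀ x ∈ shf^[k] S, 1 ≤ x.2 ∧ x.2 ≤ x.1 ∧ x.1 + k ≤ M := by
  induction k with
  | zero =>
    intro x hx
    have h := hS x hx
    exact ⟨h.1, h.2.2.1, h.2.2.2⟩
  | succ k ih =>
    intro x hx
    rw [Function.iterate_succ_apply'] at hx
    obtain ⟨y, hy, rfl, h⟩ := LensL_mem_shf hx
    obtain ⟨h1, h2, h3⟩ := ih y hy
    refine ⟨h1, h, ?_⟩
    change y.1 - 1 + (k + 1) ≤ M
    omega

theorem shf_iterate {S : Multiset (ℕ × ℕ)}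
    (hS : ∀ x ∈ S, 1 ≤ x.2 ∧ x.2 ≤ 2 ∧ x.2 ≤ x.1 ∧ x.1 ≤ M) : shf^[M] S = 0 := by
  rw [Multiset.eq_zero_iff_forall_notMem]
  intro x hx
  obtain ⟨h1, h2, h3⟩ := LensL_shf_iterate hS M x hx
  omega

end Pool.Agent.H18.Tj

end

section

/-!
# Module C2a (TJ): the numbers `Lx w m`

(`Lx_ratio`, `Lx_convex` are in LxR.)
* `Lx_layer`: `cnt_layer` (for `m ≥ 1`; the terms with `t ≥ m` are `Lx _ 0 = 0`).
* `Lx_sum`: `Lx_layer` with `w l + 1 ≥ m`: `∑_{t < m} Lx w' (m - t)`, reflect the sum.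
* `Lx_ratio` (`h`, `c` both of width `≥ M`): with `p_j` the number of the `γ ≤ w`, `γ_h = γ_c = 0`, `|γ| = j`:
  `Lx w m = ∑_{j < m} (m - j) p_j` for `m ≤ M + 1`; `(m + 1) (m - j) ≤ m (m + 1 - j)`.  (Alternatively: double
  counting; or apply `Lx_layer` twice: `Lx w m = ∑_{t < m} ∑_{s < m - t} Lx w'' (m - t - s)`.)
* `Lx_mono`, `Lx_convex` (same hypotheses): `Lx w (m + 1) - Lx w m = #{b : b h = 0, |b| = m, b ≤ w} =: g_m` for
  `m ≤ M`, and `g_m ≤ g_{m+1}` for `m + 1 ≤ M` by `b ↦ b + e_c`.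
* `Lx_two`: only `h`, `c` are active.
-/

namespace Pool.Agent.H18.Tj

open Finset Function Pool.Agent.H18.Ex

variable {ι : Type} [Fintype ι] [DecidableEq ι]

theorem Lx_zero (w : ι → ℕ) : Lx w 0 = 0 := by
  simp [Lx]

private lemma LxA_succ (w : ι → ℕ) (k : ℕ) : Lx w (k + 1) = (Rg k w).card := by
  simp [Lx]

theorem Lx_one (w : ι → ℕ) : Lx w 1 = 1 := by
  rw [show (1 : ℕ) = 0 + 1 from rfl, LxA_succ, Finset.card_eq_one]
  refine ⟨fun _ => 0, ?_⟩
  ext a
  rw [mem_Rg, mem_singleton]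
  constructor
  · rintro ⟨-, h⟩
    funext i
    exact (Finset.sum_eq_zero_iff.mp h) i (mem_univ i)
  · rintro rfl
    exact ⟨fun i => Nat.zero_le _, by simp⟩

theorem Lx_layer (y : ι) (w : ι → ℕ) (m : ℕ) :
    Lx w m = ∑ t ∈ range (w y + 1), Lx (update w y 0) (m - t) := by
  rcases m with _ | k
  · rw [Lx_zero]
    symm
    apply Finset.sum_eq_zero
    intro t _
    rw [Nat.zero_sub, Lx_zero]
  · rw [LxA_succ, cnt_layer y k w, Finset.sum_filter]
    apply Finset.sum_congr rfl
    intro t _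
    split_ifs with h
    · rw [show k + 1 - t = (k - t) + 1 by omega, LxA_succ]
    · rw [show k + 1 - t = 0 by omega, Lx_zero]

theorem Lx_sum (l : ι) (w : ι → ℕ) (m : ℕ) (hm : m ≤ w l + 1) :
    ∑ i ∈ range m, Lx (update w l 0) (i + 1) = Lx w m := by
  rw [Lx_layer l w m, ← Finset.sum_range_reflect]
  have h1 : ∑ t ∈ range (w l + 1), Lx (update w l 0) (m - t) =
      ∑ t ∈ range m, Lx (update w l 0) (m - t) := by
    symm
    apply Finset.sum_subset
    · intro t ht
      rw [mem_range] at ht ⊢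
      omega
    · intro t _ ht
      rw [mem_range, not_lt] at ht
      rw [show m - t = 0 by omega, Lx_zero]
  rw [h1]
  apply Finset.sum_congr rfl
  intro t ht
  rw [mem_range] at ht
  congr 1
  omega

theorem Lx_mono {h : ι} {w : ι → ℕ} {M m m' : ℕ} (hh : M ≤ w h) (hm : m ≤ m') (hM : m' ≤ M) :
    Lx w m ≤ Lx w m' := by
  rcases m with _ | k
  · rw [Lx_zero]
    exact Nat.zero_le _
  · obtain ⟨k', rfl⟩ : ∃ k', m' = k' + 1 := ⟨m' - 1, by omega⟩
    rw [LxA_succ, LxA_succ]
    exact cnt_mono (h := h) (by omega) (by omega)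

theorem Lx_le_pow {w : ι → ℕ} {q M m : ℕ} (hq : Fintype.card ι ≤ q) (hι : Nonempty ι)
    (hm : m ≤ M) (hM : 1 ≤ M) : Lx w m ≤ M ^ q := by
  rcases m with _ | k
  · rw [Lx_zero]
    exact Nat.zero_le _
  · rw [LxA_succ]
    exact (cnt_le_pow hq).trans (Nat.pow_le_pow_left hm q)

private lemma LxA_single {h : ι} {w : ι → ℕ} (h0 : ∀ i, i ≠ h → w i = 0) {k : ℕ}
    (hh : k ≤ w h) : (Rg k w).card = 1 := by
  rw [Finset.card_eq_one]
  refine ⟨update (fun _ => 0) h k, ?_⟩
  ext a
  rw [mem_Rg, mem_singleton]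
  constructor
  · rintro ⟨ha, hs⟩
    have hz : ∀ i, i ≠ h → a i = 0 := fun i hi => Nat.le_zero.mp (h0 i hi ▸ ha i)
    have hs' : ∑ i, a i = a h := Finset.sum_eq_single h (fun i _ hi => hz i hi)
      (fun hn => absurd (mem_univ h) hn)
    funext i
    by_cases hi : i = h
    · subst hi
      rw [update_self, ← hs', hs]
    · rw [update_of_ne hi, hz i hi]
  · rintro rfl
    constructor
    · intro i
      by_cases hi : i = h
      · subst hi
        rw [update_self]
        exact hh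
      · rw [update_of_ne hi]
        exact Nat.zero_le _
    · rw [Finset.sum_eq_single h (fun i _ hi => update_of_ne hi _ _)
        (fun hn => absurd (mem_univ h) hn), update_self]

theorem Lx_two {h c : ι} (hhc : h ≠ c) {w : ι → ℕ} (h0 : ∀ i, i ≠ h → i ≠ c → w i = 0) {m : ℕ}
    (hh : m ≤ w h) (hc : m ≤ w c) : Lx w m = m := by
  rcases m with _ | k
  · exact Lx_zero w
  · have key : ∀ t ∈ range (w c + 1), Lx (update w c 0) (k + 1 - t) =
        if t < k + 1 then 1 else 0 := by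
      intro t _
      split_ifs with ht
      · rw [show k + 1 - t = (k - t) + 1 by omega, LxA_succ]
        apply LxA_single (h := h)
        · intro i hi
          by_cases hic : i = c
          · subst hic
            rw [update_self]
          · rw [update_of_ne hic]
            exact h0 i hi hic
        · rw [update_of_ne hhc]
          omega
      · rw [show k + 1 - t = 0 by omega, Lx_zero]
    rw [Lx_layer c w (k + 1), Finset.sum_congr rfl key, ← Finset.sum_filter,
      Finset.sum_const, smul_eq_mul, mul_one]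
    have : (range (w c + 1)).filter (fun t => t < k + 1) = range (k + 1) := by
      ext t
      rw [mem_filter, mem_range, mem_range]
      omega
    rw [this, card_range]

end Pool.Agent.H18.Tj

end

section

/-!
# Module C2b (TJ): the numbers `Lx w m`

* `Lx_layer`: `cnt_layer` (for `m ≥ 1`; the terms with `t ≥ m` are `Lx _ 0 = 0`).
* `Lx_sum`: `Lx_layer` with `w l + 1 ≥ m`: `∑_{t < m} Lx w' (m - t)`, reflect the sum.
* `Lx_ratio` (`h`, `c` both of width `≥ M`): with `p_j` the number of the `γ ≤ w`, `γ_h = γ_c = 0`, `|γ| = j`: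
  `Lx w m = ∑_{j < m} (m - j) p_j` for `m ≤ M + 1`; `(m + 1) (m - j) ≤ m (m + 1 - j)`.  (Alternatively: double
  counting; or apply `Lx_layer` twice: `Lx w m = ∑_{t < m} ∑_{s < m - t} Lx w'' (m - t - s)`.)
* `Lx_mono`, `Lx_convex` (same hypotheses): `Lx w (m + 1) - Lx w m = #{b : b h = 0, |b| = m, b ≤ w} =: g_m` for
  `m ≤ M`, and `g_m ≤ g_{m+1}` for `m + 1 ≤ M` by `b ↦ b + e_c`.
* `Lx_two`: only `h`, `c` are active.
-/

namespace Pool.Agent.H18.Tj

open Finset Function Pool.Agent.H18.Ex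

variable {ι : Type} [Fintype ι] [DecidableEq ι]

private theorem LxR_sum {h : ι} {w : ι → ℕ} {M : ℕ} (hh : M ≤ w h) (m : ℕ) (hm : m ≤ M) :
    Lx w m = ∑ i ∈ range m, Lx (update w h 0) (i + 1) :=
  (Lx_sum h w m (by omega)).symm

private theorem LxR_mono {h c : ι} (hhc : h ≠ c) {w : ι → ℕ} {M : ℕ} (hc : M ≤ w c) {m m' : ℕ}
    (hm : m ≤ m') (hM : m' ≤ M) : Lx (update w h 0) m ≤ Lx (update w h 0) m' := by
  apply Lx_mono (h := c) (M := M) _ hm hM
  rw [update_of_ne (Ne.symm hhc)]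
  exact hc

theorem Lx_ratio {h c : ι} (hhc : h ≠ c) {w : ι → ℕ} {M : ℕ} (hh : M ≤ w h) (hc : M ≤ w c)
    (m : ℕ) (hm : m + 1 ≤ M) : (m + 1) * Lx w m ≤ m * Lx w (m + 1) := by
  have h1 := LxR_sum hh m (by omega)
  have h2 := LxR_sum hh (m + 1) hm
  rw [sum_range_succ, ← h1] at h2
  have h3 : Lx w m ≤ m * Lx (update w h 0) (m + 1) := by
    rw [h1]
    calc ∑ i ∈ range m, Lx (update w h 0) (i + 1)
        ≤ ∑ _i ∈ range m, Lx (update w h 0) (m + 1) := by
          apply sum_le_sum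
          intro i hi
          rw [mem_range] at hi
          exact LxR_mono hhc hc (by omega) hm
      _ = m * Lx (update w h 0) (m + 1) := by
          rw [sum_const, card_range, smul_eq_mul]
  rw [h2, Nat.mul_add, Nat.add_mul, Nat.one_mul]
  omega

theorem Lx_convex {h c : ι} (hhc : h ≠ c) {w : ι → ℕ} {M : ℕ} (hh : M ≤ w h) (hc : M ≤ w c)
    (m : ℕ) (hm : m + 2 ≤ M) : 2 * Lx w (m + 1) ≤ Lx w m + Lx w (m + 2) := by
  have h1 := LxR_sum hh m (by omega)
  have h2 := LxR_sum hh (m + 1) (by omega)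
  have h3 := LxR_sum hh (m + 1 + 1) (by omega)
  rw [sum_range_succ, ← h1] at h2
  rw [sum_range_succ, sum_range_succ, ← h1] at h3
  have h4 : Lx (update w h 0) (m + 1) ≤ Lx (update w h 0) (m + 1 + 1) :=
    LxR_mono hhc hc (by omega) hm
  have h5 : Lx w (m + 2) = Lx w (m + 1 + 1) := rfl
  omega

end Pool.Agent.H18.Tj

end

section

/-!
# Module C2c (TJ), the lens: the numbers `Lx w m`

* `Lx_layer`: `cnt_layer` (for `m ≥ 1`; the terms with `t ≥ m` are `Lx _ 0 = 0`).
* `Lx_sum`: `Lx_layer` with `w l + 1 ≥ m`: `∑_{t < m} Lx w' (m - t)`, reflect the sum.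
* `Lx_ratio` (`h`, `c` both of width `≥ M`): with `p_j` the number of the `γ ≤ w`, `γ_h = γ_c = 0`, `|γ| = j`:
  `Lx w m = ∑_{j < m} (m - j) p_j` for `m ≤ M + 1`; `(m + 1) (m - j) ≤ m (m + 1 - j)`.  (Alternatively: double
  counting; or apply `Lx_layer` twice: `Lx w m = ∑_{t < m} ∑_{s < m - t} Lx w'' (m - t - s)`.)
* `Lx_mono`, `Lx_convex` (same hypotheses): `Lx w (m + 1) - Lx w m = #{b : b h = 0, |b| = m, b ≤ w} =: g_m` for
  `m ≤ M`, and `g_m ≤ g_{m+1}` for `m + 1 ≤ M` by `b ↦ b + e_c`.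
* `Lx_two`: only `h`, `c` are active.
-/

namespace Pool.Agent.H18.Tj

open Finset Function Pool.Agent.H18.Ex

variable {ι : Type} [Fintype ι] [DecidableEq ι]

/-- The lengths of the traces. -/
noncomputable def lensOf (M : ℕ) (w : ι → ℕ) (h c : ι) (hhc : h ≠ c) (hh : M ≤ w h)
    (hc : M ≤ w c) : Lens M where
  lo := Lx w
  lo_zero := Lx_zero w
  lo_one := Lx_one w
  ratio := fun m hm => Lx_ratio hhc hh hc m hm

private theorem LxL_le {q M : ℕ} (hM : 1 ≤ M) (hq : Fintype.card ι ≤ q) (w : ι → ℕ) {m : ℕ}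
    (hm : m ≤ M) : Lx w m ≤ M ^ q := by
  unfold Lx
  split_ifs with h0
  · exact Nat.zero_le _
  · have h1 : Rg (m - 1) w ⊆ Fintype.piFinset fun _ : ι => range M := by
      intro a ha
      rw [mem_Rg] at ha
      rw [Fintype.mem_piFinset]
      intro i
      have h2 : a i ≤ ∑ j, a j := Finset.single_le_sum (fun j _ => Nat.zero_le (a j)) (mem_univ i)
      have := ha.2
      rw [mem_range]
      omega
    calc (Rg (m - 1) w).card ≤ (Fintype.piFinset fun _ : ι => range M).card := card_le_card h1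
      _ = M ^ Fintype.card ι := by
        rw [Fintype.card_piFinset, prod_const, card_range, card_univ]
      _ ≤ M ^ q := Nat.pow_le_pow_right hM hq

/-- The constant `cE` is at most `cQ`. -/
theorem cE_le {q M : ℕ} (hM : 1 ≤ M) (hq : Fintype.card ι ≤ q) (w : ι → ℕ) (h c : ι) (hhc : h ≠ c)
    (hh : M ≤ w h) (hc : M ≤ w c) : cE (lensOf M w h c hhc hh hc) ≤ cQ q M := by
  have h1 : Lx w M ≤ M ^ q := LxL_le hM hq w le_rfl
  have h2 : ∑ i ∈ range M, Lx w (i + 1) ≤ M ^ (q + 1) := by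
    calc ∑ i ∈ range M, Lx w (i + 1) ≤ ∑ _i ∈ range M, M ^ q :=
          sum_le_sum fun i hi => LxL_le hM hq w (mem_range.1 hi)
      _ = M ^ (q + 1) := by
        rw [sum_const, card_range, smul_eq_mul, pow_succ, mul_comm]
  change 64 * M * (M + 1) * (Lx w M + 1) ^ 2 * (∑ i ∈ range M, Lx w (i + 1) + 1) ≤
    64 * M * (M + 1) * (M ^ q + 1) ^ 2 * (M ^ (q + 1) + 1)
  gcongr

end Pool.Agent.H18.Tj

end

section

/-!
# Project TK (MP_1dafdd_ag): definitions

The states of a Horace system are numbered from below along one path: the step from the state `k + 1` to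
the state `k` is along the hyperplane `dir (k + 1)`.  Everything else is as in project TJ
(`Pool/Agent/H18/Tj`), whose `Lens`, `trT`, `flT`, `cE`, `Lx`, `NE` are used.

`wS δ dir w₀ j`: the widths of the state `j` of the concrete system: `w₀` plus, for every coordinate, the number of the
steps along it below the state `j`; its degree is `σ₀ + j`.
`hS l j`: the size of the trace of the state `j` on `x_{δ l} = 0`.  `pS l j = hS l i` for the largest `i ≤ j` with
`dir i = l` (`0` if there is none): the size of the trace at the next step along `l`.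
-/

namespace Pool.Agent.H18.Tk

open Finset Function Pool.Agent.H18.Ex Pool.Agent.H18.Tj

section

variable {Λ : Type} [Fintype Λ]

/-- Length of the free points. -/
def nszP {M : ℕ} (L : Lens M) (c : Cfg Λ) : ℕ := (c.N.map L.hi).sum + c.s

/-- Total length. -/
def szP {M : ℕ} (L : Lens M) (c : Cfg Λ) : ℕ := nszP L c + ∑ l, flT L (c.Φ l)

end

/-- An abstract Horace system along a path. -/
structure SysP (Λ : Type) [DecidableEq Λ] : Type where
  /-- the configuration kills the space of the state `k` -/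
  K : ℕ → Cfg Λ → Prop
  /-- the direction of the step from the state `k` to the state `k - 1` -/
  dir : ℕ → Λ
  /-- the size of the trace in this direction -/
  F : ℕ → ℕ
  /-- the size -/
  R : ℕ → ℕ
  /-- the points with multiplicities `S` kill the trace -/
  tr : ℕ → Multiset ℕ → Prop
  mono : ∀ (k : ℕ) (c c' : Cfg Λ), c.N ≤ c'.N → c.s ≤ c'.s → (∀ l, c.Φ l ≤ c'.Φ l) →
    K k c → K k c'
  one : ∀ (k : ℕ) (N : Multiset ℕ) (s : ℕ) (Φ : Λ → Multiset (ℕ × ℕ)), K k ⟨N, s + 1, Φ⟩ →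
    K k ⟨1 ::ₘ N, s, Φ⟩
  count : ∀ k, R (k + 1) = R k + F (k + 1)
  step : ∀ (k : ℕ) (N I : Multiset ℕ) (μ t s u : ℕ) (Φ : Λ → Multiset (ℕ × ℕ)), 1 ≤ μ →
    (∀ x ∈ Φ (dir (k + 1)), x.2 ≤ x.1) →
    tr (k + 1) ((Φ (dir (k + 1))).map Prod.fst + I + Multiset.replicate (t + u) 1) →
    K k ⟨N, s, update Φ (dir (k + 1)) (shf (Φ (dir (k + 1))) + I.map (fun m => (m - 1, 1)) +
      Multiset.replicate t (μ, 2))⟩ →
    K (k + 1) ⟨N + I + Multiset.replicate t μ, s + u, Φ⟩
  bridge : ∀ (k : ℕ) (N : Multiset ℕ) (s s₀ : ℕ) (Φ : Λ → Multiset (ℕ × ℕ)),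
    K (k + 1) ⟨N, s + s₀, Φ⟩ →
    K k ⟨N, s, update Φ (dir (k + 1)) (shf (Φ (dir (k + 1))))⟩ →
    K (k + 1) ⟨N, s, update Φ (dir (k + 1)) (Φ (dir (k + 1)) + Multiset.replicate s₀ (1, 1))⟩
  full : ∀ (k : ℕ) (N : Multiset ℕ) (s : ℕ) (Φ : Λ → Multiset (ℕ × ℕ)), (∀ m ∈ N, 1 ≤ m) →
    R k ≤ N.card + s → K k ⟨N, s, Φ⟩

/-- The number of the steps along `l` below the state `j`. -/
def ct {Λ : Type} [DecidableEq Λ] (dir : ℕ → Λ) (l : Λ) (j : ℕ) : ℕ :=
  ((range j).filter fun i => dir (i + 1) = l).card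

section

variable {Λ : Type} [Fintype Λ] [DecidableEq Λ]

/-- The trace of the state `k` is killed by points of multiplicity at most `M` and at least `w` simple
points as soon as the lengths suffice. -/
def GxP {M : ℕ} (L : Lens M) (Y : SysP Λ) (w k : ℕ) : Prop :=
  ∀ S : Multiset ℕ, (∀ m ∈ S, m ≤ M) → ∀ x : ℕ, w ≤ x → Y.F k ≤ (S.map L.lo).sum + x →
    Y.tr k (S + Multiset.replicate x 1)

/-- The numerical properties of the states `0, …, kt`; `P l k` bounds the trace at the next step along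
`l`. -/
structure NumP {M : ℕ} (L : Lens M) (Y : SysP Λ) (E kt : ℕ) (P : Λ → ℕ → ℕ) : Prop where
  hM : 1 ≤ M
  hΛ : Fintype.card Λ ≤ 2
  hE : 2 * cE L ≤ E
  floor : ∀ l k, k ≤ kt → cE L ≤ P l k
  low : ∀ l k, k ≤ kt → E * P l k ≤ Y.R k
  top : ∀ k, k + 1 ≤ kt → P (Y.dir (k + 1)) (k + 1) = Y.F (k + 1)
  keep : ∀ l k, k + 1 ≤ kt → l ≠ Y.dir (k + 1) → P l (k + 1) ≤ P l k
  slow : ∀ k, k + 1 ≤ kt → E * Y.F (k + 1) ≤ E * P (Y.dir (k + 1)) k + Y.F (k + 1)
  gd : ∀ k, k + 1 ≤ kt → GxP L Y (Y.F (k + 1) / E + 1) (k + 1)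

/-- The forced conditions are bounded. -/
def InvP {M : ℕ} (L : Lens M) (P : Λ → ℕ → ℕ) (k : ℕ) (c : Cfg Λ) : Prop :=
  ∀ l, 2 * M * trT L (c.Φ l) ≤ (2 * M - 1) * P l k

end

/-! ### The concrete system -/

section

variable {Λ : Type} [DecidableEq Λ] {ι : Type} [DecidableEq ι]

/-- The widths of the state `j`. -/
def wS (δ : Λ → ι) (dir : ℕ → Λ) (w₀ : ι → ℕ) (j : ℕ) : ι → ℕ :=
  fun i => w₀ i + ((range j).filter fun t => δ (dir (t + 1)) = i).card

variable [Fintype ι]

/-- The size of the trace of the state `j` on `x_{δ l} = 0`. -/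
def hS (δ : Λ → ι) (dir : ℕ → Λ) (σ₀ : ℕ) (w₀ : ι → ℕ) (l : Λ) (j : ℕ) : ℕ :=
  (Rg (σ₀ + j) (update (wS δ dir w₀ j) (δ l) 0)).card

/-- The size of the trace at the next step along `l`. -/
def pS (δ : Λ → ι) (dir : ℕ → Λ) (σ₀ : ℕ) (w₀ : ι → ℕ) (l : Λ) : ℕ → ℕ
  | 0 => hS δ dir σ₀ w₀ l 0
  | j + 1 => if dir (j + 1) = l then hS δ dir σ₀ w₀ l (j + 1) else pS δ dir σ₀ w₀ l j

/-- The conditions of a configuration. -/
def kindsS [Fintype Λ] (δ : Λ → ι) (c : Cfg Λ) : Multiset (Kind ι) :=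
  c.N.map Kind.free + Multiset.replicate c.s (Kind.free 1) +
    ∑ l, (c.Φ l).map fun x => Kind.forced (δ l) x.1 x.2

/-- Near-exactness of all regions with the widths `w`. -/
def NEr (M E D : ℕ) (w : ι → ℕ) : Prop :=
  ∀ σ, D ≤ σ → σ + D ≤ ∑ i, w i → ∀ x₀, (Rg σ w).card ≤ E * x₀ → NE M x₀ σ w

end

end Pool.Agent.H18.Tk

end
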