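import Pool.Agent.H94.LP1.M06
import Pool.Agent.H94.LP1.M08
import Pool.Agent.H94.LP1.M20
import Pool.Agent.H94.LP1.M35

/-! The parts of this file: H18.Tj.Defs_1, H18.Tk.PeelP, H18.Tk.StepP, H18.Tk.StepP_1, H18.Tk.EndP, H18.Tk.EndQ, H18.Tk.MainPA. -/

section

/-!
# Project TJ (MP_1dafdd_ag): definitions

`Lens`: the numbers of conditions imposed by points of multiplicity `m ≤ M` on the traces.
`Cf`: configurations of free points and points forced to one fixed hyperplane.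
`SysL`: an abstract Horace system along one hyperplane (`R k` = size of the state `k`, `F k` = size of
its trace).
`Lx w m`: the number of conditions imposed by a point of multiplicity `m` on the forms with
exponents at most `w`.  `NE`: near-exactness.
-/

namespace Pool.Agent.H18.Tj

open Finset Pool.Agent.H18.Ex

/-- An abstract Horace system along one hyperplane. -/
structure SysL : Type where
  /-- the configuration kills the space of the state `k` -/
  K : ℕ → Cf → Prop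
  /-- the size of the trace -/
  F : ℕ → ℕ
  /-- the size -/
  R : ℕ → ℕ
  /-- the points with multiplicities `S` kill the trace -/
  tr : ℕ → Multiset ℕ → Prop
  mono : ∀ k c c', c.N ≤ c'.N → c.s ≤ c'.s → c.Φ ≤ c'.Φ → K k c → K k c'
  one : ∀ k N s Φ, K k ⟨N, s + 1, Φ⟩ → K k ⟨1 ::ₘ N, s, Φ⟩
  count : ∀ k, R (k + 1) = R k + F (k + 1)
  step : ∀ k (N I : Multiset ℕ) (μ t s u : ℕ) (Φ : Multiset (ℕ × ℕ)), 1 ≤ μ →
    (∀ x ∈ Φ, x.2 ≤ x.1) →
    tr (k + 1) (Φ.map Prod.fst + I + Multiset.replicate (t + u) 1) →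
    K k ⟨N, s, shf Φ + I.map (fun m => (m - 1, 1)) + Multiset.replicate t (μ, 2)⟩ →
    K (k + 1) ⟨N + I + Multiset.replicate t μ, s + u, Φ⟩
  bridge : ∀ k (N : Multiset ℕ) (s s₀ : ℕ) (Φ : Multiset (ℕ × ℕ)),
    K (k + 1) ⟨N, s + s₀, Φ⟩ → K k ⟨N, s, shf Φ⟩ →
    K (k + 1) ⟨N, s, Φ + Multiset.replicate s₀ (1, 1)⟩
  full : ∀ k (N : Multiset ℕ) (s : ℕ) (Φ : Multiset (ℕ × ℕ)), (∀ m ∈ N, 1 ≤ m) →
    R k ≤ N.card + s → K k ⟨N, s, Φ⟩

/-- The trace of the state `k` is killed by points of multiplicity at most `M` and at least `w` simple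
points as soon as the lengths suffice. -/
def Gx {M : ℕ} (L : Lens M) (Y : SysL) (w k : ℕ) : Prop :=
  ∀ S : Multiset ℕ, (∀ m ∈ S, m ≤ M) → ∀ x : ℕ, w ≤ x → Y.F k ≤ (S.map L.lo).sum + x →
    Y.tr k (S + Multiset.replicate x 1)

/-- The number of free points needed for a step. -/
def g0T {M : ℕ} (L : Lens M) (w : ℕ) : ℕ := M * (L.lo M + w)

/-- The numerical properties of the states `1, …, kt`. -/
structure NumL {M : ℕ} (L : Lens M) (Y : SysL) (E kt : ℕ) : Prop where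
  hM : 1 ≤ M
  hE : cE L ≤ E
  floor : ∀ k, 1 ≤ k → k ≤ kt → cE L ≤ Y.F k
  mono : ∀ k, 1 ≤ k → k + 1 ≤ kt → Y.F k ≤ Y.F (k + 1)
  slow : ∀ k, 1 ≤ k → k + 1 ≤ kt → E * Y.F (k + 1) ≤ E * Y.F k + Y.F (k + 1)
  low : ∀ k, 1 ≤ k → k ≤ kt → E * Y.F k ≤ Y.R k
  gd : ∀ k, 1 ≤ k → k ≤ kt → Gx L Y (Y.F k / E + 1) k

section

variable {ι : Type} [Fintype ι] [DecidableEq ι]

end

end Pool.Agent.H18.Tj

end

section

/-!
# Module P1 (TK): one Horace step for configurations

Adapt the proof of `peelL` in `Pool/Agent/H18/Tj/PeelT.lean` (same system with one direction), with `d = Y.dir (k + 1)`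
and `c.Φ d` in place of `c.Φ`:
`c' = ⟨c.N - I - replicate t μ, c.s - u, update c.Φ d (shf (c.Φ d) + I.map (m ↦ (m - 1, 1)) + replicate t (μ, 2))⟩`.
For the total length split the sum over the directions at `d` (`Finset.add_sum_erase`).
-/

namespace Pool.Agent.H18.Tk

open Finset Function Pool.Agent.H18.Ex Pool.Agent.H18.Tj

variable {Λ : Type} [Fintype Λ] [DecidableEq Λ]

/-- The new configuration. -/
private def PeelP_c (c : Cfg Λ) (d : Λ) (I : Multiset ℕ) (μ t u : ℕ) : Cfg Λ :=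
  ⟨c.N - I - Multiset.replicate t μ, c.s - u,
    update c.Φ d (shf (c.Φ d) + I.map (fun m => (m - 1, 1)) + Multiset.replicate t (μ, 2))⟩

omit [Fintype Λ] in
private theorem PeelP_self (c : Cfg Λ) (d : Λ) (I : Multiset ℕ) (μ t u : ℕ) :
    (PeelP_c c d I μ t u).Φ d =
      shf (c.Φ d) + I.map (fun m => (m - 1, 1)) + Multiset.replicate t (μ, 2) := by
  unfold PeelP_c
  exact update_self _ _ _

omit [Fintype Λ] in
private theorem PeelP_ne (c : Cfg Λ) (d : Λ) (I : Multiset ℕ) (μ t u : ℕ) (l : Λ) (hl : l ≠ d) :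
    (PeelP_c c d I μ t u).Φ l = c.Φ l := by
  unfold PeelP_c
  exact update_of_ne hl _ _

omit [Fintype Λ] in
private theorem PeelP_OK {M : ℕ} {c : Cfg Λ} (hc : c.OK M) (d : Λ) {I : Multiset ℕ}
    (hI : I ≤ c.N) {μ t u : ℕ} (hμ : t ≠ 0 → 2 ≤ μ ∧ μ ≤ M) : (PeelP_c c d I μ t u).OK M := by
  refine ⟨fun m hm => hc.hN m ?_, fun l x hx => ?_⟩
  · exact Multiset.mem_of_le (le_trans tsub_le_self tsub_le_self) hm
  · by_cases hl : l = d
    · subst hl
      rw [PeelP_self, Multiset.mem_add, Multiset.mem_add] at hx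
      rcases hx with (hx | hx) | hx
      · exact shf_ok (hc.hΦ l) x hx
      · obtain ⟨m, hm, rfl⟩ := Multiset.mem_map.1 hx
        have h2 := hc.hN m (Multiset.mem_of_le hI hm)
        refine ⟨le_rfl, by norm_num, ?_, ?_⟩
        · change 1 ≤ m - 1
          omega
        · change m - 1 ≤ M
          omega
      · have h1 := Multiset.mem_replicate.1 hx
        have h2 := hμ h1.1
        rw [h1.2]
        exact ⟨by norm_num, le_rfl, h2.1, h2.2⟩
    · rw [PeelP_ne c d I μ t u l hl] at hx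
      exact hc.hΦ l x hx

omit [Fintype Λ] in
private theorem PeelP_K {M : ℕ} (L : Lens M) (Y : SysP Λ) (w k : ℕ) (hE : GxP L Y w (k + 1))
    (c : Cfg Λ) (hc : c.OK M) {I : Multiset ℕ} (hI : I ≤ c.N) {μ t u : ℕ} (hμ1 : 1 ≤ μ)
    (ht : Multiset.replicate t μ ≤ c.N - I) (hu : u ≤ c.s) (hw : w ≤ t + u)
    (hsum : trT L (c.Φ (Y.dir (k + 1))) + (I.map L.lo).sum + t + u = Y.F (k + 1))
    (h : Y.K k (PeelP_c c (Y.dir (k + 1)) I μ t u)) : Y.K (k + 1) c := by
  have h1 : (c.N - I - Multiset.replicate t μ) + I + Multiset.replicate t μ = c.N := by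
    rw [add_right_comm, tsub_add_cancel_of_le ht, tsub_add_cancel_of_le hI]
  have h2 : c.s - u + u = c.s := Nat.sub_add_cancel hu
  have h3 := Y.step k (c.N - I - Multiset.replicate t μ) I μ t (c.s - u) u c.Φ hμ1
    (fun x hx => (hc.hΦ _ x hx).2.2.1)
    (hE ((c.Φ (Y.dir (k + 1))).map Prod.fst + I) ?_ (t + u) hw ?_) h
  · rw [h1, h2] at h3
    exact h3
  · intro m hm
    rcases Multiset.mem_add.1 hm with hm | hm
    · obtain ⟨x, hx, rfl⟩ := Multiset.mem_map.1 hm
      exact (hc.hΦ _ x hx).2.2.2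
    · exact (hc.hN m (Multiset.mem_of_le hI hm)).2
  · rw [Multiset.map_add, Multiset.sum_add, Multiset.map_map]
    have h4 : ((c.Φ (Y.dir (k + 1))).map (L.lo ∘ Prod.fst)).sum =
      trT L (c.Φ (Y.dir (k + 1))) := rfl
    rw [h4]
    omega

omit [Fintype Λ] in
private theorem PeelP_tr {M : ℕ} (L : Lens M) {c : Cfg Λ} (hc : c.OK M) (d : Λ)
    {I : Multiset ℕ} (hI : I ≤ c.N) (μ t u : ℕ) :
    M * trT L ((PeelP_c c d I μ t u).Φ d) ≤ (M - 1) * (trT L (c.Φ d) + (I.map L.lo).sum) +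
      M * (t * L.lo μ) := by
  have h1 : trT L ((PeelP_c c d I μ t u).Φ d) = trT L (shf (c.Φ d)) +
      trT L (I.map (fun m => (m - 1, 1))) + trT L (Multiset.replicate t (μ, 2)) := by
    rw [PeelP_self, trT_add, trT_add]
  have h2 : trT L (Multiset.replicate t (μ, 2)) = t * L.lo μ := by
    unfold trT
    rw [Multiset.map_replicate, Multiset.sum_replicate, smul_eq_mul]
  have h3 := trT_shf L (c.Φ d) (fun x hx => hc.hΦ d x hx)
  have h5 : M * trT L (I.map (fun m => (m - 1, 1))) ≤ (M - 1) * (I.map L.lo).sum := by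
    have h6 : ∀ m ∈ I, 2 ≤ m ∧ m ≤ M := fun m hm => hc.hN m (Multiset.mem_of_le hI hm)
    clear h1 h2 h3 hI
    unfold trT
    rw [Multiset.map_map]
    induction I using Multiset.induction_on with
    | empty => simp
    | cons m I ih =>
      have ih' := ih fun m' hm' => h6 m' (Multiset.mem_cons_of_mem hm')
      have h7 := h6 m (Multiset.mem_cons_self m I)
      rw [Multiset.map_cons, Multiset.map_cons, Multiset.sum_cons, Multiset.sum_cons,
        Nat.mul_add, Nat.mul_add]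
      have h8 := L.ratioM (c := m - 1) (by omega)
      have h9 : m - 1 + 1 = m := by omega
      rw [h9] at h8
      exact Nat.add_le_add h8 ih'
  rw [h1, h2, Nat.mul_add, Nat.mul_add, Nat.mul_add]
  omega

omit [Fintype Λ] in
private theorem PeelP_sumN {M : ℕ} (L : Lens M) (c : Cfg Λ) {I : Multiset ℕ} (hI : I ≤ c.N)
    {μ t : ℕ} (ht : Multiset.replicate t μ ≤ c.N - I) :
    (c.N.map L.hi).sum = ((c.N - I - Multiset.replicate t μ).map L.hi).sum +
      (I.map L.hi).sum + t * L.hi μ := by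
  have h1 : c.N = (c.N - I - Multiset.replicate t μ) + I + Multiset.replicate t μ := by
    rw [add_right_comm, tsub_add_cancel_of_le ht, tsub_add_cancel_of_le hI]
  conv_lhs => rw [h1]
  rw [Multiset.map_add, Multiset.map_add, Multiset.sum_add, Multiset.sum_add,
    Multiset.map_replicate, Multiset.sum_replicate, smul_eq_mul]

private theorem PeelP_sz {M : ℕ} (L : Lens M) {c : Cfg Λ} (hc : c.OK M) (d : Λ)
    {I : Multiset ℕ} (hI : I ≤ c.N) {μ t u : ℕ} (hμ1 : 1 ≤ μ)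
    (ht : Multiset.replicate t μ ≤ c.N - I) (hu : u ≤ c.s) :
    szP L (PeelP_c c d I μ t u) + (trT L (c.Φ d) + (I.map L.lo).sum + t + u) = szP L c := by
  have h1 : flT L ((PeelP_c c d I μ t u).Φ d) = flT L (shf (c.Φ d)) +
      flT L (I.map (fun m => (m - 1, 1))) + flT L (Multiset.replicate t (μ, 2)) := by
    rw [PeelP_self, flT_add, flT_add]
  have h2 : flT L (Multiset.replicate t (μ, 2)) + t = t * L.hi μ := by
    unfold flT
    rw [Multiset.map_replicate, Multiset.sum_replicate, smul_eq_mul]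
    have h3 := L.hi_pos hμ1
    change t * (L.hi μ + 1 - 2) + t = t * L.hi μ
    have h4 : L.hi μ = (L.hi μ + 1 - 2) + 1 := by omega
    conv_rhs => rw [h4]
    ring
  have h3 := flT_shf L (c.Φ d) (fun x hx => hc.hΦ d x hx)
  have h5 : flT L (I.map (fun m => (m - 1, 1))) + (I.map L.lo).sum = (I.map L.hi).sum := by
    have h6 : ∀ m ∈ I, 2 ≤ m ∧ m ≤ M := fun m hm => hc.hN m (Multiset.mem_of_le hI hm)
    clear h1 h2 h3 hI ht
    unfold flT
    rw [Multiset.map_map]
    induction I using Multiset.induction_on with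
    | empty => simp
    | cons m I ih =>
      have ih' := ih fun m' hm' => h6 m' (Multiset.mem_cons_of_mem hm')
      have h7 := h6 m (Multiset.mem_cons_self m I)
      rw [Multiset.map_cons, Multiset.map_cons, Multiset.map_cons, Multiset.sum_cons,
        Multiset.sum_cons, Multiset.sum_cons, ← ih']
      have h8 := L.hi_succ (m - 1)
      have h9 : m - 1 + 1 = m := by omega
      rw [h9] at h8
      simp only [Function.comp_apply]
      omega
  have h8 := PeelP_sumN L c hI ht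
  have h9 : nszP L (PeelP_c c d I μ t u) =
      ((c.N - I - Multiset.replicate t μ).map L.hi).sum + (c.s - u) := rfl
  have h10 : nszP L c = (c.N.map L.hi).sum + c.s := rfl
  have h11 : ∑ l, flT L ((PeelP_c c d I μ t u).Φ l) =
      flT L ((PeelP_c c d I μ t u).Φ d) + ∑ l ∈ univ.erase d, flT L (c.Φ l) := by
    rw [← Finset.add_sum_erase univ (fun l => flT L ((PeelP_c c d I μ t u).Φ l)) (mem_univ d)]
    congr 1
    refine Finset.sum_congr rfl fun l hl => ?_
    rw [PeelP_ne c d I μ t u l (Finset.ne_of_mem_erase hl)]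
  have h12 : ∑ l, flT L (c.Φ l) = flT L (c.Φ d) + ∑ l ∈ univ.erase d, flT L (c.Φ l) :=
    (Finset.add_sum_erase univ (fun l => flT L (c.Φ l)) (mem_univ d)).symm
  unfold szP
  rw [h9, h10, h11, h12]
  omega

private theorem PeelP_sum_le {g : ℕ → ℕ} {C : ℕ} {I : Multiset ℕ}
    (hI : ∀ m ∈ I, g m ≤ C) : (I.map g).sum ≤ C * I.card := by
  induction I using Multiset.induction_on with
  | empty => simp
  | cons m I ih =>
    have ih' := ih fun m' hm' => hI m' (Multiset.mem_cons_of_mem hm')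
    have h7 := hI m (Multiset.mem_cons_self m I)
    rw [Multiset.card_cons, Multiset.map_cons, Multiset.sum_cons, Nat.mul_add, Nat.mul_one]
    omega

private theorem PeelP_card_le {M : ℕ} (L : Lens M) {I : Multiset ℕ}
    (hI : ∀ m ∈ I, 2 ≤ m ∧ m ≤ M) : I.card ≤ (I.map L.lo).sum := by
  induction I using Multiset.induction_on with
  | empty => simp
  | cons m I ih =>
    have ih' := ih fun m' hm' => hI m' (Multiset.mem_cons_of_mem hm')
    have h7 := hI m (Multiset.mem_cons_self m I)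
    rw [Multiset.card_cons, Multiset.map_cons, Multiset.sum_cons]
    have h8 := L.lo_pos (m := m) (by omega) h7.2
    omega

theorem peelP {M : ℕ} (L : Lens M) (hM : 1 ≤ M) (Y : SysP Λ) (w k : ℕ) (hE : GxP L Y w (k + 1))
    (c : Cfg Λ) (hc : c.OK M) (I₀ : Multiset ℕ) (hI₀ : I₀ ≤ c.N)
    (hroom : trT L (c.Φ (Y.dir (k + 1))) + (I₀.map L.lo).sum + w ≤ Y.F (k + 1))
    (hav : L.hi M * (Y.F (k + 1) + g0T L w) + Y.F (k + 1) ≤ nszP L c) :
    ∃ c' : Cfg Λ, c'.OK M ∧ (Y.K k c' → Y.K (k + 1) c) ∧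
      M * trT L (c'.Φ (Y.dir (k + 1))) ≤ (M - 1) * Y.F (k + 1) + M * ((L.lo M + w) * L.lo M) ∧
      (∀ l, l ≠ Y.dir (k + 1) → c'.Φ l = c.Φ l) ∧
      szP L c' + Y.F (k + 1) = szP L c ∧
      (c'.s = c.s ∨ c'.N.card < g0T L w) ∧
      c'.N.card ≤ c.N.card ∧
      (c.N.card * L.lo M + trT L (c.Φ (Y.dir (k + 1))) + w ≤ Y.F (k + 1) → c'.N = 0) ∧
      (c.N = 0 → c'.N = 0 ∧ c'.Φ (Y.dir (k + 1)) = shf (c.Φ (Y.dir (k + 1)))) ∧
      shf (c.Φ (Y.dir (k + 1))) + I₀.map (fun m => (m - 1, 1)) ≤ c'.Φ (Y.dir (k + 1)) ∧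
      c'.s ≤ c.s := by
  set d := Y.dir (k + 1) with hd
  set f := Y.F (k + 1) with hf
  obtain ⟨I, hI1, hI2, hI3, hI4⟩ := exists_maximal_fill c.N I₀ L.lo (f - trT L (c.Φ d) - w) hI₀
    (by omega)
  set ρ := f - trT L (c.Φ d) - (I.map L.lo).sum with hρ
  have hρw : w ≤ ρ := by omega
  have hIN : ∀ m ∈ I, 2 ≤ m ∧ m ≤ M := fun m hm => hc.hN m (Multiset.mem_of_le hI2 hm)
  have hcard := PeelP_card_le L hIN
  have hlo1 : 1 ≤ L.lo M := L.lo_pos hM le_rfl
  have hg0 : 1 ≤ g0T L w := by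
    unfold g0T
    exact Nat.mul_pos (by omega) (by omega)
  have hsub : (c.N - I).card = c.N.card - I.card := Multiset.card_sub hI2
  have hIc : I.card ≤ c.N.card := Multiset.card_le_card hI2
  have hmapI : shf (c.Φ d) + I₀.map (fun m => (m - 1, 1)) ≤
      shf (c.Φ d) + I.map (fun m => (m - 1, 1)) := by
    gcongr
  -- the output (7)
  have hall : c.N.card * L.lo M + trT L (c.Φ d) + w ≤ f → c.N - I = 0 := by
    intro h
    by_contra hne
    obtain ⟨m, hm⟩ := Multiset.exists_mem_of_ne_zero hne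
    have h1 := hI4 m hm
    have hmN := hc.hN m (Multiset.mem_of_le tsub_le_self hm)
    have h2 := L.lo_mono hmN.2 le_rfl
    have h3 : (I.map L.lo).sum ≤ L.lo M * I.card :=
      PeelP_sum_le fun m' hm' => L.lo_mono (hIN m' hm').2 le_rfl
    have h4 : 0 < (c.N - I).card := Multiset.card_pos.2 hne
    have h5 : I.card + 1 ≤ c.N.card := by omega
    have h6 : L.lo M * (I.card + 1) ≤ L.lo M * c.N.card := Nat.mul_le_mul_left _ h5
    rw [Nat.mul_add, Nat.mul_one] at h6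
    rw [Nat.mul_comm (L.lo M) c.N.card] at h6
    omega
  by_cases hcase : g0T L w ≤ (c.N - I).card
  · -- case (i)
    have hNI : ∀ m ∈ c.N - I, 1 ≤ m ∧ m ≤ M := by
      intro m hm
      have := hc.hN m (Multiset.mem_of_le tsub_le_self hm)
      omega
    obtain ⟨μ, hμ, hrep⟩ := exists_replicate_le (c.N - I) M (L.lo M + w) hNI hcase hM (by omega)
    have hμ2 := hc.hN μ (Multiset.mem_of_le tsub_le_self hμ)
    have hρle : ρ ≤ L.lo M + w := by
      have h1 := hI4 μ hμ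
      have h2 := L.lo_mono hμ2.2 le_rfl
      omega
    have ht : Multiset.replicate ρ μ ≤ c.N - I :=
      le_trans (Multiset.replicate_le_replicate μ |>.2 hρle) hrep
    have hsum : trT L (c.Φ d) + (I.map L.lo).sum + ρ + 0 = f := by omega
    refine ⟨PeelP_c c d I μ ρ 0, PeelP_OK hc d hI2 (fun _ => hμ2),
      PeelP_K L Y w k hE c hc hI2 (by omega) ht (Nat.zero_le _) (by omega) hsum,
      ?_, fun l hl => PeelP_ne c d I μ ρ 0 l hl, ?_, Or.inl rfl, ?_, ?_, ?_, ?_, Nat.sub_le _ _⟩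
    · refine le_trans (PeelP_tr L hc d hI2 μ ρ 0) (Nat.add_le_add ?_ ?_)
      · exact Nat.mul_le_mul_left _ (by omega)
      · apply Nat.mul_le_mul_left
        exact Nat.mul_le_mul hρle (L.lo_mono hμ2.2 le_rfl)
    · have h1 := PeelP_sz L hc d hI2 (by omega : 1 ≤ μ) ht (Nat.zero_le c.s)
      rw [hsum] at h1
      exact h1
    · exact Multiset.card_le_card (le_trans tsub_le_self tsub_le_self)
    · intro h
      have h1 := hall h
      rw [h1, Multiset.card_zero] at hcase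
      omega
    · intro h
      rw [h] at hcase hsub
      rw [hsub] at hcase
      simp at hcase
      omega
    · rw [PeelP_self]
      exact le_trans hmapI (Multiset.le_add_right _ _)
  · -- case (ii)
    push Not at hcase
    have hρs : ρ ≤ c.s := by
      have h1 : nszP L c ≤ L.hi M * c.N.card + c.s := by
        unfold nszP
        exact Nat.add_le_add_right
          (PeelP_sum_le fun m hm => L.hi_mono (hc.hN m hm).2) _
      have h2 : L.hi M * c.N.card ≤ L.hi M * (f + g0T L w) :=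
        Nat.mul_le_mul_left _ (by omega)
      omega
    have hsum : trT L (c.Φ d) + (I.map L.lo).sum + 0 + ρ = f := by omega
    have ht : Multiset.replicate 0 1 ≤ c.N - I := Multiset.zero_le _
    have hNeq : (PeelP_c c d I 1 0 ρ).N = c.N - I := by
      change c.N - I - Multiset.replicate 0 1 = c.N - I
      rw [Multiset.replicate_zero, tsub_zero]
    refine ⟨PeelP_c c d I 1 0 ρ, PeelP_OK hc d hI2 (fun h => absurd rfl h),
      PeelP_K L Y w k hE c hc hI2 le_rfl ht hρs (by omega) hsum,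
      ?_, fun l hl => PeelP_ne c d I 1 0 ρ l hl, ?_, Or.inr ?_, ?_, ?_, ?_, ?_, Nat.sub_le _ _⟩
    · refine le_trans (PeelP_tr L hc d hI2 1 0 ρ) (Nat.add_le_add ?_ ?_)
      · exact Nat.mul_le_mul_left _ (by omega)
      · rw [zero_mul, mul_zero]
        exact Nat.zero_le _
    · have h1 := PeelP_sz L hc d hI2 (le_refl 1) ht hρs
      rw [hsum] at h1
      exact h1
    · rw [hNeq]
      exact hcase
    · rw [hNeq]
      exact Multiset.card_le_card tsub_le_self
    · intro h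
      rw [hNeq]
      exact hall h
    · intro h
      have hI0 : I = 0 := by
        rw [h] at hI2
        exact Multiset.le_zero.1 hI2
      refine ⟨?_, ?_⟩
      · rw [hNeq, h, hI0]
        rfl
      · rw [PeelP_self, hI0]
        simp
    · rw [PeelP_self]
      exact le_trans hmapI (Multiset.le_add_right _ _)

end Pool.Agent.H18.Tk

end

section

/-!
# Module P2 (TK): one step, keeping the invariants

Adapt `step_inv` and `room_zero` in `Pool/Agent/H18/Tj/PhaseA.lean`.  Write `a = lo M`, `b = hi M`, `F = F (k + 1)`,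
`d = dir (k + 1)`, `w = F / E + 1`; `E ≥ 2 cE L`, `F = P d (k + 1) ≥ cE L`, `cE L = 64 M (M + 1) (a + 1)^2 (b + 1)`.
* room: `2 M (F - tr) ≥ F ≥ 2 M w` (`top`);
* availability: `nsz ≥ R (k + 1) - M ∑_l trT (Φ l) ≥ R - M ∑_l P l (k + 1) ≥ R - 2 M R / E ≥ R / 2` (`flT_le`, `hΛ`, `low`),
  and `R / 2 ≥ (E / 2) F ≥ (2 b + 1) F ≥ b (F + g0) + F` since `g0 = M (a + w) ≤ F`;
* new invariant in the direction `d`: `M tr' ≤ (M - 1) F + M (a + w) a`; `2 M (a + w) a ≤ F / 16`,
  `P d k ≥ (1 - 1 / E) F` (`slow`); in the other directions `Φ` is unchanged and `keep`;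
* `4 M a card N' ≤ 4 M a M (a + w) ≤ F / 4 ≤ P d k`.
There is no upper bound of `P d k` in terms of `F` (distinguish the cases `F ≤ P d k` and `F > P d k`).
-/

namespace Pool.Agent.H18.Tk

open Finset Function Pool.Agent.H18.Ex Pool.Agent.H18.Tj

variable {Λ : Type} [Fintype Λ] [DecidableEq Λ]

variable {M : ℕ} {L : Lens M} {Y : SysP Λ} {E kt : ℕ} {P : Λ → ℕ → ℕ}

/-- the numerical facts -/
private theorem StepP_num (M a b W F E : ℕ) (hM : 1 ≤ M) (ha : 1 ≤ a) (hb : 1 ≤ b)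
    (hE : 2 * (64 * M * (M + 1) * (a + 1) ^ 2 * (b + 1)) ≤ E)
    (hF : 64 * M * (M + 1) * (a + 1) ^ 2 * (b + 1) ≤ F) (hW : W = F / E + 1) :
    4 * M * W ≤ F ∧ M * (a + W) ≤ F ∧ 64 * (M * ((a + W) * a)) ≤ F ∧
      16 * (M * M * (a * (a + W))) ≤ F ∧ 2 * (M + 2 * b + 1) ≤ E ∧ 32 * (2 * M) ≤ E := by
  have hW1 : 1 ≤ W := by rw [hW]; exact Nat.le_add_left _ _
  have haW : a + W ≤ 2 * (a * W) := by nlinarith
  have hE1 : 64 * M * (M + 1) * (a + 1) ^ 2 * (b + 1) ≤ E := by omega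
  have hWF : 32 * M * (M + 1) * (a + 1) ^ 2 * (b + 1) * W ≤ F := by
    have h1 : E * (F / E) ≤ F := Nat.mul_div_le F E
    have h2 : 64 * M * (M + 1) * (a + 1) ^ 2 * (b + 1) * (F / E) ≤ F :=
      (Nat.mul_le_mul_right _ hE1).trans h1
    have h3 : 64 * M * (M + 1) * (a + 1) ^ 2 * (b + 1) * (F / E + 1) ≤ 2 * F := by
      rw [mul_add, mul_one]
      omega
    rw [← hW] at h3
    have h4 : 64 * M * (M + 1) * (a + 1) ^ 2 * (b + 1) * W =
        2 * (32 * M * (M + 1) * (a + 1) ^ 2 * (b + 1) * W) := by ring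
    omega
  have ha2 : a ≤ (a + 1) ^ 2 := by nlinarith
  have ha3 : a * a ≤ (a + 1) ^ 2 := by nlinarith
  have ha4 : 1 ≤ (a + 1) ^ 2 := Nat.one_le_pow _ _ (Nat.succ_pos _)
  have hM1 : 1 ≤ M + 1 := Nat.le_add_left _ _
  have hM2 : 2 ≤ M + 1 := by omega
  have hb1 : 1 ≤ b + 1 := Nat.le_add_left _ _
  have hb2 : 2 ≤ b + 1 := by omega
  refine ⟨?_, ?_, ?_, ?_, ?_, ?_⟩
  · refine le_trans ?_ hWF
    calc 4 * M * W = 4 * M * 1 * 1 * 1 * W := by ring
      _ ≤ 32 * M * (M + 1) * (a + 1) ^ 2 * (b + 1) * W := by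
        gcongr
        norm_num
  · refine le_trans ?_ hWF
    calc M * (a + W) ≤ M * (2 * (a * W)) := Nat.mul_le_mul_left _ haW
      _ = 2 * M * 1 * a * 1 * W := by ring
      _ ≤ 32 * M * (M + 1) * (a + 1) ^ 2 * (b + 1) * W := by
        gcongr
        norm_num
  · refine le_trans ?_ hWF
    calc 64 * (M * ((a + W) * a)) ≤ 64 * (M * ((2 * (a * W)) * a)) := by gcongr
      _ = 32 * M * 2 * (a * a) * 2 * W := by ring
      _ ≤ 32 * M * (M + 1) * (a + 1) ^ 2 * (b + 1) * W := by gcongr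
  · refine le_trans ?_ hWF
    calc 16 * (M * M * (a * (a + W))) ≤ 16 * (M * M * (a * (2 * (a * W)))) := by gcongr
      _ = 32 * M * M * (a * a) * 1 * W := by ring
      _ ≤ 32 * M * (M + 1) * (a + 1) ^ 2 * (b + 1) * W := by
        gcongr
        exact Nat.le_succ M
  · refine le_trans ?_ hE
    refine Nat.mul_le_mul_left 2 ?_
    have h1 : 64 * M * 2 * 1 * (b + 1) ≤ 64 * M * (M + 1) * (a + 1) ^ 2 * (b + 1) := by gcongr
    have h2 : b + 1 ≤ M * (b + 1) := Nat.le_mul_of_pos_left _ hM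
    have h3 : M ≤ M * (b + 1) := Nat.le_mul_of_pos_right _ hb1
    have h4 : 64 * M * 2 * 1 * (b + 1) = 128 * (M * (b + 1)) := by ring
    omega
  · refine le_trans ?_ hE1
    calc 32 * (2 * M) = 64 * M * 1 * 1 * 1 := by ring
      _ ≤ 64 * M * (M + 1) * (a + 1) ^ 2 * (b + 1) := by gcongr

theorem StepP_all (H : NumP L Y E kt P) (k : ℕ) (hkt : k + 1 ≤ kt) :
    1 ≤ L.lo M ∧ 1 ≤ L.hi M ∧ 4 * M * (Y.F (k + 1) / E + 1) ≤ Y.F (k + 1) ∧
      M * (L.lo M + (Y.F (k + 1) / E + 1)) ≤ Y.F (k + 1) ∧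
      64 * (M * ((L.lo M + (Y.F (k + 1) / E + 1)) * L.lo M)) ≤ Y.F (k + 1) ∧
      16 * (M * M * (L.lo M * (L.lo M + (Y.F (k + 1) / E + 1)))) ≤ Y.F (k + 1) ∧
      2 * (M + 2 * L.hi M + 1) ≤ E ∧ 32 * (2 * M) ≤ E := by
  have ha := L.lo_pos H.hM le_rfl
  have hb := ha.trans (L.lo_le_hi M)
  have hE := H.hE
  have hF := H.floor (Y.dir (k + 1)) (k + 1) hkt
  rw [H.top k hkt] at hF
  unfold cE at hE hF
  exact ⟨ha, hb, StepP_num M (L.lo M) (L.hi M) _ _ E H.hM ha hb hE hF rfl⟩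

/-- The forced conditions have at most half of the total length. -/
theorem StepP_fl (H : NumP L Y E kt P) (k : ℕ) (hkt : k + 1 ≤ kt) (c : Cfg Λ)
    (hc : c.OK M) (htr : InvP L P (k + 1) c) :
    2 * ∑ l, flT L (c.Φ l) ≤ Y.R (k + 1) := by
  obtain ⟨-, -, -, -, -, -, -, h6⟩ := StepP_all H k hkt
  have hM := H.hM
  have h1 : ∀ l, E * flT L (c.Φ l) ≤ M * Y.R (k + 1) := by
    intro l
    have e1 := flT_le L (c.Φ l) (hc.hΦ l)
    have e2 := htr l
    have e3 : trT L (c.Φ l) ≤ P l (k + 1) := by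
      have e4 : 2 * M * trT L (c.Φ l) ≤ 2 * M * P l (k + 1) :=
        e2.trans (Nat.mul_le_mul_right _ (Nat.sub_le _ _))
      exact Nat.le_of_mul_le_mul_left e4 (by omega)
    have e5 := H.low l (k + 1) hkt
    calc E * flT L (c.Φ l) ≤ E * (M * P l (k + 1)) :=
          Nat.mul_le_mul_left _ (e1.trans (Nat.mul_le_mul_left _ e3))
      _ = M * (E * P l (k + 1)) := by ring
      _ ≤ M * Y.R (k + 1) := Nat.mul_le_mul_left _ e5
  have h2 : E * ∑ l, flT L (c.Φ l) ≤ 2 * (M * Y.R (k + 1)) := by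
    rw [Finset.mul_sum]
    refine (Finset.sum_le_card_nsmul univ _ (M * Y.R (k + 1)) fun l _ => h1 l).trans ?_
    rw [smul_eq_mul]
    exact Nat.mul_le_mul_right _ H.hΛ
  have h3 : 32 * (2 * M) * ∑ l, flT L (c.Φ l) ≤ E * ∑ l, flT L (c.Φ l) :=
    Nat.mul_le_mul_right _ h6
  have h4 : 2 * M * (32 * ∑ l, flT L (c.Φ l)) ≤ 2 * M * Y.R (k + 1) := by
    have e1 : 2 * M * (32 * ∑ l, flT L (c.Φ l)) = 32 * (2 * M) * ∑ l, flT L (c.Φ l) := by ring
    have e2 : 2 * (M * Y.R (k + 1)) = 2 * M * Y.R (k + 1) := by ring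
    omega
  have h5 := Nat.le_of_mul_le_mul_left h4 (by omega)
  omega

/-- The room for `I₀ = 0`. -/
theorem room_zeroP (H : NumP L Y E kt P) (k : ℕ) (hkt : k + 1 ≤ kt) (c : Cfg Λ)
    (htr : InvP L P (k + 1) c) :
    trT L (c.Φ (Y.dir (k + 1))) + (Y.F (k + 1) / E + 1) ≤ Y.F (k + 1) := by
  obtain ⟨ha, hb, h1, h2, h3, h4, h5, h6⟩ := StepP_all H k hkt
  have hM := H.hM
  have htrd := htr (Y.dir (k + 1))
  rw [H.top k hkt] at htrd
  have e : (2 * M - 1) * Y.F (k + 1) + Y.F (k + 1) = 2 * M * Y.F (k + 1) := by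
    rw [← Nat.succ_mul]
    congr 1
    omega
  have e2 : 4 * M * (Y.F (k + 1) / E + 1) = 2 * (2 * M * (Y.F (k + 1) / E + 1)) := by ring
  have e3 : 2 * M * (trT L (c.Φ (Y.dir (k + 1))) + (Y.F (k + 1) / E + 1)) ≤
      2 * M * Y.F (k + 1) := by
    rw [mul_add]
    omega
  exact Nat.le_of_mul_le_mul_left e3 (by omega)

end Pool.Agent.H18.Tk

end

section

/-!
# Module P2 (TK): one step, keeping the invariants

Adapt `step_inv` and `room_zero` in `Pool/Agent/H18/Tj/PhaseA.lean`.  Write `a = lo M`, `b = hi M`, `F = F (k + 1)`,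
`d = dir (k + 1)`, `w = F / E + 1`; `E ≥ 2 cE L`, `F = P d (k + 1) ≥ cE L`, `cE L = 64 M (M + 1) (a + 1)^2 (b + 1)`.
* room: `2 M (F - tr) ≥ F ≥ 2 M w` (`top`);
* availability: `nsz ≥ R (k + 1) - M ∑_l trT (Φ l) ≥ R - M ∑_l P l (k + 1) ≥ R - 2 M R / E ≥ R / 2` (`flT_le`, `hΛ`, `low`),
  and `R / 2 ≥ (E / 2) F ≥ (2 b + 1) F ≥ b (F + g0) + F` since `g0 = M (a + w) ≤ F`;
* new invariant in the direction `d`: `M tr' ≤ (M - 1) F + M (a + w) a`; `2 M (a + w) a ≤ F / 16`,
  `P d k ≥ (1 - 1 / E) F` (`slow`); in the other directions `Φ` is unchanged and `keep`;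
* `4 M a card N' ≤ 4 M a M (a + w) ≤ F / 4 ≤ P d k`.
There is no upper bound of `P d k` in terms of `F` (distinguish the cases `F ≤ P d k` and `F > P d k`).
-/

namespace Pool.Agent.H18.Tk

open Finset Function Pool.Agent.H18.Ex Pool.Agent.H18.Tj

variable {Λ : Type} [Fintype Λ] [DecidableEq Λ]

variable {M : ℕ} {L : Lens M} {Y : SysP Λ} {E kt : ℕ} {P : Λ → ℕ → ℕ}

theorem step_invP (H : NumP L Y E kt P) (k : ℕ) (hkt : k + 1 ≤ kt) (c : Cfg Λ)
    (hc : c.OK M) (htr : InvP L P (k + 1) c)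
    (hsz : Y.R (k + 1) ≤ szP L c) (I₀ : Multiset ℕ) (hI₀ : I₀ ≤ c.N)
    (hroom : trT L (c.Φ (Y.dir (k + 1))) + (I₀.map L.lo).sum + (Y.F (k + 1) / E + 1) ≤
      Y.F (k + 1)) :
    ∃ c' : Cfg Λ, c'.OK M ∧ (Y.K k c' → Y.K (k + 1) c) ∧
      InvP L P k c' ∧ Y.R k ≤ szP L c' ∧
      szP L c' + Y.F (k + 1) = szP L c ∧
      (c'.s = c.s ∨ 4 * M * L.lo M * c'.N.card ≤ P (Y.dir (k + 1)) k) ∧
      (4 * M * L.lo M * c.N.card ≤ Y.F (k + 1) → c'.N = 0) ∧
      (c.N = 0 → c'.N = 0 ∧ c'.Φ (Y.dir (k + 1)) = shf (c.Φ (Y.dir (k + 1)))) ∧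
      shf (c.Φ (Y.dir (k + 1))) + I₀.map (fun m => (m - 1, 1)) ≤ c'.Φ (Y.dir (k + 1)) ∧
      (∀ l, l ≠ Y.dir (k + 1) → c'.Φ l = c.Φ l) ∧
      c'.N.card ≤ c.N.card ∧ c'.s ≤ c.s := by
  obtain ⟨ha, hb, h1, h2, h3, h4, h5, h6⟩ := StepP_all H k hkt
  have hM := H.hM
  have hslow := H.slow k hkt
  have hlow := H.low (Y.dir (k + 1)) (k + 1) hkt
  rw [H.top k hkt] at hlow
  have hcount := Y.count k
  have hfl := StepP_fl H k hkt c hc htr
  have hsz' : szP L c = nszP L c + ∑ l, flT L (c.Φ l) := rfl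
  have hg0 : g0T L (Y.F (k + 1) / E + 1) = M * (L.lo M + (Y.F (k + 1) / E + 1)) := rfl
  have htrd := htr (Y.dir (k + 1))
  rw [H.top k hkt] at htrd
  obtain ⟨w, hw⟩ : ∃ w, w = Y.F (k + 1) / E + 1 := ⟨_, rfl⟩
  rw [← hw] at h1 h2 h3 h4 hroom hg0
  obtain ⟨F', hF'⟩ : ∃ F', F' = Y.F (k + 1) := ⟨_, rfl⟩
  rw [← hF'] at h1 h2 h3 h4 hroom hslow hlow hcount htrd
  obtain ⟨F, hF⟩ : ∃ F, F = P (Y.dir (k + 1)) k := ⟨_, rfl⟩
  rw [← hF] at hslow
  have htr2 : 2 * M * trT L (c.Φ (Y.dir (k + 1))) + F' ≤ 2 * M * F' := by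
    have e : (2 * M - 1) * F' + F' = 2 * M * F' := by
      rw [← Nat.succ_mul]
      congr 1
      omega
    omega
  have hav : L.hi M * (Y.F (k + 1) + g0T L w) + Y.F (k + 1) ≤ nszP L c := by
    rw [← hF', hg0]
    have e1 : L.hi M * (F' + M * (L.lo M + w)) ≤ L.hi M * (2 * F') :=
      Nat.mul_le_mul_left _ (by omega)
    have e3 : 2 * (M + 2 * L.hi M + 1) * F' ≤ E * F' := Nat.mul_le_mul_right _ h5
    have e4 : 2 * (M + 2 * L.hi M + 1) * F' = 2 * (M * F' + L.hi M * (2 * F') + F') := by ring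
    omega
  obtain ⟨c', hc', hK, htr', hΦl, hszc, hs, hNc, hN, hN0, hΦ, hss⟩ :=
    peelP L hM Y w k (by rw [hw]; exact H.gd k hkt) c hc I₀ hI₀
      (by rw [← hF']; exact hroom) hav
  rw [← hF'] at htr' hszc hN ⊢
  rw [← hF]
  have hslow2 : F' ≤ 2 * F := by
    by_contra hlt
    push Not at hlt
    have e1 : 2 ≤ E := by omega
    have e2 : 2 * (F' - F) ≤ E * (F' - F) := Nat.mul_le_mul_right _ e1
    have e3 : E * (F' - F) = E * F' - E * F := Nat.mul_sub _ _ _
    omega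
  refine ⟨c', hc', hK, ?_, ?_, hszc, ?_, ?_, hN0, hΦ, hΦl, hNc, hss⟩
  · intro l
    by_cases hl : l = Y.dir (k + 1)
    · subst hl
      rw [← hF]
      obtain ⟨m, rfl⟩ : ∃ m, M = m + 1 := ⟨M - 1, by omega⟩
      have e5 : 2 * (m + 1) - 1 = 2 * m + 1 := by omega
      have e6 : m + 1 - 1 = m := by omega
      rw [e5]
      rw [e6] at htr'
      have e7 : 2 * (m + 1) * trT L (c'.Φ (Y.dir (k + 1))) =
          2 * ((m + 1) * trT L (c'.Φ (Y.dir (k + 1)))) := by ring
      rw [e7]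
      rcases Nat.le_total F' F with hle | hle
      · have e1 : m * F' ≤ m * F := Nat.mul_le_mul_left _ hle
        have e2 : (2 * m + 1) * F = 2 * (m * F) + F := by ring
        rw [e2]
        omega
      · have e1 : E * (F' - F) ≤ F' := by
          rw [Nat.mul_sub]
          omega
        have e2 : 32 * (2 * (m + 1)) * (F' - F) ≤ E * (F' - F) := Nat.mul_le_mul_right _ h6
        obtain ⟨d, hd⟩ : ∃ d, F' = F + d := ⟨F' - F, by omega⟩
        have hd' : F' - F = d := by omega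
        rw [hd'] at e1 e2
        have e8 : 32 * (2 * (m + 1)) * d = 64 * (m * d) + 64 * d := by ring
        have e9 : m * F' = m * F + m * d := by rw [hd]; ring
        have e10 : (2 * m + 1) * F = 2 * (m * F) + F := by ring
        rw [e10]
        omega
    · rw [hΦl l hl]
      exact (htr l).trans (Nat.mul_le_mul_left _ (H.keep l k hkt hl))
  · omega
  · rcases hs with h | h
    · exact Or.inl h
    · right
      rw [hg0] at h
      have e1 : 4 * M * L.lo M * c'.N.card ≤ 4 * M * L.lo M * (M * (L.lo M + w)) :=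
        Nat.mul_le_mul_left _ h.le
      have e2 : 4 * (4 * M * L.lo M * (M * (L.lo M + w))) =
          16 * (M * M * (L.lo M * (L.lo M + w))) := by ring
      omega
  · intro h
    refine hN ?_
    have e1 : 4 * M * L.lo M * c.N.card = 2 * (2 * M * (c.N.card * L.lo M)) := by ring
    have e2 : 4 * M * w = 2 * (2 * M * w) := by ring
    have e3 : 2 * M * (c.N.card * L.lo M + trT L (c.Φ (Y.dir (k + 1))) + w) ≤ 2 * M * F' := by
      rw [mul_add, mul_add]
      omega
    exact Nat.le_of_mul_le_mul_left e3 (by omega)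

end Pool.Agent.H18.Tk

end

section

/-!
# Module P3a (TK): configurations with few points of multiplicity at least two

Compare `clean`, `few` in `Pool/Agent/H18/Tj/PhaseT.lean`.
* `cleanP`: induction on `k`, `step_invP` with `I₀ = 0`.  For `k = 0` (`ct _ _ 0 = 0`): `Φ = 0`, `N = 0`, so
  `s = szP ≥ R 0` and `Y.full`.  Step: `ct dir l (k + 1) = ct dir l k` for `l ≠ d` and `ct dir d (k + 1) = ct dir d k + 1`,
  `Function.iterate_succ_apply`.
* `fewP`: induction on `k`; if `dir k = l` (`k = k' + 1`), the step gives `N = 0` (`top`), then `cleanP` at the state `k' ≥ j0`: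
  `shf^[ct l' k'] = 0` as `ct l' k' ≥ ct l' j0 ≥ M` (`shf_iterate`).  Otherwise the step gives a configuration with at most
  as many points (`keep`: `P l k ≤ P l k'`), and `ct l k' = ct l k > ct l j0`, in particular `k' ≥ j0`.
  (`k = j0` is impossible by `hct`.)
-/

namespace Pool.Agent.H18.Tk

open Finset Function Pool.Agent.H18.Ex Pool.Agent.H18.Tj

theorem ct_succ {Λ : Type} [DecidableEq Λ] (dir : ℕ → Λ) (l : Λ) (j : ℕ) :
    ct dir l (j + 1) = ct dir l j + if dir (j + 1) = l then 1 else 0 := by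
  unfold ct
  rw [Finset.range_add_one, Finset.filter_insert]
  split_ifs with h
  · rw [Finset.card_insert_of_notMem]
    simp
  · simp

theorem ct_mono {Λ : Type} [DecidableEq Λ] (dir : ℕ → Λ) (l : Λ) {i j : ℕ} (h : i ≤ j) :
    ct dir l i ≤ ct dir l j := by
  unfold ct
  exact Finset.card_le_card (Finset.filter_subset_filter _ (Finset.range_subset_range.2 h))

variable {Λ : Type} [Fintype Λ] [DecidableEq Λ]

variable {M : ℕ} {L : Lens M} {Y : SysP Λ} {E kt : ℕ} {P : Λ → ℕ → ℕ}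

private theorem EndP_step0 (H : NumP L Y E kt P) (k : ℕ) (hkt : k + 1 ≤ kt) (c : Cfg Λ)
    (hc : c.OK M) (htr : InvP L P (k + 1) c) (hsz : Y.R (k + 1) ≤ szP L c) :
    ∃ c' : Cfg Λ, c'.OK M ∧ (Y.K k c' → Y.K (k + 1) c) ∧
      InvP L P k c' ∧ Y.R k ≤ szP L c' ∧
      (4 * M * L.lo M * c.N.card ≤ Y.F (k + 1) → c'.N = 0) ∧
      (c.N = 0 → c'.N = 0 ∧ c'.Φ (Y.dir (k + 1)) = shf (c.Φ (Y.dir (k + 1)))) ∧
      (∀ l, l ≠ Y.dir (k + 1) → c'.Φ l = c.Φ l) ∧ c'.N.card ≤ c.N.card := by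
  obtain ⟨c', h1, h2, h3, h4, -, -, h7, h8, -, h10, h11, -⟩ :=
    step_invP H k hkt c hc htr hsz 0 (Multiset.zero_le _)
      (by simpa using room_zeroP H k hkt c htr)
  exact ⟨c', h1, h2, h3, h4, h7, h8, h10, h11⟩

private theorem EndP_shf_zero : shf 0 = 0 := rfl

private theorem EndP_iter_zero (r : ℕ) : shf^[r] 0 = 0 := by
  induction r with
  | zero => rfl
  | succ r ih => rw [Function.iterate_succ_apply, EndP_shf_zero, ih]

private theorem EndP_iter {S : Multiset (ℕ × ℕ)}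
    (hS : ∀ x ∈ S, 1 ≤ x.2 ∧ x.2 ≤ 2 ∧ x.2 ≤ x.1 ∧ x.1 ≤ M) {r : ℕ} (hr : M ≤ r) :
    shf^[r] S = 0 := by
  obtain ⟨t, rfl⟩ := Nat.exists_eq_add_of_le' hr
  rw [Function.iterate_add_apply, shf_iterate hS, EndP_iter_zero]

theorem cleanP (H : NumP L Y E kt P) : ∀ k, k ≤ kt → ∀ c : Cfg Λ, c.OK M → c.N = 0 →
    (∀ l, shf^[ct Y.dir l k] (c.Φ l) = 0) → InvP L P k c → Y.R k ≤ szP L c → Y.K k c := by
  intro k
  induction k with
  | zero =>
    intro _ c _ hN hΦ _ hsz
    have hΦ' : ∀ l, c.Φ l = 0 := by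
      intro l
      have h := hΦ l
      have h0 : ct Y.dir l 0 = 0 := by simp [ct]
      rw [h0] at h
      simpa using h
    have hs : szP L c = c.s := by
      unfold szP nszP
      rw [hN, Finset.sum_eq_zero (fun l _ => by rw [hΦ' l]; simp [flT])]
      simp
    rw [hs] at hsz
    refine Y.full 0 c.N c.s c.Φ (by simp [hN]) ?_
    omega
  | succ k ih =>
    intro hkt c hc hN hΦ htr hsz
    obtain ⟨c', h1, h2, h3, h4, -, h8, h10, -⟩ := EndP_step0 H k hkt c hc htr hsz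
    obtain ⟨hN', hΦ'⟩ := h8 hN
    refine h2 (ih (by omega) c' h1 hN' ?_ h3 h4)
    intro l
    have h := hΦ l
    rw [ct_succ] at h
    by_cases hl : l = Y.dir (k + 1)
    · subst hl
      rw [if_pos rfl, Function.iterate_succ_apply] at h
      rw [hΦ']
      exact h
    · rw [if_neg (fun h' => hl h'.symm), Nat.add_zero] at h
      rw [h10 l hl]
      exact h

theorem fewP (H : NumP L Y E kt P) (j0 : ℕ) (hj0 : ∀ l, M ≤ ct Y.dir l j0) (l : Λ) :
    ∀ k, j0 ≤ k → k ≤ kt → ct Y.dir l j0 < ct Y.dir l k → ∀ c : Cfg Λ, c.OK M →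
      InvP L P k c → Y.R k ≤ szP L c → 4 * M * L.lo M * c.N.card ≤ P l k → Y.K k c := by
  intro k
  induction k with
  | zero =>
    intro _ _ hct
    have h0 : ct Y.dir l 0 = 0 := by simp [ct]
    omega
  | succ k ih =>
    intro hk hkt hct c hc htr hsz hN
    have hjk : j0 ≤ k := by
      by_contra hcon
      have h : j0 = k + 1 := by omega
      rw [h] at hct
      exact lt_irrefl _ hct
    obtain ⟨c', h1, h2, h3, h4, h7, -, -, h11⟩ := EndP_step0 H k hkt c hc htr hsz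
    refine h2 ?_
    by_cases hl : Y.dir (k + 1) = l
    · have hF : 4 * M * L.lo M * c.N.card ≤ Y.F (k + 1) := by
        rw [← H.top k hkt, hl]
        exact hN
      refine cleanP H k (by omega) c' h1 (h7 hF) ?_ h3 h4
      intro l'
      exact EndP_iter (h1.hΦ l') ((hj0 l').trans (ct_mono Y.dir l' hjk))
    · rw [ct_succ, if_neg hl, Nat.add_zero] at hct
      refine ih hjk (by omega) hct c' h1 h3 h4 ?_
      calc 4 * M * L.lo M * c'.N.card ≤ 4 * M * L.lo M * c.N.card := Nat.mul_le_mul_left _ h11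
        _ ≤ P l (k + 1) := hN
        _ ≤ P l k := H.keep l k hkt (fun h => hl h.symm)

end Pool.Agent.H18.Tk

end

section

/-!
# Module P3b (TK): the two endings

Compare `endA`, `endB` in `Pool/Agent/H18/Tj/PhaseT.lean`.
* `endAP`: induction on `k` from `jE`; for `k = jE` the hypothesis `hs` says `szP < s`, impossible.  Otherwise one step
  (`I₀ = 0`) from `k + 1` to `k ≥ jE`; either `s` is unchanged and the induction hypothesis applies (`Y.count`), or
  `4 M a card N' ≤ P (dir (k + 1)) k` and `fewP` with `l = dir (k + 1)` applies at the state `k ≥ jE` (`ct_mono`).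
* `endBP`: induction on `k` from `jE`; for `k = jE`:
  `b (card N + s) ≥ nszP ≥ szP - M ∑_l trT (Φ l) ≥ R + (b + 2 M) R - 2 M R ≥ b R` (`InvP`, `P l k ≤ R k` by `low` and
  `E ≥ 1`, `hΛ`), so `card N + s ≥ R` (`Y.full`; `b = L.hi M ≥ 1`).  Step: the surplus is unchanged.
-/

namespace Pool.Agent.H18.Tk

open Finset Function Pool.Agent.H18.Ex Pool.Agent.H18.Tj

variable {Λ : Type} [Fintype Λ] [DecidableEq Λ]

variable {M : ℕ} {L : Lens M} {Y : SysP Λ} {E kt : ℕ} {P : Λ → ℕ → ℕ}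

theorem endAP (H : NumP L Y E kt P) (j0 jE : ℕ) (hj : j0 ≤ jE) (hj0 : ∀ l, M ≤ ct Y.dir l j0)
    (hjE : ∀ l, ct Y.dir l j0 < ct Y.dir l jE) :
    ∀ k, jE ≤ k → k ≤ kt → ∀ c : Cfg Λ, c.OK M → InvP L P k c → Y.R k ≤ szP L c →
      szP L c + Y.R jE < c.s + Y.R k → Y.K k c := by
  intro k hk
  induction k, hk using Nat.le_induction with
  | base =>
    intro _ c _ _ _ hs
    exfalso
    have h : c.s ≤ szP L c := by
      unfold szP nszP
      omega
    omega
  | succ k hk ih =>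
    intro hkt c hc hinv hsz hs
    have hroom := room_zeroP H k hkt c hinv
    obtain ⟨c', h1, h2, h3, h4, h5, h6, -, -, -, -, -, -⟩ :=
      step_invP H k hkt c hc hinv hsz 0 (Multiset.zero_le _) (by simpa using hroom)
    have hcount := Y.count k
    rcases h6 with h6 | h6
    · exact h2 (ih (by omega) c' h1 h3 h4 (by omega))
    · refine h2 (fewP H j0 hj0 (Y.dir (k + 1)) k (by omega) (by omega) ?_ c' h1 h3 h4 h6)
      exact lt_of_lt_of_le (hjE _) (ct_mono Y.dir _ hk)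

theorem endBP (H : NumP L Y E kt P) (jE : ℕ) :
    ∀ k, jE ≤ k → k ≤ kt → ∀ c : Cfg Λ, c.OK M → InvP L P k c →
      Y.R k + (L.hi M + 2 * M) * Y.R jE ≤ szP L c → Y.K k c := by
  intro k hk
  induction k, hk using Nat.le_induction with
  | base =>
    intro hkt c hc hinv hsz
    refine Y.full jE c.N c.s c.Φ (fun m hm => le_trans (by norm_num) (hc.hN m hm).1) ?_
    have hM := H.hM
    have hb : 1 ≤ L.hi M := L.hi_pos hM
    have hE1 : 1 ≤ E := by
      refine le_trans ?_ H.hE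
      have h0 : 0 < cE L := by
        unfold cE
        positivity
      omega
    have hfl : ∀ l, flT L (c.Φ l) ≤ M * Y.R jE := by
      intro l
      have hPR : P l jE ≤ Y.R jE :=
        le_trans (Nat.le_mul_of_pos_left _ hE1) (H.low l jE hkt)
      have hT : trT L (c.Φ l) ≤ P l jE := by
        have h1 : (2 * M) * trT L (c.Φ l) ≤ (2 * M) * P l jE :=
          le_trans (hinv l) (Nat.mul_le_mul_right _ (Nat.sub_le _ _))
        exact Nat.le_of_mul_le_mul_left h1 (by omega)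
      exact le_trans (flT_le L (c.Φ l) (hc.hΦ l)) (Nat.mul_le_mul_left _ (hT.trans hPR))
    have hflsum : ∑ l, flT L (c.Φ l) ≤ 2 * M * Y.R jE := by
      have h1 : ∑ l, flT L (c.Φ l) ≤ (Finset.univ : Finset Λ).card • (M * Y.R jE) :=
        Finset.sum_le_card_nsmul _ _ _ fun l _ => hfl l
      rw [Finset.card_univ, smul_eq_mul] at h1
      have h2 : Fintype.card Λ * (M * Y.R jE) ≤ 2 * (M * Y.R jE) :=
        Nat.mul_le_mul_right _ H.hΛ
      rw [mul_assoc]
      exact h1.trans h2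
    have hN : (c.N.map L.hi).sum ≤ L.hi M * c.N.card := by
      have h1 : (c.N.map L.hi).sum ≤ (c.N.map L.hi).card • L.hi M := by
        refine Multiset.sum_le_card_nsmul _ _ ?_
        intro x hx
        obtain ⟨m, hm, rfl⟩ := Multiset.mem_map.1 hx
        exact L.hi_mono (hc.hN m hm).2
      rw [Multiset.card_map, smul_eq_mul, mul_comm] at h1
      exact h1
    have hsum : Y.R jE + (L.hi M + 2 * M) * Y.R jE ≤
        L.hi M * c.N.card + c.s + 2 * M * Y.R jE := by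
      refine le_trans hsz ?_
      unfold szP nszP
      omega
    have h2 : L.hi M * Y.R jE ≤ L.hi M * (c.N.card + c.s) := by
      have h3 : c.s ≤ L.hi M * c.s := Nat.le_mul_of_pos_left _ hb
      nlinarith
    exact Nat.le_of_mul_le_mul_left h2 hb
  | succ k hk ih =>
    intro hkt c hc hinv hsz
    have hsz1 : Y.R (k + 1) ≤ szP L c := le_trans (Nat.le_add_right _ _) hsz
    have hroom := room_zeroP H k hkt c hinv
    obtain ⟨c', h1, h2, h3, h4, h5, -, -, -, -, -, -, -⟩ :=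
      step_invP H k hkt c hc hinv hsz1 0 (Multiset.zero_le _) (by simpa using hroom)
    have hcount := Y.count k
    exact h2 (ih (by omega) c' h1 h3 (by omega))

end Pool.Agent.H18.Tk

end

section

/-!
# Module P4a (TK): near-exactness

As `of_multiset`, `near_of_num` in `Pool/Agent/H18/Tj/MainA.lean`.
-/

namespace Pool.Agent.H18.Tk

open Finset Function Pool.Agent.H18.Ex Pool.Agent.H18.Tj

variable {Λ : Type} [Fintype Λ] [DecidableEq Λ]

variable {M : ℕ} {L : Lens M} {Y : SysP Λ} {E kt : ℕ} {P : Λ → ℕ → ℕ}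

private theorem MainPA_split (S : Multiset ℕ) :
    S = (S.filter fun m => 2 ≤ m) + Multiset.replicate (S.count 1) 1 +
      Multiset.replicate (S.count 0) 0 := by
  ext a
  simp only [Multiset.count_add, Multiset.count_filter, Multiset.count_replicate]
  rcases Nat.lt_or_ge a 2 with h | h
  · interval_cases a <;> simp
  · rw [if_pos h, if_neg (by omega), if_neg (by omega)]
    omega

private theorem MainPA_sum (L : Lens M) (S : Multiset ℕ) :
    (S.map L.hi).sum = ((S.filter fun m => 2 ≤ m).map L.hi).sum + S.count 1 := by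
  have h := congrArg (fun T : Multiset ℕ => (T.map L.hi).sum) (MainPA_split S)
  simp only [Multiset.map_add, Multiset.sum_add, Multiset.map_replicate,
    Multiset.sum_replicate, L.hi_one, L.hi_zero, smul_eq_mul, mul_one, mul_zero, add_zero] at h
  exact h

private theorem MainPA_le (S : Multiset ℕ) :
    (S.filter fun m => 2 ≤ m) + Multiset.replicate (S.count 1) 1 ≤ S := by
  conv_rhs => rw [MainPA_split S]
  exact Multiset.le_add_right _ _

omit [Fintype Λ] in
private theorem MainPA_one (Y : SysP Λ) (k : ℕ) (N : Multiset ℕ) (Φ : Λ → Multiset (ℕ × ℕ))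
    (n : ℕ) : ∀ x, Y.K k ⟨N, x + n, Φ⟩ → Y.K k ⟨N + Multiset.replicate n 1, x, Φ⟩ := by
  induction n with
  | zero =>
    intro x h
    simpa using h
  | succ n ih =>
    intro x h
    have h1 := ih (x + 1) (by rwa [show x + 1 + n = x + (n + 1) by omega])
    have h2 := Y.one k _ x Φ h1
    rwa [Multiset.replicate_succ, Multiset.add_cons]

theorem of_multisetP (L : Lens M) (Y : SysP Λ) (k : ℕ) (S : Multiset ℕ) (hS : ∀ m ∈ S, m ≤ M)
    (x : ℕ) : ∃ c : Cfg Λ, c.OK M ∧ (c.Φ = fun _ => 0) ∧ x ≤ c.s ∧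
      szP L c = (S.map L.hi).sum + x ∧ (Y.K k c → Y.K k ⟨S, x, fun _ => 0⟩) := by
  refine ⟨⟨S.filter fun m => 2 ≤ m, x + S.count 1, fun _ => 0⟩, ⟨?_, ?_⟩, rfl,
    Nat.le_add_right _ _, ?_, ?_⟩
  · intro m hm
    have hm' := Multiset.mem_filter.1 hm
    exact ⟨hm'.2, hS m hm'.1⟩
  · intro l y hy
    exact absurd hy (Multiset.notMem_zero y)
  · have h1 := MainPA_sum L S
    have h2 : flT L (0 : Multiset (ℕ × ℕ)) = 0 := by simp [flT]
    unfold szP nszP
    simp only [h2, Finset.sum_const_zero, add_zero]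
    rw [h1]
    omega
  · intro h
    have h1 := MainPA_one Y k (S.filter fun m => 2 ≤ m) (fun _ => 0) (S.count 1) x h
    refine Y.mono k ⟨(S.filter fun m => 2 ≤ m) + Multiset.replicate (S.count 1) 1, x, fun _ => 0⟩
      ⟨S, x, fun _ => 0⟩ (MainPA_le S) le_rfl (fun _ => le_rfl) h1

theorem near_of_path (H : NumP L Y E kt P) (j0 jE : ℕ) (hj : j0 ≤ jE) (hkt : jE ≤ kt)
    (hj0 : ∀ l, M ≤ ct Y.dir l j0) (hjE : ∀ l, ct Y.dir l j0 < ct Y.dir l jE) (S : Multiset ℕ)
    (hS : ∀ m ∈ S, m ≤ M) (x : ℕ) (hx : Y.R jE + L.hi M + 1 ≤ x)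
    (hsum : Y.R kt ≤ (S.map L.hi).sum + x) : Y.K kt ⟨S, x, fun _ => 0⟩ := by
  by_cases hR : Y.R kt ≤ x
  · have h1 : Y.K kt ⟨0, x, fun _ => 0⟩ :=
      Y.full kt 0 x (fun _ => 0) (fun m hm => absurd hm (Multiset.notMem_zero m)) (by simpa using hR)
    exact Y.mono kt ⟨0, x, fun _ => 0⟩ ⟨S, x, fun _ => 0⟩ (Multiset.zero_le _) le_rfl
      (fun _ => le_rfl) h1
  · push Not at hR
    obtain ⟨S₁, hS₁, h1, h2, -⟩ := exists_drop L.hi (L.hi M) (Y.R kt - x) S
      (fun m hm => L.hi_mono (hS m hm)) (by omega)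
    obtain ⟨c, hc, hcΦ, hcs, hcsz, hcK⟩ := of_multisetP L Y kt S₁
      (fun m hm => hS m (Multiset.mem_of_le hS₁ hm)) x
    have h3 : Y.K kt c := by
      refine endAP H j0 jE hj hj0 hjE kt hkt le_rfl c hc ?_ ?_ ?_
      · intro l
        rw [hcΦ]
        simp [trT]
      · rw [hcsz]
        omega
      · rw [hcsz]
        omega
    exact Y.mono kt ⟨S₁, x, fun _ => 0⟩ ⟨S, x, fun _ => 0⟩ hS₁ le_rfl (fun _ => le_rfl) (hcK h3)

end Pool.Agent.H18.Tk

end
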