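import Pool.Agent.H94.LP1.H18.Tk.ChooseN
import Pool.Agent.H94.LP1.M09
import Pool.Agent.H94.LP1.M36
import Pool.Agent.H94.LP1.M37

/-! The parts of this file: H18.Tk.MainPT, H18.Tk.ExactN. -/

section

/-!
# Module P4b (TK): exactness

Adapt `exact_of_num` in `Pool/Agent/H18/Tj/MainT.lean` (there `jE = M + 2`).  The directions `dir i` for
`kt - M ≤ i ≤ kt` are equal to `l₁`.  Let `s₀ = R jE + hi M + 1`, `F = F kt`, `cE L * s₀ ≤ F`.  Drop superfluous
points: `R kt ≤ sz ≤ R kt + hi M`.  If `s₀ ≤ c.s` use `endAP`.  Otherwise `M s₀ ≤ card N`, hence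
(`exists_replicate_le`) `replicate s₀ μ ≤ N`, `2 ≤ μ ≤ M`.  Step 1 with `I₀ = replicate s₀ μ`, then `μ - 2` steps with
`I₀ = 0` (all along `l₁`): at the state `j + 1 = kt - (μ - 1)` the forced conditions are
`Φ l₁ = X + replicate s₀ (1, 1)`, `Φ l = 0` for `l ≠ l₁`.  `Y.bridge`: (A) `⟨N, s + s₀, X⟩` at the state `j + 1`: `endAP`
(`szP` is unchanged); (B) `⟨N, s, shf X⟩` at the state `j`: `sz = sz₂ - tr₂` (`flT_shf`), so the surplus is at least
`F (j + 1) - tr₂ ≥ F (j + 1) / (2 M) ≥ (hi M + 2 M) R jE`, and `2 M tr (shf X) ≤ 2 (M - 1) F (j + 1) ≤ (2 M - 1) P l₁ j`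
(`trT_shf`, `slow`): `endBP`.

`F i = P l₁ i` for `kt - M ≤ i ≤ kt`, `i ≥ 1` (`top`), so `slow` gives `E F (i + 1) ≤ E F i + F (i + 1)`, hence
`E F kt ≤ E F (kt - i) + i F kt` for `i ≤ M` (by induction; there is no monotonicity here: if `F (kt - i) ≥ F kt` the next
step is immediate from `slow`, otherwise as in TJ), in particular `F (j + 1) ≥ F kt / 2`.
-/

namespace Pool.Agent.H18.Tk

open Finset Function Pool.Agent.H18.Ex Pool.Agent.H18.Tj

variable {Λ : Type} [Fintype Λ] [DecidableEq Λ]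

variable {M : ℕ} {L : Lens M} {Y : SysP Λ} {E kt : ℕ} {P : Λ → ℕ → ℕ}

private theorem MainPT_sub (n F : ℕ) (hn : 1 ≤ n) : (n - 1) * F + F = n * F := by
  obtain ⟨m, rfl⟩ := Nat.exists_eq_add_of_le hn
  rw [Nat.add_sub_cancel_left]
  ring

private theorem MainPT_mono : Monotone shf := fun _ _ h =>
  Multiset.filter_le_filter _ (Multiset.map_le_map h)

private theorem MainPT_trT_zero (L : Lens M) : trT L 0 = 0 := by
  unfold trT
  simp

private theorem MainPT_flT_zero (L : Lens M) : flT L 0 = 0 := by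
  unfold flT
  simp

private theorem MainPT_trT_rep (L : Lens M) (s : ℕ) : trT L (Multiset.replicate s (1, 1)) = s := by
  unfold trT
  rw [Multiset.map_replicate, Multiset.sum_replicate]
  simp [L.lo_one]

private theorem MainPT_flT_rep (L : Lens M) (s : ℕ) : flT L (Multiset.replicate s (1, 1)) = s := by
  unfold flT
  rw [Multiset.map_replicate, Multiset.sum_replicate]
  simp [L.hi_one]

private theorem MainPT_sum (L : Lens M) (l₁ : Λ) (Φ : Λ → Multiset (ℕ × ℕ))
    (h : ∀ l, l ≠ l₁ → Φ l = 0) : ∑ l, flT L (Φ l) = flT L (Φ l₁) := by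
  refine Finset.sum_eq_single l₁ (fun l _ hl => ?_) (fun h1 => absurd (Finset.mem_univ _) h1)
  rw [h l hl, MainPT_flT_zero]

/-- Several steps without distinguished points. -/
private theorem MainPT_steps (H : NumP L Y E kt P) (l₁ : Λ) : ∀ (ν j : ℕ), j + ν ≤ kt →
    (∀ i, j < i → i ≤ j + ν → Y.dir i = l₁) → ∀ c : Cfg Λ,
    c.OK M → InvP L P (j + ν) c → Y.R (j + ν) ≤ szP L c → (∀ l, l ≠ l₁ → c.Φ l = 0) →
    ∃ c' : Cfg Λ, c'.OK M ∧ (Y.K j c' → Y.K (j + ν) c) ∧
      InvP L P j c' ∧ Y.R j ≤ szP L c' ∧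
      szP L c' + Y.R (j + ν) = szP L c + Y.R j ∧ shf^[ν] (c.Φ l₁) ≤ c'.Φ l₁ ∧
      (∀ l, l ≠ l₁ → c'.Φ l = 0) := by
  intro ν
  induction ν with
  | zero =>
    intro j _ _ c hc htr hsz hΦ
    exact ⟨c, hc, id, htr, hsz, rfl, le_rfl, hΦ⟩
  | succ ν ih =>
    intro j hjk hdir c hc htr hsz hΦ
    have hd : Y.dir (j + ν + 1) = l₁ := hdir (j + ν + 1) (by omega) (by omega)
    obtain ⟨c₁, h1, h2, h3, h4, h5, -, -, -, h6, h7, -, -⟩ := step_invP H (j + ν) (by omega) c hc
      htr hsz 0 (Multiset.zero_le _) (by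
        have := room_zeroP H (j + ν) (by omega) c htr
        simpa using this)
    rw [hd] at h6 h7
    obtain ⟨c₂, g1, g2, g3, g4, g5, g6, g7⟩ := ih j (by omega) (fun i hi1 hi2 =>
      hdir i hi1 (by omega)) c₁ h1 h3 h4 (fun l hl => by rw [h7 l hl]; exact hΦ l hl)
    refine ⟨c₂, g1, fun h => h2 (g2 h), g3, g4, ?_, ?_, g7⟩
    · have h8 := Y.count (j + ν)
      have h9 : j + (ν + 1) = j + ν + 1 := rfl
      rw [h9]
      omega
    · rw [Function.iterate_succ_apply]
      refine le_trans (MainPT_mono.iterate ν ?_) g6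
      exact (Multiset.le_add_right _ _).trans h6

/-- The traces decrease slowly. -/
private theorem MainPT_slow (H : NumP L Y E kt P) (l₁ : Λ) (hE1 : 1 ≤ E) (hkt : M + 1 ≤ kt)
    (hpre : ∀ i, kt ≤ i + M → i ≤ kt → Y.dir i = l₁) : ∀ i, i ≤ M →
    E * Y.F kt ≤ E * Y.F (kt - i) + i * Y.F kt := by
  intro i
  induction i with
  | zero => intro _; simp
  | succ i ih =>
    intro hi
    have h2 := ih (by omega)
    obtain ⟨k, hk⟩ : ∃ k, kt = (k + 1) + (i + 1) := ⟨kt - (i + 2), by omega⟩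
    have e1 : kt - i = k + 1 + 1 := by omega
    have e2 : kt - (i + 1) = k + 1 := by omega
    rw [e1] at h2
    rw [e2]
    have hd1 : Y.dir (k + 1) = l₁ := hpre (k + 1) (by omega) (by omega)
    have hd2 : Y.dir (k + 1 + 1) = l₁ := hpre (k + 1 + 1) (by omega) (by omega)
    have h3 := H.slow (k + 1) (by omega)
    have h4 := H.top k (by omega)
    rw [hd2] at h3
    rw [hd1] at h4
    rw [h4] at h3
    have h5 : (i + 1) * Y.F kt = i * Y.F kt + Y.F kt := by ring
    rw [h5]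
    rcases le_total (Y.F (k + 1 + 1)) (Y.F kt) with h6 | h6
    · omega
    · obtain ⟨e, rfl⟩ : ∃ e, E = e + 1 := ⟨E - 1, by omega⟩
      have h7 : (e + 1) * Y.F (k + 1 + 1) = e * Y.F (k + 1 + 1) + Y.F (k + 1 + 1) := by ring
      have h8 : e * Y.F kt ≤ e * Y.F (k + 1 + 1) := Nat.mul_le_mul_left _ h6
      have h9 : (e + 1) * Y.F kt = e * Y.F kt + Y.F kt := by ring
      omega

theorem exact_of_path (H : NumP L Y E kt P) (l₁ : Λ) (j0 jE : ℕ) (hj : j0 ≤ jE)
    (hkt : jE + M + 1 ≤ kt) (hj0 : ∀ l, M ≤ ct Y.dir l j0)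
    (hjE : ∀ l, ct Y.dir l j0 < ct Y.dir l jE) (hpre : ∀ i, kt ≤ i + M → i ≤ kt → Y.dir i = l₁)
    (hC : cE L * (Y.R jE + L.hi M + 1) ≤ Y.F kt) (S : Multiset ℕ)
    (hS : ∀ m ∈ S, m ≤ M) (hsum : Y.R kt ≤ (S.map L.hi).sum) : Y.K kt ⟨S, 0, fun _ => 0⟩ := by
  have hM : 1 ≤ M := H.hM
  have hb1 : 1 ≤ L.hi M := L.hi_pos hM
  have ha1 : 1 ≤ L.lo M := L.lo_pos hM le_rfl
  have hE := H.hE
  set a := L.lo M with ha
  set b := L.hi M with hb
  set F := Y.F kt with hF
  set s₀ := Y.R jE + b + 1 with hs₀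
  have hcE : cE L = 64 * M * (M + 1) * (a + 1) ^ 2 * (b + 1) := rfl
  -- numerical consequences
  have hc1 : 64 * (a + 1) ≤ cE L := by
    rw [hcE]
    calc 64 * (a + 1) = 64 * 1 * 1 * (a + 1) * 1 := by ring
      _ ≤ 64 * M * (M + 1) * (a + 1) ^ 2 * (b + 1) := by
        gcongr
        · omega
        · rw [pow_two]; exact Nat.le_mul_of_pos_left _ (by omega)
        · omega
  have hc2 : 64 * (M * (b + 1)) ≤ cE L := by
    rw [hcE]
    calc 64 * (M * (b + 1)) = 64 * M * 1 * 1 * (b + 1) := by ring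
      _ ≤ 64 * M * (M + 1) * (a + 1) ^ 2 * (b + 1) := by
        gcongr
        · omega
        · exact Nat.one_le_pow _ _ (by omega)
  have hc3 : 64 * (M * (b + M)) ≤ cE L := by
    rw [hcE]
    calc 64 * (M * (b + M)) ≤ 64 * (M * ((M + 1) * (b + 1))) := by
          gcongr
          have : (M + 1) * (b + 1) = M * b + M + b + 1 := by ring
          omega
      _ = 64 * M * (M + 1) * 1 * (b + 1) := by ring
      _ ≤ 64 * M * (M + 1) * (a + 1) ^ 2 * (b + 1) := by
        gcongr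
        exact Nat.one_le_pow _ _ (by omega)
  have hc4 : 64 * M ≤ E := by
    have h1 : cE L ≤ 2 * cE L := Nat.le_mul_of_pos_left _ (by omega)
    refine le_trans ?_ (h1.trans hE)
    refine le_trans ?_ hc2
    gcongr
    exact Nat.le_mul_of_pos_right _ (by omega)
  obtain ⟨k₀, hk₀⟩ : ∃ k₀, kt = k₀ + 1 := ⟨kt - 1, by omega⟩
  have hdkt : Y.dir kt = l₁ := hpre kt (by omega) le_rfl
  have hPkt : P l₁ kt = F := by
    have h1 := H.top k₀ (by omega)
    rw [← hk₀, hdkt] at h1
    exact h1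
  have hFR : F ≤ Y.R kt := by
    have h1 := H.low l₁ kt le_rfl
    rw [hPkt] at h1
    exact (Nat.le_mul_of_pos_left F (by omega)).trans h1
  have hs₀1 : 1 ≤ s₀ := by omega
  -- drop superfluous points
  obtain ⟨S₁, hS₁, hs1, hs2, -⟩ := exists_drop L.hi b (Y.R kt) S
    (fun m hm => L.hi_mono (hS m hm)) hsum
  refine Y.mono kt ⟨S₁, 0, fun _ => 0⟩ ⟨S, 0, fun _ => 0⟩ hS₁ le_rfl (fun _ => le_rfl) ?_
  obtain ⟨c, hc, hcΦ, -, hcsz, hcK⟩ := of_multisetP L Y kt S₁
    (fun m hm => hS m (Multiset.mem_of_le hS₁ hm)) 0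
  refine hcK ?_
  rw [add_zero] at hcsz
  rw [← hcsz] at hs1 hs2
  have hcΦ' : ∀ l, c.Φ l = 0 := fun l => by rw [hcΦ]
  have hinv : InvP L P kt c := by
    intro l
    rw [hcΦ' l, MainPT_trT_zero]
    simp
  by_cases hbig : s₀ ≤ c.s
  · exact endAP H j0 jE hj hj0 hjE kt (by omega) le_rfl c hc hinv hs1 (by omega)
  push Not at hbig
  -- many points of the same multiplicity
  have hcard : M * s₀ ≤ c.N.card := by
    have h1 : (c.N.map L.hi).sum ≤ b * c.N.card := by
      have := Multiset.sum_le_card_nsmul (c.N.map L.hi) b (by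
        intro x hx
        obtain ⟨m, hm, rfl⟩ := Multiset.mem_map.1 hx
        exact L.hi_mono (hc.hN m hm).2)
      rw [Multiset.card_map, smul_eq_mul, mul_comm] at this
      exact this
    have h2 : szP L c = (c.N.map L.hi).sum + c.s := by
      unfold szP nszP
      rw [MainPT_sum L l₁ c.Φ (fun l _ => hcΦ' l), hcΦ' l₁, MainPT_flT_zero, add_zero]
    have h3 : (1 + b * M) * s₀ ≤ F := by
      refine le_trans (Nat.mul_le_mul_right _ ?_) hC
      refine le_trans ?_ hc2
      have : 64 * (M * (b + 1)) = 64 * (b * M) + 64 * M := by ring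
      omega
    have h4 : b * (M * s₀) ≤ b * c.N.card := by
      have h5 : (1 + b * M) * s₀ = s₀ + b * (M * s₀) := by ring
      omega
    exact Nat.le_of_mul_le_mul_left h4 (by omega)
  obtain ⟨μ, hμN, hμ⟩ := exists_replicate_le c.N M s₀ (fun m hm => by
    have := hc.hN m hm
    omega) hcard hM hs₀1
  have hμ2 := hc.hN μ hμN
  obtain ⟨ν, rfl⟩ : ∃ ν, μ = ν + 2 := ⟨μ - 2, by omega⟩
  obtain ⟨j, hj'⟩ : ∃ j, kt = j + (ν + 2) := ⟨kt - (ν + 2), by omega⟩
  have hj2 : jE ≤ j := by omega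
  -- the first step
  have ek : kt = (j + 1 + ν) + 1 := by omega
  have hdk : Y.dir (j + 1 + ν + 1) = l₁ := by rw [← ek]; exact hdkt
  have hroom : trT L (c.Φ l₁) + ((Multiset.replicate s₀ (ν + 2)).map L.lo).sum + (F / E + 1) ≤
      F := by
    rw [hcΦ' l₁, MainPT_trT_zero, Multiset.map_replicate, Multiset.sum_replicate, smul_eq_mul,
      zero_add]
    have h1 : s₀ * L.lo (ν + 2) ≤ s₀ * a := Nat.mul_le_mul_left _ (L.lo_mono hμ2.2 le_rfl)
    have h2 : 64 * (a + 1) * s₀ ≤ F := (Nat.mul_le_mul_right _ hc1).trans hC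
    have h3 : 64 * (a + 1) * s₀ = 64 * (s₀ * a) + 64 * s₀ := by ring
    have h4 : E * (F / E) ≤ F := Nat.mul_div_le F E
    have h5 : 64 * (F / E) ≤ E * (F / E) := Nat.mul_le_mul_right _ (by omega)
    omega
  obtain ⟨c₁, hc₁, hK₁, htr₁, hR₁, hsz₁, -, -, -, hΦ₁, hΦ₁', -, -⟩ := step_invP H (j + 1 + ν)
    (by omega) c hc (by rw [← ek]; exact hinv) (by rw [← ek]; exact hs1)
    (Multiset.replicate s₀ (ν + 2)) hμ (by rw [hdk, ← ek]; exact hroom)
  rw [hdk] at hΦ₁ hΦ₁'
  rw [← ek] at hK₁ hsz₁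
  refine hK₁ ?_
  -- the following steps
  obtain ⟨c₂, hc₂, hK₂, htr₂, hR₂, hsz₂, hΦ₂, hΦ₂'⟩ := MainPT_steps H l₁ ν (j + 1) (by omega)
    (fun i hi1 hi2 => hpre i (by omega) (by omega)) c₁ hc₁ htr₁ hR₁
    (fun l hl => by rw [hΦ₁' l hl, hcΦ' l])
  refine hK₂ ?_
  -- the forced simple points
  have hrepl : Multiset.replicate s₀ (1, 1) ≤ c₂.Φ l₁ := by
    have h1 : Multiset.replicate s₀ (ν + 1, 1) ≤ c₁.Φ l₁ := by
      refine le_trans ?_ hΦ₁
      rw [Multiset.map_replicate]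
      exact Multiset.le_add_left _ _
    refine le_trans (le_of_eq ?_) ((MainPT_mono.iterate ν h1).trans hΦ₂)
    rw [shf_iterate_replicate _ _ _ le_rfl]
    simp
  obtain ⟨X, hX⟩ := Multiset.le_iff_exists_add.1 hrepl
  rw [add_comm] at hX
  obtain ⟨N₂, t₂, Φ₂⟩ := c₂
  simp only at hX hrepl
  have hXval : ∀ x ∈ X, 1 ≤ x.2 ∧ x.2 ≤ 2 ∧ x.2 ≤ x.1 ∧ x.1 ≤ M := fun x hx =>
    hc₂.hΦ l₁ x (by simp only; rw [hX]; exact Multiset.mem_add.2 (Or.inl hx))
  have htrX : trT L (Φ₂ l₁) = trT L X + s₀ := by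
    rw [hX, trT_add, MainPT_trT_rep]
  have hflX : flT L (Φ₂ l₁) = flT L X + s₀ := by
    rw [hX, flT_add, MainPT_flT_rep]
  have hPj1 : P l₁ (j + 1) = Y.F (j + 1) := by
    have h1 := H.top j (by omega)
    rw [hpre (j + 1) (by omega) (by omega)] at h1
    exact h1
  have htr₂' := htr₂ l₁
  simp only at htr₂' hΦ₂ hΦ₂'
  rw [htrX, hPj1] at htr₂'
  -- sizes
  have hnsz : szP L (⟨N₂, t₂, Φ₂⟩ : Cfg Λ) = (N₂.map L.hi).sum + t₂ + (flT L X + s₀) := by
    unfold szP nszP
    simp only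
    rw [MainPT_sum L l₁ Φ₂ hΦ₂', hflX]
  have hcount := Y.count (j + 1 + ν)
  rw [← ek] at hcount
  have hcountj := Y.count j
  have hszA : szP L (⟨N₂, t₂, Φ₂⟩ : Cfg Λ) ≤ Y.R (j + 1) + b := by
    omega
  -- the traces
  have h2M : (2 * M - 1) * Y.F (j + 1) + Y.F (j + 1) = 2 * M * Y.F (j + 1) :=
    MainPT_sub _ _ (by omega)
  have h2Mj : (2 * M - 1) * P l₁ j + P l₁ j = 2 * M * P l₁ j := MainPT_sub _ _ (by omega)
  have hslow := MainPT_slow H l₁ (by omega) (by omega) hpre (ν + 1) (by omega)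
  rw [show kt - (ν + 1) = j + 1 by omega, ← hF] at hslow
  have hhalf : F ≤ 2 * Y.F (j + 1) := by
    have h1 : 2 * ((ν + 1) * F) ≤ E * F := by
      rw [← mul_assoc]
      exact Nat.mul_le_mul_right _ (by omega)
    have h2 : E * F ≤ E * (2 * Y.F (j + 1)) := by
      have : E * (2 * Y.F (j + 1)) = 2 * (E * Y.F (j + 1)) := by ring
      omega
    exact Nat.le_of_mul_le_mul_left h2 (by omega)
  have hdj : Y.dir (j + 1) = l₁ := hpre (j + 1) (by omega) (by omega)
  have hup : ∀ Z : Multiset (ℕ × ℕ), ∀ l, l ≠ l₁ → update Φ₂ l₁ Z l = 0 := fun Z l hl => by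
    rw [update_of_ne hl]
    exact hΦ₂' l hl
  have hbr := Y.bridge j N₂ t₂ s₀ (update Φ₂ l₁ X)
  rw [hdj, update_self, update_idem, update_idem, ← hX, update_eq_self] at hbr
  refine hbr ?_ ?_
  · -- (A)
    have hszA' : szP L (⟨N₂, t₂ + s₀, update Φ₂ l₁ X⟩ : Cfg Λ) =
        (N₂.map L.hi).sum + (t₂ + s₀) + flT L X := by
      unfold szP nszP
      simp only
      rw [MainPT_sum L l₁ _ (hup X), update_self]
    refine endAP H j0 jE hj hj0 hjE (j + 1) (by omega) (by omega)
      ⟨N₂, t₂ + s₀, update Φ₂ l₁ X⟩ ⟨hc₂.hN, ?_⟩ ?_ ?_ ?_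
    · intro l
      simp only
      by_cases hl : l = l₁
      · subst hl
        rw [update_self]
        exact hXval
      · rw [hup X l hl]
        intro x hx
        exact absurd hx (Multiset.notMem_zero x)
    · intro l
      simp only
      by_cases hl : l = l₁
      · subst hl
        rw [update_self, hPj1]
        refine le_trans (Nat.mul_le_mul_left _ ?_) htr₂'
        exact Nat.le_add_right _ _
      · rw [hup X l hl, MainPT_trT_zero]
        simp
    · omega
    · simp only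
      omega
  · -- (B)
    have hfl := flT_shf L X hXval
    have hszB : szP L (⟨N₂, t₂, update Φ₂ l₁ (shf X)⟩ : Cfg Λ) =
        (N₂.map L.hi).sum + t₂ + flT L (shf X) := by
      unfold szP nszP
      simp only
      rw [MainPT_sum L l₁ _ (hup (shf X)), update_self]
    refine endBP H jE j hj2 (by omega) ⟨N₂, t₂, update Φ₂ l₁ (shf X)⟩ ⟨hc₂.hN, ?_⟩ ?_ ?_
    · intro l
      simp only
      by_cases hl : l = l₁
      · subst hl
        rw [update_self]
        exact shf_ok hXval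
      · rw [hup (shf X) l hl]
        intro x hx
        exact absurd hx (Multiset.notMem_zero x)
    · intro l
      simp only
      by_cases hl : l = l₁
      · subst hl
        rw [update_self]
        have h1 := trT_shf L X hXval
        have h2 : 2 * M * trT L (shf X) ≤ 2 * (M - 1) * trT L X := by
          calc 2 * M * trT L (shf X) = 2 * (M * trT L (shf X)) := by ring
            _ ≤ 2 * ((M - 1) * trT L X) := Nat.mul_le_mul_left _ h1
            _ = 2 * (M - 1) * trT L X := by ring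
        have h3 : trT L X ≤ Y.F (j + 1) := by
          have h4 : 2 * M * trT L X ≤ 2 * M * Y.F (j + 1) := by
            have h5 : 2 * M * trT L X ≤ 2 * M * (trT L X + s₀) :=
              Nat.mul_le_mul_left _ (Nat.le_add_right _ _)
            omega
          exact Nat.le_of_mul_le_mul_left h4 (by omega)
        have h4 : 2 * (M - 1) * trT L X ≤ 2 * (M - 1) * Y.F (j + 1) := Nat.mul_le_mul_left _ h3
        have h5 : 2 * (M - 1) * Y.F (j + 1) + Y.F (j + 1) + Y.F (j + 1) =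
            2 * M * Y.F (j + 1) := by
          have h6 := MainPT_sub M (Y.F (j + 1)) hM
          calc 2 * (M - 1) * Y.F (j + 1) + Y.F (j + 1) + Y.F (j + 1) =
              2 * ((M - 1) * Y.F (j + 1) + Y.F (j + 1)) := by ring
            _ = 2 * (M * Y.F (j + 1)) := by rw [h6]
            _ = 2 * M * Y.F (j + 1) := by ring
        have h6 := H.slow j (by omega)
        rw [hdj] at h6
        -- `2 (M - 1) F (j + 1) ≤ (2 M - 1) P l j`
        rcases le_total (P l j) (Y.F (j + 1)) with h9 | h9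
        · have h7 : 2 * M * Y.F (j + 1) ≤ 2 * M * P l j + Y.F (j + 1) := by
            have h8 : E * (2 * M * Y.F (j + 1)) ≤ E * (2 * M * P l j + Y.F (j + 1)) := by
              calc E * (2 * M * Y.F (j + 1)) = 2 * M * (E * Y.F (j + 1)) := by ring
                _ ≤ 2 * M * (E * P l j + Y.F (j + 1)) := Nat.mul_le_mul_left _ h6
                _ = E * (2 * M * P l j) + 2 * M * Y.F (j + 1) := by ring
                _ ≤ E * (2 * M * P l j) + E * Y.F (j + 1) := by
                  gcongr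
                  omega
                _ = E * (2 * M * P l j + Y.F (j + 1)) := by ring
            exact Nat.le_of_mul_le_mul_left h8 (by omega)
          omega
        · have h7 : 2 * (M - 1) * Y.F (j + 1) ≤ (2 * M - 1) * P l j :=
            Nat.mul_le_mul (by omega) h9
          omega
      · rw [hup (shf X) l hl, MainPT_trT_zero]
        simp
    · -- the surplus
      have h1 : 2 * M * (trT L X + s₀ + (b + 2 * M) * Y.R jE) ≤ 2 * M * Y.F (j + 1) := by
        have h2 : 64 * (M * (b + M)) * s₀ ≤ F := (Nat.mul_le_mul_right _ hc3).trans hC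
        have h3 : M * (b + M) * Y.R jE ≤ M * (b + M) * s₀ := Nat.mul_le_mul_left _ (by omega)
        have h4 : 64 * (M * (b + M)) * s₀ = 64 * (M * (b + M) * s₀) := by ring
        have h5 : 2 * M * (trT L X + s₀ + (b + 2 * M) * Y.R jE) ≤
            2 * M * (trT L X + s₀) + 4 * (M * (b + M) * Y.R jE) := by
          have h6 : 4 * (M * (b + M) * Y.R jE) =
            2 * M * ((b + 2 * M) * Y.R jE) + 2 * M * b * Y.R jE := by ring
          rw [h6, Nat.mul_add (2 * M)]
          omega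
        omega
      have h2 : trT L X + s₀ + (b + 2 * M) * Y.R jE ≤ Y.F (j + 1) :=
        Nat.le_of_mul_le_mul_left h1 (by omega)
      rw [← hb]
      omega

end Pool.Agent.H18.Tk

end

section

/-!
# Module C12 (TK): exactness of normalised regions with three long coordinates

`B = bK q M E' D'`, `Q = 2 q³ E'`, `C = cQ q M (2 q)^q`, `X = M^(q + 1) + 1`; `n1, n2, a, b, s` from `choose_n` for `w l1`,
`w l2`, `σ`; `n = n1 + n2`, `p = n / n1 + 3`.  The path of `sysC` with `Λ = Bool`, `δ true = l1`, `δ false = l2`, `dir = dirB n1 n`,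
`w₀ = update (update w l1 a) l2 b`, `σ₀ = s`, `kt = n + (M + 1)`: its state `kt` is `Rg σ w` (`wS_apply`, `wS_other`,
`ctB_top`).
* `num_sysC` with `E := E'`, `D := D'`, `l₁ = true`, `u true = l2`, `u false = l1`: `hlo`: `w (δ l) ≤ w o`; `hmar`:
  `margin_nrm` with `u`, `w (u l) ≥ w l1 ≥ 2 B`; `hwin`: `windowB`, `2 Q ≤ B`, `Q (n / n1) ≤ b, s`; `hex`: the coordinates `o` and
  `δ d'`, `d' ≠ d = dir (j + 1)`, have width at least `B ≥ D'` (`le_wS`).
* `exact_of_path` with `j0 = M p`, `jE = (M + 1) p`, `l₁ = true` (`tailB`; `hpre`: `i > n`).  `hC`: with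
  `Π = ∏_{i ≠ o, l1, l2} (w i + 1)`: `R jE ≤ (min (a + 4 (M + 1)) (s + jE) + 1) (min b s + jE + 1) Π` by `card_small` (`ctB_end`,
  `ct false jE ≤ jE`, `min (b + jE) (s + jE) = min b s + jE`; the widths `wS jE i` for `i ≠ l1, l2` are `w i`);
  `F kt = fc σ w l1`, `w l2 Π ≤ (2 q)^q F kt` (`facet_big`); `cE L ≤ cQ q M` (`cE_le`), `hi M ≤ M^q ≤ M^(q+1)` (`hi_wS`, `Lx_le_pow`);
  so `(2 q)^q cE L (R jE + hi M + 1) ≤ C (… + X) Π ≤ w l2 Π ≤ (2 q)^q F kt`.
* `NE M 0 σ w`: apply the result to `S + replicate x 1` (`Lx_one`), `hi m = Lx w m` (`hi_wS` at the state `kt`).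
-/

namespace Pool.Agent.H18.Tk

open Finset Function Pool.Agent.H18.Ex Pool.Agent.H18.Tj

variable {ι : Type} [Fintype ι] [DecidableEq ι]

/-- The bound. -/
def dN (q M E' D' : ℕ) : ℕ :=
  dC (bK q M E' D') (cQ q M * (2 * q) ^ q) (M ^ (q + 1) + 1)

theorem exact_nrm {q M E' D' : ℕ} (hq : Fintype.card ι ≤ q) (hM : 1 ≤ M) (o l1 l2 : ι)
    (h1o : l1 ≠ o) (h2o : l2 ≠ o) (hll : l1 ≠ l2) (w : ι → ℕ) (σ : ℕ) (hwo : ∀ i, w i ≤ w o)
    (hwσ : ∀ i, w i ≤ σ) (h2 : 2 * σ ≤ ∑ i, w i) (hE' : 2 * cQ q M ≤ E')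
    (hle : w l1 ≤ w l2) (hl : dN q M E' D' ≤ w l1)
    (hex : ∀ h c : ι, h ≠ c → ∀ w' : ι → ℕ, D' ≤ w' h → D' ≤ w' c → NEr M E' D' w') :
    NE M 0 σ w := by
  classical
  set B := bK q M E' D' with hBdef
  set Q := 2 * q ^ 3 * E' with hQdef
  have hQB : 2 * Q ≤ B := by
    rw [hBdef, hQdef]
    unfold bK
    have : 2 * (2 * q ^ 3 * E') = 4 * q ^ 3 * E' := by ring
    omega
  have hMB : M + 1 ≤ B := by
    rw [hBdef]
    unfold bK
    omega
  have hDB : D' ≤ B := by
    rw [hBdef]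
    unfold bK
    omega
  have h100 : 100 * B ≤ w l1 := by
    refine le_trans ?_ hl
    unfold dN dC
    omega
  obtain ⟨n1, n2, a, b, s, ha, hb, hs, hn1, hn12, hBa, hBb, hBs, hQb, hQs, hMn, hCw⟩ :=
    choose_n M B Q (cQ q M * (2 * q) ^ q) (M ^ (q + 1) + 1) (w l1) (w l2) σ hQB hMB hl hle
      (hwσ l2)
  obtain ⟨kt, hkt⟩ : ∃ kt, kt = n1 + n2 + (M + 1) := ⟨_, rfl⟩
  obtain ⟨p, hp⟩ : ∃ p, p = (n1 + n2) / n1 + 3 := ⟨_, rfl⟩
  rw [← hp] at hMn hCw
  -- the system
  let δ : Bool → ι := fun t => if t = true then l1 else l2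
  have hδ1 : δ true = l1 := by simp [δ]
  have hδ2 : δ false = l2 := by simp [δ]
  have hδ : Injective δ := by
    intro x y hxy
    cases x <;> cases y
    · rfl
    · rw [hδ1, hδ2] at hxy
      exact absurd hxy.symm hll
    · rw [hδ1, hδ2] at hxy
      exact absurd hxy hll
    · rfl
  let u : Bool → ι := fun t => if t = true then l2 else l1
  have hu1 : u true = l2 := by simp [u]
  have hu2 : u false = l1 := by simp [u]
  have hδo : ∀ l, δ l ≠ o := by
    intro l
    cases l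
    · rw [hδ2]; exact h2o
    · rw [hδ1]; exact h1o
  have huo : ∀ l, o ≠ u l := by
    intro l
    cases l
    · rw [hu2]; exact h1o.symm
    · rw [hu1]; exact h2o.symm
  have huδ : ∀ l, u l ≠ δ l := by
    intro l
    cases l
    · rw [hu2, hδ2]; exact hll
    · rw [hu1, hδ1]; exact hll.symm
  obtain ⟨w₀, hw₀⟩ : ∃ w₀ : ι → ℕ, w₀ = update (update w l1 a) l2 b := ⟨_, rfl⟩
  have hw1 : w₀ l1 = a := by
    rw [hw₀, update_of_ne hll, update_self]
  have hw2 : w₀ l2 = b := by
    rw [hw₀, update_self]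
  have hwi : ∀ i, i ≠ l1 → i ≠ l2 → w₀ i = w i := by
    intro i hi1 hi2
    rw [hw₀, update_of_ne hi2, update_of_ne hi1]
  have hwo' : w₀ o = w o := hwi o h1o.symm h2o.symm
  set dir := dirB n1 (n1 + n2) with hdir
  have hnpos : 0 < n1 + n2 := by omega
  have htop := ctB_top (n1 := n1) (n := n1 + n2) hnpos (by omega) (M + 1)
  rw [← hdir, ← hkt] at htop
  have hS1 : ∀ j, wS δ dir w₀ j l1 = a + ct dir true j := by
    intro j
    have h := wS_apply hδ dir w₀ true j
    rw [hδ1, hw1] at h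
    exact h
  have hS2 : ∀ j, wS δ dir w₀ j l2 = b + ct dir false j := by
    intro j
    have h := wS_apply hδ dir w₀ false j
    rw [hδ2, hw2] at h
    exact h
  have hSi : ∀ j i, i ≠ l1 → i ≠ l2 → wS δ dir w₀ j i = w i := by
    intro j i hi1 hi2
    rw [wS_other dir w₀ (fun l => ?_) j, hwi i hi1 hi2]
    cases l
    · rw [hδ2]; exact hi2.symm
    · rw [hδ1]; exact hi1.symm
  have hStop : wS δ dir w₀ kt = w := by
    funext i
    by_cases hi1 : i = l1
    · subst hi1
      rw [hS1, htop.1]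
      omega
    · by_cases hi2 : i = l2
      · subst hi2
        rw [hS2, htop.2]
        omega
      · exact hSi kt i hi1 hi2
  have hσ : s + kt = σ := by omega
  have hdirtop : ∀ i, kt ≤ i + M → i ≤ kt → dir i = true := by
    intro i hi1 hi2
    rw [hdir]
    unfold dirB
    rw [if_pos (by omega)]
  have hBo : B ≤ w₀ o := by
    rw [hwo']
    have := hwo l1
    omega
  have hBδ : ∀ l, B ≤ w₀ (δ l) := by
    intro l
    cases l
    · rw [hδ2, hw2]; exact hBb
    · rw [hδ1, hw1]; exact hBa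
  have hBu : ∀ l, B ≤ w₀ (u l) := by
    intro l
    cases l
    · rw [hu2, hw1]; exact hBa
    · rw [hu1, hw2]; exact hBb
  have h1 : M ≤ update w₀ (δ true) 0 o := by
    rw [update_of_ne (hδo true).symm]
    omega
  have h2' : M ≤ update w₀ (δ true) 0 (u true) := by
    rw [update_of_ne (huδ true)]
    have := hBu true
    omega
  have H := num_sysC hq hM (Λ := Bool) (kt := kt) (E := E') (D := D') (by simp) δ hδ dir s w₀ true
    o u hδo huo huδ hE' hBs hBo hBu hBδ
    (by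
      intro l
      rw [hStop, hwo']
      exact hwo _)
    (by
      intro l
      rw [hStop, hσ]
      have h3 := margin_nrm (δ l) o (hδo l) σ w hwo h2 (u l) (huo l).symm (huδ l)
      have h4 : w l1 ≤ w (u l) := by
        cases l
        · rw [hu2]
        · rw [hu1]; exact hle
      change σ + B ≤ _
      omega)
    (by
      intro j _ i hij hct l
      have h3 := windowB hn1 hn12 i j hij hct
      rw [← hdir] at h3
      change Q * _ ≤ _ ∧ Q * _ ≤ _
      cases l
      · rw [hδ2, hw2]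
        exact ⟨(Nat.mul_le_mul_left _ h3.2).trans hQb, (Nat.mul_le_mul_left _ h3.2).trans hQs⟩
      · rw [hδ1, hw1]
        have h4 : Q * (ct dir true (j + 1) - ct dir true i) ≤ Q * 2 :=
          Nat.mul_le_mul_left _ h3.1
        have h5 : Q * 2 ≤ B := by omega
        exact ⟨h4.trans (h5.trans hBa), h4.trans (h5.trans hBs)⟩)
    (by
      intro j _
      refine hex o (u (dir (j + 1))) (huo _) _ ?_ ?_
      · rw [update_of_ne (hδo _).symm]
        exact hDB.trans (hBo.trans (le_wS δ dir w₀ _ _))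
      · rw [update_of_ne (huδ _)]
        exact hDB.trans ((hBu _).trans (le_wS δ dir w₀ _ _)))
    h1 h2'
  have hhi : ∀ m ≤ M, (lensOf M (update w₀ (δ true) 0) o (u true) (huo true) h1 h2').hi m =
      Lx w m := by
    intro m hm
    rw [hi_wS hδ dir w₀ (fun l => le_trans (by omega) (hBδ l)) hm true kt o (u true) (huo true)
      h1 h2', hStop]
  have hRkt : (sysC δ hδ dir s w₀).R kt = (Rg σ w).card := by
    change (Rg (s + kt) (wS δ dir w₀ kt)).card = _
    rw [hStop, hσ]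
  have hFkt : (sysC δ hδ dir s w₀).F kt = fc σ w l1 := by
    change (Rg (s + kt) (update (wS δ dir w₀ kt) (δ (dir kt)) 0)).card = _
    rw [hStop, hσ, hdirtop kt (by omega) le_rfl, hδ1]
    rfl
  have hq1 : 1 ≤ q := le_trans (Fintype.card_pos_iff.2 ⟨o⟩) hq
  have hC : cE (lensOf M (update w₀ (δ true) 0) o (u true) (huo true) h1 h2') *
      ((sysC δ hδ dir s w₀).R ((M + 1) * p) +
        (lensOf M (update w₀ (δ true) 0) o (u true) (huo true) h1 h2').hi M + 1) ≤
      (sysC δ hδ dir s w₀).F kt := by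
    rw [hFkt, hhi M le_rfl]
    have h3 := cE_le hM hq (update w₀ (δ true) 0) o (u true) (huo true) h1 h2'
    have h4 : Lx w M ≤ M ^ (q + 1) := by
      have h6 := Lx_le_pow (w := w) hq ⟨o⟩ (le_refl M) hM
      refine h6.trans ?_
      exact Nat.pow_le_pow_right hM (by omega)
    obtain ⟨T0, hT0⟩ : ∃ T0, T0 = ∏ i ∈ univ.filter (fun i => i ≠ o ∧ i ≠ l1 ∧ i ≠ l2), (w i + 1) :=
      ⟨_, rfl⟩
    have hT1 : 1 ≤ T0 := by
      rw [hT0]
      exact Finset.prod_pos fun i _ => Nat.succ_pos _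
    have h5 : (sysC δ hδ dir s w₀).R ((M + 1) * p) ≤
        (min (a + 4 * (M + 1)) (s + (M + 1) * p) + 1) * (min b s + (M + 1) * p + 1) * T0 := by
      have h6 := card_small o l1 l2 h1o h2o hll (s + (M + 1) * p) (wS δ dir w₀ ((M + 1) * p))
      have h7 : ∏ i ∈ univ.filter (fun i => i ≠ o ∧ i ≠ l1 ∧ i ≠ l2),
          (wS δ dir w₀ ((M + 1) * p) i + 1) = T0 := by
        rw [hT0]
        refine Finset.prod_congr rfl fun i hi => ?_
        have h8 := (Finset.mem_filter.1 hi).2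
        rw [hSi _ i h8.2.1 h8.2.2]
      rw [h7, hS1, hS2] at h6
      change (Rg (s + (M + 1) * p) (wS δ dir w₀ ((M + 1) * p))).card ≤ _
      refine h6.trans (Nat.mul_le_mul_right _ (Nat.mul_le_mul ?_ ?_))
      · have h9 := ctB_end (n1 := n1) (n2 := n2) M hn1 (by rw [← hp]; exact hMn)
        rw [← hp, ← hdir] at h9
        omega
      · have h9 : ct dir false ((M + 1) * p) ≤ (M + 1) * p := by
          unfold ct
          refine (Finset.card_filter_le _ _).trans ?_
          rw [Finset.card_range]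
        omega
    have h6 := facet_big hq o l1 l2 h1o h2o hll σ w hwo hwσ h2 (by omega) (by omega)
    rw [← hT0] at h6
    refine Nat.le_of_mul_le_mul_left (c := (2 * q) ^ q) ?_ (by positivity)
    refine le_trans ?_ h6
    refine le_trans ?_ (Nat.mul_le_mul_right T0 hCw)
    have h7 : (sysC δ hδ dir s w₀).R ((M + 1) * p) + Lx w M + 1 ≤
        ((min (a + 4 * (M + 1)) (s + (M + 1) * p) + 1) * (min b s + (M + 1) * p + 1) +
          (M ^ (q + 1) + 1)) * T0 := by
      have h8 : M ^ (q + 1) + 1 ≤ (M ^ (q + 1) + 1) * T0 := Nat.le_mul_of_pos_right _ hT1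
      rw [add_mul _ (M ^ (q + 1) + 1) T0]
      omega
    calc (2 * q) ^ q * (cE (lensOf M (update w₀ (δ true) 0) o (u true) (huo true) h1 h2') *
          ((sysC δ hδ dir s w₀).R ((M + 1) * p) + Lx w M + 1))
        ≤ (2 * q) ^ q * (cQ q M *
          (((min (a + 4 * (M + 1)) (s + (M + 1) * p) + 1) * (min b s + (M + 1) * p + 1) +
          (M ^ (q + 1) + 1)) * T0)) := Nat.mul_le_mul_left _ (Nat.mul_le_mul h3 h7)
      _ = _ := by ring
  unfold NE
  intro S hS x _ hsum
  have hS' : ∀ m ∈ S + Multiset.replicate x 1, m ≤ M := by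
    intro m hm
    rcases Multiset.mem_add.1 hm with h | h
    · exact hS m h
    · rw [Multiset.eq_of_mem_replicate h]
      exact hM
  have htail := fun l => tailB (n1 := n1) (n2 := n2) M hn1 hn12 (by rw [← hp]; exact hMn) l
  rw [← hp, ← hdir] at htail
  have hmain := exact_of_path H true (M * p) ((M + 1) * p) (Nat.mul_le_mul_right _ (by omega))
    (by omega) (fun l => (htail l).1) (fun l => (htail l).2) hdirtop hC
    (S + Multiset.replicate x 1) hS' (by
      rw [hRkt]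
      have h3 : ((S + Multiset.replicate x 1).map
          (lensOf M (update w₀ (δ true) 0) o (u true) (huo true) h1 h2').hi).sum =
          ((S + Multiset.replicate x 1).map (Lx w)).sum := by
        congr 1
        exact Multiset.map_congr rfl fun m hm => hhi m (hS' m hm)
      rw [h3, Multiset.map_add, Multiset.sum_add, Multiset.map_replicate, Lx_one,
        Multiset.sum_replicate, smul_eq_mul, mul_one]
      exact hsum)
  have hK : GM (Rg (s + kt) (wS δ dir w₀ kt))
      (kindsS δ (⟨S + Multiset.replicate x 1, 0, fun _ => 0⟩ : Cfg Bool)) := hmain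
  rw [hStop, hσ] at hK
  have hk : kindsS δ (⟨S + Multiset.replicate x 1, 0, fun _ => 0⟩ : Cfg Bool) =
      (S + Multiset.replicate x 1).map Kind.free := by
    unfold kindsS
    simp
  rw [hk] at hK
  exact hK

end Pool.Agent.H18.Tk

end
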