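import Pool.Agent.H94.LP1.M19
import Pool.Agent.H94.LP1.M42

/-! The parts of this file: H18.Ua.UBranch, H18.Ub.VDim_2, H74.CT.Slow_1. -/

section

/-!
# Module UBranch (UA): the branches
-/

namespace Pool.Agent.H18.Ua

open Finset Pool.Agent.H18.Ex Pool.Agent.H18.Cub Pool.Agent.H18.Pr

variable {Λ : Type} [Fintype Λ] [DecidableEq Λ] {n : ℕ}

omit [Fintype Λ] in
private theorem count_flat (M : ℕ) (L : List Λ) (hnd : L.Nodup) (l : Λ) :
    (L.flatMap fun l => List.replicate M l).count l = if l ∈ L then M else 0 := by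
  induction L with
  | nil => simp
  | cons d ds ih =>
    rw [List.flatMap_cons, List.count_append, ih (List.nodup_cons.1 hnd).2, List.count_replicate]
    have h1 := (List.nodup_cons.1 hnd).1
    by_cases h : l = d
    · subst h
      rw [if_neg h1, if_pos List.mem_cons_self]
      simp
    · have h2 : (d == l) = false := by simpa using fun h' => h h'.symm
      rw [h2]
      simp [h]

private theorem list_good (Y : SysN Λ n) {M t : ℕ} {N : Λ → ℕ} (H : NumU Y M t N)
    (L : List Λ) : ∀ (b φ : Λ → ℕ), (∀ i, φ i ≤ nphi n M t) →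
      (∀ i, b i ≤ N i ∧ N i + L.count i ≤ b i + (2 * M + 1)) → GoodN Y M L b φ := by
  induction L with
  | nil =>
    intro b φ _ _
    trivial
  | cons l L ih =>
    intro b φ hφ hb
    have hreg : RegU M N b := fun i => ⟨(hb i).1, by have := (hb i).2; omega⟩
    have hF := H.leF b l hreg
    have hFt := H.Fle b l hreg
    have hl := (hb l).2
    rw [List.count_cons_self] at hl
    have hNl := H.hN l
    have h1 : 1 ≤ b l := by omega
    refine ⟨h1, H.gd b l hreg, ?_, ?_, ?_⟩
    · exact (Nat.add_le_add_right (hφ l) _).trans (nphi_room H.hM H.ht hF)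
    · refine le_trans (Int.ofNat_le.2 ?_) (H.leR b hreg)
      have h2 : ∑ i, φ i ≤ qU n M * t := by
        calc ∑ i, φ i ≤ ∑ _i : Λ, t :=
              sum_le_sum fun i _ => (hφ i).trans (nphi_le H.hM H.ht)
          _ = qU n M * t := by rw [sum_const, card_univ, H.hq, smul_eq_mul]
      have h3 := leR_room (n := n) H.hM H.ht hFt
      have h4 := Nat.mul_le_mul_left M h2
      omega
    · refine ih _ _ ?_ ?_
      · intro i
        by_cases hi : i = l
        · subst hi
          rw [Function.update_self]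
          exact nphi_mono M hFt
        · rw [Function.update_of_ne hi]
          exact hφ i
      · intro i
        have h2 := hb i
        by_cases hi : i = l
        · subst hi
          rw [dn_self]
          omega
        · rw [dn_ne hi]
          rw [List.count_cons_of_ne (fun h => hi h.symm)] at h2
          exact h2

/-- The forced conditions alone are independent: with `x` simple points they kill the state, if the
total length is at least `R a`.  Apply `runN` to the configuration `⟨0, x, Φ⟩` and the list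
`(univ : Finset Λ).toList.flatMap fun l => List.replicate M l`: at the end there are only simple points
left.  Here `φ ≤ nphi n M t` for all directions. -/
theorem forced_indep (Y : SysN Λ n) {M t : ℕ} {N : Λ → ℕ} (H : NumU Y M t N) (a : Λ → ℕ)
    (ha : ∀ i, a i ≤ N i ∧ N i ≤ a i + (M + 1)) (c : Cfg Λ) (hc : c.OK M) (hN0 : c.N = 0)
    (htr : ∀ l, c.tr n l ≤ nphi n M t) (hsz : Y.R a ≤ c.sz n) : Y.K a c.kinds := by
  set L : List Λ := (univ : Finset Λ).toList.flatMap fun l => List.replicate M l with hL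
  have hcount : ∀ l, L.count l = M := by
    intro l
    rw [hL, count_flat M _ (nodup_toList _), if_pos (mem_toList.2 (mem_univ l))]
  have hG : GoodN Y M L a (fun _ => nphi n M t) := by
    refine list_good Y H L a _ (fun _ => le_rfl) fun i => ?_
    rw [hcount]
    have := ha i
    omega
  obtain ⟨c', hc', hK, -, hsz', -, -, -, h0, -, -⟩ :=
    runN Y M H.hn H.hM L a (fun _ => nphi n M t) hG c hc htr hsz
  obtain ⟨h1, h2⟩ := h0 hN0
  have hΦ : ∀ l, c'.Φ l = 0 := by
    intro l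
    rw [h2 l, hcount]
    exact shf_iterate_eq_zero le_rfl _ fun x hx =>
      ⟨(hc.hΦ l x hx).1, (hc.hΦ l x hx).2.2.1, (hc.hΦ l x hx).2.2.2⟩
  have hkinds : c'.kinds = Multiset.replicate c'.s (Kind.free 1) := by
    unfold Cfg.kinds
    rw [h1]
    simp [hΦ]
  have hsz2 : c'.sz n = c'.s := by
    unfold Cfg.sz Cfg.nsz Cfg.fl
    rw [h1]
    simp [hΦ]
  apply hK
  rw [hkinds]
  have hreg : RegU M N (ew L a) := by
    intro i
    have h3 : ew L a i = a i - M := by
      show a i - L.count i = a i - M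
      rw [hcount]
    rw [h3]
    have := ha i
    omega
  refine (H.full _ hreg).2 _ ?_
  rw [hsz2] at hsz'
  omega

omit [Fintype Λ] in
private theorem dnT_insert {T : Finset Λ} {l : Λ} (hl : l ∉ T) (a : Λ → ℕ) :
    dnT (insert l T) a = dn l (dnT T a) := by
  funext i
  unfold dnT
  by_cases hi : i = l
  · subst hi
    rw [dn_self, if_pos (mem_insert_self _ _), if_neg hl]
  · rw [dn_ne hi]
    by_cases h : i ∈ T
    · rw [if_pos (mem_insert_of_mem h), if_pos h]
    · rw [if_neg h, if_neg (by rw [mem_insert]; push Not; exact ⟨hi, h⟩)]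

omit [Fintype Λ] in
private theorem dnT_bd {M : ℕ} {N a : Λ → ℕ} (ha : ∀ i, a i ≤ N i ∧ N i ≤ a i + M)
    (T : Finset Λ) : ∀ i, dnT T a i ≤ N i ∧ N i ≤ dnT T a i + (M + 1) := by
  intro i
  have h1 := ha i
  unfold dnT
  split_ifs
  · omega
  · omega

private theorem dnT_R (Y : SysN Λ n) {M t : ℕ} {N : Λ → ℕ} (H : NumU Y M t N) (a : Λ → ℕ)
    (ha : ∀ i, a i ≤ N i ∧ N i ≤ a i + M) (T : Finset Λ) :
    2 * M * Y.R (dnT T a) + (T.card * (t + 2 * M * nphi n M t) : ℕ) ≤ 2 * M * Y.R a := by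
  induction T using Finset.induction_on with
  | empty =>
    have h1 : dnT (∅ : Finset Λ) a = a := by
      funext i
      unfold dnT
      rw [if_neg (notMem_empty i)]
    rw [h1]
    simp
  | insert l T hl ih =>
    have hbd := dnT_bd ha T
    have hreg : RegU M N (dnT T a) := fun i => by
      have := hbd i
      omega
    have hM := H.hM
    have hF := H.leF _ l hreg
    have h1 := nphi_margin (n := n) H.hM H.ht hF
    have h2 : 1 ≤ dnT T a l := by
      have h3 := H.hN l
      have h4 := hbd l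
      omega
    have ht : 1 ≤ t := by
      have h3 := H.ht
      unfold TU at h3
      have h4 : 1 ≤ 8 * M * (M + 1) * ell n M ^ 2 :=
        Nat.mul_pos (Nat.mul_pos (by omega) (by omega)) (Nat.pow_pos (ell_pos n hM))
      omega
    have hF1 : 1 ≤ Y.F l (dnT T a) := by
      by_contra h
      have h3 : Y.F l (dnT T a) = 0 := by omega
      rw [h3] at h1
      omega
    have hcount := Y.count _ l h2 hF1
    rw [dnT_insert hl, card_insert_of_notMem hl]
    have h5 : ((t + 2 * M * nphi n M t : ℕ) : ℤ) ≤ 2 * M * (Y.F l (dnT T a) : ℤ) := by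
      exact_mod_cast h1
    rw [hcount] at ih
    have h6 : (((T.card + 1) * (t + 2 * M * nphi n M t) : ℕ) : ℤ) =
        ((T.card * (t + 2 * M * nphi n M t) : ℕ) : ℤ) + ((t + 2 * M * nphi n M t : ℕ) : ℤ) := by
      push_cast
      ring
    rw [h6]
    linarith

/-- The branch `T`: the forced conditions are independent (`forced_indep`), then use `NumU.kill`; the
surplus is `R a - R (dnT T a) - ∑ l ∈ T, c.tr n l ≥ T.card * (t / (2 M))` (`nphi_margin`), and
`branch_cases`. -/
theorem branch (Y : SysN Λ n) {M t : ℕ} {N : Λ → ℕ} (H : NumU Y M t N) (a : Λ → ℕ)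
    (ha : ∀ i, a i ≤ N i ∧ N i ≤ a i + M) (c : Cfg Λ) (hc : c.OK M)
    (htr : ∀ l, c.tr n l ≤ nphi n M t) (hsz : Y.R a ≤ c.sz n)
    (hy : ∀ l, Multiset.replicate (yU n M t) (1, 1) ≤ c.Φ l) (T : Finset Λ) :
    Y.K (dnT T a) (brT c (yU n M t) univ T).kinds := by
  have hM := H.hM
  set y := yU n M t with hydef
  set c₁ := brT c y univ T with hc₁def
  set a₁ := dnT T a with ha₁def
  have hbd : ∀ i, a₁ i ≤ N i ∧ N i ≤ a₁ i + (M + 1) := dnT_bd ha T
  have hreg : RegU M N a₁ := fun i => by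
    have := hbd i
    omega
  have hc₁ : c₁.OK M := brT_OK hc univ T
  have htr₁ : ∀ l, c₁.tr n l ≤ nphi n M t := fun l =>
    (brT_tr_le H.hn hc univ T l).trans (htr l)
  have hsz₁ : c₁.sz n + ∑ l ∈ T, c.tr n l = c.sz n := brT_sz H.hn hc hy T
  have hR := dnT_R Y H a ha T
  rw [← ha₁def] at hR
  have hsumT : ∑ l ∈ T, c.tr n l ≤ T.card * nphi n M t := by
    calc ∑ l ∈ T, c.tr n l ≤ ∑ _l ∈ T, nphi n M t := sum_le_sum fun l _ => htr l
      _ = T.card * nphi n M t := by rw [sum_const, smul_eq_mul]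
  -- the surplus
  have hsur : 2 * M * Y.R a₁ + (T.card * t : ℕ) ≤ 2 * M * (c₁.sz n : ℤ) := by
    have h1 : (c₁.sz n : ℤ) + ((∑ l ∈ T, c.tr n l : ℕ) : ℤ) = c.sz n := by exact_mod_cast hsz₁
    have h2 : ((∑ l ∈ T, c.tr n l : ℕ) : ℤ) ≤ ((T.card * nphi n M t : ℕ) : ℤ) := by
      exact_mod_cast hsumT
    have h3 : 2 * (M : ℤ) * Y.R a ≤ 2 * M * c.sz n :=
      mul_le_mul_of_nonneg_left hsz (by positivity)
    have h4 : 2 * (M : ℤ) * ((∑ l ∈ T, c.tr n l : ℕ) : ℤ) ≤
        2 * M * ((T.card * nphi n M t : ℕ) : ℤ) :=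
      mul_le_mul_of_nonneg_left h2 (by positivity)
    have h5 : ((T.card * (t + 2 * M * nphi n M t) : ℕ) : ℤ) =
        ((T.card * t : ℕ) : ℤ) + 2 * M * ((T.card * nphi n M t : ℕ) : ℤ) := by
      push_cast
      ring
    rw [h5] at hR
    rw [← h1] at h3
    linarith
  have hRle : Y.R a₁ ≤ c₁.sz n := by
    have h1 : 2 * (M : ℤ) * Y.R a₁ ≤ 2 * M * (c₁.sz n : ℤ) := by
      have : (0 : ℤ) ≤ (T.card * t : ℕ) := by positivity
      linarith
    exact le_of_mul_le_mul_left h1 (by positivity)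
  -- the forced conditions are few
  have hfl : ∑ l, c₁.fl n l ≤ 4 * M * qU n M * t := by
    calc ∑ l, c₁.fl n l ≤ ∑ _l : Λ, M * t := by
          refine sum_le_sum fun l _ => (Cfg.fl_le n M c₁ hc₁ l).trans ?_
          exact Nat.mul_le_mul_left _ ((htr₁ l).trans (nphi_le H.hM H.ht))
      _ = M * qU n M * t := by
          rw [sum_const, card_univ, H.hq, smul_eq_mul]
          ring
      _ ≤ 4 * M * qU n M * t := by
          apply Nat.mul_le_mul_right
          apply Nat.mul_le_mul_right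
          omega
  have hflR : ((∑ l, c₁.fl n l : ℕ) : ℤ) ≤ Y.R a₁ :=
    le_trans (by exact_mod_cast hfl) (H.leR a₁ hreg)
  obtain ⟨x, hx⟩ : ∃ x : ℕ, (x : ℤ) = Y.R a₁ - ((∑ l, c₁.fl n l : ℕ) : ℤ) :=
    ⟨(Y.R a₁ - ((∑ l, c₁.fl n l : ℕ) : ℤ)).toNat, Int.toNat_of_nonneg (by omega)⟩
  set S : Multiset (Kind Λ) := ∑ l, (c₁.Φ l).map fun x => Kind.forced l x.1 x.2 with hS
  have hind : Y.K a₁ (S + Multiset.replicate x (Kind.free 1)) := by
    have h1 := forced_indep Y H a₁ hbd ⟨0, x, c₁.Φ⟩ ⟨fun m hm => absurd hm (Multiset.notMem_zero m),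
      hc₁.hΦ⟩ rfl htr₁ (by
        have h2 : (⟨0, x, c₁.Φ⟩ : Cfg Λ).sz n = x + ∑ l, c₁.fl n l := by
          unfold Cfg.sz Cfg.nsz
          simp [Cfg.fl]
        rw [h2]
        push_cast
        push_cast at hx
        omega)
    have h2 : (⟨0, x, c₁.Φ⟩ : Cfg Λ).kinds = S + Multiset.replicate x (Kind.free 1) := by
      unfold Cfg.kinds
      rw [Multiset.map_zero, zero_add, add_comm]
    rwa [h2] at h1
  have hszdef : c₁.sz n = (c₁.N.map (ell (n + 1))).sum + c₁.s + ∑ l, c₁.fl n l := rfl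
  have hkill := H.kill a₁ hreg S x c₁.s c₁.N (fun m hm => by
    have := hc₁.hN m hm
    omega) hind (by omega) ?_
  · have h1 : c₁.kinds = S + c₁.N.map Kind.free + Multiset.replicate c₁.s (Kind.free 1) := by
      unfold Cfg.kinds
      rw [← hS]
      abel
    rw [h1]
    exact hkill
  · have hjle : T.card ≤ qU n M := by
      rw [← H.hq]
      exact card_le_univ T
    rcases branch_cases (n := n) H.hM H.ht T.card hjle with h | h
    · left
      have h1 : c₁.s = c.s + y * (univ \ T).card := rfl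
      have h2 : (univ \ T).card = qU n M - T.card := by
        rw [← H.hq, card_univ_sdiff]
      rw [h1, h2]
      exact h.trans (Nat.le_add_left _ _)
    · right
      have h1 : 2 * (M : ℤ) * ((ell (n + 1) M * (M * t) : ℕ) : ℤ) ≤
          2 * M * ((c₁.sz n : ℤ) - Y.R a₁) := by
        have h2 : ((2 * M * (ell (n + 1) M * (M * t)) : ℕ) : ℤ) ≤ ((T.card * t : ℕ) : ℤ) := by
          exact_mod_cast h
        have h3 : ((2 * M * (ell (n + 1) M * (M * t)) : ℕ) : ℤ) =
            2 * (M : ℤ) * ((ell (n + 1) M * (M * t) : ℕ) : ℤ) := by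
          push_cast
          ring
        rw [h3] at h2
        linarith
      have h2 := le_of_mul_le_mul_left h1 (by positivity)
      omega

end Pool.Agent.H18.Ua

end

section

/-!
# Module VDim (UB): the general dimension as a function
-/

namespace Pool.Agent.H18.Fat

end Pool.Agent.H18.Fat

namespace Pool.Agent.H18.Ub

open Finset Pool.Agent.H18.Ex Pool.Agent.H18.Cub Pool.Agent.H18.Pr Pool.Agent.H18.Fat

/-- The failing tuples, from the dimension after a Cremona reduction. -/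
theorem final_of_dim {r k d d' : ℕ} (hr : 1 ≤ r) {m m' : Fin k → ℕ} (hcr : Cremona r d m d' m')
    (v' : ℤ) (h' : ForGeneralPoints r k fun p =>
      (Module.finrank ℂ (fatForms r d' p m') : ℤ) = max 0 v') :
    ForGeneralPoints r k fun p =>
      (Module.finrank ℂ (fatForms r d p m) : ℤ) = max 0 v' ∧
      (¬ ImposesMaximalConditions r d p m ↔
        0 < v' ∧ ((d + r).choose r : ℤ) - ∑ i, ((m i + r - 1).choose r : ℤ) < v') := by
  obtain ⟨v, hv⟩ : ∃ v : ℕ, (v : ℤ) = max 0 v' :=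
    ⟨(max 0 v').toNat, Int.toNat_of_nonneg (le_max_left _ _)⟩
  have h3 : ForGeneralPoints r k fun p => Module.finrank ℂ (fatForms r d' p m') = v := by
    refine h'.mono fun p hp => ?_
    have h4 : ((Module.finrank ℂ (fatForms r d' p m') : ℕ) : ℤ) = v := by
      rw [hp, hv]
    exact_mod_cast h4
  have h5 := (hcr.general v).2 h3
  refine (h5.and (general_ne_zero r k)).mono fun p hp => ?_
  obtain ⟨hp, hp0⟩ := hp
  have hge := finrank_fatForms_ge (d := d) hr hp0 m
  have h7 : (Module.finrank ℂ (fatForms r d p m) : ℤ) = max 0 v' := by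
    rw [hp, hv]
  refine ⟨h7, ?_⟩
  rw [h7] at hge
  have h8 : ImposesMaximalConditions r d p m ↔ (Module.finrank ℂ (fatForms r d p m) : ℤ) =
      max 0 (((d + r).choose r : ℤ) - ∑ i, ((m i + r - 1).choose r : ℤ)) := Iff.rfl
  rw [h8, h7]
  generalize ((d + r).choose r : ℤ) - ∑ i, ((m i + r - 1).choose r : ℤ) = v₀ at hge ⊢
  rcases le_total 0 v' with h9 | h9 <;> rcases le_total 0 v₀ with h10 | h10
  · rw [max_eq_right h9] at hge ⊢
    rw [max_eq_right h10]
    omega
  · rw [max_eq_right h9] at hge ⊢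
    rw [max_eq_left h10]
    omega
  · rw [max_eq_left h9] at hge ⊢
    rw [max_eq_right h10]
    omega
  · rw [max_eq_left h9] at hge ⊢
    rw [max_eq_left h10]
    omega

end Pool.Agent.H18.Ub

end

section

/-!
# Any number of large multiplicities with sum at most `r d - D` and pair sums at most `d + 1`
-/

namespace Pool.Agent.H74.CT

open Pool.Agent.H18.Fat Pool.Agent.H18.Ub Finset

/-- The explicit constant. -/
def DD (r M : ℕ) : ℕ := 10 ^ 6 * r ^ 3 * M ^ 8 * (M + r - 1).choose r ^ 3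

theorem DD_consts (s M : ℕ) (hM : 1 ≤ M) :
    4 * (s + 2) ^ 2 * (66 * M ^ 3 * (M + (s + 2) - 1).choose (s + 2) + 1) ≤ DD (s + 2) M ∧
    10 * (16 * M ^ 2 * (M + (s + 2) - 1).choose (s + 2)) * (s + 2) ^ 3 *
      (66 * M ^ 3 * (M + (s + 2) - 1).choose (s + 2) + 1) ^ 2 ≤ DD (s + 2) M ∧
    1 ≤ (M + (s + 2) - 1).choose (s + 2) := by
  have hB : 1 ≤ (M + (s + 2) - 1).choose (s + 2) := Nat.choose_pos (by omega)
  unfold DD
  generalize (M + (s + 2) - 1).choose (s + 2) = B at hB ⊢
  have hC : 66 * M ^ 3 * B + 1 ≤ 67 * M ^ 3 * B := by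
    have : 1 ≤ M ^ 3 * B := Nat.one_le_iff_ne_zero.2 (by positivity)
    nlinarith
  refine ⟨?_, ?_, hB⟩
  · calc 4 * (s + 2) ^ 2 * (66 * M ^ 3 * B + 1) ≤ 4 * (s + 2) ^ 2 * (67 * M ^ 3 * B) :=
          Nat.mul_le_mul_left _ hC
      _ = (268 * (s + 2) ^ 2 * M ^ 3 * B) * 1 := by ring
      _ ≤ (268 * (s + 2) ^ 2 * M ^ 3 * B) * ((s + 2) * M ^ 5 * B ^ 2) :=
          Nat.mul_le_mul_left _ (Nat.one_le_iff_ne_zero.2 (by positivity))
      _ = 268 * ((s + 2) ^ 3 * M ^ 8 * B ^ 3) := by ring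
      _ ≤ 10 ^ 6 * ((s + 2) ^ 3 * M ^ 8 * B ^ 3) := Nat.mul_le_mul_right _ (by norm_num)
      _ = _ := by ring
  · calc 10 * (16 * M ^ 2 * B) * (s + 2) ^ 3 * (66 * M ^ 3 * B + 1) ^ 2 ≤
        10 * (16 * M ^ 2 * B) * (s + 2) ^ 3 * (67 * M ^ 3 * B) ^ 2 :=
          Nat.mul_le_mul_left _ (Nat.pow_le_pow_left hC 2)
      _ = 718240 * ((s + 2) ^ 3 * M ^ 8 * B ^ 3) := by ring
      _ ≤ 10 ^ 6 * ((s + 2) ^ 3 * M ^ 8 * B ^ 3) := Nat.mul_le_mul_right _ (by norm_num)
      _ = _ := by ring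

theorem num_ineq (s E C : ℕ) (hE : 16 ≤ E) :
    E * C * (s + 2) + 8 * E * (s + 2) ^ 3 * (C + 1) ^ 2 + 8 * (s + 2) ^ 3 ≤
      10 * E * (s + 2) ^ 3 * (C + 1) ^ 2 := by
  have h6 : E * C * (s + 2) ≤ E * (s + 2) ^ 3 * (C + 1) ^ 2 := by
    calc E * C * (s + 2) = E * (s + 2) * C := by ring
      _ ≤ E * (s + 2) * ((s + 2) ^ 2 * (C + 1) ^ 2) := by
        refine Nat.mul_le_mul_left _ ?_
        have h7 : C ≤ (C + 1) ^ 2 := by nlinarith
        calc C ≤ 1 * (C + 1) ^ 2 := by rw [one_mul]; exact h7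
          _ ≤ _ := Nat.mul_le_mul_right _ (Nat.one_le_iff_ne_zero.2 (by positivity))
      _ = _ := by ring
  have h8 : 8 * (s + 2) ^ 3 ≤ E * (s + 2) ^ 3 * (C + 1) ^ 2 := by
    calc 8 * (s + 2) ^ 3 ≤ E * (s + 2) ^ 3 := Nat.mul_le_mul_right _ (by omega)
      _ = E * (s + 2) ^ 3 * 1 := by ring
      _ ≤ _ := Nat.mul_le_mul_left _ (Nat.one_le_iff_ne_zero.2 (by positivity))
  have h9 : 8 * E * (s + 2) ^ 3 * (C + 1) ^ 2 = 8 * (E * (s + 2) ^ 3 * (C + 1) ^ 2) := by ring
  have h10 : 10 * E * (s + 2) ^ 3 * (C + 1) ^ 2 = 10 * (E * (s + 2) ^ 3 * (C + 1) ^ 2) := by ring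
  rw [h9, h10]
  omega

/-- Lower bound for the general dimension. -/
theorem dim_ge (s j k : ℕ) (m : Fin k → ℕ) (J : Finset (Fin k)) :
    (j + (s + 2)).choose (s + 2) ≤ (generalDim (s + 2) j fun i => if i ∈ J then m i else 0) +
      ∑ i ∈ J, (m i + (s + 2) - 1).choose (s + 2) := by
  have h1 := generalDim_ge (r := s + 2) (by omega) j
    (fun i => if i ∈ J then m i else 0)
  have h2 : ∑ i, ((((if i ∈ J then m i else 0) + (s + 2) - 1).choose (s + 2) : ℕ) : ℤ) =
      ((∑ i ∈ J, (m i + (s + 2) - 1).choose (s + 2) : ℕ) : ℤ) := by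
    rw [← Nat.cast_sum]
    congr 1
    rw [← sum_filter_add_sum_filter_not univ (fun i => i ∈ J)]
    have h3 : ∑ i ∈ univ.filter (fun i => i ∉ J),
        ((if i ∈ J then m i else 0) + (s + 2) - 1).choose (s + 2) = 0 := by
      refine sum_eq_zero fun i hi => ?_
      rw [if_neg (mem_filter.1 hi).2, Nat.choose_eq_zero_of_lt (by omega)]
    have h4 : univ.filter (fun i => i ∈ J) = J := by
      ext i
      simp
    rw [h3, add_zero, h4]
    exact sum_congr rfl fun i hi => by rw [if_pos hi]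
  rw [h2] at h1
  omega

end Pool.Agent.H74.CT

end
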