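import Pool.Agent.H94.LP1.M36
import Pool.Agent.H94.LP1.M39

/-! The parts of this file: H18.Tj.Layer, H18.Tk.ThinG, H18.Tk.NormK. -/

section

/-!
# Module T1 (TJ): the layer lemma

`lyr A y s`: the exponents of the layer `a y = s`, with the coordinate `y` replaced by `0`.

Proof of `layers` (compare `core` in `Pool/Agent/H18/Ta/Core.lean`, whose private lemma `Core_comb` can be
copied; the keys are `e i s + kap ℓ s` with `e i = ex ℓ (u i) 0`, and `key_lt` in `Pool/Agent/H18/Ta/Key.lean`).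
By `GI.general` (`Pool/Agent/H18/Ex/Gen.lean`) and the product of the polynomials for `s < ℓ` there are common
positions `pos` such that `InjAt (lyr A y s) (free (μ i - rk ℓ (u i) 0 s)) pos` for all `s < ℓ`.  Suppose `GI A` is
false.  For `t ≠ 0` use the positions `update (pos i) y (t ^ ex ℓ (u i) 0)`: there is a nonzero solution `f` on
`A`; the coefficients `f a * (t ^ kap ℓ (a y))⁻¹` solve the system of the equations `(i, b)`, `|b| < μ i`, with entries
`(binom (a y, b y) * tcr' ) * X ^ (e i * a y + kap ℓ (a y)) * X` evaluated at `t` (multiply the equation by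
`t ^ (e i * b y) * t`), where `tcr' = tcr (pos i) (update a y 0) (update b y 0)`.  By `exists_poly_solution`
(`Pool/Agent/H18/Ex/OnePar.lean`) there is a polynomial solution `F` with `(F a₀).eval 0 ≠ 0`.  Let
`s₀ = a₀ y` and `b` a multi-index with `b y = 0`, `|b| < μ i - rk ℓ (u i) 0 s₀`.  The equations for `update b y γ`,
`γ < μ i - |b|`, combined by `Core_comb` so that the layers `s ≠ s₀` with `rk < μ i - |b|` cancel, give, at the
coefficient `X ^ (e i * s₀ + kap ℓ s₀)`, `∑_{a ∈ A, a y = s₀} (F a).eval 0 * tcr (pos i) (update a y 0) b = 0`.  (For `b y ≠ 0`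
this holds since `binom (0, b y) = 0`.)  So the values `(F a).eval 0` on the layer `s₀` satisfy the conditions
`free (μ i - rk ℓ (u i) 0 s₀)` at `pos i`, hence vanish, a contradiction.
-/

namespace Pool.Agent.H18.Tj

open Finset Function Pool.Agent.H18.Ex Pool.Agent.H18.Ta

variable {ι : Type} [Fintype ι] [DecidableEq ι]

/-- The layer `a y = s`. -/
def lyr (A : Finset (ι → ℕ)) (y : ι) (s : ℕ) : Finset (ι → ℕ) :=
  (A.filter fun a => a y = s).image fun a => update a y 0

/-- Combinations of binomial coefficients. -/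
private theorem Layer_comb {R : Type*} [CommRing R] (ℓ h : ℕ) (T : ℕ → R)
    (hT : ∀ γ < h, ∑ s ∈ range ℓ, ((s.choose γ : ℕ) : R) * T s = 0) (S : Finset ℕ) :
    ∀ γ, S.card + γ < h →
      ∑ s ∈ range ℓ, (∏ u ∈ S, ((s : R) - (u : R))) * (((s.choose γ : ℕ) : R) * T s) = 0 := by
  induction S using Finset.induction_on with
  | empty =>
    intro γ hγ
    simpa using hT γ (by simpa using hγ)
  | insert u S hu ih =>
    intro γ hγ
    rw [card_insert_of_notMem hu] at hγ
    have h1 := ih (γ + 1) (by omega)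
    have h2 := ih γ (by omega)
    have h3 : ∀ s ∈ range ℓ,
        (∏ u' ∈ insert u S, ((s : R) - (u' : R))) * (((s.choose γ : ℕ) : R) * T s) =
        ((γ : R) + 1) * ((∏ u' ∈ S, ((s : R) - (u' : R))) * (((s.choose (γ + 1) : ℕ) : R) * T s)) +
        ((γ : R) - u) * ((∏ u' ∈ S, ((s : R) - (u' : R))) * (((s.choose γ : ℕ) : R) * T s)) := by
      intro s _
      rw [prod_insert hu]
      have h4 : ((s : R) - γ) * ((s.choose γ : ℕ) : R) = ((γ : R) + 1) * ((s.choose (γ + 1) : ℕ) : R) := by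
        have h5 := Nat.choose_succ_right_eq s γ
        rcases Nat.lt_or_ge s γ with h6 | h6
        · rw [Nat.choose_eq_zero_of_lt h6, Nat.choose_eq_zero_of_lt (by omega)]
          simp
        · have h7 : ((s.choose (γ + 1) * (γ + 1) : ℕ) : R) = ((s.choose γ * (s - γ) : ℕ) : R) := by
            rw [h5]
          rw [Nat.cast_mul, Nat.cast_mul, Nat.cast_sub h6] at h7
          push_cast at h7
          linear_combination -h7
      have h5 : ((s : R) - u) * ((s.choose γ : ℕ) : R) =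
          ((γ : R) + 1) * ((s.choose (γ + 1) : ℕ) : R) + ((γ : R) - u) * ((s.choose γ : ℕ) : R) := by
        rw [← h4]
        ring
      calc _ = (∏ u' ∈ S, ((s : R) - (u' : R))) * ((((s : R) - u) * ((s.choose γ : ℕ) : R)) * T s) := by
            ring
        _ = _ := by
            rw [h5]
            ring
    rw [sum_congr rfl h3, sum_add_distrib, ← mul_sum, ← mul_sum, h1, h2, mul_zero, mul_zero, add_zero]

/-- The factor of the coordinate `y`. -/
private theorem Layer_tcr {R : Type*} [CommRing R] (p : ι → R) (y : ι) (z : R) (a b : ι → ℕ) :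
    tcr (update p y z) a b = (((a y).choose (b y) : ℕ) : R) * z ^ (a y - b y) *
      tcr p (update a y 0) (update b y 0) := by
  unfold tcr
  rw [← mul_prod_erase univ _ (mem_univ y), ← mul_prod_erase univ
    (fun i => (((update a y 0 i).choose (update b y 0 i) : ℕ) : R) *
      p i ^ (update a y 0 i - update b y 0 i)) (mem_univ y)]
  simp only [update_self, Nat.choose_zero_right, Nat.cast_one, Nat.sub_zero, pow_zero, mul_one,
    one_mul]
  congr 1
  refine prod_congr rfl fun i hi => ?_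
  have hi' := ne_of_mem_erase hi
  rw [update_of_ne hi', update_of_ne hi', update_of_ne hi']

private theorem Layer_tcr_zero {R : Type*} [CommRing R] (p : ι → R) (y : ι) (a b : ι → ℕ)
    (hb : b y ≠ 0) : tcr p (update a y 0) b = 0 := by
  unfold tcr
  apply prod_eq_zero (mem_univ y)
  rw [update_self, Nat.choose_eq_zero_of_lt (Nat.pos_of_ne_zero hb), Nat.cast_zero, zero_mul]

private theorem Layer_sum (a : ι → ℕ) (y : ι) (z : ℕ) :
    ∑ i, update a y z i + a y = ∑ i, a i + z := by
  rw [← add_sum_erase univ (fun i => update a y z i) (mem_univ y),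
    ← add_sum_erase univ a (mem_univ y), update_self]
  have h : ∑ i ∈ univ.erase y, update a y z i = ∑ i ∈ univ.erase y, a i :=
    sum_congr rfl fun i hi => update_of_ne (ne_of_mem_erase hi) _ _
  rw [h]
  omega

theorem layers {κ : Type} [Fintype κ] (A : Finset (ι → ℕ)) (y : ι) (ℓ : ℕ)
    (hA : ∀ a ∈ A, a y < ℓ) (μ u : κ → ℕ) (hu : ∀ i, u i < ℓ)
    (h : ∀ s < ℓ, GI (lyr A y s) fun i => Kind.free (μ i - Ta.rk ℓ (u i) 0 s)) :
    GI A fun i => Kind.free (μ i) := by
  classical
  -- common positions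
  obtain ⟨pos, hpos⟩ : ∃ pos : κ → ι → ℂ, ∀ s < ℓ,
      InjAt (lyr A y s) (fun i => Kind.free (μ i - Ta.rk ℓ (u i) 0 s)) pos := by
    have h1 : ∀ s : ℕ, ∃ G : MvPolynomial (κ × ι) ℂ, G ≠ 0 ∧ (s < ℓ →
        ∀ pos : κ → ι → ℂ, MvPolynomial.eval (fun x => pos x.1 x.2) G ≠ 0 →
          InjAt (lyr A y s) (fun i => Kind.free (μ i - Ta.rk ℓ (u i) 0 s)) pos) := by
      intro s
      by_cases hs : s < ℓ
      · obtain ⟨G, hG, hG'⟩ := (h s hs).general
        exact ⟨G, hG, fun _ => hG'⟩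
      · exact ⟨1, one_ne_zero, fun h => absurd h hs⟩
    choose G hG hG' using h1
    have hne : (∏ s ∈ range ℓ, G s) ≠ 0 := prod_ne_zero_iff.2 fun s _ => hG s
    obtain ⟨x, hx⟩ : ∃ x : κ × ι → ℂ, MvPolynomial.eval x (∏ s ∈ range ℓ, G s) ≠ 0 := by
      by_contra hcon
      push Not at hcon
      exact hne (MvPolynomial.funext fun x => by rw [hcon x, map_zero])
    refine ⟨fun i j => x (i, j), fun s hs => hG' s hs _ ?_⟩
    rw [map_prod, prod_ne_zero_iff] at hx
    exact hx s (mem_range.2 hs)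
  by_contra hcon
  have hcon' : ∀ p : κ → ι → ℂ, ∃ f : (ι → ℕ) → ℂ,
      (∀ i, ∀ b : ι → ℕ, ∑ j, b j < μ i → ∑ a ∈ A, f a * tcr (p i) a b = 0) ∧
        ∃ a ∈ A, f a ≠ 0 := by
    intro p
    by_contra hp
    apply hcon
    refine ⟨p, fun f hf a ha => ?_⟩
    by_contra hfa
    exact hp ⟨f, fun i b hb => hf i b hb, a, ha, hfa⟩
  set e : κ → ℕ := fun i => ex ℓ (u i) 0 with he
  let ρ : Type := (i : κ) × {b // b ∈ (Kind.free (ι := ι) (μ i)).idxs}
  let Mx : ρ → (ι → ℕ) → Polynomial ℂ := fun r a =>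
    Polynomial.C (tcr (pos r.1) (update a y 0) (update r.2.1 y 0)) *
      ((((a y).choose (r.2.1 y) : ℕ) : Polynomial ℂ) *
        (Polynomial.X ^ (e r.1 * a y + kap ℓ (a y)) * Polynomial.X))
  have hsol : ∀ t : ℂ, ∃ f : (ι → ℕ) → ℂ,
      (∀ r, ∑ a ∈ A, f a * (Mx r a).eval t = 0) ∧ ∃ a ∈ A, f a ≠ 0 := by
    intro t
    obtain ⟨f, hf, a₁, ha₁, hne⟩ := hcon' fun i => update (pos i) y (t ^ e i)
    by_cases ht : t = 0
    · refine ⟨fun _ => 1, fun r => sum_eq_zero fun a _ => ?_, a₁, ha₁, one_ne_zero⟩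
      subst ht
      simp only [Mx]
      simp
    · refine ⟨fun a => f a * (t ^ kap ℓ (a y))⁻¹, fun r => ?_, a₁, ha₁, ?_⟩
      · have h1 := hf r.1 r.2.1 (Kind.mem_idxs.1 r.2.2)
        have h2 : ∑ a ∈ A, f a * (t ^ kap ℓ (a y))⁻¹ * (Mx r a).eval t =
            (t ^ (e r.1 * r.2.1 y) * t) *
              ∑ a ∈ A, f a * tcr (update (pos r.1) y (t ^ e r.1)) a r.2.1 := by
          rw [mul_sum]
          refine sum_congr rfl fun a _ => ?_
          rw [Layer_tcr]
          simp only [Mx]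
          simp only [Polynomial.eval_mul, Polynomial.eval_C, Polynomial.eval_natCast,
            Polynomial.eval_pow, Polynomial.eval_X]
          rcases Nat.lt_or_ge (a y) (r.2.1 y) with h3 | h3
          · rw [Nat.choose_eq_zero_of_lt h3]
            simp
          · have h4 : t ^ (e r.1 * a y + kap ℓ (a y)) =
                t ^ (e r.1 * r.2.1 y) * (t ^ e r.1) ^ (a y - r.2.1 y) * t ^ kap ℓ (a y) := by
              rw [← pow_mul, ← pow_add, pow_add, ← mul_add, Nat.add_sub_cancel' h3]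
            rw [h4]
            have h5 : t ^ kap ℓ (a y) ≠ 0 := pow_ne_zero _ ht
            field_simp
        rw [h2, h1, mul_zero]
      · exact mul_ne_zero hne (inv_ne_zero (pow_ne_zero _ ht))
  obtain ⟨F, hF, a₀, ha₀, hne⟩ := Pool.Agent.H18.Ex.exists_poly_solution A Mx hsol
  -- the layers
  set T : κ → (ι → ℕ) → ℕ → Polynomial ℂ := fun i b s =>
    Polynomial.X ^ (e i * s + kap ℓ s) * ∑ a ∈ A.filter (fun a => a y = s),
      F a * Polynomial.C (tcr (pos i) (update a y 0) b) with hT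
  have heq : ∀ i (b : ι → ℕ) γ, b y = 0 → γ < μ i - ∑ j, b j →
      ∑ s ∈ range ℓ, ((s.choose γ : ℕ) : Polynomial ℂ) * T i b s = 0 := by
    intro i b γ hb hγ
    have hsum : ∑ j, update b y γ j < μ i := by
      have h1 := Layer_sum b y γ
      omega
    have h1 := hF ⟨i, ⟨update b y γ, Kind.mem_idxs.2 hsum⟩⟩
    have h2 : Polynomial.X * ∑ s ∈ range ℓ, ((s.choose γ : ℕ) : Polynomial ℂ) * T i b s = 0 := by
      rw [← h1, ← sum_fiberwise_of_maps_to (t := range ℓ) (g := fun a : ι → ℕ => a y)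
        (fun a ha => mem_range.2 (hA a ha)), mul_sum]
      refine sum_congr rfl fun s _ => ?_
      rw [hT]
      beta_reduce
      rw [mul_sum, mul_sum, mul_sum]
      refine sum_congr rfl fun a ha => ?_
      have has : a y = s := (mem_filter.1 ha).2
      simp only [Mx]
      have h3 : update (update b y γ) y 0 = b := by
        rw [update_idem, ← hb, update_eq_self]
      rw [h3, update_self, has]
      ring
    exact (mul_eq_zero.1 h2).resolve_left Polynomial.X_ne_zero
  -- the vanishing at zero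
  have hkeyv : ∀ i, ∀ s₀ < ℓ, ∀ b : ι → ℕ, b y = 0 → ∑ j, b j < μ i - Ta.rk ℓ (u i) 0 s₀ →
      ∑ a ∈ A.filter (fun a => a y = s₀),
        (F a).eval 0 * tcr (pos i) (update a y 0) b = 0 := by
    intro i s₀ hs₀ b hb hα
    have hui : u i + 0 < ℓ := by have := hu i; omega
    set h' := μ i - ∑ j, b j with hh
    set S : Finset ℕ := (range ℓ).filter fun s => s ≠ s₀ ∧ Ta.rk ℓ (u i) 0 s < h' with hS
    have hScard : S.card + 0 < h' := by
      have h1 : (insert s₀ S).card ≤ (range h').card := by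
        apply card_le_card_of_injOn (Ta.rk ℓ (u i) 0)
        · intro s hs
          rw [mem_coe, mem_insert] at hs
          rw [mem_coe, mem_range]
          rcases hs with rfl | hs
          · omega
          · exact (mem_filter.1 hs).2.2
        · intro s hs t ht hst
          have hlt : ∀ s ∈ insert s₀ S, s < ℓ := by
            intro s hs
            rcases mem_insert.1 hs with rfl | hs
            · exact hs₀
            · exact mem_range.1 (mem_filter.1 hs).1
          exact Ta.rk_inj hui (hlt s hs) (hlt t ht) hst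
      rw [card_insert_of_notMem (by simp [hS]), card_range] at h1
      omega
    have h2 := Layer_comb ℓ h' (T i b) (fun γ hγ => heq i b γ hb hγ) S 0 hScard
    have h3 := congrArg (fun p => Polynomial.coeff p (e i * s₀ + kap ℓ s₀)) h2
    simp only [Polynomial.finsetSum_coeff, Polynomial.coeff_zero] at h3
    rw [sum_eq_single s₀] at h3
    · -- the main term
      have h4 : (∏ u ∈ S, (((s₀ : ℕ) : Polynomial ℂ) - ((u : ℕ) : Polynomial ℂ))) =
          Polynomial.C (∏ u ∈ S, ((s₀ : ℂ) - (u : ℂ))) := by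
        rw [map_prod]
        refine prod_congr rfl fun u _ => ?_
        rw [map_sub]
        simp
      rw [h4, Nat.choose_zero_right, Nat.cast_one, one_mul, Polynomial.coeff_C_mul, hT] at h3
      simp only at h3
      rw [Polynomial.coeff_X_pow_mul', if_pos le_rfl, Nat.sub_self] at h3
      have h5 : (∏ u ∈ S, ((s₀ : ℂ) - (u : ℂ))) ≠ 0 := by
        rw [prod_ne_zero_iff]
        intro u hu
        rw [sub_ne_zero]
        intro h6
        have h7 : s₀ = u := by exact_mod_cast h6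
        exact (mem_filter.1 hu).2.1 h7.symm
      have h6 := (mul_eq_zero.1 h3).resolve_left h5
      rw [Polynomial.coeff_zero_eq_eval_zero, Polynomial.eval_finsetSum] at h6
      refine Eq.trans (sum_congr rfl fun a _ => ?_) h6
      rw [Polynomial.eval_mul, Polynomial.eval_C]
    · -- the other terms
      intro s hs hne
      rw [mem_range] at hs
      by_cases hsS : s ∈ S
      · rw [prod_eq_zero hsS (sub_self _), zero_mul, Polynomial.coeff_zero]
      · have h4 : h' ≤ Ta.rk ℓ (u i) 0 s := by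
          by_contra h5
          exact hsS (mem_filter.2 ⟨mem_range.2 hs, hne, by omega⟩)
        have h5 := Ta.key_lt hui hs₀ hs (by omega)
        rw [Nat.choose_zero_right, Nat.cast_one, one_mul, hT]
        simp only
        rw [mul_left_comm, Polynomial.coeff_X_pow_mul', if_neg (by rw [he]; beta_reduce; omega)]
    · intro hs
      exact absurd (mem_range.2 hs₀) hs
  -- conclusion
  have hs₀ : a₀ y < ℓ := hA a₀ ha₀
  apply hne
  have hup : ∀ a ∈ A.filter (fun a => a y = a₀ y), update (update a y 0) y (a₀ y) = a := by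
    intro a ha
    rw [update_idem, ← (mem_filter.1 ha).2, update_eq_self]
  have hfin := hpos (a₀ y) hs₀ (fun c => (F (update c y (a₀ y))).eval 0) (by
    intro i b hb
    have hb' : ∑ j, b j < μ i - Ta.rk ℓ (u i) 0 (a₀ y) := hb
    show ∑ c ∈ lyr A y (a₀ y), (F (update c y (a₀ y))).eval 0 * tcr (pos i) c b = 0
    unfold lyr
    rw [sum_image]
    · by_cases hby : b y = 0
      · refine Eq.trans (sum_congr rfl fun a ha => ?_) (hkeyv i (a₀ y) hs₀ b hby hb')
        rw [hup a ha]
      · apply sum_eq_zero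
        intro a _
        rw [Layer_tcr_zero _ _ _ _ hby, mul_zero]
    · intro a ha a' ha' haa
      have h1 := hup a ha
      have h2 := hup a' ha'
      beta_reduce at haa
      rw [← h1, haa, h2]) (update a₀ y 0) (by
    unfold lyr
    exact mem_image_of_mem _ (mem_filter.2 ⟨ha₀, rfl⟩))
  beta_reduce at hfin
  rw [hup a₀ (mem_filter.2 ⟨ha₀, rfl⟩)] at hfin
  exact hfin

/-- The layers of a region. -/
theorem lyr_Rg (y : ι) (σ s : ℕ) (w : ι → ℕ) (hs : s ≤ w y) (hσ : s ≤ σ) :
    lyr (Rg σ w) y s = Rg (σ - s) (update w y 0) := by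
  ext c
  unfold lyr
  rw [mem_image, mem_Rg]
  constructor
  · rintro ⟨a, ha, rfl⟩
    rw [mem_filter, mem_Rg] at ha
    obtain ⟨⟨h1, h2⟩, h3⟩ := ha
    constructor
    · intro i
      by_cases hi : i = y
      · subst hi
        rw [update_self, update_self]
      · rw [update_of_ne hi, update_of_ne hi]
        exact h1 i
    · have h4 := Layer_sum a y 0
      omega
  · rintro ⟨h1, h2⟩
    have hcy : c y = 0 := by
      have h3 := h1 y
      rw [update_self] at h3
      omega
    refine ⟨update c y s, ?_, ?_⟩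
    · rw [mem_filter, mem_Rg]
      refine ⟨⟨?_, ?_⟩, update_self _ _ _⟩
      · intro i
        by_cases hi : i = y
        · subst hi
          rw [update_self]
          exact hs
        · have h3 := h1 i
          rw [update_of_ne hi] at h3 ⊢
          exact h3
      · have h4 := Layer_sum c y s
        omega
    · rw [update_idem, ← hcy, update_eq_self]

end Pool.Agent.H18.Tj

end

section

/-!
# Module T2 (TK): near-exactness if all coordinates other than `h`, `c` are thin

As `thin_step` in `Pool/Agent/H18/Tj/ThinS.lean` and `thin` in `Pool/Agent/H18/Tj/Thin.lean`, without the hypothesis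
`σ ≤ w h`: it was only used in `cnt_thin`, `cnt_mono` for `β s ≤ β t + θ ^ (q + 1)`, where now `cnt_thin_up` and
`cnt_thin_dn` are used at most `θ` times.
-/

namespace Pool.Agent.H18.Tk

open Finset Function Pool.Agent.H18.Ex Pool.Agent.H18.Ta Pool.Agent.H18.Tj

variable {ι : Type} [Fintype ι] [DecidableEq ι]

/-- the ranks permute the layers -/
private theorem ThinG_rk {ℓ u : ℕ} (hu : u < ℓ) (W : ℕ → ℕ) :
    ∑ s ∈ range ℓ, W (Ta.rk ℓ u 0 s) = ∑ t ∈ range ℓ, W t := by
  have hmaps : Set.MapsTo (fun s => Ta.rk ℓ u 0 s) (range ℓ : Set ℕ) (range ℓ : Set ℕ) := by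
    intro s hs
    rw [mem_coe, mem_range] at hs ⊢
    exact rk_lt (by omega) hs
  have hinj : Set.InjOn (fun s => Ta.rk ℓ u 0 s) (range ℓ : Set ℕ) := by
    intro s hs t ht he
    rw [mem_coe, mem_range] at hs ht
    exact rk_inj (by omega) hs ht he
  exact sum_nbij (fun s => Ta.rk ℓ u 0 s) hmaps hinj
    (surjOn_of_injOn_of_card_le _ hmaps hinj le_rfl) fun _ _ => rfl

private theorem ThinG_rk_self (ℓ s : ℕ) : Ta.rk ℓ s 0 s = 0 := by
  unfold Ta.rk
  split_ifs <;> omega

private theorem ThinG_up {h c : ι} (hc : h ≠ c) {τ θ q : ℕ} {w : ι → ℕ} (hq : Fintype.card ι ≤ q)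
    (hθ : 1 ≤ θ) (hthin : ∀ i, i ≠ h → i ≠ c → w i < θ) (d : ℕ) :
    (Rg (τ + d) w).card ≤ (Rg τ w).card + d * θ ^ q := by
  induction d with
  | zero => simp
  | succ d ih =>
    have h2 := cnt_thin_up hc (σ := τ + d) hq hθ hthin
    have h3 : τ + (d + 1) = τ + d + 1 := by ring
    rw [h3]
    have h4 : (d + 1) * θ ^ q = d * θ ^ q + θ ^ q := by ring
    omega

private theorem ThinG_dn {h c : ι} (hc : h ≠ c) {τ θ q : ℕ} {w : ι → ℕ} (hq : Fintype.card ι ≤ q)
    (hθ : 1 ≤ θ) (hthin : ∀ i, i ≠ h → i ≠ c → w i < θ) (d : ℕ) :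
    (Rg τ w).card ≤ (Rg (τ + d) w).card + d * θ ^ q := by
  induction d with
  | zero => simp
  | succ d ih =>
    have h2 := cnt_thin_dn hc (σ := τ + d) hq hθ hthin
    have h3 : τ + (d + 1) = τ + d + 1 := by ring
    rw [h3]
    have h4 : (d + 1) * θ ^ q = d * θ ^ q + θ ^ q := by ring
    omega

private theorem ThinG_const {κ : Type} [Fintype κ] {X : Type} (a : X) :
    (univ : Finset κ).val.map (fun _ => a) = Multiset.replicate (Fintype.card κ) a := by
  rw [Multiset.map_const', Finset.card_val, Finset.card_univ]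

theorem thin_stepG {q M θ K' : ℕ} (hq : Fintype.card ι ≤ q) (hM : 1 ≤ M) (h c y : ι)
    (hhc : h ≠ c) (hyh : y ≠ h) (hyc : y ≠ c) (w : ι → ℕ) (σ : ℕ) (hθσ : θ ≤ σ)
    (hMh : M ≤ w h) (hMc : M ≤ w c) (hthin : ∀ i, i ≠ h → i ≠ c → w i < θ)
    (ih : ∀ s < w y + 1, ∀ S : Multiset ℕ, (∀ m ∈ S, m ≤ M) → ∀ x : ℕ,
      K' * ((Rg (σ - s) (update w y 0)).card + 1) ≤ x ^ 2 →
      (Rg (σ - s) (update w y 0)).card ≤ (S.map (Lx (update w y 0))).sum + x →
      GM (Rg (σ - s) (update w y 0)) ((S + Multiset.replicate x 1).map Kind.free))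
    (S : Multiset ℕ) (hS : ∀ m ∈ S, m ≤ M) (x : ℕ)
    (hx1 : zT q θ (M ^ q) * ((Rg σ w).card + 1) ≤ x ^ 2)
    (hx2 : 4 * θ ^ 2 * K' * ((Rg σ w).card + 1) ≤ x ^ 2)
    (hsum : (Rg σ w).card ≤ (S.map (Lx w)).sum + x) :
    GM (Rg σ w) ((S + Multiset.replicate x 1).map Kind.free) := by
  have hyθ : w y < θ := hthin y hyh hyc
  have hθ1 : 1 ≤ θ := by omega
  have hne : Nonempty ι := ⟨h⟩
  obtain ⟨w', hw'⟩ : ∃ w', w' = update w y 0 := ⟨_, rfl⟩
  rw [← hw'] at ih
  have hw'h : w' h = w h := by rw [hw', update_of_ne (Ne.symm hyh)]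
  have hw'c : w' c = w c := by rw [hw', update_of_ne (Ne.symm hyc)]
  have hthin' : ∀ i, i ≠ h → i ≠ c → w' i < θ := by
    intro i hi1 hi2
    rw [hw']
    by_cases hiy : i = y
    · rw [hiy, update_self]
      omega
    · rw [update_of_ne hiy]
      exact hthin i hi1 hi2
  obtain ⟨ℓ, hℓ⟩ : ∃ ℓ, ℓ = w y + 1 := ⟨_, rfl⟩
  have hℓ1 : 1 ≤ ℓ := by omega
  have hℓθ : ℓ ≤ θ := by omega
  rw [← hℓ] at ih
  -- many simple points
  rcases Nat.lt_or_ge x (Rg σ w).card with hxc | hxc
  swap
  · have h1 := GM.of_card (Rg σ w) (Multiset.replicate x 1) (S.map Kind.free)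
      (fun m hm => (Multiset.eq_of_mem_replicate hm).ge)
      (by rw [Multiset.card_replicate]; exact hxc)
    rw [Multiset.map_add, add_comm]
    exact h1
  -- drop the superfluous points
  obtain ⟨S₁, hS₁, hs1, hs2, hS₁pos⟩ := exists_drop (Lx w) (M ^ q) ((Rg σ w).card - x) S
    (fun m hm => Lx_le_pow hq hne (hS m hm) hM) (by omega)
  refine GM.mono (Multiset.map_le_map (add_le_add_left hS₁ (Multiset.replicate x 1))) ?_
  have hS₁M : ∀ m ∈ S₁, m ≤ M := fun m hm => hS m (Multiset.mem_of_le hS₁ hm)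
  obtain ⟨k, μ, hμ⟩ := multi_exists_fin S₁
  have hμM : ∀ j, μ j ≤ M := by
    intro j
    apply hS₁M
    rw [← hμ]
    exact Multiset.mem_map.2 ⟨j, (by rw [Finset.mem_val]; exact Finset.mem_univ _), rfl⟩
  have hμpos : ∀ j, 0 < Lx w (μ j) := by
    intro j
    apply hS₁pos
    rw [← hμ]
    exact Multiset.mem_map.2 ⟨j, (by rw [Finset.mem_val]; exact Finset.mem_univ _), rfl⟩
  have hsumS : (S₁.map (Lx w)).sum = ∑ j, Lx w (μ j) := by
    rw [← hμ, Multiset.map_map]
    rfl
  rw [hsumS] at hs1 hs2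
  -- the assignment of the points
  obtain ⟨u, hu, hdev⟩ := assign ℓ (M ^ q) hℓ1 k (fun j i => Lx w' (μ j - i))
    (fun j i => Lx_mono (h := h) (M := M) (by rw [hw'h]; exact hMh) (by omega)
      ((Nat.sub_le _ _).trans (hμM j)))
    (fun j i => by
      rcases Nat.lt_or_ge (μ j - i) 2 with h2 | h2
      · have e1 : μ j - (i + 1) = 0 := by omega
        rw [e1, Lx_zero]
        omega
      · have h3 := Lx_convex hhc (w := w') (M := M) (by rw [hw'h]; exact hMh)
          (by rw [hw'c]; exact hMc) (μ j - i - 2) (by have := hμM j; omega)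
        have e1 : μ j - (i + 1) = μ j - i - 2 + 1 := by omega
        have e2 : μ j - (i + 2) = μ j - i - 2 := by omega
        have e3 : μ j - i = μ j - i - 2 + 2 := by omega
        rw [e1, e2]
        rw [← e3] at h3
        linarith)
    (fun j => by
      rw [Nat.sub_zero]
      exact Lx_le_pow hq hne (hμM j) hM)
  obtain ⟨L, hL⟩ : ∃ L : ℕ → ℕ, L = fun s => ∑ j, Lx w' (μ j - Ta.rk ℓ (u j) 0 s) := ⟨_, rfl⟩
  have hsumL : ∑ s ∈ range ℓ, L s = ∑ j, Lx w (μ j) := by
    rw [hL, sum_comm]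
    refine sum_congr rfl fun j _ => ?_
    rw [ThinG_rk (hu j) (fun t => Lx w' (μ j - t)), Lx_layer y w (μ j), ← hw', ← hℓ]
  have hsumWL : ∑ j, ∑ t ∈ range ℓ, ((Lx w' (μ j - t) : ℕ) : ℤ) = ∑ t ∈ range ℓ, (L t : ℤ) := by
    have e1 : ∑ t ∈ range ℓ, (L t : ℤ) = ((∑ t ∈ range ℓ, L t : ℕ) : ℤ) := by push_cast; rfl
    rw [e1, hsumL]
    push_cast
    refine sum_congr rfl fun j _ => ?_
    rw [Lx_layer y w (μ j), ← hw', ← hℓ]
    push_cast
    rfl
  -- the sizes of the layers
  obtain ⟨β, hβ⟩ : ∃ β : ℕ → ℕ, β = fun s => (Rg (σ - s) w').card := ⟨_, rfl⟩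
  have hsumβ : ∑ s ∈ range ℓ, β s = (Rg σ w).card := by
    rw [cnt_layer y σ w, ← hw', ← hℓ, hβ]
    rw [filter_true_of_mem]
    intro t ht
    rw [mem_range] at ht
    omega
  have hβd : ∀ s < ℓ, ∀ t < ℓ, β s ≤ β t + θ ^ (q + 1) := by
    intro s hs t ht
    rw [hβ]
    dsimp only
    rcases Nat.lt_or_ge s t with hst | hst
    · have h1 := ThinG_up hhc (τ := σ - t) hq hθ1 hthin' (t - s)
      have e1 : σ - t + (t - s) = σ - s := by omega
      rw [e1] at h1
      have h2 : (t - s) * θ ^ q ≤ θ * θ ^ q := Nat.mul_le_mul_right _ (by omega)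
      have h3 : θ ^ (q + 1) = θ * θ ^ q := by ring
      omega
    · have h1 := ThinG_dn hhc (τ := σ - s) hq hθ1 hthin' (s - t)
      have e1 : σ - s + (s - t) = σ - t := by omega
      rw [e1] at h1
      have h2 : (s - t) * θ ^ q ≤ θ * θ ^ q := Nat.mul_le_mul_right _ (by omega)
      have h3 : θ ^ (q + 1) = θ * θ ^ q := by ring
      omega
  have hkL : k ≤ ∑ s ∈ range ℓ, L s := by
    rw [hsumL]
    calc k = ∑ _j : Fin k, 1 := by simp
      _ ≤ ∑ j, Lx w (μ j) := sum_le_sum fun j _ => hμpos j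
  obtain ⟨xs, hxs1, hxs2, hxs3⟩ := distribute q θ (M ^ q) ℓ k K' x hℓ1 hℓθ β L hβd
    (by rw [hsumβ, hsumL]; omega) (by rw [hsumβ, hsumL]; omega) hkL
    (by
      rw [← hsumWL, hL]
      push_cast
      push_cast at hdev
      exact hdev)
    (by rw [hsumβ]; exact hx1) (by rw [hsumβ]; exact hx2)
  -- the family
  obtain ⟨μ', hμ'⟩ : ∃ μ' : Fin k ⊕ (Σ s : Fin ℓ, Fin (xs s)) → ℕ,
      μ' = Sum.elim μ (fun _ => 1) := ⟨_, rfl⟩
  obtain ⟨u', hu'⟩ : ∃ u' : Fin k ⊕ (Σ s : Fin ℓ, Fin (xs s)) → ℕ,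
      u' = Sum.elim u (fun p => (p.1 : ℕ)) := ⟨_, rfl⟩
  have hfam : (S₁ + Multiset.replicate x 1).map (Kind.free (ι := ι)) =
      (univ : Finset (Fin k ⊕ (Σ s : Fin ℓ, Fin (xs s)))).val.map (fun i => Kind.free (μ' i)) := by
    have hcard : Fintype.card (Σ s : Fin ℓ, Fin (xs s)) = x := by
      rw [Fintype.card_sigma, ← hxs1]
      simp only [Fintype.card_fin]
      exact Fin.sum_univ_eq_sum_range xs ℓ
    have e1 : (fun i => Kind.free (ι := ι) (μ' i)) =
        Sum.elim (fun j => Kind.free (μ j)) (fun _ => Kind.free 1) := by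
      funext i
      rw [hμ']
      rcases i with i | i
      · rfl
      · rfl
    rw [e1, multi_map_sum, ThinG_const, hcard, Multiset.map_add, Multiset.map_replicate, ← hμ,
      Multiset.map_map]
    rfl
  rw [hfam, GM_iff]
  refine layers (Rg σ w) y ℓ ?_ μ' u' ?_ ?_
  · intro a ha
    have h1 := (mem_Rg.1 ha).1 y
    omega
  · intro i
    rw [hu']
    rcases i with i | i
    · exact hu i
    · exact i.1.2
  · intro s hs
    rw [lyr_Rg y σ s w (by omega) (by omega), ← hw']
    have hxx := ih s hs ((univ : Finset (Fin k)).val.map (fun j => μ j - Ta.rk ℓ (u j) 0 s))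
      (fun m hm => by
        obtain ⟨j, _, rfl⟩ := Multiset.mem_map.1 hm
        exact (Nat.sub_le _ _).trans (hμM j)) (xs s)
      (by
        have h1 := hxs3 s hs
        rw [hβ] at h1
        exact h1)
      (by
        have h1 := hxs2 s hs
        rw [hβ, hL] at h1
        rw [Multiset.map_map]
        exact h1)
    have e1 : ((univ : Finset (Fin k)).val.map (fun j => μ j - Ta.rk ℓ (u j) 0 s) +
        Multiset.replicate (xs s) 1).map (Kind.free (ι := ι)) =
        (univ : Finset (Fin k ⊕ Fin (xs s))).val.map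
          (Sum.elim (fun j => Kind.free (μ j - Ta.rk ℓ (u j) 0 s)) (fun _ => Kind.free 1)) := by
      rw [multi_map_sum, ThinG_const, Fintype.card_fin, Multiset.map_add, Multiset.map_replicate,
        Multiset.map_map]
      rfl
    rw [e1, GM_iff] at hxx
    refine GI.of_comp (fun i : Fin k ⊕ Fin (xs s) =>
      (Sum.elim Sum.inl (fun t => Sum.inr ⟨⟨s, hs⟩, t⟩) i :
        Fin k ⊕ (Σ s : Fin ℓ, Fin (xs s)))) ?_ ?_
    · rintro (i | i) (j | j) hij
      · exact congrArg Sum.inl (Sum.inl_injective hij)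
      · exact absurd hij (by simp)
      · exact absurd hij (by simp)
      · have h1 := Sum.inr_injective hij
        have h2 := eq_of_heq (Sigma.mk.inj h1).2
        exact congrArg Sum.inr h2
    · have e2 : (fun i : Fin k ⊕ Fin (xs s) => Kind.free (ι := ι)
          (μ' (Sum.elim Sum.inl (fun t => Sum.inr ⟨⟨s, hs⟩, t⟩) i) -
            Ta.rk ℓ (u' (Sum.elim Sum.inl (fun t => Sum.inr ⟨⟨s, hs⟩, t⟩) i)) 0 s)) =
          Sum.elim (fun j => Kind.free (μ j - Ta.rk ℓ (u j) 0 s)) (fun _ => Kind.free 1) := by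
        funext i
        rw [hμ', hu']
        rcases i with i | i
        · rfl
        · show Kind.free (1 - Ta.rk ℓ s 0 s) = Kind.free 1
          rw [ThinG_rk_self]
      rw [e2]
      exact hxx

private theorem ThinG_base {M : ℕ} (hM : 1 ≤ M) {h c : ι} (hhc : h ≠ c) {w : ι → ℕ} {σ : ℕ}
    (hMh : M ≤ w h) (hMc : M ≤ w c) (h0 : ∀ i, i ≠ h → i ≠ c → w i = 0)
    (S : Multiset ℕ) (hS : ∀ m ∈ S, m ≤ M) (x : ℕ)
    (hsum : (Rg σ w).card ≤ (S.map (Lx w)).sum + x) :
    GM (Rg σ w) ((S + Multiset.replicate x 1).map Kind.free) := by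
  have hcard : (univ.filter fun i => 0 < w i).card = 2 := by
    have h1 : (univ.filter fun i => 0 < w i) = {h, c} := by
      ext i
      rw [mem_filter, mem_insert, mem_singleton]
      constructor
      · rintro ⟨_, hi⟩
        by_contra hcon
        push Not at hcon
        rw [h0 i hcon.1 hcon.2] at hi
        exact absurd hi (lt_irrefl 0)
      · rintro (rfl | rfl)
        · exact ⟨mem_univ _, by omega⟩
        · exact ⟨mem_univ _, by omega⟩
    rw [h1, card_pair hhc]
  refine base_one M σ w hcard _ ?_ ?_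
  · intro m hm
    rcases Multiset.mem_add.1 hm with h1 | h1
    · exact hS m h1
    · rw [Multiset.eq_of_mem_replicate h1]
      exact hM
  · refine hsum.trans (le_of_eq ?_)
    rw [Multiset.map_add, Multiset.sum_add, Multiset.map_replicate, Multiset.sum_replicate,
      base_ell_one, smul_eq_mul, mul_one]
    congr 2
    refine Multiset.map_congr rfl fun m hm => ?_
    have h1 := hS m hm
    rw [base_ell_one, Lx_two hhc h0 (by omega) (by omega)]

theorem thinG {q M θ : ℕ} (hq : Fintype.card ι ≤ q) (hM : 1 ≤ M) (h c : ι) (hhc : h ≠ c)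
    (n : ℕ) :
    ∀ (w : ι → ℕ) (σ : ℕ), (univ.filter fun i => i ≠ h ∧ i ≠ c ∧ 0 < w i).card ≤ n →
    (n + 1) * θ ≤ σ → M ≤ w h → M ≤ w c → 1 ≤ w h → 1 ≤ w c →
    (∀ i, i ≠ h → i ≠ c → w i < θ) →
    ∀ S : Multiset ℕ, (∀ m ∈ S, m ≤ M) → ∀ x : ℕ,
      kT q θ (M ^ q) n * ((Rg σ w).card + 1) ≤ x ^ 2 →
      (Rg σ w).card ≤ (S.map (Lx w)).sum + x →
      GM (Rg σ w) ((S + Multiset.replicate x 1).map Kind.free) := by
  induction n with
  | zero =>
    intro w σ hn _ hMh hMc _ _ _ S hS x _ hsum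
    refine ThinG_base hM hhc hMh hMc ?_ S hS x hsum
    intro i hi1 hi2
    by_contra hcon
    have h1 : i ∈ univ.filter fun i => i ≠ h ∧ i ≠ c ∧ 0 < w i :=
      mem_filter.2 ⟨mem_univ _, hi1, hi2, by omega⟩
    have h2 : 0 < (univ.filter fun i => i ≠ h ∧ i ≠ c ∧ 0 < w i).card := card_pos.2 ⟨i, h1⟩
    omega
  | succ n ih =>
    intro w σ hn hθσ hMh hMc h1h h1c hthin S hS x hx hsum
    by_cases hact : ∃ y, y ≠ h ∧ y ≠ c ∧ 0 < w y
    · obtain ⟨y, hyh, hyc, hy0⟩ := hact
      have hyθ := hthin y hyh hyc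
      have hexp : (n + 1 + 1) * θ = (n + 1) * θ + θ := by ring
      have hθσ' : θ ≤ σ := by
        have h2 : 0 ≤ (n + 1) * θ := Nat.zero_le _
        omega
      have hw'h : update w y 0 h = w h := update_of_ne (Ne.symm hyh) _ _
      have hw'c : update w y 0 c = w c := update_of_ne (Ne.symm hyc) _ _
      have hkT : kT q θ (M ^ q) (n + 1) = 4 * θ ^ 2 * kT q θ (M ^ q) n := by
        unfold kT
        ring
      refine thin_stepG (K' := kT q θ (M ^ q) n) hq hM h c y hhc hyh hyc w σ hθσ' hMh hMc hthin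
        ?_ S hS x ?_ ?_ hsum
      · intro s hs S' hS' x' hx' hsum'
        refine ih (update w y 0) (σ - s) ?_ ?_ ?_ ?_ ?_ ?_ ?_ S' hS' x' hx' hsum'
        · have h2 : (univ.filter fun i => i ≠ h ∧ i ≠ c ∧ 0 < update w y 0 i) ⊆
              (univ.filter fun i => i ≠ h ∧ i ≠ c ∧ 0 < w i).erase y := by
            intro i hi
            obtain ⟨_, h3, h4, h5⟩ := mem_filter.1 hi
            have hiy : i ≠ y := by
              rintro rfl
              rw [update_self] at h5
              exact absurd h5 (lt_irrefl 0)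
            rw [update_of_ne hiy] at h5
            exact mem_erase.2 ⟨hiy, mem_filter.2 ⟨mem_univ _, h3, h4, h5⟩⟩
          have h3 := card_le_card h2
          rw [card_erase_of_mem (mem_filter.2 ⟨mem_univ _, hyh, hyc, hy0⟩)] at h3
          omega
        · omega
        · rw [hw'h]
          exact hMh
        · rw [hw'c]
          exact hMc
        · rw [hw'h]
          exact h1h
        · rw [hw'c]
          exact h1c
        · intro i hi1 hi2
          by_cases hiy : i = y
          · rw [hiy, update_self]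
            omega
          · rw [update_of_ne hiy]
            exact hthin i hi1 hi2
      · refine le_trans (Nat.mul_le_mul_right _ ?_) hx
        unfold kT
        refine Nat.le_mul_of_pos_left _ ?_
        have hθ1 : 0 < θ := by omega
        positivity
      · rw [← hkT]
        exact hx
    · push Not at hact
      refine ThinG_base hM hhc hMh hMc ?_ S hS x hsum
      intro i hi1 hi2
      have := hact i hi1 hi2
      omega

end Pool.Agent.H18.Tk

end

section

/-!
# Module C7 (TK): normalisation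

`NE_trunc`: `Rg_trunc` and `Lx_congr` (`m ≤ M ≤ σ`).  `NE_reflect`: `GM.reflect`, `card_reflect`.
`normalise`: put `w₁ = min w σ`; `∑ w₁ ≥ σ + D`: if `w i ≤ σ` for all `i` then `w₁ = w`, otherwise `w₁ i = σ` for some `i` and
another coordinate among `h`, `c` has `w₁ ≥ D`.  If `2 σ ≤ ∑ w₁` take `(σ, w₁)`.  Otherwise put `σ' = ∑ w₁ - σ < σ`, `σ' ≥ D`,
and `w' = min w₁ σ'`: `∑ w' ≥ 2 σ'`: if all `w₁ i ≤ σ'` then `∑ w' = ∑ w₁ = σ + σ' ≥ 2 σ'`; if `w₁ i > σ'` for two indices this
is clear; if `w₁ i > σ'` for exactly one index `i` then `∑_{j ≠ i} w₁ j = σ + σ' - w₁ i ≥ σ'` since `w₁ i ≤ σ`.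
(Compare `exa_of_fat` in `Pool/Agent/H18/Ex/Norm.lean`.)
-/

namespace Pool.Agent.H18.Tk

open Finset Function Pool.Agent.H18.Ex Pool.Agent.H18.Tj

variable {ι : Type} [Fintype ι] [DecidableEq ι]

theorem NE_trunc {M x₀ σ : ℕ} {w : ι → ℕ} (hM : M ≤ σ) (h : NE M x₀ σ fun i => min (w i) σ) :
    NE M x₀ σ w := by
  intro S hS x hx hc
  have h1 : S.map (Lx fun i => min (w i) σ) = S.map (Lx w) := by
    apply Multiset.map_congr rfl
    intro m hm
    apply Lx_congr
    intro i
    have := hS m hm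
    omega
  have h2 := h S hS x hx
  rw [Rg_trunc, h1] at h2
  exact h2 hc

theorem NE_reflect {M x₀ σ : ℕ} {w : ι → ℕ} (hσ : σ ≤ ∑ i, w i)
    (h : NE M x₀ (∑ i, w i - σ) w) : NE M x₀ σ w := by
  intro S hS x hx hc
  refine GM.reflect σ w hσ _ (h S hS x hx ?_)
  rw [card_reflect σ w hσ]
  exact hc

theorem normalise {M D : ℕ} (hMD : M ≤ D) (hD : 1 ≤ D) (h c : ι) (hhc : h ≠ c) (σ : ℕ)
    (w : ι → ℕ) (hσ : D ≤ σ) (hh : D ≤ w h) (hc : D ≤ w c) (hs : σ + D ≤ ∑ i, w i) :
    ∃ (σ' : ℕ) (w' : ι → ℕ), D ≤ σ' ∧ (∀ i, w' i ≤ σ') ∧ 2 * σ' ≤ ∑ i, w' i ∧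
      (∀ i, w' i ≤ w i) ∧ (∀ i, D ≤ w i → D ≤ w' i) ∧
      (Rg σ' w').card = (Rg σ w).card ∧ ∀ x₀, NE M x₀ σ' w' → NE M x₀ σ w := by
  set w1 : ι → ℕ := fun i => min (w i) σ with hw1
  have hw1σ : ∀ i, w1 i ≤ σ := fun i => min_le_right _ _
  have hw1w : ∀ i, w1 i ≤ w i := fun i => min_le_left _ _
  have hw1D : ∀ i, D ≤ w i → D ≤ w1 i := fun i hi => le_min hi hσ
  have hother : ∀ a, ∃ b, b ≠ a ∧ D ≤ w b := by
    intro a
    by_cases ha : h = a
    · exact ⟨c, by rw [← ha]; exact hhc.symm, hc⟩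
    · exact ⟨h, ha, hh⟩
  have hsum1 : σ + D ≤ ∑ i, w1 i := by
    by_cases hall : ∀ i, w i ≤ σ
    · have : ∑ i, w1 i = ∑ i, w i := sum_congr rfl fun i _ => min_eq_left (hall i)
      rw [this]
      exact hs
    · push Not at hall
      obtain ⟨a, ha⟩ := hall
      obtain ⟨b, hb, hb'⟩ := hother a
      have h1 := two_le_sum w1 (Ne.symm hb)
      have h2 : w1 a = σ := min_eq_right ha.le
      have h3 := hw1D b hb'
      omega
  by_cases h2 : 2 * σ ≤ ∑ i, w1 i
  · refine ⟨σ, w1, hσ, hw1σ, h2, hw1w, hw1D, ?_, fun x₀ hx => NE_trunc (hMD.trans hσ) hx⟩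
    rw [hw1, Rg_trunc]
  · push Not at h2
    set τ := ∑ i, w1 i - σ with hτ
    have hτσ : τ < σ := by omega
    have hτD : D ≤ τ := by omega
    set w2 : ι → ℕ := fun i => min (w1 i) τ with hw2
    have hsum2 : 2 * τ ≤ ∑ i, w2 i := by
      by_cases hall : ∀ i, w1 i ≤ τ
      · have : ∑ i, w2 i = ∑ i, w1 i := sum_congr rfl fun i _ => min_eq_left (hall i)
        omega
      · push Not at hall
        obtain ⟨a, ha⟩ := hall
        have h3 : w2 a = τ := min_eq_right ha.le
        by_cases hb : ∃ b, b ≠ a ∧ τ ≤ w1 b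
        · obtain ⟨b, hb, hb'⟩ := hb
          have h4 := two_le_sum w2 (Ne.symm hb)
          have h5 : w2 b = τ := min_eq_right hb'
          omega
        · push Not at hb
          have h4 : ∑ i ∈ univ.erase a, w2 i = ∑ i ∈ univ.erase a, w1 i :=
            sum_congr rfl fun i hi => min_eq_left (hb i (ne_of_mem_erase hi)).le
          have h5 := add_sum_erase univ w2 (mem_univ a)
          have h6 := add_sum_erase univ w1 (mem_univ a)
          have h7 := hw1σ a
          omega
    refine ⟨τ, w2, hτD, fun i => min_le_right _ _, hsum2,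
      fun i => (min_le_left _ _).trans (hw1w i), fun i hi => le_min (hw1D i hi) hτD, ?_, ?_⟩
    · rw [hw2, Rg_trunc, hτ, card_reflect σ w1 (by omega), hw1, Rg_trunc]
    · intro x₀ hx
      refine NE_trunc (hMD.trans hσ) (NE_reflect (w := w1) (by omega) ?_)
      exact NE_trunc (hMD.trans hτD) hx

end Pool.Agent.H18.Tk

end
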