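import Pool.Agent.H94.LP1.M24
import Pool.Agent.H94.LP1.M38
import Pool.Agent.H94.LP1.M40
import Pool.Agent.H94.LP1.M43
import Pool.Agent.H94.LP1.M44

/-! The parts of this file: H18.Tj.PolyT, H18.Tk.NearG, H18.Tk.PolyK, H18.Tk.NearGen, H18.Tk.ExactG, H18.Tk.FinalK. -/

section

/-!
# Module T6a (TJ): the bounds are polynomial

Unfold the definitions and use `PolyB.const`, `.id`, `.add`, `.mul`, `.pow`, `.le` of
`Pool/Agent/H18/Pr/PolyBL.lean`.
-/

namespace Pool.Agent.H18.Tj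

open Finset Function Pool.Agent.H18.Ex Pool.Agent.H18.Pr

theorem polyB_cQ (q : ℕ) : PolyB fun M => cQ q M := by
  unfold cQ
  exact (((((PolyB.const 64).mul PolyB.id).mul (PolyB.id.add (PolyB.const 1))).mul
    (((PolyB.id.pow q).add (PolyB.const 1)).pow 2)).mul
    ((PolyB.id.pow (q + 1)).add (PolyB.const 1)))

theorem polyB_kT (q n : ℕ) {θ V : ℕ → ℕ} (hθ : PolyB θ) (hV : PolyB V) :
    PolyB fun M => kT q (θ M) (V M) n := by
  unfold kT zT
  exact (((PolyB.const 4).mul (hθ.pow 2)).pow n).mul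
    ((PolyB.const 12).mul (((hV.pow 2).add ((hθ.pow 2).mul ((hθ.pow (q + 1)).pow 2))).add
      (((PolyB.const 1).add hV).mul ((hθ.pow 3).mul (hV.pow 2)))))

end Pool.Agent.H18.Tj

end

section

/-!
# Module C6 (TK): near-exactness, a third long coordinate

Normalised region: `w i ≤ w o`, `w i ≤ σ`, `2 σ ≤ ∑ w`; `l, o, u` distinct.  The path of `sysC` with `Λ = Unit`,
`δ () = l`, `dir` constant, `w₀ = update w l k0`, `k0 = bK q M E' D'`, `kt = w l - k0`, `σ₀ = σ - kt` (`≥ k0`): its state `kt` is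
`Rg σ w` (`wS j = update w l (k0 + j)`, `wS_succ`), `ct dir () j = j`.
* `num_sysC` with `E := E'`, `D := D'`, `u () = u`: `hlo` is `w l ≤ w o`; `hmar`: `margin_nrm`, `w u ≥ 2 k0`; `hwin`: `ct` is
  injective, so `i = j` and the difference is `1`, `2 q³ E' ≤ k0`; `hex`: `update (update w l _) l 0 = update w l 0`.
* `near_of_path` with `j0 = M`, `jE = M + 1`; `hi m = Lx w m` for `m ≤ M` (`hi_wS` at the state `kt`); the result is
  `GM (Rg σ w) (kindsS δ ⟨S, x, 0⟩)`.
* `R jE + hi M + 1 ≤ x₀`: `R jE` is `slab` with `t = kt - jE`, `w l - t = k0 + M + 1`: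
  `2 R jE * w l ≤ 4 q² (k0 + M + 2) card ≤ 4 q² (k0 + M + 2) E x₀ ≤ w l * x₀`; `hi M + 1 ≤ cE L ≤ F kt = fc σ w l` (`NumP.floor`
  and `top` at `kt`), and `2 fc * w l ≤ 4 q² card ≤ 4 q² E x₀ ≤ w l * x₀` (`facet_le`).
-/

namespace Pool.Agent.H18.Tk

open Finset Function Pool.Agent.H18.Ex Pool.Agent.H18.Tj

variable {ι : Type} [Fintype ι] [DecidableEq ι]

/-- The bound of the run. -/
def dG (q M E E' D' : ℕ) : ℕ :=
  4 * q ^ 2 * (bK q M E' D' + M + 2) * E + 4 * bK q M E' D' + 4 * M + 8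

private theorem NearG_le_cE {M : ℕ} (L : Lens M) (hM : 1 ≤ M) : L.hi M + 1 ≤ cE L := by
  unfold cE
  have h1 : 0 < M := hM
  have h2 : 1 ≤ 64 * M * (M + 1) * (L.lo M + 1) ^ 2 := Nat.succ_le_of_lt (by positivity)
  calc L.hi M + 1 = 1 * (L.hi M + 1) := (one_mul _).symm
    _ ≤ _ := Nat.mul_le_mul_right _ h2

private theorem NearG_ct (j : ℕ) : ct (fun _ => ()) () j = j := by
  unfold ct
  rw [filter_true_of_mem (fun _ _ => rfl), card_range]

private theorem NearG_wS (l : ι) (w : ι → ℕ) (k0 j : ℕ) :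
    wS (fun _ : Unit => l) (fun _ => ()) (update w l k0) j = update w l (k0 + j) := by
  induction j with
  | zero => rw [wS_zero, Nat.add_zero]
  | succ j ih => rw [wS_succ, ih, update_idem, update_self, Nat.add_assoc]

private theorem NearG_kinds (l : ι) (S : Multiset ℕ) (x : ℕ) :
    kindsS (fun _ : Unit => l) ⟨S, x, fun _ => 0⟩ =
      (S + Multiset.replicate x 1).map Kind.free := by
  unfold kindsS
  simp only [Multiset.map_add, Multiset.map_replicate, Multiset.map_zero, sum_const_zero, add_zero]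

private theorem NearG_div {a b c w x E : ℕ} (hw : 0 < w) (h : a * w ≤ b * c) (hc : c ≤ E * x)
    (hb : 2 * (b * E) ≤ w) : 2 * a ≤ x := by
  have h1 : 2 * a * w ≤ x * w := by
    calc 2 * a * w = 2 * (a * w) := by ring
      _ ≤ 2 * (b * c) := Nat.mul_le_mul_left _ h
      _ ≤ 2 * (b * (E * x)) := Nat.mul_le_mul_left _ (Nat.mul_le_mul_left _ hc)
      _ = 2 * (b * E) * x := by ring
      _ ≤ w * x := Nat.mul_le_mul_right _ hb
      _ = x * w := Nat.mul_comm _ _
  exact Nat.le_of_mul_le_mul_right h1 hw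

theorem near_runG {q M E E' D' : ℕ} (hq : Fintype.card ι ≤ q) (hM : 1 ≤ M) (l o u : ι)
    (hlo : l ≠ o) (huo : u ≠ o) (hul : u ≠ l) (w : ι → ℕ) (σ : ℕ) (hwo : ∀ i, w i ≤ w o)
    (hwσ : ∀ i, w i ≤ σ) (h2 : 2 * σ ≤ ∑ i, w i) (hE' : 2 * cQ q M ≤ E')
    (hu : 2 * bK q M E' D' ≤ w u) (hl : dG q M E E' D' ≤ w l)
    (hex : NEr M E' D' (update w l 0)) (x₀ : ℕ) (hcard : (Rg σ w).card ≤ E * x₀) :
    NE M x₀ σ w := by
  intro S hS x hx hsum
  set k0 := bK q M E' D' with hk0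
  have hk0' : k0 = 4 * q ^ 3 * E' + cQ q M + M + D' + 2 := rfl
  have hdG : dG q M E E' D' = 4 * q ^ 2 * (k0 + M + 2) * E + 4 * k0 + 4 * M + 8 := rfl
  have hol : o ≠ l := fun h => hlo h.symm
  have hwl : 4 * q ^ 2 * (k0 + M + 2) * E + 4 * k0 + 4 * M + 8 ≤ w l := by rw [← hdG]; exact hl
  have hq1 : 1 ≤ q := le_trans (Fintype.card_pos_iff.2 ⟨l⟩) hq
  obtain ⟨kt, hkt⟩ : ∃ kt, w l = k0 + kt := Nat.exists_eq_add_of_le (by omega)
  have hwlσ : w l ≤ σ := hwσ l
  have hwlo : w l ≤ w o := hwo l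
  obtain ⟨σ₀, hσ₀⟩ : ∃ σ₀, σ = σ₀ + kt := ⟨σ - kt, by omega⟩
  set w₀ := update w l k0 with hw₀
  set δ : Unit → ι := fun _ => l with hδdef
  have hδ : Injective δ := fun a b _ => Subsingleton.elim a b
  have hw₀o : w₀ o = w o := update_of_ne hol _ _
  have hw₀u : w₀ u = w u := update_of_ne hul _ _
  have hw₀l : w₀ l = k0 := update_self _ _ _
  have hwS : ∀ j, wS δ (fun _ => ()) w₀ j = update w l (k0 + j) := fun j => NearG_wS l w k0 j
  have hwSkt : wS δ (fun _ => ()) w₀ kt = w := by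
    rw [hwS, ← hkt, update_eq_self]
  have h1 : M ≤ update w₀ (δ ()) 0 o := by
    change M ≤ update w₀ l 0 o
    rw [update_of_ne hol, hw₀o]; omega
  have h2' : M ≤ update w₀ (δ ()) 0 u := by
    change M ≤ update w₀ l 0 u
    rw [update_of_ne hul, hw₀u]; omega
  have hmarg := margin_nrm l o hlo σ w hwo h2 u huo hul
  have H := num_sysC (E := E') (D := D') (kt := kt) hq hM (by simp) δ hδ (fun _ => ()) σ₀ w₀ ()
    o (fun _ => u) (fun _ => hlo) (fun _ => huo.symm) (fun _ => hul) hE' (by omega)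
    (by rw [hw₀o]; omega) (fun _ => by rw [hw₀u]; omega)
    (fun _ => by change _ ≤ w₀ l; rw [hw₀l])
    (fun _ => by rw [hwSkt, hw₀o]; exact hwlo)
    (fun _ => by
      rw [hwSkt]
      change σ₀ + kt + k0 ≤ ∑ i, update w l 0 i
      omega)
    (fun j _ i _ hij l' => by
      have e1 : i = j := by
        have h3 := NearG_ct i
        have h4 := NearG_ct j
        have h5 : ct (fun _ => ()) () i = ct (fun _ => ()) () j := hij
        omega
      have e2 : ct (fun _ => ()) l' (j + 1) - ct (fun _ => ()) l' i = 1 := by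
        have h3 := NearG_ct (j + 1)
        have h4 := NearG_ct i
        have h5 : ct (fun _ => ()) l' (j + 1) = j + 1 := h3
        have h6 : ct (fun _ => ()) l' i = i := h4
        omega
      have e3 : 2 * q ^ 3 * E' ≤ 4 * q ^ 3 * E' := Nat.mul_le_mul_right _ (by omega)
      rw [e2, mul_one]
      refine ⟨?_, by omega⟩
      change _ ≤ w₀ l
      rw [hw₀l]; omega)
    (fun j _ => by
      rw [hwS]
      change NEr M E' D' (update (update w l (k0 + (j + 1))) l 0)
      rw [update_idem]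
      exact hex)
    h1 h2'
  set L := lensOf M (update w₀ (δ ()) 0) o u huo.symm h1 h2' with hL
  have hhi : ∀ m, m ≤ M → L.hi m = Lx w m := by
    intro m hm
    have h3 := hi_wS hδ (fun _ => ()) w₀ (M := M) (m := m)
      (fun _ => by change M ≤ w₀ l; rw [hw₀l]; omega) hm () kt o u huo.symm h1 h2'
    rw [hwSkt] at h3
    exact h3
  have hwpos : 0 < w l := by omega
  -- the end of the path
  have hR : 2 * (sysC δ hδ (fun _ => ()) σ₀ w₀).R (M + 1) ≤ x₀ := by
    obtain ⟨t, ht⟩ : ∃ t, kt = t + (M + 1) := ⟨kt - (M + 1), by omega⟩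
    have e1 : w l - t = k0 + (M + 1) := by omega
    have e2 : σ - t = σ₀ + (M + 1) := by omega
    have h3 := slab hq l σ w t (by omega) hwlσ h2 (by omega)
    have e3 : (sysC δ hδ (fun _ => ()) σ₀ w₀).R (M + 1) =
        (Rg (σ - t) (update w l (w l - t))).card := by
      change (Rg (σ₀ + (M + 1)) (wS δ (fun _ => ()) w₀ (M + 1))).card = _
      rw [hwS, e1, e2]
    rw [e3]
    refine NearG_div hwpos h3 hcard ?_
    have e4 : 2 * (2 * q ^ 2 * (w l - t + 1) * E) = 4 * q ^ 2 * (k0 + M + 2) * E := by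
      have e5 : w l - t + 1 = k0 + M + 2 := by omega
      rw [e5]; ring
    omega
  have hFf : (sysC δ hδ (fun _ => ()) σ₀ w₀).F kt = fc σ w l := by
    change (Rg (σ₀ + kt) (update (wS δ (fun _ => ()) w₀ kt) l 0)).card = _
    rw [hwSkt, ← hσ₀]
    rfl
  have hhiM : L.hi M + 1 ≤ fc σ w l := by
    obtain ⟨k', hk'⟩ : ∃ k', kt = k' + 1 := ⟨kt - 1, by omega⟩
    have h3 := H.floor () kt le_rfl
    have h4 := H.top k' (by omega)
    rw [← hk'] at h4
    have h5 : pS δ (fun _ => ()) σ₀ w₀ () kt = (sysC δ hδ (fun _ => ()) σ₀ w₀).F kt := h4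
    rw [h5, hFf] at h3
    exact le_trans (NearG_le_cE L hM) h3
  have hfc : 2 * fc σ w l ≤ x₀ := by
    have h3 := facet_le q hq1 σ w l (w l)
      (le_trans (card_le_univ _) (le_trans hq (Nat.le_succ _))) le_rfl hwlσ (by omega)
    refine NearG_div hwpos h3 hcard ?_
    have e1 : 4 * q ^ 2 * 1 * E ≤ 4 * q ^ 2 * (k0 + M + 2) * E :=
      Nat.mul_le_mul_right _ (Nat.mul_le_mul_left _ (by omega))
    have e2 : 2 * (2 * q ^ 2 * E) = 4 * q ^ 2 * 1 * E := by ring
    omega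
  have hxx : (sysC δ hδ (fun _ => ()) σ₀ w₀).R (M + 1) + L.hi M + 1 ≤ x := by omega
  have hRkt : (sysC δ hδ (fun _ => ()) σ₀ w₀).R kt = (Rg σ w).card := by
    change (Rg (σ₀ + kt) (wS δ (fun _ => ()) w₀ kt)).card = _
    rw [hwSkt, ← hσ₀]
  have hsum2 : (sysC δ hδ (fun _ => ()) σ₀ w₀).R kt ≤ (S.map L.hi).sum + x := by
    rw [hRkt, Multiset.map_congr rfl fun m hm => hhi m (hS m hm)]
    exact hsum
  have hres := near_of_path H M (M + 1) (Nat.le_succ _) (by omega)
    (fun l' => by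
      have h3 : ct (fun _ => ()) l' M = M := NearG_ct M
      exact h3.ge)
    (fun l' => by
      have h3 : ct (fun _ => ()) l' M = M := NearG_ct M
      have h4 : ct (fun _ => ()) l' (M + 1) = M + 1 := NearG_ct (M + 1)
      change ct (fun _ => ()) l' M < ct (fun _ => ()) l' (M + 1)
      omega) S hS x hxx hsum2
  change GM (Rg (σ₀ + kt) (wS δ (fun _ => ()) w₀ kt)) (kindsS δ ⟨S, x, fun _ => 0⟩) at hres
  rw [hwSkt, ← hσ₀, NearG_kinds] at hres
  exact hres

end Pool.Agent.H18.Tk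

end

section

/-!
# Module C8 (TK): the bounds are polynomial

Unfold the definitions; see `Pool/Agent/H18/Tj/PolyT.lean`.
-/

namespace Pool.Agent.H18.Tk

open Finset Function Pool.Agent.H18.Ex Pool.Agent.H18.Pr Pool.Agent.H18.Tj

theorem polyB_bK (q : ℕ) {E D : ℕ → ℕ} (hE : PolyB E) (hD : PolyB D) :
    PolyB fun M => bK q M (E M) (D M) := by
  unfold bK
  exact (((((PolyB.const (4 * q ^ 3)).mul hE).add (polyB_cQ q)).add PolyB.id).add hD).add
    (PolyB.const 2)

theorem polyB_dG (q : ℕ) {E E' D' : ℕ → ℕ} (hE : PolyB E) (hE' : PolyB E') (hD' : PolyB D') :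
    PolyB fun M => dG q M (E M) (E' M) (D' M) := by
  have hb := polyB_bK q hE' hD'
  unfold dG
  exact (((((PolyB.const (4 * q ^ 2)).mul ((hb.add PolyB.id).add (PolyB.const 2))).mul hE).add
    ((PolyB.const 4).mul hb)).add ((PolyB.const 4).mul PolyB.id)).add (PolyB.const 8)

theorem polyB_dC {B C X : ℕ → ℕ} (hB : PolyB B) (hC : PolyB C) (hX : PolyB X) :
    PolyB fun M => dC (B M) (C M) (X M) := by
  unfold dC
  exact (((((PolyB.const 3000).mul hC).mul (hB.pow 2)).add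
    (((PolyB.const 2).mul hC).mul hX)).add ((PolyB.const 100).mul hB)).add (PolyB.const 8)

end Pool.Agent.H18.Tk

end

section

/-!
# Module C13 (TK): near-exactness in general

Induction on `n` (see `near_all` in `Pool/Agent/H18/Tj/NearAll.lean`).  Given `E`: let `E' = 2 cQ q`, `D'` the function of the
induction hypothesis for `E'` (`D' = 0` for `n = 0`), `θ = 2 bK q M E' D' + 1`, `K = kT q θ (M ^ q) n`.  `D` is the sum of
`dG q M (E M) (E' M) (D' M)`, `(n + 2) θ`, `2 K E²`, `θ`, `M`, `D'`, `1`.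
Let `h, c, w, σ, x₀` be given.  `normalise` (it keeps `D ≤ w h`, `D ≤ w c`, the number of the exponents; the number of the
active coordinates does not increase since `w' ≤ w`) reduces to `w i ≤ σ`, `2 σ ≤ ∑ w`.  Let `o` be a coordinate with
`w o` maximal.
* (A) some `u ≠ h, c` has `θ ≤ w u`.  Choose `(l, u')`: `(c, u)` if `o = h`; `(h, u)` if `o = c`; `(c, h)` otherwise.  `near_runG` with
  `l, o, u'`; the hypothesis `NEr M E' D' (update w l 0)` is the induction hypothesis for the pair `(o, u')`: the active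
  coordinates of `update w l 0` other than `o`, `u'` are at most `(n + 2) - 3` (`l`, `o`, `u'` are active, and `w` has at most
  `n + 2` active coordinates).
* (B) all `w u < θ`: `thinG`; `K (card + 1) ≤ 2 K card ≤ 2 K E x₀ ≤ x₀²` as `x₀ ≥ 2 K E`: otherwise
  `card ≤ E x₀ < 2 K E²`, but `card ≥ D + 1` (`card_ge` with `h`, `c`, `b = D`; `σ + D ≤ ∑ w` since `σ ≥ D`).
For `n = 0` the case (A) is impossible.
-/

namespace Pool.Agent.H18.Tk

open Finset Function Pool.Agent.H18.Ex Pool.Agent.H18.Pr Pool.Agent.H18.Tj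

variable {ι : Type} [Fintype ι] [DecidableEq ι]

private theorem NearGen_act {h c : ι} {n : ℕ} {w : ι → ℕ}
    (hcnt : (univ.filter fun i => i ≠ h ∧ i ≠ c ∧ 0 < w i).card ≤ n) :
    (univ.filter fun i => 0 < w i).card ≤ n + 2 := by
  have h1 : (univ.filter fun i => 0 < w i) ⊆
      insert h (insert c (univ.filter fun i => i ≠ h ∧ i ≠ c ∧ 0 < w i)) := by
    intro i hi
    have hi' := (mem_filter.mp hi).2
    rw [mem_insert, mem_insert, mem_filter]
    by_cases h1 : i = h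
    · exact Or.inl h1
    · by_cases h2 : i = c
      · exact Or.inr (Or.inl h2)
      · exact Or.inr (Or.inr ⟨mem_univ _, h1, h2, hi'⟩)
  have h2 := card_le_card h1
  have h3 := card_insert_le h (insert c (univ.filter fun i => i ≠ h ∧ i ≠ c ∧ 0 < w i))
  have h4 := card_insert_le c (univ.filter fun i => i ≠ h ∧ i ≠ c ∧ 0 < w i)
  omega

private theorem NearGen_three {l o u : ι} (hlo : l ≠ o) (huo : u ≠ o) (hul : u ≠ l) {w : ι → ℕ}
    (hl : 0 < w l) (ho : 0 < w o) (hu : 0 < w u) :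
    (univ.filter fun i => i ≠ o ∧ i ≠ u ∧ 0 < update w l 0 i).card + 3 ≤
      (univ.filter fun i => 0 < w i).card := by
  obtain ⟨A, hA⟩ : ∃ A, A = univ.filter fun i => 0 < w i := ⟨_, rfl⟩
  have hmem : ∀ i, i ∈ A ↔ 0 < w i := by
    intro i
    rw [hA, mem_filter]
    exact ⟨fun h => h.2, fun h => ⟨mem_univ _, h⟩⟩
  have h1 : (univ.filter fun i => i ≠ o ∧ i ≠ u ∧ 0 < update w l 0 i) ⊆
      ((A.erase l).erase o).erase u := by
    intro i hi
    obtain ⟨-, hio, hiu, hi0⟩ := mem_filter.mp hi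
    have hil : i ≠ l := by
      rintro rfl
      rw [update_self] at hi0
      exact lt_irrefl _ hi0
    rw [update_of_ne hil] at hi0
    exact mem_erase.mpr ⟨hiu, mem_erase.mpr ⟨hio, mem_erase.mpr ⟨hil, (hmem i).2 hi0⟩⟩⟩
  have h2 := card_le_card h1
  have hlA : l ∈ A := (hmem l).2 hl
  have hoA : o ∈ A.erase l := mem_erase.mpr ⟨Ne.symm hlo, (hmem o).2 ho⟩
  have huA : u ∈ (A.erase l).erase o :=
    mem_erase.mpr ⟨huo, mem_erase.mpr ⟨hul, (hmem u).2 hu⟩⟩
  rw [card_erase_of_mem huA, card_erase_of_mem hoA, card_erase_of_mem hlA] at h2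
  have h3 : 3 ≤ A.card := by
    have h4 := card_pos.mpr ⟨u, huA⟩
    rw [card_erase_of_mem hoA, card_erase_of_mem hlA] at h4
    omega
  rw [← hA]
  omega

private theorem NearGen_step (q : ℕ) (hq : Fintype.card ι ≤ q) (n : ℕ) (E D' : ℕ → ℕ)
    (hE : Pr.PolyB E) (hD' : Pr.PolyB D')
    (H : ∀ M, 1 ≤ M → ∀ w : ι → ℕ, (univ.filter fun i => 0 < w i).card ≤ n + 2 →
      ∀ l o u : ι, l ≠ o → u ≠ o → u ≠ l → 0 < w l → 0 < w o → 0 < w u → D' M ≤ w o →
      D' M ≤ w u → NEr M (2 * cQ q M) (D' M) (update w l 0)) :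
    ∃ D : ℕ → ℕ, Pr.PolyB D ∧ ∀ M, 1 ≤ M → ∀ (h c : ι), h ≠ c →
    ∀ w : ι → ℕ, (univ.filter fun i => i ≠ h ∧ i ≠ c ∧ 0 < w i).card ≤ n →
    D M ≤ w h → D M ≤ w c → NEr M (E M) (D M) w := by
  have hE' : Pr.PolyB fun M => 2 * cQ q M := (Pr.PolyB.const 2).mul (polyB_cQ q)
  have hθ : Pr.PolyB fun M => 2 * bK q M (2 * cQ q M) (D' M) + 1 :=
    ((Pr.PolyB.const 2).mul (polyB_bK q hE' hD')).add (Pr.PolyB.const 1)
  have hV : Pr.PolyB fun M => M ^ q := Pr.PolyB.id.pow q
  have hK : Pr.PolyB fun M => kT q (2 * bK q M (2 * cQ q M) (D' M) + 1) (M ^ q) n :=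
    polyB_kT q n hθ hV
  refine ⟨fun M => dG q M (E M) (2 * cQ q M) (D' M) +
    (n + 2) * (2 * bK q M (2 * cQ q M) (D' M) + 1) +
    2 * kT q (2 * bK q M (2 * cQ q M) (D' M) + 1) (M ^ q) n * E M ^ 2 +
    (2 * bK q M (2 * cQ q M) (D' M) + 1) + M + D' M + 1, ?_, ?_⟩
  · exact ((((((polyB_dG q hE hE' hD').add ((Pr.PolyB.const (n + 2)).mul hθ)).add
      (((Pr.PolyB.const 2).mul hK).mul (hE.pow 2))).add hθ).add Pr.PolyB.id).add hD').add
      (Pr.PolyB.const 1)
  · intro M hM h c hhc w hcnt hh hc σ hσ hs x₀ hcard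
    simp only at hh hc hσ hs
    have hbD : D' M ≤ bK q M (2 * cQ q M) (D' M) := by
      unfold bK
      omega
    obtain ⟨b, hb⟩ : ∃ b, b = bK q M (2 * cQ q M) (D' M) := ⟨_, rfl⟩
    rw [← hb] at hbD hh hc hσ hs
    obtain ⟨θ, hθd⟩ : ∃ θ, θ = 2 * b + 1 := ⟨_, rfl⟩
    rw [← hθd] at hh hc hσ hs
    obtain ⟨K, hKd⟩ : ∃ K, K = kT q θ (M ^ q) n := ⟨_, rfl⟩
    rw [← hKd] at hh hc hσ hs
    obtain ⟨g, hg⟩ : ∃ g, g = dG q M (E M) (2 * cQ q M) (D' M) := ⟨_, rfl⟩
    rw [← hg] at hh hc hσ hs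
    obtain ⟨D, hD⟩ : ∃ D, D = g + (n + 2) * θ + 2 * K * E M ^ 2 + θ + M + D' M + 1 := ⟨_, rfl⟩
    rw [← hD] at hh hc hσ hs
    obtain ⟨σ', w', k1, k2, k3, k4, k5, k6, k7⟩ := normalise (M := M) (D := D)
      (by omega) (by omega) h c hhc σ w hσ hh hc hs
    refine k7 x₀ ?_
    rw [← k6] at hcard
    have hh' := k5 h hh
    have hc' := k5 c hc
    have hcnt' : (univ.filter fun i => i ≠ h ∧ i ≠ c ∧ 0 < w' i).card ≤ n := by
      refine (card_le_card fun i hi => ?_).trans hcnt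
      obtain ⟨h0, h1, h2, h3⟩ := mem_filter.mp hi
      exact mem_filter.mpr ⟨h0, h1, h2, lt_of_lt_of_le h3 (k4 i)⟩
    obtain ⟨o, -, ho⟩ := exists_max_image univ w' ⟨h, mem_univ h⟩
    have ho' : ∀ i, w' i ≤ w' o := fun i => ho i (mem_univ i)
    by_cases hA : ∃ u, u ≠ h ∧ u ≠ c ∧ θ ≤ w' u
    · obtain ⟨u, huh, huc, hu⟩ := hA
      have key : ∀ l u' : ι, l ≠ o → u' ≠ o → u' ≠ l → D ≤ w' l → θ ≤ w' u' →
          NE M x₀ σ' w' := by
        intro l u' hlo huo hul hl hu'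
        have hoh := ho' h
        refine near_runG (q := q) (E := E M) (E' := 2 * cQ q M) (D' := D' M) hq hM l o u' hlo huo
          hul w' σ' ho' k2 k3 le_rfl (by omega) (by omega) ?_ x₀ hcard
        exact H M hM w' (NearGen_act hcnt') l o u' hlo huo hul (by omega) (by omega) (by omega)
          (by omega) (by omega)
      by_cases hoh : o = h
      · exact key c u (by rw [hoh]; exact Ne.symm hhc) (by rw [hoh]; exact huh) huc hc' hu
      · by_cases hoc : o = c
        · exact key h u (by rw [hoc]; exact hhc) (by rw [hoc]; exact huc) huh hh' hu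
        · exact key c h (Ne.symm hoc) (Ne.symm hoh) hhc hc' (by omega)
    · push Not at hA
      intro S hS x hx hsum
      have hθσ : (n + 1) * θ ≤ σ' := by
        have : (n + 2) * θ = (n + 1) * θ + θ := by ring
        omega
      refine thinG (q := q) (M := M) (θ := θ) hq hM h c hhc n w' σ' hcnt' hθσ (by omega)
        (by omega) (by omega) (by omega) (fun i h1 h2 => hA i h1 h2) S hS x ?_ hsum
      rw [← hKd]
      have hcge := card_ge σ' w' D h c hhc hh' hc' k1 (by omega)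
      have hcard' : (Rg σ' w').card ≤ E M * x := hcard.trans (Nat.mul_le_mul_left _ hx)
      have h2 : 2 * K * E M ^ 2 < (Rg σ' w').card := by omega
      have h3 : 2 * K * E M ≤ x := by
        by_contra h3
        push Not at h3
        have h4 : E M * x ≤ E M * (2 * K * E M) := Nat.mul_le_mul_left _ h3.le
        have h5 : E M * (2 * K * E M) = 2 * K * E M ^ 2 := by ring
        omega
      have h6 : (Rg σ' w').card + 1 ≤ 2 * (Rg σ' w').card := by omega
      calc K * ((Rg σ' w').card + 1) ≤ K * (2 * (Rg σ' w').card) := Nat.mul_le_mul_left _ h6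
        _ ≤ K * (2 * (E M * x)) := Nat.mul_le_mul_left _ (Nat.mul_le_mul_left _ hcard')
        _ = (2 * K * E M) * x := by ring
        _ ≤ x * x := Nat.mul_le_mul_right _ h3
        _ = x ^ 2 := by ring

theorem near_gen (q : ℕ) (hq : Fintype.card ι ≤ q) (n : ℕ) :
    ∀ E : ℕ → ℕ, Pr.PolyB E → ∃ D : ℕ → ℕ, Pr.PolyB D ∧ ∀ M, 1 ≤ M → ∀ (h c : ι), h ≠ c →
    ∀ w : ι → ℕ, (univ.filter fun i => i ≠ h ∧ i ≠ c ∧ 0 < w i).card ≤ n →
    D M ≤ w h → D M ≤ w c → NEr M (E M) (D M) w := by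
  induction n with
  | zero =>
    intro E hE
    refine NearGen_step q hq 0 E (fun _ => 0) hE (Pr.PolyB.const 0) ?_
    intro M _ w hcnt l o u hlo huo hul hl ho hu _ _
    exfalso
    have h1 := NearGen_three hlo huo hul hl ho hu
    omega
  | succ n ih =>
    intro E hE
    obtain ⟨D', hD', H⟩ := ih (fun M => 2 * cQ q M) ((Pr.PolyB.const 2).mul (polyB_cQ q))
    refine NearGen_step q hq (n + 1) E D' hE hD' ?_
    intro M hM w hcnt l o u hlo huo hul hl ho hu hDo hDu
    refine H M hM o u (Ne.symm huo) (update w l 0) ?_ ?_ ?_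
    · have h1 := NearGen_three hlo huo hul hl ho hu
      omega
    · rw [update_of_ne (Ne.symm hlo)]
      exact hDo
    · rw [update_of_ne hul]
      exact hDu

end Pool.Agent.H18.Tk

end

section

/-!
# Module C14 (TK): exactness of regions with three long coordinates

`near_gen` with `n = q`, `E = 2 cQ q` gives `D'`; `D` is the sum of `dN q M E' D'`, `M`, `1`.  `normalise` (with `h = a`, `c = b`), then
`exact_nrm` with `o` a coordinate of maximal width and two of the three coordinates `a, b, c` different from `o`, ordered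
by width.
-/

namespace Pool.Agent.H18.Tk

open Finset Function Pool.Agent.H18.Ex Pool.Agent.H18.Pr Pool.Agent.H18.Tj

variable {ι : Type} [Fintype ι] [DecidableEq ι]

theorem exact_gen (q : ℕ) (hq : Fintype.card ι ≤ q) :
    ∃ D : ℕ → ℕ, Pr.PolyB D ∧ ∀ M, 1 ≤ M → ∀ a b c : ι, a ≠ b → b ≠ c → a ≠ c →
    ∀ (w : ι → ℕ) (σ : ℕ), D M ≤ w a → D M ≤ w b → D M ≤ w c → D M ≤ σ →
      σ + D M ≤ ∑ i, w i → NE M 0 σ w := by
  have hE' : Pr.PolyB fun M => 2 * cQ q M := (Pr.PolyB.const 2).mul (polyB_cQ q)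
  obtain ⟨D', hD', H⟩ := near_gen (ι := ι) q hq q (fun M => 2 * cQ q M) hE'
  refine ⟨fun M => dN q M (2 * cQ q M) (D' M) + M + 1, ?_, ?_⟩
  · have h1 : Pr.PolyB fun M => dN q M (2 * cQ q M) (D' M) := by
      unfold dN
      exact polyB_dC (polyB_bK q hE' hD') ((polyB_cQ q).mul (Pr.PolyB.const _))
        ((Pr.PolyB.id.pow (q + 1)).add (Pr.PolyB.const 1))
    exact (h1.add Pr.PolyB.id).add (Pr.PolyB.const 1)
  · intro M hM a b c hab hbc hac w σ ha hb hc hσ hs
    simp only at ha hb hc hσ hs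
    obtain ⟨g, hg⟩ : ∃ g, g = dN q M (2 * cQ q M) (D' M) := ⟨_, rfl⟩
    rw [← hg] at ha hb hc hσ hs
    obtain ⟨D, hD⟩ : ∃ D, D = g + M + 1 := ⟨_, rfl⟩
    rw [← hD] at ha hb hc hσ hs
    obtain ⟨σ', w', k1, k2, k3, k4, k5, k6, k7⟩ := normalise (M := M) (D := D)
      (by omega) (by omega) a b hab σ w hσ ha hb hs
    refine k7 0 ?_
    obtain ⟨o, -, ho⟩ := exists_max_image univ w' ⟨a, mem_univ a⟩
    have ho' : ∀ i, w' i ≤ w' o := fun i => ho i (mem_univ i)
    have hex : ∀ h c : ι, h ≠ c → ∀ w'' : ι → ℕ, D' M ≤ w'' h → D' M ≤ w'' c →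
        NEr M (2 * cQ q M) (D' M) w'' := fun h c hhc w'' h1 h2 =>
      H M hM h c hhc w'' ((card_le_univ _).trans hq) h1 h2
    have key : ∀ l1 l2 : ι, l1 ≠ o → l2 ≠ o → l1 ≠ l2 → D ≤ w' l1 → D ≤ w' l2 →
        NE M 0 σ' w' := by
      intro l1 l2 h1 h2 h3 h4 h5
      rcases le_total (w' l1) (w' l2) with h6 | h6
      · exact exact_nrm hq hM o l1 l2 h1 h2 h3 w' σ' ho' k2 k3 le_rfl h6 (by omega) hex
      · exact exact_nrm hq hM o l2 l1 h2 h1 h3.symm w' σ' ho' k2 k3 le_rfl h6 (by omega) hex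
    have ha' := k5 a ha
    have hb' := k5 b hb
    have hc' := k5 c hc
    by_cases hoa : o = a
    · exact key b c (by rw [hoa]; exact hab.symm) (by rw [hoa]; exact hac.symm) hbc hb' hc'
    · by_cases hob : o = b
      · exact key a c (by rw [hob]; exact hab) (by rw [hob]; exact hbc.symm) hac ha' hc'
      · exact key a b (Ne.symm hoa) (Ne.symm hob) hab ha' hb'

end Pool.Agent.H18.Tk

end

section

/-!
# Module G (TK): the main theorem

As `final_T` in `Pool/Agent/H18/Tj/FinalT.lean` with `exact_gen` in place of `exact_all`.  `w = bw r d' s b`,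
`b l = d' - m' (J l)`; `∑ w = ∑ b + (r + 1 - s) d' ≥ d' + D` by `hsum`; at least three coordinates of `Fin (r + 1)` have
`D ≤ w i`: the others are among the `l < s` with `d' < m' (J l) + D`, at most `r - 2`.
-/

namespace Pool.Agent.H18.Tk

open Finset Function Pool.Agent.H18.Ex Pool.Agent.H18.Fat Pool.Agent.H18.Pr Pool.Agent.H18.Tj

private theorem FinalK_Lx_one {ι : Type} [Fintype ι] [DecidableEq ι] (w : ι → ℕ) :
    Lx w 1 = 1 := by
  have h1 : Ex.Rg 0 w = {fun _ => 0} := by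
    ext a
    rw [Ex.mem_Rg, mem_singleton]
    refine ⟨fun h => ?_, fun h => ?_⟩
    · funext i
      have h2 : a i ≤ ∑ l, a l := single_le_sum (fun _ _ => Nat.zero_le _) (mem_univ i)
      omega
    · subst h
      exact ⟨fun _ => Nat.zero_le _, sum_const_zero⟩
  unfold Lx
  rw [if_neg one_ne_zero, Nat.sub_self, h1, card_singleton]

/-- The dimension of the reduced system. -/
private theorem FinalK_dim {r k d' s M : ℕ} (hr : 2 ≤ r) (hM : 1 ≤ M) (m' : Fin k → ℕ)
    (J : Fin s ↪ Fin k) (hs1 : s ≤ r + 1) (hm : ∀ i, (∀ l, J l ≠ i) → m' i ≤ M)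
    (hJ : ∀ l, m' (J l) ≤ d') (hMd : M ≤ d')
    (hex : ∀ S : Multiset ℕ, (∀ m ∈ S, m ≤ M) →
      (Ex.Rg d' (bw r d' s fun l => d' - m' (J l))).card ≤
        (S.map (Lx (bw r d' s fun l => d' - m' (J l)))).sum →
      GM (Ex.Rg d' (bw r d' s fun l => d' - m' (J l))) (S.map Kind.free)) :
    ForGeneralPoints r k fun p =>
      (Module.finrank ℂ (fatForms r d' p m') : ℤ) =
        max 0 ((cnt r s (fun l => d' - m' (J l)) d' : ℤ) -
          ∑ i ∈ univ.filter (fun i => (∀ l, J l ≠ i) ∧ 1 ≤ m' i),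
            (cnt r s (fun l => d' - m' (J l)) (m' i - 1) : ℤ)) := by
  have hsum : ∑ i ∈ univ.filter (fun i => (∀ l, J l ≠ i) ∧ 1 ≤ m' i),
      (cnt r s (fun l => d' - m' (J l)) (m' i - 1) : ℤ) =
      ((∑ i ∈ univ.filter (fun i => ∀ l, J l ≠ i),
        Lx (bw r d' s fun l => d' - m' (J l)) (m' i) : ℕ) : ℤ) := by
    rw [Nat.cast_sum, ← filter_filter, sum_filter]
    refine sum_congr rfl fun i hi => ?_
    have hi1 : ∀ l, J l ≠ i := (mem_filter.1 hi).2
    have hi2 := hm i hi1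
    unfold Lx
    by_cases h0 : m' i = 0
    · rw [if_neg (by omega), if_pos h0, Nat.cast_zero]
    · rw [if_pos (by omega), if_neg h0, count_eq r s d' (m' i - 1) hs1 (by omega)]
  rw [hsum, count_eq r s d' d' hs1 le_rfl]
  generalize hLdef : ∑ i ∈ univ.filter (fun i => ∀ l, J l ≠ i),
    Lx (bw r d' s fun l => d' - m' (J l)) (m' i) = L
  generalize hNdef : (Ex.Rg d' (bw r d' s fun l => d' - m' (J l))).card = N
  have hup := upper (r := r) (d := d') (by omega) hs1 m' J hJ (N - L) (hex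
    (((univ.filter fun i => ∀ l, J l ≠ i).val.map m') + Multiset.replicate (N - L) 1)
    (by
      intro x hx
      rcases Multiset.mem_add.1 hx with hx | hx
      · obtain ⟨i, hi, rfl⟩ := Multiset.mem_map.1 hx
        have hi' : i ∈ univ.filter fun i => ∀ l, J l ≠ i := hi
        exact hm i (mem_filter.1 hi').2
      · rw [Multiset.eq_of_mem_replicate hx]
        exact hM)
    (by
      rw [Multiset.map_add, Multiset.sum_add, Multiset.map_map, Multiset.map_replicate,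
        Multiset.sum_replicate, FinalK_Lx_one, hNdef]
      have h3 : (Multiset.map (Lx (bw r d' s fun l => d' - m' (J l)) ∘ m')
          (univ.filter fun i => ∀ l, J l ≠ i).val).sum = L := hLdef
      rw [h3, smul_eq_mul, mul_one]
      omega))
  have hlo := lower (r := r) (d := d') (by omega) hs1 m' J hJ
    fun i hi => (hm i hi).trans hMd
  refine (hup.and hlo).mono fun p hp => ?_
  obtain ⟨h1, h2⟩ := hp
  rw [hLdef, hNdef] at h2
  omega

/-- The sum of the widths. -/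
private theorem FinalK_sum_gen {n d s : ℕ} (hs : s ≤ n) (b : Fin s → ℕ) :
    ∑ i : Fin n, (if h : i.val < s then b ⟨i.val, h⟩ else d) = ∑ l, b l + (n - s) * d := by
  obtain ⟨t, rfl⟩ := Nat.exists_eq_add_of_le hs
  rw [Fin.sum_univ_add, Nat.add_sub_cancel_left]
  congr 1
  · refine sum_congr rfl fun i _ => ?_
    rw [dif_pos (show (Fin.castAdd t i).val < s from i.2)]
    rfl
  · have h1 : ∀ i : Fin t, (if h : (Fin.natAdd s i).val < s then b ⟨(Fin.natAdd s i).val, h⟩
        else d) = d := by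
      intro i
      rw [dif_neg (by simp only [Fin.val_natAdd]; omega)]
    rw [sum_congr rfl fun i _ => h1 i, sum_const, card_univ, Fintype.card_fin, smul_eq_mul]

/-- The sum of the widths. -/
private theorem FinalK_sum {r d s : ℕ} (hs : s ≤ r + 1) (b : Fin s → ℕ) :
    ∑ i, bw r d s b i = ∑ l, b l + (r + 1 - s) * d :=
  FinalK_sum_gen hs b

/-- Three long coordinates. -/
private theorem FinalK_three {r d s D : ℕ} (hs : s ≤ r + 1) (b : Fin s → ℕ) (hD : D ≤ d)
    (hc : (univ.filter fun l => b l < D).card + 2 ≤ r) :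
    ∃ x y z : Fin (r + 1), x ≠ y ∧ y ≠ z ∧ x ≠ z ∧ D ≤ bw r d s b x ∧ D ≤ bw r d s b y ∧
      D ≤ bw r d s b z := by
  have h1 : (univ.filter fun i => ¬ D ≤ bw r d s b i).card ≤
      (univ.filter fun l => b l < D).card := by
    have h2 : (univ.filter fun i => ¬ D ≤ bw r d s b i) ⊆
        (univ.filter fun l => b l < D).image fun l => (⟨l.val, l.2.trans_le hs⟩ : Fin (r + 1)) := by
      intro i hi
      have h3 := (mem_filter.1 hi).2
      unfold bw at h3
      split_ifs at h3 with h4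
      · exact mem_image.2 ⟨⟨i.val, h4⟩, mem_filter.2 ⟨mem_univ _, not_le.1 h3⟩, rfl⟩
      · exact absurd hD h3
    exact (card_le_card h2).trans card_image_le
  have h2 := card_filter_add_card_filter_not (s := (univ : Finset (Fin (r + 1))))
    (fun i => D ≤ bw r d s b i)
  rw [card_univ, Fintype.card_fin] at h2
  obtain ⟨x, hx, y, hy, z, hz, hxy, hxz, hyz⟩ := two_lt_card.1
    (show 2 < (univ.filter fun i => D ≤ bw r d s b i).card by omega)
  exact ⟨x, y, z, hxy, hyz, hxz, (mem_filter.1 hx).2, (mem_filter.1 hy).2, (mem_filter.1 hz).2⟩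

theorem final_K (r : ℕ) (hr : 2 ≤ r) : ∃ K E : ℕ, ∀ M : ℕ, 1 ≤ M →
    ∀ (k d d' s : ℕ) (m m' : Fin k → ℕ) (J : Fin s ↪ Fin k),
    Cremona r d m d' m' → s ≤ r + 1 → (∀ i, (∀ l, J l ≠ i) → m' i ≤ M) →
    (∀ l, m' (J l) ≤ d') → K * M ^ E ≤ d' → ∑ l, m' (J l) + K * M ^ E ≤ r * d' →
    (univ.filter fun l => d' < m' (J l) + K * M ^ E).card + 2 ≤ r →
    ForGeneralPoints r k fun p =>
      (Module.finrank ℂ (fatForms r d p m) : ℤ) =
        max 0 ((cnt r s (fun l => d' - m' (J l)) d' : ℤ) -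
          ∑ i ∈ univ.filter (fun i => (∀ l, J l ≠ i) ∧ 1 ≤ m' i),
            (cnt r s (fun l => d' - m' (J l)) (m' i - 1) : ℤ)) ∧
      (¬ ImposesMaximalConditions r d p m ↔
        0 < (cnt r s (fun l => d' - m' (J l)) d' : ℤ) -
          ∑ i ∈ univ.filter (fun i => (∀ l, J l ≠ i) ∧ 1 ≤ m' i),
            (cnt r s (fun l => d' - m' (J l)) (m' i - 1) : ℤ) ∧
        ((d + r).choose r : ℤ) - ∑ i, ((m i + r - 1).choose r : ℤ) <
          (cnt r s (fun l => d' - m' (J l)) d' : ℤ) -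
            ∑ i ∈ univ.filter (fun i => (∀ l, J l ≠ i) ∧ 1 ≤ m' i),
              (cnt r s (fun l => d' - m' (J l)) (m' i - 1) : ℤ)) := by
  obtain ⟨D, hD, hex⟩ := exact_gen (ι := Fin (r + 1)) (r + 1) (by rw [Fintype.card_fin])
  obtain ⟨K, E, hKE⟩ := hD
  refine ⟨K + 1, E + 1, fun M hM k d d' s m m' J hcr hs hm hJ hK hsum hc => ?_⟩
  have hp1 : 1 ≤ M ^ E := Nat.one_le_pow _ _ hM
  have hDK : D M ≤ (K + 1) * M ^ (E + 1) := by
    refine (hKE M hM).trans ?_
    rw [pow_succ]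
    nlinarith [Nat.zero_le (K * M ^ E), Nat.mul_le_mul_left (K * M ^ E) hM,
      Nat.mul_le_mul hp1 hM]
  have hMK : M ≤ (K + 1) * M ^ (E + 1) := by
    rw [pow_succ]
    calc M = 1 * (1 * M) := by ring
      _ ≤ (K + 1) * (M ^ E * M) :=
        Nat.mul_le_mul (by omega) (Nat.mul_le_mul_right M hp1)
  generalize (K + 1) * M ^ (E + 1) = Q at hK hsum hc hDK hMK
  obtain ⟨x, y, z, hxy, hyz, hxz, hx, hy, hz⟩ := FinalK_three (r := r) (d := d') (D := Q) hs
    (fun l => d' - m' (J l)) hK (by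
      refine (Nat.add_le_add_right (card_le_card ?_) 2).trans hc
      intro l hl
      have h1 := (mem_filter.1 hl).2
      refine mem_filter.2 ⟨mem_univ _, ?_⟩
      have h2 := hJ l
      omega)
  have hws : d' + Q ≤ ∑ i, bw r d' s (fun l => d' - m' (J l)) i := by
    rw [FinalK_sum hs]
    have h1 : ∑ l, (d' - m' (J l)) + ∑ l, m' (J l) = s * d' := by
      rw [← sum_add_distrib, sum_congr rfl fun l _ => Nat.sub_add_cancel (hJ l), sum_const,
        card_univ, Fintype.card_fin, smul_eq_mul]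
    have h2 : s * d' + (r + 1 - s) * d' = (r + 1) * d' := by
      rw [← Nat.add_mul, Nat.add_sub_cancel' hs]
    have h3 : (r + 1) * d' = r * d' + d' := Nat.succ_mul _ _
    omega
  refine Ub.final_of_dim (by omega) hcr _ (FinalK_dim hr hM m' J hs hm hJ (hMK.trans hK)
    fun S hS hle => ?_)
  have h := hex M hM x y z hxy hyz hxz _ d' (hDK.trans hx) (hDK.trans hy) (hDK.trans hz)
    (hDK.trans hK) ((Nat.add_le_add_left hDK d').trans hws) S hS 0 le_rfl (by omega)
  rwa [Multiset.replicate_zero, add_zero] at h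

end Pool.Agent.H18.Tk

end
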