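import Pool.Agent.H94.LP1.H18.Ub.VNumb
import Pool.Agent.H94.LP1.M19
import Pool.Agent.H94.LP1.M42

/-! The parts of this file: H18.Ub.VPeel, H18.Ub.VRun, H18.Ub.VBranch. -/

section

/-!
# Module VPeel (UB): one Horace step for configurations, with at least `w` simple layers
-/

namespace Pool.Agent.H18.Ub

open Finset Pool.Agent.H18.Ex Pool.Agent.H18.Cub Pool.Agent.H18.Pr

section PeelAux

private theorem trS_add (n : ℕ) (S T : Multiset (ℕ × ℕ)) : trS n (S + T) = trS n S + trS n T := by
  unfold trS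
  rw [Multiset.map_add, Multiset.sum_add]

private theorem flS_add (n : ℕ) (S T : Multiset (ℕ × ℕ)) : flS n (S + T) = flS n S + flS n T := by
  unfold flS
  rw [Multiset.map_add, Multiset.sum_add]

private theorem shf_zero : shf 0 = 0 := rfl

private theorem shf_cons (x : ℕ × ℕ) (S : Multiset (ℕ × ℕ)) :
    shf (x ::ₘ S) = if x.2 ≤ x.1 - 1 then (x.1 - 1, x.2) ::ₘ shf S else shf S := by
  unfold shf
  rw [Multiset.map_cons]
  by_cases h : x.2 ≤ x.1 - 1
  · rw [if_pos h]
    exact Multiset.filter_cons_of_pos (p := fun y : ℕ × ℕ => y.2 ≤ y.1) _ h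
  · rw [if_neg h]
    exact Multiset.filter_cons_of_neg (p := fun y : ℕ × ℕ => y.2 ≤ y.1) _ h

private theorem mem_shf {x : ℕ × ℕ} {S : Multiset (ℕ × ℕ)} (hx : x ∈ shf S) :
    ∃ y ∈ S, x = (y.1 - 1, y.2) ∧ y.2 ≤ y.1 - 1 := by
  unfold shf at hx
  rw [Multiset.mem_filter, Multiset.mem_map] at hx
  obtain ⟨⟨y, hy, rfl⟩, h⟩ := hx
  exact ⟨y, hy, rfl, h⟩

private theorem trS_shf {n M : ℕ} (hn : 1 ≤ n) (S : Multiset (ℕ × ℕ))
    (hS : ∀ x ∈ S, 1 ≤ x.2 ∧ x.2 ≤ 2 ∧ x.2 ≤ x.1 ∧ x.1 ≤ M) :
    M * trS n (shf S) ≤ (M - 1) * trS n S := by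
  induction S using Multiset.induction_on with
  | empty => simp [shf_zero, trS]
  | cons x S ih =>
    have ih' := ih fun y hy => hS y (Multiset.mem_cons_of_mem hy)
    have hx := hS x (Multiset.mem_cons_self x S)
    have h1 : trS n (x ::ₘ S) = ell n x.1 + trS n S := by
      unfold trS
      rw [Multiset.map_cons, Multiset.sum_cons]
    rw [shf_cons, h1]
    by_cases h : x.2 ≤ x.1 - 1
    · rw [if_pos h]
      have h2 : trS n ((x.1 - 1, x.2) ::ₘ shf S) = ell n (x.1 - 1) + trS n (shf S) := by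
        unfold trS
        rw [Multiset.map_cons, Multiset.sum_cons]
      rw [h2]
      have h3 := ell_ratio (n := n) (c := x.1 - 1) (M := M) hn (by omega)
      have h4 : x.1 - 1 + 1 = x.1 := by omega
      rw [h4] at h3
      rw [Nat.mul_add, Nat.mul_add]
      exact Nat.add_le_add h3 ih'
    · rw [if_neg h, Nat.mul_add]
      exact le_trans ih' (Nat.le_add_left _ _)

private theorem flS_shf {n M : ℕ} (S : Multiset (ℕ × ℕ))
    (hS : ∀ x ∈ S, 1 ≤ x.2 ∧ x.2 ≤ 2 ∧ x.2 ≤ x.1 ∧ x.1 ≤ M) :
    flS n S = flS n (shf S) + trS n S := by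
  induction S using Multiset.induction_on with
  | empty => simp [shf_zero, trS, flS]
  | cons x S ih =>
    have ih' := ih fun y hy => hS y (Multiset.mem_cons_of_mem hy)
    obtain ⟨hx1, hx2, hx3, -⟩ := hS x (Multiset.mem_cons_self x S)
    have h1 : trS n (x ::ₘ S) = ell n x.1 + trS n S := by
      unfold trS
      rw [Multiset.map_cons, Multiset.sum_cons]
    have h0 : flS n (x ::ₘ S) = (ell (n + 1) x.1 + 1 - x.2) + flS n S := by
      unfold flS
      rw [Multiset.map_cons, Multiset.sum_cons]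
    have h5 := ell_succ n (x.1 - 1)
    have h4 : x.1 - 1 + 1 = x.1 := by omega
    rw [h4] at h5
    have h6 := ell_pos n (m := x.1) (by omega)
    rw [shf_cons, h1, h0, ih']
    by_cases h : x.2 ≤ x.1 - 1
    · rw [if_pos h]
      have h2 : flS n ((x.1 - 1, x.2) ::ₘ shf S) =
          (ell (n + 1) (x.1 - 1) + 1 - x.2) + flS n (shf S) := by
        unfold flS
        rw [Multiset.map_cons, Multiset.sum_cons]
      rw [h2]
      have h7 := ell_pos (n + 1) (m := x.1 - 1) (by omega)
      omega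
    · rw [if_neg h]
      have h8 : ell (n + 1) (x.1 - 1) = x.2 - 1 := by
        have h9 : x.1 = x.2 := by omega
        rw [h9]
        have h10 : x.2 = 1 ∨ x.2 = 2 := by omega
        rcases h10 with h10 | h10
        · rw [h10]
          exact ell_zero (by omega)
        · rw [h10]
          exact ell_one _
      omega

variable {ι : Type} [DecidableEq ι]

private theorem peelCfg_Φ_self (c : Cfg ι) (l : ι) (I : Multiset ℕ) (μ t u : ℕ) :
    (peelCfg c l I μ t u).Φ l = shf (c.Φ l) + I.map (fun m => (m - 1, 1)) +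
      Multiset.replicate t (μ, 2) := Function.update_self _ _ _

private theorem peelCfg_Φ_ne (c : Cfg ι) {l l' : ι} (h : l' ≠ l) (I : Multiset ℕ) (μ t u : ℕ) :
    (peelCfg c l I μ t u).Φ l' = c.Φ l' := Function.update_of_ne h _ _

private theorem peelCfg_OK {M : ℕ} {c : Cfg ι} (hc : c.OK M) (l : ι) {I : Multiset ℕ}
    (hI : I ≤ c.N) {μ t u : ℕ} (hμ : t ≠ 0 → 2 ≤ μ ∧ μ ≤ M) : (peelCfg c l I μ t u).OK M := by
  refine ⟨fun m hm => hc.hN m ?_, fun l' x hx => ?_⟩
  · exact Multiset.mem_of_le (le_trans tsub_le_self tsub_le_self) hm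
  · by_cases h : l' = l
    · subst h
      rw [peelCfg_Φ_self, Multiset.mem_add, Multiset.mem_add] at hx
      rcases hx with (hx | hx) | hx
      · obtain ⟨y, hy, rfl, h1⟩ := mem_shf hx
        have h2 := hc.hΦ l' y hy
        refine ⟨h2.1, h2.2.1, h1, ?_⟩
        change y.1 - 1 ≤ M
        omega
      · obtain ⟨m, hm, rfl⟩ := Multiset.mem_map.1 hx
        have h2 := hc.hN m (Multiset.mem_of_le hI hm)
        refine ⟨le_rfl, by norm_num, ?_, ?_⟩
        · change 1 ≤ m - 1
          omega
        · change m - 1 ≤ M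
          omega
      · have h1 := Multiset.mem_replicate.1 hx
        have h2 := hμ h1.1
        rw [h1.2]
        exact ⟨by norm_num, le_rfl, h2.1, h2.2⟩
    · rw [peelCfg_Φ_ne c h] at hx
      exact hc.hΦ l' x hx

private theorem map_finset_sum {α β γ : Type*} (g : α → β) (s : Finset γ) (F : γ → Multiset α) :
    (∑ i ∈ s, F i).map g = ∑ i ∈ s, (F i).map g :=
  map_sum (Multiset.mapAddMonoidHom g) F s

variable [Fintype ι]

/-- The roles of the conditions. -/
private def roles (c : Cfg ι) (l : ι) (I : Multiset ℕ) (μ t u : ℕ) : Multiset (Role ι) :=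
  (c.N - I - Multiset.replicate t μ).map (fun m => Role.stay (Kind.free m)) +
    Multiset.replicate (c.s - u) (Role.stay (Kind.free 1)) +
    ∑ l' ∈ univ.erase l, (c.Φ l').map (fun x => Role.stay (Kind.forced l' x.1 x.2)) +
    (c.Φ l).map (fun x => Role.here x.1 x.2) + I.map (fun m => Role.ord m) +
    Multiset.replicate t Role.dif + Multiset.replicate u (Role.ord 1)

/-- The roles other than the simple layers. -/
private def rolesA (c : Cfg ι) (l : ι) (I : Multiset ℕ) (μ t u : ℕ) : Multiset (Role ι) :=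
  (c.N - I - Multiset.replicate t μ).map (fun m => Role.stay (Kind.free m)) +
    Multiset.replicate (c.s - u) (Role.stay (Kind.free 1)) +
    ∑ l' ∈ univ.erase l, (c.Φ l').map (fun x => Role.stay (Kind.forced l' x.1 x.2)) +
    (c.Φ l).map (fun x => Role.here x.1 x.2) + I.map (fun m => Role.ord m)

private theorem roles_split (c : Cfg ι) (l : ι) (I : Multiset ℕ) (μ t u : ℕ) :
    (roles c l I μ t u).map Role.layer =
      (rolesA c l I μ t u).map Role.layer + Multiset.replicate (t + u) 1 := by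
  have h : roles c l I μ t u = rolesA c l I μ t u + Multiset.replicate t Role.dif +
      Multiset.replicate u (Role.ord 1) := rfl
  rw [h, Multiset.map_add, Multiset.map_add, Multiset.map_replicate, Multiset.map_replicate,
    Multiset.replicate_add, add_assoc]
  rfl

private theorem roles_before (c : Cfg ι) (l : ι) {I : Multiset ℕ} (hI : I ≤ c.N) {μ t u : ℕ}
    (ht : Multiset.replicate t μ ≤ c.N - I) (hu : u ≤ c.s) :
    (roles c l I μ t u).map (Role.before l μ) = c.kinds := by
  have h1 : c.N = (c.N - I - Multiset.replicate t μ) + I + Multiset.replicate t μ := by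
    rw [add_right_comm, tsub_add_cancel_of_le ht, tsub_add_cancel_of_le hI]
  have h2 : Multiset.replicate c.s (Kind.free 1 : Kind ι) =
      Multiset.replicate (c.s - u) (Kind.free 1) + Multiset.replicate u (Kind.free 1) := by
    rw [← Multiset.replicate_add, Nat.sub_add_cancel hu]
  have h3 : ∑ l', (c.Φ l').map (fun x => Kind.forced l' x.1 x.2) =
      ∑ l' ∈ univ.erase l, (c.Φ l').map (fun x => Kind.forced l' x.1 x.2) +
        (c.Φ l).map (fun x => Kind.forced l x.1 x.2) :=
    (Finset.sum_erase_add univ _ (Finset.mem_univ l)).symm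
  have h4 : c.kinds = ((c.N - I - Multiset.replicate t μ) + I +
      Multiset.replicate t μ).map Kind.free + Multiset.replicate c.s (Kind.free 1) +
      ∑ l', (c.Φ l').map (fun x => Kind.forced l' x.1 x.2) := by
    rw [← h1]
    rfl
  rw [h4, h2, h3]
  unfold roles
  simp only [Multiset.map_add, map_finset_sum, Multiset.map_map, Multiset.map_replicate,
    Function.comp_def, Role.before]
  abel

private theorem roles_after (c : Cfg ι) (l : ι) (I : Multiset ℕ) (μ t u : ℕ) :
    (peelCfg c l I μ t u).kinds ≤ (roles c l I μ t u).map (Role.after l μ) := by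
  have h3 : ∑ l', ((peelCfg c l I μ t u).Φ l').map (fun x => Kind.forced l' x.1 x.2) =
      ∑ l' ∈ univ.erase l, (c.Φ l').map (fun x => Kind.forced l' x.1 x.2) +
        (shf (c.Φ l) + I.map (fun m => (m - 1, 1)) + Multiset.replicate t (μ, 2)).map
          (fun x : ℕ × ℕ => Kind.forced l x.1 x.2) := by
    rw [← Finset.sum_erase_add univ _ (Finset.mem_univ l), peelCfg_Φ_self]
    congr 1
    refine Finset.sum_congr rfl fun l' hl' => ?_
    rw [peelCfg_Φ_ne c (Finset.ne_of_mem_erase hl')]
  have h4 : (peelCfg c l I μ t u).kinds = (c.N - I - Multiset.replicate t μ).map Kind.free +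
      Multiset.replicate (c.s - u) (Kind.free 1) +
      ∑ l', ((peelCfg c l I μ t u).Φ l').map (fun x => Kind.forced l' x.1 x.2) := rfl
  have h5 : (shf (c.Φ l)).map (fun x => Kind.forced l x.1 x.2) ≤
      (c.Φ l).map (fun x => Kind.forced l (x.1 - 1) x.2) := by
    have h6 : shf (c.Φ l) ≤ (c.Φ l).map fun x => (x.1 - 1, x.2) := Multiset.filter_le _ _
    have h7 := Multiset.map_le_map (f := fun x : ℕ × ℕ => Kind.forced l x.1 x.2) h6
    rw [Multiset.map_map] at h7
    exact h7
  rw [h4, h3]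
  unfold roles
  simp only [Multiset.map_add, map_finset_sum, Multiset.map_map, Multiset.map_replicate,
    Function.comp_def, Role.after]
  calc (c.N - I - Multiset.replicate t μ).map Kind.free +
      Multiset.replicate (c.s - u) (Kind.free 1) +
      (∑ l' ∈ univ.erase l, (c.Φ l').map (fun x => Kind.forced l' x.1 x.2) +
        ((shf (c.Φ l)).map (fun x => Kind.forced l x.1 x.2) +
          I.map (fun m => Kind.forced l (m - 1) 1) +
          Multiset.replicate t (Kind.forced l μ 2)))
      ≤ (c.N - I - Multiset.replicate t μ).map Kind.free +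
      Multiset.replicate (c.s - u) (Kind.free 1) +
      (∑ l' ∈ univ.erase l, (c.Φ l').map (fun x => Kind.forced l' x.1 x.2) +
        ((c.Φ l).map (fun x => Kind.forced l (x.1 - 1) x.2) +
          I.map (fun m => Kind.forced l (m - 1) 1) +
          Multiset.replicate t (Kind.forced l μ 2))) := by
        gcongr
    _ = (c.N - I - Multiset.replicate t μ).map (fun m => Kind.free m) +
      Multiset.replicate (c.s - u) (Kind.free 1) +
      ∑ l' ∈ univ.erase l, (c.Φ l').map (fun x => Kind.forced l' x.1 x.2) +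
      (c.Φ l).map (fun x => Kind.forced l (x.1 - 1) x.2) +
      I.map (fun m => Kind.forced l (m - 1) 1) +
      Multiset.replicate t (Kind.forced l μ 2) := by abel
    _ ≤ _ := Multiset.le_add_right _ _

private theorem sum_ell_zero {n : ℕ} (hn : 1 ≤ n) {α : Type*} (S : Multiset α) :
    (S.map fun _ => ell n 0).sum = 0 := by
  rw [ell_zero hn]
  simp

private theorem roles_layer {n M : ℕ} (hn : 1 ≤ n) {c : Cfg ι} (hc : c.OK M) (l : ι)
    (I : Multiset ℕ) (μ t u : ℕ) :
    (((roles c l I μ t u).map Role.layer).map (ell n)).sum =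
      c.tr n l + (I.map (ell n)).sum + t + u := by
  have h1 : ((c.Φ l).map fun x => ell n (if x.2 ≤ x.1 then x.1 else 0)).sum = c.tr n l := by
    unfold Cfg.tr
    congr 1
    refine Multiset.map_congr rfl fun x hx => ?_
    rw [if_pos (hc.hΦ l x hx).2.2.1]
  unfold roles
  simp only [Multiset.map_add, map_finset_sum, Multiset.map_map, Multiset.map_replicate,
    Function.comp_def, Role.layer, Multiset.sum_add]
  rw [h1, sum_ell_zero hn]
  have h2 : (∑ l' ∈ univ.erase l, (c.Φ l').map fun _ => ell n 0).sum = 0 := by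
    have h3 : (∑ l' ∈ univ.erase l, (c.Φ l').map fun _ => ell n 0).sum =
        ∑ l' ∈ univ.erase l, ((c.Φ l').map fun _ => ell n 0).sum :=
      map_sum (Multiset.sumAddMonoidHom) _ _
    rw [h3]
    exact Finset.sum_eq_zero fun l' _ => sum_ell_zero hn _
  rw [h2, ell_one, Multiset.sum_replicate, Multiset.sum_replicate, Multiset.sum_replicate,
    ell_zero hn]
  simp

private theorem roles_notAt (c : Cfg ι) (l : ι) (I : Multiset ℕ) (μ t u : ℕ) (k : Kind ι)
    (hk : Role.stay k ∈ roles c l I μ t u) : k.NotAt l := by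
  unfold roles at hk
  simp only [Multiset.mem_add] at hk
  rcases hk with (((((h | h) | h) | h) | h) | h) | h
  · obtain ⟨m, _, hm⟩ := Multiset.mem_map.1 h
    cases hm
    trivial
  · have h1 := (Multiset.mem_replicate.1 h).2
    cases h1
    trivial
  · obtain ⟨l', hl', h1⟩ := Multiset.mem_sum.1 h
    obtain ⟨x, _, hx⟩ := Multiset.mem_map.1 h1
    cases hx
    exact Finset.ne_of_mem_erase hl'
  · obtain ⟨m, _, hm⟩ := Multiset.mem_map.1 h
    cases hm
  · obtain ⟨m, _, hm⟩ := Multiset.mem_map.1 h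
    cases hm
  · have h1 := (Multiset.mem_replicate.1 h).2
    cases h1
  · have h1 := (Multiset.mem_replicate.1 h).2
    cases h1

private theorem roles_layer_le {M : ℕ} (hM : 1 ≤ M) {c : Cfg ι} (hc : c.OK M) (l : ι)
    {I : Multiset ℕ} (hI : I ≤ c.N) (μ t u : ℕ) :
    ∀ m ∈ (roles c l I μ t u).map Role.layer, m ≤ M := by
  intro m hm
  obtain ⟨r, hr, rfl⟩ := Multiset.mem_map.1 hm
  unfold roles at hr
  simp only [Multiset.mem_add] at hr
  rcases hr with (((((h | h) | h) | h) | h) | h) | h
  · obtain ⟨m, _, rfl⟩ := Multiset.mem_map.1 h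
    exact Nat.zero_le _
  · rw [(Multiset.mem_replicate.1 h).2]
    exact Nat.zero_le _
  · obtain ⟨l', hl', h1⟩ := Multiset.mem_sum.1 h
    obtain ⟨x, _, rfl⟩ := Multiset.mem_map.1 h1
    exact Nat.zero_le _
  · obtain ⟨x, hx, rfl⟩ := Multiset.mem_map.1 h
    have h2 := hc.hΦ l x hx
    change (if x.2 ≤ x.1 then x.1 else 0) ≤ M
    rw [if_pos h2.2.2.1]
    exact h2.2.2.2
  · obtain ⟨m', hm', rfl⟩ := Multiset.mem_map.1 h
    exact (hc.hN m' (Multiset.mem_of_le hI hm')).2
  · rw [(Multiset.mem_replicate.1 h).2]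
    exact hM
  · rw [(Multiset.mem_replicate.1 h).2]
    exact hM

private theorem peelCfg_K {n : ℕ} (Y : SysN ι n) {M w : ℕ} (hn : 1 ≤ n) (hM : 1 ≤ M) (a : ι → ℕ)
    (l : ι) (ha : 1 ≤ a l) (hE : Gw Y M w l a)
    (c : Cfg ι) (hc : c.OK M) {I : Multiset ℕ} (hI : I ≤ c.N) {μ t u : ℕ} (hμ1 : 1 ≤ μ)
    (ht : Multiset.replicate t μ ≤ c.N - I) (hu : u ≤ c.s) (hw : w ≤ t + u)
    (hsum : c.tr n l + (I.map (ell n)).sum + t + u = Y.F l a)
    (h : Y.K (dn l a) (peelCfg c l I μ t u).kinds) : Y.K a c.kinds := by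
  rw [← roles_before c l hI ht hu]
  apply Y.step a l ha μ hμ1
  · exact roles_notAt c l I μ t u
  · have h1 := roles_layer_le hM hc l hI μ t u
    have h2 := roles_layer hn hc l I μ t u
    rw [roles_split] at h1 h2 ⊢
    rw [Multiset.map_add, Multiset.sum_add, Multiset.map_replicate, Multiset.sum_replicate,
      ell_one, smul_eq_mul, mul_one] at h2
    exact hE _ (fun m hm => h1 m (Multiset.mem_add.2 (Or.inl hm))) _ hw (by omega)
  · exact Y.mono _ _ _ (roles_after c l I μ t u) h

omit [Fintype ι] in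
private theorem peelCfg_tr {n M : ℕ} (hn : 1 ≤ n) {c : Cfg ι} (hc : c.OK M) (l : ι)
    {I : Multiset ℕ} (hI : I ≤ c.N) (μ t u : ℕ) :
    M * (peelCfg c l I μ t u).tr n l ≤ (M - 1) * (c.tr n l + (I.map (ell n)).sum) +
      M * (t * ell n μ) := by
  have h1 : (peelCfg c l I μ t u).tr n l = trS n (shf (c.Φ l)) +
      trS n (I.map (fun m => (m - 1, 1))) + trS n (Multiset.replicate t (μ, 2)) := by
    unfold Cfg.tr
    rw [peelCfg_Φ_self, ← trS_add, ← trS_add]
    rfl
  have h2 : trS n (Multiset.replicate t (μ, 2)) = t * ell n μ := by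
    unfold trS
    rw [Multiset.map_replicate, Multiset.sum_replicate, smul_eq_mul]
  have h3 := trS_shf hn (c.Φ l) (fun x hx => hc.hΦ l x hx)
  have h4 : trS n (c.Φ l) = c.tr n l := rfl
  have h5 : M * trS n (I.map (fun m => (m - 1, 1))) ≤ (M - 1) * (I.map (ell n)).sum := by
    have h6 : ∀ m ∈ I, 2 ≤ m ∧ m ≤ M := fun m hm => hc.hN m (Multiset.mem_of_le hI hm)
    clear h1 h2 h3 h4 hI
    unfold trS
    rw [Multiset.map_map]
    induction I using Multiset.induction_on with
    | empty => simp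
    | cons m I ih =>
      have ih' := ih fun m' hm' => h6 m' (Multiset.mem_cons_of_mem hm')
      have h7 := h6 m (Multiset.mem_cons_self m I)
      rw [Multiset.map_cons, Multiset.map_cons, Multiset.sum_cons, Multiset.sum_cons,
        Nat.mul_add, Nat.mul_add]
      have h8 := ell_ratio (n := n) (c := m - 1) (M := M) hn (by omega)
      have h9 : m - 1 + 1 = m := by omega
      rw [h9] at h8
      exact Nat.add_le_add h8 ih'
  rw [h1, h2, Nat.mul_add, Nat.mul_add, Nat.mul_add]
  rw [h4] at h3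
  omega

omit [DecidableEq ι] [Fintype ι] in
private theorem sum_map_N {n : ℕ} (c : Cfg ι) {I : Multiset ℕ} (hI : I ≤ c.N) {μ t : ℕ}
    (ht : Multiset.replicate t μ ≤ c.N - I) :
    (c.N.map (ell (n + 1))).sum = ((c.N - I - Multiset.replicate t μ).map (ell (n + 1))).sum +
      (I.map (ell (n + 1))).sum + t * ell (n + 1) μ := by
  have h1 : c.N = (c.N - I - Multiset.replicate t μ) + I + Multiset.replicate t μ := by
    rw [add_right_comm, tsub_add_cancel_of_le ht, tsub_add_cancel_of_le hI]
  conv_lhs => rw [h1]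
  rw [Multiset.map_add, Multiset.map_add, Multiset.sum_add, Multiset.sum_add,
    Multiset.map_replicate, Multiset.sum_replicate, smul_eq_mul]

private theorem peelCfg_sz {n M : ℕ} {c : Cfg ι} (hc : c.OK M) (l : ι)
    {I : Multiset ℕ} (hI : I ≤ c.N) {μ t u : ℕ} (hμ1 : 1 ≤ μ)
    (ht : Multiset.replicate t μ ≤ c.N - I) (hu : u ≤ c.s) :
    (peelCfg c l I μ t u).sz n + (c.tr n l + (I.map (ell n)).sum + t + u) = c.sz n := by
  have h1 : (peelCfg c l I μ t u).fl n l = flS n (shf (c.Φ l)) +
      flS n (I.map (fun m => (m - 1, 1))) + flS n (Multiset.replicate t (μ, 2)) := by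
    unfold Cfg.fl
    rw [peelCfg_Φ_self, ← flS_add, ← flS_add]
    rfl
  have h2 : flS n (Multiset.replicate t (μ, 2)) + t = t * ell (n + 1) μ := by
    unfold flS
    rw [Multiset.map_replicate, Multiset.sum_replicate, smul_eq_mul]
    have h3 := ell_pos (n + 1) hμ1
    change t * (ell (n + 1) μ + 1 - 2) + t = t * ell (n + 1) μ
    have h4 : ell (n + 1) μ = (ell (n + 1) μ + 1 - 2) + 1 := by omega
    conv_rhs => rw [h4]
    ring
  have h3 := flS_shf (n := n) (c.Φ l) (fun x hx => hc.hΦ l x hx)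
  have h4 : flS n (c.Φ l) = c.fl n l := rfl
  have h4' : trS n (c.Φ l) = c.tr n l := rfl
  have h5 : flS n (I.map (fun m => (m - 1, 1))) + (I.map (ell n)).sum =
      (I.map (ell (n + 1))).sum := by
    have h6 : ∀ m ∈ I, 2 ≤ m ∧ m ≤ M := fun m hm => hc.hN m (Multiset.mem_of_le hI hm)
    clear h1 h2 h3 h4 h4' hI ht
    unfold flS
    rw [Multiset.map_map]
    induction I using Multiset.induction_on with
    | empty => simp
    | cons m I ih =>
      have ih' := ih fun m' hm' => h6 m' (Multiset.mem_cons_of_mem hm')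
      have h7 := h6 m (Multiset.mem_cons_self m I)
      rw [Multiset.map_cons, Multiset.map_cons, Multiset.map_cons, Multiset.sum_cons,
        Multiset.sum_cons, Multiset.sum_cons, ← ih']
      have h8 := ell_succ n (m - 1)
      have h9 : m - 1 + 1 = m := by omega
      rw [h9] at h8
      simp only [Function.comp_apply]
      omega
  have h6 : ∑ l', (peelCfg c l I μ t u).fl n l' =
      ∑ l' ∈ univ.erase l, c.fl n l' + (peelCfg c l I μ t u).fl n l := by
    rw [← Finset.sum_erase_add univ _ (Finset.mem_univ l)]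
    congr 1
    refine Finset.sum_congr rfl fun l' hl' => ?_
    unfold Cfg.fl
    rw [peelCfg_Φ_ne c (Finset.ne_of_mem_erase hl')]
  have h7 : ∑ l', c.fl n l' = ∑ l' ∈ univ.erase l, c.fl n l' + c.fl n l :=
    (Finset.sum_erase_add univ _ (Finset.mem_univ l)).symm
  have h8 := sum_map_N (n := n) c hI ht
  have h9 : (peelCfg c l I μ t u).nsz n =
      ((c.N - I - Multiset.replicate t μ).map (ell (n + 1))).sum + (c.s - u) := rfl
  have h10 : c.nsz n = (c.N.map (ell (n + 1))).sum + c.s := rfl
  unfold Cfg.sz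
  rw [h6, h7, h9, h10]
  omega

end PeelAux

variable {ι : Type} [Fintype ι] [DecidableEq ι]

private theorem card_le_sum_ell {n M : ℕ} {I : Multiset ℕ} (hI : ∀ m ∈ I, 2 ≤ m ∧ m ≤ M) :
    I.card ≤ (I.map (ell n)).sum ∧ (I.map (ell n)).sum ≤ ell n M * I.card := by
  induction I using Multiset.induction_on with
  | empty => simp
  | cons m I ih =>
    have ih' := ih fun m' hm' => hI m' (Multiset.mem_cons_of_mem hm')
    have h7 := hI m (Multiset.mem_cons_self m I)
    rw [Multiset.card_cons, Multiset.map_cons, Multiset.sum_cons, Nat.mul_add, Nat.mul_one]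
    have h8 := ell_pos n (m := m) (by omega)
    have h9 := ell_mono n h7.2
    constructor
    · omega
    · omega

/-- One step for configurations, with a prescribed set `I₀` of points to be put on the hyperplane; at
least `w` simple layers are used. -/
theorem peelNw {n : ℕ} (Y : SysN ι n) (M w : ℕ) (hn : 1 ≤ n) (hM : 1 ≤ M) (a : ι → ℕ) (l : ι)
    (ha : 1 ≤ a l) (hE : Gw Y M w l a) (f : ℕ) (hf : Y.F l a = f) (c : Cfg ι) (hc : c.OK M)
    (I₀ : Multiset ℕ) (hI₀ : I₀ ≤ c.N)
    (hroom : c.tr n l + (I₀.map (ell n)).sum + w ≤ f)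
    (hav : ell (n + 1) M * (f + g0w n M w) + f ≤ c.nsz n) :
    ∃ c' : Cfg ι, c'.OK M ∧ (Y.K (dn l a) c'.kinds → Y.K a c.kinds) ∧
      (∀ l' ≠ l, c'.Φ l' = c.Φ l') ∧
      M * c'.tr n l ≤ (M - 1) * f + M * ((ell n M + w) * ell n M) ∧
      c'.sz n + f = c.sz n ∧
      (c'.s = c.s ∨ c'.N.card < g0w n M w) ∧
      c'.N.card ≤ c.N.card ∧
      (c.N = 0 → c'.N = 0 ∧ c'.Φ l = shf (c.Φ l)) ∧
      shf (c.Φ l) + I₀.map (fun m => (m - 1, 1)) ≤ c'.Φ l ∧ c'.s ≤ c.s := by
  obtain ⟨I, hI1, hI2, hI3, hI4⟩ := exists_maximal_fill c.N I₀ (ell n) (f - c.tr n l - w) hI₀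
    (by omega)
  set ρ := f - c.tr n l - (I.map (ell n)).sum with hρ
  have hρw : w ≤ ρ := by omega
  have hIN : ∀ m ∈ I, 2 ≤ m ∧ m ≤ M := fun m hm => hc.hN m (Multiset.mem_of_le hI2 hm)
  have hcard := card_le_sum_ell (n := n) hIN
  have hg0 : 1 ≤ g0w n M w := by
    unfold g0w
    have := ell_pos n hM
    exact Nat.mul_pos (by omega) (by omega)
  have hsub : (c.N - I).card = c.N.card - I.card := Multiset.card_sub hI2
  have hIc : I.card ≤ c.N.card := Multiset.card_le_card hI2
  have hmapI : shf (c.Φ l) + I₀.map (fun m => (m - 1, 1)) ≤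
      shf (c.Φ l) + I.map (fun m => (m - 1, 1)) := by
    gcongr
  by_cases hcase : g0w n M w ≤ (c.N - I).card
  · -- case (i)
    have hNI : ∀ m ∈ c.N - I, 1 ≤ m ∧ m ≤ M := by
      intro m hm
      have := hc.hN m (Multiset.mem_of_le tsub_le_self hm)
      omega
    obtain ⟨μ, hμ, hrep⟩ := exists_replicate_le (c.N - I) M (ell n M + w) hNI hcase hM
      (by have := ell_pos n hM; omega)
    have hμ2 := hc.hN μ (Multiset.mem_of_le tsub_le_self hμ)
    have hρle : ρ ≤ ell n M + w := by
      have h1 := hI4 μ hμ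
      have h2 := ell_mono n hμ2.2
      omega
    have ht : Multiset.replicate ρ μ ≤ c.N - I :=
      le_trans (Multiset.replicate_le_replicate μ |>.2 hρle) hrep
    have hsum : c.tr n l + (I.map (ell n)).sum + ρ + 0 = f := by omega
    refine ⟨peelCfg c l I μ ρ 0, peelCfg_OK hc l hI2 (fun _ => hμ2),
      peelCfg_K Y hn hM a l ha hE c hc hI2 (by omega) ht (Nat.zero_le _) (by omega)
        (hsum.trans hf.symm),
      fun l' hl' => peelCfg_Φ_ne c hl' I μ ρ 0, ?_, ?_, Or.inl rfl, ?_, ?_, ?_,
      Nat.sub_le _ _⟩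
    · refine le_trans (peelCfg_tr hn hc l hI2 μ ρ 0) (Nat.add_le_add ?_ ?_)
      · exact Nat.mul_le_mul_left _ (by omega)
      · apply Nat.mul_le_mul_left
        exact Nat.mul_le_mul hρle (ell_mono n hμ2.2)
    · have h1 := peelCfg_sz (n := n) hc l hI2 (by omega : 1 ≤ μ) ht (Nat.zero_le c.s)
      rw [hsum] at h1
      exact h1
    · exact Multiset.card_le_card (le_trans tsub_le_self tsub_le_self)
    · intro h
      rw [h] at hcase hsub
      rw [hsub] at hcase
      simp at hcase
      omega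
    · rw [peelCfg_Φ_self]
      exact le_trans hmapI (Multiset.le_add_right _ _)
  · -- case (ii)
    push Not at hcase
    have hρs : ρ ≤ c.s := by
      have h1 : c.nsz n ≤ ell (n + 1) M * c.N.card + c.s := by
        unfold Cfg.nsz
        exact Nat.add_le_add_right (card_le_sum_ell (n := n + 1) hc.hN).2 _
      have h2 : ell (n + 1) M * c.N.card ≤ ell (n + 1) M * (f + g0w n M w) :=
        Nat.mul_le_mul_left _ (by omega)
      omega
    have hsum : c.tr n l + (I.map (ell n)).sum + 0 + ρ = f := by omega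
    have ht : Multiset.replicate 0 1 ≤ c.N - I := Multiset.zero_le _
    have hNeq : (peelCfg c l I 1 0 ρ).N = c.N - I := by
      change c.N - I - Multiset.replicate 0 1 = c.N - I
      rw [Multiset.replicate_zero, tsub_zero]
    refine ⟨peelCfg c l I 1 0 ρ, peelCfg_OK hc l hI2 (fun h => absurd rfl h),
      peelCfg_K Y hn hM a l ha hE c hc hI2 le_rfl ht hρs (by omega) (hsum.trans hf.symm),
      fun l' hl' => peelCfg_Φ_ne c hl' I 1 0 ρ, ?_, ?_, Or.inr ?_, ?_, ?_, ?_,
      Nat.sub_le _ _⟩
    · refine le_trans (peelCfg_tr hn hc l hI2 1 0 ρ) (Nat.add_le_add ?_ ?_)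
      · exact Nat.mul_le_mul_left _ (by omega)
      · rw [zero_mul, mul_zero]
        exact Nat.zero_le _
    · have h1 := peelCfg_sz (n := n) hc l hI2 (le_refl 1) ht hρs
      rw [hsum] at h1
      exact h1
    · rw [hNeq]
      exact hcase
    · rw [hNeq]
      exact Multiset.card_le_card tsub_le_self
    · intro h
      have hI0 : I = 0 := by
        rw [h] at hI2
        exact Multiset.le_zero.1 hI2
      refine ⟨?_, ?_⟩
      · rw [hNeq, h, hI0]
        rfl
      · rw [peelCfg_Φ_self, hI0]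
        simp
    · rw [peelCfg_Φ_self]
      exact le_trans hmapI (Multiset.le_add_right _ _)

end Pool.Agent.H18.Ub

end

section

/-!
# Module VRun (UB): running along a good list of directions, with at least `w` simple layers
-/

namespace Pool.Agent.H18.Ub

open Finset Pool.Agent.H18.Ex Pool.Agent.H18.Cub Pool.Agent.H18.Pr

variable {Λ : Type} [Fintype Λ] [DecidableEq Λ] {n : ℕ}

/-- A list of directions along which the state can be peeled; `φ` bounds the traces of the forced
conditions. -/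
def GoodW (Y : SysN Λ n) (M w : ℕ) : List Λ → (Λ → ℕ) → (Λ → ℕ) → Prop
  | [], _, _ => True
  | l :: L, a, φ =>
    1 ≤ a l ∧ Gw Y M w l a ∧ φ l + w + 1 ≤ Y.F l a ∧
    ((M * ∑ i, φ i + ell (n + 1) M * (Y.F l a + g0w n M w) + Y.F l a : ℕ) : ℤ) ≤ Y.R a ∧
    GoodW Y M w L (dn l a) (Function.update φ l (nphiw n M w (Y.F l a)))

/-- The bounds at the end of a list of directions. -/
def ephW (Y : SysN Λ n) (M w : ℕ) : List Λ → (Λ → ℕ) → (Λ → ℕ) → (Λ → ℕ)
  | [], _, φ => φ
  | l :: L, a, φ => ephW Y M w L (dn l a) (Function.update φ l (nphiw n M w (Y.F l a)))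

private theorem shf_mono {S T : Multiset (ℕ × ℕ)} (h : S ≤ T) : shf S ≤ shf T :=
  Multiset.filter_le_filter _ (Multiset.map_le_map h)

private theorem shf_iterate_mono (k : ℕ) {S T : Multiset (ℕ × ℕ)} (h : S ≤ T) :
    shf^[k] S ≤ shf^[k] T := by
  induction k generalizing S T with
  | zero => exact h
  | succ k ih =>
    rw [Function.iterate_succ_apply, Function.iterate_succ_apply]
    exact ih (shf_mono h)

/-- Running along a good list. -/
theorem runNw (Y : SysN Λ n) (M w : ℕ) (hn : 1 ≤ n) (hM : 1 ≤ M) (L : List Λ) (a φ : Λ → ℕ)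
    (hG : GoodW Y M w L a φ) (c : Cfg Λ) (hc : c.OK M)
    (htr : ∀ l, c.tr n l ≤ φ l) (hsz : Y.R a ≤ c.sz n) :
    ∃ c' : Cfg Λ, c'.OK M ∧
      (Y.K (ew L a) c'.kinds → Y.K a c.kinds) ∧
      (∀ l, c'.tr n l ≤ ephW Y M w L a φ l) ∧
      (c'.sz n : ℤ) + Y.R a = c.sz n + Y.R (ew L a) ∧
      (c'.s = c.s ∨ c'.N.card < g0w n M w) ∧
      c'.N.card ≤ c.N.card ∧
      (c.N = 0 → c'.N = 0 ∧ ∀ l, c'.Φ l = shf^[L.count l] (c.Φ l)) ∧
      (∀ l, shf^[L.count l] (c.Φ l) ≤ c'.Φ l) ∧
      (∀ l, L.count l = 0 → c'.Φ l = c.Φ l) ∧ c'.s ≤ c.s := by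
  induction L generalizing a φ c with
  | nil =>
    refine ⟨c, hc, ?_, htr, ?_, Or.inl rfl, le_rfl,
      fun h => ⟨h, fun l => rfl⟩, fun l => le_rfl, fun l _ => rfl, le_rfl⟩
    · rw [ew_nil']
      exact id
    · rw [ew_nil']
  | cons l L ih =>
    obtain ⟨h2, hE, h4, h5, h6⟩ := hG
    have hfl : ∑ l', c.fl n l' ≤ M * ∑ l', φ l' := by
      rw [Finset.mul_sum]
      refine Finset.sum_le_sum fun l' _ => ?_
      exact le_trans (Cfg.fl_le n M c hc l') (Nat.mul_le_mul_left _ (htr l'))
    have hszdef : c.sz n = c.nsz n + ∑ l', c.fl n l' := rfl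
    have hav : ell (n + 1) M * (Y.F l a + g0w n M w) + Y.F l a ≤ c.nsz n := by
      have h7 : ((M * ∑ i, φ i + ell (n + 1) M * (Y.F l a + g0w n M w) + Y.F l a : ℕ) : ℤ) ≤
          ((c.sz n : ℕ) : ℤ) := h5.trans hsz
      have h8 := Int.ofNat_le.1 h7
      omega
    have htrl := htr l
    obtain ⟨c₁, hc₁, hGM, hΦ, htr₁, hsz₁, hs₁, hN₁, hz₁, hle₁, hss₁⟩ :=
      peelNw Y M w hn hM a l h2 hE (Y.F l a) rfl c hc 0
        (Multiset.zero_le _) (by rw [Multiset.map_zero, Multiset.sum_zero]; omega) hav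
    have hpeel := Y.count a l h2 (by omega)
    have htr₁' : ∀ l', c₁.tr n l' ≤ Function.update φ l (nphiw n M w (Y.F l a)) l' := by
      intro l'
      by_cases hl' : l' = l
      · subst hl'
        rw [Function.update_self]
        unfold nphiw
        have h7 : c₁.tr n l' ≤
            ((M - 1) * Y.F l' a + M * ((ell n M + w) * ell n M)) / M := by
          rw [Nat.le_div_iff_mul_le (by omega), Nat.mul_comm]
          exact htr₁
        rw [Nat.add_mul_div_left _ _ (by omega)] at h7
        exact h7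
      · rw [Function.update_of_ne hl']
        have h8 : c₁.tr n l' = c.tr n l' := by
          unfold Cfg.tr
          rw [hΦ l' hl']
        rw [h8]
        exact htr l'
    obtain ⟨c₂, hc₂, hGM₂, htr₂, hsz₂, hs₂, hN₂, hz₂, hle₂, hcnt₂, hss₂⟩ :=
      ih (dn l a) (Function.update φ l (nphiw n M w (Y.F l a))) h6 c₁ hc₁ htr₁' (by omega)
    refine ⟨c₂, hc₂, ?_, htr₂, ?_, ?_, le_trans hN₂ hN₁, ?_, ?_, ?_, le_trans hss₂ hss₁⟩
    · rw [ew_cons']
      exact fun h => hGM (hGM₂ h)
    · rw [ew_cons']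
      omega
    · rcases hs₂ with h | h
      · rcases hs₁ with h' | h'
        · exact Or.inl (h.trans h')
        · exact Or.inr (by omega)
      · exact Or.inr h
    · intro h0
      obtain ⟨h7, h8⟩ := hz₁ h0
      obtain ⟨h9, h10⟩ := hz₂ h7
      refine ⟨h9, fun l' => ?_⟩
      by_cases hl' : l' = l
      · subst hl'
        rw [List.count_cons_self, Function.iterate_succ_apply, ← h8]
        exact h10 l'
      · rw [List.count_cons_of_ne (fun h => hl' h.symm), ← hΦ l' hl']
        exact h10 l'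
    · intro l'
      by_cases hl' : l' = l
      · subst hl'
        rw [List.count_cons_self, Function.iterate_succ_apply]
        rw [Multiset.map_zero, add_zero] at hle₁
        exact le_trans (shf_iterate_mono _ hle₁) (hle₂ l')
      · rw [List.count_cons_of_ne (fun h => hl' h.symm), ← hΦ l' hl']
        exact hle₂ l'
    · intro l' hcount
      by_cases hl' : l' = l
      · subst hl'
        rw [List.count_cons_self] at hcount
        omega
      · rw [List.count_cons_of_ne (fun h => hl' h.symm)] at hcount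
        rw [hcnt₂ l' hcount, hΦ l' hl']

end Pool.Agent.H18.Ub

end

section

/-!
# Module VBranch (UB): the branches
-/

namespace Pool.Agent.H18.Ub

open Finset Pool.Agent.H18.Ex Pool.Agent.H18.Cub Pool.Agent.H18.Pr Pool.Agent.H18.Ua

variable {Λ : Type} [Fintype Λ] [DecidableEq Λ] {n : ℕ}

theorem list_goodW (Y : SysN Λ n) {M t w : ℕ} {N : Λ → ℕ} (H : NumV Y M t w N)
    (L : List Λ) : ∀ (b φ : Λ → ℕ), (∀ i, φ i ≤ nphiw n M w t) →
      (∀ i, b i ≤ N i ∧ N i + L.count i ≤ b i + (2 * M + 1)) → GoodW Y M w L b φ := by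
  induction L with
  | nil =>
    intro b φ _ _
    trivial
  | cons l L ih =>
    intro b φ hφ hb
    have hreg : RegU M N b := fun i => ⟨(hb i).1, by have := (hb i).2; omega⟩
    have hF := H.leF b l hreg
    have hFt := H.Fle b l hreg
    have hl := (hb l).2
    rw [List.count_cons_self] at hl
    have hNl := H.hN l
    have h1 : 1 ≤ b l := by omega
    refine ⟨h1, H.gd b l hreg, ?_, ?_, ?_⟩
    · have h2 := nphiw_room H.hM H.ht H.hw hF
      have h3 := hφ l
      omega
    · refine le_trans (Int.ofNat_le.2 ?_) (H.leR b hreg)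
      have h2 : ∑ i, φ i ≤ qU n M * t := by
        calc ∑ i, φ i ≤ ∑ _i : Λ, t :=
              sum_le_sum fun i _ => (hφ i).trans (nphiw_le H.hM H.ht H.hw)
          _ = qU n M * t := by rw [sum_const, card_univ, H.hq, smul_eq_mul]
      have h3 := leR_room_w (n := n) H.hM H.ht H.hw hFt
      have h4 := Nat.mul_le_mul_left M h2
      omega
    · refine ih _ _ ?_ ?_
      · intro i
        by_cases hi : i = l
        · subst hi
          rw [Function.update_self]
          exact nphiw_mono M w hFt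
        · rw [Function.update_of_ne hi]
          exact hφ i
      · intro i
        have h2 := hb i
        by_cases hi : i = l
        · subst hi
          rw [dn_self]
          omega
        · rw [dn_ne hi]
          rw [List.count_cons_of_ne (fun h => hi h.symm)] at h2
          exact h2

end Pool.Agent.H18.Ub

end
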