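import Pool.Agent.H94.LP1.M43
import Pool.Agent.H94.LP1.M46

/-! The parts of this file: H18.Ub.VBranch_1, H18.Ub.VPhase. -/

section

/-!
# Module VBranch (UB): the branches
-/

namespace Pool.Agent.H18.Ub

open Finset Pool.Agent.H18.Ex Pool.Agent.H18.Cub Pool.Agent.H18.Pr Pool.Agent.H18.Ua

variable {Λ : Type} [Fintype Λ] [DecidableEq Λ] {n : ℕ}

omit [Fintype Λ] in
private theorem count_flat (M : ℕ) (L : List Λ) (hnd : L.Nodup) (l : Λ) :
    (L.flatMap fun l => List.replicate M l).count l = if l ∈ L then M else 0 := by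
  induction L with
  | nil => simp
  | cons d ds ih =>
    rw [List.flatMap_cons, List.count_append, ih (List.nodup_cons.1 hnd).2, List.count_replicate]
    have h1 := (List.nodup_cons.1 hnd).1
    by_cases h : l = d
    · subst h
      rw [if_neg h1, if_pos List.mem_cons_self]
      simp
    · have h2 : (d == l) = false := by simpa using fun h' => h h'.symm
      rw [h2]
      simp [h]

/-- The forced conditions alone are independent: with `x` simple points they kill the state, if the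
total length is at least `R a`.  Apply `runN` to the configuration `⟨0, x, Φ⟩` and the list
`(univ : Finset Λ).toList.flatMap fun l => List.replicate M l`: at the end there are only simple points
left.  Here `φ ≤ nphiw n M w t` for all directions. -/
theorem forced_indep (Y : SysN Λ n) {M t w : ℕ} {N : Λ → ℕ} (H : NumV Y M t w N) (a : Λ → ℕ)
    (ha : ∀ i, a i ≤ N i ∧ N i ≤ a i + (M + 1)) (c : Cfg Λ) (hc : c.OK M) (hN0 : c.N = 0)
    (htr : ∀ l, c.tr n l ≤ nphiw n M w t) (hsz : Y.R a ≤ c.sz n) : Y.K a c.kinds := by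
  set L : List Λ := (univ : Finset Λ).toList.flatMap fun l => List.replicate M l with hL
  have hcount : ∀ l, L.count l = M := by
    intro l
    rw [hL, count_flat M _ (nodup_toList _), if_pos (mem_toList.2 (mem_univ l))]
  have hG : GoodW Y M w L a (fun _ => nphiw n M w t) := by
    refine list_goodW Y H L a _ (fun _ => le_rfl) fun i => ?_
    rw [hcount]
    have := ha i
    omega
  obtain ⟨c', hc', hK, -, hsz', -, -, h0, -, -, -⟩ :=
    runNw Y M w H.hn H.hM L a (fun _ => nphiw n M w t) hG c hc htr hsz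
  obtain ⟨h1, h2⟩ := h0 hN0
  have hΦ : ∀ l, c'.Φ l = 0 := by
    intro l
    rw [h2 l, hcount]
    exact shf_iterate_eq_zero le_rfl _ fun x hx =>
      ⟨(hc.hΦ l x hx).1, (hc.hΦ l x hx).2.2.1, (hc.hΦ l x hx).2.2.2⟩
  have hkinds : c'.kinds = Multiset.replicate c'.s (Kind.free 1) := by
    unfold Cfg.kinds
    rw [h1]
    simp [hΦ]
  have hsz2 : c'.sz n = c'.s := by
    unfold Cfg.sz Cfg.nsz Cfg.fl
    rw [h1]
    simp [hΦ]
  apply hK
  rw [hkinds]
  have hreg : RegU M N (ew L a) := by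
    intro i
    have h3 : ew L a i = a i - M := by
      show a i - L.count i = a i - M
      rw [hcount]
    rw [h3]
    have := ha i
    omega
  refine (H.full _ hreg).2 _ ?_
  rw [hsz2] at hsz'
  omega

omit [Fintype Λ] in
private theorem dnT_insert {T : Finset Λ} {l : Λ} (hl : l ∉ T) (a : Λ → ℕ) :
    dnT (insert l T) a = dn l (dnT T a) := by
  funext i
  unfold dnT
  by_cases hi : i = l
  · subst hi
    rw [dn_self, if_pos (mem_insert_self _ _), if_neg hl]
  · rw [dn_ne hi]
    by_cases h : i ∈ T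
    · rw [if_pos (mem_insert_of_mem h), if_pos h]
    · rw [if_neg h, if_neg (by rw [mem_insert]; push Not; exact ⟨hi, h⟩)]

omit [Fintype Λ] in
private theorem dnT_bd {M : ℕ} {N a : Λ → ℕ} (ha : ∀ i, a i ≤ N i ∧ N i ≤ a i + M)
    (T : Finset Λ) : ∀ i, dnT T a i ≤ N i ∧ N i ≤ dnT T a i + (M + 1) := by
  intro i
  have h1 := ha i
  unfold dnT
  split_ifs
  · omega
  · omega

private theorem dnT_R (Y : SysN Λ n) {M t w : ℕ} {N : Λ → ℕ} (H : NumV Y M t w N) (a : Λ → ℕ)
    (ha : ∀ i, a i ≤ N i ∧ N i ≤ a i + M) (T : Finset Λ) :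
    2 * M * Y.R (dnT T a) + (T.card * (t + 2 * M * nphiw n M w t) : ℕ) ≤ 2 * M * Y.R a := by
  induction T using Finset.induction_on with
  | empty =>
    have h1 : dnT (∅ : Finset Λ) a = a := by
      funext i
      unfold dnT
      rw [if_neg (notMem_empty i)]
    rw [h1]
    simp
  | insert l T hl ih =>
    have hbd := dnT_bd ha T
    have hreg : RegU M N (dnT T a) := fun i => by
      have := hbd i
      omega
    have hM := H.hM
    have hF := H.leF _ l hreg
    have h1 := nphiw_margin (n := n) H.hM H.ht H.hw hF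
    have h2 : 1 ≤ dnT T a l := by
      have h3 := H.hN l
      have h4 := hbd l
      omega
    have ht : 1 ≤ t := by
      have h3 := H.ht
      unfold TU at h3
      have h4 : 1 ≤ 8 * M * (M + 1) * ell n M ^ 2 :=
        Nat.mul_pos (Nat.mul_pos (by omega) (by omega)) (Nat.pow_pos (ell_pos n hM))
      omega
    have hF1 : 1 ≤ Y.F l (dnT T a) := by
      by_contra h
      have h3 : Y.F l (dnT T a) = 0 := by omega
      rw [h3] at h1
      omega
    have hcount := Y.count _ l h2 hF1
    rw [dnT_insert hl, card_insert_of_notMem hl]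
    have h5 : ((t + 2 * M * nphiw n M w t : ℕ) : ℤ) ≤ 2 * M * (Y.F l (dnT T a) : ℤ) := by
      exact_mod_cast h1
    rw [hcount] at ih
    have h6 : (((T.card + 1) * (t + 2 * M * nphiw n M w t) : ℕ) : ℤ) =
        ((T.card * (t + 2 * M * nphiw n M w t) : ℕ) : ℤ) + ((t + 2 * M * nphiw n M w t : ℕ) : ℤ) := by
      push_cast
      ring
    rw [h6]
    linarith

/-- The branch `T`: the forced conditions are independent (`forced_indep`), then use `NumU.kill`; the
surplus is `R a - R (dnT T a) - ∑ l ∈ T, c.tr n l ≥ T.card * (t / (2 M))` (`nphi_margin`), and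
`branch_cases`. -/
theorem branch (Y : SysN Λ n) {M t w : ℕ} {N : Λ → ℕ} (H : NumV Y M t w N) (a : Λ → ℕ)
    (ha : ∀ i, a i ≤ N i ∧ N i ≤ a i + M) (c : Cfg Λ) (hc : c.OK M)
    (htr : ∀ l, c.tr n l ≤ nphiw n M w t) (hsz : Y.R a ≤ c.sz n)
    (hy : ∀ l, Multiset.replicate (yU n M t) (1, 1) ≤ c.Φ l) (T : Finset Λ) :
    Y.K (dnT T a) (brT c (yU n M t) univ T).kinds := by
  have hM := H.hM
  set y := yU n M t with hydef
  set c₁ := brT c y univ T with hc₁def
  set a₁ := dnT T a with ha₁def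
  have hbd : ∀ i, a₁ i ≤ N i ∧ N i ≤ a₁ i + (M + 1) := dnT_bd ha T
  have hreg : RegU M N a₁ := fun i => by
    have := hbd i
    omega
  have hc₁ : c₁.OK M := brT_OK hc univ T
  have htr₁ : ∀ l, c₁.tr n l ≤ nphiw n M w t := fun l =>
    (brT_tr_le H.hn hc univ T l).trans (htr l)
  have hsz₁ : c₁.sz n + ∑ l ∈ T, c.tr n l = c.sz n := brT_sz H.hn hc hy T
  have hR := dnT_R Y H a ha T
  rw [← ha₁def] at hR
  have hsumT : ∑ l ∈ T, c.tr n l ≤ T.card * nphiw n M w t := by
    calc ∑ l ∈ T, c.tr n l ≤ ∑ _l ∈ T, nphiw n M w t := sum_le_sum fun l _ => htr l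
      _ = T.card * nphiw n M w t := by rw [sum_const, smul_eq_mul]
  -- the surplus
  have hsur : 2 * M * Y.R a₁ + (T.card * t : ℕ) ≤ 2 * M * (c₁.sz n : ℤ) := by
    have h1 : (c₁.sz n : ℤ) + ((∑ l ∈ T, c.tr n l : ℕ) : ℤ) = c.sz n := by exact_mod_cast hsz₁
    have h2 : ((∑ l ∈ T, c.tr n l : ℕ) : ℤ) ≤ ((T.card * nphiw n M w t : ℕ) : ℤ) := by
      exact_mod_cast hsumT
    have h3 : 2 * (M : ℤ) * Y.R a ≤ 2 * M * c.sz n :=
      mul_le_mul_of_nonneg_left hsz (by positivity)
    have h4 : 2 * (M : ℤ) * ((∑ l ∈ T, c.tr n l : ℕ) : ℤ) ≤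
        2 * M * ((T.card * nphiw n M w t : ℕ) : ℤ) :=
      mul_le_mul_of_nonneg_left h2 (by positivity)
    have h5 : ((T.card * (t + 2 * M * nphiw n M w t) : ℕ) : ℤ) =
        ((T.card * t : ℕ) : ℤ) + 2 * M * ((T.card * nphiw n M w t : ℕ) : ℤ) := by
      push_cast
      ring
    rw [h5] at hR
    rw [← h1] at h3
    linarith
  have hRle : Y.R a₁ ≤ c₁.sz n := by
    have h1 : 2 * (M : ℤ) * Y.R a₁ ≤ 2 * M * (c₁.sz n : ℤ) := by
      have : (0 : ℤ) ≤ (T.card * t : ℕ) := by positivity
      linarith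
    exact le_of_mul_le_mul_left h1 (by positivity)
  -- the forced conditions are few
  have hfl : ∑ l, c₁.fl n l ≤ 4 * M * qU n M * t := by
    calc ∑ l, c₁.fl n l ≤ ∑ _l : Λ, M * t := by
          refine sum_le_sum fun l _ => (Cfg.fl_le n M c₁ hc₁ l).trans ?_
          exact Nat.mul_le_mul_left _ ((htr₁ l).trans (nphiw_le H.hM H.ht H.hw))
      _ = M * qU n M * t := by
          rw [sum_const, card_univ, H.hq, smul_eq_mul]
          ring
      _ ≤ 4 * M * qU n M * t := by
          apply Nat.mul_le_mul_right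
          apply Nat.mul_le_mul_right
          omega
  have hflR : ((∑ l, c₁.fl n l : ℕ) : ℤ) ≤ Y.R a₁ :=
    le_trans (by exact_mod_cast hfl) (H.leR a₁ hreg)
  obtain ⟨x, hx⟩ : ∃ x : ℕ, (x : ℤ) = Y.R a₁ - ((∑ l, c₁.fl n l : ℕ) : ℤ) :=
    ⟨(Y.R a₁ - ((∑ l, c₁.fl n l : ℕ) : ℤ)).toNat, Int.toNat_of_nonneg (by omega)⟩
  set S : Multiset (Kind Λ) := ∑ l, (c₁.Φ l).map fun x => Kind.forced l x.1 x.2 with hS
  have hind : Y.K a₁ (S + Multiset.replicate x (Kind.free 1)) := by
    have h1 := forced_indep Y H a₁ hbd ⟨0, x, c₁.Φ⟩ ⟨fun m hm => absurd hm (Multiset.notMem_zero m),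
      hc₁.hΦ⟩ rfl htr₁ (by
        have h2 : (⟨0, x, c₁.Φ⟩ : Cfg Λ).sz n = x + ∑ l, c₁.fl n l := by
          unfold Cfg.sz Cfg.nsz
          simp [Cfg.fl]
        rw [h2]
        push_cast
        push_cast at hx
        omega)
    have h2 : (⟨0, x, c₁.Φ⟩ : Cfg Λ).kinds = S + Multiset.replicate x (Kind.free 1) := by
      unfold Cfg.kinds
      rw [Multiset.map_zero, zero_add, add_comm]
    rwa [h2] at h1
  have hszdef : c₁.sz n = (c₁.N.map (ell (n + 1))).sum + c₁.s + ∑ l, c₁.fl n l := rfl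
  have hkill := H.kill a₁ hreg S x c₁.s c₁.N (fun m hm => by
    have := hc₁.hN m hm
    omega) hind (by omega) ?_
  · have h1 : c₁.kinds = S + c₁.N.map Kind.free + Multiset.replicate c₁.s (Kind.free 1) := by
      unfold Cfg.kinds
      rw [← hS]
      abel
    rw [h1]
    exact hkill
  · have hjle : T.card ≤ qU n M := by
      rw [← H.hq]
      exact card_le_univ T
    rcases branch_cases (n := n) H.hM H.ht T.card hjle with h | h
    · left
      have h1 : c₁.s = c.s + y * (univ \ T).card := rfl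
      have h2 : (univ \ T).card = qU n M - T.card := by
        rw [← H.hq, card_univ_sdiff]
      rw [h1, h2]
      exact h.trans (Nat.le_add_left _ _)
    · right
      have h1 : 2 * (M : ℤ) * ((ell (n + 1) M * (M * t) : ℕ) : ℤ) ≤
          2 * M * ((c₁.sz n : ℤ) - Y.R a₁) := by
        have h2 : ((2 * M * (ell (n + 1) M * (M * t)) : ℕ) : ℤ) ≤ ((T.card * t : ℕ) : ℤ) := by
          exact_mod_cast h
        have h3 : ((2 * M * (ell (n + 1) M * (M * t)) : ℕ) : ℤ) =
            2 * (M : ℤ) * ((ell (n + 1) M * (M * t) : ℕ) : ℤ) := by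
          push_cast
          ring
        rw [h3] at h2
        linarith
      have h2 := le_of_mul_le_mul_left h1 (by positivity)
      omega

end Pool.Agent.H18.Ub

end

section

/-!
# Module VPhase (UB): putting points on the hyperplanes
-/

namespace Pool.Agent.H18.Ub

open Finset Pool.Agent.H18.Ex Pool.Agent.H18.Cub Pool.Agent.H18.Pr Pool.Agent.H18.Ua

variable {Λ : Type} [Fintype Λ] [DecidableEq Λ] {n : ℕ}

theorem sum_ell_le {n M : ℕ} {G : Multiset ℕ} (hG : ∀ m ∈ G, 2 ≤ m ∧ m ≤ M) :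
    (G.map (ell n)).sum ≤ ell n M * G.card := by
  induction G using Multiset.induction_on with
  | empty => simp
  | cons m G ih =>
    have ih' := ih fun m' hm' => hG m' (Multiset.mem_cons_of_mem hm')
    have h7 := hG m (Multiset.mem_cons_self m G)
    rw [Multiset.card_cons, Multiset.map_cons, Multiset.sum_cons, Nat.mul_add, Nat.mul_one]
    have h9 := ell_mono n h7.2
    omega

/-- Some multiplicity occurs at least `y` times among many points. -/
theorem exists_class {M y : ℕ} (G : Multiset ℕ) (hG : ∀ m ∈ G, 2 ≤ m ∧ m ≤ M)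
    (h : M * (ell (n + 1) M * y) < (G.map (ell (n + 1))).sum) :
    ∃ m, 2 ≤ m ∧ m ≤ M ∧ Multiset.replicate y m ≤ G := by
  have h1 := sum_ell_le (n := n + 1) hG
  have h2 : ell (n + 1) M * (M * y) < ell (n + 1) M * G.card := by
    calc ell (n + 1) M * (M * y) = M * (ell (n + 1) M * y) := by ring
      _ < _ := by omega
  have h3 : M * y < G.card := lt_of_mul_lt_mul_left h2 (Nat.zero_le _)
  rcases Nat.eq_zero_or_pos y with rfl | hy
  · obtain ⟨m, hm⟩ := Multiset.card_pos_iff_exists_mem.1 (by omega : 0 < G.card)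
    exact ⟨m, (hG m hm).1, (hG m hm).2, by simp⟩
  · have hM : 1 ≤ M := by
      obtain ⟨m, hm⟩ := Multiset.card_pos_iff_exists_mem.1 (by omega : 0 < G.card)
      have := hG m hm
      omega
    obtain ⟨m, hm, hrep⟩ := exists_replicate_le G M y
      (fun m hm => ⟨by have := hG m hm; omega, (hG m hm).2⟩) (by omega) hM hy
    exact ⟨m, (hG m hm).1, (hG m hm).2, hrep⟩

/-- The bounds for the traces along a list of directions. -/
theorem eph_le (Y : SysN Λ n) {M t w : ℕ} {N : Λ → ℕ} (H : NumV Y M t w N)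
    (L : List Λ) : ∀ (b φ : Λ → ℕ), (∀ i, φ i ≤ nphiw n M w t) →
      (∀ i, b i ≤ N i ∧ N i + L.count i ≤ b i + (2 * M + 1)) →
      ∀ i, ephW Y M w L b φ i ≤ nphiw n M w t := by
  induction L with
  | nil =>
    intro b φ hφ _
    exact hφ
  | cons l L ih =>
    intro b φ hφ hb
    have hreg : RegU M N b := fun i => ⟨(hb i).1, by have := (hb i).2; omega⟩
    have hFt := H.Fle b l hreg
    refine ih _ _ ?_ ?_
    · intro i
      by_cases hi : i = l
      · subst hi
        rw [Function.update_self]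
        exact nphiw_mono M w hFt
      · rw [Function.update_of_ne hi]
        exact hφ i
    · intro i
      have h2 := hb i
      by_cases hi : i = l
      · subst hi
        rw [List.count_cons_self] at h2
        rw [dn_self]
        omega
      · rw [dn_ne hi]
        rw [List.count_cons_of_ne (fun h => hi h.symm)] at h2
        exact h2

/-- The forced conditions are few. -/
theorem sum_fl_le {M B : ℕ} {c : Cfg Λ} (hc : c.OK M) (h : ∀ l, c.tr n l ≤ B) :
    ∑ l, c.fl n l ≤ M * (Fintype.card Λ * B) := by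
  calc ∑ l, c.fl n l ≤ ∑ _l : Λ, M * B := by
        refine sum_le_sum fun l _ => (Cfg.fl_le n M c hc l).trans ?_
        exact Nat.mul_le_mul_left _ (h l)
    _ = M * (Fintype.card Λ * B) := by
        rw [sum_const, card_univ, smul_eq_mul]
        ring

private theorem shf_replicate (y a : ℕ) (ha : 2 ≤ a) :
    shf (Multiset.replicate y (a, 1)) = Multiset.replicate y (a - 1, 1) := by
  unfold shf
  rw [Multiset.map_replicate]
  refine Multiset.filter_eq_self.2 fun x hx => ?_
  rw [Multiset.eq_of_mem_replicate hx]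
  change 1 ≤ a - 1
  omega

private theorem shf_iter_replicate (y k : ℕ) :
    shf^[k] (Multiset.replicate y (k + 1, 1)) = Multiset.replicate y (1, 1) := by
  induction k with
  | zero => rfl
  | succ k ih =>
    rw [Function.iterate_succ_apply, shf_replicate y (k + 1 + 1) (by omega)]
    exact ih

private theorem shf_mono' {S T : Multiset (ℕ × ℕ)} (h : S ≤ T) : shf S ≤ shf T :=
  Multiset.filter_le_filter _ (Multiset.map_le_map h)

private theorem shf_iterate_mono' (k : ℕ) {S T : Multiset (ℕ × ℕ)} (h : S ≤ T) :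
    shf^[k] S ≤ shf^[k] T := by
  induction k generalizing S T with
  | zero => exact h
  | succ k ih =>
    rw [Function.iterate_succ_apply, Function.iterate_succ_apply]
    exact ih (shf_mono' h)

/-- One hyperplane `l` (not used before). -/
theorem phase_one (Y : SysN Λ n) {M t w : ℕ} {N : Λ → ℕ} (H : NumV Y M t w N) (a : Λ → ℕ)
    (ha : ∀ i, a i ≤ N i ∧ N i ≤ a i + M) (l : Λ) (hl : a l = N l) (c : Cfg Λ) (hc : c.OK M)
    (htr : ∀ l, c.tr n l ≤ nphiw n M w t) (hΦ : c.Φ l = 0) (hs : c.s < M * t)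
    (hsz : Y.R a ≤ c.sz n) :
    ∃ (a' : Λ → ℕ) (c' : Cfg Λ), (∀ i, i ≠ l → a' i = a i) ∧ a' l ≤ a l ∧ a l ≤ a' l + M ∧
      c'.OK M ∧ (Y.K a' c'.kinds → Y.K a c.kinds) ∧ (∀ i, i ≠ l → c'.Φ i = c.Φ i) ∧
      c'.tr n l ≤ nphiw n M w t ∧ Multiset.replicate (yU n M t) (1, 1) ≤ c'.Φ l ∧ c'.s = c.s ∧
      (c'.sz n : ℤ) + Y.R a = c.sz n + Y.R a' := by
  have hM := H.hM
  have hrega : RegU M N a := fun i => by
    have := ha i
    omega
  have hF := H.leF a l hrega
  have hFt := H.Fle a l hrega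
  have hNl := H.hN l
  have hroomF := nphiw_room hM H.ht H.hw hF
  have hyroom := yU_room_w hM H.hw hF
  have hbig := leR_room_w (n := n) hM H.ht H.hw (le_refl t)
  have hbigF := leR_room_w (n := n) hM H.ht H.hw hFt
  have hRa : ((4 * M * qU n M * t : ℕ) : ℤ) ≤ c.sz n := (H.leR a hrega).trans hsz
  have hRa' : 4 * M * qU n M * t ≤ c.sz n := by exact_mod_cast hRa
  have hszdef : c.sz n = (c.N.map (ell (n + 1))).sum + c.s + ∑ l', c.fl n l' := rfl
  have hφt := nphiw_le (n := n) hM H.ht H.hw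
  have hfl : ∑ l', c.fl n l' ≤ M * (qU n M * t) := by
    have := sum_fl_le hc fun l' => (htr l').trans hφt
    rwa [H.hq] at this
  -- the class
  obtain ⟨m, hm2, hmM, hrep⟩ := exists_class (n := n) (y := yU n M t) c.N hc.hN (by
    have h1 : M * (ell (n + 1) M * yU n M t) ≤
        M * (ell (n + 1) M * (yU n M t + g0w n M w)) :=
      Nat.mul_le_mul_left _ (Nat.mul_le_mul_left _ (Nat.le_add_right _ _))
    omega)
  have htrl : c.tr n l = 0 := by
    unfold Cfg.tr
    rw [hΦ]
    rfl
  have hym : ((Multiset.replicate (yU n M t) m).map (ell n)).sum ≤ yU n M t * ell n M := by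
    rw [Multiset.map_replicate, Multiset.sum_replicate, smul_eq_mul]
    exact Nat.mul_le_mul_left _ (ell_mono n hmM)
  have hnsz : c.nsz n = (c.N.map (ell (n + 1))).sum + c.s := rfl
  obtain ⟨c₁, hc₁, hK₁, hΦ₁, htr₁, hsz₁, hs₁, hN₁, -, hle₁, hss₁⟩ :=
    peelNw Y M w H.hn hM a l (by omega) (H.gd a l hrega) (Y.F l a) rfl c hc
      (Multiset.replicate (yU n M t) m) hrep (by omega) (by omega)
  have hcount := Y.count a l (by omega) (by omega)
  have htr₁' : ∀ l', c₁.tr n l' ≤ nphiw n M w t := by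
    intro l'
    by_cases hl' : l' = l
    · subst hl'
      refine le_trans ?_ (nphiw_mono M w hFt)
      unfold nphiw
      have h7 : c₁.tr n l' ≤
          ((M - 1) * Y.F l' a + M * ((ell n M + w) * ell n M)) / M := by
        rw [Nat.le_div_iff_mul_le (by omega), Nat.mul_comm]
        exact htr₁
      rw [Nat.add_mul_div_left _ _ (by omega)] at h7
      exact h7
    · have h8 : c₁.tr n l' = c.tr n l' := by
        unfold Cfg.tr
        rw [hΦ₁ l' hl']
      rw [h8]
      exact htr l'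
  set L : List Λ := List.replicate (m - 2) l with hL
  have hcL : ∀ i, L.count i ≤ m - 2 := fun i => by
    have h1 := L.count_le_length (a := i)
    rw [hL, List.length_replicate] at h1
    exact h1
  have hcl : L.count l = m - 2 := List.count_replicate_self
  have hcne : ∀ i, i ≠ l → L.count i = 0 := fun i hi => by
    rw [List.count_eq_zero]
    intro h
    exact hi (List.eq_of_mem_replicate h)
  have hreg₁ : ∀ i, dn l a i ≤ N i ∧ N i + L.count i ≤ dn l a i + (2 * M + 1) := by
    intro i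
    have h1 := ha i
    by_cases hi : i = l
    · subst hi
      rw [dn_self, hcl]
      omega
    · rw [dn_ne hi, hcne i hi]
      omega
  have hG := list_goodW Y H L (dn l a) (fun _ => nphiw n M w t) (fun _ => le_rfl) hreg₁
  obtain ⟨c₂, hc₂, hK₂, htr₂, hsz₂, hs₂, hN₂, -, hle₂, hΦ₂, hss₂⟩ :=
    runNw Y M w H.hn hM L (dn l a) (fun _ => nphiw n M w t) hG c₁ hc₁ htr₁' (by omega)
  have htr₂' : ∀ i, c₂.tr n i ≤ nphiw n M w t := fun i =>
    (htr₂ i).trans (eph_le Y H L (dn l a) _ (fun _ => le_rfl) hreg₁ i)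
  set a' : Λ → ℕ := ew L (dn l a) with ha'
  have ha'l : a' l = a l - 1 - (m - 2) := by
    change dn l a l - L.count l = _
    rw [dn_self, hcl]
  have ha'i : ∀ i, i ≠ l → a' i = a i := by
    intro i hi
    change dn l a i - L.count i = _
    rw [dn_ne hi, hcne i hi]
    rfl
  have hsz' : (c₂.sz n : ℤ) + Y.R a = c.sz n + Y.R a' := by omega
  have hcard : ¬ c₂.N.card < g0w n M w := by
    intro hlt
    have hreg' : RegU M N a' := by
      intro i
      have h1 := ha i
      by_cases hi : i = l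
      · subst hi
        rw [ha'l]
        omega
      · rw [ha'i i hi]
        omega
    have h1 : ((4 * M * qU n M * t : ℕ) : ℤ) ≤ c₂.sz n := (H.leR a' hreg').trans (by omega)
    have h1' : 4 * M * qU n M * t ≤ c₂.sz n := by exact_mod_cast h1
    have h2 : c₂.sz n = (c₂.N.map (ell (n + 1))).sum + c₂.s + ∑ l', c₂.fl n l' := rfl
    have h3 : ∑ l', c₂.fl n l' ≤ M * (qU n M * t) := by
      have := sum_fl_le hc₂ fun l' => (htr₂' l').trans hφt
      rwa [H.hq] at this
    have h4 := sum_ell_le (n := n + 1) hc₂.hN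
    have h5 : ell (n + 1) M * c₂.N.card ≤ ell (n + 1) M * (t + g0w n M w) :=
      Nat.mul_le_mul_left _ (by omega)
    have h6 : c₂.s < M * t := by omega
    omega
  refine ⟨a', c₂, ha'i, by omega, by omega, hc₂, fun h => hK₁ (hK₂ h), ?_, htr₂' l, ?_, ?_, hsz'⟩
  · intro i hi
    rw [hΦ₂ i (hcne i hi), hΦ₁ i hi]
  · refine le_trans ?_ (hle₂ l)
    rw [hcl]
    have h1 : Multiset.replicate (yU n M t) (m - 2 + 1, 1) ≤ c₁.Φ l := by
      refine le_trans ?_ hle₁
      rw [Multiset.map_replicate, show m - 2 + 1 = m - 1 by omega]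
      exact Multiset.le_add_left _ _
    rw [← shf_iter_replicate (yU n M t) (m - 2)]
    exact shf_iterate_mono' _ h1
  · rcases hs₂ with h | h
    · rcases hs₁ with h' | h'
      · exact h.trans h'
      · exact absurd (lt_of_le_of_lt hN₂ h') hcard
    · exact absurd h hcard

/-- All hyperplanes (induction on `P`). -/
theorem phase_all (Y : SysN Λ n) {M t w : ℕ} {N : Λ → ℕ} (H : NumV Y M t w N) (c : Cfg Λ)
    (hc : c.OK M) (hΦ : ∀ l, c.Φ l = 0) (hs : c.s < M * t) (hsz : Y.R N ≤ c.sz n)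
    (P : Finset Λ) :
    ∃ (a : Λ → ℕ) (c' : Cfg Λ), (∀ i, a i ≤ N i ∧ N i ≤ a i + M) ∧ (∀ i ∉ P, a i = N i) ∧
      c'.OK M ∧ (Y.K a c'.kinds → Y.K N c.kinds) ∧ (∀ i ∉ P, c'.Φ i = 0) ∧
      (∀ i, c'.tr n i ≤ nphiw n M w t) ∧
      (∀ i ∈ P, Multiset.replicate (yU n M t) (1, 1) ≤ c'.Φ i) ∧ c'.s = c.s ∧
      (c'.sz n : ℤ) + Y.R N = c.sz n + Y.R a := by
  induction P using Finset.induction_on with
  | empty =>
    refine ⟨N, c, fun i => ⟨le_rfl, Nat.le_add_right _ _⟩, fun _ _ => rfl, hc, fun h => h,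
      fun i _ => hΦ i, fun i => ?_, fun i hi => absurd hi (notMem_empty i), rfl, rfl⟩
    unfold Cfg.tr
    rw [hΦ i]
    exact Nat.zero_le _
  | insert l P hl ih =>
    obtain ⟨a, c₁, ha, haP, hc₁, hK₁, hΦ₁, htr₁, hy₁, hs₁, hsz₁⟩ := ih
    obtain ⟨a', c₂, ha'i, ha'l, ha'l', hc₂, hK₂, hΦ₂, htr₂, hy₂, hs₂, hsz₂⟩ :=
      phase_one Y H a ha l (haP l hl) c₁ hc₁ htr₁ (hΦ₁ l hl) (by omega) (by omega)
    refine ⟨a', c₂, ?_, ?_, hc₂, fun h => hK₁ (hK₂ h), ?_, ?_, ?_, hs₂.trans hs₁, by omega⟩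
    · intro i
      by_cases hi : i = l
      · subst hi
        have := haP i hl
        omega
      · rw [ha'i i hi]
        exact ha i
    · intro i hi
      rw [mem_insert, not_or] at hi
      rw [ha'i i hi.1]
      exact haP i hi.2
    · intro i hi
      rw [mem_insert, not_or] at hi
      rw [hΦ₂ i hi.1]
      exact hΦ₁ i hi.2
    · intro i
      by_cases hi : i = l
      · subst hi
        exact htr₂
      · have h8 : c₂.tr n i = c₁.tr n i := by
          unfold Cfg.tr
          rw [hΦ₂ i hi]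
        rw [h8]
        exact htr₁ i
    · intro i hi
      by_cases hil : i = l
      · subst hil
        exact hy₂
      · rw [hΦ₂ i hil]
        exact hy₁ i ((mem_insert.1 hi).resolve_left hil)

end Pool.Agent.H18.Ub

end
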