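import Pool.Agent.H94.LP1.M47
import Pool.Agent.H94.LP1.M49

/-! The parts of this file: H18.Ub.VMain, H18.Ub.VFinal_1, H18.Ub.VGen_1, H18.Ub.VDim_1. -/

section

/-!
# Module VMain (UB): exactness
-/

namespace Pool.Agent.H18.Ub

open Finset Pool.Agent.H18.Ex Pool.Agent.H18.Cub Pool.Agent.H18.Pr Pool.Agent.H18.Ua

variable {Λ : Type} [Fintype Λ] [DecidableEq Λ] {n : ℕ}

/-- Removing the points of multiplicity `0` and separating the simple points. -/
private theorem split_G (G : Multiset ℕ) {M : ℕ} (hG : ∀ m ∈ G, m ≤ M) :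
    ∃ (G₂ : Multiset ℕ) (s : ℕ), (∀ m ∈ G₂, 2 ≤ m ∧ m ≤ M) ∧
      G₂ + Multiset.replicate s 1 ≤ G ∧
      (G.map (ell (n + 1))).sum = (G₂.map (ell (n + 1))).sum + s := by
  induction G using Multiset.induction_on with
  | empty => exact ⟨0, 0, by simp, by simp, by simp⟩
  | cons m G ih =>
    obtain ⟨G₂, s, h1, h2, h3⟩ := ih fun m' hm' => hG m' (Multiset.mem_cons_of_mem hm')
    have hm := hG m (Multiset.mem_cons_self m G)
    rw [Multiset.map_cons, Multiset.sum_cons, h3]
    by_cases h : 2 ≤ m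
    · refine ⟨m ::ₘ G₂, s, ?_, ?_, ?_⟩
      · intro m' hm'
        rcases Multiset.mem_cons.1 hm' with rfl | hm'
        · exact ⟨h, hm⟩
        · exact h1 m' hm'
      · rw [Multiset.cons_add]
        exact Multiset.cons_le_cons m h2
      · rw [Multiset.map_cons, Multiset.sum_cons]
        ring
    · by_cases h' : m = 1
      · subst h'
        refine ⟨G₂, s + 1, h1, ?_, ?_⟩
        · rw [Multiset.replicate_succ, Multiset.add_cons]
          exact Multiset.cons_le_cons 1 h2
        · rw [ell_one]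
          ring
      · have h0 : m = 0 := by omega
        subst h0
        refine ⟨G₂, s, h1, h2.trans (Multiset.le_cons_self _ _), ?_⟩
        rw [ell_zero (by omega)]
        ring

/-- Exactness for a state with the numerical properties.  Remove the points of multiplicity `0`; let
`s` be the number of simple points.  If `M * t ≤ s` use `NumU.kill` with `S = 0` and simple points
(`FullN`).  Otherwise `phase_all`, `bridge_multi` and `branch`. -/
theorem numV_exact (Y : SysN Λ n) {M t w : ℕ} {N : Λ → ℕ} (H : NumV Y M t w N) (G : Multiset ℕ)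
    (hG : ∀ m ∈ G, m ≤ M) (hsum : Y.R N ≤ ((G.map (ell (n + 1))).sum : ℕ)) :
    Y.K N (G.map Kind.free) := by
  obtain ⟨G₂, s, h1, h2, h3⟩ := split_G (n := n) G hG
  have hreg : RegU M N N := fun i => ⟨le_rfl, by omega⟩
  rw [h3] at hsum
  have hkey : Y.K N (G₂.map Kind.free + Multiset.replicate s (Kind.free 1)) := by
    by_cases hs : M * t ≤ s
    · obtain ⟨hR1, hR2⟩ := H.full N hreg
      have hx : Y.R N ≤ ((Y.R N).toNat : ℕ) := Int.self_le_toNat _
      have h4 := H.kill N hreg 0 (Y.R N).toNat s G₂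
        (fun m hm => ⟨by have := (h1 m hm).1; omega, (h1 m hm).2⟩)
        (by rw [zero_add]; exact hR2 _ hx)
        (by omega) (Or.inl hs)
      rwa [zero_add] at h4
    · push Not at hs
      set c : Cfg Λ := ⟨G₂, s, fun _ => 0⟩ with hc
      have hcOK : c.OK M := ⟨h1, fun l x hx => absurd hx (Multiset.notMem_zero x)⟩
      have hsz0 : c.sz n = (G₂.map (ell (n + 1))).sum + s := by
        unfold Cfg.sz Cfg.nsz Cfg.fl
        simp [hc]
      have hsz : Y.R N ≤ c.sz n := by
        rw [hsz0]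
        exact hsum
      have hkinds : c.kinds = G₂.map Kind.free + Multiset.replicate s (Kind.free 1) := by
        unfold Cfg.kinds
        simp [hc]
      rw [← hkinds]
      obtain ⟨a, c', ha, -, hc', hK, -, htr, hy, -, hsz'⟩ :=
        phase_all Y H c hcOK (fun _ => rfl) hs hsz univ
      apply hK
      have hsa : Y.R a ≤ c'.sz n := by
        have := hsz
        linarith
      refine bridge_multi Y (yU n M t) univ a c' (fun l _ => ?_) (fun l hl => hy l hl)
        (fun T _ => branch Y H a ha c' hc' htr hsa (fun l => hy l (mem_univ l)) T)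
      have h5 := (ha l).2
      have h6 := H.hN l
      omega
  refine Y.mono _ _ _ ?_ hkey
  have h4 : G₂.map (Kind.free : ℕ → Kind Λ) + Multiset.replicate s (Kind.free 1) =
      (G₂ + Multiset.replicate s 1).map Kind.free := by
    rw [Multiset.map_add, Multiset.map_replicate]
  rw [h4]
  exact Multiset.map_le_map h2

private theorem exists_val (s : Finset ℂ) (q : ℕ) :
    ∃ v : Fin q → ℂ, Function.Injective v ∧ ∀ l, v l ∉ s := by
  have hinf : Infinite {z : ℂ // z ∉ s} := by
    have h1 : (((s : Set ℂ)ᶜ) : Set ℂ).Infinite := s.finite_toSet.infinite_compl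
    exact h1.to_subtype
  let f := Infinite.natEmbedding {z : ℂ // z ∉ s}
  exact ⟨fun l => (f l.val).1, fun a b hab => Fin.ext (f.injective (Subtype.ext hab)),
    fun l => (f l.val).2⟩

/-- General points of multiplicities at most `M` kill `W d` as soon as their lengths suffice, if the
dimensions of the hyperplane sections grow slowly. -/
theorem exactV {n : ℕ} {M : ℕ} (hM : 1 ≤ M) (A : Fam (n + 1)) (d : ℕ) (hd : CU (n + 1) M ≤ d)
    (hbig : TU (n + 1) M ≤ A.h d - A.h (d - 1))
    (hslow : (EV (n + 1) M - 1) * (A.h d - A.h (d - 1)) ≤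
      EV (n + 1) M * (A.h (d - CU (n + 1) M + 1) - A.h (d - CU (n + 1) M)))
    (G : Multiset ℕ) (hG : ∀ m ∈ G, m ≤ M)
    (hsum : A.h d ≤ (G.map (ell (n + 2))).sum) : Fk (A.W d) G := by
  obtain ⟨v, hv, hb⟩ := exists_val A.bad (qU (n + 1) M)
  have hell : 1 ≤ ell (n + 1) M := ell_pos (n + 1) hM
  have hq : 1 ≤ qU (n + 1) M := by
    unfold qU
    have h1 : 1 ≤ 4 * M * ell (n + 1) M := Nat.mul_pos (by omega) hell
    omega
  have hC : qU (n + 1) M * (2 * M + 2) ≤ d := by
    refine le_trans ?_ hd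
    unfold CU
    have h1 : 2 * M + 2 ≤ 11 * M := by omega
    calc qU (n + 1) M * (2 * M + 2) ≤ qU (n + 1) M * (11 * M) := Nat.mul_le_mul_left _ h1
      _ = 11 * M * qU (n + 1) M := by ring
  have hC1 : 1 ≤ CU (n + 1) M := by
    unfold CU
    have : 1 * 1 ≤ 11 * M * qU (n + 1) M := Nat.mul_le_mul (by omega) hq
    omega
  have hslow' : ∀ i < CU (n + 1) M, (EV (n + 1) M - 1) * (A.h d - A.h (d - 1)) ≤
      EV (n + 1) M * (A.h (d - i) - A.h (d - i - 1)) := by
    intro i hi
    refine hslow.trans (Nat.mul_le_mul_left _ ?_)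
    have h1 := VSys_diff_mono A (show d - CU (n + 1) M + 1 ≤ d - i by omega)
    rw [Nat.add_sub_cancel] at h1
    exact h1
  let i₀ : Fin (qU (n + 1) M) := ⟨0, hq⟩
  let N : Fin (qU (n + 1) M) → ℕ := fun l =>
    if l = i₀ then d - (qU (n + 1) M - 1) * (2 * M + 2) else 2 * M + 2
  have hC' : (qU (n + 1) M - 1) * (2 * M + 2) + (2 * M + 2) ≤ d := by
    refine le_trans (le_of_eq ?_) hC
    obtain ⟨k, hk⟩ := Nat.exists_eq_add_of_le' hq
    rw [hk, Nat.add_sub_cancel]
    ring
  have hN : ∑ l, N l = d := by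
    rw [← Finset.sum_erase_add univ N (mem_univ i₀)]
    have h1 : ∑ l ∈ univ.erase i₀, N l = (qU (n + 1) M - 1) * (2 * M + 2) := by
      rw [Finset.sum_congr rfl fun l hl => if_neg (Finset.ne_of_mem_erase hl),
        Finset.sum_const, Finset.card_erase_of_mem (mem_univ _), Finset.card_univ,
        Fintype.card_fin, smul_eq_mul]
    have h2 : N i₀ = d - (qU (n + 1) M - 1) * (2 * M + 2) := if_pos rfl
    rw [h1, h2]
    omega
  have hN' : ∀ l, 2 * M + 2 ≤ N l := by
    intro l
    by_cases h : l = i₀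
    · have h2 : N l = d - (qU (n + 1) M - 1) * (2 * M + 2) := if_pos h
      rw [h2]
      omega
    · have h2 : N l = 2 * M + 2 := if_neg h
      rw [h2]
  have H := sysV_num A M v hv hb hM d hd hbig hslow' N hN hN'
  have hT : 1 ≤ TU (n + 1) M := by
    unfold TU
    exact Nat.mul_pos (Nat.mul_pos (by omega) (by omega)) (pow_pos (by omega) 2)
  have h0 : A.h d ≠ 0 := by omega
  have hR : (sysU A v hv hb).R N = A.h d := by
    show (if A.h (∑ l, N l) = 0 then (1 : ℤ) else (A.h (∑ l, N l) : ℤ)) = A.h d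
    rw [hN, if_neg h0]
  have h1 := numV_exact (sysU A v hv hb) H G hG (by rw [hR]; exact_mod_cast hsum)
  have h2 : GMP (gU (n + 1) v) (A.W (∑ l, N l)) (G.map Kind.free) := h1
  rw [hN] at h2
  exact (Fk_iff (gU (n + 1) v) (A.W d) G).2 h2

end Pool.Agent.H18.Ub

end

section

/-!
# Module VFinal (UB): the theorem for general points
-/

namespace Pool.Agent.H18.Ub

open Finset Pool.Agent.H18.Ex Pool.Agent.H18.Cub Pool.Agent.H18.Pr Pool.Agent.H18.Ua Pool.Agent.H18.Fat

/-! ### Strict growth -/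

/-- Exactness if the dimensions of the hyperplane sections grow slowly. -/
theorem exactS {n : ℕ} {M : ℕ} (hM : 1 ≤ M) (A : Fam (n + 1)) (d E C : ℕ)
    (hE : EV (n + 1) M ≤ E) (hC : CU (n + 1) M ≤ C)
    (hslow : E * (A.h d - A.h (d - 1)) ≤
      E * (A.h (d - C) - A.h (d - C - 1)) + (A.h d - A.h (d - 1)))
    (G : Multiset ℕ) (hG : ∀ m ∈ G, m ≤ M)
    (hsum : A.h d ≤ (G.map (ell (n + 2))).sum) : Fk (A.W d) G := by
  have hell : 1 ≤ ell (n + 1) M := ell_pos (n + 1) hM
  have hEV : 16 ≤ EV (n + 1) M := by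
    unfold EV
    have h1 : 8 * 1 * 2 * 1 ≤ 8 * M * (M + 1) * ell (n + 1) M :=
      Nat.mul_le_mul (Nat.mul_le_mul (Nat.mul_le_mul_left _ hM) (by omega)) hell
    omega
  have hCU : 1 ≤ CU (n + 1) M := by
    unfold CU qU
    have h1 : 1 ≤ 4 * M * ell (n + 1) M := Nat.mul_pos (by omega) hell
    have h2 : 1 * 1 ≤ 11 * M * (2 * M ^ 2 * ell (n + 1 + 1) M + 4 * M * ell (n + 1) M) :=
      Nat.mul_le_mul (by omega) (by omega)
    omega
  by_cases h0 : A.h d - A.h (d - 1) = 0
  · have hle : A.h d ≤ 1 := by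
      rcases Nat.eq_zero_or_pos d with rfl | hd
      · exact A.h_zero_le
      · by_contra hcon
        have h1 : 1 ≤ A.h (d - 1) := by omega
        have h2 := fam_strict A (d - 1) h1
        rw [Nat.sub_add_cancel hd] at h2
        omega
    exact fk_of_le_one (A.W d) hle G hsum
  · -- `τ (d - C) ≥ 1`
    have h1 : 1 ≤ A.h (d - C) - A.h (d - C - 1) := by
      by_contra hcon
      have h2 : A.h (d - C) - A.h (d - C - 1) = 0 := by omega
      rw [h2, mul_zero, zero_add] at hslow
      have h3 : 2 * (A.h d - A.h (d - 1)) ≤ E * (A.h d - A.h (d - 1)) :=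
        Nat.mul_le_mul_right _ (by omega)
      omega
    have hdC : 1 ≤ d - C := by
      by_contra hcon
      have h2 : d - C = 0 := by omega
      rw [h2, Nat.zero_sub] at h1
      omega
    have h2 := tau_grow A (d - C) hdC (by omega) C
    have h3 : d - C + C = d := by omega
    rw [h3] at h2
    -- the section is large
    have h4 : E * C ≤ A.h d - A.h (d - 1) := by
      have h5 : E * (A.h (d - C) - A.h (d - C - 1) + C) ≤ E * (A.h d - A.h (d - 1)) :=
        Nat.mul_le_mul_left _ h2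
      rw [Nat.mul_add] at h5
      omega
    have h5 : TU (n + 1) M ≤ A.h d - A.h (d - 1) := by
      refine le_trans ?_ h4
      refine le_trans ?_ (Nat.mul_le_mul hE hC)
      unfold TU EV CU qU
      have h6 : ell (n + 1) M ≤ 11 * M * (2 * M ^ 2 * ell (n + 1 + 1) M + 4 * M * ell (n + 1) M) := by
        have h7 : 1 * (1 * ell (n + 1) M) ≤
            11 * M * (2 * M ^ 2 * ell (n + 1 + 1) M + 4 * M * ell (n + 1) M) :=
          Nat.mul_le_mul (by omega) (le_trans (Nat.mul_le_mul_right _ (by omega))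
            (Nat.le_add_left _ _))
        omega
      calc 8 * M * (M + 1) * ell (n + 1) M ^ 2 =
          8 * M * (M + 1) * ell (n + 1) M * ell (n + 1) M := by ring
        _ ≤ _ := Nat.mul_le_mul_left _ h6
    refine exactV hM A d (by omega) h5 ?_ G hG hsum
    -- slow growth
    have h6 := VSys_diff_mono A (show d - C ≤ d - CU (n + 1) M + 1 by omega)
    rw [Nat.add_sub_cancel] at h6
    have h7 := VSys_diff_mono A (show d - C ≤ d by omega)
    set t := A.h d - A.h (d - 1)
    set u := A.h (d - C) - A.h (d - C - 1)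
    set u' := A.h (d - CU (n + 1) M + 1) - A.h (d - CU (n + 1) M)
    obtain ⟨s, hs⟩ := Nat.exists_eq_add_of_le h7
    have h8 : E * s ≤ t := by
      have h9 : E * (u + s) ≤ E * u + t := by
        rw [← hs]
        exact hslow
      rw [Nat.mul_add] at h9
      omega
    have h9 : EV (n + 1) M * s ≤ t := (Nat.mul_le_mul_right _ hE).trans h8
    refine le_trans ?_ (Nat.mul_le_mul_left _ h6)
    obtain ⟨e, he⟩ : ∃ e, EV (n + 1) M = e + 1 := ⟨EV (n + 1) M - 1, by omega⟩
    rw [he] at h9 ⊢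
    rw [Nat.add_sub_cancel]
    have h10 : (e + 1) * (u + s) ≤ (e + 1) * u + t := by
      rw [Nat.mul_add]
      omega
    rw [← hs] at h10
    have h11 : (e + 1) * t = e * t + t := by ring
    omega

end Pool.Agent.H18.Ub

end

section

/-!
# Module VGen (UB): general points
-/

namespace Pool.Agent.H18.Ub

open Finset Pool.Agent.H18.Ex Pool.Agent.H18.Cub Pool.Agent.H18.Pr Pool.Agent.H18.Ua Pool.Agent.H18.Fat

/-- The general dimension is determined by the large part if the dimensions of its hyperplane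
sections grow slowly. -/
theorem general_dim (r : ℕ) (hr : 2 ≤ r) (M : ℕ) (hM : 1 ≤ M) (k d : ℕ) (m : Fin k → ℕ)
    (J : Finset (Fin k)) (hJ : ∀ i, i ∉ J → m i ≤ M) (h : ℕ → ℕ)
    (hh : ∀ j ≤ d, ForGeneralPoints r k fun p =>
      Module.finrank ℂ (fatForms r j p fun i => if i ∈ J then m i else 0) = h j)
    (E C : ℕ) (hE : 16 * M ^ 2 * (M + r - 1).choose r ≤ E)
    (hC : 66 * M ^ 3 * (M + r - 1).choose r ≤ C)
    (hslow : E * (h d - h (d - 1)) ≤ E * (h (d - C) - h (d - C - 1)) + (h d - h (d - 1))) :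
    ForGeneralPoints r k fun p => (Module.finrank ℂ (fatForms r d p m) : ℤ) =
      max 0 ((h d : ℤ) - ∑ i ∈ univ.filter (fun i => i ∉ J), ((m i + r - 1).choose r : ℤ)) := by
  classical
  obtain ⟨n, rfl⟩ : ∃ n, r = n + 2 := ⟨r - 2, by omega⟩
  have hgen := (general_all (range (d + 1)) fun j hj => hh j (by
    have := mem_range.1 hj
    omega)).and (general_ne_zero (n + 2) k)
  obtain ⟨p, hp, hp0⟩ := exists_of_general hgen
  set P : Fin k → Fin (n + 1 + 1) → ℂ := fun i j => p i j.succ / p i 0 with hP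
  set A := fatFam P fun i => if i ∈ J then m i else 0 with hA
  have hAh : ∀ j ≤ d, A.h j = h j := by
    intro j hj
    rw [hA, fatFam_h, ← hp j (mem_range.2 (by omega))]
    exact finrank_normalise p hp0 _
  obtain ⟨hc1, hc2⟩ := consts_le n hM
  have hex : ∀ G : Multiset ℕ, (∀ μ ∈ G, μ ≤ M) → A.h d ≤ (G.map (ell (n + 1 + 1))).sum →
      Fk (A.W d) G := by
    intro G hG hsum
    refine exactS hM A d E C (hc1.trans hE) (hc2.trans hC) ?_ G hG hsum
    rw [hAh d le_rfl, hAh _ (by omega), hAh _ (by omega), hAh _ (by omega)]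
    exact hslow
  set X : ℤ := (h d : ℤ) -
    ∑ i ∈ univ.filter (fun i => i ∉ J), ((m i + (n + 2) - 1).choose (n + 2) : ℤ) with hX
  obtain ⟨v, hv⟩ : ∃ v : ℕ, (v : ℤ) = max 0 X :=
    ⟨(max 0 X).toNat, Int.toNat_of_nonneg (le_max_left _ _)⟩
  obtain ⟨p₀, hp₀1, hp₀2⟩ := general_of_exactV P m J hM hJ d hex v (by
    rw [← hA, hAh d le_rfl, hv]
    have h1 := le_max_right 0 X
    rw [hX] at h1
    rw [hX]
    change (h d : ℤ) ≤ max 0 ((h d : ℤ) -
      ∑ i ∈ univ.filter (fun i => i ∉ J), ((m i + (n + 2) - 1).choose (n + 2) : ℤ)) +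
      ∑ i ∈ univ.filter (fun i => i ∉ J), ((m i + (n + 2) - 1).choose (n + 2) : ℤ)
    omega)
  refine (((general_finrank_le d p₀ m).and (hh d le_rfl)).and (general_ne_zero (n + 2) k)).mono
    fun q hq => ?_
  obtain ⟨⟨hq1, hq2⟩, hq3⟩ := hq
  have h6 := finrank_ge_add (d := d) (by omega : 1 ≤ n + 2) hq3 m J
  rw [hq2] at h6
  rw [← hv]
  have h7 : (v : ℤ) ≤ Module.finrank ℂ (fatForms (n + 2) d q m) := by
    rw [hv]
    exact max_le (Int.natCast_nonneg _) h6
  have h8 : Module.finrank ℂ (fatForms (n + 2) d q m) ≤ v := hq1.trans hp₀2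
  omega

end Pool.Agent.H18.Ub

end

section

/-!
# Module VDim (UB): the general dimension as a function
-/

namespace Pool.Agent.H18.Fat

end Pool.Agent.H18.Fat

namespace Pool.Agent.H18.Ub

open Finset Pool.Agent.H18.Ex Pool.Agent.H18.Cub Pool.Agent.H18.Pr Pool.Agent.H18.Ua Pool.Agent.H18.Fat

/-- The case of slow growth. -/
theorem dim_of_slow (r : ℕ) (hr : 2 ≤ r) (M : ℕ) (hM : 1 ≤ M) (k d : ℕ) (m : Fin k → ℕ)
    (J : Finset (Fin k)) (hJ : ∀ i, i ∉ J → m i ≤ M) (h : ℕ → ℕ)
    (hh : ∀ j, h j = generalDim r j fun i => if i ∈ J then m i else 0)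
    (hslow : 16 * M ^ 2 * (M + r - 1).choose r * ((h d - h (d - 1)) -
      (h (d - 66 * M ^ 3 * (M + r - 1).choose r) -
        h (d - 66 * M ^ 3 * (M + r - 1).choose r - 1))) ≤ h d - h (d - 1)) :
    ForGeneralPoints r k fun p => (Module.finrank ℂ (fatForms r d p m) : ℤ) =
      max 0 ((h d : ℤ) - ∑ i ∈ univ.filter (fun i => i ∉ J), ((m i + r - 1).choose r : ℤ)) := by
  refine general_dim r hr M hM k d m J hJ h (fun j _ => ?_) _ _ le_rfl le_rfl ?_
  · rw [hh j]
    exact generalDim_spec r j _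
  · rw [Nat.mul_sub, Nat.sub_le_iff_le_add'] at hslow
    exact hslow

end Pool.Agent.H18.Ub

end
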