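import Pool.Agent.H94.LP1.M11
import Pool.Agent.H94.LP1.M19
import Pool.Agent.H94.LP1.M42
import Pool.Agent.H94.LP1.M58
import Pool.Agent.H94.LP1.M59

/-! The parts of this file: H18.Ua.UPhase, H74.BP.Sg, H74.BP.Big. -/

section

/-!
# Module UPhase (UA): putting points on the hyperplanes
-/

namespace Pool.Agent.H18.Ua

open Finset Pool.Agent.H18.Ex Pool.Agent.H18.Cub Pool.Agent.H18.Pr

variable {Λ : Type} [Fintype Λ] [DecidableEq Λ] {n : ℕ}

theorem sum_ell_le {n M : ℕ} {G : Multiset ℕ} (hG : ∀ m ∈ G, 2 ≤ m ∧ m ≤ M) :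
    (G.map (ell n)).sum ≤ ell n M * G.card := by
  induction G using Multiset.induction_on with
  | empty => simp
  | cons m G ih =>
    have ih' := ih fun m' hm' => hG m' (Multiset.mem_cons_of_mem hm')
    have h7 := hG m (Multiset.mem_cons_self m G)
    rw [Multiset.card_cons, Multiset.map_cons, Multiset.sum_cons, Nat.mul_add, Nat.mul_one]
    have h9 := ell_mono n h7.2
    omega

/-- Some multiplicity occurs at least `y` times among many points. -/
theorem exists_class {M y : ℕ} (G : Multiset ℕ) (hG : ∀ m ∈ G, 2 ≤ m ∧ m ≤ M)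
    (h : M * (ell (n + 1) M * y) < (G.map (ell (n + 1))).sum) :
    ∃ m, 2 ≤ m ∧ m ≤ M ∧ Multiset.replicate y m ≤ G := by
  have h1 := sum_ell_le (n := n + 1) hG
  have h2 : ell (n + 1) M * (M * y) < ell (n + 1) M * G.card := by
    calc ell (n + 1) M * (M * y) = M * (ell (n + 1) M * y) := by ring
      _ < _ := by omega
  have h3 : M * y < G.card := lt_of_mul_lt_mul_left h2 (Nat.zero_le _)
  rcases Nat.eq_zero_or_pos y with rfl | hy
  · obtain ⟨m, hm⟩ := Multiset.card_pos_iff_exists_mem.1 (by omega : 0 < G.card)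
    exact ⟨m, (hG m hm).1, (hG m hm).2, by simp⟩
  · have hM : 1 ≤ M := by
      obtain ⟨m, hm⟩ := Multiset.card_pos_iff_exists_mem.1 (by omega : 0 < G.card)
      have := hG m hm
      omega
    obtain ⟨m, hm, hrep⟩ := exists_replicate_le G M y
      (fun m hm => ⟨by have := hG m hm; omega, (hG m hm).2⟩) (by omega) hM hy
    exact ⟨m, (hG m hm).1, (hG m hm).2, hrep⟩

theorem list_goodU (Y : SysN Λ n) {M t : ℕ} {N : Λ → ℕ} (H : NumU Y M t N)
    (L : List Λ) : ∀ (b φ : Λ → ℕ), (∀ i, φ i ≤ nphi n M t) →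
      (∀ i, b i ≤ N i ∧ N i + L.count i ≤ b i + (2 * M + 1)) → GoodN Y M L b φ := by
  induction L with
  | nil =>
    intro b φ _ _
    trivial
  | cons l L ih =>
    intro b φ hφ hb
    have hreg : RegU M N b := fun i => ⟨(hb i).1, by have := (hb i).2; omega⟩
    have hF := H.leF b l hreg
    have hFt := H.Fle b l hreg
    have hl := (hb l).2
    rw [List.count_cons_self] at hl
    have hNl := H.hN l
    have h1 : 1 ≤ b l := by omega
    refine ⟨h1, H.gd b l hreg, ?_, ?_, ?_⟩
    · exact (Nat.add_le_add_right (hφ l) _).trans (nphi_room H.hM H.ht hF)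
    · refine le_trans (Int.ofNat_le.2 ?_) (H.leR b hreg)
      have h2 : ∑ i, φ i ≤ qU n M * t := by
        calc ∑ i, φ i ≤ ∑ _i : Λ, t :=
              sum_le_sum fun i _ => (hφ i).trans (nphi_le H.hM H.ht)
          _ = qU n M * t := by rw [sum_const, card_univ, H.hq, smul_eq_mul]
      have h3 := leR_room (n := n) H.hM H.ht hFt
      have h4 := Nat.mul_le_mul_left M h2
      omega
    · refine ih _ _ ?_ ?_
      · intro i
        by_cases hi : i = l
        · subst hi
          rw [Function.update_self]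
          exact nphi_mono M hFt
        · rw [Function.update_of_ne hi]
          exact hφ i
      · intro i
        have h2 := hb i
        by_cases hi : i = l
        · subst hi
          rw [dn_self]
          omega
        · rw [dn_ne hi]
          rw [List.count_cons_of_ne (fun h => hi h.symm)] at h2
          exact h2

/-- The bounds for the traces along a list of directions. -/
theorem eph_le (Y : SysN Λ n) {M t : ℕ} {N : Λ → ℕ} (H : NumU Y M t N)
    (L : List Λ) : ∀ (b φ : Λ → ℕ), (∀ i, φ i ≤ nphi n M t) →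
      (∀ i, b i ≤ N i ∧ N i + L.count i ≤ b i + (2 * M + 1)) →
      ∀ i, ephN Y M L b φ i ≤ nphi n M t := by
  induction L with
  | nil =>
    intro b φ hφ _
    exact hφ
  | cons l L ih =>
    intro b φ hφ hb
    have hreg : RegU M N b := fun i => ⟨(hb i).1, by have := (hb i).2; omega⟩
    have hFt := H.Fle b l hreg
    refine ih _ _ ?_ ?_
    · intro i
      by_cases hi : i = l
      · subst hi
        rw [Function.update_self]
        exact nphi_mono M hFt
      · rw [Function.update_of_ne hi]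
        exact hφ i
    · intro i
      have h2 := hb i
      by_cases hi : i = l
      · subst hi
        rw [List.count_cons_self] at h2
        rw [dn_self]
        omega
      · rw [dn_ne hi]
        rw [List.count_cons_of_ne (fun h => hi h.symm)] at h2
        exact h2

/-- The forced conditions are few. -/
theorem sum_fl_le {M B : ℕ} {c : Cfg Λ} (hc : c.OK M) (h : ∀ l, c.tr n l ≤ B) :
    ∑ l, c.fl n l ≤ M * (Fintype.card Λ * B) := by
  calc ∑ l, c.fl n l ≤ ∑ _l : Λ, M * B := by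
        refine sum_le_sum fun l _ => (Cfg.fl_le n M c hc l).trans ?_
        exact Nat.mul_le_mul_left _ (h l)
    _ = M * (Fintype.card Λ * B) := by
        rw [sum_const, card_univ, smul_eq_mul]
        ring

private theorem shf_replicate (y a : ℕ) (ha : 2 ≤ a) :
    shf (Multiset.replicate y (a, 1)) = Multiset.replicate y (a - 1, 1) := by
  unfold shf
  rw [Multiset.map_replicate]
  refine Multiset.filter_eq_self.2 fun x hx => ?_
  rw [Multiset.eq_of_mem_replicate hx]
  change 1 ≤ a - 1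
  omega

private theorem shf_iter_replicate (y k : ℕ) :
    shf^[k] (Multiset.replicate y (k + 1, 1)) = Multiset.replicate y (1, 1) := by
  induction k with
  | zero => rfl
  | succ k ih =>
    rw [Function.iterate_succ_apply, shf_replicate y (k + 1 + 1) (by omega)]
    exact ih

private theorem shf_mono' {S T : Multiset (ℕ × ℕ)} (h : S ≤ T) : shf S ≤ shf T :=
  Multiset.filter_le_filter _ (Multiset.map_le_map h)

private theorem shf_iterate_mono' (k : ℕ) {S T : Multiset (ℕ × ℕ)} (h : S ≤ T) :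
    shf^[k] S ≤ shf^[k] T := by
  induction k generalizing S T with
  | zero => exact h
  | succ k ih =>
    rw [Function.iterate_succ_apply, Function.iterate_succ_apply]
    exact ih (shf_mono' h)

/-- One hyperplane `l` (not used before). -/
theorem phase_one (Y : SysN Λ n) {M t : ℕ} {N : Λ → ℕ} (H : NumU Y M t N) (a : Λ → ℕ)
    (ha : ∀ i, a i ≤ N i ∧ N i ≤ a i + M) (l : Λ) (hl : a l = N l) (c : Cfg Λ) (hc : c.OK M)
    (htr : ∀ l, c.tr n l ≤ nphi n M t) (hΦ : c.Φ l = 0) (hs : c.s < M * t)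
    (hsz : Y.R a ≤ c.sz n) :
    ∃ (a' : Λ → ℕ) (c' : Cfg Λ), (∀ i, i ≠ l → a' i = a i) ∧ a' l ≤ a l ∧ a l ≤ a' l + M ∧
      c'.OK M ∧ (Y.K a' c'.kinds → Y.K a c.kinds) ∧ (∀ i, i ≠ l → c'.Φ i = c.Φ i) ∧
      c'.tr n l ≤ nphi n M t ∧ Multiset.replicate (yU n M t) (1, 1) ≤ c'.Φ l ∧ c'.s = c.s ∧
      (c'.sz n : ℤ) + Y.R a = c.sz n + Y.R a' := by
  have hM := H.hM
  have hrega : RegU M N a := fun i => by
    have := ha i
    omega
  have hF := H.leF a l hrega
  have hFt := H.Fle a l hrega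
  have hNl := H.hN l
  have hroomF := nphi_room hM H.ht hF
  have hg0 : 1 ≤ g0 n M * ell n M := by
    unfold g0
    exact Nat.mul_pos (Nat.mul_pos (by omega) (ell_pos n hM)) (ell_pos n hM)
  have hyroom := yU_room hM H.ht hF
  have hbig := leR_room (n := n) hM H.ht (le_refl t)
  have hbigF := leR_room (n := n) hM H.ht hFt
  have hRa : ((4 * M * qU n M * t : ℕ) : ℤ) ≤ c.sz n := (H.leR a hrega).trans hsz
  have hRa' : 4 * M * qU n M * t ≤ c.sz n := by exact_mod_cast hRa
  have hszdef : c.sz n = (c.N.map (ell (n + 1))).sum + c.s + ∑ l', c.fl n l' := rfl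
  have hφt := nphi_le (n := n) hM H.ht
  have hfl : ∑ l', c.fl n l' ≤ M * (qU n M * t) := by
    have := sum_fl_le hc fun l' => (htr l').trans hφt
    rwa [H.hq] at this
  -- the class
  obtain ⟨m, hm2, hmM, hrep⟩ := exists_class (n := n) (y := yU n M t) c.N hc.hN (by
    have h1 : M * (ell (n + 1) M * yU n M t) ≤
        M * (ell (n + 1) M * (yU n M t + g0 n M)) :=
      Nat.mul_le_mul_left _ (Nat.mul_le_mul_left _ (Nat.le_add_right _ _))
    omega)
  have htrl : c.tr n l = 0 := by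
    unfold Cfg.tr
    rw [hΦ]
    rfl
  have hym : ((Multiset.replicate (yU n M t) m).map (ell n)).sum ≤ yU n M t * ell n M := by
    rw [Multiset.map_replicate, Multiset.sum_replicate, smul_eq_mul]
    exact Nat.mul_le_mul_left _ (ell_mono n hmM)
  have hnsz : c.nsz n = (c.N.map (ell (n + 1))).sum + c.s := rfl
  obtain ⟨c₁, hc₁, hK₁, hΦ₁, htr₁, hsz₁, hs₁, hN₁, -, -, hle₁, hss₁⟩ :=
    peelNs Y M H.hn hM a l (by omega) (H.gd a l hrega) (Y.F l a) rfl c hc
      (Multiset.replicate (yU n M t) m) hrep (by omega) (by omega)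
  have hcount := Y.count a l (by omega) (by omega)
  have htr₁' : ∀ l', c₁.tr n l' ≤ nphi n M t := by
    intro l'
    by_cases hl' : l' = l
    · subst hl'
      refine le_trans ?_ (nphi_mono M hFt)
      unfold nphi
      have h7 : c₁.tr n l' ≤ ((M - 1) * Y.F l' a + M * ell n M ^ 2) / M := by
        rw [Nat.le_div_iff_mul_le (by omega), Nat.mul_comm]
        exact htr₁
      rw [Nat.add_mul_div_left _ _ (by omega)] at h7
      exact h7
    · have h8 : c₁.tr n l' = c.tr n l' := by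
        unfold Cfg.tr
        rw [hΦ₁ l' hl']
      rw [h8]
      exact htr l'
  set L : List Λ := List.replicate (m - 2) l with hL
  have hcL : ∀ i, L.count i ≤ m - 2 := fun i => by
    have h1 := L.count_le_length (a := i)
    rw [hL, List.length_replicate] at h1
    exact h1
  have hcl : L.count l = m - 2 := List.count_replicate_self
  have hcne : ∀ i, i ≠ l → L.count i = 0 := fun i hi => by
    rw [List.count_eq_zero]
    intro h
    exact hi (List.eq_of_mem_replicate h)
  have hreg₁ : ∀ i, dn l a i ≤ N i ∧ N i + L.count i ≤ dn l a i + (2 * M + 1) := by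
    intro i
    have h1 := ha i
    by_cases hi : i = l
    · subst hi
      rw [dn_self, hcl]
      omega
    · rw [dn_ne hi, hcne i hi]
      omega
  have hG := list_goodU Y H L (dn l a) (fun _ => nphi n M t) (fun _ => le_rfl) hreg₁
  obtain ⟨c₂, hc₂, hK₂, htr₂, hsz₂, hs₂, hN₂, -, -, hle₂, hΦ₂, hss₂⟩ :=
    runNs Y M H.hn hM L (dn l a) (fun _ => nphi n M t) hG c₁ hc₁ htr₁' (by omega)
  have htr₂' : ∀ i, c₂.tr n i ≤ nphi n M t := fun i =>
    (htr₂ i).trans (eph_le Y H L (dn l a) _ (fun _ => le_rfl) hreg₁ i)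
  set a' : Λ → ℕ := ew L (dn l a) with ha'
  have ha'l : a' l = a l - 1 - (m - 2) := by
    change dn l a l - L.count l = _
    rw [dn_self, hcl]
  have ha'i : ∀ i, i ≠ l → a' i = a i := by
    intro i hi
    change dn l a i - L.count i = _
    rw [dn_ne hi, hcne i hi]
    rfl
  have hsz' : (c₂.sz n : ℤ) + Y.R a = c.sz n + Y.R a' := by omega
  have hcard : ¬ c₂.N.card < g0 n M := by
    intro hlt
    have hreg' : RegU M N a' := by
      intro i
      have h1 := ha i
      by_cases hi : i = l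
      · subst hi
        rw [ha'l]
        omega
      · rw [ha'i i hi]
        omega
    have h1 : ((4 * M * qU n M * t : ℕ) : ℤ) ≤ c₂.sz n := (H.leR a' hreg').trans (by omega)
    have h1' : 4 * M * qU n M * t ≤ c₂.sz n := by exact_mod_cast h1
    have h2 : c₂.sz n = (c₂.N.map (ell (n + 1))).sum + c₂.s + ∑ l', c₂.fl n l' := rfl
    have h3 : ∑ l', c₂.fl n l' ≤ M * (qU n M * t) := by
      have := sum_fl_le hc₂ fun l' => (htr₂' l').trans hφt
      rwa [H.hq] at this
    have h4 := sum_ell_le (n := n + 1) hc₂.hN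
    have h5 : ell (n + 1) M * c₂.N.card ≤ ell (n + 1) M * (t + g0 n M) :=
      Nat.mul_le_mul_left _ (by omega)
    have h6 : c₂.s < M * t := by omega
    omega
  refine ⟨a', c₂, ha'i, by omega, by omega, hc₂, fun h => hK₁ (hK₂ h), ?_, htr₂' l, ?_, ?_, hsz'⟩
  · intro i hi
    rw [hΦ₂ i (hcne i hi), hΦ₁ i hi]
  · refine le_trans ?_ (hle₂ l)
    rw [hcl]
    have h1 : Multiset.replicate (yU n M t) (m - 2 + 1, 1) ≤ c₁.Φ l := by
      refine le_trans ?_ hle₁
      rw [Multiset.map_replicate, show m - 2 + 1 = m - 1 by omega]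
      exact Multiset.le_add_left _ _
    rw [← shf_iter_replicate (yU n M t) (m - 2)]
    exact shf_iterate_mono' _ h1
  · rcases hs₂ with h | h
    · rcases hs₁ with h' | h'
      · exact h.trans h'
      · exact absurd (lt_of_le_of_lt hN₂ h') hcard
    · exact absurd h hcard

/-- All hyperplanes (induction on `P`). -/
theorem phase_all (Y : SysN Λ n) {M t : ℕ} {N : Λ → ℕ} (H : NumU Y M t N) (c : Cfg Λ)
    (hc : c.OK M) (hΦ : ∀ l, c.Φ l = 0) (hs : c.s < M * t) (hsz : Y.R N ≤ c.sz n)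
    (P : Finset Λ) :
    ∃ (a : Λ → ℕ) (c' : Cfg Λ), (∀ i, a i ≤ N i ∧ N i ≤ a i + M) ∧ (∀ i ∉ P, a i = N i) ∧
      c'.OK M ∧ (Y.K a c'.kinds → Y.K N c.kinds) ∧ (∀ i ∉ P, c'.Φ i = 0) ∧
      (∀ i, c'.tr n i ≤ nphi n M t) ∧
      (∀ i ∈ P, Multiset.replicate (yU n M t) (1, 1) ≤ c'.Φ i) ∧ c'.s = c.s ∧
      (c'.sz n : ℤ) + Y.R N = c.sz n + Y.R a := by
  induction P using Finset.induction_on with
  | empty =>
    refine ⟨N, c, fun i => ⟨le_rfl, Nat.le_add_right _ _⟩, fun _ _ => rfl, hc, fun h => h,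
      fun i _ => hΦ i, fun i => ?_, fun i hi => absurd hi (notMem_empty i), rfl, rfl⟩
    unfold Cfg.tr
    rw [hΦ i]
    exact Nat.zero_le _
  | insert l P hl ih =>
    obtain ⟨a, c₁, ha, haP, hc₁, hK₁, hΦ₁, htr₁, hy₁, hs₁, hsz₁⟩ := ih
    obtain ⟨a', c₂, ha'i, ha'l, ha'l', hc₂, hK₂, hΦ₂, htr₂, hy₂, hs₂, hsz₂⟩ :=
      phase_one Y H a ha l (haP l hl) c₁ hc₁ htr₁ (hΦ₁ l hl) (by omega) (by omega)
    refine ⟨a', c₂, ?_, ?_, hc₂, fun h => hK₁ (hK₂ h), ?_, ?_, ?_, hs₂.trans hs₁, by omega⟩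
    · intro i
      by_cases hi : i = l
      · subst hi
        have := haP i hl
        omega
      · rw [ha'i i hi]
        exact ha i
    · intro i hi
      rw [mem_insert, not_or] at hi
      rw [ha'i i hi.1]
      exact haP i hi.2
    · intro i hi
      rw [mem_insert, not_or] at hi
      rw [hΦ₂ i hi.1]
      exact hΦ₁ i hi.2
    · intro i
      by_cases hi : i = l
      · subst hi
        exact htr₂
      · have h8 : c₂.tr n i = c₁.tr n i := by
          unfold Cfg.tr
          rw [hΦ₂ i hi]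
        rw [h8]
        exact htr₁ i
    · intro i hi
      by_cases hil : i = l
      · subst hil
        exact hy₂
      · rw [hΦ₂ i hil]
        exact hy₁ i ((mem_insert.1 hi).resolve_left hil)

end Pool.Agent.H18.Ua

end

section

/-!
# The semigroup of multiplicities and leading exponents
-/

namespace Pool.Agent.H74.BP

open MvPolynomial Pool.Agent.H18.Fat Pool.Agent.H22.LU Pool.Agent.H74.CT

/-- Restriction to the hyperplane `x_0 = 0`. -/
noncomputable def res (s : ℕ) : MvPolynomial (Fin (s + 1)) ℂ →ₐ[ℂ] MvPolynomial (Fin s) ℂ :=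
  aeval (Fin.cons 0 X : Fin (s + 1) → MvPolynomial (Fin s) ℂ)

theorem res_monomial (s : ℕ) (α : Fin (s + 1) →₀ ℕ) (c : ℂ) :
    res s (monomial α c) = if α 0 = 0 then monomial (Finsupp.tail α) c else 0 := by
  unfold res
  rw [aeval_monomial, Finsupp.prod_fintype _ _ fun _ => pow_zero _, Fin.prod_univ_succ,
    Fin.cons_zero]
  by_cases h : α 0 = 0
  · rw [if_pos h, h, pow_zero, one_mul, monomial_eq, algebraMap_eq,
      Finsupp.prod_fintype _ _ fun _ => pow_zero _]
    congr 1
  · rw [if_neg h, zero_pow h, zero_mul, mul_zero]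

theorem coeff_res (s : ℕ) (F : MvPolynomial (Fin (s + 1)) ℂ) (β : Fin s →₀ ℕ) :
    coeff β (res s F) = coeff (Finsupp.cons 0 β) F := by
  classical
  induction F using MvPolynomial.induction_on' with
  | monomial α c =>
    rw [res_monomial, coeff_monomial]
    by_cases h : α 0 = 0
    · rw [if_pos h, coeff_monomial]
      by_cases h1 : Finsupp.tail α = β
      · rw [if_pos h1, if_pos]
        rw [← h1, ← h, Finsupp.cons_tail]
      · rw [if_neg h1, if_neg]
        intro h2
        apply h1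
        rw [h2, Finsupp.tail_cons]
    · rw [if_neg h, coeff_zero, if_neg]
      intro h2
      apply h
      rw [h2, Finsupp.cons_zero]
  | add p q hp hq => rw [map_add, coeff_add, coeff_add, hp, hq]

theorem dvd_of_res (s : ℕ) {F : MvPolynomial (Fin (s + 1)) ℂ} (h : res s F = 0) : X 0 ∣ F := by
  rw [X_dvd_iff_modMonomial_eq_zero]
  ext α
  rw [coeff_zero]
  by_cases hα : Finsupp.single 0 1 ≤ α
  · exact coeff_modMonomial_of_le _ hα
  · rw [coeff_modMonomial_of_not_le _ hα]
    have h0 : α 0 = 0 := by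
      by_contra hc
      apply hα
      rw [Finsupp.single_le_iff]
      omega
    have h1 := coeff_res s F (Finsupp.tail α)
    rw [h, coeff_zero, ← h0, Finsupp.cons_tail] at h1
    exact h1.symm

theorem res_X_zero (s : ℕ) : res s (X 0) = 0 := by
  unfold res
  rw [aeval_X, Fin.cons_zero]

theorem res_X_succ (s : ℕ) (i : Fin s) : res s (X i.succ) = X i := by
  unfold res
  rw [aeval_X, Fin.cons_succ]

theorem res_hom (s d : ℕ) {F : MvPolynomial (Fin (s + 1)) ℂ} (hF : F.IsHomogeneous d) :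
    (res s F).IsHomogeneous d := by
  intro β hβ
  rw [coeff_res] at hβ
  have h1 := hF hβ
  rw [Finsupp.weight_apply, Finsupp.sum_fintype _ _ (fun _ => by simp)] at h1 ⊢
  rw [Fin.sum_univ_succ] at h1
  simpa using h1

theorem finrank_res (s : ℕ) (V V' : Submodule ℂ (MvPolynomial (Fin (s + 1)) ℂ))
    [FiniteDimensional ℂ V] (h1 : ∀ F ∈ V', X 0 * F ∈ V) (h2 : ∀ F, X 0 * F ∈ V → F ∈ V') :
    Module.finrank ℂ (Submodule.map (res s).toLinearMap V) + Module.finrank ℂ V' =
      Module.finrank ℂ V := by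
  let μ : MvPolynomial (Fin (s + 1)) ℂ →ₗ[ℂ] MvPolynomial (Fin (s + 1)) ℂ :=
    LinearMap.mulLeft ℂ (X 0)
  have hμ : Function.Injective μ := fun a b hab => mul_left_cancel₀ (X_ne_zero 0) hab
  have hle : Submodule.map μ V' ≤ V := by
    rintro F ⟨R, hR, rfl⟩
    exact h1 R hR
  have e1 : Module.finrank ℂ (Submodule.map μ V') = Module.finrank ℂ V' :=
    (Submodule.equivMapOfInjective μ hμ V').finrank_eq.symm
  have e2 : LinearMap.ker ((res s).toLinearMap.domRestrict V) =
      Submodule.comap V.subtype (Submodule.map μ V') := by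
    ext F
    rw [LinearMap.mem_ker, Submodule.mem_comap]
    constructor
    · intro h
      obtain ⟨R, hR⟩ := dvd_of_res s (F := F.1) h
      refine ⟨R, h2 R ?_, hR.symm⟩
      rw [← hR]
      exact F.2
    · rintro ⟨R, -, hR⟩
      change res s F.1 = 0
      have h3 : X 0 * R = F.1 := hR
      rw [← h3, map_mul, res_X_zero, zero_mul]
  have e3 := LinearMap.finrank_range_add_finrank_ker ((res s).toLinearMap.domRestrict V)
  rw [LinearMap.range_domRestrict, e2, (Submodule.comapSubtypeEquivOfLe hle).finrank_eq, e1] at e3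
  exact e3

/-- The semigroup. -/
def GS {s a : ℕ} (p : Fin a → Fin (s + 1 + 1) → ℂ) (m : Fin a → ℤ) (α : Fin (s + 1) → ℕ) : Prop :=
  ∃ F ∈ fatForms (s + 1) (∑ i, α i) p (fun l => (m l).toNat), res (s + 1) F ≠ 0 ∧
    ∀ i, (MonomialOrder.lex (σ := Fin (s + 1))).degree (res (s + 1) F) i = α i

variable {s a : ℕ} {p : Fin a → Fin (s + 1 + 1) → ℂ}

theorem sem_GS (hp : ∀ l, p l 0 ≠ 0) : Sem a s (GS p) where
  add := by
    rintro m α m' α' ⟨F, hF, hF0, hFα⟩ ⟨G, hG, hG0, hGα⟩
    refine ⟨F * G, ⟨?_, fun l => ?_⟩, ?_, fun i => ?_⟩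
    · have h1 := hF.1.mul hG.1
      rw [← Finset.sum_add_distrib] at h1
      exact h1
    · refine van_mono (van_mul (hF.2 l) (hG.2 l)) ?_
      change ((m + m') l).toNat ≤ (m l).toNat + (m' l).toNat
      rw [Pi.add_apply]
      omega
    · rw [map_mul]
      exact mul_ne_zero hF0 hG0
    · rw [map_mul, MonomialOrder.degree_mul hF0 hG0, Finsupp.add_apply, hFα, hGα]
      rfl
  mono := by
    rintro m m' α ⟨F, hF, hF0, hFα⟩ hle
    refine ⟨F, ⟨hF.1, fun l => van_mono (hF.2 l) ?_⟩, hF0, hFα⟩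
    have h9 : m' l ≤ m l := hle l
    exact Int.toNat_le_toNat h9
  zero := by
    refine ⟨1, ⟨?_, fun l => ?_⟩, ?_, fun i => ?_⟩
    · have : ∑ i : Fin (s + 1), (0 : Fin (s + 1) → ℕ) i = 0 := by simp
      rw [this]
      exact isHomogeneous_one _ _
    · exact vanishes_zero _ _
    · rw [map_one]
      exact one_ne_zero
    · rw [map_one, MonomialOrder.degree_one]
      rfl
  unit := by
    intro i
    refine ⟨X i.succ, ⟨?_, fun l => ?_⟩, ?_, fun j => ?_⟩
    · rw [Finset.sum_pi_single' i 1 Finset.univ, if_pos (Finset.mem_univ i)]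
      exact isHomogeneous_X ℂ i.succ
    · exact vanishes_zero _ _
    · rw [res_X_succ]
      exact X_ne_zero i
    · rw [res_X_succ, MonomialOrder.degree_X, Finsupp.single_eq_pi_single]
  lin := by
    intro l
    have h1 : res (s + 1) (C (p l 0) * X 1 - C (p l 1) * X 0) = C (p l 0) * X 0 := by
      rw [map_sub, map_mul, map_mul, res_X_zero, mul_zero, sub_zero]
      have h2 : (1 : Fin (s + 1 + 1)) = (0 : Fin (s + 1)).succ := rfl
      rw [h2, res_X_succ]
      congr 1
      unfold res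
      rw [aeval_C]
      rfl
    have hC : (C (p l 0) : MvPolynomial (Fin (s + 1)) ℂ) ≠ 0 := by
      rw [Ne, C_eq_zero]
      exact hp l
    refine ⟨C (p l 0) * X 1 - C (p l 1) * X 0, ⟨?_, fun l' => ?_⟩, ?_, fun j => ?_⟩
    · rw [Finset.sum_pi_single' 0 1 Finset.univ, if_pos (Finset.mem_univ 0)]
      refine IsHomogeneous.sub ?_ ?_
      · simpa using (isHomogeneous_C _ (p l 0)).mul (isHomogeneous_X ℂ (1 : Fin (s + 1 + 1)))
      · simpa using (isHomogeneous_C _ (p l 1)).mul (isHomogeneous_X ℂ (0 : Fin (s + 1 + 1)))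
    · by_cases h2 : l' = l
      · subst h2
        change VanishesToOrder _ _ ((Pi.single l' (1 : ℤ) : Fin a → ℤ) l').toNat
        rw [Pi.single_eq_same]
        change VanishesToOrder _ _ 1
        rw [vanishes_one_iff]
        simp only [map_sub, map_mul, eval_C, eval_X]
        ring
      · change VanishesToOrder _ _ ((Pi.single l (1 : ℤ) : Fin a → ℤ) l').toNat
        rw [Pi.single_eq_of_ne h2]
        exact vanishes_zero _ _
    · rw [h1]
      exact mul_ne_zero hC (X_ne_zero 0)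
    · rw [h1, MonomialOrder.degree_mul hC (X_ne_zero 0), MonomialOrder.degree_C,
        MonomialOrder.degree_X, zero_add, Finsupp.single_eq_pi_single]

theorem GS_le (m : Fin a → ℤ) (α : Fin (s + 1) → ℕ) (h : GS p m α) (l : Fin a) :
    m l ≤ ((∑ i, α i : ℕ) : ℤ) := by
  obtain ⟨F, hF, hF0, -⟩ := h
  by_contra hc
  push Not at hc
  apply hF0
  have h1 : F = 0 := by
    refine Pool.Agent.H18.Nef.eq_zero_of_vanishes (m := (m l).toNat) F hF.1 (p l) ?_ (hF.2 l)
    omega
  rw [h1, map_zero]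

/-- The number of the exponents. -/
theorem ncard_GS (hp : ∀ l, p l 0 ≠ 0) (m : Fin a → ℕ) (d : ℕ) :
    {α : Fin (s + 1) → ℕ | ∑ i, α i = d + 1 ∧ GS p (fun l => (m l : ℤ)) α}.ncard +
      Module.finrank ℂ (fatForms (s + 1) d p m) =
      Module.finrank ℂ (fatForms (s + 1) (d + 1) p m) := by
  have i1 := fin_fatForms (s + 1) (d + 1) p m
  set V := fatForms (s + 1) (d + 1) p m with hV
  set W := Submodule.map (res (s + 1)).toLinearMap V with hW
  have i2 : FiniteDimensional ℂ W := by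
    rw [hW]
    infer_instance
  obtain ⟨-, h2⟩ := ncard_LM W
  have hset : {α : Fin (s + 1) → ℕ | ∑ i, α i = d + 1 ∧ GS p (fun l => (m l : ℤ)) α} =
      (fun α : Fin (s + 1) →₀ ℕ => (α : Fin (s + 1) → ℕ)) '' LM W := by
    ext α
    constructor
    · rintro ⟨h3, F, hF, hF0, hFα⟩
      rw [h3] at hF
      refine ⟨(MonomialOrder.lex (σ := Fin (s + 1))).degree (res (s + 1) F),
        ⟨res (s + 1) F, ⟨F, ⟨hF.1, fun l => hF.2 l⟩, rfl⟩, hF0, rfl⟩, ?_⟩
      funext i
      exact hFα i
    · rintro ⟨β, ⟨G, ⟨F, hF, hFG⟩, hG0, hGβ⟩, rfl⟩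
      have hFG' : res (s + 1) F = G := hFG
      subst hFG'
      have h3 : ∑ i, β i = d + 1 := by
        have h4 := res_hom (s + 1) (d + 1) hF.1
          ((MonomialOrder.lex (σ := Fin (s + 1))).coeff_degree_ne_zero_iff.2 hG0)
        rw [hGβ, Finsupp.weight_apply, Finsupp.sum_fintype _ _ (fun _ => by simp)] at h4
        simpa using h4
      refine ⟨h3, F, ?_, hG0, fun i => by rw [hGβ]⟩
      rw [h3]
      exact ⟨hF.1, fun l => hF.2 l⟩
  rw [hset, Set.ncard_image_of_injective _ DFunLike.coe_injective, h2]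
  refine finrank_res (s + 1) V _ (fun F hF => ⟨?_, fun l => ?_⟩) fun F hF =>
    ⟨hom_div hF.1, fun l => van_div (by rw [eval_X]; exact hp l) (hF.2 l)⟩
  · rw [Nat.add_comm d 1]
    exact (isHomogeneous_X ℂ 0).mul hF.1
  · have h1 := van_mul (vanishes_zero (p l) (X 0)) (hF.2 l)
    rwa [Nat.zero_add] at h1

/-- A form not divisible by `x_0`. -/
theorem exists_GS (hp : ∀ l, p l 0 ≠ 0) (m : Fin a → ℕ) : ∀ (e : ℕ),
    (∃ F ∈ fatForms (s + 1) e p m, F ≠ 0) →
    ∃ β : Fin (s + 1) → ℕ, GS p (fun l => (m l : ℤ)) β ∧ ∑ i, β i ≤ e := by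
  intro e
  induction e with
  | zero =>
    rintro ⟨F, hF, hF0⟩
    refine ⟨0, ⟨F, ?_, ?_, fun i => ?_⟩, by simp⟩
    · have : ∑ i : Fin (s + 1), (0 : Fin (s + 1) → ℕ) i = 0 := by simp
      rw [this]
      exact ⟨hF.1, fun l => hF.2 l⟩
    · intro h
      obtain ⟨R, rfl⟩ := dvd_of_res (s + 1) h
      have h1 := hF.1.totalDegree hF0
      rw [totalDegree_mul_of_isDomain (X_ne_zero 0) (right_ne_zero_of_mul hF0),
        totalDegree_X] at h1
      omega
    · have h1 : F = C (coeff 0 F) := by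
        have h2 := hF.1.totalDegree hF0
        exact totalDegree_eq_zero_iff_eq_C.1 h2
      rw [h1]
      have h2 : res (s + 1) (C (coeff 0 F)) = C (coeff 0 F) := by
        unfold res
        rw [aeval_C]
        rfl
      rw [h2, MonomialOrder.degree_C]
      rfl
  | succ e ih =>
    rintro ⟨F, hF, hF0⟩
    by_cases h : res (s + 1) F = 0
    · obtain ⟨R, rfl⟩ := dvd_of_res (s + 1) h
      obtain ⟨β, h1, h2⟩ := ih ⟨R, ⟨hom_div hF.1, fun l =>
        van_div (by rw [eval_X]; exact hp l) (hF.2 l)⟩, right_ne_zero_of_mul hF0⟩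
      exact ⟨β, h1, by omega⟩
    · set β : Fin (s + 1) → ℕ := fun i =>
        (MonomialOrder.lex (σ := Fin (s + 1))).degree (res (s + 1) F) i with hβ
      have h3 : ∑ i, β i = e + 1 := by
        have h4 := res_hom (s + 1) (e + 1) hF.1
          ((MonomialOrder.lex (σ := Fin (s + 1))).coeff_degree_ne_zero_iff.2 h)
        rw [Finsupp.weight_apply, Finsupp.sum_fintype _ _ (fun _ => by simp)] at h4
        simpa using h4
      refine ⟨β, ⟨F, ?_, h, fun i => rfl⟩, h3.le⟩
      rw [h3]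
      exact ⟨hF.1, fun l => hF.2 l⟩

end Pool.Agent.H74.BP

end

section

/-!
# The growth condition for big classes
-/

namespace Pool.Agent.H74.BP

open MvPolynomial Pool.Agent.H18.Fat Pool.Agent.H18.Ub Pool.Agent.H22.LU Pool.Agent.H74.CT

theorem big_growth_fin (s a : ℕ) (hs : 1 ≤ s) (C E T : ℕ) (hE : 1 ≤ E) (hT : 1 ≤ T) :
    ∃ d₀ : ℕ, ∀ d, d₀ ≤ d → ∀ m : Fin a → ℕ,
      (∃ e, T * e + d ≤ T * d ∧ 1 ≤ generalDim (s + 1) e m) →
      E * ((generalDim (s + 1) d m - generalDim (s + 1) (d - 1) m) -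
        (generalDim (s + 1) (d - C) m - generalDim (s + 1) (d - C - 1) m)) ≤
      generalDim (s + 1) d m - generalDim (s + 1) (d - 1) m := by
  classical
  obtain ⟨f, hf⟩ := exists_surjective_nat (ℕ × (Fin a → ℕ))
  obtain ⟨p, hp⟩ := exists_veryGeneral (r := s + 1) (k := a) (P := fun n p =>
    Module.finrank ℂ (fatForms (s + 1) (f n).1 p (f n).2) = generalDim (s + 1) (f n).1 (f n).2 ∧
      ∀ i, p i 0 ≠ 0) fun n =>
    (generalDim_spec (s + 1) (f n).1 (f n).2).and
      (Pool.Agent.H18.Pr.general_ne_zero (s + 1) a)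
  have hp0 : ∀ l, p l 0 ≠ 0 := (hp 0).2
  have hdim : ∀ (d : ℕ) (m : Fin a → ℕ),
      Module.finrank ℂ (fatForms (s + 1) d p m) = generalDim (s + 1) d m := by
    intro d m
    obtain ⟨n, hn⟩ := hf (d, m)
    have h1 := (hp n).1
    rw [hn] at h1
    exact h1
  have hsem := sem_GS hp0
  obtain ⟨d₁, h1⟩ := hsem.slow hs (fun m α h => GS_le m α h) C E T hE hT
  refine ⟨d₁ + C + 1, fun d hd m hm => ?_⟩
  obtain ⟨e, he, hpos⟩ := hm
  have hne : fatForms (s + 1) e p m ≠ ⊥ := by
    intro h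
    rw [← hdim, h, finrank_bot] at hpos
    omega
  obtain ⟨F, hF, hF0⟩ := Submodule.exists_mem_ne_zero_of_ne_bot hne
  obtain ⟨β, hβ1, hβ2⟩ := exists_GS hp0 m e ⟨F, hF, hF0⟩
  have h2 := h1 d (by omega) m ⟨β, hβ1, by
    have : T * ∑ i, β i ≤ T * e := Nat.mul_le_mul_left _ hβ2
    omega⟩
  obtain ⟨d', rfl⟩ : ∃ d', d = d' + 1 := ⟨d - 1, by omega⟩
  obtain ⟨d'', hd''⟩ : ∃ d'', d' + 1 - C = d'' + 1 := ⟨d' + 1 - C - 1, by omega⟩
  have h3 := ncard_GS hp0 m d'
  have h4 := ncard_GS hp0 m d''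
  rw [hdim, hdim] at h3 h4
  rw [hd''] at h2 ⊢
  have e1 : d' + 1 - 1 = d' := rfl
  have e2 : d'' + 1 - 1 = d'' := rfl
  rw [e1, e2]
  have h5 : generalDim (s + 1) (d' + 1) m - generalDim (s + 1) d' m =
      {α : Fin (s + 1) → ℕ | ∑ i, α i = d' + 1 ∧ GS p (fun l => (m l : ℤ)) α}.ncard := by omega
  have h6 : generalDim (s + 1) (d'' + 1) m - generalDim (s + 1) d'' m =
      {α : Fin (s + 1) → ℕ | ∑ i, α i = d'' + 1 ∧ GS p (fun l => (m l : ℤ)) α}.ncard := by omega
  rw [h5, h6]
  exact h2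

theorem fatForms_pad (r j : ℕ) {k a : ℕ} (p : Fin k → Fin (r + 1) → ℂ) (m : Fin k → ℕ)
    (J : Finset (Fin k)) (hJ : J.card = a) :
    fatForms r j p (fun i => if i ∈ J then m i else 0) =
      fatForms r j (fun l => p (J.orderEmbOfFin hJ l)) (fun l => m (J.orderEmbOfFin hJ l)) := by
  ext F
  constructor
  · rintro ⟨h1, h2⟩
    refine ⟨h1, fun l => ?_⟩
    have h3 := h2 (J.orderEmbOfFin hJ l)
    dsimp only at h3
    rw [if_pos (J.orderEmbOfFin_mem hJ l)] at h3
    exact h3
  · rintro ⟨h1, h2⟩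
    refine ⟨h1, fun i => ?_⟩
    dsimp only
    by_cases hi : i ∈ J
    · rw [if_pos hi]
      have h3 : i ∈ Set.range (J.orderEmbOfFin hJ) := by
        rw [Finset.range_orderEmbOfFin]
        exact hi
      obtain ⟨l, rfl⟩ := h3
      exact h2 l
    · rw [if_neg hi]
      exact vanishes_zero _ _

theorem generalDim_pad (r j : ℕ) {k a : ℕ} (m : Fin k → ℕ) (J : Finset (Fin k))
    (hJ : J.card = a) :
    generalDim r j (fun i => if i ∈ J then m i else 0) =
      generalDim r j (fun l => m (J.orderEmbOfFin hJ l)) := by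
  classical
  unfold generalDim
  congr 1
  ext x
  constructor
  · rintro ⟨p, hp⟩
    refine ⟨fun l => p (J.orderEmbOfFin hJ l), ?_⟩
    rw [← fatForms_pad]
    exact hp
  · rintro ⟨p', hp'⟩
    refine ⟨Function.extend (J.orderEmbOfFin hJ) p' fun _ => 0, ?_⟩
    rw [fatForms_pad r j _ m J hJ]
    have h1 : (fun l => Function.extend (J.orderEmbOfFin hJ) p' (fun _ => 0)
        (J.orderEmbOfFin hJ l)) = p' := by
      funext l
      exact (J.orderEmbOfFin hJ).injective.extend_apply _ _ _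
    rw [h1]
    exact hp'

/-- The growth condition for big classes, uniformly in the multiplicities. -/
theorem big_growth (r a : ℕ) (hr : 2 ≤ r) (C E T : ℕ) (hE : 1 ≤ E) (hT : 1 ≤ T) :
    ∃ d₀ : ℕ, ∀ d, d₀ ≤ d → ∀ (k : ℕ) (m : Fin k → ℕ) (J : Finset (Fin k)), J.card ≤ a →
      ∀ h : ℕ → ℕ, (∀ j, h j = generalDim r j fun i => if i ∈ J then m i else 0) →
      (∃ e, T * e + d ≤ T * d ∧ 1 ≤ h e) →
      E * ((h d - h (d - 1)) - (h (d - C) - h (d - C - 1))) ≤ h d - h (d - 1) := by
  obtain ⟨s, rfl⟩ : ∃ s, r = s + 1 := ⟨r - 1, by omega⟩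
  choose f hf using fun a => big_growth_fin s a (by omega) C E T hE hT
  refine ⟨(Finset.range (a + 1)).sup f, fun d hd k m J hJ h hh he => ?_⟩
  have h1 : f J.card ≤ d := (Finset.le_sup (f := f) (Finset.mem_range.2 (by omega))).trans hd
  have h2 : ∀ j, h j = generalDim (s + 1) j fun l => m (J.orderEmbOfFin rfl l) := fun j => by
    rw [hh, generalDim_pad (s + 1) j m J rfl]
  obtain ⟨e, he1, he2⟩ := he
  rw [h2] at he2
  rw [h2, h2, h2, h2]
  exact hf J.card d h1 _ ⟨e, he1, he2⟩

end Pool.Agent.H74.BP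

end
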